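import Pool.Agent.Y656.Cut
import Pool.Agent.W741.CB.DE
import Pool.Agent.W337.CB.Mecke

/-!
# One more particle, for a pair potential of finite range which may be infinite
-/

set_option autoImplicit false
set_option linter.unusedSectionVars false

open MeasureTheory
open scoped ENNReal

namespace Pool.Agent.Y656

open Pool.Agent.W761.CB
open Pool.Agent.W338.CB (ms_cs)
open Pool.Agent.W741.CB (meas_dE meas_an meas_an2 meas_shift meas_shift2 meas_int mono_kin ebc)

noncomputable section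

/-! ### Families of vectors -/

section fam
variable {X : Type} [MeasurableSpace X] {Θ : X → Multiset X → ℝ}

/-- the family as a family of complex vectors -/
def tc (Θ : X → Multiset X → ℝ) (w : X) : Multiset X → ℂ := fun S => ((Θ w S : ℝ) : ℂ)

lemma en2r (t : ℝ) : ‖((t : ℝ) : ℂ)‖ₑ ^ 2 = ENNReal.ofReal (t ^ 2) := by
  rw [← ofReal_norm, Complex.norm_real, ← ENNReal.ofReal_pow (norm_nonneg _), Real.norm_eq_abs,
    sq_abs]

theorem FR.tc_EB (h : FR Θ) (w : X) : EB (tc Θ w) := by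
  obtain ⟨C, c, hC, hc, hb⟩ := h.bdd
  refine ⟨Complex.measurable_ofReal.comp (h.fix w), C, c, hC, hc, fun S => ?_⟩
  unfold tc
  rw [Complex.norm_real, Real.norm_eq_abs]
  exact hb w S

theorem FR.meas2 (h : FR Θ) : Measurable fun q : (X × X) × Cf X => Θ q.1.1 (q.1.2 ::ₘ ms q.2) := by
  obtain ⟨hcs, -⟩ := Pool.Agent.W975.CB.proof_ms X
  have h2 : Measurable fun q : (X × X) × Cf X => (q.1.1, cs q.1.2 q.2) :=
    (measurable_fst.comp measurable_fst).prodMk
      (hcs.comp ((measurable_snd.comp measurable_fst).prodMk measurable_snd))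
  have h3 := h.meas.comp h2
  simpa only [Function.comp_def, ms_cs] using h3

theorem FR.meas3 (h : FR Θ) :
    Measurable fun q : (X × X × X) × Cf X => Θ q.1.1 (q.1.2.1 ::ₘ q.1.2.2 ::ₘ ms q.2) := by
  obtain ⟨hcs, -⟩ := Pool.Agent.W975.CB.proof_ms X
  have h2 : Measurable fun q : (X × X × X) × Cf X => ((q.1.1, q.1.2.1), cs q.1.2.2 q.2) :=
    ((measurable_fst.comp measurable_fst).prodMk
      (measurable_fst.comp (measurable_snd.comp measurable_fst))).prodMk
      (hcs.comp ((measurable_snd.comp (measurable_snd.comp measurable_fst)).prodMk measurable_snd))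
  have h3 := h.meas2.comp h2
  simpa only [Function.comp_def, ms_cs] using h3

variable (ν : Measure X) [IsFiniteMeasure ν]

lemma nE_tc (w : X) : nE ν (tc Θ w) = ∫⁻ γ, ENNReal.ofReal (Θ w (ms γ) ^ 2) ∂(lam ν) := by
  unfold nE tc
  simp only [en2r]

lemma dE_tc (w x y : X) : dE ν (tc Θ w) x y =
    ∫⁻ γ, ENNReal.ofReal ((Θ w (x ::ₘ ms γ) - Θ w (y ::ₘ ms γ)) ^ 2) ∂(lam ν) := by
  unfold dE nE tc
  simp only [← Complex.ofReal_sub, en2r]

lemma pair_tc (w x y : X) : nE ν (an y (an x (tc Θ w))) =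
    ∫⁻ γ, ENNReal.ofReal (Θ w (x ::ₘ y ::ₘ ms γ) ^ 2) ∂(lam ν) := by
  unfold nE an tc
  simp only [en2r]

lemma finlam : IsFiniteMeasure (lam ν) :=
  (Pool.Agent.W366.CB.proof_lam Pool.Agent.W975.CB.proof_ms X ν).2.1

theorem FR.m_nE (h : FR Θ) : Measurable fun w : X => nE ν (tc Θ w) := by
  haveI := finlam ν
  simp only [nE_tc]
  exact h.sqm.lintegral_prod_right'

theorem FR.m_dE (h : FR Θ) : Measurable fun q : X × X × X => dE ν (tc Θ q.1) q.2.1 q.2.2 := by
  haveI := finlam ν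
  simp only [dE_tc]
  have h1 : Measurable fun q : (X × X × X) × Cf X => Θ q.1.1 (q.1.2.1 ::ₘ ms q.2) :=
    h.meas2.comp (((measurable_fst.comp measurable_fst).prodMk
      (measurable_fst.comp (measurable_snd.comp measurable_fst))).prodMk measurable_snd)
  have h2 : Measurable fun q : (X × X × X) × Cf X => Θ q.1.1 (q.1.2.2 ::ₘ ms q.2) :=
    h.meas2.comp (((measurable_fst.comp measurable_fst).prodMk
      (measurable_snd.comp (measurable_snd.comp measurable_fst))).prodMk measurable_snd)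
  exact ((h1.sub h2).pow_const 2).ennreal_ofReal.lintegral_prod_right'

theorem FR.m_pair (h : FR Θ) :
    Measurable fun q : X × X × X => nE ν (an q.2.2 (an q.2.1 (tc Θ q.1))) := by
  haveI := finlam ν
  simp only [pair_tc]
  exact (h.meas3.pow_const 2).ennreal_ofReal.lintegral_prod_right'

end fam

/-! ### The vectors -/

section tor
variable {n : ℕ} {L : ℝ} [Fact (0 < L)]

lemma sa_meas (R : ℝ) : Measurable fun p : Tor n L × Tor n L => sa R p.1 p.2 := by
  have : Continuous fun p : Tor n L × Tor n L => sa R p.1 p.2 := by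
    unfold sa ang
    fun_prop
  exact this.measurable

lemma ss_meas (R : ℝ) : Measurable fun p : Tor n L × Cf (Tor n L) => ss R p.1 (ms p.2) := by
  obtain ⟨-, -, h3, -⟩ := Pool.Agent.W975.CB.proof_ms (Tor n L)
  have h := h3 (Tor n L) (fun w y => ((sa R w y : ℝ) : ℂ))
    (Complex.measurable_ofReal.comp (sa_meas R))
  have e : (fun p : Tor n L × Cf (Tor n L) => ss R p.1 (ms p.2)) =
      fun p : Tor n L × Cf (Tor n L) =>
        (((ms p.2).map fun y => ((sa R p.1 y : ℝ) : ℂ)).prod).re := by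
    funext p
    have e2 : ((ms p.2).map fun y => ((sa R p.1 y : ℝ) : ℂ)).prod = ((ss R p.1 (ms p.2) : ℝ) : ℂ) := by
      unfold ss
      have := map_multiset_prod Complex.ofRealHom ((ms p.2).map fun y => sa R p.1 y)
      rw [Multiset.map_map] at this
      exact this.symm
    rw [e2, Complex.ofReal_re]
  rw [e]
  exact Complex.measurable_re.comp h

lemma sc_meas (R : ℝ) : Measurable fun p : Tor n L × Cf (Tor n L) => sc R p.1 (ms p.2) := by
  unfold sc
  exact (measurable_const.sub ((ss_meas R).pow_const 2)).sqrt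

/-- the part with the new particle far from the other particles -/
def Ps3 (R : ℝ) (F : Multiset (Tor n L) → ℂ) (w : Tor n L) (S : Multiset (Tor n L)) : ℝ :=
  ss R w S * ‖F S‖

/-- the part with a particle near the point `w` -/
def Ph3 (R : ℝ) (F : Multiset (Tor n L) → ℂ) (w : Tor n L) (S : Multiset (Tor n L)) : ℝ :=
  sc R w S * ‖F S‖

lemma Ps3_FR (R : ℝ) {F : Multiset (Tor n L) → ℂ} (hF : EB F) : FR (Ps3 R F) := by
  obtain ⟨C, c, hC, hc, hb⟩ := hF.bdd
  refine ⟨(ss_meas R).mul ((hF.meas.norm).comp measurable_snd), C, c, hC, hc, fun w S => ?_⟩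
  unfold Ps3
  rw [abs_mul, abs_of_nonneg (ss_nonneg _ _ _), abs_norm]
  exact (mul_le_of_le_one_left (norm_nonneg _) (ss_le _ _ _)).trans (hb S)

lemma Ph3_FR (R : ℝ) {F : Multiset (Tor n L) → ℂ} (hF : EB F) : FR (Ph3 R F) := by
  obtain ⟨C, c, hC, hc, hb⟩ := hF.bdd
  refine ⟨(sc_meas R).mul ((hF.meas.norm).comp measurable_snd), C, c, hC, hc, fun w S => ?_⟩
  unfold Ph3
  rw [abs_mul, abs_of_nonneg (sc_nonneg _ _ _), abs_norm]
  exact (mul_le_of_le_one_left (norm_nonneg _) (sc_le _ _ _)).trans (hb S)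

lemma en_sq' (z : ℂ) : ‖z‖ₑ ^ 2 = ENNReal.ofReal (‖z‖ ^ 2) := by
  rw [← ofReal_norm, ENNReal.ofReal_pow (norm_nonneg z)]

lemma sum_sq (R : ℝ) (F : Multiset (Tor n L) → ℂ) (w : Tor n L) (S : Multiset (Tor n L)) :
    ENNReal.ofReal (Ps3 R F w S ^ 2) + ENNReal.ofReal (Ph3 R F w S ^ 2) = ‖F S‖ₑ ^ 2 := by
  rw [← ENNReal.ofReal_add (by positivity) (by positivity), en_sq']
  congr 1
  unfold Ps3 Ph3
  rw [mul_pow, mul_pow, sc_sq]
  ring

/-- the norms -/
theorem add_nE (hTF : S_TF) (R : ℝ) {F : Multiset (Tor n L) → ℂ} (hF : EB F) :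
    nE volume (GP (Ps3 R F)) + ∫⁻ w, nE volume (tc (Ph3 R F) w) =
      ENNReal.ofReal (L ^ n) * nE volume F := by
  haveI := finlam (volume : Measure (Tor n L))
  have h1 := (Ps3_FR R hF)
  have h2 := (Ph3_FR R hF)
  rw [nE_GP volume h1]
  simp only [nE_tc]
  rw [← lintegral_add_left h1.sqm.lintegral_prod_right']
  have e : ∀ w : Tor n L, (∫⁻ γ, ENNReal.ofReal (Ps3 R F w (ms γ) ^ 2) ∂(lam volume)) +
      ∫⁻ γ, ENNReal.ofReal (Ph3 R F w (ms γ) ^ 2) ∂(lam volume) = nE volume F := by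
    intro w
    rw [← lintegral_add_left ((h1.fix w).pow_const 2).ennreal_ofReal]
    unfold nE
    exact lintegral_congr fun γ => sum_sq R F w (ms γ)
  simp only [e]
  rw [lintegral_const, (hTF n L).1, mul_comm]

/-- the norm of the part with a particle near `w` -/
theorem cos_nE {R : ℝ} (hR : 0 < R) {F : Multiset (Tor n L) → ℂ} (hF : EB F) :
    ∫⁻ w, nE volume (tc (Ph3 R F) w) ≤ ENNReal.ofReal ((4 * R) ^ n) * nuE volume F := by
  haveI := finlam (volume : Measure (Tor n L))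
  have hM := Pool.Agent.W975.CB.proof_ms
  have hL := Pool.Agent.W366.CB.proof_lam hM
  have hind : Measurable fun p : Tor n L × Tor n L => (nb R p.2).indicator (fun _ => (1 : ℝ≥0∞)) p.1 := by
    have hs : MeasurableSet {p : Tor n L × Tor n L | ‖p.1 - p.2‖ < 2 * R} :=
      measurableSet_lt (by fun_prop) measurable_const
    have h3 : Measurable fun _ : Tor n L × Tor n L => (1 : ℝ≥0∞) := measurable_const
    exact h3.indicator hs
  have h1 : ∀ w : Tor n L, nE volume (tc (Ph3 R F) w) ≤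
      ∫⁻ y, (nb R y).indicator (fun _ => (1 : ℝ≥0∞)) w * nE volume (an y F) := by
    intro w
    rw [nE_tc]
    have hm : Measurable fun p : Tor n L × Cf (Tor n L) =>
        (nb R p.1).indicator (fun _ => (1 : ℝ≥0∞)) w * ‖F (ms p.2)‖ₑ ^ 2 :=
      (hind.comp (measurable_const.prodMk measurable_fst)).mul
        ((hF.meas.comp measurable_snd).enorm.pow_const 2)
    have h2 := Pool.Agent.W337.CB.proof_mecke hM hL (Tor n L) volume
      (fun y S => (nb R y).indicator (fun _ => (1 : ℝ≥0∞)) w * ‖F S‖ₑ ^ 2) hm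
    calc _ ≤ ∫⁻ γ, ((ms γ).map fun y => (nb R y).indicator (fun _ => (1 : ℝ≥0∞)) w *
          ‖F (ms γ)‖ₑ ^ 2).sum ∂(lam volume) := by
          refine lintegral_mono fun γ => ?_
          rw [Multiset.sum_map_mul_right, en_sq']
          unfold Ph3
          rw [mul_pow, ENNReal.ofReal_mul (by positivity)]
          exact mul_le_mul' (sc_sum hR w (ms γ)) le_rfl
      _ = _ := by
          rw [h2]
          refine lintegral_congr fun y => ?_
          unfold nE an
          rw [lintegral_const_mul']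
          by_cases hy : w ∈ nb R y
          · simp [Set.indicator_of_mem hy]
          · simp [Set.indicator_of_notMem hy]
  refine (lintegral_mono h1).trans ?_
  rw [lintegral_lintegral_swap]
  · unfold nuE
    rw [← lintegral_const_mul' _ _ ENNReal.ofReal_ne_top]
    refine lintegral_mono fun y => ?_
    dsimp only
    rw [lintegral_mul_const _ (measurable_const.indicator (nb_meas R y)),
      lintegral_indicator_const (nb_meas R y), one_mul]
    exact mul_le_mul' (nb_vol hR y) le_rfl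
  · exact (hind.mul ((meas_an hF).comp measurable_snd)).aemeasurable

/-- the difference of the angles -/
def Dd (R : ℝ) (x y z : Tor n L) : ℝ≥0∞ := ENNReal.ofReal (dq (sa R x z) (sa R y z))

lemma Dd_meas (R : ℝ) :
    Measurable fun q : Tor n L × Tor n L × Tor n L => Dd R q.1 q.2.1 q.2.2 := by
  have h1 : Measurable fun q : Tor n L × Tor n L × Tor n L => sa R q.1 q.2.2 :=
    (sa_meas R).comp (f := fun q : Tor n L × Tor n L × Tor n L => (q.1, q.2.2))
      (measurable_fst.prodMk (measurable_snd.comp measurable_snd))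
  have h2 : Measurable fun q : Tor n L × Tor n L × Tor n L => sa R q.2.1 q.2.2 :=
    (sa_meas R).comp (f := fun q : Tor n L × Tor n L × Tor n L => (q.2.1, q.2.2))
      ((measurable_fst.comp measurable_snd).prodMk (measurable_snd.comp measurable_snd))
  have h3 : Measurable fun r : ℝ × ℝ => ENNReal.ofReal (dq r.1 r.2) := by
    unfold dq
    fun_prop
  exact h3.comp (f := fun q : Tor n L × Tor n L × Tor n L => (sa R q.1 q.2.2, sa R q.2.1 q.2.2))
    (h1.prodMk h2)

lemma Dd_le {R : ℝ} (hR : 1 ≤ R) (x h z : Tor n L) : Dd R (x + h) x z ≤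
    ENNReal.ofReal (4 * min 1 (‖h‖ ^ 2)) * ((nb R z).indicator (fun _ => (1 : ℝ≥0∞)) x +
      (nb R z).indicator (fun _ => (1 : ℝ≥0∞)) (x + h)) := by
  have hR0 : 0 < R := by linarith
  by_cases h1 : x ∈ nb R z
  · rw [Set.indicator_of_mem h1]
    calc Dd R (x + h) x z ≤ ENNReal.ofReal (4 * min 1 (‖h‖ ^ 2)) * 1 := by
          rw [mul_one]
          exact ENNReal.ofReal_le_ofReal (dq_sa_le hR x h z)
      _ ≤ _ := by
          gcongr
          exact le_self_add
  · by_cases h2 : x + h ∈ nb R z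
    · rw [Set.indicator_of_mem h2]
      calc Dd R (x + h) x z ≤ ENNReal.ofReal (4 * min 1 (‖h‖ ^ 2)) * 1 := by
            rw [mul_one]
            exact ENNReal.ofReal_le_ofReal (dq_sa_le hR x h z)
        _ ≤ _ := by
            gcongr
            exact le_add_self
    · unfold Dd
      rw [dq_sa_zero hR0 (not_lt.1 h2) (not_lt.1 h1), ENNReal.ofReal_zero]
      exact zero_le

/-- the constant -/
def mm (n : ℕ) (R : ℝ) (t : ℝ) : ℝ := 8 * (4 * R) ^ n * min 1 (t ^ 2)

lemma mm_eq {n : ℕ} {R : ℝ} (hR : 1 ≤ R) (t : ℝ) :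
    ENNReal.ofReal (4 * min 1 (t ^ 2)) * (ENNReal.ofReal ((4 * R) ^ n) +
      ENNReal.ofReal ((4 * R) ^ n)) = ENNReal.ofReal (mm n R t) := by
  have h1 : 0 ≤ min 1 (t ^ 2) := le_min zero_le_one (sq_nonneg _)
  have hR0 : 0 ≤ R := by linarith
  rw [← ENNReal.ofReal_add (by positivity) (by positivity), ← ENNReal.ofReal_mul (by positivity)]
  congr 1
  unfold mm
  ring

lemma int_D1 (hTF : S_TF) {R : ℝ} (hR : 1 ≤ R) (h z : Tor n L) :
    ∫⁻ x, Dd R (x + h) x z ≤ ENNReal.ofReal (mm n R ‖h‖) := by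
  have hR0 : 0 < R := by linarith
  have hm : Measurable (fun x : Tor n L => (nb R z).indicator (fun _ => (1 : ℝ≥0∞)) x) :=
    measurable_const.indicator (nb_meas R z)
  refine (lintegral_mono fun x => Dd_le hR x h z).trans ?_
  rw [lintegral_const_mul' _ _ ENNReal.ofReal_ne_top, lintegral_add_left hm,
    (hTF n L).2.2.2.2.1 _ hm h, lintegral_indicator_const (nb_meas R z), one_mul, ← mm_eq hR]
  gcongr <;> exact nb_vol hR0 z

lemma nb_symm (R : ℝ) (x y : Tor n L) : x ∈ nb R y ↔ y ∈ nb R x := by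
  change ‖x - y‖ < 2 * R ↔ ‖y - x‖ < 2 * R
  rw [norm_sub_rev]

lemma int_D2 {R : ℝ} (hR : 1 ≤ R) (x h : Tor n L) :
    ∫⁻ w, Dd R (x + h) x w ≤ ENNReal.ofReal (mm n R ‖h‖) := by
  have hR0 : 0 < R := by linarith
  have hm : ∀ z : Tor n L, Measurable (fun x : Tor n L => (nb R z).indicator
      (fun _ => (1 : ℝ≥0∞)) x) := fun z => measurable_const.indicator (nb_meas R z)
  have e : ∀ x w : Tor n L, (nb R w).indicator (fun _ => (1 : ℝ≥0∞)) x =
      (nb R x).indicator (fun _ => (1 : ℝ≥0∞)) w := by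
    intro x w
    by_cases h1 : x ∈ nb R w
    · rw [Set.indicator_of_mem h1, Set.indicator_of_mem ((nb_symm R x w).1 h1)]
    · rw [Set.indicator_of_notMem h1,
        Set.indicator_of_notMem fun h2 => h1 ((nb_symm R x w).2 h2)]
  have h5 : ∀ w : Tor n L, Dd R (x + h) x w ≤ ENNReal.ofReal (4 * min 1 (‖h‖ ^ 2)) *
      ((nb R x).indicator (fun _ => (1 : ℝ≥0∞)) w +
      (nb R (x + h)).indicator (fun _ => (1 : ℝ≥0∞)) w) := by
    intro w
    rw [← e x w, ← e (x + h) w]
    exact Dd_le hR x h w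
  refine (lintegral_mono h5).trans ?_
  rw [lintegral_const_mul' _ _ ENNReal.ofReal_ne_top, lintegral_add_left (hm _),
    lintegral_indicator_const (nb_meas R _), lintegral_indicator_const (nb_meas R _),
    one_mul, one_mul, ← mm_eq hR]
  gcongr <;> exact nb_vol hR0 _

/-- the differences, pointwise -/
theorem add_dE (hTF : S_TF) {R : ℝ} {F : Multiset (Tor n L) → ℂ} (hF : EB F)
    (x y : Tor n L) : dE volume (GP (Ps3 R F)) x y + ∫⁻ w, dE volume (tc (Ph3 R F) w) x y ≤
      (∫⁻ z, Dd R x y z * nE volume (an z F)) + (ENNReal.ofReal (L ^ n) * dE volume F x y +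
        (∫⁻ w, Dd R x y w) * (2⁻¹ * nE volume (an x F) + 2⁻¹ * nE volume (an y F))) := by
  haveI := finlam (volume : Measure (Tor n L))
  have hM := Pool.Agent.W975.CB.proof_ms
  have hL := Pool.Agent.W366.CB.proof_lam hM
  have h1 := (Ps3_FR R hF)
  have h2 := (Ph3_FR R hF)
  have hx : EB (an x F) := (ebc (Tor n L) volume F F hF hF).1 x
  have hy : EB (an y F) := (ebc (Tor n L) volume F F hF hF).1 y
  have hDx : Measurable fun z : Tor n L => Dd R x y z :=
    (Dd_meas R).comp (f := fun z : Tor n L => (x, y, z))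
      (measurable_const.prodMk (measurable_const.prodMk measurable_id))
  -- the new particle moves
  have t1 : ∫⁻ γ, ENNReal.ofReal ((Ps3 R F x (ms γ) - Ps3 R F y (ms γ)) ^ 2) ∂(lam volume) ≤
      ∫⁻ z, Dd R x y z * nE volume (an z F) := by
    have hm : Measurable fun p : Tor n L × Cf (Tor n L) => Dd R x y p.1 * ‖F (ms p.2)‖ₑ ^ 2 :=
      (hDx.comp measurable_fst).mul ((hF.meas.comp measurable_snd).enorm.pow_const 2)
    have h3 := Pool.Agent.W337.CB.proof_mecke hM hL (Tor n L) volume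
      (fun z S => Dd R x y z * ‖F S‖ₑ ^ 2) hm
    have h4 : ∫⁻ z, Dd R x y z * nE volume (an z F) =
        ∫⁻ z, ∫⁻ γ, Dd R x y z * ‖F (z ::ₘ ms γ)‖ₑ ^ 2 ∂(lam volume) := by
      refine lintegral_congr fun z => ?_
      unfold nE an
      rw [lintegral_const_mul']
      exact ENNReal.ofReal_ne_top
    rw [h4, ← h3]
    refine lintegral_mono fun γ => ?_
    dsimp only
    rw [Multiset.sum_map_mul_right, en_sq']
    have h5 := dq_ss R x y (ms γ)
    have h6 : (ss R x (ms γ) - ss R y (ms γ)) ^ 2 ≤ dq (ss R x (ms γ)) (ss R y (ms γ)) := by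
      unfold dq
      have := sq_nonneg (√(1 - ss R x (ms γ) ^ 2) - √(1 - ss R y (ms γ) ^ 2))
      linarith
    have h7 : (((ms γ).map fun z => Dd R x y z).sum : ℝ≥0∞) =
        ENNReal.ofReal ((ms γ).map fun z => dq (sa R x z) (sa R y z)).sum := by
      generalize ms γ = S
      induction S using Multiset.induction with
      | empty => simp
      | cons a S ih =>
        rw [Multiset.map_cons, Multiset.sum_cons, Multiset.map_cons, Multiset.sum_cons, ih,
          ENNReal.ofReal_add (dq_nonneg _ _)]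
        · rfl
        · exact Multiset.sum_nonneg fun r hr => by
            obtain ⟨z, -, rfl⟩ := Multiset.mem_map.1 hr
            exact dq_nonneg _ _
    rw [h7, ← ENNReal.ofReal_mul (Multiset.sum_nonneg fun r hr => by
      obtain ⟨z, -, rfl⟩ := Multiset.mem_map.1 hr
      exact dq_nonneg _ _)]
    refine ENNReal.ofReal_le_ofReal ?_
    unfold Ps3
    rw [← sub_mul, mul_pow]
    exact mul_le_mul_of_nonneg_right (h6.trans h5) (by positivity)
  -- an old particle moves
  have m1 : Measurable fun w : Tor n L => ∫⁻ γ, ENNReal.ofReal ((Ps3 R F w (x ::ₘ ms γ) -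
      Ps3 R F w (y ::ₘ ms γ)) ^ 2) ∂(lam volume) :=
    ((h1.cons x).sub (h1.cons y)).sqm.lintegral_prod_right'
  have mx : Measurable fun γ : Cf (Tor n L) => ‖F (x ::ₘ ms γ)‖ₑ ^ 2 := hx.meas.enorm.pow_const 2
  have my : Measurable fun γ : Cf (Tor n L) => ‖F (y ::ₘ ms γ)‖ₑ ^ 2 := hy.meas.enorm.pow_const 2
  have t2 : ∀ w : Tor n L, (∫⁻ γ, ENNReal.ofReal ((Ps3 R F w (x ::ₘ ms γ) -
      Ps3 R F w (y ::ₘ ms γ)) ^ 2) ∂(lam volume)) + dE volume (tc (Ph3 R F) w) x y ≤
      dE volume F x y + Dd R x y w * (2⁻¹ * nE volume (an x F) + 2⁻¹ * nE volume (an y F)) := by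
    intro w
    have m2 : Measurable fun γ : Cf (Tor n L) => ENNReal.ofReal ((Ps3 R F w (x ::ₘ ms γ) -
        Ps3 R F w (y ::ₘ ms γ)) ^ 2) := (((h1.cons x).sub (h1.cons y)).fix w |>.pow_const 2).ennreal_ofReal
    have m3 : Measurable fun γ : Cf (Tor n L) => ‖F (x ::ₘ ms γ) - F (y ::ₘ ms γ)‖ₑ ^ 2 :=
      ((hx.meas.sub hy.meas).enorm).pow_const 2
    rw [dE_tc, ← lintegral_add_left m2]
    have e1 : dE volume F x y + Dd R x y w * (2⁻¹ * nE volume (an x F) +
        2⁻¹ * nE volume (an y F)) = ∫⁻ γ, (‖F (x ::ₘ ms γ) - F (y ::ₘ ms γ)‖ₑ ^ 2 +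
          Dd R x y w * (2⁻¹ * ‖F (x ::ₘ ms γ)‖ₑ ^ 2 + 2⁻¹ * ‖F (y ::ₘ ms γ)‖ₑ ^ 2))
            ∂(lam volume) := by
      rw [lintegral_add_left m3, lintegral_const_mul' (Dd R x y w) _
          (by unfold Dd; exact ENNReal.ofReal_ne_top),
        lintegral_add_left (mx.const_mul _), lintegral_const_mul _ mx, lintegral_const_mul _ my]
      rfl
    rw [e1]
    refine lintegral_mono fun γ => ?_
    dsimp only
    have h3 := ims (F := ‖F (x ::ₘ ms γ)‖) (F' := ‖F (y ::ₘ ms γ)‖)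
      (ss_nonneg R w (x ::ₘ ms γ)) (ss_le R w (x ::ₘ ms γ))
      (ss_nonneg R w (y ::ₘ ms γ)) (ss_le R w (y ::ₘ ms γ))
    have h4 := dq_ss' R w x y (ms γ)
    have h5 : (‖F (x ::ₘ ms γ)‖ - ‖F (y ::ₘ ms γ)‖) ^ 2 ≤ ‖F (x ::ₘ ms γ) - F (y ::ₘ ms γ)‖ ^ 2 := by
      have := abs_norm_sub_norm_le (F (x ::ₘ ms γ)) (F (y ::ₘ ms γ))
      rw [← sq_abs]
      exact pow_le_pow_left₀ (abs_nonneg _) this 2
    have e2 : (2⁻¹ : ℝ≥0∞) = ENNReal.ofReal (1 / 2) := by
      rw [one_div, ENNReal.ofReal_inv_of_pos (by norm_num)]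
      norm_num
    have e3 : Dd R x y w * (2⁻¹ * ‖F (x ::ₘ ms γ)‖ₑ ^ 2 + 2⁻¹ * ‖F (y ::ₘ ms γ)‖ₑ ^ 2) =
        ENNReal.ofReal (dq (sa R x w) (sa R y w) * (1 / 2 * ‖F (x ::ₘ ms γ)‖ ^ 2 +
          1 / 2 * ‖F (y ::ₘ ms γ)‖ ^ 2)) := by
      rw [en_sq', en_sq', e2, ← ENNReal.ofReal_mul (by norm_num),
        ← ENNReal.ofReal_mul (by norm_num), ← ENNReal.ofReal_add (by positivity) (by positivity),
        Dd, ← ENNReal.ofReal_mul (dq_nonneg _ _)]
    rw [e3, en_sq', ← ENNReal.ofReal_add (by positivity) (by positivity),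
      ← ENNReal.ofReal_add (by positivity) (mul_nonneg (dq_nonneg _ _) (by positivity))]
    refine ENNReal.ofReal_le_ofReal ?_
    have h6 : 0 ≤ ‖F (x ::ₘ ms γ)‖ ^ 2 / 2 + ‖F (y ::ₘ ms γ)‖ ^ 2 / 2 := by positivity
    have h7 := mul_le_mul_of_nonneg_right h4 h6
    unfold Ps3 Ph3
    unfold sc
    linarith
  calc dE volume (GP (Ps3 R F)) x y + ∫⁻ w, dE volume (tc (Ph3 R F) w) x y
      ≤ ((∫⁻ z, Dd R x y z * nE volume (an z F)) +
        ∫⁻ w, ∫⁻ γ, ENNReal.ofReal ((Ps3 R F w (x ::ₘ ms γ) -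
          Ps3 R F w (y ::ₘ ms γ)) ^ 2) ∂(lam volume)) +
            ∫⁻ w, dE volume (tc (Ph3 R F) w) x y := by
        gcongr
        exact (dE_GP volume h1 x y).trans (add_le_add t1 le_rfl)
    _ = (∫⁻ z, Dd R x y z * nE volume (an z F)) +
        ∫⁻ w, ((∫⁻ γ, ENNReal.ofReal ((Ps3 R F w (x ::ₘ ms γ) -
          Ps3 R F w (y ::ₘ ms γ)) ^ 2) ∂(lam volume)) + dE volume (tc (Ph3 R F) w) x y) := by
        rw [lintegral_add_left m1, add_assoc]
    _ ≤ (∫⁻ z, Dd R x y z * nE volume (an z F)) +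
        ∫⁻ w, (dE volume F x y + Dd R x y w * (2⁻¹ * nE volume (an x F) +
          2⁻¹ * nE volume (an y F))) := add_le_add le_rfl (lintegral_mono t2)
    _ = _ := by
        rw [lintegral_add_left measurable_const, lintegral_const, (hTF n L).1,
          lintegral_mul_const _ hDx, mul_comm (dE volume F x y)]

end tor

end

end Pool.Agent.Y656
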