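import Pool.Agent.Y656.Add3
import Pool.Agent.TH268.CC.Lowc

/-!
# One more particle: the energy
-/

set_option autoImplicit false
set_option linter.unusedSectionVars false

open MeasureTheory
open scoped ENNReal

namespace Pool.Agent.Y656

open Pool.Agent.W761.CB
open Pool.Agent.W338.CB (ms_cs)
open Pool.Agent.W741.CB (meas_dE meas_an meas_an2 meas_shift meas_shift2 meas_int mono_kin ebc
  tdist_symm)

noncomputable section

attribute [local irreducible] dE nE

variable {n : ℕ} {L : ℝ} [Fact (0 < L)]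

lemma FR.m_shift {Θ : Tor n L → Multiset (Tor n L) → ℝ} (hΘ : FR Θ) (h : Tor n L) :
    Measurable fun p : Tor n L × Tor n L => dE volume (tc Θ p.1) (p.2 + h) p.2 :=
  (hΘ.m_dE volume).comp (f := fun p : Tor n L × Tor n L => (p.1, p.2 + h, p.2))
    (measurable_fst.prodMk ((measurable_snd.add_const h).prodMk measurable_snd))

/-- the differences, integrated -/
theorem add_shift (hTF : S_TF) {R : ℝ} (hR : 1 ≤ R) {F : Multiset (Tor n L) → ℂ} (hF : EB F)
    (h : Tor n L) :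
    (∫⁻ x, dE volume (GP (Ps3 R F)) (x + h) x) +
      ∫⁻ w, ∫⁻ x, dE volume (tc (Ph3 R F) w) (x + h) x ≤
    ENNReal.ofReal (L ^ n) * (∫⁻ x, dE volume F (x + h) x) +
      ENNReal.ofReal (2 * mm n R ‖h‖) * nuE volume F := by
  have h2 := Ph3_FR R hF
  have m1 : Measurable fun p : Tor n L × Tor n L =>
      dE volume (tc (Ph3 R F) p.1) (p.2 + h) p.2 := h2.m_shift h
  have mA : Measurable fun x : Tor n L => dE volume (GP (Ps3 R F)) (x + h) x :=
    meas_shift (GP_EB (Ps3_FR R hF)) h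
  have mF : Measurable fun x : Tor n L => dE volume F (x + h) x := meas_shift hF h
  have mN : Measurable fun x : Tor n L => nE volume (an x F) := meas_an hF
  have mNh : Measurable fun x : Tor n L => nE volume (an (x + h) F) :=
    mN.comp (measurable_id.add_const h)
  have mD : Measurable fun p : Tor n L × Tor n L => Dd R (p.1 + h) p.1 p.2 :=
    (Dd_meas R).comp (f := fun p : Tor n L × Tor n L => (p.1 + h, p.1, p.2))
      ((measurable_fst.add_const h).prodMk (measurable_fst.prodMk measurable_snd))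
  have mDz : ∀ z : Tor n L, Measurable fun x : Tor n L => Dd R (x + h) x z := fun z =>
    mD.comp (f := fun x : Tor n L => (x, z)) (measurable_id.prodMk measurable_const)
  have mDN : Measurable fun p : Tor n L × Tor n L => Dd R (p.1 + h) p.1 p.2 *
      nE volume (an p.2 F) := mD.mul (mN.comp measurable_snd)
  have mT1 : Measurable fun x : Tor n L => ∫⁻ z, Dd R (x + h) x z * nE volume (an z F) :=
    mDN.lintegral_prod_right'
  have mLF : Measurable fun x : Tor n L => ENNReal.ofReal (L ^ n) * dE volume F (x + h) x :=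
    mF.const_mul _
  have e0 : ∫⁻ w, ∫⁻ x, dE volume (tc (Ph3 R F) w) (x + h) x =
      ∫⁻ x, ∫⁻ w, dE volume (tc (Ph3 R F) w) (x + h) x :=
    lintegral_lintegral_swap m1.aemeasurable
  have hnu : ∫⁻ x : Tor n L, (2⁻¹ * nE volume (an (x + h) F) + 2⁻¹ * nE volume (an x F)) =
      nuE volume F := by
    have e2 : ∫⁻ x : Tor n L, nE volume (an (x + h) F) = nuE volume F := by
      have := (hTF n L).2.2.2.2.1 (fun x => nE volume (an x F)) mN h
      rw [this]
      rfl
    rw [lintegral_add_left (mNh.const_mul _), lintegral_const_mul _ mNh,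
      lintegral_const_mul _ mN, e2]
    change 2⁻¹ * nuE volume F + 2⁻¹ * nuE volume F = nuE volume F
    rw [← add_mul, ENNReal.inv_two_add_inv_two, one_mul]
  have t1 : ∫⁻ x, ∫⁻ z, Dd R (x + h) x z * nE volume (an z F) ≤
      ENNReal.ofReal (mm n R ‖h‖) * nuE volume F := by
    rw [lintegral_lintegral_swap mDN.aemeasurable]
    unfold nuE
    rw [← lintegral_const_mul _ mN]
    refine lintegral_mono fun z => ?_
    dsimp only
    rw [lintegral_mul_const _ (mDz z)]
    exact mul_le_mul' (int_D1 hTF hR h z) le_rfl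
  have t3 : ∫⁻ x : Tor n L, (∫⁻ w, Dd R (x + h) x w) *
      (2⁻¹ * nE volume (an (x + h) F) + 2⁻¹ * nE volume (an x F)) ≤
      ENNReal.ofReal (mm n R ‖h‖) * nuE volume F := by
    rw [← hnu, ← lintegral_const_mul' _ _ ENNReal.ofReal_ne_top]
    exact lintegral_mono fun x => mul_le_mul' (int_D2 hR x h) le_rfl
  rw [e0, ← lintegral_add_left mA]
  calc ∫⁻ x, (dE volume (GP (Ps3 R F)) (x + h) x + ∫⁻ w, dE volume (tc (Ph3 R F) w) (x + h) x)
      ≤ ∫⁻ x, ((∫⁻ z, Dd R (x + h) x z * nE volume (an z F)) +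
        (ENNReal.ofReal (L ^ n) * dE volume F (x + h) x +
        (∫⁻ w, Dd R (x + h) x w) *
          (2⁻¹ * nE volume (an (x + h) F) + 2⁻¹ * nE volume (an x F)))) :=
        lintegral_mono fun x => add_dE hTF hF (x + h) x
    _ = (∫⁻ x, ∫⁻ z, Dd R (x + h) x z * nE volume (an z F)) +
        (ENNReal.ofReal (L ^ n) * (∫⁻ x, dE volume F (x + h) x) +
        ∫⁻ x : Tor n L, (∫⁻ w, Dd R (x + h) x w) *
          (2⁻¹ * nE volume (an (x + h) F) + 2⁻¹ * nE volume (an x F))) := by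
        rw [lintegral_add_left mT1, lintegral_add_left mLF, lintegral_const_mul _ mF]
    _ ≤ ENNReal.ofReal (mm n R ‖h‖) * nuE volume F +
        (ENNReal.ofReal (L ^ n) * (∫⁻ x, dE volume F (x + h) x) +
        ENNReal.ofReal (mm n R ‖h‖) * nuE volume F) := by gcongr
    _ = _ := by
        have h0 : 0 ≤ min 1 (‖h‖ ^ 2) := le_min zero_le_one (sq_nonneg _)
        have hR0 : 0 ≤ R := by linarith
        have hm0 : 0 ≤ mm n R ‖h‖ := by unfold mm; positivity
        rw [two_mul, ENNReal.ofReal_add hm0 hm0]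
        ring

lemma ec_norm (c : Fin n) (h : ℝ) : ‖ec L c h‖ ≤ |h| := by
  unfold ec pr
  rw [pi_norm_le_iff_of_nonneg (abs_nonneg _)]
  intro d
  by_cases hd : d = c
  · subst hd
    rw [Pi.single_eq_same]
    exact QuotientAddGroup.norm_mk_le_norm
  · rw [Pi.single_eq_of_ne hd]
    simp

lemma pr_norm (z : Fin n → ℝ) : ‖pr L z‖ ≤ el z := by
  unfold pr el
  rw [pi_norm_le_iff_of_nonneg (Real.sqrt_nonneg _)]
  intro d
  have h1 : ‖((z d : ℝ) : AddCircle L)‖ ≤ ‖z d‖ := QuotientAddGroup.norm_mk_le_norm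
  refine h1.trans ?_
  rw [Real.norm_eq_abs]
  apply Real.abs_le_sqrt
  exact Finset.single_le_sum (f := fun c => z c ^ 2) (fun c _ => sq_nonneg _) (Finset.mem_univ d)

lemma mm_mono {R : ℝ} (hR : 0 ≤ R) {s t : ℝ} (hs : 0 ≤ s) (h : s ≤ t) : mm n R s ≤ mm n R t := by
  unfold mm
  have : s ^ 2 ≤ t ^ 2 := pow_le_pow_left₀ hs h 2
  gcongr

/-- the kinetic energy -/
theorem add_Kp (hTF : S_TF) {R : ℝ} (hR : 1 ≤ R) {F : Multiset (Tor n L) → ℂ} (hF : EB F) :
    Kp (GP (Ps3 R F)) + ∫⁻ w, Kp (tc (Ph3 R F) w) ≤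
      ENNReal.ofReal (L ^ n) * Kp F +
        n * (ENNReal.ofReal (16 * (4 * R) ^ n) * nuE volume F) := by
  have h2 := Ph3_FR R hF
  have hA := GP_EB (Ps3_FR R hF)
  have hR0 : 0 ≤ R := by linarith
  have mI : ∀ h : Tor n L, Measurable fun w : Tor n L =>
      ∫⁻ x, dE volume (tc (Ph3 R F) w) (x + h) x := fun h => (h2.m_shift h).lintegral_prod_right'
  have mk : ∀ (c : Fin n) (k : ℕ), Measurable fun w : Tor n L =>
      4 ^ k * ∫⁻ x, dE volume (tc (Ph3 R F) w) (x + ec L c ((2 : ℝ)⁻¹ ^ k)) x :=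
    fun c k => (mI _).const_mul _
  have e1 : ∀ c : Fin n, ∫⁻ w, ⨆ k : ℕ, 4 ^ k *
        ∫⁻ x, dE volume (tc (Ph3 R F) w) (x + ec L c ((2 : ℝ)⁻¹ ^ k)) x =
      ⨆ k : ℕ, ∫⁻ w, 4 ^ k *
        ∫⁻ x, dE volume (tc (Ph3 R F) w) (x + ec L c ((2 : ℝ)⁻¹ ^ k)) x := by
    intro c
    refine lintegral_iSup (mk c) ?_
    intro i j hij w
    exact mono_kin hTF (h2.tc_EB w) c hij
  have mS : ∀ c : Fin n, Measurable fun w : Tor n L => ⨆ k : ℕ, 4 ^ k *
        ∫⁻ x, dE volume (tc (Ph3 R F) w) (x + ec L c ((2 : ℝ)⁻¹ ^ k)) x :=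
    fun c => Measurable.iSup (mk c)
  unfold Kp
  rw [lintegral_finsetSum _ fun c _ => mS c, ← Finset.sum_add_distrib, Finset.mul_sum]
  have hn : (n : ℝ≥0∞) * (ENNReal.ofReal (16 * (4 * R) ^ n) * nuE volume F) =
      ∑ _c : Fin n, ENNReal.ofReal (16 * (4 * R) ^ n) * nuE volume F := by
    rw [Finset.sum_const, Finset.card_univ, Fintype.card_fin, nsmul_eq_mul]
  rw [hn, ← Finset.sum_add_distrib]
  refine Finset.sum_le_sum fun c _ => ?_
  rw [e1 c, ENNReal.iSup_add_iSup_of_monotone (mono_kin hTF hA c)]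
  · refine iSup_le fun k => ?_
    rw [lintegral_const_mul _ (mI _), ← mul_add]
    refine (mul_le_mul' le_rfl (add_shift hTF hR hF _)).trans ?_
    rw [mul_add]
    refine add_le_add ?_ ?_
    · rw [mul_left_comm]
      refine mul_le_mul' le_rfl ?_
      exact le_iSup (fun k : ℕ => (4 : ℝ≥0∞) ^ k *
        ∫⁻ x, dE volume F (x + ec L c ((2 : ℝ)⁻¹ ^ k)) x) k
    · rw [← mul_assoc]
      refine mul_le_mul' ?_ le_rfl
      have e4 : (4 : ℝ≥0∞) ^ k = ENNReal.ofReal (4 ^ k) := by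
        rw [ENNReal.ofReal_pow (by norm_num)]
        norm_num
      rw [e4, ← ENNReal.ofReal_mul (by positivity)]
      refine ENNReal.ofReal_le_ofReal ?_
      have h5 : mm n R ‖ec L c ((2 : ℝ)⁻¹ ^ k)‖ ≤ 8 * (4 * R) ^ n * ((2 : ℝ)⁻¹ ^ k) ^ 2 := by
        refine (mm_mono hR0 (norm_nonneg _) (ec_norm c _)).trans ?_
        unfold mm
        rw [sq_abs]
        gcongr
        exact min_le_right _ _
      have h6 : (4 : ℝ) ^ k * ((2 : ℝ)⁻¹ ^ k) ^ 2 = 1 := by
        rw [← pow_mul, mul_comm k 2, pow_mul, ← mul_pow]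
        norm_num
      calc (4 : ℝ) ^ k * (2 * mm n R ‖ec L c ((2 : ℝ)⁻¹ ^ k)‖)
          ≤ 4 ^ k * (2 * (8 * (4 * R) ^ n * ((2 : ℝ)⁻¹ ^ k) ^ 2)) := by gcongr
        _ = 16 * (4 * R) ^ n * (4 ^ k * ((2 : ℝ)⁻¹ ^ k) ^ 2) := by ring
        _ = _ := by rw [h6, mul_one]
  · intro i j hij
    exact lintegral_mono fun w => mono_kin hTF (h2.tc_EB w) c hij

/-- the hopping energy -/
theorem add_Hp (hTF : S_TF) {R : ℝ} (hR : 1 ≤ R) {K : (Fin n → ℝ) → ℝ≥0∞} (hK : Measurable K)
    {F : Multiset (Tor n L) → ℂ} (hF : EB F) :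
    Hp K (GP (Ps3 R F)) + ∫⁻ w, Hp K (tc (Ph3 R F) w) ≤
      ENNReal.ofReal (L ^ n) * Hp K F +
        ENNReal.ofReal (8 * (4 * R) ^ n) *
          (∫⁻ z, K z * ENNReal.ofReal (min 1 (el z ^ 2))) * nuE volume F := by
  have h2 := Ph3_FR R hF
  have hA := GP_EB (Ps3_FR R hF)
  have hR0 : 0 ≤ R := by linarith
  have mP : Measurable fun q : (Tor n L × (Fin n → ℝ)) × Tor n L =>
      dE volume (tc (Ph3 R F) q.1.1) (q.2 + pr L q.1.2) q.2 :=
    (h2.m_dE volume).comp (f := fun q : (Tor n L × (Fin n → ℝ)) × Tor n L =>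
      (q.1.1, q.2 + pr L q.1.2, q.2))
      ((measurable_fst.comp measurable_fst).prodMk ((measurable_snd.add
        ((hTF n L).2.1.comp (measurable_snd.comp measurable_fst))).prodMk measurable_snd))
  have mQ : Measurable fun q : Tor n L × (Fin n → ℝ) =>
      ∫⁻ x, dE volume (tc (Ph3 R F) q.1) (x + pr L q.2) x := mP.lintegral_prod_right'
  have mQK : Measurable fun q : Tor n L × (Fin n → ℝ) =>
      K q.2 * ∫⁻ x, dE volume (tc (Ph3 R F) q.1) (x + pr L q.2) x :=
    (hK.comp measurable_snd).mul mQ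
  have mQw : ∀ z : Fin n → ℝ, Measurable fun w : Tor n L =>
      ∫⁻ x, dE volume (tc (Ph3 R F) w) (x + pr L z) x := fun z =>
    mQ.comp (f := fun w : Tor n L => (w, z)) (measurable_id.prodMk measurable_const)
  have mW : Measurable fun w : Tor n L => ∫⁻ z, K z *
      ∫⁻ x, dE volume (tc (Ph3 R F) w) (x + pr L z) x := mQK.lintegral_prod_right'
  have mA : Measurable fun z : Fin n → ℝ => K z *
      ∫⁻ x, dE volume (GP (Ps3 R F)) (x + pr L z) x := hK.mul (meas_int hTF hA)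
  have mF : Measurable fun z : Fin n → ℝ => K z *
      ∫⁻ x, dE volume F (x + pr L z) x := hK.mul (meas_int hTF hF)
  have mm0 : Measurable fun z : Fin n → ℝ => K z * ENNReal.ofReal (min 1 (el z ^ 2)) := by
    refine hK.mul (Measurable.ennreal_ofReal ?_)
    unfold el
    fun_prop
  unfold Hp
  rw [lintegral_const_mul _ mW, ← mul_add, lintegral_lintegral_swap mQK.aemeasurable,
    ← lintegral_add_left mA]
  have key : ∀ z : Fin n → ℝ, K z * (∫⁻ x, dE volume (GP (Ps3 R F)) (x + pr L z) x) +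
      (∫⁻ w, K z * ∫⁻ x, dE volume (tc (Ph3 R F) w) (x + pr L z) x) ≤
      ENNReal.ofReal (L ^ n) * (K z * ∫⁻ x, dE volume F (x + pr L z) x) +
        ENNReal.ofReal (16 * (4 * R) ^ n) * nuE volume F *
          (K z * ENNReal.ofReal (min 1 (el z ^ 2))) := by
    intro z
    rw [lintegral_const_mul _ (mQw z), ← mul_add]
    refine (mul_le_mul' le_rfl (add_shift hTF hR hF _)).trans ?_
    have h5 : ENNReal.ofReal (2 * mm n R ‖pr L z‖) ≤
        ENNReal.ofReal (16 * (4 * R) ^ n) * ENNReal.ofReal (min 1 (el z ^ 2)) := by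
      rw [← ENNReal.ofReal_mul (by positivity)]
      refine ENNReal.ofReal_le_ofReal ?_
      have := mm_mono (n := n) hR0 (norm_nonneg _) (pr_norm (L := L) z)
      unfold mm at this ⊢
      linarith
    calc K z * (ENNReal.ofReal (L ^ n) * (∫⁻ x, dE volume F (x + pr L z) x) +
          ENNReal.ofReal (2 * mm n R ‖pr L z‖) * nuE volume F)
        ≤ K z * (ENNReal.ofReal (L ^ n) * (∫⁻ x, dE volume F (x + pr L z) x) +
          (ENNReal.ofReal (16 * (4 * R) ^ n) * ENNReal.ofReal (min 1 (el z ^ 2))) *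
            nuE volume F) := by gcongr
      _ = _ := by ring
  refine (mul_le_mul' le_rfl (lintegral_mono key)).trans ?_
  rw [lintegral_add_left (mF.const_mul _), lintegral_const_mul _ mF, lintegral_const_mul _ mm0,
    mul_add]
  refine add_le_add (le_of_eq (by ring)) (le_of_eq ?_)
  have e16 : (2⁻¹ : ℝ≥0∞) * ENNReal.ofReal (16 * (4 * R) ^ n) =
      ENNReal.ofReal (8 * (4 * R) ^ n) := by
    have : (2⁻¹ : ℝ≥0∞) = ENNReal.ofReal (1 / 2) := by
      rw [one_div, ENNReal.ofReal_inv_of_pos (by norm_num)]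
      norm_num
    rw [this, ← ENNReal.ofReal_mul (by norm_num)]
    congr 1
    ring
  rw [← mul_assoc, ← mul_assoc, e16]
  ring

/-- the potential energy -/
theorem add_Vp (hTF : S_TF) {R : ℝ} (hR : 1 ≤ R) {v : ℝ → ℝ≥0∞} (hv : Measurable v)
    (hvR : ∀ r, R < r → v r = 0)
    {F : Multiset (Tor n L) → ℂ} (hF : EB F) :
    Vp v (GP (Ps3 R F)) + ∫⁻ w, Vp v (tc (Ph3 R F) w) ≤
      ENNReal.ofReal (L ^ n) * Vp v F := by
  have h1 := Ps3_FR R hF
  have h2 := Ph3_FR R hF
  have hA := GP_EB h1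
  have hR0 : 0 < R := by linarith
  have hw : Measurable (fun p : Tor n L × Tor n L => v (tdist p.1 p.2)) :=
    ((hTF n L).2.2.2.2.2.2.2 v hv).1
  -- measurability
  have mP : Measurable fun q : (Tor n L × Tor n L) × Tor n L =>
      v (tdist q.1.2 q.2) * nE volume (an q.2 (an q.1.2 (tc (Ph3 R F) q.1.1))) := by
    have m1 : Measurable fun q : (Tor n L × Tor n L) × Tor n L => v (tdist q.1.2 q.2) :=
      hw.comp (f := fun q : (Tor n L × Tor n L) × Tor n L => (q.1.2, q.2))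
        ((measurable_snd.comp measurable_fst).prodMk measurable_snd)
    have m2 : Measurable fun q : (Tor n L × Tor n L) × Tor n L =>
        nE volume (an q.2 (an q.1.2 (tc (Ph3 R F) q.1.1))) :=
      (h2.m_pair volume).comp (f := fun q : (Tor n L × Tor n L) × Tor n L =>
        (q.1.1, q.1.2, q.2)) ((measurable_fst.comp measurable_fst).prodMk
          ((measurable_snd.comp measurable_fst).prodMk measurable_snd))
    exact m1.mul m2
  have mQ : Measurable fun q : Tor n L × Tor n L => ∫⁻ y,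
      v (tdist q.2 y) * nE volume (an y (an q.2 (tc (Ph3 R F) q.1))) :=
    mP.lintegral_prod_right'
  have mW : Measurable fun w : Tor n L => ∫⁻ x, ∫⁻ y,
      v (tdist x y) * nE volume (an y (an x (tc (Ph3 R F) w))) := mQ.lintegral_prod_right'
  have mA2 : Measurable fun p : Tor n L × Tor n L =>
      v (tdist p.1 p.2) * nE volume (an p.2 (an p.1 (GP (Ps3 R F)))) := hw.mul (meas_an2 hA)
  have mA : Measurable fun x : Tor n L => ∫⁻ y,
      v (tdist x y) * nE volume (an y (an x (GP (Ps3 R F)))) := mA2.lintegral_prod_right'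
  have mAx : ∀ x : Tor n L, Measurable fun y : Tor n L =>
      v (tdist x y) * nE volume (an y (an x (GP (Ps3 R F)))) := fun x =>
    mA2.comp (f := fun y : Tor n L => (x, y)) (measurable_const.prodMk measurable_id)
  have mPx : ∀ x : Tor n L, Measurable fun q : Tor n L × Tor n L =>
      v (tdist x q.2) * nE volume (an q.2 (an x (tc (Ph3 R F) q.1))) := fun x =>
    mP.comp (f := fun q : Tor n L × Tor n L => ((q.1, x), q.2))
      ((measurable_fst.prodMk measurable_const).prodMk measurable_snd)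
  have mPxy : ∀ x y : Tor n L, Measurable fun w : Tor n L =>
      nE volume (an y (an x (tc (Ph3 R F) w))) := fun x y =>
    (h2.m_pair volume).comp (f := fun w : Tor n L => (w, x, y))
      (measurable_id.prodMk measurable_const)
  have s1 : ∫⁻ w, ∫⁻ x, ∫⁻ y, v (tdist x y) * nE volume (an y (an x (tc (Ph3 R F) w))) =
      ∫⁻ x, ∫⁻ w, ∫⁻ y, v (tdist x y) * nE volume (an y (an x (tc (Ph3 R F) w))) :=
    lintegral_lintegral_swap mQ.aemeasurable
  have s2 : ∀ x : Tor n L, ∫⁻ w, ∫⁻ y, v (tdist x y) *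
        nE volume (an y (an x (tc (Ph3 R F) w))) =
      ∫⁻ y, ∫⁻ w, v (tdist x y) * nE volume (an y (an x (tc (Ph3 R F) w))) :=
    fun x => lintegral_lintegral_swap (mPx x).aemeasurable
  unfold Vp
  rw [lintegral_const_mul _ mW, ← mul_add, s1, ← lintegral_add_left mA, mul_left_comm]
  refine mul_le_mul' le_rfl ?_
  rw [← lintegral_const_mul' _ _ ENNReal.ofReal_ne_top]
  refine lintegral_mono fun x => ?_
  dsimp only
  rw [s2 x, ← lintegral_add_left (mAx x),
    ← lintegral_const_mul' _ _ ENNReal.ofReal_ne_top]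
  refine lintegral_mono fun y => ?_
  dsimp only
  rw [lintegral_const_mul _ (mPxy x y), ← mul_add]
  by_cases hz : v (tdist x y) = 0
  · rw [hz]
    simp
  · rw [mul_left_comm]
    refine mul_le_mul' le_rfl ?_
    have hd : tdist x y ≤ R := by
      by_contra hcon
      exact hz (hvR _ (not_le.1 hcon))
    have hxy : ‖x - y‖ ≤ R := by
      rw [pi_norm_le_iff_of_nonneg hR0.le]
      intro c
      refine le_trans ?_ hd
      unfold tdist
      apply Real.le_sqrt_of_sq_le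
      exact Finset.single_le_sum (f := fun c => ‖x c - y c‖ ^ 2) (fun c _ => sq_nonneg _)
        (Finset.mem_univ c)
    have z1 : ∀ S, Ps3 R F x (y ::ₘ S) = 0 := by
      intro S
      unfold Ps3
      rw [ss_cons, sa_zero hR0 hxy]
      simp
    have z2 : ∀ S, Ps3 R F y (x ::ₘ S) = 0 := by
      intro S
      unfold Ps3
      rw [ss_cons, sa_symm, sa_zero hR0 hxy]
      simp
    rw [pair_GP volume h1 x y]
    simp only [z1, z2]
    have e3 : ∀ w : Tor n L, nE volume (an y (an x (tc (Ph3 R F) w))) =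
        ∫⁻ γ, ENNReal.ofReal (Ph3 R F w (x ::ₘ y ::ₘ ms γ) ^ 2) ∂(lam volume) :=
      fun w => pair_tc volume w x y
    simp only [e3]
    have h1c : FR fun w S => Ps3 R F w (x ::ₘ y ::ₘ S) := (h1.cons x).cons y
    have h2c : FR fun w S => Ph3 R F w (x ::ₘ y ::ₘ S) := (h2.cons x).cons y
    haveI := finlam (volume : Measure (Tor n L))
    have m1 : Measurable fun w : Tor n L =>
        ∫⁻ γ, ENNReal.ofReal (Ps3 R F w (x ::ₘ y ::ₘ ms γ) ^ 2) ∂(lam volume) :=
      h1c.sqm.lintegral_prod_right'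
    have m1w : ∀ w : Tor n L, Measurable fun γ : Cf (Tor n L) =>
        ENNReal.ofReal (Ps3 R F w (x ::ₘ y ::ₘ ms γ) ^ 2) := fun w =>
      ((h1c.fix w).pow_const 2).ennreal_ofReal
    have e4 : nE volume (an y (an x F)) = ∫⁻ γ, ‖F (x ::ₘ y ::ₘ ms γ)‖ₑ ^ 2 ∂(lam volume) := by
      unfold nE an
      rfl
    have e5 : ∀ w : Tor n L, (∫⁻ γ, ENNReal.ofReal (Ps3 R F w (x ::ₘ y ::ₘ ms γ) ^ 2)
        ∂(lam volume)) + (∫⁻ γ, ENNReal.ofReal (Ph3 R F w (x ::ₘ y ::ₘ ms γ) ^ 2)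
        ∂(lam volume)) = nE volume (an y (an x F)) := by
      intro w
      rw [← lintegral_add_left (m1w w), e4]
      exact lintegral_congr fun γ => sum_sq R F w _
    have e6 : (∫⁻ w, ∫⁻ γ, ENNReal.ofReal (Ps3 R F w (x ::ₘ y ::ₘ ms γ) ^ 2) ∂(lam volume)) +
        (∫⁻ w, ∫⁻ γ, ENNReal.ofReal (Ph3 R F w (x ::ₘ y ::ₘ ms γ) ^ 2) ∂(lam volume)) =
        ENNReal.ofReal (L ^ n) * nE volume (an y (an x F)) := by
      rw [← lintegral_add_left m1]
      simp only [e5]
      rw [lintegral_const, (hTF n L).1, mul_comm]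
    rw [← e6]
    simp

lemma FR.m_Kp {Θ : Tor n L → Multiset (Tor n L) → ℝ} (hΘ : FR Θ) :
    Measurable fun w : Tor n L => Kp (tc Θ w) := by
  have mI : ∀ h : Tor n L, Measurable fun w : Tor n L =>
      ∫⁻ x, dE volume (tc Θ w) (x + h) x := fun h => (hΘ.m_shift h).lintegral_prod_right'
  unfold Kp
  exact Finset.measurable_sum _ fun c _ => Measurable.iSup fun k => (mI _).const_mul _

lemma FR.m_Hp (hTF : S_TF) {K : (Fin n → ℝ) → ℝ≥0∞} (hK : Measurable K)
    {Θ : Tor n L → Multiset (Tor n L) → ℝ} (hΘ : FR Θ) :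
    Measurable fun w : Tor n L => Hp K (tc Θ w) := by
  have mP : Measurable fun q : (Tor n L × (Fin n → ℝ)) × Tor n L =>
      dE volume (tc Θ q.1.1) (q.2 + pr L q.1.2) q.2 :=
    (hΘ.m_dE volume).comp (f := fun q : (Tor n L × (Fin n → ℝ)) × Tor n L =>
      (q.1.1, q.2 + pr L q.1.2, q.2))
      ((measurable_fst.comp measurable_fst).prodMk ((measurable_snd.add
        ((hTF n L).2.1.comp (measurable_snd.comp measurable_fst))).prodMk measurable_snd))
  have mQ : Measurable fun q : Tor n L × (Fin n → ℝ) =>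
      ∫⁻ x, dE volume (tc Θ q.1) (x + pr L q.2) x := mP.lintegral_prod_right'
  have mQK : Measurable fun q : Tor n L × (Fin n → ℝ) =>
      K q.2 * ∫⁻ x, dE volume (tc Θ q.1) (x + pr L q.2) x :=
    (hK.comp measurable_snd).mul mQ
  unfold Hp
  exact mQK.lintegral_prod_right'.const_mul _

/-- the energy -/
theorem add_en (hTF : S_TF) {R : ℝ} (hR : 1 ≤ R) {μ : ℝ≥0∞} {K : (Fin n → ℝ) → ℝ≥0∞}
    {v : ℝ → ℝ≥0∞} (hK : Measurable K) (hv : Measurable v) (hvR : ∀ r, R < r → v r = 0)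
    {F : Multiset (Tor n L) → ℂ} (hF : EB F) :
    en μ K v (GP (Ps3 R F)) + ∫⁻ w, en μ K v (tc (Ph3 R F) w) ≤
      ENNReal.ofReal (L ^ n) * en μ K v F + ENNReal.ofReal (16 * (4 * R) ^ n) *
        (n * μ + ∫⁻ z, K z * ENNReal.ofReal (min 1 (el z ^ 2))) * nuE volume F := by
  have h2 := Ph3_FR R hF
  have hR0 : 0 ≤ R := by linarith
  have m1 : Measurable fun w : Tor n L => μ * Kp (tc (Ph3 R F) w) := h2.m_Kp.const_mul _
  have m2 : Measurable fun w : Tor n L => Hp K (tc (Ph3 R F) w) := h2.m_Hp hTF hK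
  have m12 : Measurable fun w : Tor n L => μ * Kp (tc (Ph3 R F) w) +
      Hp K (tc (Ph3 R F) w) := m1.add m2
  have b1 := add_Kp hTF hR hF
  have b2 := add_Hp hTF hR hK hF
  have b3 := add_Vp hTF hR hv hvR hF
  have e8 : ENNReal.ofReal (8 * (4 * R) ^ n) ≤ ENNReal.ofReal (16 * (4 * R) ^ n) := by
    refine ENNReal.ofReal_le_ofReal ?_
    have : 0 ≤ (4 * R) ^ n := by positivity
    linarith
  unfold en ken
  rw [lintegral_add_left m12, lintegral_add_left m1, lintegral_const_mul _ h2.m_Kp]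
  calc μ * Kp (GP (Ps3 R F)) + Hp K (GP (Ps3 R F)) + Vp v (GP (Ps3 R F)) +
        (μ * (∫⁻ w, Kp (tc (Ph3 R F) w)) + (∫⁻ w, Hp K (tc (Ph3 R F) w)) +
          ∫⁻ w, Vp v (tc (Ph3 R F) w))
      = μ * (Kp (GP (Ps3 R F)) + ∫⁻ w, Kp (tc (Ph3 R F) w)) +
        (Hp K (GP (Ps3 R F)) + ∫⁻ w, Hp K (tc (Ph3 R F) w)) +
        (Vp v (GP (Ps3 R F)) + ∫⁻ w, Vp v (tc (Ph3 R F) w)) := by ring
    _ ≤ μ * (ENNReal.ofReal (L ^ n) * Kp F +
          n * (ENNReal.ofReal (16 * (4 * R) ^ n) * nuE volume F)) +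
        (ENNReal.ofReal (L ^ n) * Hp K F + ENNReal.ofReal (16 * (4 * R) ^ n) *
          (∫⁻ z, K z * ENNReal.ofReal (min 1 (el z ^ 2))) * nuE volume F) +
        ENNReal.ofReal (L ^ n) * Vp v F := by
        refine add_le_add (add_le_add (mul_le_mul' le_rfl b1) (b2.trans ?_)) b3
        gcongr
    _ = _ := by ring

end

end Pool.Agent.Y656
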