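import Pool.Agent.Y656.Core3E
import Pool.Agent.W761.CC.AtL

/-!
# Complete condensation for a fixed number of particles: the conclusion on one torus
-/

set_option autoImplicit false

open MeasureTheory
open scoped ENNReal

namespace Pool.Agent.Y656

open Pool.Agent.W761.CB Pool.Agent.W761.CC Pool.Agent.TH268.CC

noncomputable section

lemma pf_one : pf 1 = 1 := by
  unfold pf
  rw [if_pos (by norm_num)]
  norm_num

theorem atC (hBOT : Pool.Agent.W160.CC.S_BOT2') (hLAM : S_LAM) (hEBC : S_EBC)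
    (hF : S_FRM) (hH : S_HAT) (hR : S_REF) (hG : S_GK) (hD : S_DIA)
    (hTF : S_TF)
    {n J : ℕ} {L ℓ : ℝ} [Fact (0 < L)] (hℓ : 0 < ℓ) (hL : L = 2 ^ J * ℓ) {μ : ℝ≥0∞}
    {K : (Fin n → ℝ) → ℝ≥0∞} {v : ℝ → ℝ≥0∞} (hK : Measurable K) (hv : Measurable v)
    {e₀ E Q tol Ca : ℝ} {N : ℕ} (hN1 : 0 < N) (he0 : 0 ≤ e₀) (hE : 0 ≤ E) (hQ : 0 ≤ Q)
    (htol : 0 ≤ tol) (hCa : 0 ≤ Ca) (htolE : E - e₀ ≤ tol * L ^ n)
    {ψ : Multiset (Tor n L) → ℂ} (hψ : EB ψ) (hψs : ∀ S, N < Multiset.card S → ψ S = 0)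
    (hψ1 : nE volume ψ = 1)
    (hψN : nuE volume ψ = ENNReal.ofReal N) (hψE : en μ K v ψ ≤ ENNReal.ofReal E)
    (hψQ : nE volume (ag volume (fun _ => 1) ψ) ≤ ENNReal.ofReal Q)
    (hlow : ∀ F : Multiset (Tor n L) → ℂ, EB F → (∀ S, N < Multiset.card S → F S = 0) →
      ENNReal.ofReal e₀ * nE volume F ≤ en μ K v F + ENNReal.ofReal Ca * dm volume N F)
    {g e ν : ℝ} (hg0 : 0 < g) (he : 0 < e) (he1 : e ≤ 1 / 100) (hν : ν = N / L ^ n)
    (hup : E ≤ g / 2 * ν ^ 2 * (1 + e / 2) * L ^ n)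
    {P a a₂ : ℝ} (hP : 0 ≤ P) (hPe : P * (g * ν) ≤ e) (ha0 : 0 ≤ a)
    (ha : a ≤ 2 / (g * ν ^ 2) * (1 + e)) (ha₂0 : 0 ≤ a₂) (ha₂ : a₂ ≤ e)
    (hcoh : ∀ F : Multiset (Tor n L) → ℂ, EB F → ENNReal.ofReal (ℓ ^ n) * nuE volume F ≤
      ∑ i, nE volume (ag volume (hf n L ℓ (2 ^ J) i) F) +
        ENNReal.ofReal (ℓ ^ n * P) * en μ K v F)
    (hHP : ∀ F : Multiset (Tor n L) → ℂ, EB F → ENNReal.ofReal (ℓ ^ n) *
      ∑ i, ∫⁻ γ, ENNReal.ofReal (pf (((ms γ).map (hf n L ℓ (2 ^ J) i)).sum / (ℓ ^ n * ν))) *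
        ‖F (ms γ)‖ₑ ^ 2 ∂(lam (volume : Measure (Tor n L))) ≤
      ENNReal.ofReal a * en μ K v F + ENNReal.ofReal (a₂ * L ^ n) * nE volume F)
    {σ Γ : ℝ} (hΓ : 0 < Γ) (hσ : 0 < σ)
    (hg : ∀ j : ℕ, 0 < j → j ≤ J → ∀ z : Fin n → ℝ, (∀ c, |z c| ≤ 2 * (2 ^ j * ℓ)) →
      ENNReal.ofReal (Γ * (2 : ℝ) ^ (-((n + σ) * j))) ≤ K z)
    {ns : ℝ} (hns : N ≤ ns * L ^ n)
    {ε0 lam mu r : ℝ} (hε0 : 0 < ε0) (hlam0 : 0 < lam) (hlam1 : lam < 1)
    (hε1 : ε0 / (1 - lam) ≤ e) (hr0 : 0 ≤ r) (hr1 : r < 1) (hmur : mu = r ^ 2)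
    (hlam2 : lam * (2 : ℝ) ^ n * mu = 1) (hlams : (2 : ℝ) ^ σ * lam ≤ mu)
    {ξ : ℝ} (hξ : ξ = 6 / (ε0 * ℓ ^ n))
    {es H T q : ℝ} (hes : es = Ca * ns * (ε0 / (1 - lam)))
    (hHdef : H = 2 * √ξ + √((2 : ℝ) ^ σ * es / (ℓ ^ n * Γ)))
    (hT : T = tol * (2 : ℝ) ^ (σ * J) / (ℓ ^ n * Γ))
    (hq : q = (2 : ℝ) ^ (-σ / 2))
    (c3 : √ξ + H / (1 - r) + √T / (1 - q) ≤ √e * √ν) :
    g / 2 * ν ^ 2 * (1 - 2 * e) * L ^ n ≤ E ∧ (1 - 3 * √e) * ν ≤ Q / (L ^ n) ^ 2 := by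
  have hLpos : 0 < L := Fact.out
  obtain ⟨V, hVdef⟩ : ∃ V : ℝ, V = L ^ n := ⟨_, rfl⟩
  have hV : (0 : ℝ) < V := by rw [hVdef]; positivity
  have hM0 : (0 : ℝ) < ℓ ^ n := by positivity
  have hN0 : (0 : ℝ) < N := by exact_mod_cast hN1
  have hν0 : 0 < ν := by rw [hν, ← hVdef]; positivity
  have hNν : (N : ℝ) = ν * V := by rw [hν, ← hVdef]; field_simp
  obtain ⟨hvol, -, -, -, -, -, -, -⟩ := hTF n L
  have hVr : V = (volume (Set.univ : Set (Tor n L))).toReal := by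
    rw [hvol, ← hVdef, ENNReal.toReal_ofReal hV.le]
  obtain ⟨a1, a2, a3, a4, -⟩ := hH n L ℓ (2 ^ J) Nat.one_le_two_pow (by rw [hL]; push_cast; rfl)
  have hcI : (Fintype.card (Fin n → Fin (2 ^ J)) : ℝ) = V / ℓ ^ n := by
    rw [Fintype.card_fun, Fintype.card_fin, Fintype.card_fin, eq_div_iff (by positivity), hVdef]
    push_cast
    rw [← mul_pow, ← hL]
  obtain ⟨s, hs⟩ : ∃ s : ℝ, s = √e := ⟨_, rfl⟩
  have hs0 : 0 ≤ s := by rw [hs]; exact Real.sqrt_nonneg e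
  have hse : s ^ 2 = e := by rw [hs]; exact Real.sq_sqrt he.le
  have hs1 : s ≤ 1 / 10 := by
    rw [hs, show (1 / 10 : ℝ) = √(1 / 100) by
      rw [show (1 / 100 : ℝ) = (1 / 10) ^ 2 by norm_num, Real.sqrt_sq (by norm_num)]]
    exact Real.sqrt_le_sqrt he1
  rw [← hVdef] at hup hHP
  have haE : a * E ≤ (1 + e) * (1 + e / 2) * V := by
    calc a * E ≤ (2 / (g * ν ^ 2) * (1 + e)) * (g / 2 * ν ^ 2 * (1 + e / 2) * V) := by
          gcongr
      _ = _ := by field_simp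
  have ha₂V : a₂ * V ≤ e * V := mul_le_mul_of_nonneg_right ha₂ hV.le
  constructor
  · -- the lower bound of the energy
    obtain ⟨R0, hR00, hens0⟩ := triv hLAM hEBC (volume : Measure (Tor n L)) (en μ K v)
      (hf n L ℓ (2 ^ J)) (fun i => a1 _) (fun i x => (a2 _ x).1) (fun i x => (a2 _ x).2) hψ hψ1
      hψN hψE
    obtain ⟨N0, hN01, hN02, hN03, -⟩ := hBOT (Tor n L) volume (Fin n → Fin (2 ^ J)) (en μ K v)
      (hf n L ℓ (2 ^ J)) (ℓ ^ n) P ν a a₂ N N E R0 0 V (fun i => a1 _) (fun i x => (a2 _ x).1)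
      (fun i x => (a2 _ x).2) a3 (fun i => a4 _) hM0 hP hν0 ha0 ha₂0 hN0.le hN0.le hE hR00 le_rfl
      hV hVr hcoh hHP hens0
    have hN0' : N0 = N := le_antisymm hN02 hN01
    rw [hN0', show (N : ℝ) / (ν * V) = 1 by rw [hNν]; field_simp, pf_one, one_mul] at hN03
    have h1 : V * (1 - e) ≤ 2 / (g * ν ^ 2) * (1 + e) * E := by
      have h2 := mul_le_mul_of_nonneg_right ha hE
      linarith
    have h3 : g / 2 * ν ^ 2 * (1 - e) * V ≤ (1 + e) * E := by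
      calc g / 2 * ν ^ 2 * (1 - e) * V = g / 2 * ν ^ 2 * (V * (1 - e)) := by ring
        _ ≤ g / 2 * ν ^ 2 * (2 / (g * ν ^ 2) * (1 + e) * E) := by gcongr
        _ = (1 + e) * E := by field_simp
    rw [← hVdef]
    have h4 : (1 + e) * (g / 2 * ν ^ 2 * (1 - 2 * e) * V) ≤ (1 + e) * E := by
      refine le_trans ?_ h3
      have h5 : 0 ≤ g / 2 * ν ^ 2 * V * e ^ 2 := by positivity
      linarith only [h5]
    exact le_of_mul_le_mul_left h4 (by linarith)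
  · -- the chain
    have h1l : 0 < 1 - lam := by linarith
    have h1r : 0 < 1 - r := by linarith
    have hq1 : q < 1 := by
      rw [hq]
      exact Real.rpow_lt_one_of_one_lt_of_neg (by norm_num) (by linarith)
    have h1q : 0 < 1 - q := by linarith
    have hξ0 : 0 < ξ := by rw [hξ]; positivity
    have hns0 : 0 ≤ ns := by
      have : 0 ≤ ns * L ^ n := hN0.le.trans hns
      exact nonneg_of_mul_nonneg_left this (by positivity)
    have hes0 : 0 ≤ es := by rw [hes]; positivity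
    have hT0 : 0 ≤ T := by rw [hT]; positivity
    have hH0 : 0 ≤ H := by rw [hHdef]; positivity
    have hens := core3E hF hH hR hG hD hTF hℓ hL hK hv he0 hE hQ htol hCa htolE hψ hψs hψ1 hψN
      hψE hψQ hlow hΓ hσ hg hns hε0 hlam0 hlam1 (by linarith) hr0 hr1 hmur hlam2 hlams hξ hes
      hHdef hT hq
    rw [← hVdef] at hens ⊢
    obtain ⟨pp, hpp⟩ : ∃ pp : ℝ, pp = ε0 / (1 - lam) := ⟨_, rfl⟩
    rw [← hpp] at hens hε1
    have hpp0 : 0 ≤ 1 - pp := by linarith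
    obtain ⟨N', h1, h2, -, h4⟩ := hBOT (Tor n L) volume (Fin n → Fin (2 ^ J)) (en μ K v)
      (hf n L ℓ (2 ^ J)) (ℓ ^ n) P ν a a₂ ((1 - pp) * N) N E (ξ * (ℓ ^ n) ^ 2)
      ((√(Q / V ^ 2) + H / (1 - r) + √T / (1 - q)) * V) V (fun i => a1 _)
      (fun i x => (a2 _ x).1) (fun i x => (a2 _ x).2) a3 (fun i => a4 _) hM0 hP hν0 ha0 ha₂0
      (by positivity) hN0.le hE (by positivity) (by positivity) hV hVr hcoh hHP hens
    rw [hcI, Real.sqrt_mul' _ (by positivity), Real.sqrt_sq hM0.le] at h4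
    obtain ⟨ac, hac⟩ : ∃ ac : ℝ, ac = Q / V ^ 2 := ⟨_, rfl⟩
    rw [← hac] at h4 ⊢
    have hac0 : 0 ≤ ac := by rw [hac]; positivity
    have e1 : V / ℓ ^ n * (√ξ * ℓ ^ n) = √ξ * V := by field_simp
    rw [e1] at h4
    have h5 : 3 * (1 - e) * V ≤ 3 * N' / ν := by
      rw [le_div_iff₀ hν0]
      have h6 : (1 - e) * N ≤ (1 - pp) * N := mul_le_mul_of_nonneg_right (by linarith) hN0.le
      calc 3 * (1 - e) * V * ν = 3 * ((1 - e) * N) := by rw [hNν]; ring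
        _ ≤ 3 * N' := by linarith
    have h6 : 3 * P * E / ν ≤ 3 / 2 * e * (1 + e / 2) * V := by
      rw [div_le_iff₀ hν0]
      calc 3 * P * E ≤ 3 * P * (g / 2 * ν ^ 2 * (1 + e / 2) * V) := by gcongr
        _ = 3 / 2 * (P * (g * ν)) * (1 + e / 2) * V * ν := by ring
        _ ≤ 3 / 2 * e * (1 + e / 2) * V * ν := by gcongr
    have h7 : (2 - 8 * e) * V ≤ 3 * N' / ν - 3 * P * E / ν - a * E - a₂ * V := by
      have h8 : (0 : ℝ) ≤ (e - 5 / 4 * e ^ 2) * V := by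
        have h9 := mul_le_mul_of_nonneg_left he1 he.le
        have h10 : 0 ≤ e - 5 / 4 * e ^ 2 := by linarith only [h9, he]
        positivity
      linarith only [h5, h6, haE, ha₂V, h8]
    have hsν : 0 ≤ √ν := Real.sqrt_nonneg _
    have h8 : √ν / 2 * ((2 - 8 * e) * V) - √ξ * V ≤ (√ac + H / (1 - r) + √T / (1 - q)) * V :=
      le_trans (sub_le_sub_right (mul_le_mul_of_nonneg_left h7 (by positivity)) _) h4
    have h9 : (√ν * (1 - 4 * e) - √ξ) * V ≤ (√ac + H / (1 - r) + √T / (1 - q)) * V := by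
      linarith only [h8]
    have h10 := le_of_mul_le_mul_right h9 hV
    rw [← hs] at c3 ⊢
    have he10 : e ≤ s / 10 := by
      rw [← hse]
      have := mul_le_mul_of_nonneg_left hs1 hs0
      linarith only [this]
    have h11 : √ν * (1 - 7 / 5 * s) ≤ √ac := by
      have h12 : √ν * e ≤ √ν * (s / 10) := mul_le_mul_of_nonneg_left he10 hsν
      linarith only [h10, c3, h12]
    have h12 : 0 ≤ 1 - 7 / 5 * s := by linarith
    have h13 : (√ν * (1 - 7 / 5 * s)) ^ 2 ≤ ac := by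
      have := pow_le_pow_left₀ (by positivity) h11 2
      rwa [Real.sq_sqrt hac0] at this
    rw [mul_pow, Real.sq_sqrt hν0.le] at h13
    refine le_trans ?_ h13
    rw [mul_comm ν]
    refine mul_le_mul_of_nonneg_right ?_ hν0.le
    have h14 := mul_nonneg hs0 hs0
    linarith only [hs0, h14]

end

end Pool.Agent.Y656
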