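import Pool.Agent.Y656.AtR

/-!
# The last scale, for a given ensemble
-/

set_option autoImplicit false

open MeasureTheory
open scoped ENNReal

namespace Pool.Agent.Y656

open Pool.Agent.W761.CB Pool.Agent.W761.CC

noncomputable section

/-- The last scale, for a given ensemble. -/
theorem atEns (hBOT : Pool.Agent.W160.CC.S_BOT2') (hH : S_HAT) (hTF : S_TF)
    {n J : ℕ} {L ℓ : ℝ} [Fact (0 < L)] (hℓ : 0 < ℓ) (hL : L = 2 ^ J * ℓ)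
    {Q : ℝ} {N : ℕ} (hN1 : 0 < N) (hQ : 0 ≤ Q)
    {enc : (Multiset (Tor n L) → ℂ) → ℝ≥0∞} {Ec : ℝ} (hEc : 0 ≤ Ec)
    {g e ν : ℝ} (hg0 : 0 < g) (he : 0 < e) (he1 : e ≤ 1 / 100) (hν : ν = N / L ^ n)
    (hup : Ec ≤ g / 2 * ν ^ 2 * (1 + e / 2) * L ^ n)
    {P a a₂ : ℝ} (hP : 0 ≤ P) (hPe : P * (g * ν) ≤ e) (ha0 : 0 ≤ a)
    (ha : a ≤ 2 / (g * ν ^ 2) * (1 + e)) (ha₂0 : 0 ≤ a₂) (ha₂ : a₂ ≤ e)
    (hcoh : ∀ F : Multiset (Tor n L) → ℂ, EB F → ENNReal.ofReal (ℓ ^ n) * nuE volume F ≤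
      ∑ i, nE volume (ag volume (hf n L ℓ (2 ^ J) i) F) +
        ENNReal.ofReal (ℓ ^ n * P) * enc F)
    (hHP : ∀ F : Multiset (Tor n L) → ℂ, EB F → ENNReal.ofReal (ℓ ^ n) *
      ∑ i, ∫⁻ γ, ENNReal.ofReal (pf (((ms γ).map (hf n L ℓ (2 ^ J) i)).sum / (ℓ ^ n * ν))) *
        ‖F (ms γ)‖ₑ ^ 2 ∂(lam (volume : Measure (Tor n L))) ≤
      ENNReal.ofReal a * enc F + ENNReal.ofReal (a₂ * L ^ n) * nE volume F)
    {Nlo Nhi ξ H : ℝ} (hNlo : (1 - e) * N ≤ Nlo) (hNhi : 0 ≤ Nhi) (hξ0 : 0 ≤ ξ) (hH0 : 0 ≤ H)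
    (c3 : √ξ + H ≤ √e * √ν)
    (hens : HasEns volume enc (hf n L ℓ (2 ^ J)) Nlo Nhi Ec (ξ * (ℓ ^ n) ^ 2)
      ((√(Q / (L ^ n) ^ 2) + H) * L ^ n)) :
    (1 - 3 * √e) * ν ≤ Q / (L ^ n) ^ 2 := by
  have hLpos : 0 < L := Fact.out
  obtain ⟨V, hVdef⟩ : ∃ V : ℝ, V = L ^ n := ⟨_, rfl⟩
  have hV : (0 : ℝ) < V := by rw [hVdef]; positivity
  have hM0 : (0 : ℝ) < ℓ ^ n := by positivity
  have hN0 : (0 : ℝ) < N := by exact_mod_cast hN1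
  have hν0 : 0 < ν := by rw [hν, ← hVdef]; positivity
  have hNν : (N : ℝ) = ν * V := by rw [hν, ← hVdef]; field_simp
  obtain ⟨hvol, -, -, -, -, -, -, -⟩ := hTF n L
  have hVr : V = (volume (Set.univ : Set (Tor n L))).toReal := by
    rw [hvol, ← hVdef, ENNReal.toReal_ofReal hV.le]
  obtain ⟨a1, a2, a3, a4, -⟩ := hH n L ℓ (2 ^ J) Nat.one_le_two_pow (by rw [hL]; push_cast; rfl)
  have hcI : (Fintype.card (Fin n → Fin (2 ^ J)) : ℝ) = V / ℓ ^ n := by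
    rw [Fintype.card_fun, Fintype.card_fin, Fintype.card_fin, eq_div_iff (by positivity), hVdef]
    push_cast
    rw [← mul_pow, ← hL]
  obtain ⟨s, hs⟩ : ∃ s : ℝ, s = √e := ⟨_, rfl⟩
  have hs0 : 0 ≤ s := by rw [hs]; exact Real.sqrt_nonneg e
  have hse : s ^ 2 = e := by rw [hs]; exact Real.sq_sqrt he.le
  have hs1 : s ≤ 1 / 10 := by
    rw [hs, show (1 / 10 : ℝ) = √(1 / 100) by
      rw [show (1 / 100 : ℝ) = (1 / 10) ^ 2 by norm_num, Real.sqrt_sq (by norm_num)]]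
    exact Real.sqrt_le_sqrt he1
  rw [← hVdef] at hup hHP hens ⊢
  have haE : a * Ec ≤ (1 + e) * (1 + e / 2) * V := by
    calc a * Ec ≤ (2 / (g * ν ^ 2) * (1 + e)) * (g / 2 * ν ^ 2 * (1 + e / 2) * V) := by
          gcongr
      _ = _ := by field_simp
  have ha₂V : a₂ * V ≤ e * V := mul_le_mul_of_nonneg_right ha₂ hV.le
  have hNlo0 : 0 ≤ Nlo := by
    have : 0 ≤ (1 - e) * N := mul_nonneg (by linarith) hN0.le
    linarith
  obtain ⟨N', h1, h2, -, h4⟩ := hBOT (Tor n L) volume (Fin n → Fin (2 ^ J)) enc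
    (hf n L ℓ (2 ^ J)) (ℓ ^ n) P ν a a₂ Nlo Nhi Ec (ξ * (ℓ ^ n) ^ 2)
    ((√(Q / V ^ 2) + H) * V) V (fun i => a1 _)
    (fun i x => (a2 _ x).1) (fun i x => (a2 _ x).2) a3 (fun i => a4 _) hM0 hP hν0 ha0 ha₂0
    hNlo0 hNhi hEc (by positivity) (by positivity) hV hVr hcoh hHP hens
  rw [hcI, Real.sqrt_mul' _ (by positivity), Real.sqrt_sq hM0.le] at h4
  obtain ⟨ac, hac⟩ : ∃ ac : ℝ, ac = Q / V ^ 2 := ⟨_, rfl⟩
  rw [← hac] at h4 ⊢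
  have hac0 : 0 ≤ ac := by rw [hac]; positivity
  have e1 : V / ℓ ^ n * (√ξ * ℓ ^ n) = √ξ * V := by field_simp
  rw [e1] at h4
  have h5 : 3 * (1 - e) * V ≤ 3 * N' / ν := by
    rw [le_div_iff₀ hν0]
    calc 3 * (1 - e) * V * ν = 3 * ((1 - e) * N) := by rw [hNν]; ring
      _ ≤ 3 * N' := by linarith
  have h6 : 3 * P * Ec / ν ≤ 3 / 2 * e * (1 + e / 2) * V := by
    rw [div_le_iff₀ hν0]
    calc 3 * P * Ec ≤ 3 * P * (g / 2 * ν ^ 2 * (1 + e / 2) * V) := by gcongr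
      _ = 3 / 2 * (P * (g * ν)) * (1 + e / 2) * V * ν := by ring
      _ ≤ 3 / 2 * e * (1 + e / 2) * V * ν := by gcongr
  have h7 : (2 - 8 * e) * V ≤ 3 * N' / ν - 3 * P * Ec / ν - a * Ec - a₂ * V := by
    have h8 : (0 : ℝ) ≤ (e - 5 / 4 * e ^ 2) * V := by
      have h9 := mul_le_mul_of_nonneg_left he1 he.le
      have h10 : 0 ≤ e - 5 / 4 * e ^ 2 := by linarith only [h9, he]
      positivity
    linarith only [h5, h6, haE, ha₂V, h8]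
  have hsν : 0 ≤ √ν := Real.sqrt_nonneg _
  have h8 : √ν / 2 * ((2 - 8 * e) * V) - √ξ * V ≤ (√ac + H) * V :=
    le_trans (sub_le_sub_right (mul_le_mul_of_nonneg_left h7 (by positivity)) _) h4
  have h9 : (√ν * (1 - 4 * e) - √ξ) * V ≤ (√ac + H) * V := by
    linarith only [h8]
  have h10 := le_of_mul_le_mul_right h9 hV
  rw [← hs] at c3 ⊢
  have he10 : e ≤ s / 10 := by
    rw [← hse]
    have := mul_le_mul_of_nonneg_left hs1 hs0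
    linarith only [this]
  have h11 : √ν * (1 - 7 / 5 * s) ≤ √ac := by
    have h12 : √ν * e ≤ √ν * (s / 10) := mul_le_mul_of_nonneg_left he10 hsν
    linarith only [h10, c3, h12]
  have h12 : 0 ≤ 1 - 7 / 5 * s := by linarith
  have h13 : (√ν * (1 - 7 / 5 * s)) ^ 2 ≤ ac := by
    have := pow_le_pow_left₀ (by positivity) h11 2
    rwa [Real.sq_sqrt hac0] at this
  rw [mul_pow, Real.sq_sqrt hν0.le] at h13
  refine le_trans ?_ h13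
  rw [mul_comm ν]
  refine mul_le_mul_of_nonneg_right ?_ hν0.le
  have h14 := mul_nonneg hs0 hs0
  linarith only [hs0, h14]

end

end Pool.Agent.Y656
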