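import Pool.Agent.Y656.Dep
import Pool.Agent.W374.CB2.Coh
import Pool.Agent.W135.CB.Tf
import Pool.Agent.W753.CB.Trans
import Pool.Agent.W761.CB.Chain

/-!
# Coherence on large scales
-/

set_option autoImplicit false
set_option linter.unusedSectionVars false

open MeasureTheory
open scoped ENNReal

namespace Pool.Agent.Y656

open Pool.Agent.W761.CB Pool.Agent.W761.CC

noncomputable section

variable {n : ℕ} {L : ℝ} [hL : Fact (0 < L)]

/-- coherence, in terms of the averaged part of the kinetic energy -/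
theorem cohL (hH : S_HAT) (hG : S_GK) {μ ℓ R : ℝ} {q : ℕ} (hμ : 0 < μ) (hR : 0 < R) (hq : 1 ≤ q)
    (hLq : L = q * ℓ) {F : Multiset (Tor n L) → ℂ} (hF : EB F) :
    ENNReal.ofReal (ℓ ^ n) * nuE volume F ≤
      ∑ i, nE volume (ag volume (hf n L ℓ q i) F) +
        ENNReal.ofReal (ℓ ^ n * (4 ^ n * 8 * n * ℓ ^ 2 / μ)) * (ENNReal.ofReal μ * lowk R F) +
        ENNReal.ofReal (ℓ ^ n * (4 ^ n * 8 * n * R ^ 2 / μ)) *
          ken (ENNReal.ofReal μ) (fun _ => 0) F := by
  have hMS := Pool.Agent.W975.CB.proof_ms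
  have hLA := Pool.Agent.W366.CB.proof_lam hMS
  have hE := Pool.Agent.W417.CB.proof_ebc hMS hLA
  have hL0 : 0 < L := hL.out
  have hq0 : (0 : ℝ) < q := by exact_mod_cast hq
  have hℓ0 : 0 < ℓ := by
    rw [hLq] at hL0
    exact (mul_pos_iff_of_pos_left hq0).1 hL0
  obtain ⟨a1, a2, a3, a4, -⟩ := hH n L ℓ q hq hLq
  obtain ⟨-, -, -, -, -, -, -, -, m8, m9, -⟩ := hE (Tor n L) volume F F hF hF
  have hsf := Pool.Agent.W374.CB2.Coh.sumform (volume : Measure (Tor n L)) hE hLA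
    (fun i : Fin n → Fin q => hat n L ℓ (fun c => (i c : ℕ))) (fun i => a1 _)
    (fun i x => (a2 _ x).1) (fun i x => (a2 _ x).2) a3 (fun i => a4 _) F hF
  classical
  have hgk := hG n L ℓ q (fun z => if z ∈ cube n (2 * ℓ) then 1 else 0) 1 hq hLq
    (Measurable.ite (Pool.Agent.W374.CB2.Coh.cube_meas n (2 * ℓ)) measurable_const
      measurable_const)
    zero_le_one (by
      intro z hz
      rw [if_pos (show z ∈ cube n (2 * ℓ) from hz), ENNReal.ofReal_one])
    (fun x y => dE volume F x y) m9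
  rw [ENNReal.ofReal_one, one_mul] at hgk
  have hind : ∫⁻ z : Fin n → ℝ, (if z ∈ cube n (2 * ℓ) then (1 : ℝ≥0∞) else 0) *
      ∫⁻ x, dE volume F (x + pr L z) x =
      ∫⁻ z in cube n (2 * ℓ), ∫⁻ x, dE volume F (x + pr L z) x := by
    rw [← lintegral_indicator (Pool.Agent.W374.CB2.Coh.cube_meas n (2 * ℓ))]
    apply lintegral_congr
    intro z
    by_cases hz : z ∈ cube n (2 * ℓ)
    · rw [if_pos hz, one_mul, Set.indicator_of_mem hz]
    · rw [if_neg hz, zero_mul, Set.indicator_of_notMem hz]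
  rw [hind] at hgk
  obtain ⟨k, hk⟩ : ∃ k, k = ENNReal.ofReal μ * lowk R F := ⟨_, rfl⟩
  obtain ⟨e, he⟩ : ∃ e, e = ken (ENNReal.ofReal μ) (fun _ => 0) F := ⟨_, rfl⟩
  rw [← hk, ← he]
  have hpt : ∀ z ∈ cube n (2 * ℓ), ∫⁻ x, dE volume F (x + pr L z) x ≤
      ENNReal.ofReal (8 * n * ℓ ^ 2 / μ) * k + ENNReal.ofReal (8 * n * R ^ 2 / μ) * e := by
    intro z hz
    have h1 := dE_low hF hR (by positivity : 0 ≤ 2 * ℓ) hz (ENNReal.ofReal μ)
      ENNReal.ofReal_ne_top
    rw [← hk, ← he] at h1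
    have h2 : ENNReal.ofReal (1 / μ) * (ENNReal.ofReal μ *
        ∫⁻ x, dE volume F (x + pr L z) x) = ∫⁻ x, dE volume F (x + pr L z) x := by
      rw [← mul_assoc, ← ENNReal.ofReal_mul (by positivity), one_div, inv_mul_cancel₀ hμ.ne',
        ENNReal.ofReal_one, one_mul]
    rw [← h2]
    refine (mul_le_mul_right h1 _).trans (le_of_eq ?_)
    rw [mul_add]
    refine congrArg₂ (· + ·) ?_ ?_
    · rw [← mul_assoc, show (2 : ℝ≥0∞) = ENNReal.ofReal 2 by norm_num,
        ← ENNReal.ofReal_natCast n, ← ENNReal.ofReal_mul (by positivity),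
        ← ENNReal.ofReal_mul (by positivity), ← ENNReal.ofReal_mul (by positivity)]
      congr 2
      field_simp
      ring
    · rw [← mul_assoc, show (8 : ℝ≥0∞) = ENNReal.ofReal 8 by norm_num,
        ← ENNReal.ofReal_natCast n, ← ENNReal.ofReal_mul (by positivity),
        ← ENNReal.ofReal_mul (by positivity), ← ENNReal.ofReal_mul (by positivity)]
      congr 2
      field_simp
  have hint : ∫⁻ z in cube n (2 * ℓ), ∫⁻ x, dE volume F (x + pr L z) x ≤
      ENNReal.ofReal ((4 * ℓ) ^ n) * (ENNReal.ofReal (8 * n * ℓ ^ 2 / μ) * k +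
        ENNReal.ofReal (8 * n * R ^ 2 / μ) * e) := by
    refine (setLIntegral_mono' (Pool.Agent.W374.CB2.Coh.cube_meas n (2 * ℓ)) hpt).trans ?_
    rw [setLIntegral_const, Pool.Agent.W753.CB.vol_cube n (by positivity : 0 ≤ 2 * ℓ), mul_comm]
    apply le_of_eq
    congr 3
    ring
  rw [hsf, add_assoc]
  refine add_le_add le_rfl ?_
  calc 2⁻¹ * _ ≤ 1 * _ := mul_le_mul_left (ENNReal.inv_le_one.2 (by norm_num)) _
    _ ≤ ENNReal.ofReal ((4 * ℓ) ^ n) * (ENNReal.ofReal (8 * n * ℓ ^ 2 / μ) * k +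
        ENNReal.ofReal (8 * n * R ^ 2 / μ) * e) := by rw [one_mul]; exact hgk.trans hint
    _ = _ := by
        rw [mul_add, ← mul_assoc, ← mul_assoc, ← ENNReal.ofReal_mul (by positivity),
          ← ENNReal.ofReal_mul (by positivity)]
        congr 3
        · rw [mul_pow]; ring
        · rw [mul_pow]; ring

end

end Pool.Agent.Y656
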