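import Pool.Agent.Y656.Loss
import Pool.Agent.TH268.CC.Step2
import Pool.Agent.TH268.CC.Base2
import Pool.Agent.W337.CB.Mecke

/-!
# One step of the chain of scales with the measurement by loss
-/

set_option autoImplicit false
set_option linter.unusedSectionVars false

open MeasureTheory
open scoped ENNReal

namespace Pool.Agent.Y656

open Pool.Agent.W761.CB Pool.Agent.W150.CB Pool.Agent.TH268.CC

noncomputable section

/-- existence of an ensemble with at most `N` particles -/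
def HasEns3 {X : Type} [MeasurableSpace X] (ν : Measure X) {I : Type} [Fintype I]
    (en : (Multiset X → ℂ) → ℝ≥0∞) (u : I → X → ℝ) (N : ℕ) (Nlo E R B : ℝ) : Prop :=
  ∃ (A : Type) (_ : Countable A) (Φ : A → Multiset X → ℂ) (c : A → I → ℂ),
    IsEns ν en u Nlo (N : ℝ) E R B Φ c ∧ ∀ α S, N < Multiset.card S → Φ α S = 0

section
variable {X : Type} [MeasurableSpace X] {ν : Measure X} [IsFiniteMeasure ν]

/-- the number of particles -/
lemma nuE_eq {F : Multiset X → ℂ} (hF : EB F) :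
    nuE ν F = ∫⁻ γ, ((Multiset.card (ms γ) : ℕ) : ℝ≥0∞) * ‖F (ms γ)‖ₑ ^ 2 ∂(lam ν) := by
  have hM := Pool.Agent.W975.CB.proof_ms
  have hL := Pool.Agent.W366.CB.proof_lam hM
  have hm : Measurable fun p : X × Cf X => ‖F (ms p.2)‖ₑ ^ 2 :=
    (hF.meas.comp measurable_snd).enorm.pow_const 2
  have h := Pool.Agent.W337.CB.proof_mecke hM hL X ν (fun _ S => ‖F S‖ₑ ^ 2) hm
  unfold nuE nE an
  rw [← h]
  refine lintegral_congr fun γ => ?_
  simp

/-- the number of missing particles -/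
lemma dm_add_nu {N : ℕ} {F : Multiset X → ℂ} (hF : EB F)
    (hN : ∀ S, N < Multiset.card S → F S = 0) :
    dm ν N F + nuE ν F = (N : ℝ≥0∞) * nE ν F := by
  have hc : Measurable fun γ : Cf X => ((Multiset.card (ms γ) : ℕ) : ℝ≥0∞) :=
    (measurable_from_top (f := fun k : ℕ => (k : ℝ≥0∞))).comp meas_card
  have hm : Measurable fun γ : Cf X =>
      ((Multiset.card (ms γ) : ℕ) : ℝ≥0∞) * ‖F (ms γ)‖ₑ ^ 2 :=
    hc.mul (hF.meas.enorm.pow_const 2)
  rw [nuE_eq hF]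
  unfold dm nE
  rw [← lintegral_add_right _ hm,
    ← lintegral_const_mul' _ _ (ENNReal.natCast_ne_top N)]
  refine lintegral_congr fun γ => ?_
  rcases le_or_gt (Multiset.card (ms γ)) N with h | h
  · rw [← add_mul, ← Nat.cast_add, Nat.sub_add_cancel h]
  · rw [hN _ h]
    simp

lemma dm_sum {N : ℕ} {A : Type} {Φ : A → Multiset X → ℂ} (hΦ : ∀ α, EB (Φ α))
    (hN : ∀ α S, N < Multiset.card S → Φ α S = 0) (h1 : ∑' α, nE ν (Φ α) = 1) {Nlo : ℝ}
    (h2 : ENNReal.ofReal Nlo ≤ ∑' α, nuE ν (Φ α)) :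
    ∑' α, dm ν N (Φ α) ≤ ENNReal.ofReal (N - Nlo) := by
  have h3 : ∑' α, dm ν N (Φ α) + ∑' α, nuE ν (Φ α) = (N : ℝ≥0∞) := by
    rw [← ENNReal.tsum_add, tsum_congr fun α => dm_add_nu (hΦ α) (hN α), ENNReal.tsum_mul_left,
      h1, mul_one]
  rcases le_or_gt 0 Nlo with h0 | h0
  · rw [ENNReal.ofReal_sub _ h0, ENNReal.ofReal_natCast]
    refine ENNReal.le_sub_of_add_le_right ENNReal.ofReal_ne_top ?_
    rw [← h3]
    gcongr
  · have h4 : (N : ℝ≥0∞) ≤ ENNReal.ofReal (N - Nlo) := by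
      rw [← ENNReal.ofReal_natCast]
      exact ENNReal.ofReal_le_ofReal (by linarith)
    refine le_trans ?_ h4
    rw [← h3]
    exact le_self_add

end

/-- one step of the chain -/
theorem step3 {X : Type} [MeasurableSpace X] (ν : Measure X) [IsFiniteMeasure ν]
    (I I' : Type) [Fintype I] [Fintype I'] (en : (Multiset X → ℂ) → ℝ≥0∞)
    (u : I → X → ℝ) (u' : I' → X → ℝ) (h : I' → I → ℝ)
    (ε g e Ca Nlo E R R' B' : ℝ) (N : ℕ) (A : Type) [Countable A]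
    (L : A → (Multiset X → ℂ) → Multiset X → ℂ) (c : A → I → ℂ)
    (hum : ∀ i, Measurable (u i)) (hu0 : ∀ i x, 0 ≤ u i x) (hus : ∀ x, ∑ i, u i x = 1)
    (hum' : ∀ i', Measurable (u' i')) (hu0' : ∀ i' x, 0 ≤ u' i' x) (hu1' : ∀ i' x, u' i' x ≤ 1)
    (hw : ∀ i' x, u' i' x = ∑ i, h i' i * u i x) (hh : ∀ i' i, 0 ≤ h i' i)
    (hs : ∀ i, ∑ i', h i' i = 1)
    (hε0 : 0 ≤ ε) (hε1 : ε ≤ 1) (hg : 0 < g) (he : 0 ≤ e) (hCa : 0 ≤ Ca)
    (hNlo : Nlo ≤ N) (hE : 0 ≤ E) (hB' : 0 ≤ B') (hNlo0 : 0 ≤ Nlo)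
    (hdia : ∀ F, EB F → en (absv F) + ENNReal.ofReal g * ∑ i', nE ν (ag ν (u' i') (absv F)) ≤
      en F + ENNReal.ofReal g * ∑ i', nE ν (ag ν (u' i') F))
    (hlow : ∀ F, EB F → (∀ S, N < Multiset.card S → F S = 0) →
      ENNReal.ofReal e * nE ν F ≤ en F + ENNReal.ofReal Ca * dm ν N F)
    (hins : IsLoss ν u ε R L c)
    (hen : ∀ F, EB F → ∑' α, en (L α F) ≤ en F)
    (hold : HasEns3 ν en u' N Nlo E R' B') :
    HasEns3 ν en u N ((1 - ε) * Nlo) E R
      (B' + Fintype.card I' * √R' + Fintype.card I * √R +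
        √(Fintype.card I' * (E + Ca * (N - (1 - ε) * Nlo) - e) / g)) := by
  obtain ⟨A', hA', Φ', c', hE', hS'⟩ := hold
  have hu1 : ∀ i x, u i x ≤ 1 := fun i x => by
    rw [← hus x]
    exact Finset.single_le_sum (f := fun j => u j x) (fun j _ => hu0 j x) (Finset.mem_univ i)
  have hbd' : ∀ i', ∃ C : ℝ, ∀ x, |u' i' x| ≤ C := fun i' =>
    ⟨1, fun x => by rw [abs_of_nonneg (hu0' i' x)]; exact hu1' i' x⟩
  have hEB : ∀ k : A' × A, EB (L k.2 (Φ' k.1)) := fun k => hins.eb _ (hE'.eb k.1) k.2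
  have hSup : ∀ (k : A' × A) S, N < Multiset.card S → L k.2 (Φ' k.1) S = 0 := fun k =>
    hins.supp _ N (hS' k.1) k.2
  have h1ε : ENNReal.ofReal (1 - ε) ≤ 1 := ENNReal.ofReal_le_one.2 (by linarith)
  -- norm
  have hnorm : ∑' k : A' × A, nE ν (L k.2 (Φ' k.1)) = 1 := by
    rw [ENNReal.tsum_prod (f := fun β α => nE ν (L α (Φ' β)))]
    rw [← hE'.norm]
    exact tsum_congr fun β => hins.norm _ (hE'.eb β)
  -- particle number
  have hnm : ∀ (F : Multiset X → ℂ), EB F → Measurable (fun x => nE ν (an x F)) := fun F hF =>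
    (ebc X ν F F hF hF).2.2.2.2.2.2.2.2.1
  have hnu : ∑' k : A' × A, nuE ν (L k.2 (Φ' k.1)) =
      ENNReal.ofReal (1 - ε) * ∑' β, nuE ν (Φ' β) := by
    rw [ENNReal.tsum_prod (f := fun β α => nuE ν (L α (Φ' β))), ← ENNReal.tsum_mul_left]
    refine tsum_congr fun β => ?_
    unfold nuE
    rw [← lintegral_tsum fun α => (hnm _ (hins.eb _ (hE'.eb β) α)).aemeasurable,
      ← lintegral_const_mul' _ _ ENNReal.ofReal_ne_top]
    exact lintegral_congr fun x => hins.one _ (hE'.eb β) x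
  have hnlo : ENNReal.ofReal ((1 - ε) * Nlo) ≤ ∑' k : A' × A, nuE ν (L k.2 (Φ' k.1)) := by
    rw [hnu, ENNReal.ofReal_mul (by linarith)]
    gcongr
    exact hE'.nlo
  have hnhi : ∑' k : A' × A, nuE ν (L k.2 (Φ' k.1)) ≤ ENNReal.ofReal (N : ℝ) := by
    rw [hnu]
    calc _ ≤ 1 * ∑' β, nuE ν (Φ' β) := by gcongr
      _ = ∑' β, nuE ν (Φ' β) := one_mul _
      _ ≤ _ := hE'.nhi
  -- energy
  have hen' : ∑' k : A' × A, en (L k.2 (Φ' k.1)) ≤ ENNReal.ofReal E := by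
    rw [ENNReal.tsum_prod (f := fun β α => en (L α (Φ' β)))]
    refine (ENNReal.tsum_le_tsum fun β => hen _ (hE'.eb β)).trans ?_
    exact hE'.energy
  -- amplitudes
  have hamp : ∀ i, ∑' k : A' × A, dev ν (u i) (c k.2 i) (L k.2 (Φ' k.1)) ≤
      ENNReal.ofReal R := by
    intro i
    rw [ENNReal.tsum_prod (f := fun β α => dev ν (u i) (c α i) (L α (Φ' β)))]
    refine (ENNReal.tsum_le_tsum fun β => hins.amp _ (hE'.eb β) i).trans ?_
    rw [ENNReal.tsum_mul_left, hE'.norm, mul_one]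
  have hold' : ∀ i', ∑' k : A' × A, dev ν (u' i') ((√(1 - ε) : ℝ) * c' k.1 i')
      (L k.2 (Φ' k.1)) ≤ ENNReal.ofReal R' := by
    intro i'
    rw [ENNReal.tsum_prod (f := fun β α => dev ν (u' i') ((√(1 - ε) : ℝ) * c' β i')
      (L α (Φ' β)))]
    calc _ = ∑' β, ENNReal.ofReal (1 - ε) * dev ν (u' i') (c' β i') (Φ' β) :=
          tsum_congr fun β => hins.old _ (hE'.eb β) (u' i') (c' β i') (hum' i') (hbd' i')
      _ ≤ ∑' β, 1 * dev ν (u' i') (c' β i') (Φ' β) :=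
          ENNReal.tsum_le_tsum fun β => by gcongr
      _ ≤ _ := by
          simp only [one_mul]
          exact hE'.amp i'
  have hdm : ∑' k : A' × A, dm ν N (L k.2 (Φ' k.1)) ≤ ENNReal.ofReal (N - (1 - ε) * Nlo) :=
    dm_sum hEB hSup hnorm hnlo
  have hNN : 0 ≤ (N : ℝ) - (1 - ε) * Nlo := by
    have : (1 - ε) * Nlo ≤ 1 * Nlo := mul_le_mul_of_nonneg_right (by linarith) hNlo0
    linarith
  refine ⟨A' × A, inferInstance, fun k => L k.2 (Φ' k.1), fun k => c k.2,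
    ⟨hEB, hnorm, hnlo, hnhi, hen', hamp, ?_⟩, hSup⟩
  -- the differences
  have hper : ∀ k : A' × A, ENNReal.ofReal e * nE ν (L k.2 (Φ' k.1)) +
      ENNReal.ofReal g * ∑ i', df ν (u' i') (L k.2 (Φ' k.1)) ≤
      en (L k.2 (Φ' k.1)) + ENNReal.ofReal Ca * dm ν N (L k.2 (Φ' k.1)) := by
    intro k
    have hSk := hSup k
    obtain ⟨F, hF⟩ : ∃ F, F = L k.2 (Φ' k.1) := ⟨_, rfl⟩
    have hFE : EB F := hF ▸ hEB k
    rw [← hF] at hSk ⊢
    have h1 := hdia F hFE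
    have h2 := hlow (absv F) (ebc X ν F F hFE hFE).2.1 (fun S hS => by
      unfold absv
      rw [hSk S hS]
      simp)
    rw [dm_absv, nE_absv] at h2
    have h3 : ∑ i', nE ν (ag ν (u' i') (absv F)) =
        ∑ i', nE ν (ag ν (u' i') F) + ∑ i', df ν (u' i') F := by
      rw [← Finset.sum_add_distrib]
      exact Finset.sum_congr rfl fun i' _ => df_add F (hu0' i')
    have hZ : ENNReal.ofReal g * ∑ i', nE ν (ag ν (u' i') F) ≠ ⊤ := by
      refine ENNReal.mul_ne_top ENNReal.ofReal_ne_top (ENNReal.sum_ne_top.2 fun i' _ => ?_)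
      exact ((slam X ν).2.2.2.2.1 _ (ag_eb hFE (hum' i') (hbd' i'))).ne
    rw [← ENNReal.add_le_add_iff_right hZ]
    calc ENNReal.ofReal e * nE ν F + ENNReal.ofReal g * ∑ i', df ν (u' i') F +
          ENNReal.ofReal g * ∑ i', nE ν (ag ν (u' i') F)
        = ENNReal.ofReal e * nE ν F + ENNReal.ofReal g * ∑ i', nE ν (ag ν (u' i') (absv F)) := by
          rw [h3, mul_add]
          ring
      _ ≤ (en (absv F) + ENNReal.ofReal Ca * dm ν N F) +
          ENNReal.ofReal g * ∑ i', nE ν (ag ν (u' i') (absv F)) := by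
          gcongr
      _ = (en (absv F) + ENNReal.ofReal g * ∑ i', nE ν (ag ν (u' i') (absv F))) +
          ENNReal.ofReal Ca * dm ν N F := by ring
      _ ≤ (en F + ENNReal.ofReal g * ∑ i', nE ν (ag ν (u' i') F)) +
          ENNReal.ofReal Ca * dm ν N F := by gcongr
      _ = _ := by ring
  obtain ⟨D, hD⟩ : ∃ D : ℝ≥0∞, D = ∑' k : A' × A, ∑ i', df ν (u' i') (L k.2 (Φ' k.1)) := ⟨_, rfl⟩
  have hDle : ENNReal.ofReal e + ENNReal.ofReal g * D ≤
      ENNReal.ofReal (E + Ca * (N - (1 - ε) * Nlo)) := by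
    have h1 := ENNReal.tsum_le_tsum hper
    rw [ENNReal.tsum_add, ENNReal.tsum_add, ENNReal.tsum_mul_left, ENNReal.tsum_mul_left,
      ENNReal.tsum_mul_left, hnorm, mul_one, ← hD] at h1
    rw [ENNReal.ofReal_add (by positivity) (by positivity), ENNReal.ofReal_mul hCa]
    refine h1.trans ?_
    gcongr
  have hDle2 : ENNReal.ofReal g * D ≤
      ENNReal.ofReal (E + Ca * (N - (1 - ε) * Nlo) - e) := by
    rw [ENNReal.ofReal_sub _ he]
    refine ENNReal.le_sub_of_add_le_left ENNReal.ofReal_ne_top hDle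
  have hDle3 : (Fintype.card I' : ℝ≥0∞) * D ≤
      ENNReal.ofReal (Fintype.card I' * (E + Ca * (N - (1 - ε) * Nlo) - e) / g) := by
    have h1 : (Fintype.card I' : ℝ≥0∞) * D =
        ENNReal.ofReal (Fintype.card I' / g) * (ENNReal.ofReal g * D) := by
      rw [← mul_assoc, ← ENNReal.ofReal_mul (by positivity), div_mul_cancel₀ _ hg.ne',
        ENNReal.ofReal_natCast]
    rw [h1]
    calc _ ≤ ENNReal.ofReal (Fintype.card I' / g) *
          ENNReal.ofReal (E + Ca * (N - (1 - ε) * Nlo) - e) := by gcongr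
      _ = _ := by
          rw [← ENNReal.ofReal_mul (by positivity)]
          congr 1
          ring
  have hcn : ∀ z : ℂ, ‖((√(1 - ε) : ℝ) : ℂ) * z‖ₑ ≤ ‖z‖ₑ := by
    intro z
    rw [← ofReal_norm, ← ofReal_norm]
    refine ENNReal.ofReal_le_ofReal ?_
    rw [norm_mul, Complex.norm_real, Real.norm_eq_abs, abs_of_nonneg (Real.sqrt_nonneg _)]
    exact mul_le_of_le_one_left (norm_nonneg _) (Real.sqrt_le_one.2 (by linarith))
  -- the four sums
  have hT1 : ∑' k : A' × A, nE ν (L k.2 (Φ' k.1)) * ∑ i', ‖((√(1 - ε) : ℝ) : ℂ) * c' k.1 i'‖ₑ ≤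
      ENNReal.ofReal B' := by
    calc _ ≤ ∑' k : A' × A, nE ν (L k.2 (Φ' k.1)) * ∑ i', ‖c' k.1 i'‖ₑ := by
          refine ENNReal.tsum_le_tsum fun k => ?_
          gcongr
          exact hcn _
      _ ≤ _ := by
          rw [ENNReal.tsum_prod (f := fun β α => nE ν (L α (Φ' β)) * ∑ i', ‖c' β i'‖ₑ)]
          simp only [ENNReal.tsum_mul_right]
          refine le_trans (le_of_eq ?_) hE'.coh
          exact tsum_congr fun β => by rw [hins.norm _ (hE'.eb β)]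
  have hT2 : ∑' k : A' × A, ∑ i', (nE ν (L k.2 (Φ' k.1))) ^ (1 / 2 : ℝ) *
      (dev ν (u' i') ((√(1 - ε) : ℝ) * c' k.1 i') (L k.2 (Φ' k.1))) ^ (1 / 2 : ℝ) ≤
      ENNReal.ofReal (Fintype.card I' * √R') := by
    rw [Summable.tsum_finsetSum fun i' _ => ENNReal.summable]
    calc _ ≤ ∑ i' : I', ENNReal.ofReal (√R') := by
          refine Finset.sum_le_sum fun i' _ => ?_
          refine (cs_tsum _ _).trans ?_
          rw [hnorm, ENNReal.one_rpow, one_mul, ← ofReal_half]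
          gcongr
          exact hold' i'
      _ = _ := by
          rw [Finset.sum_const, nsmul_eq_mul, ENNReal.ofReal_mul (Nat.cast_nonneg _),
            ENNReal.ofReal_natCast]
          rfl
  have hT4 : ∑' k : A' × A, ∑ i, (nE ν (L k.2 (Φ' k.1))) ^ (1 / 2 : ℝ) *
      (dev ν (u i) (c k.2 i) (L k.2 (Φ' k.1))) ^ (1 / 2 : ℝ) ≤
      ENNReal.ofReal (Fintype.card I * √R) := by
    rw [Summable.tsum_finsetSum fun i _ => ENNReal.summable]
    calc _ ≤ ∑ i : I, ENNReal.ofReal (√R) := by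
          refine Finset.sum_le_sum fun i _ => ?_
          refine (cs_tsum _ _).trans ?_
          rw [hnorm, ENNReal.one_rpow, one_mul, ← ofReal_half]
          gcongr
          exact hamp i
      _ = _ := by
          rw [Finset.sum_const, nsmul_eq_mul, ENNReal.ofReal_mul (Nat.cast_nonneg _),
            ENNReal.ofReal_natCast]
          rfl
  have hT3 : ∑' k : A' × A, ∑ i', (nE ν (L k.2 (Φ' k.1))) ^ (1 / 2 : ℝ) *
      (df ν (u' i') (L k.2 (Φ' k.1))) ^ (1 / 2 : ℝ) ≤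
      ENNReal.ofReal (√(Fintype.card I' * (E + Ca * (N - (1 - ε) * Nlo) - e) / g)) := by
    simp only [← tsum_fintype (L := SummationFilter.unconditional _)]
    rw [← ENNReal.tsum_prod (f := fun (k : A' × A) (i' : I') =>
      (nE ν (L k.2 (Φ' k.1))) ^ (1 / 2 : ℝ) * (df ν (u' i') (L k.2 (Φ' k.1))) ^ (1 / 2 : ℝ))]
    refine (cs_tsum (κ := (A' × A) × I') (fun q => nE ν (L q.1.2 (Φ' q.1.1)))
      (fun q => df ν (u' q.2) (L q.1.2 (Φ' q.1.1)))).trans ?_
    rw [ENNReal.tsum_prod (f := fun (k : A' × A) (i' : I') => nE ν (L k.2 (Φ' k.1))),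
      ENNReal.tsum_prod (f := fun (k : A' × A) (i' : I') => df ν (u' i') (L k.2 (Φ' k.1)))]
    simp only [tsum_fintype, Finset.sum_const, nsmul_eq_mul]
    rw [ENNReal.tsum_mul_left, hnorm, mul_one, ← hD,
      ← ENNReal.mul_rpow_of_nonneg _ _ (by norm_num), ← ofReal_half]
    gcongr
    exact hDle3
  refine (ENNReal.tsum_le_tsum fun k => main_one (ν := ν) (hEB k) hh hs hw hum hu0 hu1 hum' hu1'
    (c k.2) (fun i' => ((√(1 - ε) : ℝ) : ℂ) * c' k.1 i')).trans ?_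
  rw [ENNReal.tsum_add, ENNReal.tsum_add, ENNReal.tsum_add]
  rw [ENNReal.ofReal_add (by positivity) (Real.sqrt_nonneg _),
    ENNReal.ofReal_add (by positivity) (by positivity),
    ENNReal.ofReal_add hB' (by positivity)]
  calc _ ≤ ENNReal.ofReal B' + ENNReal.ofReal (Fintype.card I' * √R') +
      ENNReal.ofReal (√(Fintype.card I' * (E + Ca * (N - (1 - ε) * Nlo) - e) / g)) +
      ENNReal.ofReal (Fintype.card I * √R) := by gcongr
    _ = _ := by ring

/-- the first measurement -/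
theorem base3 {X : Type} [MeasurableSpace X] (ν : Measure X) [IsFiniteMeasure ν]
    (I : Type) [Fintype I] (en : (Multiset X → ℂ) → ℝ≥0∞) (u : I → X → ℝ)
    (ε E Q R : ℝ) (N : ℕ) (A : Type) [Countable A]
    (L : A → (Multiset X → ℂ) → Multiset X → ℂ) (c : A → I → ℂ) (ψ : Multiset X → ℂ)
    (hI : Fintype.card I = 1) (hu : ∀ i x, u i x = 1)
    (hε0 : 0 ≤ ε) (hε1 : ε ≤ 1)
    (hψ : EB ψ) (hψs : ∀ S, N < Multiset.card S → ψ S = 0) (hψ1 : nE ν ψ = 1)
    (hψN : nuE ν ψ = ENNReal.ofReal N)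
    (hψE : en ψ ≤ ENNReal.ofReal E) (hψQ : nE ν (ag ν (fun _ => 1) ψ) ≤ ENNReal.ofReal Q)
    (hIns : IsLoss ν u ε R L c)
    (hen : ∀ F, EB F → ∑' α, en (L α F) ≤ en F) :
    HasEns3 ν en u N ((1 - ε) * N) E R (√Q + √R) := by
  have hN : (0 : ℝ) ≤ N := Nat.cast_nonneg N
  obtain ⟨i0, hi0⟩ := Fintype.card_eq_one_iff.1 hI
  have h1ε : ENNReal.ofReal (1 - ε) ≤ 1 := ENNReal.ofReal_le_one.2 (by linarith)
  have hmeas : ∀ F : Multiset X → ℂ, EB F → Measurable fun x => nE ν (an x F) := by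
    intro F hF
    exact (ebc X ν F F hF hF).2.2.2.2.2.2.2.2.1
  have hsum : ∑' α, nuE ν (L α ψ) = ENNReal.ofReal (1 - ε) * nuE ν ψ := by
    unfold nuE
    rw [← lintegral_tsum fun α => (hmeas _ (hIns.eb ψ hψ α)).aemeasurable,
      ← lintegral_const_mul' _ _ ENNReal.ofReal_ne_top]
    exact lintegral_congr fun x => hIns.one ψ hψ x
  refine ⟨A, inferInstance, fun α => L α ψ, c, ?_, hIns.supp ψ N hψs⟩
  refine ⟨fun α => hIns.eb ψ hψ α, ?_, ?_, ?_, ?_, ?_, ?_⟩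
  · rw [hIns.norm ψ hψ, hψ1]
  · rw [hsum, hψN, ENNReal.ofReal_mul (by linarith)]
  · rw [hsum, hψN]
    exact mul_le_of_le_one_left zero_le h1ε
  · exact (hen ψ hψ).trans hψE
  · intro i
    refine (hIns.amp ψ hψ i).trans ?_
    rw [hψ1, mul_one]
  · -- coherence
    have hu1 : u i0 = fun _ => 1 := funext fun x => hu i0 x
    have hag : ∀ α, EB (ag ν (fun _ => 1) (L α ψ)) := by
      intro α
      have h := hIns.eb ψ hψ α
      exact (ebc X ν _ _ h h).2.2.2.1 _ measurable_const ⟨1, fun x => by simp⟩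
    have hcs : ∀ α, EB (fun S => c α i0 * L α ψ S) := by
      intro α
      have h := hIns.eb ψ hψ α
      have h2 := (ebc X ν _ _ h h).2.2.1 (c α i0) 0
      simpa using h2
    have h1 : ∀ α, nE ν (L α ψ) * ∑ i, ‖c α i‖ₑ ≤
        (nE ν (L α ψ)) ^ (1 / 2 : ℝ) * (nE ν (ag ν (fun _ => 1) (L α ψ))) ^ (1 / 2 : ℝ) +
        (nE ν (L α ψ)) ^ (1 / 2 : ℝ) * (dev ν (u i0) (c α i0) (L α ψ)) ^ (1 / 2 : ℝ) := by
      intro α
      have h2 : ∑ i, ‖c α i‖ₑ = ‖c α i0‖ₑ := by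
        rw [Fintype.sum_eq_single i0]
        intro i hi
        exact absurd (hi0 i) hi
      have h3 := Pool.Agent.W21.CB.nE_tri ν _ _ (hcs α) (hag α)
      rw [Pool.Agent.W21.CB.nE_smul ν _ (hIns.eb ψ hψ α)] at h3
      have h4 : (‖c α i0‖ₑ ^ 2 * nE ν (L α ψ)) ^ (1 / 2 : ℝ) =
          ‖c α i0‖ₑ * (nE ν (L α ψ)) ^ (1 / 2 : ℝ) := by
        rw [ENNReal.mul_rpow_of_nonneg _ _ (by norm_num), ← ENNReal.rpow_natCast,
          ← ENNReal.rpow_mul]
        norm_num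
      rw [h4] at h3
      have h5 : nE ν (L α ψ) = (nE ν (L α ψ)) ^ (1 / 2 : ℝ) * (nE ν (L α ψ)) ^ (1 / 2 : ℝ) := by
        rw [← ENNReal.rpow_add_of_nonneg _ _ (by norm_num) (by norm_num)]
        norm_num
      rw [h2, ← mul_add]
      calc nE ν (L α ψ) * ‖c α i0‖ₑ
          = (nE ν (L α ψ)) ^ (1 / 2 : ℝ) * (‖c α i0‖ₑ * (nE ν (L α ψ)) ^ (1 / 2 : ℝ)) := by
            nth_rw 1 [h5]
            ring
        _ ≤ _ := by
            refine mul_le_mul_right ?_ _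
            rw [hu1]
            exact h3
    have h6 : (∑' α, nE ν (L α ψ)) = 1 := by rw [hIns.norm ψ hψ, hψ1]
    have h7 : ∑' α, nE ν (ag ν (fun _ => 1) (L α ψ)) ≤ ENNReal.ofReal Q := by
      have h8 := hIns.old ψ hψ (fun _ => 1) 0 measurable_const ⟨1, fun _ => by simp⟩
      rw [mul_zero] at h8
      have h9 : ∀ F : Multiset X → ℂ, dev ν (fun _ => 1) 0 F = nE ν (ag ν (fun _ => 1) F) := by
        intro F
        unfold dev
        congr 1
        funext S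
        rw [zero_mul, sub_zero]
      simp only [h9] at h8
      rw [h8]
      exact (mul_le_of_le_one_left zero_le h1ε).trans hψQ
    have h10 : ∑' α, dev ν (u i0) (c α i0) (L α ψ) ≤ ENNReal.ofReal R := by
      refine (hIns.amp ψ hψ i0).trans ?_
      rw [hψ1, mul_one]
    calc ∑' α, nE ν (L α ψ) * ∑ i, ‖c α i‖ₑ
        ≤ ∑' α, ((nE ν (L α ψ)) ^ (1 / 2 : ℝ) *
            (nE ν (ag ν (fun _ => 1) (L α ψ))) ^ (1 / 2 : ℝ) +
          (nE ν (L α ψ)) ^ (1 / 2 : ℝ) * (dev ν (u i0) (c α i0) (L α ψ)) ^ (1 / 2 : ℝ)) :=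
          ENNReal.tsum_le_tsum h1
      _ ≤ (∑' α, nE ν (L α ψ)) ^ (1 / 2 : ℝ) *
            (∑' α, nE ν (ag ν (fun _ => 1) (L α ψ))) ^ (1 / 2 : ℝ) +
          (∑' α, nE ν (L α ψ)) ^ (1 / 2 : ℝ) *
            (∑' α, dev ν (u i0) (c α i0) (L α ψ)) ^ (1 / 2 : ℝ) := by
          rw [ENNReal.tsum_add]
          exact add_le_add (cs_tsum _ _) (cs_tsum _ _)
      _ ≤ (ENNReal.ofReal Q) ^ (1 / 2 : ℝ) + (ENNReal.ofReal R) ^ (1 / 2 : ℝ) := by
          rw [h6, ENNReal.one_rpow, one_mul, one_mul]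
          gcongr
      _ = _ := by
          rw [ofReal_half, ofReal_half,
            ENNReal.ofReal_add (Real.sqrt_nonneg _) (Real.sqrt_nonneg _)]

end

end Pool.Agent.Y656
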