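import Pool.Agent.Y656.HP2
import Pool.Agent.Y656.Step3

/-!
# The lower bound of the energy of any number of particles with a part of the kinetic energy left
-/

set_option autoImplicit false
set_option linter.unusedSectionVars false

open MeasureTheory
open scoped ENNReal

namespace Pool.Agent.Y656

open Pool.Agent.W761.CB Pool.Agent.W761.CC

noncomputable section

variable {n : ℕ} {L : ℝ} [hL : Fact (0 < L)]

open Classical in
/-- convexity -/
lemma conv_pt3 {q κ : ℕ} {b ν : ℝ} (hb : 0 < b) (hν : 0 < ν) (hLb : L = q * b)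
    (hex : ∀ x : Tor n L, ∃! i : Fin n → Fin q, x ∈ blk n L b (fun c => (i c : ℕ)))
    (S : Multiset (Tor n L)) :
    ENNReal.ofReal (2 / ν) * (Multiset.card S : ℝ≥0∞) ≤ ENNReal.ofReal (L ^ n) +
      ∑ i : Fin n → Fin q, (ENNReal.ofReal (1 / (b ^ n * ν ^ 2)) *
        (if cnt (blk n L b (fun c => (i c : ℕ))) S ≤ κ then
          (cnt (blk n L b (fun c => (i c : ℕ))) S : ℝ≥0∞) ^ 2 else 0) +
      ENNReal.ofReal (2 / ν) * (if cnt (blk n L b (fun c => (i c : ℕ))) S ≤ κ then 0 else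
          (cnt (blk n L b (fun c => (i c : ℕ))) S : ℝ≥0∞))) := by
  have hbn : 0 < b ^ n := pow_pos hb n
  obtain ⟨C, hC⟩ : ∃ C : (Fin n → Fin q) → ℕ, C = fun i =>
    cnt (blk n L b (fun c => (i c : ℕ))) S := ⟨_, rfl⟩
  obtain ⟨A, hA⟩ : ∃ A : (Fin n → Fin q) → ℝ, A = fun i =>
    1 / (b ^ n * ν ^ 2) * (if C i ≤ κ then (C i : ℝ) ^ 2 else 0) +
      2 / ν * (if C i ≤ κ then 0 else (C i : ℝ)) := ⟨_, rfl⟩
  have hA0 : ∀ i, 0 ≤ A i := by
    intro i
    rw [hA]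
    simp only
    split_ifs <;> positivity
  have e1 : ∀ i, (ENNReal.ofReal (1 / (b ^ n * ν ^ 2)) *
        (if cnt (blk n L b (fun c => (i c : ℕ))) S ≤ κ then
          (cnt (blk n L b (fun c => (i c : ℕ))) S : ℝ≥0∞) ^ 2 else 0) +
      ENNReal.ofReal (2 / ν) * (if cnt (blk n L b (fun c => (i c : ℕ))) S ≤ κ then 0 else
          (cnt (blk n L b (fun c => (i c : ℕ))) S : ℝ≥0∞))) = ENNReal.ofReal (A i) := by
    intro i
    rw [hA, hC]
    simp only
    split_ifs with h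
    · rw [mul_zero, mul_zero, add_zero, add_zero, ENNReal.ofReal_mul (by positivity),
        ENNReal.ofReal_pow (by positivity), ENNReal.ofReal_natCast]
    · rw [mul_zero, mul_zero, zero_add, zero_add, ENNReal.ofReal_mul (by positivity),
        ENNReal.ofReal_natCast]
  have hL0 : 0 < L := hL.out
  rw [Finset.sum_congr rfl fun i _ => e1 i, ← ENNReal.ofReal_sum_of_nonneg fun i _ => hA0 i,
    ← ENNReal.ofReal_add (by positivity) (Finset.sum_nonneg fun i _ => hA0 i),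
    ← ENNReal.ofReal_natCast, ← ENNReal.ofReal_mul (by positivity)]
  apply ENNReal.ofReal_le_ofReal
  have h2 : ∀ i, 2 / ν * (C i : ℝ) - b ^ n ≤ A i := by
    intro i
    rw [hA]
    simp only
    split_ifs with h
    · rw [mul_zero, add_zero]
      have h3 : 0 ≤ ((C i : ℝ) - b ^ n * ν) ^ 2 / (b ^ n * ν ^ 2) := by positivity
      have h4 : ((C i : ℝ) - b ^ n * ν) ^ 2 / (b ^ n * ν ^ 2) =
          1 / (b ^ n * ν ^ 2) * (C i : ℝ) ^ 2 - (2 / ν * (C i : ℝ) - b ^ n) := by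
        field_simp
        ring
      linarith
    · rw [mul_zero, zero_add]
      linarith
  have h3 := Finset.sum_le_sum fun i (_ : i ∈ Finset.univ) => h2 i
  have h4 := cnt_sum hex S
  have h5 : ∑ i : Fin n → Fin q, (C i : ℝ) = Multiset.card S := by
    rw [← h4, hC]
    push_cast
    rfl
  rw [Finset.sum_sub_distrib, ← Finset.mul_sum, h5, Finset.sum_const, Finset.card_univ,
    Fintype.card_fun, Fintype.card_fin, Fintype.card_fin, nsmul_eq_mul] at h3
  have h6 : ((q ^ n : ℕ) : ℝ) * b ^ n = L ^ n := by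
    rw [hLb]
    push_cast
    rw [mul_pow]
  rw [h6] at h3
  linarith

open Classical in
/-- the lower bound of the energy of any number of particles -/
theorem hp3 (hKQ : S_KQ) (hONE : S_ONE) (hPO2 : S_PO2) (hTF : S_TF) (hBLK : S_BLK)
    (hCRD : S_CRD) {b b₁ r r₀ R μ γ₀ ε ε' CP CA ν X' Y' CE : ℝ} {K : (Fin n → ℝ) → ℝ≥0∞}
    {v : ℝ → ℝ≥0∞} {q M : ℕ} (hμ : 0 < μ) (hv : Measurable v) (hγ : 0 < γ₀) (hCap : Cap n μ v γ₀ r₀)
    (hPO : PO n L 2 CP (ENNReal.ofReal μ) (fun _ => 0)) (hCP : 0 ≤ CP) (hCA : 0 ≤ CA)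
    (hε : 0 < ε) (hε1 : ε < 1)
    (hε' : 0 < ε') (hr₀ : 0 < r₀) (hr₀r : r₀ ≤ r) (hrR : r ≤ R) (hR : 1 ≤ R)
    (h4r : 4 * r ≤ b) (hb1 : 1 ≤ b) (hq : 2 ≤ q) (hM : 1 ≤ M) (hLb : L = q * b)
    (hbb : b = M * b₁) (hb₁ : 0 < b₁) (hν : 0 < ν)
    (hla : ∀ F : Multiset (Tor n L) → ℂ, EB F →
      ∑ i : Fin n → Fin (q * M), ∫⁻ γ,
        ((cnt (blk n L b₁ (fun c => (i c : ℕ))) (ms γ) - 1 : ℕ) : ℝ≥0∞) *
        ‖F (ms γ)‖ₑ ^ 2 ∂(lam (volume : Measure (Tor n L))) ≤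
          ENNReal.ofReal (CA * b₁ ^ n) * en (ENNReal.ofReal μ) K v F)
    (hX' : X' = γ₀ * (5 * (2 * M ^ n) ^ 2 / b ^ n + 2 * M ^ n / (ε * (2 * r₀) ^ n)) *
      (CP * b ^ 2))
    (hY' : Y' = γ₀ * (L ^ n / b ^ n) * (2 * M ^ n / b ^ n + (2 * M ^ n) ^ 2 / b ^ n *
      (4 * n * r / b + 2 * (2 * M ^ n) * (4 * r / b) ^ n)))
    (hCE : CE = (1 + 1 / ε') * μ * (2 * n * ((60 * r₀ / r) ^ n / R ^ 2)))
    {F : Multiset (Tor n L) → ℂ} (hF : EB F) :
    ENNReal.ofReal (2 * γ₀ * (1 - ε) * ν) * nuE volume F +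
        ENNReal.ofReal μ * lowk R F ≤
      ENNReal.ofReal (1 + ε' + X' + 4 * γ₀ * ν * (CA * b₁ ^ n)) *
          en (ENNReal.ofReal μ) K v F +
        ENNReal.ofReal (Y' + γ₀ * (1 - ε) * ν ^ 2 * L ^ n) * nE volume F +
        ENNReal.ofReal CE * nuE volume F := by
  have hb0 : 0 < b := by linarith
  have hbn : 0 < b ^ n := pow_pos hb0 n
  have h1ε : 0 < 1 - ε := by linarith
  have hL0 : 0 < L := hL.out
  have hq1 : 1 ≤ q := by omega
  have hr : 0 < r := by linarith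
  have hR0 : 0 < R := by linarith
  have hX'0 : 0 ≤ X' := by rw [hX']; positivity
  have hLb₁ : L = (q * M : ℕ) * b₁ := by
    push_cast
    rw [hLb, hbb]
    ring
  obtain ⟨bm, hex, -⟩ := hBLK n L b q hq1 hLb
  obtain ⟨κ, hκ⟩ : ∃ κ : ℕ, κ = 2 * M ^ n := ⟨_, rfl⟩
  have hκr : (2 * (M : ℝ) ^ n) = (κ : ℝ) := by rw [hκ]; push_cast; ring
  have lay := lay2 hKQ hONE hPO2 hTF hBLK (b := b) (r := r) (r₀ := r₀) (R := R) (μ := μ)
    (γ₀ := γ₀) (ε := ε) (ε' := ε') (CP := CP) (v := v) (q := q) (κ := κ) hμ hv hγ.le hCap hPO hCP hε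
    hε1.le hε' hr₀ hr₀r hrR hR h4r hb1 hq hLb hF
  rw [← hκr, ← hX', ← hY', ← hCE] at lay
  have crd := hCRD n L b₁ q M _ hq1 hM hLb₁ F hF (hla F hF)
  rw [← hbb, ← hκ] at crd
  obtain ⟨S2, hS2⟩ : ∃ S2 : ℝ≥0∞, S2 = ∑ i : Fin n → Fin q, ∫⁻ γ,
      (if cnt (blk n L b (fun c => (i c : ℕ))) (ms γ) ≤ κ then
        (cnt (blk n L b (fun c => (i c : ℕ))) (ms γ) : ℝ≥0∞) ^ 2 else 0) * ‖F (ms γ)‖ₑ ^ 2
        ∂(lam (volume : Measure (Tor n L))) := ⟨_, rfl⟩
  obtain ⟨Sc, hSc⟩ : ∃ Sc : ℝ≥0∞, Sc = ∑ i : Fin n → Fin q, ∫⁻ γ,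
      (if cnt (blk n L b (fun c => (i c : ℕ))) (ms γ) ≤ κ then 0 else
        (cnt (blk n L b (fun c => (i c : ℕ))) (ms γ) : ℝ≥0∞)) * ‖F (ms γ)‖ₑ ^ 2
        ∂(lam (volume : Measure (Tor n L))) := ⟨_, rfl⟩
  rw [← hS2] at lay
  rw [← hSc] at crd
  have step1 : ENNReal.ofReal (2 / ν) * nuE volume F ≤ ENNReal.ofReal (L ^ n) * nE volume F +
      (ENNReal.ofReal (1 / (b ^ n * ν ^ 2)) * S2 + ENNReal.ofReal (2 / ν) * Sc) := by
    rw [hS2, hSc, Finset.mul_sum, Finset.mul_sum, ← Finset.sum_add_distrib, nuE_eq hF]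
    unfold nE
    rw [← lintegral_const_mul' _ _ ENNReal.ofReal_ne_top,
      ← lintegral_const_mul' (ENNReal.ofReal (L ^ n)) _ ENNReal.ofReal_ne_top]
    have hmc : ∀ i : Fin n → Fin q, Measurable fun γ : Cf (Tor n L) =>
        cnt (blk n L b (fun c => (i c : ℕ))) (ms γ) := fun i =>
      Pool.Agent.W571.CB.La.meas_cnt (blk n L b (fun c => (i c : ℕ))) (bm _)
    have hm1 : ∀ i : Fin n → Fin q, Measurable fun γ : Cf (Tor n L) =>
        (if cnt (blk n L b (fun c => (i c : ℕ))) (ms γ) ≤ κ then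
        (cnt (blk n L b (fun c => (i c : ℕ))) (ms γ) : ℝ≥0∞) ^ 2 else 0) := fun i =>
      Measurable.ite (measurableSet_le (hmc i) measurable_const)
        (((Measurable.of_discrete (f := fun m : ℕ => (m : ℝ≥0∞))).comp (hmc i)).pow_const 2)
        measurable_const
    have hm2 : ∀ i : Fin n → Fin q, Measurable fun γ : Cf (Tor n L) =>
        (if cnt (blk n L b (fun c => (i c : ℕ))) (ms γ) ≤ κ then 0 else
        (cnt (blk n L b (fun c => (i c : ℕ))) (ms γ) : ℝ≥0∞)) := fun i =>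
      Measurable.ite (measurableSet_le (hmc i) measurable_const) measurable_const
        ((Measurable.of_discrete (f := fun m : ℕ => (m : ℝ≥0∞))).comp (hmc i))
    have hmF : Measurable fun γ : Cf (Tor n L) => ‖F (ms γ)‖ₑ ^ 2 := hF.meas.enorm.pow_const 2
    have e1 : ∀ i : Fin n → Fin q, ENNReal.ofReal (1 / (b ^ n * ν ^ 2)) * (∫⁻ γ,
        (if cnt (blk n L b (fun c => (i c : ℕ))) (ms γ) ≤ κ then
        (cnt (blk n L b (fun c => (i c : ℕ))) (ms γ) : ℝ≥0∞) ^ 2 else 0) * ‖F (ms γ)‖ₑ ^ 2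
        ∂(lam (volume : Measure (Tor n L)))) + ENNReal.ofReal (2 / ν) * (∫⁻ γ,
        (if cnt (blk n L b (fun c => (i c : ℕ))) (ms γ) ≤ κ then 0 else
        (cnt (blk n L b (fun c => (i c : ℕ))) (ms γ) : ℝ≥0∞)) * ‖F (ms γ)‖ₑ ^ 2
        ∂(lam (volume : Measure (Tor n L)))) = ∫⁻ γ, (ENNReal.ofReal (1 / (b ^ n * ν ^ 2)) *
        (if cnt (blk n L b (fun c => (i c : ℕ))) (ms γ) ≤ κ then
          (cnt (blk n L b (fun c => (i c : ℕ))) (ms γ) : ℝ≥0∞) ^ 2 else 0) +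
        ENNReal.ofReal (2 / ν) * (if cnt (blk n L b (fun c => (i c : ℕ))) (ms γ) ≤ κ then 0 else
          (cnt (blk n L b (fun c => (i c : ℕ))) (ms γ) : ℝ≥0∞))) * ‖F (ms γ)‖ₑ ^ 2
        ∂(lam (volume : Measure (Tor n L))) := by
      intro i
      have hq1' : Measurable fun γ : Cf (Tor n L) =>
          (if cnt (blk n L b (fun c => (i c : ℕ))) (ms γ) ≤ κ then
          (cnt (blk n L b (fun c => (i c : ℕ))) (ms γ) : ℝ≥0∞) ^ 2 else 0) *
            ‖F (ms γ)‖ₑ ^ 2 := (hm1 i).mul hmF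
      have hq2' : Measurable fun γ : Cf (Tor n L) =>
          (if cnt (blk n L b (fun c => (i c : ℕ))) (ms γ) ≤ κ then 0 else
          (cnt (blk n L b (fun c => (i c : ℕ))) (ms γ) : ℝ≥0∞)) *
            ‖F (ms γ)‖ₑ ^ 2 := (hm2 i).mul hmF
      have hq3' : Measurable fun γ : Cf (Tor n L) => ENNReal.ofReal (1 / (b ^ n * ν ^ 2)) *
          ((if cnt (blk n L b (fun c => (i c : ℕ))) (ms γ) ≤ κ then
          (cnt (blk n L b (fun c => (i c : ℕ))) (ms γ) : ℝ≥0∞) ^ 2 else 0) *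
            ‖F (ms γ)‖ₑ ^ 2) := hq1'.const_mul _
      rw [← lintegral_const_mul' _ _ ENNReal.ofReal_ne_top,
        ← lintegral_const_mul' _ _ ENNReal.ofReal_ne_top, ← lintegral_add_left hq3']
      refine lintegral_congr fun γ => ?_
      ring
    rw [Finset.sum_congr rfl fun i _ => e1 i, ← lintegral_finsetSum,
      ← lintegral_add_left (hmF.const_mul _)]
    · refine lintegral_mono fun γ => ?_
      dsimp only
      rw [← Finset.sum_mul, ← add_mul, ← mul_assoc]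
      exact mul_le_mul_left (conv_pt3 hb0 hν hLb hex (ms γ)) _
    · intro i _
      exact (((hm1 i).const_mul _).add ((hm2 i).const_mul _)).mul hmF
  -- multiplication by the constant
  have hc0 : 0 < γ₀ * (1 - ε) * ν ^ 2 := by positivity
  have step2 : ENNReal.ofReal (2 * γ₀ * (1 - ε) * ν) * nuE volume F ≤
      ENNReal.ofReal (γ₀ * (1 - ε) * ν ^ 2 * L ^ n) * nE volume F +
      (ENNReal.ofReal (γ₀ * (1 - ε) / b ^ n) * S2 + ENNReal.ofReal (2 * γ₀ * ν) * Sc) := by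
    have e0 : 2 * γ₀ * (1 - ε) * ν = γ₀ * (1 - ε) * ν ^ 2 * (2 / ν) := by field_simp
    rw [e0, ENNReal.ofReal_mul (p := γ₀ * (1 - ε) * ν ^ 2) (q := 2 / ν) hc0.le, mul_assoc]
    refine (mul_le_mul_right step1 _).trans ?_
    rw [mul_add, mul_add, ← mul_assoc, ← mul_assoc, ← mul_assoc, ← ENNReal.ofReal_mul hc0.le,
      ← ENNReal.ofReal_mul hc0.le, ← ENNReal.ofReal_mul hc0.le]
    refine add_le_add le_rfl
      (add_le_add (le_of_eq ?_) (mul_le_mul_left (ENNReal.ofReal_le_ofReal ?_) _))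
    · congr 2
      field_simp
    · have : γ₀ * (1 - ε) * ν ^ 2 * (2 / ν) = 2 * γ₀ * ν * (1 - ε) := by
        field_simp
      rw [this]
      have h9 : 0 ≤ 2 * γ₀ * ν := by positivity
      nlinarith
  have hks := ken_split hF hR0 (ENNReal.ofReal μ) ENNReal.ofReal_ne_top
  have hke0 : ken (ENNReal.ofReal μ) (fun _ => 0) F ≤ ken (ENNReal.ofReal μ) K F := by
    unfold ken
    refine add_le_add le_rfl ?_
    unfold Hp
    simp
  have hke : ken (ENNReal.ofReal μ) (fun _ => 0) F ≤ en (ENNReal.ofReal μ) K v F :=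
    hke0.trans le_self_add
  have hkin : ENNReal.ofReal ((1 + ε') * μ) * hig R F + Vp v F + ENNReal.ofReal μ * lowk R F ≤
      ENNReal.ofReal (1 + ε') * en (ENNReal.ofReal μ) K v F := by
    have h1 : (1 : ℝ≥0∞) ≤ ENNReal.ofReal (1 + ε') := by
      rw [← ENNReal.ofReal_one]
      exact ENNReal.ofReal_le_ofReal (by linarith)
    calc ENNReal.ofReal ((1 + ε') * μ) * hig R F + Vp v F + ENNReal.ofReal μ * lowk R F
        ≤ ENNReal.ofReal (1 + ε') * (ENNReal.ofReal μ * hig R F) +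
          ENNReal.ofReal (1 + ε') * Vp v F + ENNReal.ofReal (1 + ε') *
            (ENNReal.ofReal μ * lowk R F) := by
          refine add_le_add (add_le_add (le_of_eq ?_) ?_) ?_
          · rw [ENNReal.ofReal_mul (by positivity), mul_assoc]
          · exact le_mul_of_one_le_left (by simp) h1
          · exact le_mul_of_one_le_left (by simp) h1
      _ = ENNReal.ofReal (1 + ε') * ((ENNReal.ofReal μ * hig R F + ENNReal.ofReal μ * lowk R F) +
          Vp v F) := by ring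
      _ ≤ ENNReal.ofReal (1 + ε') * (ken (ENNReal.ofReal μ) K F + Vp v F) := by
          gcongr
          exact hks.trans hke0
      _ = _ := rfl
  have hcr : ENNReal.ofReal (2 * γ₀ * ν) * Sc ≤
      ENNReal.ofReal (4 * γ₀ * ν * (CA * b₁ ^ n)) * en (ENNReal.ofReal μ) K v F := by
    refine (mul_le_mul_right crd _).trans (le_of_eq ?_)
    have e2 : (2 : ℝ≥0∞) = ENNReal.ofReal 2 := by norm_num
    rw [e2, ← mul_assoc, ← mul_assoc, ← ENNReal.ofReal_mul (by positivity),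
      ← ENNReal.ofReal_mul (by positivity)]
    congr 2
    ring
  obtain ⟨A0, hA0⟩ : ∃ A0, A0 = ENNReal.ofReal (γ₀ * (1 - ε) * ν ^ 2 * L ^ n) * nE volume F :=
    ⟨_, rfl⟩
  rw [← hA0] at step2
  calc ENNReal.ofReal (2 * γ₀ * (1 - ε) * ν) * nuE volume F +
        ENNReal.ofReal μ * lowk R F
      ≤ (A0 + ((ENNReal.ofReal ((1 + ε') * μ) * hig R F + Vp v F +
          ENNReal.ofReal CE * nuE volume F + ENNReal.ofReal Y' * nE volume F +
          ENNReal.ofReal X' * ken (ENNReal.ofReal μ) (fun _ => 0) F) +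
        ENNReal.ofReal (4 * γ₀ * ν * (CA * b₁ ^ n)) * en (ENNReal.ofReal μ) K v F)) +
        ENNReal.ofReal μ * lowk R F := by
        gcongr
        exact step2.trans (add_le_add le_rfl (add_le_add lay hcr))
    _ = (ENNReal.ofReal ((1 + ε') * μ) * hig R F + Vp v F + ENNReal.ofReal μ * lowk R F) +
          ENNReal.ofReal X' * ken (ENNReal.ofReal μ) (fun _ => 0) F +
        ENNReal.ofReal (4 * γ₀ * ν * (CA * b₁ ^ n)) * en (ENNReal.ofReal μ) K v F +
        (ENNReal.ofReal Y' * nE volume F + A0) + ENNReal.ofReal CE * nuE volume F := by ring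
    _ ≤ ENNReal.ofReal (1 + ε') * en (ENNReal.ofReal μ) K v F +
          ENNReal.ofReal X' * en (ENNReal.ofReal μ) K v F +
        ENNReal.ofReal (4 * γ₀ * ν * (CA * b₁ ^ n)) * en (ENNReal.ofReal μ) K v F +
        (ENNReal.ofReal Y' * nE volume F + A0) + ENNReal.ofReal CE * nuE volume F := by
        gcongr
    _ = _ := by
        have hY'0 : 0 ≤ Y' := by rw [hY']; positivity
        rw [ENNReal.ofReal_add (p := 1 + ε' + X') (by positivity) (by positivity),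
          ENNReal.ofReal_add (p := 1 + ε') (by positivity) hX'0,
          ENNReal.ofReal_add hY'0 (by positivity), hA0]
        ring

end

end Pool.Agent.Y656
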