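import Pool.Agent.Y656.AtC
import Pool.Agent.Y656.CohL
import Pool.Agent.Y656.HP3

/-!
# Complete condensation with a rate: the conclusion on one torus
-/

set_option autoImplicit false

open MeasureTheory
open scoped ENNReal

namespace Pool.Agent.Y656

open Pool.Agent.W761.CB Pool.Agent.W761.CC Pool.Agent.TH268.CC

noncomputable section

/-- the energy of an ensemble, with the averaged part of the kinetic energy -/
theorem ens_conv {X : Type} [MeasurableSpace X] {ν : Measure X} {I : Type} [Fintype I]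
    {en lw : (Multiset X → ℂ) → ℝ≥0∞} {u : I → X → ℝ} {Nlo Nhi E R B A₁ A₂ A₃ CE E₁ t : ℝ}
    (h : HasEns ν en u Nlo Nhi E R B) (hN : 0 ≤ Nlo) (hNhi : 0 ≤ Nhi) (hE : 0 ≤ E) (hA₁ : 0 ≤ A₁)
    (hA₂ : 0 ≤ A₂) (hA₃ : 0 ≤ A₃) (hCE : 0 ≤ CE) (ht : 0 ≤ t)
    (hlow : ∀ F, EB F → ENNReal.ofReal A₁ * nuE ν F + lw F ≤ ENNReal.ofReal A₂ * en F +
      ENNReal.ofReal A₃ * nE ν F + ENNReal.ofReal CE * nuE ν F)
    (hE₁ : 0 ≤ E₁) (hle : A₂ * E + A₃ + CE * Nhi ≤ A₁ * Nlo + E₁) :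
    HasEns ν (fun F => en F + ENNReal.ofReal t * lw F) u Nlo Nhi (E + t * E₁) R B := by
  obtain ⟨A, hA, Φ, c, h⟩ := h
  refine ⟨A, hA, Φ, c, ⟨h.eb, h.norm, h.nlo, h.nhi, ?_, h.amp, h.coh⟩⟩
  have key : ENNReal.ofReal A₁ * ∑' α, nuE ν (Φ α) + ∑' α, lw (Φ α) ≤
      ENNReal.ofReal A₂ * ∑' α, en (Φ α) + ENNReal.ofReal A₃ * ∑' α, nE ν (Φ α) +
        ENNReal.ofReal CE * ∑' α, nuE ν (Φ α) := by
    rw [← ENNReal.tsum_mul_left, ← ENNReal.tsum_mul_left, ← ENNReal.tsum_mul_left,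
      ← ENNReal.tsum_mul_left, ← ENNReal.tsum_add, ← ENNReal.tsum_add, ← ENNReal.tsum_add]
    exact ENNReal.tsum_le_tsum fun α => hlow _ (h.eb α)
  have k1 : ENNReal.ofReal (A₁ * Nlo) + ∑' α, lw (Φ α) ≤ ENNReal.ofReal (A₁ * Nlo) +
      ENNReal.ofReal E₁ := by
    calc ENNReal.ofReal (A₁ * Nlo) + ∑' α, lw (Φ α)
        ≤ ENNReal.ofReal A₁ * ∑' α, nuE ν (Φ α) + ∑' α, lw (Φ α) := by
          rw [ENNReal.ofReal_mul hA₁]
          exact add_le_add (mul_le_mul_right h.nlo _) le_rfl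
      _ ≤ _ := key
      _ ≤ ENNReal.ofReal A₂ * ENNReal.ofReal E + ENNReal.ofReal A₃ * 1 +
          ENNReal.ofReal CE * ENNReal.ofReal Nhi := by
          rw [h.norm]
          exact add_le_add (add_le_add (mul_le_mul_right h.energy _) le_rfl)
            (mul_le_mul_right h.nhi _)
      _ = ENNReal.ofReal (A₂ * E + A₃ + CE * Nhi) := by
          rw [mul_one, ← ENNReal.ofReal_mul hA₂, ← ENNReal.ofReal_mul hCE,
            ← ENNReal.ofReal_add (by positivity) hA₃,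
            ← ENNReal.ofReal_add (by positivity) (by positivity)]
      _ ≤ _ := by
          rw [← ENNReal.ofReal_add (by positivity) hE₁]
          exact ENNReal.ofReal_le_ofReal hle
  have k2 := (ENNReal.add_le_add_iff_left ENNReal.ofReal_ne_top).1 k1
  calc ∑' α, (en (Φ α) + ENNReal.ofReal t * lw (Φ α))
      = ∑' α, en (Φ α) + ENNReal.ofReal t * ∑' α, lw (Φ α) := by
        rw [ENNReal.tsum_add, ENNReal.tsum_mul_left]
    _ ≤ ENNReal.ofReal E + ENNReal.ofReal t * ENNReal.ofReal E₁ :=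
        add_le_add h.energy (mul_le_mul_right k2 _)
    _ = _ := by rw [← ENNReal.ofReal_mul ht, ← ENNReal.ofReal_add hE (by positivity)]

theorem atR (hBOT : Pool.Agent.W160.CC.S_BOT2')
    (hF : S_FRM) (hH : S_HAT) (hR : S_REF) (hG : S_GK) (hD : S_DIA)
    (hTF : S_TF)
    {n J : ℕ} {L ℓ : ℝ} [Fact (0 < L)] (hℓ : 0 < ℓ) (hL : L = 2 ^ J * ℓ) {μ : ℝ≥0∞}
    {K : (Fin n → ℝ) → ℝ≥0∞} {v : ℝ → ℝ≥0∞} (hK : Measurable K) (hv : Measurable v)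
    {e₀ E Q tol Ca : ℝ} {N : ℕ} (hN1 : 0 < N) (he0 : 0 ≤ e₀) (hE : 0 ≤ E) (hQ : 0 ≤ Q)
    (htol : 0 ≤ tol) (hCa : 0 ≤ Ca) (htolE : E - e₀ ≤ tol * L ^ n)
    {ψ : Multiset (Tor n L) → ℂ} (hψ : EB ψ) (hψs : ∀ S, N < Multiset.card S → ψ S = 0)
    (hψ1 : nE volume ψ = 1)
    (hψN : nuE volume ψ = ENNReal.ofReal N) (hψE : en μ K v ψ ≤ ENNReal.ofReal E)
    (hψQ : nE volume (ag volume (fun _ => 1) ψ) ≤ ENNReal.ofReal Q)
    (hlow : ∀ F : Multiset (Tor n L) → ℂ, EB F → (∀ S, N < Multiset.card S → F S = 0) →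
      ENNReal.ofReal e₀ * nE volume F ≤ en μ K v F + ENNReal.ofReal Ca * dm volume N F)
    {enc : (Multiset (Tor n L) → ℂ) → ℝ≥0∞} {Ec : ℝ} (hEc : 0 ≤ Ec)
    {g e ν : ℝ} (hg0 : 0 < g) (he : 0 < e) (he1 : e ≤ 1 / 100) (hν : ν = N / L ^ n)
    (hup : Ec ≤ g / 2 * ν ^ 2 * (1 + e / 2) * L ^ n)
    {P a a₂ : ℝ} (hP : 0 ≤ P) (hPe : P * (g * ν) ≤ e) (ha0 : 0 ≤ a)
    (ha : a ≤ 2 / (g * ν ^ 2) * (1 + e)) (ha₂0 : 0 ≤ a₂) (ha₂ : a₂ ≤ e)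
    (hcoh : ∀ F : Multiset (Tor n L) → ℂ, EB F → ENNReal.ofReal (ℓ ^ n) * nuE volume F ≤
      ∑ i, nE volume (ag volume (hf n L ℓ (2 ^ J) i) F) +
        ENNReal.ofReal (ℓ ^ n * P) * enc F)
    (hHP : ∀ F : Multiset (Tor n L) → ℂ, EB F → ENNReal.ofReal (ℓ ^ n) *
      ∑ i, ∫⁻ γ, ENNReal.ofReal (pf (((ms γ).map (hf n L ℓ (2 ^ J) i)).sum / (ℓ ^ n * ν))) *
        ‖F (ms γ)‖ₑ ^ 2 ∂(lam (volume : Measure (Tor n L))) ≤
      ENNReal.ofReal a * enc F + ENNReal.ofReal (a₂ * L ^ n) * nE volume F)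
    {σ Γ : ℝ} (hΓ : 0 < Γ) (hσ : 0 < σ)
    (hg : ∀ j : ℕ, 0 < j → j ≤ J → ∀ z : Fin n → ℝ, (∀ c, |z c| ≤ 2 * (2 ^ j * ℓ)) →
      ENNReal.ofReal (Γ * (2 : ℝ) ^ (-((n + σ) * j))) ≤ K z)
    {ns : ℝ} (hns : N ≤ ns * L ^ n)
    {ε0 lam mu r : ℝ} (hε0 : 0 < ε0) (hlam0 : 0 < lam) (hlam1 : lam < 1)
    (hε1 : ε0 / (1 - lam) ≤ e) (hr0 : 0 ≤ r) (hr1 : r < 1) (hmur : mu = r ^ 2)
    (hlam2 : lam * (2 : ℝ) ^ n * mu = 1) (hlams : (2 : ℝ) ^ σ * lam ≤ mu)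
    {ξ : ℝ} (hξ : ξ = 6 / (ε0 * ℓ ^ n))
    {es H T q : ℝ} (hes : es = Ca * ns * (ε0 / (1 - lam)))
    (hHdef : H = 2 * √ξ + √((2 : ℝ) ^ σ * es / (ℓ ^ n * Γ)))
    (hT : T = tol * (2 : ℝ) ^ (σ * J) / (ℓ ^ n * Γ))
    (hq : q = (2 : ℝ) ^ (-σ / 2))
    (c3 : √ξ + H / (1 - r) + √T / (1 - q) ≤ √e * √ν)
    (hconv : ∀ R' B' : ℝ, HasEns volume (en μ K v) (hf n L ℓ (2 ^ J)) ((1 - ε0 / (1 - lam)) * N) N
      E R' B' → HasEns volume enc (hf n L ℓ (2 ^ J)) ((1 - ε0 / (1 - lam)) * N) N Ec R' B') :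
    (1 - 3 * √e) * ν ≤ Q / (L ^ n) ^ 2 := by
  have hLpos : 0 < L := Fact.out
  obtain ⟨V, hVdef⟩ : ∃ V : ℝ, V = L ^ n := ⟨_, rfl⟩
  have hV : (0 : ℝ) < V := by rw [hVdef]; positivity
  have hM0 : (0 : ℝ) < ℓ ^ n := by positivity
  have hN0 : (0 : ℝ) < N := by exact_mod_cast hN1
  have hν0 : 0 < ν := by rw [hν, ← hVdef]; positivity
  have hNν : (N : ℝ) = ν * V := by rw [hν, ← hVdef]; field_simp
  obtain ⟨hvol, -, -, -, -, -, -, -⟩ := hTF n L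
  have hVr : V = (volume (Set.univ : Set (Tor n L))).toReal := by
    rw [hvol, ← hVdef, ENNReal.toReal_ofReal hV.le]
  obtain ⟨a1, a2, a3, a4, -⟩ := hH n L ℓ (2 ^ J) Nat.one_le_two_pow (by rw [hL]; push_cast; rfl)
  have hcI : (Fintype.card (Fin n → Fin (2 ^ J)) : ℝ) = V / ℓ ^ n := by
    rw [Fintype.card_fun, Fintype.card_fin, Fintype.card_fin, eq_div_iff (by positivity), hVdef]
    push_cast
    rw [← mul_pow, ← hL]
  obtain ⟨s, hs⟩ : ∃ s : ℝ, s = √e := ⟨_, rfl⟩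
  have hs0 : 0 ≤ s := by rw [hs]; exact Real.sqrt_nonneg e
  have hse : s ^ 2 = e := by rw [hs]; exact Real.sq_sqrt he.le
  have hs1 : s ≤ 1 / 10 := by
    rw [hs, show (1 / 10 : ℝ) = √(1 / 100) by
      rw [show (1 / 100 : ℝ) = (1 / 10) ^ 2 by norm_num, Real.sqrt_sq (by norm_num)]]
    exact Real.sqrt_le_sqrt he1
  rw [← hVdef] at hup hHP
  have haE : a * Ec ≤ (1 + e) * (1 + e / 2) * V := by
    calc a * Ec ≤ (2 / (g * ν ^ 2) * (1 + e)) * (g / 2 * ν ^ 2 * (1 + e / 2) * V) := by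
          gcongr
      _ = _ := by field_simp
  have ha₂V : a₂ * V ≤ e * V := mul_le_mul_of_nonneg_right ha₂ hV.le
  have h1l : 0 < 1 - lam := by linarith
  have h1r : 0 < 1 - r := by linarith
  have hq1 : q < 1 := by
    rw [hq]
    exact Real.rpow_lt_one_of_one_lt_of_neg (by norm_num) (by linarith)
  have h1q : 0 < 1 - q := by linarith
  have hξ0 : 0 < ξ := by rw [hξ]; positivity
  have hns0 : 0 ≤ ns := by
    have : 0 ≤ ns * L ^ n := hN0.le.trans hns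
    exact nonneg_of_mul_nonneg_left this (by positivity)
  have hes0 : 0 ≤ es := by rw [hes]; positivity
  have hT0 : 0 ≤ T := by rw [hT]; positivity
  have hH0 : 0 ≤ H := by rw [hHdef]; positivity
  have hens := hconv _ _ (core3E hF hH hR hG hD hTF hℓ hL hK hv he0 hE hQ htol hCa htolE hψ hψs
    hψ1 hψN hψE hψQ hlow hΓ hσ hg hns hε0 hlam0 hlam1 (by linarith) hr0 hr1 hmur hlam2 hlams hξ hes
    hHdef hT hq)
  rw [← hVdef] at hens ⊢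
  obtain ⟨pp, hpp⟩ : ∃ pp : ℝ, pp = ε0 / (1 - lam) := ⟨_, rfl⟩
  rw [← hpp] at hens hε1
  have hpp0 : 0 ≤ 1 - pp := by linarith
  obtain ⟨N', h1, h2, -, h4⟩ := hBOT (Tor n L) volume (Fin n → Fin (2 ^ J)) enc
    (hf n L ℓ (2 ^ J)) (ℓ ^ n) P ν a a₂ ((1 - pp) * N) N Ec (ξ * (ℓ ^ n) ^ 2)
    ((√(Q / V ^ 2) + H / (1 - r) + √T / (1 - q)) * V) V (fun i => a1 _)
    (fun i x => (a2 _ x).1) (fun i x => (a2 _ x).2) a3 (fun i => a4 _) hM0 hP hν0 ha0 ha₂0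
    (by positivity) hN0.le hEc (by positivity) (by positivity) hV hVr hcoh hHP hens
  rw [hcI, Real.sqrt_mul' _ (by positivity), Real.sqrt_sq hM0.le] at h4
  obtain ⟨ac, hac⟩ : ∃ ac : ℝ, ac = Q / V ^ 2 := ⟨_, rfl⟩
  rw [← hac] at h4 ⊢
  have hac0 : 0 ≤ ac := by rw [hac]; positivity
  have e1 : V / ℓ ^ n * (√ξ * ℓ ^ n) = √ξ * V := by field_simp
  rw [e1] at h4
  have h5 : 3 * (1 - e) * V ≤ 3 * N' / ν := by
    rw [le_div_iff₀ hν0]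
    have h6 : (1 - e) * N ≤ (1 - pp) * N := mul_le_mul_of_nonneg_right (by linarith) hN0.le
    calc 3 * (1 - e) * V * ν = 3 * ((1 - e) * N) := by rw [hNν]; ring
      _ ≤ 3 * N' := by linarith
  have h6 : 3 * P * Ec / ν ≤ 3 / 2 * e * (1 + e / 2) * V := by
    rw [div_le_iff₀ hν0]
    calc 3 * P * Ec ≤ 3 * P * (g / 2 * ν ^ 2 * (1 + e / 2) * V) := by gcongr
      _ = 3 / 2 * (P * (g * ν)) * (1 + e / 2) * V * ν := by ring
      _ ≤ 3 / 2 * e * (1 + e / 2) * V * ν := by gcongr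
  have h7 : (2 - 8 * e) * V ≤ 3 * N' / ν - 3 * P * Ec / ν - a * Ec - a₂ * V := by
    have h8 : (0 : ℝ) ≤ (e - 5 / 4 * e ^ 2) * V := by
      have h9 := mul_le_mul_of_nonneg_left he1 he.le
      have h10 : 0 ≤ e - 5 / 4 * e ^ 2 := by linarith only [h9, he]
      positivity
    linarith only [h5, h6, haE, ha₂V, h8]
  have hsν : 0 ≤ √ν := Real.sqrt_nonneg _
  have h8 : √ν / 2 * ((2 - 8 * e) * V) - √ξ * V ≤ (√ac + H / (1 - r) + √T / (1 - q)) * V :=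
    le_trans (sub_le_sub_right (mul_le_mul_of_nonneg_left h7 (by positivity)) _) h4
  have h9 : (√ν * (1 - 4 * e) - √ξ) * V ≤ (√ac + H / (1 - r) + √T / (1 - q)) * V := by
    linarith only [h8]
  have h10 := le_of_mul_le_mul_right h9 hV
  rw [← hs] at c3 ⊢
  have he10 : e ≤ s / 10 := by
    rw [← hse]
    have := mul_le_mul_of_nonneg_left hs1 hs0
    linarith only [this]
  have h11 : √ν * (1 - 7 / 5 * s) ≤ √ac := by
    have h12 : √ν * e ≤ √ν * (s / 10) := mul_le_mul_of_nonneg_left he10 hsν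
    linarith only [h10, c3, h12]
  have h12 : 0 ≤ 1 - 7 / 5 * s := by linarith
  have h13 : (√ν * (1 - 7 / 5 * s)) ^ 2 ≤ ac := by
    have := pow_le_pow_left₀ (by positivity) h11 2
    rwa [Real.sq_sqrt hac0] at this
  rw [mul_pow, Real.sq_sqrt hν0.le] at h13
  refine le_trans ?_ h13
  rw [mul_comm ν]
  refine mul_le_mul_of_nonneg_right ?_ hν0.le
  have h14 := mul_nonneg hs0 hs0
  linarith only [hs0, h14]

end

end Pool.Agent.Y656
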