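import Pool.Agent.Y656.Lay2

/-!
# The differences of the translates, in terms of the averaged part of the kinetic energy
-/

set_option autoImplicit false
set_option linter.unusedSectionVars false

open MeasureTheory
open scoped ENNReal

namespace Pool.Agent.Y656

open Pool.Agent.W761.CB Pool.Agent.W761.CC
open Pool.Agent.W806.CC (lamfin ebc5)

noncomputable section

variable {n : ℕ} {L : ℝ} [hL : Fact (0 < L)]

lemma sq3 (a b c : ℂ) : ‖a + b - c‖ₑ ^ 2 ≤ 2 * ‖a‖ₑ ^ 2 + 4 * ‖b‖ₑ ^ 2 + 4 * ‖c‖ₑ ^ 2 := by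
  have e : ∀ z : ℂ, ‖z‖ₑ ^ 2 = ENNReal.ofReal (‖z‖ ^ 2) := by
    intro z
    rw [ENNReal.ofReal_pow (norm_nonneg _), ofReal_norm]
  have e2 : (2 : ℝ≥0∞) = ENNReal.ofReal 2 := by norm_num
  have e4 : (4 : ℝ≥0∞) = ENNReal.ofReal 4 := by norm_num
  rw [e, e, e, e, e2, e4, ← ENNReal.ofReal_mul (by norm_num), ← ENNReal.ofReal_mul (by norm_num),
    ← ENNReal.ofReal_mul (by norm_num), ← ENNReal.ofReal_add (by positivity) (by positivity),
    ← ENNReal.ofReal_add (by positivity) (by positivity)]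
  apply ENNReal.ofReal_le_ofReal
  have h1 : ‖a + b - c‖ ≤ ‖a‖ + ‖b‖ + ‖c‖ := by
    refine (norm_sub_le _ _).trans ?_
    have := norm_add_le a b
    linarith
  have h2 : ‖a + b - c‖ ^ 2 ≤ (‖a‖ + ‖b‖ + ‖c‖) ^ 2 := pow_le_pow_left₀ (norm_nonneg _) h1 2
  nlinarith [sq_nonneg (‖a‖ - (‖b‖ + ‖c‖)), sq_nonneg (‖b‖ - ‖c‖)]

lemma N2_shift {f : Tor n L → ℂ} (h : Tor n L) : N2 (fun x => f (x + h)) = N2 f := by
  unfold N2
  have := lintegral_add_left_eq_self (μ := (volume : Measure (Tor n L))) (fun x => ‖f x‖ₑ ^ 2) h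
  rw [← this]
  refine lintegral_congr fun x => ?_
  rw [add_comm]

/-- the differences of the translates of a function on the torus -/
theorem d1_low {f : Tor n L → ℂ} (hf : Bd f) {R r : ℝ} (hR : 0 < R) (hr : 0 ≤ r)
    {w : Fin n → ℝ} (hw : w ∈ cube n r) : d1 f (pr L w) ≤
      2 * (n * ENNReal.ofReal (r ^ 2)) * K1 (Mo R f) + 8 * (n * ENNReal.ofReal (R ^ 2)) * K1 f := by
  have hg := hf.Mo R
  obtain ⟨h, hh⟩ : ∃ h, h = pr L w := ⟨_, rfl⟩
  have h1 := d1_K1 hg hr hw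
  have h2 := N2_near hf hR
  rw [← hh] at h1 ⊢
  have hgf : Bd (fun x => Mo R f x - f x) := hg.sub hf
  have m1 : Measurable fun x => ‖Mo R f (x + h) - Mo R f x‖ₑ ^ 2 :=
    ((hg.shift h).sub hg).meas.enorm.pow_const 2
  have m2 : Measurable fun x => ‖Mo R f (x + h) - f (x + h)‖ₑ ^ 2 :=
    (hgf.shift h).meas.enorm.pow_const 2
  have m3 : Measurable fun x => ‖Mo R f x - f x‖ₑ ^ 2 := hgf.meas.enorm.pow_const 2
  have h3 : d1 f h ≤ 2 * d1 (Mo R f) h + 4 * N2 (fun x => Mo R f (x + h) - f (x + h)) +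
      4 * N2 (fun x => Mo R f x - f x) := by
    unfold d1 N2
    rw [← lintegral_const_mul _ m1, ← lintegral_const_mul _ m2, ← lintegral_const_mul _ m3,
      ← lintegral_add_left (m1.const_mul 2), ← lintegral_add_right _ (m3.const_mul 4)]
    refine lintegral_mono fun x => ?_
    have h4 := sq3 (Mo R f (x + h) - Mo R f x) (-(Mo R f (x + h) - f (x + h)))
      (-(Mo R f x - f x))
    have e1 : Mo R f (x + h) - Mo R f x + -(Mo R f (x + h) - f (x + h)) - -(Mo R f x - f x) =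
        f (x + h) - f x := by ring
    rw [e1, enorm_neg, enorm_neg] at h4
    exact h4
  have h5 : N2 (fun x => Mo R f (x + h) - f (x + h)) = N2 (fun x => Mo R f x - f x) :=
    N2_shift (f := fun x => Mo R f x - f x) h
  rw [h5] at h3
  calc d1 f h ≤ 2 * d1 (Mo R f) h + 4 * N2 (fun x => Mo R f x - f x) +
        4 * N2 (fun x => Mo R f x - f x) := h3
    _ ≤ 2 * (n * ENNReal.ofReal (r ^ 2) * K1 (Mo R f)) +
        4 * (n * ENNReal.ofReal (R ^ 2) * K1 f) + 4 * (n * ENNReal.ofReal (R ^ 2) * K1 f) := by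
        gcongr
    _ = _ := by ring

lemma d1_meas {F : Multiset (Tor n L) → ℂ} (hF : EB F) (h : Tor n L) :
    Measurable fun γ : Cf (Tor n L) => d1 (fb F γ) h := by
  unfold d1 fb
  have h1 : Measurable fun p : Tor n L × Cf (Tor n L) => F (p.1 ::ₘ ms p.2) := ebc5 hF
  have h2 : Measurable fun p : Tor n L × Cf (Tor n L) => F ((p.1 + h) ::ₘ ms p.2) :=
    h1.comp (f := fun p : Tor n L × Cf (Tor n L) => (p.1 + h, p.2))
      ((measurable_fst.add_const h).prodMk measurable_snd)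
  exact ((h2.sub h1).enorm.pow_const 2).lintegral_prod_left'

lemma K1_meas {F : Multiset (Tor n L) → ℂ} (hF : EB F) :
    Measurable fun γ : Cf (Tor n L) => K1 (fb F γ) := by
  unfold K1
  exact Finset.measurable_fun_sum _ fun c _ => Measurable.iSup fun k => (d1_meas hF _).const_mul _

/-- the differences of the translates -/
theorem dE_low {F : Multiset (Tor n L) → ℂ} (hF : EB F) {R r : ℝ} (hR : 0 < R) (hr : 0 ≤ r)
    {w : Fin n → ℝ} (hw : w ∈ cube n r) (μ : ℝ≥0∞) (hμ : μ ≠ ⊤) :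
    μ * ∫⁻ x, dE volume F (x + pr L w) x ≤
      2 * (n * ENNReal.ofReal (r ^ 2)) * (μ * lowk R F) +
        8 * (n * ENNReal.ofReal (R ^ 2)) * ken μ (fun _ => 0) F := by
  have hfin : IsFiniteMeasure (lam (volume : Measure (Tor n L))) := lamfin _
  have e1 : ∫⁻ x, dE volume F (x + pr L w) x =
      ∫⁻ γ, d1 (fb F γ) (pr L w) ∂(lam (volume : Measure (Tor n L))) := by
    unfold dE nE d1 fb
    rw [lintegral_lintegral_swap]
    have h1 : Measurable fun p : Tor n L × Cf (Tor n L) => F (p.1 ::ₘ ms p.2) := ebc5 hF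
    have h2 : Measurable fun p : Tor n L × Cf (Tor n L) => F ((p.1 + pr L w) ::ₘ ms p.2) :=
      h1.comp (f := fun p : Tor n L × Cf (Tor n L) => (p.1 + pr L w, p.2))
        ((measurable_fst.add_const (pr L w)).prodMk measurable_snd)
    exact ((h2.sub h1).enorm.pow_const 2).aemeasurable
  have hc : 8 * ((n : ℝ≥0∞) * ENNReal.ofReal (R ^ 2)) ≠ ⊤ := by finiteness
  have hc2 : 2 * ((n : ℝ≥0∞) * ENNReal.ofReal (r ^ 2)) ≠ ⊤ := by finiteness
  rw [e1, ken_K1 hF μ hμ]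
  have h2 : ∫⁻ γ, d1 (fb F γ) (pr L w) ∂(lam (volume : Measure (Tor n L))) ≤
      2 * (n * ENNReal.ofReal (r ^ 2)) * lowk R F + 8 * (n * ENNReal.ofReal (R ^ 2)) *
        ∫⁻ γ, K1 (fb F γ) ∂(lam (volume : Measure (Tor n L))) := by
    unfold lowk
    rw [← lintegral_const_mul' _ _ hc2, ← lintegral_const_mul' _ _ hc,
      ← lintegral_add_right _ ((K1_meas hF).const_mul _)]
    exact lintegral_mono fun γ => d1_low (fb_Bd hF γ) hR hr hw
  calc μ * ∫⁻ γ, d1 (fb F γ) (pr L w) ∂(lam (volume : Measure (Tor n L)))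
      ≤ μ * (2 * (n * ENNReal.ofReal (r ^ 2)) * lowk R F + 8 * (n * ENNReal.ofReal (R ^ 2)) *
        ∫⁻ γ, K1 (fb F γ) ∂(lam (volume : Measure (Tor n L)))) := mul_le_mul_right h2 _
    _ = _ := by ring

end

end Pool.Agent.Y656
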