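import Pool.Agent.TH268.CC.Conv2
import Pool.Agent.W376.CB.Trunc
import Pool.Agent.W135.CB.Tf

/-!
# Off-diagonal order of wave functions
-/

set_option autoImplicit false
set_option linter.unusedSectionVars false

open MeasureTheory Filter
open scoped ENNReal Topology

namespace Pool.Agent.Y656

open Pool.Agent.W761.CB Pool.Agent.TH268.CC Pool.Agent.W975.CB
open Pool.Agent.W376.CB (tr tr_re tr_im tr_lip tr_norm tr_bdd tr_eq tr_meas tr_tendsto enN_le
  lint_update Gf Gf_meas Gf_abs enorm_le_of enorm_sq int_dom condN_eq)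

noncomputable section

variable {n : ℕ} {L : ℝ} [Fact (0 < L)] {N : ℕ}

/-- the sum of the squares of the differences of `Ψ` and its translations in one variable -/
def Dn (Ψ : (Fin N → Tor n L) → ℂ) (h : Tor n L) : ℝ≥0∞ :=
  ∑ i : Fin N, ∫⁻ x, ‖Ψ (Function.update x i (x i + h)) - Ψ x‖ₑ ^ 2

/-- `∫ γ(x, x + z) dx` for the one particle density matrix of `Ψ` -/
def odN (Ψ : (Fin N → Tor n L) → ℂ) (z : Fin n → ℝ) : ℝ :=
  ∑ i : Fin N, ∫ x, ((starRingEnd ℂ) (Ψ x) * Ψ (Function.update x i (x i + pr L z))).re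

lemma upd_add (x : Fin N → Tor n L) (i : Fin N) (h : Tor n L) :
    Function.update x i (x i + h) = Pi.single i h + x := by
  funext j
  by_cases hj : j = i
  · subst hj
    simp [add_comm]
  · simp [Function.update_of_ne hj, Pi.single_eq_of_ne hj]

lemma lint_upd (f : (Fin N → Tor n L) → ℝ≥0∞) (i : Fin N) (h : Tor n L) :
    ∫⁻ x, f (Function.update x i (x i + h)) = ∫⁻ x, f x := by
  simp only [upd_add]
  exact lintegral_add_left_eq_self f _

/-- the pointwise identity -/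
lemma sq_diff (a b : ℂ) : ‖b - a‖ ^ 2 = ‖b‖ ^ 2 + ‖a‖ ^ 2 - 2 * ((starRingEnd ℂ) a * b).re := by
  rw [← Complex.normSq_eq_norm_sq, ← Complex.normSq_eq_norm_sq, ← Complex.normSq_eq_norm_sq,
    Complex.normSq_sub]
  have : (b * (starRingEnd ℂ) a).re = ((starRingEnd ℂ) a * b).re := by rw [mul_comm]
  rw [this]

lemma int3 {α : Type} [MeasurableSpace α] {P : Measure α} {f g k : α → ℝ} (hf : Integrable f P)
    (hg : Integrable g P) (hk : Integrable k P) :
    Integrable (fun x => f x + g x - 2 * k x) P ∧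
      ∫ x, (f x + g x - 2 * k x) ∂P = (∫ x, f x ∂P) + (∫ x, g x ∂P) - 2 * ∫ x, k x ∂P := by
  refine ⟨(hf.add hg).sub (hk.const_mul 2), ?_⟩
  have h1 := integral_sub (hf.add hg) (hk.const_mul 2)
  have h2 := integral_add hf hg
  simp only [Pi.add_apply] at h1
  rw [h1, h2, integral_const_mul]

lemma lint_sq {Φ : (Fin N → Tor n L) → ℂ} (hΦ : Measurable Φ) (h1 : ∫⁻ x, ‖Φ x‖ₑ ^ 2 = 1) :
    Integrable (fun x => ‖Φ x‖ ^ 2) ∧ ∫ x, ‖Φ x‖ ^ 2 = 1 := by
  have hm : AEStronglyMeasurable (fun x => ‖Φ x‖ ^ 2) volume :=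
    (hΦ.norm.pow_const 2).aestronglyMeasurable
  refine ⟨⟨hm, ?_⟩, ?_⟩
  · rw [HasFiniteIntegral]
    simp only [enorm_sq]
    rw [h1]
    exact ENNReal.one_lt_top
  · rw [integral_eq_lintegral_of_nonneg_ae (Eventually.of_forall fun x => by positivity) hm]
    have : ∫⁻ x, ENNReal.ofReal (‖Φ x‖ ^ 2) = 1 := by
      rw [← h1]
      refine lintegral_congr fun x => ?_
      rw [ENNReal.ofReal_pow (norm_nonneg _), ofReal_norm]
    rw [this, ENNReal.toReal_one]

/-- off-diagonal order from the smallness of the differences -/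
theorem od_of_Dn {Ψ : (Fin N → Tor n L) → ℂ} (hΨ : IsWf2 Ψ) {z : Fin n → ℝ} {δ : ℝ} (hδ : 0 ≤ δ)
    (h : Dn Ψ (pr L z) ≤ ENNReal.ofReal (2 * δ)) : (N : ℝ) - δ ≤ odN Ψ z := by
  obtain ⟨hi, h1⟩ := lint_sq hΨ.meas hΨ.norm
  have hmu : ∀ i : Fin N, Measurable fun x : Fin N → Tor n L =>
      Function.update x i (x i + pr L z) := by
    intro i
    simp only [upd_add]
    exact measurable_const_add _
  have hn2 : ∀ i : Fin N, ∫⁻ x, ‖Ψ (Function.update x i (x i + pr L z))‖ₑ ^ 2 = 1 := by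
    intro i
    rw [lint_upd (fun x => ‖Ψ x‖ₑ ^ 2) i (pr L z), hΨ.norm]
  have hone : ∀ i : Fin N, ∫⁻ x, ‖Ψ (Function.update x i (x i + pr L z)) - Ψ x‖ₑ ^ 2 =
      ENNReal.ofReal (2 - 2 * ∫ x, ((starRingEnd ℂ) (Ψ x) *
        Ψ (Function.update x i (x i + pr L z))).re) ∧
      0 ≤ 2 - 2 * ∫ x, ((starRingEnd ℂ) (Ψ x) * Ψ (Function.update x i (x i + pr L z))).re := by
    intro i
    obtain ⟨hi', h1'⟩ := lint_sq (hΨ.meas.comp (hmu i)) (hn2 i)
    have hg : Integrable fun x => ((starRingEnd ℂ) (Ψ x) *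
        Ψ (Function.update x i (x i + pr L z))).re := by
      refine (hi.add hi').mono' ?_ (Eventually.of_forall fun x => ?_)
      · exact (Complex.measurable_re.comp ((RCLike.continuous_conj.measurable.comp
          hΨ.meas).mul (hΨ.meas.comp (hmu i)))).aestronglyMeasurable
      · rw [Real.norm_eq_abs]
        refine (Complex.abs_re_le_norm _).trans ?_
        rw [norm_mul, RCLike.norm_conj]
        simp only [Pi.add_apply, Function.comp_apply]
        nlinarith [sq_nonneg (‖Ψ x‖ - ‖Ψ (Function.update x i (x i + pr L z))‖),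
          sq_nonneg (‖Ψ x‖ + ‖Ψ (Function.update x i (x i + pr L z))‖)]
    have e1 : ∫ x, ‖Ψ (Function.update x i (x i + pr L z)) - Ψ x‖ ^ 2 =
        2 - 2 * ∫ x, ((starRingEnd ℂ) (Ψ x) * Ψ (Function.update x i (x i + pr L z))).re := by
      simp only [sq_diff]
      have h3 := (int3 hi' hi hg).2
      simp only [Function.comp_apply] at h3 h1'
      rw [h3, h1, h1']
      norm_num
    have hd : Integrable fun x => ‖Ψ (Function.update x i (x i + pr L z)) - Ψ x‖ ^ 2 := by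
      simp only [sq_diff]
      exact (int3 hi' hi hg).1
    rw [← e1]
    refine ⟨?_, integral_nonneg fun x => by positivity⟩
    rw [ofReal_integral_eq_lintegral_ofReal hd (Eventually.of_forall fun x => by positivity)]
    refine lintegral_congr fun x => ?_
    rw [ENNReal.ofReal_pow (norm_nonneg _), ofReal_norm]
  have e2 : Dn Ψ (pr L z) = ENNReal.ofReal (2 * N - 2 * odN Ψ z) := by
    unfold Dn odN
    rw [Finset.sum_congr rfl fun i _ => (hone i).1,
      ← ENNReal.ofReal_sum_of_nonneg fun i _ => (hone i).2]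
    congr 1
    rw [Finset.sum_sub_distrib, Finset.sum_const, Finset.card_univ, Fintype.card_fin,
      nsmul_eq_mul, ← Finset.mul_sum]
    ring
  rw [e2, ENNReal.ofReal_le_ofReal_iff (by positivity)] at h
  linarith

/-- the condensate from the smallness of the differences -/
theorem cond_of_Dn {Ψ : (Fin N → Tor n L) → ℂ} (hΨ : IsWf2 Ψ) {δ : ℝ} (hδ : 0 ≤ δ)
    (h : ∀ h : Tor n L, Dn Ψ h ≤ ENNReal.ofReal (2 * δ)) : (N : ℝ) - δ ≤ condN Ψ := by
  have hLp : 0 < L := Fact.out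
  have hV : 0 < L ^ n := by positivity
  have hvol : volume (Set.univ : Set (Tor n L)) = ENNReal.ofReal (L ^ n) :=
    (Pool.Agent.W135.CB.proof_tf n L).1
  have hfin : ∫⁻ x, ‖Ψ x‖ₑ ^ 2 ≠ ⊤ := by rw [hΨ.norm]; exact ENNReal.one_ne_top
  rw [condN_eq hΨ.meas hfin]
  obtain ⟨P, hP⟩ : ∃ P : Measure ((Fin N → Tor n L) × Tor n L), P =
    (volume : Measure (Fin N → Tor n L)).prod (volume : Measure (Tor n L)) := ⟨_, rfl⟩
  rw [← hP]
  have hu : ∀ i : Fin N, Measurable fun p : (Fin N → Tor n L) × Tor n L =>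
      Ψ (Function.update p.1 i p.2) := fun i => hΨ.meas.comp (by fun_prop)
  have hf : Measurable fun p : (Fin N → Tor n L) × Tor n L => Ψ p.1 := hΨ.meas.comp measurable_fst
  -- the norms
  have n1 : ∫⁻ p, ‖Ψ p.1‖ₑ ^ 2 ∂P = ENNReal.ofReal (L ^ n) := by
    rw [hP, lintegral_prod _ ((hf.enorm.pow_const 2).aemeasurable)]
    simp only [lintegral_const]
    rw [lintegral_mul_const' _ _ (by rw [hvol]; exact ENNReal.ofReal_ne_top), hΨ.norm, hvol,
      one_mul]
  have n2 : ∀ i : Fin N, ∫⁻ p, ‖Ψ (Function.update p.1 i p.2)‖ₑ ^ 2 ∂P =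
      ENNReal.ofReal (L ^ n) := by
    intro i
    rw [hP, lintegral_prod _ (((hu i).enorm.pow_const 2).aemeasurable)]
    simp only
    rw [lint_update (fun x => ‖Ψ x‖ₑ ^ 2) (hΨ.meas.enorm.pow_const 2) i, hΨ.norm, hvol, mul_one]
  have i1 : Integrable (fun p : (Fin N → Tor n L) × Tor n L => ‖Ψ p.1‖ ^ 2) P := by
    refine ⟨(hf.norm.pow_const 2).aestronglyMeasurable, ?_⟩
    rw [HasFiniteIntegral]
    simp only [enorm_sq]
    rw [n1]
    exact ENNReal.ofReal_lt_top
  have i2 : ∀ i : Fin N, Integrable (fun p : (Fin N → Tor n L) × Tor n L =>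
      ‖Ψ (Function.update p.1 i p.2)‖ ^ 2) P := by
    intro i
    refine ⟨((hu i).norm.pow_const 2).aestronglyMeasurable, ?_⟩
    rw [HasFiniteIntegral]
    simp only [enorm_sq]
    rw [n2 i]
    exact ENNReal.ofReal_lt_top
  have toI : ∀ g : (Fin N → Tor n L) × Tor n L → ℂ, Measurable g →
      ∫⁻ p, ‖g p‖ₑ ^ 2 ∂P = ENNReal.ofReal (L ^ n) → ∫ p, ‖g p‖ ^ 2 ∂P = L ^ n := by
    intro g hg hgn
    rw [integral_eq_lintegral_of_nonneg_ae (Eventually.of_forall fun x => by positivity)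
      (hg.norm.pow_const 2).aestronglyMeasurable]
    have : ∫⁻ p, ENNReal.ofReal (‖g p‖ ^ 2) ∂P = ENNReal.ofReal (L ^ n) := by
      rw [← hgn]
      refine lintegral_congr fun x => ?_
      rw [ENNReal.ofReal_pow (norm_nonneg _), ofReal_norm]
    rw [this, ENNReal.toReal_ofReal hV.le]
  have ig : ∀ i : Fin N, Integrable (Gf Ψ i) P := by
    intro i
    rw [hP]
    exact (int_dom hΨ.meas hfin i).mono' (Gf_meas hΨ.meas i).aestronglyMeasurable
      (Eventually.of_forall fun p => by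
        rw [Real.norm_eq_abs]
        exact Gf_abs Ψ i p)
  have hone : ∀ i : Fin N, ∫⁻ p, ‖Ψ (Function.update p.1 i p.2) - Ψ p.1‖ₑ ^ 2 ∂P =
      ENNReal.ofReal (2 * L ^ n - 2 * ∫ p, Gf Ψ i p ∂P) ∧
      0 ≤ 2 * L ^ n - 2 * ∫ p, Gf Ψ i p ∂P := by
    intro i
    have e0 : ∀ p : (Fin N → Tor n L) × Tor n L, ‖Ψ (Function.update p.1 i p.2) - Ψ p.1‖ ^ 2 =
        ‖Ψ (Function.update p.1 i p.2)‖ ^ 2 + ‖Ψ p.1‖ ^ 2 - 2 * Gf Ψ i p := fun p => sq_diff _ _
    have e1 : ∫ p, ‖Ψ (Function.update p.1 i p.2) - Ψ p.1‖ ^ 2 ∂P =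
        2 * L ^ n - 2 * ∫ p, Gf Ψ i p ∂P := by
      simp only [e0]
      rw [(int3 (i2 i) i1 (ig i)).2, toI _ (hu i) (n2 i), toI _ hf n1]
      ring
    have hd : Integrable (fun p : (Fin N → Tor n L) × Tor n L =>
        ‖Ψ (Function.update p.1 i p.2) - Ψ p.1‖ ^ 2) P := by
      simp only [e0]
      exact (int3 (i2 i) i1 (ig i)).1
    rw [← e1]
    refine ⟨?_, integral_nonneg fun x => by positivity⟩
    rw [ofReal_integral_eq_lintegral_ofReal hd (Eventually.of_forall fun x => by positivity)]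
    refine lintegral_congr fun x => ?_
    rw [ENNReal.ofReal_pow (norm_nonneg _), ofReal_norm]
  -- the sum
  have hsum : ∑ i : Fin N, ∫⁻ p, ‖Ψ (Function.update p.1 i p.2) - Ψ p.1‖ₑ ^ 2 ∂P ≤
      ENNReal.ofReal (L ^ n) * ENNReal.ofReal (2 * δ) := by
    have e1 : ∀ i : Fin N, ∫⁻ p, ‖Ψ (Function.update p.1 i p.2) - Ψ p.1‖ₑ ^ 2 ∂P =
        ∫⁻ h : Tor n L, ∫⁻ x, ‖Ψ (Function.update x i (x i + h)) - Ψ x‖ₑ ^ 2 := by
      intro i
      have hm : Measurable fun p : (Fin N → Tor n L) × Tor n L =>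
          ‖Ψ (Function.update p.1 i p.2) - Ψ p.1‖ₑ ^ 2 := ((hu i).sub hf).enorm.pow_const 2
      rw [hP, lintegral_prod _ hm.aemeasurable]
      have hm2 : Measurable fun p : (Fin N → Tor n L) × Tor n L =>
          ‖Ψ (Function.update p.1 i (p.1 i + p.2)) - Ψ p.1‖ₑ ^ 2 := by
        have h1 : Measurable fun p : (Fin N → Tor n L) × Tor n L =>
            Function.update p.1 i (p.1 i + p.2) := by
          simp only [upd_add]
          have h2 : Measurable fun h : Tor n L => (Pi.single i h : Fin N → Tor n L) := by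
            rw [measurable_pi_iff]
            intro j
            by_cases hj : j = i
            · subst hj
              simp only [Pi.single_eq_same]
              exact measurable_id
            · simp only [Pi.single_eq_of_ne hj]
              exact measurable_const
          exact (h2.comp measurable_snd).add measurable_fst
        exact ((hΨ.meas.comp h1).sub hf).enorm.pow_const 2
      rw [lintegral_lintegral_swap (μ := (volume : Measure (Tor n L)))
        (f := fun h x => ‖Ψ (Function.update x i (x i + h)) - Ψ x‖ₑ ^ 2)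
        ((hm2.comp measurable_swap).aemeasurable)]
      refine lintegral_congr fun x => ?_
      exact (lintegral_add_left_eq_self (fun y => ‖Ψ (Function.update x i y) - Ψ x‖ₑ ^ 2)
        (x i)).symm
    rw [Finset.sum_congr rfl fun i _ => e1 i, ← lintegral_finsetSum']
    · calc ∫⁻ h : Tor n L, ∑ i : Fin N, ∫⁻ x, ‖Ψ (Function.update x i (x i + h)) - Ψ x‖ₑ ^ 2
          ≤ ∫⁻ _h : Tor n L, ENNReal.ofReal (2 * δ) := lintegral_mono fun y => h y
        _ = _ := by rw [lintegral_const, hvol, mul_comm]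
    · intro i _
      have hm2 : Measurable fun p : Tor n L × (Fin N → Tor n L) =>
          ‖Ψ (Function.update p.2 i (p.2 i + p.1)) - Ψ p.2‖ₑ ^ 2 := by
        have h1 : Measurable fun p : Tor n L × (Fin N → Tor n L) =>
            Function.update p.2 i (p.2 i + p.1) := by
          simp only [upd_add]
          have h2 : Measurable fun h : Tor n L => (Pi.single i h : Fin N → Tor n L) := by
            rw [measurable_pi_iff]
            intro j
            by_cases hj : j = i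
            · subst hj
              simp only [Pi.single_eq_same]
              exact measurable_id
            · simp only [Pi.single_eq_of_ne hj]
              exact measurable_const
          exact (h2.comp measurable_fst).add measurable_snd
        exact ((hΨ.meas.comp h1).sub (hΨ.meas.comp measurable_snd)).enorm.pow_const 2
      exact hm2.lintegral_prod_right'.aemeasurable
  rw [Finset.sum_congr rfl fun i _ => (hone i).1,
    ← ENNReal.ofReal_sum_of_nonneg fun i _ => (hone i).2, ← ENNReal.ofReal_mul hV.le,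
    ENNReal.ofReal_le_ofReal_iff (by positivity), Finset.sum_sub_distrib, Finset.sum_const,
    Finset.card_univ, Fintype.card_fin, nsmul_eq_mul, ← Finset.mul_sum] at hsum
  have h3 : (L ^ n) * ((N : ℝ) - δ) ≤ ∑ i : Fin N, ∫ p, Gf Ψ i p ∂P := by linarith
  calc (N : ℝ) - δ = (L ^ n)⁻¹ * ((L ^ n) * ((N : ℝ) - δ)) := by field_simp
    _ ≤ _ := mul_le_mul_of_nonneg_left h3 (by positivity)

/-- reduction to bounded wave functions -/
theorem trunc3 {μ : ℝ≥0∞} {K : (Fin n → ℝ) → ℝ≥0∞} {v : ℝ → ℝ≥0∞}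
    {Ψ : (Fin N → Tor n L) → ℂ} {ε : ℝ} (hε : 0 < ε) (hΨ : IsWf2 Ψ) (hE : enN μ K v Ψ ≠ ⊤)
    (h : Tor n L) {X : ℝ≥0∞} (hX : ∀ Ψ' : (Fin N → Tor n L) → ℂ, IsWf Ψ' →
      enN μ K v Ψ' ≤ enN μ K v Ψ + ENNReal.ofReal ε → Dn Ψ' h ≤ X) : Dn Ψ h ≤ X := by
  have hle : ∀ (m : ℕ) x, ‖tr m (Ψ x)‖ₑ ≤ ‖Ψ x‖ₑ := fun m x =>
    enorm_le_of (tr_norm (Nat.cast_nonneg m) _)
  have h1 : ∫⁻ x, ‖Ψ x‖ₑ ^ 2 ≠ ⊤ := by
    rw [hΨ.norm]
    exact ENNReal.one_ne_top
  -- the norms
  set q : ℕ → ℝ := fun m => (∫⁻ x, ‖tr m (Ψ x)‖ₑ ^ 2).toReal with hq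
  have hp : Tendsto (fun m : ℕ => ∫⁻ x, ‖tr m (Ψ x)‖ₑ ^ 2) atTop (𝓝 1) := by
    rw [← hΨ.norm]
    apply tendsto_lintegral_of_dominated_convergence (fun x => ‖Ψ x‖ₑ ^ 2)
    · exact fun m => ((tr_meas m).comp hΨ.meas).enorm.pow_const 2
    · intro m
      refine Eventually.of_forall fun x => ?_
      have := hle m x
      simp only
      gcongr
    · exact h1
    · refine Eventually.of_forall fun x => ?_
      exact ((ENNReal.continuous_pow 2).tendsto _).comp
        ((continuous_enorm.tendsto _).comp (tr_tendsto (Ψ x)))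
  have hple : ∀ m : ℕ, ∫⁻ x, ‖tr m (Ψ x)‖ₑ ^ 2 ≤ 1 := by
    intro m
    rw [← hΨ.norm]
    refine lintegral_mono fun x => ?_
    have := hle m x
    gcongr
  have hpt : ∀ m : ℕ, ∫⁻ x, ‖tr m (Ψ x)‖ₑ ^ 2 ≠ ⊤ := fun m =>
    ne_top_of_le_ne_top ENNReal.one_ne_top (hple m)
  have hq1 : Tendsto q atTop (𝓝 1) := by
    have := (ENNReal.tendsto_toReal ENNReal.one_ne_top).comp hp
    rw [ENNReal.toReal_one] at this
    exact this
  have hinv : Tendsto (fun m => (q m)⁻¹) atTop (𝓝 1) := by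
    simpa using hq1.inv₀ one_ne_zero
  have hen : Tendsto (fun m => (q m)⁻¹ * (enN μ K v Ψ).toReal) atTop
      (𝓝 (1 * (enN μ K v Ψ).toReal)) := hinv.mul_const _
  rw [one_mul] at hen
  have hev : ∀ᶠ m : ℕ in atTop, Dn (fun x => tr m (Ψ x)) h ≤ X := by
    filter_upwards [hen.eventually_le_const
      (show (enN μ K v Ψ).toReal < (enN μ K v Ψ).toReal + ε by linarith),
      hq1.eventually_const_lt (show (0 : ℝ) < 1 by norm_num)] with m hm2 hm3
    have hc2 : (√((q m)⁻¹)) ^ 2 = (q m)⁻¹ := Real.sq_sqrt (inv_nonneg.2 hm3.le)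
    have hce : ‖((√((q m)⁻¹) : ℝ) : ℂ)‖ₑ ^ 2 = ENNReal.ofReal (q m)⁻¹ := by
      have h0 : ‖((√((q m)⁻¹) : ℝ) : ℂ)‖ₑ = ENNReal.ofReal (√((q m)⁻¹)) := by
        rw [← ofReal_norm, Complex.norm_real, Real.norm_of_nonneg (Real.sqrt_nonneg _)]
      rw [h0, ← ENNReal.ofReal_pow (Real.sqrt_nonneg _), hc2]
    have hqr : ∫⁻ x, ‖tr m (Ψ x)‖ₑ ^ 2 = ENNReal.ofReal (q m) :=
      (ENNReal.ofReal_toReal (hpt m)).symm
    have hq1' : q m ≤ 1 := by
      have := ENNReal.toReal_mono ENNReal.one_ne_top (hple m)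
      rwa [ENNReal.toReal_one] at this
    have key := hX (fun x => ((√((q m)⁻¹) : ℝ) : ℂ) * tr m (Ψ x)) ⟨?_, ?_, ?_, ?_⟩ ?_
    · have e1 : Dn (fun x => ((√((q m)⁻¹) : ℝ) : ℂ) * tr m (Ψ x)) h =
          ENNReal.ofReal (q m)⁻¹ * Dn (fun x => tr m (Ψ x)) h := by
        unfold Dn
        rw [Finset.mul_sum]
        refine Finset.sum_congr rfl fun i _ => ?_
        rw [← lintegral_const_mul' _ _ ENNReal.ofReal_ne_top]
        refine lintegral_congr fun x => ?_
        rw [← mul_sub, enorm_mul, mul_pow, hce]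
      rw [e1] at key
      refine le_trans ?_ key
      refine le_mul_of_one_le_left (by simp) ?_
      rw [← ENNReal.ofReal_one]
      exact ENNReal.ofReal_le_ofReal ((one_le_inv₀ hm3).2 hq1')
    · exact measurable_const.mul ((tr_meas m).comp hΨ.meas)
    · refine ⟨√((q m)⁻¹) * (2 * m), fun x => ?_⟩
      rw [norm_mul, Complex.norm_real, Real.norm_of_nonneg (Real.sqrt_nonneg _)]
      exact mul_le_mul_of_nonneg_left (tr_bdd (Nat.cast_nonneg m) _) (Real.sqrt_nonneg _)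
    · intro π x
      rw [hΨ.symm]
    · simp only [enorm_mul, mul_pow, hce]
      rw [lintegral_const_mul' _ _ ENNReal.ofReal_ne_top]
      rw [hqr, ← ENNReal.ofReal_mul (inv_nonneg.2 hm3.le), inv_mul_cancel₀ hm3.ne',
        ENNReal.ofReal_one]
    · have h2 := enN_le μ K v (C := ENNReal.ofReal (q m)⁻¹) ENNReal.ofReal_ne_top
        (Φ' := fun x => ((√((q m)⁻¹) : ℝ) : ℂ) * tr m (Ψ x)) (Φ := Ψ) (fun x y => by
          rw [← mul_sub, enorm_mul, mul_pow, hce]
          gcongr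
          exact enorm_le_of (tr_lip _ _ _)) (fun x => by
          rw [enorm_mul, mul_pow, hce]
          have := hle m x
          gcongr)
      refine h2.trans ?_
      rw [← ENNReal.ofReal_toReal hE, ← ENNReal.ofReal_mul (inv_nonneg.2 hm3.le),
        ← ENNReal.ofReal_add ENNReal.toReal_nonneg hε.le]
      exact ENNReal.ofReal_le_ofReal hm2
  -- Fatou
  have hmu : ∀ i : Fin N, Measurable fun x : Fin N → Tor n L =>
      Function.update x i (x i + h) := by
    intro i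
    simp only [upd_add]
    exact measurable_const_add _
  have hDm : ∀ (Φ : (Fin N → Tor n L) → ℂ), Measurable Φ → ∀ i : Fin N, Measurable fun x =>
      ‖Φ (Function.update x i (x i + h)) - Φ x‖ₑ ^ 2 := fun Φ hΦ i =>
    ((hΦ.comp (hmu i)).sub hΦ).enorm.pow_const 2
  have hDe : ∀ (Φ : (Fin N → Tor n L) → ℂ), Measurable Φ → Dn Φ h =
      ∫⁻ x, ∑ i : Fin N, ‖Φ (Function.update x i (x i + h)) - Φ x‖ₑ ^ 2 := by
    intro Φ hΦ
    unfold Dn
    rw [lintegral_finsetSum _ fun i _ => hDm Φ hΦ i]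
  have htr : ∀ m : ℕ, Measurable fun x => tr m (Ψ x) := fun m => (tr_meas m).comp hΨ.meas
  rw [hDe Ψ hΨ.meas]
  have hfat : ∫⁻ x, ∑ i : Fin N, ‖Ψ (Function.update x i (x i + h)) - Ψ x‖ₑ ^ 2 =
      ∫⁻ x, liminf (fun m : ℕ => ∑ i : Fin N,
        ‖tr m (Ψ (Function.update x i (x i + h))) - tr m (Ψ x)‖ₑ ^ 2) atTop := by
    refine lintegral_congr fun x => ?_
    refine (Tendsto.liminf_eq ?_).symm
    refine tendsto_finsetSum _ fun i _ => ?_
    exact ((ENNReal.continuous_pow 2).tendsto _).comp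
        ((continuous_enorm.tendsto _).comp ((tr_tendsto _).sub (tr_tendsto _)))
  rw [hfat]
  refine (lintegral_liminf_le fun m => Finset.measurable_fun_sum _ fun i _ =>
    hDm _ (htr m) i).trans ?_
  refine (liminf_le_limsup (by isBoundedDefault) (by isBoundedDefault)).trans ?_
  refine limsup_le_of_le (by isBoundedDefault) ?_
  filter_upwards [hev] with m hm
  rwa [hDe _ (htr m)] at hm

open Pool.Agent.W230.CB in
/-- from wave functions to Fock space, with the translations -/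
theorem conv3 (hTF : S_TF) {μ : ℝ≥0∞} {K : (Fin n → ℝ) → ℝ≥0∞} {v : ℝ → ℝ≥0∞}
    {Ψ : (Fin N → Tor n L) → ℂ} (hK : Measurable K) (hv : Measurable v) (hΨ : IsWf Ψ) :
    ∃ F : Multiset (Tor n L) → ℂ, EB F ∧ (∀ S, Multiset.card S ≠ N → F S = 0) ∧
      nE volume F = 1 ∧ nuE volume F = ENNReal.ofReal (N : ℝ) ∧ en μ K v F = enN μ K v Ψ ∧
      ∀ h : Tor n L, ∫⁻ x, dE volume F (x + h) x = Dn Ψ h := by
  obtain ⟨hm, hb, hs, hn⟩ := hΨ
  have hVm : Measurable fun p : Tor n L × Tor n L => v (tdist p.1 p.2) :=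
    ((hTF n L).2.2.2.2.2.2.2 v hv).1
  have hadd : ∀ h : Tor n L, Measurable fun x : Tor n L => x + h := fun h => measurable_add_const h
  have hnu := nuE_FK Ψ hs hm hn
  have hD : ∀ h : Tor n L, ∫⁻ x, dE volume (FK Ψ) (x + h) x = Dn Ψ h := by
    intro h
    rcases N with _ | M
    · unfold Dn
      simp [dE_zero]
    · unfold Dn
      have h2 : ∀ (i : Fin (M + 1)), ∫⁻ x : Fin (M + 1) → Tor n L,
          ‖Ψ (Function.update x i (x i + h)) - Ψ x‖ₑ ^ 2 =
          ∫⁻ x : Fin (M + 1) → Tor n L,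
            ‖Ψ (Function.update x 0 (x 0 + h)) - Ψ x‖ₑ ^ 2 := fun i =>
        T_symm Ψ hs i (fun x => x + h)
      rw [Finset.sum_congr rfl fun i _ => h2 i, Finset.sum_const, Finset.card_univ,
        Fintype.card_fin, nsmul_eq_mul]
      exact int_dE Ψ hs hm (fun x => x + h) (hadd _)
  have hEn : en μ K v (FK Ψ) = enN μ K v Ψ := by
    unfold en ken enN Vp
    rw [Vp_gen Ψ hs hm (fun x y => v (tdist x y)) hVm]
    congr 1
    rcases N with _ | M
    · unfold Kp Hp
      simp [dE_zero]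
    · congr 1
      · congr 1
        unfold Kp
        have h1 : ∀ (c : Fin n) (k : ℕ), ∫⁻ x, dE volume (FK Ψ) (x + ec L c ((2 : ℝ)⁻¹ ^ k)) x =
            ((M + 1 : ℕ) : ℝ≥0∞) * ∫⁻ z : Fin (M + 1) → Tor n L,
              ‖Ψ (Function.update z 0 (z 0 + ec L c ((2 : ℝ)⁻¹ ^ k))) - Ψ z‖ₑ ^ 2 := fun c k =>
          int_dE Ψ hs hm (fun x => x + ec L c ((2 : ℝ)⁻¹ ^ k)) (hadd _)
        have h2 : ∀ (i : Fin (M + 1)) (c : Fin n) (k : ℕ), ∫⁻ z : Fin (M + 1) → Tor n L,
            ‖Ψ (Function.update z i (z i + ec L c ((2 : ℝ)⁻¹ ^ k))) - Ψ z‖ₑ ^ 2 =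
            ∫⁻ z : Fin (M + 1) → Tor n L,
              ‖Ψ (Function.update z 0 (z 0 + ec L c ((2 : ℝ)⁻¹ ^ k))) - Ψ z‖ₑ ^ 2 := fun i c k =>
          T_symm Ψ hs i (fun x => x + ec L c ((2 : ℝ)⁻¹ ^ k))
        simp_rw [h1, h2]
        rw [Finset.sum_const, Finset.card_univ, Fintype.card_fin, nsmul_eq_mul, Finset.mul_sum]
        refine Finset.sum_congr rfl fun c _ => ?_
        rw [ENNReal.mul_iSup]
        congr 1
        funext k
        ring
      · unfold Hp
        congr 1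
        have h1 : ∀ z : Fin n → ℝ, ∫⁻ x, dE volume (FK Ψ) (x + pr L z) x =
            ((M + 1 : ℕ) : ℝ≥0∞) * ∫⁻ x : Fin (M + 1) → Tor n L,
              ‖Ψ (Function.update x 0 (x 0 + pr L z)) - Ψ x‖ₑ ^ 2 := fun z =>
          int_dE Ψ hs hm (fun x => x + pr L z) (hadd _)
        have h2 : ∀ (i : Fin (M + 1)) (z : Fin n → ℝ), ∫⁻ x : Fin (M + 1) → Tor n L,
            ‖Ψ (Function.update x i (x i + pr L z)) - Ψ x‖ₑ ^ 2 =
            ∫⁻ x : Fin (M + 1) → Tor n L,
              ‖Ψ (Function.update x 0 (x 0 + pr L z)) - Ψ x‖ₑ ^ 2 := fun i z =>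
          T_symm Ψ hs i (fun x => x + pr L z)
        simp_rw [h1, h2]
        rw [Finset.sum_const, Finset.card_univ, Fintype.card_fin, nsmul_eq_mul,
          ← lintegral_const_mul' _ _ (ENNReal.natCast_ne_top _)]
        refine lintegral_congr fun z => ?_
        ring
  refine ⟨FK Ψ, FK_eb Ψ hs hm hb, fun S hS => FK_zero Ψ S hS, (nE_FK Ψ hs).trans hn, ?_, hEn, hD⟩
  rw [hnu]
  rcases N with _ | M
  · simp
  · rw [ENNReal.ofReal_natCast]

end

end Pool.Agent.Y656
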