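import Pool.Agent.Y656.HP2
import Pool.Agent.Y656.Dep
import Pool.Agent.Y656.Od

/-!
# Off-diagonal order of bounded wave functions, with homogeneous constants
-/

set_option autoImplicit false

open MeasureTheory
open scoped ENNReal

namespace Pool.Agent.Y656

open Pool.Agent.W761.CB Pool.Agent.W761.CC Pool.Agent.TH268.CC

noncomputable section

/-- a smaller constant -/
lemma cap_mono {n : ℕ} {μ γ γ' r : ℝ} {v : ℝ → ℝ≥0∞} (h : Cap n μ v γ' r) (hγ : γ ≤ γ') :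
    Cap n μ v γ r := by
  intro f hf
  refine le_trans (ENNReal.ofReal_le_ofReal ?_) (h f hf)
  exact mul_le_mul_of_nonneg_right hγ (sq_nonneg _)

/-- real arithmetic -/
lemma arQ {S D c x P A θ E Y Z ℓ : ℝ} (hS : 0 < S) (hD : 1 ≤ D) (hx : 1 ≤ x) (hc : 0 ≤ c)
    (hcx : c / x ≤ 1) (hP : 0 < P) (hA : A = S * (1 - 1 / x) * (1 - 1 / x) * P)
    (hθ : θ ≤ (1 + 2 * D) / x) (hY : Y ≤ D / x * (S * P)) (hZ : Z ≤ D / x * (S * P))
    (hE0 : 0 ≤ E) (hE : E ≤ (1 + c / x) * (S * P))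
    (h : A + ℓ ≤ (1 + θ) * E + Y + Z) :
    ℓ ≤ (c + 4 + 6 * D) / x * (S * P) := by
  have hx0 : 0 < x := by linarith
  have hu0 : 0 < 1 / x := by positivity
  have hSP : 0 < S * P := by positivity
  have hE2 : E ≤ 2 * (S * P) := by
    refine hE.trans (mul_le_mul_of_nonneg_right ?_ hSP.le)
    linarith
  have h1D : 0 ≤ (1 + 2 * D) / x := by positivity
  have hθE : θ * E ≤ (1 + 2 * D) / x * (2 * (S * P)) :=
    (mul_le_mul_of_nonneg_right hθ hE0).trans (mul_le_mul_of_nonneg_left hE2 h1D)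
  have hA2 : (1 - 2 / x) * (S * P) ≤ A := by
    rw [hA]
    have h2 : 0 ≤ S * (1 / x) ^ 2 * P := by positivity
    have h3 : S * (1 - 1 / x) * (1 - 1 / x) * P = (1 - 2 / x) * (S * P) +
        S * (1 / x) ^ 2 * P := by ring
    rw [h3]
    linarith
  have e : (c + 4 + 6 * D) / x * (S * P) = (1 + c / x) * (S * P) +
      (1 + 2 * D) / x * (2 * (S * P)) + D / x * (S * P) + D / x * (S * P) -
      (1 - 2 / x) * (S * P) := by ring
  rw [e]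
  linarith

/-- bounded wave functions with small energy -/
theorem bddQ {n : ℕ} {L : ℝ} [Fact (0 < L)] (hKQ : S_KQ) (hONE : S_ONE) (hPO2 : S_PO2)
    (hTF : S_TF) (hBLK : S_BLK) (hCRD : S_CRD) {b b₁ r r₀ R μ x S D CP CA ν c : ℝ}
    {v : ℝ → ℝ≥0∞} {q M : ℕ}
    (hμ : 0 < μ) (hv : Measurable v) (hS : 0 < S) (hx : 1 < x)
    (hCap : Cap n μ v (S * (1 - 1 / x)) r₀)
    (hPO : PO n L 2 CP (ENNReal.ofReal μ) (fun _ => 0)) (hCP : 0 ≤ CP) (hCA : 0 ≤ CA)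
    (hr₀ : 0 < r₀) (hr₀r : r₀ ≤ r) (hrR : r ≤ R) (hR : 1 ≤ R)
    (h4r : 4 * r ≤ b) (hb1 : 1 ≤ b) (hq : 2 ≤ q) (hM : 1 ≤ M) (hLb : L = q * b)
    (hbb : b = M * b₁) (hb₁ : 0 < b₁) (hν : 0 < ν)
    (hla : ∀ F : Multiset (Tor n L) → ℂ, EB F →
      ∑ i : Fin n → Fin (q * M), ∫⁻ γ,
        ((cnt (blk n L b₁ (fun c => (i c : ℕ))) (ms γ) - 1 : ℕ) : ℝ≥0∞) *
        ‖F (ms γ)‖ₑ ^ 2 ∂(Pool.Agent.W761.CB.lam (volume : Measure (Tor n L))) ≤
          ENNReal.ofReal (CA * b₁ ^ n) * en (ENNReal.ofReal μ) (fun _ => 0) v F)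
    (hD : 1 ≤ D) (hc : 0 ≤ c) (hcx : c / x ≤ 1)
    (hpar : ∀ γ₀ : ℝ, 0 < γ₀ → γ₀ ≤ S →
          γ₀ * (5 * (2 * M ^ n) ^ 2 / b ^ n + 2 * M ^ n / (1 / x * (2 * r₀) ^ n)) *
            (CP * b ^ 2) ≤ D / x ∧
          4 * γ₀ * ν * (CA * b₁ ^ n) ≤ D / x ∧
          γ₀ * (L ^ n / b ^ n) * (2 * M ^ n / b ^ n + (2 * M ^ n) ^ 2 / b ^ n *
            (4 * n * r / b + 2 * (2 * M ^ n) * (4 * r / b) ^ n)) ≤
            D / x * (S * (ν ^ 2 * L ^ n)) ∧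
          (1 + 1 / (1 / x)) * μ * (2 * n * ((60 * r₀ / r) ^ n / R ^ 2)) * (ν * L ^ n) ≤
            D / x * (S * (ν ^ 2 * L ^ n)))
    {N : ℕ} (hN : (N : ℝ) = ν * L ^ n) {Ψ : (Fin N → Tor n L) → ℂ} (hΨ : IsWf Ψ) {E : ℝ}
    (hE0 : 0 ≤ E) (hEe : enN (ENNReal.ofReal μ) (fun _ => 0) v Ψ = ENNReal.ofReal E)
    (hE : E ≤ (1 + c / x) * (S * (ν ^ 2 * L ^ n))) :
    ∀ (s : ℝ) (w : Fin n → ℝ), 0 ≤ s → w ∈ cube n s →
      Dn Ψ (pr L w) ≤ ENNReal.ofReal ((2 * n * s ^ 2 *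
        ((c + 4 + 6 * D) / x * (S * (ν ^ 2 * L ^ n))) +
        8 * n * R ^ 2 * (2 * (S * (ν ^ 2 * L ^ n)))) / μ) := by
  have hLp : 0 < L := Fact.out
  have hx0 : 0 < x := by linarith
  have hux : 1 / x < 1 := by rw [div_lt_one hx0]; exact hx
  have hux0 : 0 < 1 / x := by positivity
  have h1x : 0 < 1 - 1 / x := by linarith
  obtain ⟨γ₀, hγ₀⟩ : ∃ γ₀, γ₀ = S * (1 - 1 / x) := ⟨_, rfl⟩
  have hγ0 : 0 < γ₀ := by rw [hγ₀]; positivity
  have hγS : γ₀ ≤ S := by rw [hγ₀]; nlinarith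
  rw [← hγ₀] at hCap
  obtain ⟨p1, p2, p3, p4⟩ := hpar γ₀ hγ0 hγS
  obtain ⟨F, hF, hFs, hF1, hFN, hFe, hFD⟩ := conv3 hTF (K := fun _ => 0) measurable_const hv hΨ
  rw [hEe] at hFe
  obtain ⟨X', hX'⟩ : ∃ X' : ℝ, X' = γ₀ * (5 * (2 * M ^ n) ^ 2 / b ^ n +
    2 * M ^ n / (1 / x * (2 * r₀) ^ n)) * (CP * b ^ 2) := ⟨_, rfl⟩
  obtain ⟨Y', hY'⟩ : ∃ Y' : ℝ, Y' = γ₀ * (L ^ n / b ^ n) * (2 * M ^ n / b ^ n +
    (2 * M ^ n) ^ 2 / b ^ n * (4 * n * r / b + 2 * (2 * M ^ n) * (4 * r / b) ^ n)) := ⟨_, rfl⟩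
  obtain ⟨CE, hCE⟩ : ∃ CE : ℝ, CE = (1 + 1 / (1 / x)) * μ * (2 * n * ((60 * r₀ / r) ^ n / R ^ 2)) :=
    ⟨_, rfl⟩
  rw [← hX'] at p1
  rw [← hY'] at p3
  rw [← hCE] at p4
  have hr0 : 0 < r := by linarith
  have hR0 : 0 < R := by linarith
  have hb0 : 0 < b := by linarith
  have hM0 : (0 : ℝ) < M := by exact_mod_cast hM
  have hX'0 : 0 ≤ X' := by rw [hX']; positivity
  have hY'0 : 0 ≤ Y' := by rw [hY']; positivity
  have hCE0 : 0 ≤ CE := by rw [hCE]; positivity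
  have hLn : 0 < L ^ n := by positivity
  have hP : 0 < ν ^ 2 * L ^ n := by positivity
  have key := hp2 hKQ hONE hPO2 hTF hBLK hCRD hμ hv hγ0 hCap hPO hCP hCA hux0 hux hux0 hr₀ hr₀r
    hrR hR h4r hb1 hq hM hLb hbb hb₁ hν hla hX' hY' hCE hF hN hFs
  rw [hF1, hFN, hFe, mul_one, mul_one, hN] at key
  have hθ0 : 0 ≤ 1 + 1 / x + X' + 4 * γ₀ * ν * (CA * b₁ ^ n) := by positivity
  have hA0 : 0 ≤ γ₀ * (1 - 1 / x) * ν ^ 2 * L ^ n := by positivity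
  -- the averaged part of the kinetic energy is finite
  have hlt : ENNReal.ofReal μ * lowk R F ≠ ⊤ := by
    refine ne_top_of_le_ne_top ?_ (le_add_self.trans key)
    finiteness
  obtain ⟨ℓ, hℓ⟩ : ∃ ℓ : ℝ, ℓ = (ENNReal.ofReal μ * lowk R F).toReal := ⟨_, rfl⟩
  have hℓ0 : 0 ≤ ℓ := by rw [hℓ]; exact ENNReal.toReal_nonneg
  have hℓe : ENNReal.ofReal μ * lowk R F = ENNReal.ofReal ℓ := by
    rw [hℓ, ENNReal.ofReal_toReal hlt]
  rw [hℓe, ← ENNReal.ofReal_add hA0 hℓ0, ← ENNReal.ofReal_mul hθ0, ← ENNReal.ofReal_mul hCE0,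
    ← ENNReal.ofReal_add (by positivity) hY'0, ← ENNReal.ofReal_add (by positivity) (by positivity),
    ENNReal.ofReal_le_ofReal_iff (by positivity)] at key
  have res2 := arQ (S := S) (D := D) (c := c) (x := x) (P := ν ^ 2 * L ^ n)
    (A := γ₀ * (1 - 1 / x) * ν ^ 2 * L ^ n) (θ := 1 / x + X' + 4 * γ₀ * ν * (CA * b₁ ^ n))
    (E := E) (Y := Y') (Z := CE * (ν * L ^ n)) (ℓ := ℓ) hS hD hx.le hc hcx hP
    (by rw [hγ₀]; ring) (by
      have e : (1 + 2 * D) / x = 1 / x + D / x + D / x := by ring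
      rw [e]
      linarith) p3 p4 hE0 hE (by
      refine key.trans (le_of_eq ?_)
      ring)
  intro s w hs hw
  have hd := dE_low hF hR0 hs hw (ENNReal.ofReal μ) ENNReal.ofReal_ne_top
  rw [hFD, hℓe] at hd
  obtain ⟨C₁, hC₁⟩ : ∃ C₁, C₁ = (c + 4 + 6 * D) / x := ⟨_, rfl⟩
  rw [← hC₁] at res2 ⊢
  have hC₁0 : 0 < C₁ := by rw [hC₁]; positivity
  have hken : ken (ENNReal.ofReal μ) (fun _ => 0) F ≤ ENNReal.ofReal (2 *
      (S * (ν ^ 2 * L ^ n))) := by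
    calc ken (ENNReal.ofReal μ) (fun _ => 0) F ≤ en (ENNReal.ofReal μ) (fun _ => 0) v F :=
          le_self_add
      _ = ENNReal.ofReal E := hFe
      _ ≤ _ := by
          apply ENNReal.ofReal_le_ofReal
          refine hE.trans (mul_le_mul_of_nonneg_right ?_ (by positivity))
          linarith
  have hd2 : ENNReal.ofReal μ * Dn Ψ (pr L w) ≤ ENNReal.ofReal (2 * n * s ^ 2 *
      (C₁ * (S * (ν ^ 2 * L ^ n))) + 8 * n * R ^ 2 * (2 * (S * (ν ^ 2 * L ^ n)))) := by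
    refine hd.trans ?_
    rw [ENNReal.ofReal_add (by positivity) (by positivity)]
    refine add_le_add ?_ ?_
    · calc 2 * (n * ENNReal.ofReal (s ^ 2)) * ENNReal.ofReal ℓ
          = ENNReal.ofReal (2 * n * s ^ 2 * ℓ) := by
            rw [ENNReal.ofReal_mul (p := 2 * n * s ^ 2) (by positivity),
              ENNReal.ofReal_mul (p := 2 * n) (by positivity),
              ENNReal.ofReal_mul (p := 2) (by norm_num), ENNReal.ofReal_natCast]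
            norm_num
            ring
        _ ≤ _ := ENNReal.ofReal_le_ofReal (mul_le_mul_of_nonneg_left res2 (by positivity))
    · calc 8 * (n * ENNReal.ofReal (R ^ 2)) * ken (ENNReal.ofReal μ) (fun _ => 0) F
          ≤ 8 * (n * ENNReal.ofReal (R ^ 2)) * ENNReal.ofReal (2 *
            (S * (ν ^ 2 * L ^ n))) := mul_le_mul_right hken _
        _ = _ := by
            rw [ENNReal.ofReal_mul (p := 8 * n * R ^ 2) (by positivity),
              ENNReal.ofReal_mul (p := 8 * n) (by positivity),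
              ENNReal.ofReal_mul (p := 8) (by norm_num), ENNReal.ofReal_natCast]
            norm_num
            ring
  rw [ENNReal.ofReal_div_of_pos hμ, ENNReal.le_div_iff_mul_le
    (Or.inl (by rw [ne_eq, ENNReal.ofReal_eq_zero]; linarith)) (Or.inl ENNReal.ofReal_ne_top),
    mul_comm]
  exact hd2

end

end Pool.Agent.Y656
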