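import Pool.Agent.Y656.ScatH

/-!
# The scattering inequality in large cubes, for potentials which may be infinite near the origin
-/

set_option autoImplicit false

open MeasureTheory Set Filter
open scoped ENNReal Topology

namespace Pool.Agent.Y656

open Pool.Agent.W761.CB Pool.Agent.W761.CC
open Pool.Agent.W612.CC (cube_mono cube_meas el_meas QD_mono QD_congr QD_smul BM_comb BM_smul
  BM_sub rep tail_small arith params gr_mono cutf_eq)

noncomputable section

/-- the scattering inequality in large cubes -/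
theorem capH {n : ℕ} (hKQ : S_KQ) (hPOIC : S_POIC) (μ R₀ : ℝ) (v : ℝ → ℝ≥0∞) (hn : 1 ≤ n)
    (hv : Measurable v) (hvt : ∫⁻ z in {z : Fin n → ℝ | R₀ < el z}, v (el z) ≠ ⊤)
    (hsc : 0 < scat n μ v) (ε : ℝ) (hε : 0 < ε) :
    ∃ r₀ : ℝ, 1 ≤ r₀ ∧ ∀ r : ℝ, r₀ ≤ r → Cap n μ v (scat n μ v / 2 * (1 - ε)) r := by
  obtain ⟨q, hq⟩ : ∃ q, q = ⨅ f ∈ {f : (Fin n → ℝ) → ℝ | Adm f}, QD μ v Set.univ f := ⟨_, rfl⟩
  have hsq : scat n μ v = 2 * q.toReal := by rw [hq]; rfl
  obtain ⟨G, hGd⟩ : ∃ G, G = q.toReal := ⟨_, rfl⟩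
  rw [← hGd] at hsq
  have hG : 0 < G := by linarith
  have hqt : q ≠ ⊤ := by
    intro h
    rw [hGd, h] at hG
    simp at hG
  have hqG : q = ENNReal.ofReal G := by rw [hGd, ENNReal.ofReal_toReal hqt]
  have hinf : ∀ f : (Fin n → ℝ) → ℝ, Adm f → ENNReal.ofReal G ≤ QD μ v Set.univ f := by
    intro f hf
    rw [← hqG, hq]
    exact iInf₂_le f hf
  obtain ⟨C, hC0, hcut⟩ := cutH hPOIC μ R₀ v hn hv hvt
  obtain ⟨C₁, hC₁⟩ : ∃ C₁, C₁ = C * (1 + G) := ⟨_, rfl⟩
  have hC₁0 : 0 ≤ C₁ := by rw [hC₁]; positivity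
  obtain ⟨t, κ, lam, δ, ht, ht1, hκ, hκ1, hlam, hδ, hpar⟩ := params hG hC₁0 hε
  obtain ⟨g0, hg0, hg0q⟩ : ∃ g0 : (Fin n → ℝ) → ℝ, Adm g0 ∧
      QD μ v Set.univ g0 ≤ ENNReal.ofReal (G + κ) := by
    have h1 : q < ENNReal.ofReal (G + κ) := by
      rw [hqG]
      exact (ENNReal.ofReal_lt_ofReal_iff (by linarith)).2 (by linarith)
    rw [hq] at h1
    obtain ⟨f, hf⟩ := iInf_lt_iff.1 h1
    obtain ⟨hf1, hf2⟩ := iInf_lt_iff.1 hf
    exact ⟨f, hf1, hf2.le⟩
  obtain ⟨a, ha⟩ := hg0.out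
  obtain ⟨R, hR⟩ := tailH hv hvt (show 0 < 2 * lam * δ by positivity)
  have key : ∀ r : ℝ, max (max 1 (2 * R₀)) (max (2 * (a + 1)) (2 * R)) ≤ r → ∀ u : (Fin n → ℝ) → ℝ, BM u →
      ∫ z in cube n r, u z = (2 * r) ^ n →
      ENNReal.ofReal (G * (1 - ε)) ≤ QD μ v (cube n r) u := by
    intro r hr u hu hmean
    have hr1 : 1 ≤ r := ((le_max_left _ _).trans (le_max_left _ _)).trans hr
    have hrR₀ : 2 * R₀ ≤ r := ((le_max_right _ _).trans (le_max_left _ _)).trans hr
    have hra : 2 * (a + 1) ≤ r := ((le_max_left _ _).trans (le_max_right _ _)).trans hr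
    have hrR : 2 * R ≤ r := ((le_max_right _ _).trans (le_max_right _ _)).trans hr
    by_contra hcon
    push Not at hcon
    have hQu : QD μ v (cube n r) u ≤ ENNReal.ofReal G :=
      hcon.le.trans (ENNReal.ofReal_le_ofReal (by nlinarith))
    obtain ⟨hhA, hhQ⟩ := hcut r hr1 hrR₀ u hu hmean
    obtain ⟨h, hh⟩ : ∃ h, h = cutf r u := ⟨_, rfl⟩
    rw [← hh] at hhA hhQ
    obtain ⟨D, hD⟩ : ∃ D, D = cube n (r / 2) := ⟨_, rfl⟩
    have hDm : MeasurableSet D := by rw [hD]; exact cube_meas _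
    have hhQ' : QD μ v Set.univ h ≤ ENNReal.ofReal C₁ := by
      refine hhQ.trans ?_
      have h1 : 1 + QD μ v (cube n r) u ≤ ENNReal.ofReal (1 + G) := by
        rw [ENNReal.ofReal_add zero_le_one hG.le, ENNReal.ofReal_one]
        gcongr
      rw [hC₁, ENNReal.ofReal_mul hC0]
      gcongr
    obtain ⟨w, hw⟩ : ∃ w : (Fin n → ℝ) → ℝ, w = fun z => h z - g0 z := ⟨_, rfl⟩
    have hwB : BM w := by rw [hw]; exact BM_sub hhA.toBM hg0.toBM
    -- the identities
    obtain ⟨-, hid, -⟩ := hKQ n Set.univ (Or.inl rfl)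
    obtain ⟨-, -, hg3⟩ := hKQ n Set.univ (Or.inl rfl)
    have hE3 := hg3 a (r / 2) g0 h hg0.toBM hhA.toBM ha (by linarith)
    rw [← hw, ← hD] at hE3
    have hE2 := fun s hs0 hs1 => hid μ s v g0 h hv hg0.toBM hhA.toBM hs0 hs1
    rw [← hw] at hE2
    have hE1 : ENNReal.ofReal G ≤ QD μ v Set.univ (fun z => (1 - t) * g0 z + t * h z) := by
      apply hinf
      refine ⟨BM_comb hg0.toBM hhA.toBM _ _, ?_⟩
      obtain ⟨a', ha'⟩ := hhA.out
      refine ⟨max a a', fun z hz => ?_⟩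
      rw [ha z (fun h1 => hz (cube_mono (le_max_left _ _) h1)),
        ha' z (fun h1 => hz (cube_mono (le_max_right _ _) h1))]
      ring
    have hgt : QD μ v Set.univ g0 ≠ ⊤ := ne_top_of_le_ne_top ENNReal.ofReal_ne_top hg0q
    have hht : QD μ v Set.univ h ≠ ⊤ := ne_top_of_le_ne_top ENNReal.ofReal_ne_top hhQ'
    have hwt : QD μ v Set.univ w ≠ ⊤ := by
      have h1 := hE2 (1 / 2) (by norm_num) (by norm_num)
      intro h2
      rw [h2, ENNReal.mul_top (by
        rw [ne_eq, ENNReal.ofReal_eq_zero, not_le]; norm_num), add_top] at h1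
      exact (ENNReal.add_ne_top.2 ⟨ENNReal.mul_ne_top ENNReal.ofReal_ne_top hgt,
        ENNReal.mul_ne_top ENNReal.ofReal_ne_top hht⟩) h1.symm
    -- the parts
    obtain ⟨P, hP⟩ : ∃ P : Set (Fin n → ℝ) → ((Fin n → ℝ) → ℝ) → ℝ≥0∞, P = fun D f =>
      2⁻¹ * ∫⁻ z in D, v (el z) * ENNReal.ofReal (f z ^ 2) := ⟨_, rfl⟩
    have hQP : ∀ D f, QD μ v D f = ENNReal.ofReal μ * gr D f + P D f := by
      intro D f; rw [hP]; rfl
    have hPle : ∀ D f, P D f ≤ P Set.univ f := by
      intro D f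
      rw [hP]
      simp only
      gcongr
      exact subset_univ _
    have hPsplit : ∀ f, P Set.univ f = P D f + P Dᶜ f := by
      intro f
      rw [hP]
      simp only
      rw [← mul_add, lintegral_add_compl _ hDm, setLIntegral_univ]
    have hPh : P Set.univ h ≠ ⊤ := ne_top_of_le_ne_top hht (by rw [hQP]; exact le_add_self)
    have hPw : P Set.univ w ≠ ⊤ := ne_top_of_le_ne_top hwt (by rw [hQP]; exact le_add_self)
    have hKh : ENNReal.ofReal μ * gr Set.univ h ≠ ⊤ :=
      ne_top_of_le_ne_top hht (by rw [hQP]; exact le_self_add)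
    have hKw : ENNReal.ofReal μ * gr Set.univ w ≠ ⊤ :=
      ne_top_of_le_ne_top hwt (by rw [hQP]; exact le_self_add)
    have hKDh : ENNReal.ofReal μ * gr D h ≠ ⊤ :=
      ne_top_of_le_ne_top hKh (mul_le_mul_right (gr_mono (subset_univ _) h) _)
    have hKDw : ENNReal.ofReal μ * gr D w ≠ ⊤ :=
      ne_top_of_le_ne_top hKw (mul_le_mul_right (gr_mono (subset_univ _) w) _)
    obtain ⟨a1, ha1, ea1⟩ := rep hKh
    obtain ⟨a2, ha2, ea2⟩ := rep (ne_top_of_le_ne_top hPh (hPle D h))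
    obtain ⟨a3, ha3, ea3⟩ := rep (ne_top_of_le_ne_top hPh (hPle Dᶜ h))
    obtain ⟨b1, hb1, eb1⟩ := rep hKw
    obtain ⟨b2, hb2, eb2⟩ := rep hPw
    obtain ⟨b3, hb3, eb3⟩ := rep (ne_top_of_le_ne_top hPw (hPle Dᶜ w))
    obtain ⟨c1, hc1, ec1⟩ := rep hKDw
    obtain ⟨c2, hc2, ec2⟩ := rep hKDh
    obtain ⟨y, hy, ey⟩ := rep hgt
    have hQh : QD μ v Set.univ h = ENNReal.ofReal (a1 + (a2 + a3)) := by
      rw [hQP, hPsplit, ea1, ea2, ea3, ← ENNReal.ofReal_add ha2 ha3,
        ← ENNReal.ofReal_add ha1 (by positivity)]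
    have hQw : QD μ v Set.univ w = ENNReal.ofReal (b1 + b2) := by
      rw [hQP, eb1, eb2, ← ENNReal.ofReal_add hb1 hb2]
    have hmt : QD μ v Set.univ (fun z => (1 - t) * g0 z + t * h z) ≠ ⊤ := by
      have h1 := hE2 t ht.le ht1.le
      refine ne_top_of_le_ne_top ?_ (le_self_add.trans h1.le)
      exact ENNReal.add_ne_top.2 ⟨ENNReal.mul_ne_top ENNReal.ofReal_ne_top hgt,
        ENNReal.mul_ne_top ENNReal.ofReal_ne_top hht⟩
    obtain ⟨x, hx, ex⟩ := rep hmt
    -- the real relations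
    have R1 : G ≤ x := by
      rw [ex] at hE1
      exact (ENNReal.ofReal_le_ofReal_iff hx).1 hE1
    have R2 : x + t * (1 - t) * (b1 + b2) = (1 - t) * y + t * (a1 + (a2 + a3)) := by
      have h1 := hE2 t ht.le ht1.le
      have h1t : 0 ≤ 1 - t := by linarith
      rw [ex, hQw, ey, hQh, ← ENNReal.ofReal_mul (by positivity), ← ENNReal.ofReal_mul h1t,
        ← ENNReal.ofReal_mul ht.le, ← ENNReal.ofReal_add hx (by positivity),
        ← ENNReal.ofReal_add (by positivity) (by positivity)] at h1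
      exact (ENNReal.ofReal_eq_ofReal_iff (by positivity) (by positivity)).1 h1
    have R2' : b1 + b2 ≤ 2 * y + 2 * (a1 + (a2 + a3)) := by
      have h1 := hE2 (1 / 2) (by norm_num) (by norm_num)
      have h2 : ENNReal.ofReal (1 / 2 * (1 - 1 / 2)) * QD μ v Set.univ w ≤
          ENNReal.ofReal (1 - 1 / 2) * QD μ v Set.univ g0
            + ENNReal.ofReal (1 / 2) * QD μ v Set.univ h := by
        rw [← h1]
        exact le_add_self
      rw [hQw, ey, hQh, ← ENNReal.ofReal_mul (by norm_num), ← ENNReal.ofReal_mul (by norm_num),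
        ← ENNReal.ofReal_mul (by norm_num), ← ENNReal.ofReal_add (by norm_num; exact hy)
          (by positivity)] at h2
      have h3 := (ENNReal.ofReal_le_ofReal_iff (by norm_num; positivity)).1 h2
      norm_num at h3
      linarith
    have R3 : a1 + c1 = b1 + c2 := by
      have h1 : ENNReal.ofReal μ * gr Set.univ h + ENNReal.ofReal μ * gr D w =
          ENNReal.ofReal μ * gr Set.univ w + ENNReal.ofReal μ * gr D h := by
        rw [← mul_add, ← mul_add, hE3]
      rw [ea1, ec1, eb1, ec2, ← ENNReal.ofReal_add ha1 hc1, ← ENNReal.ofReal_add hb1 hc2] at h1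
      exact (ENNReal.ofReal_eq_ofReal_iff (by positivity) (by positivity)).1 h1
    have R4 : y ≤ G + κ := by
      rw [ey] at hg0q
      exact (ENNReal.ofReal_le_ofReal_iff (by positivity)).1 hg0q
    have R5 : a1 + (a2 + a3) ≤ C₁ := by
      rw [hQh] at hhQ'
      exact (ENNReal.ofReal_le_ofReal_iff hC₁0).1 hhQ'
    have R6 : b3 ≤ b2 := by
      have h1 := hPle Dᶜ w
      rw [eb3, eb2] at h1
      exact (ENNReal.ofReal_le_ofReal_iff hb2).1 h1
    have R7 : a3 ≤ b3 + lam * a3 + δ := by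
      have hvm : Measurable (fun z : Fin n → ℝ => v (el z)) := hv.comp el_meas
      have hhm : Measurable (fun z => ENNReal.ofReal (h z ^ 2)) :=
        (hhA.meas.pow_const 2).ennreal_ofReal
      have hwm : Measurable (fun z => ENNReal.ofReal (w z ^ 2)) :=
        (hwB.meas.pow_const 2).ennreal_ofReal
      have hvh : Measurable (fun z => v (el z) * ENNReal.ofReal (h z ^ 2)) := hvm.mul hhm
      have hvw : Measurable (fun z => v (el z) * ENNReal.ofReal (w z ^ 2)) := hvm.mul hwm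
      have h1 : ∫⁻ z in Dᶜ, v (el z) * ENNReal.ofReal (h z ^ 2) ≤
          (∫⁻ z in Dᶜ, v (el z) * ENNReal.ofReal (w z ^ 2)) +
            (ENNReal.ofReal lam * (∫⁻ z in Dᶜ, v (el z) * ENNReal.ofReal (h z ^ 2)) +
              ENNReal.ofReal lam⁻¹ * ∫⁻ z in Dᶜ, v (el z)) := by
        rw [← lintegral_const_mul _ hvh, ← lintegral_const_mul _ hvm,
          ← lintegral_add_left (hvh.const_mul _), ← lintegral_add_left hvw]
        apply setLIntegral_mono' hDm.compl
        intro z hz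
        have hz1 : g0 z = 1 := by
          apply ha
          intro h2
          apply hz
          rw [hD]
          exact cube_mono (by linarith) h2
        have h2 : h z ^ 2 ≤ w z ^ 2 + (lam * h z ^ 2 + lam⁻¹) := by
          rw [hw]
          simp only [hz1]
          have h3 : lam * lam⁻¹ = 1 := mul_inv_cancel₀ hlam.ne'
          have h4 : 0 ≤ lam * (h z - lam⁻¹) ^ 2 := by positivity
          have h5 : lam * (h z - lam⁻¹) ^ 2 = lam * h z ^ 2 - 2 * (lam * lam⁻¹) * h z
              + (lam * lam⁻¹) * lam⁻¹ := by ring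
          rw [h5, h3] at h4
          nlinarith
        calc v (el z) * ENNReal.ofReal (h z ^ 2)
            ≤ v (el z) * ENNReal.ofReal (w z ^ 2 + (lam * h z ^ 2 + lam⁻¹)) := by
              gcongr
          _ = v (el z) * (ENNReal.ofReal (w z ^ 2) + (ENNReal.ofReal lam * ENNReal.ofReal (h z ^ 2)
              + ENNReal.ofReal lam⁻¹)) := by
              rw [ENNReal.ofReal_add (by positivity) (by positivity),
                ENNReal.ofReal_add (by positivity) (by positivity), ENNReal.ofReal_mul hlam.le]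
          _ = _ := by ring
      have h2 : P Dᶜ h ≤ P Dᶜ w + (ENNReal.ofReal lam * P Dᶜ h + ENNReal.ofReal δ) := by
        rw [hP]
        simp only
        calc 2⁻¹ * ∫⁻ z in Dᶜ, v (el z) * ENNReal.ofReal (h z ^ 2)
            ≤ 2⁻¹ * ((∫⁻ z in Dᶜ, v (el z) * ENNReal.ofReal (w z ^ 2)) +
            (ENNReal.ofReal lam * (∫⁻ z in Dᶜ, v (el z) * ENNReal.ofReal (h z ^ 2)) +
              ENNReal.ofReal lam⁻¹ * ENNReal.ofReal (2 * lam * δ))) := by
              refine mul_le_mul_right (h1.trans ?_) _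
              have h3 := hR (r / 2) (by linarith)
              rw [← hD] at h3
              gcongr
          _ = _ := by
              rw [mul_add, mul_add, mul_left_comm 2⁻¹ (ENNReal.ofReal lam),
                ← ENNReal.ofReal_mul (by positivity)]
              congr 2
              rw [show (2 : ℝ≥0∞)⁻¹ = ENNReal.ofReal (1 / 2) by
                rw [one_div, ENNReal.ofReal_inv_of_pos (by norm_num)]; simp,
                ← ENNReal.ofReal_mul (by norm_num)]
              congr 1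
              field_simp
      rw [ea3, eb3, ← ENNReal.ofReal_mul hlam.le, ← ENNReal.ofReal_add (by positivity) hδ.le,
        ← ENNReal.ofReal_add hb3 (by positivity)] at h2
      have h3 := (ENNReal.ofReal_le_ofReal_iff (by positivity)).1 h2
      linarith
    have hfin2 := arith hκ hκ1 ht ht1 hlam ha1 ha2 hc1 R1 R2 R2' R3 R4 R5 R6 R7
    have hQD : QD μ v D u = ENNReal.ofReal (c2 + a2) := by
      rw [QD_congr μ v hDm (f := u) (g := h) (by
        intro z hz
        rw [hh, cutf_eq (by linarith) u (by rw [← hD]; exact hz)]), hQP, ec2, ea2,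
        ENNReal.ofReal_add hc2 ha2]
    have h9 : ENNReal.ofReal (G * (1 - ε)) ≤ QD μ v D u := by
      rw [hQD]
      exact ENNReal.ofReal_le_ofReal (hpar.trans hfin2)
    have h10 : QD μ v D u ≤ QD μ v (cube n r) u := by
      rw [hD]
      exact QD_mono μ v (cube_mono (by linarith)) u
    exact absurd (h9.trans h10) (not_le.2 hcon)
  refine ⟨max (max 1 (2 * R₀)) (max (2 * (a + 1)) (2 * R)),
    (le_max_left _ _).trans (le_max_left _ _), ?_⟩
  intro r hr f hf
  have hr1 : 1 ≤ r := ((le_max_left _ _).trans (le_max_left _ _)).trans hr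
  have hr0 : 0 < (2 * r) ^ n := by positivity
  obtain ⟨m, hm⟩ : ∃ m, m = ((2 * r) ^ n)⁻¹ * ∫ z in cube n r, f z := ⟨_, rfl⟩
  rw [← hm, hsq]
  by_cases hm0 : m = 0
  · rw [hm0]
    simp
  · have hint : ∫ z in cube n r, f z = (2 * r) ^ n * m := by
      rw [hm, mul_inv_cancel_left₀ hr0.ne']
    have h1 := key r hr (fun z => m⁻¹ * f z) (BM_smul hf _) (by
      rw [integral_const_mul, hint]
      field_simp)
    have h2 : QD μ v (cube n r) f = ENNReal.ofReal (m ^ 2)
        * QD μ v (cube n r) (fun z => m⁻¹ * f z) := by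
      rw [← QD_smul]
      congr 1
      funext z
      rw [mul_inv_cancel_left₀ hm0]
    rw [h2, show 2 * G / 2 * (1 - ε) * m ^ 2 = m ^ 2 * (G * (1 - ε)) by ring,
      ENNReal.ofReal_mul (sq_nonneg m)]
    gcongr

end

end Pool.Agent.Y656
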