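import Pool.Agent.Y656.Mo2

/-!
# The scattering inequalities around several points, without the averaged part of the function
-/

set_option autoImplicit false
set_option linter.unusedSectionVars false

open MeasureTheory
open scoped ENNReal

namespace Pool.Agent.Y656

open Pool.Agent.W761.CB Pool.Agent.W761.CC
open Pool.Agent.W554.CC (cube_meas meas_add sum_cube_le kin_part pot_part avg_part bm_re bm_im
  ofReal_re_im)

noncomputable section

variable {n : ℕ} {L : ℝ} [hL : Fact (0 < L)]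

lemma young_real {ε a b : ℝ} (hε : 0 < ε) : (a + b) ^ 2 ≤ (1 + ε) * a ^ 2 + (1 + 1 / ε) * b ^ 2 := by
  have h1 : 0 ≤ (ε * a - b) ^ 2 / ε := by positivity
  have h2 : (ε * a - b) ^ 2 / ε = ε * a ^ 2 - 2 * a * b + 1 / ε * b ^ 2 := by
    field_simp
    ring
  rw [h2] at h1
  nlinarith

lemma gk_young {ε : ℝ} (hε : 0 < ε) (D : Set (Fin n → ℝ)) (c : Fin n) (k : ℕ)
    {a b : (Fin n → ℝ) → ℝ} (ha : Measurable a) (hb : Measurable b) :
    gk D c k (fun z => a z + b z) ≤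
      ENNReal.ofReal (1 + ε) * gk D c k a + ENNReal.ofReal (1 + 1 / ε) * gk D c k b := by
  obtain ⟨s, hs⟩ : ∃ s : Fin n → ℝ, s = Pi.single c ((2 : ℝ)⁻¹ ^ k) := ⟨_, rfl⟩
  have hsm : Measurable (fun z : Fin n → ℝ => z + s) := measurable_id.add_const s
  have m1 : ∀ g : (Fin n → ℝ) → ℝ, Measurable g →
      Measurable fun z => ENNReal.ofReal ((g (z + s) - g z) ^ 2) := fun g hg =>
    (((hg.comp hsm).sub hg).pow_const 2).ennreal_ofReal
  unfold gk
  rw [← hs]
  rw [mul_left_comm _ (4 ^ k), mul_left_comm _ (4 ^ k), ← mul_add,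
    ← lintegral_const_mul _ (m1 a ha), ← lintegral_const_mul _ (m1 b hb),
    ← lintegral_add_left ((m1 a ha).const_mul _)]
  refine mul_le_mul_right (lintegral_mono fun z => ?_) _
  dsimp only
  rw [← ENNReal.ofReal_mul (by positivity), ← ENNReal.ofReal_mul (by positivity),
    ← ENNReal.ofReal_add (by positivity) (by positivity)]
  apply ENNReal.ofReal_le_ofReal
  have h := young_real (a := a (z + s) - a z) (b := b (z + s) - b z) hε
  refine le_trans (le_of_eq ?_) h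
  ring

lemma gr_young {ε : ℝ} (hε : 0 < ε) (D : Set (Fin n → ℝ))
    {a b : (Fin n → ℝ) → ℝ} (ha : Measurable a) (hb : Measurable b) :
    gr D (fun z => a z + b z) ≤
      ENNReal.ofReal (1 + ε) * gr D a + ENNReal.ofReal (1 + 1 / ε) * gr D b := by
  unfold gr
  rw [Finset.mul_sum, Finset.mul_sum, ← Finset.sum_add_distrib]
  refine Finset.sum_le_sum fun c _ => iSup_le fun k => ?_
  refine (gk_young hε D c k ha hb).trans ?_
  gcongr
  · exact le_iSup (fun k => gk D c k a) k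
  · exact le_iSup (fun k => gk D c k b) k

/-- the gradient of the average near a point -/
lemma gr_MM {f : Tor n L → ℂ} (hf : Bd f) {R r₀ : ℝ} (hR : 1 ≤ R) (hr₀ : 0 < r₀) (hrR : r₀ ≤ R)
    (y : Tor n L) (p : ℂ → ℝ) (hp : ∀ w, ENNReal.ofReal (p w ^ 2) ≤ ‖w‖ₑ ^ 2)
    (hps : ∀ w w', p (w - w') = p w - p w') :
    gr (cube n r₀) (fun z => p (MM R f (y + pr L z))) ≤
      n * (ENNReal.ofReal (6 ^ n / (R ^ 2 * R ^ n) * (2 * r₀) ^ n) *
        ∫⁻ u in cube n (4 * R), ‖f (y + pr L u)‖ₑ ^ 2) := by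
  have hR0 : 0 < R := by linarith
  unfold gr
  have h1 : ∀ (c : Fin n) (k : ℕ), gk (cube n r₀) c k (fun z => p (MM R f (y + pr L z))) ≤
      ENNReal.ofReal (6 ^ n / (R ^ 2 * R ^ n) * (2 * r₀) ^ n) *
        ∫⁻ u in cube n (4 * R), ‖f (y + pr L u)‖ₑ ^ 2 := by
    intro c k
    obtain ⟨s, hs⟩ : ∃ s : Fin n → ℝ, s = Pi.single c ((2 : ℝ)⁻¹ ^ k) := ⟨_, rfl⟩
    have hec : ec L c ((2 : ℝ)⁻¹ ^ k) = pr L s := by rw [hs]; rfl
    unfold gk
    rw [← hs]
    have hsub : {z : Fin n → ℝ | z ∈ cube n r₀ ∧ z + s ∈ cube n r₀} ⊆ cube n r₀ := fun z hz => hz.1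
    calc 4 ^ k * ∫⁻ z in {z : Fin n → ℝ | z ∈ cube n r₀ ∧ z + s ∈ cube n r₀},
          ENNReal.ofReal ((p (MM R f (y + pr L (z + s))) - p (MM R f (y + pr L z))) ^ 2)
        ≤ 4 ^ k * ∫⁻ z in cube n r₀,
          ‖MM R f (y + pr L z + ec L c ((2 : ℝ)⁻¹ ^ k)) - MM R f (y + pr L z)‖ₑ ^ 2 := by
          refine mul_le_mul_right ((lintegral_mono_set hsub).trans
            (lintegral_mono fun z => ?_)) _
          dsimp only
          rw [← hps, hec, pr_add', ← add_assoc]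
          exact hp _
      _ = ∫⁻ z in cube n r₀, 4 ^ k *
          ‖MM R f (y + pr L z + ec L c ((2 : ℝ)⁻¹ ^ k)) - MM R f (y + pr L z)‖ₑ ^ 2 := by
          rw [lintegral_const_mul' _ _ (by simp)]
      _ ≤ ∫⁻ _z in cube n r₀, ENNReal.ofReal (6 ^ n / (R ^ 2 * R ^ n)) *
          ∫⁻ u in cube n (4 * R), ‖f (y + pr L u)‖ₑ ^ 2 := by
          refine setLIntegral_mono' (cube_meas r₀) fun z hz => ?_
          refine (MM_grad hf hR c k _).trans (mul_le_mul_right ?_ _)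
          have h2 := shift_cube (φ := fun u => ‖f (y + pr L u)‖ₑ ^ 2)
            ((fibz hf.meas _).enorm.pow_const 2) (a := 3 * R) hz
          refine le_trans (le_of_eq ?_) (h2.trans (lintegral_mono_set ?_))
          · refine lintegral_congr fun w => ?_
            rw [pr_add', add_assoc, add_comm (pr L w)]
          · intro u hu c'
            exact (hu c').trans (by linarith)
      _ = _ := by
          rw [setLIntegral_const, Pool.Agent.W753.CB.vol_cube n hr₀.le,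
            ENNReal.ofReal_mul (p := 6 ^ n / (R ^ 2 * R ^ n)) (by positivity)]
          ring
  calc ∑ c, ⨆ k, gk (cube n r₀) c k (fun z => p (MM R f (y + pr L z)))
      ≤ ∑ _c : Fin n, ENNReal.ofReal (6 ^ n / (R ^ 2 * R ^ n) * (2 * r₀) ^ n) *
        ∫⁻ u in cube n (4 * R), ‖f (y + pr L u)‖ₑ ^ 2 :=
        Finset.sum_le_sum fun c _ => iSup_le fun k => h1 c k
    _ = _ := by
        rw [Finset.sum_const, Finset.card_univ, Fintype.card_fin, nsmul_eq_mul]

lemma re_sq (w : ℂ) : ENNReal.ofReal (w.re ^ 2) ≤ ‖w‖ₑ ^ 2 := by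
  rw [← ofReal_re_im]
  exact le_self_add

lemma im_sq (w : ℂ) : ENNReal.ofReal (w.im ^ 2) ≤ ‖w‖ₑ ^ 2 := by
  rw [← ofReal_re_im]
  exact le_add_self

/-- the scattering inequalities around several points of the torus -/
theorem capt2 (hKQ : S_KQ) {r₀ r R μ γ₀ ε : ℝ} {v : ℝ → ℝ≥0∞} (G : Finset (Tor n L))
    {f : Tor n L → ℂ} (hf : Bd f) (hμ : 0 ≤ μ) (hγ : 0 ≤ γ₀) (hr₀ : 0 < r₀) (hr₀r : r₀ ≤ r)
    (hrL : 2 * r < L) (hrR : r ≤ R) (hR : 1 ≤ R) (hv : Measurable v) (hCap : Cap n μ v γ₀ r₀)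
    (hε : 0 < ε)
    (hG : ∀ y ∈ G, ∀ y' ∈ G, y ≠ y' → ∀ z ∈ cube n r, ∀ z' ∈ cube n r,
      y + pr L z ≠ y' + pr L z') :
    ENNReal.ofReal γ₀ * ∑ y ∈ G,
        ‖(((2 * r₀) ^ n : ℝ) : ℂ)⁻¹ * ∫ z in cube n r₀, f (y + pr L z)‖ₑ ^ 2 ≤
      ENNReal.ofReal ((1 + ε) * μ) * K1 (fun x => f x - MM R f x) +
        2⁻¹ * (∑ y ∈ G, ∫⁻ x, v (tdist x y) * ‖f x‖ₑ ^ 2) +
        ENNReal.ofReal ((1 + 1 / ε) * μ * (2 * n * ((60 * r₀ / r) ^ n / R ^ 2))) * N2 f := by
  have hTF := Pool.Agent.W135.CB.proof_tf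
  have hr : 0 < r := by linarith
  have hR0 : 0 < R := by linarith
  have hG₀ : ∀ y ∈ G, ∀ y' ∈ G, y ≠ y' → ∀ z ∈ cube n r₀, ∀ z' ∈ cube n r₀,
      y + pr L z ≠ y' + pr L z' := fun y hy y' hy' hne z hz z' hz' =>
    hG y hy y' hy' hne z (fun c => (hz c).trans hr₀r) z' (fun c => (hz' c).trans hr₀r)
  obtain ⟨g, hg⟩ : ∃ g : Tor n L → ℂ, g = fun x => f x - MM R f x := ⟨_, rfl⟩
  have hgB : Bd g := by rw [hg]; exact hf.sub (hf.MM R)
  have hAB : Bd (MM R f) := hf.MM R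
  obtain ⟨T, hT⟩ : ∃ T : Tor n L → ℝ≥0∞, T = fun y =>
    ENNReal.ofReal (6 ^ n / (R ^ 2 * R ^ n) * (2 * r₀) ^ n) *
        ∫⁻ u in cube n (4 * R), ‖f (y + pr L u)‖ₑ ^ 2 := ⟨_, rfl⟩
  have hgr : ∀ y, (gr (cube n r₀) (fun z => (f (y + pr L z)).re) +
      gr (cube n r₀) (fun z => (f (y + pr L z)).im)) ≤
      ENNReal.ofReal (1 + ε) * (gr (cube n r₀) (fun z => (g (y + pr L z)).re) +
        gr (cube n r₀) (fun z => (g (y + pr L z)).im)) +
      ENNReal.ofReal (1 + 1 / ε) * (2 * (n * T y)) := by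
    intro y
    have e1 : (fun z : Fin n → ℝ => (f (y + pr L z)).re) =
        fun z => (g (y + pr L z)).re + (MM R f (y + pr L z)).re := by
      funext z
      rw [hg]
      simp only [Complex.sub_re]
      ring
    have e2 : (fun z : Fin n → ℝ => (f (y + pr L z)).im) =
        fun z => (g (y + pr L z)).im + (MM R f (y + pr L z)).im := by
      funext z
      rw [hg]
      simp only [Complex.sub_im]
      ring
    have b1 := gr_young hε (cube n r₀) (bm_re pr_meas g hgB.meas hgB.bdd y).meas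
      (bm_re pr_meas (MM R f) hAB.meas hAB.bdd y).meas
    have b2 := gr_young hε (cube n r₀) (bm_im pr_meas g hgB.meas hgB.bdd y).meas
      (bm_im pr_meas (MM R f) hAB.meas hAB.bdd y).meas
    have b3 := gr_MM hf hR hr₀ (hr₀r.trans hrR) y Complex.re re_sq Complex.sub_re
    have b4 := gr_MM hf hR hr₀ (hr₀r.trans hrR) y Complex.im im_sq Complex.sub_im
    rw [e1, e2]
    calc _ ≤ (ENNReal.ofReal (1 + ε) * gr (cube n r₀) (fun z => (g (y + pr L z)).re) +
          ENNReal.ofReal (1 + 1 / ε) * (n * T y)) +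
        (ENNReal.ofReal (1 + ε) * gr (cube n r₀) (fun z => (g (y + pr L z)).im) +
          ENNReal.ofReal (1 + 1 / ε) * (n * T y)) := by
          rw [hT]
          refine add_le_add (b1.trans ?_) (b2.trans ?_)
          · exact add_le_add le_rfl (mul_le_mul_right b3 _)
          · exact add_le_add le_rfl (mul_le_mul_right b4 _)
      _ = _ := by ring
  have hsumT : ∑ y ∈ G, T y ≤ ENNReal.ofReal ((60 * r₀ / r) ^ n / R ^ 2) * N2 f := by
    rw [hT, ← Finset.mul_sum]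
    refine (mul_le_mul_right (sum_near hf hr hrR hrL G hG) _).trans (le_of_eq ?_)
    rw [← mul_assoc, ← ENNReal.ofReal_mul (by positivity)]
    congr 2
    have hRn : (0 : ℝ) < R ^ n := by positivity
    have hrn : (0 : ℝ) < r ^ n := by positivity
    rw [div_pow, div_pow, mul_pow 2 r₀, mul_pow 5 R, mul_pow 60 r₀,
      show (60 : ℝ) = 6 * 2 * 5 by norm_num, mul_pow (6 * 2 : ℝ) 5, mul_pow (6 : ℝ) 2]
    field_simp
  have hkin := kin_part hKQ hTF (by linarith : 2 * r₀ < L) G hG₀ g hgB.meas hgB.bdd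
  rw [Finset.mul_sum]
  refine (Finset.sum_le_sum fun y _ => avg_part hTF hr₀ hγ v hCap f hf.meas hf.bdd y).trans ?_
  have e : ∑ y ∈ G, (QD μ v (cube n r₀) (fun z => (f (y + pr L z)).re) +
      QD μ v (cube n r₀) (fun z => (f (y + pr L z)).im)) =
      ENNReal.ofReal μ * (∑ y ∈ G, (gr (cube n r₀) (fun z => (f (y + pr L z)).re) +
        gr (cube n r₀) (fun z => (f (y + pr L z)).im))) +
      2⁻¹ * ∑ y ∈ G, ((∫⁻ z in cube n r₀, v (el z) * ENNReal.ofReal ((f (y + pr L z)).re ^ 2)) +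
        (∫⁻ z in cube n r₀, v (el z) * ENNReal.ofReal ((f (y + pr L z)).im ^ 2))) := by
    rw [Finset.mul_sum, Finset.mul_sum, ← Finset.sum_add_distrib]
    refine Finset.sum_congr rfl fun y _ => ?_
    unfold QD
    ring
  rw [e]
  calc ENNReal.ofReal μ * (∑ y ∈ G, (gr (cube n r₀) (fun z => (f (y + pr L z)).re) +
        gr (cube n r₀) (fun z => (f (y + pr L z)).im))) +
      2⁻¹ * ∑ y ∈ G, ((∫⁻ z in cube n r₀, v (el z) * ENNReal.ofReal ((f (y + pr L z)).re ^ 2)) +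
        (∫⁻ z in cube n r₀, v (el z) * ENNReal.ofReal ((f (y + pr L z)).im ^ 2)))
      ≤ ENNReal.ofReal μ * (∑ y ∈ G, (ENNReal.ofReal (1 + ε) *
          (gr (cube n r₀) (fun z => (g (y + pr L z)).re) +
            gr (cube n r₀) (fun z => (g (y + pr L z)).im)) +
          ENNReal.ofReal (1 + 1 / ε) * (2 * (n * T y)))) +
        2⁻¹ * ∑ y ∈ G, ∫⁻ x, v (tdist x y) * ‖f x‖ₑ ^ 2 := by
        refine add_le_add (mul_le_mul_right (Finset.sum_le_sum fun y _ => hgr y) _)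
          (mul_le_mul_right (Finset.sum_le_sum fun y _ =>
            pot_part hTF hr₀ (by linarith) v hv f hf.meas hf.bdd y) _)
    _ = ENNReal.ofReal μ * (ENNReal.ofReal (1 + ε) * ∑ y ∈ G,
          (gr (cube n r₀) (fun z => (g (y + pr L z)).re) +
            gr (cube n r₀) (fun z => (g (y + pr L z)).im)) +
          ENNReal.ofReal (1 + 1 / ε) * (2 * (n * ∑ y ∈ G, T y))) +
        2⁻¹ * ∑ y ∈ G, ∫⁻ x, v (tdist x y) * ‖f x‖ₑ ^ 2 := by
        rw [Finset.sum_add_distrib, ← Finset.mul_sum, ← Finset.mul_sum, ← Finset.mul_sum,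
          ← Finset.mul_sum]
    _ ≤ ENNReal.ofReal μ * (ENNReal.ofReal (1 + ε) * K1 g +
          ENNReal.ofReal (1 + 1 / ε) * (2 * (n *
            (ENNReal.ofReal ((60 * r₀ / r) ^ n / R ^ 2) * N2 f)))) +
        2⁻¹ * ∑ y ∈ G, ∫⁻ x, v (tdist x y) * ‖f x‖ₑ ^ 2 := by
        gcongr
        exact hkin
    _ = _ := by
        rw [ENNReal.ofReal_mul (p := (1 + ε)) (by positivity),
          ENNReal.ofReal_mul (p := (1 + 1 / ε) * μ) (by positivity),
          ENNReal.ofReal_mul (p := (1 + 1 / ε)) (by positivity),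
          ENNReal.ofReal_mul (p := 2 * (n : ℝ)) (by positivity),
          ENNReal.ofReal_mul (p := (2 : ℝ)) (by positivity), ENNReal.ofReal_natCast,
          ENNReal.ofReal_ofNat, hg]
        ring

end

end Pool.Agent.Y656
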