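import Pool.Agent.Y656.ChR

/-!
# The parameters of the chain of scales for soft potentials
-/

set_option autoImplicit false

open MeasureTheory
open scoped ENNReal

namespace Pool.Agent.Y656

open Pool.Agent.W761.CB

noncomputable section

/-- the number of particles in a cell of the smallest scale -/
lemma yI {n : ℕ} {W Z ℓ ρ : ℝ} (hn : 3 ≤ n) (hW : 1 ≤ W) (hZ : 1 ≤ Z) (hℓ : Z * W / 2 ≤ ℓ)
    (hρ : ρ = 1 / Z ^ 2) : Z / 2 ^ n ≤ ρ * ℓ ^ n := by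
  have hZ0 : 0 < Z := by linarith
  have h2 : (Z / 2) ^ n ≤ ℓ ^ n := by
    apply pow_le_pow_left₀ (by positivity)
    refine le_trans ?_ hℓ
    have : Z * 1 ≤ Z * W := mul_le_mul_of_nonneg_left hW hZ0.le
    linarith
  have h3 : Z ^ 3 ≤ Z ^ n := pow_le_pow_right₀ hZ hn
  calc Z / 2 ^ n = 1 / Z ^ 2 * (Z ^ 3 / 2 ^ n) := by field_simp
    _ ≤ 1 / Z ^ 2 * (Z ^ n / 2 ^ n) := by gcongr
    _ = ρ * (Z / 2) ^ n := by rw [hρ, div_pow]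
    _ ≤ ρ * ℓ ^ n := mul_le_mul_of_nonneg_left h2 (by rw [hρ]; positivity)

/-- the loss is small -/
lemma lAI {n : ℕ} {w Z ℓ e Ce ρ ω0 r lam x CB : ℝ} (hy : Z / 2 ^ n ≤ ρ * ℓ ^ n) (hℓ : 0 < ℓ)
    (hρ : 0 < ρ) (hw : 0 < w) (hZ : 2 ^ n ≤ Z) (hCe : 0 < Ce) (he : e = Ce / w)
    (hω : ω0 = 1024 / ((1 - r) ^ 2 * e * ρ * (ℓ ^ n) ^ 2)) (hr : r < 1) (hlam : lam < 1)
    (hlam0 : 0 < lam) (hx : 1 ≤ x) (hCB : 1 ≤ CB)
    (hA : 1024 * 2 ^ n / ((1 - r) ^ 2 * Ce * (1 - lam)) * CB * w * x ≤ Z) :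
    ω0 ≤ 1 / (ω0 * (ℓ ^ n) ^ 2) ∧ ω0 / (1 - lam) ≤ ρ / (x * CB) := by
  have he0 : 0 < e := by rw [he]; positivity
  have h1r : 0 < 1 - r := by linarith
  have h1l : 0 < 1 - lam := by linarith
  have hx0 : 0 < x := by linarith
  have hCB0 : 0 < CB := by linarith
  obtain ⟨M, hM⟩ : ∃ M : ℝ, M = ℓ ^ n := ⟨_, rfl⟩
  have hM0 : 0 < M := by rw [hM]; positivity
  obtain ⟨y, hyd⟩ : ∃ y : ℝ, y = ρ * M := ⟨_, rfl⟩
  obtain ⟨a, ha⟩ : ∃ a : ℝ, a = (1 - r) ^ 2 * e := ⟨_, rfl⟩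
  have ha0 : 0 < a := by rw [ha]; positivity
  have hy0 : 0 < y := by rw [hyd]; positivity
  rw [← hM] at hy hω ⊢
  rw [← hyd] at hy
  have hy1 : 1 ≤ y := by
    refine le_trans ?_ hy
    rwa [le_div_iff₀ (by positivity), one_mul]
  have hst : 1024 * (x * CB) / (a * (1 - lam)) ≤ y := by
    refine le_trans ?_ hy
    rw [le_div_iff₀ (by positivity)]
    refine le_trans (le_of_eq ?_) hA
    rw [ha, he]
    field_simp
  have hω' : ω0 = 1024 / (a * ρ * M ^ 2) := by rw [hω, ha]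
  have hω0 : 0 < ω0 := by rw [hω']; positivity
  constructor
  · have h1 : 1024 / a ≤ y := by
      refine le_trans ?_ hst
      rw [div_le_div_iff₀ ha0 (by positivity)]
      have h2 : 1 ≤ x * CB := by nlinarith
      have h3 : (1 - lam) ≤ x * CB := by linarith
      have h4 : a * (1 - lam) ≤ a * (x * CB) := mul_le_mul_of_nonneg_left h3 ha0.le
      linarith
    rw [le_div_iff₀ (by positivity)]
    have h2 : ω0 * (ω0 * M ^ 2) = (1024 / a) ^ 2 / y ^ 2 := by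
      rw [hω', hyd]
      field_simp
    rw [h2, div_le_one (by positivity)]
    exact pow_le_pow_left₀ (by positivity) h1 2
  · have h2 : ω0 / (1 - lam) = 1024 * (x * CB) / (a * (1 - lam)) / y * (ρ / (x * CB) / y) := by
      rw [hω', hyd]
      field_simp
    rw [h2]
    have h3 : 1024 * (x * CB) / (a * (1 - lam)) / y ≤ 1 := by rwa [div_le_one hy0]
    have h4 : ρ / (x * CB) / y ≤ ρ / (x * CB) := div_le_self (by positivity) hy1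
    calc 1024 * (x * CB) / (a * (1 - lam)) / y * (ρ / (x * CB) / y) ≤ 1 * (ρ / (x * CB)) :=
          mul_le_mul h3 h4 (by positivity) zero_le_one
      _ = _ := one_mul _

/-- the loss is small in comparison with the hopping -/
lemma lBI {n k : ℕ} {σ w W Z ℓ c c₀ Γ e Ce ρ ω0 r lam CA : ℝ} (hσ : 0 < σ) (hw : 1 ≤ w)
    (hW : W = w ^ k) (hk : 4 ≤ (k : ℝ) * (2 * n - σ)) (hZ : 0 < Z) (hℓ : Z * W / 2 ≤ ℓ)
    (hc : 0 < c) (hρ : ρ = 1 / Z ^ 2)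
    (hc₀ : c₀ = c * Z ^ 2 / (Z ^ (3 * n) * w)) (hΓ : Γ = c₀ * (W * (1 + 2 * √n)) ^ (-(n + σ)))
    (hCe : 0 < Ce) (he : e = Ce / w)
    (hω : ω0 = 1024 / ((1 - r) ^ 2 * e * ρ * (ℓ ^ n) ^ 2)) (hr : r < 1) (hlam : lam < 1)
    (hB : (2 : ℝ) ^ σ * CA * 32768 / ((1 - r) ^ 4 * (1 - lam)) ≤
      Ce ^ 2 * (c * (1 + 2 * √n) ^ (-(n + σ)) / 8 ^ n) * w) :
    (2 : ℝ) ^ σ * (ω0 * CA * ρ / (1 - lam)) ≤ (1 - r) ^ 2 * e / 32 * ρ * (ℓ ^ n * Γ) := by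
  have hw0 : 0 < w := by linarith
  have hW0 : 0 < W := by rw [hW]; positivity
  have hℓ0 : 0 < ℓ := lt_of_lt_of_le (by positivity) hℓ
  have hc₀0 : 0 < c₀ := by rw [hc₀]; positivity
  have hΓ0 : 0 < Γ := by rw [hΓ]; positivity
  have he0 : 0 < e := by rw [he]; positivity
  have hρ0 : 0 < ρ := by rw [hρ]; positivity
  have h1r : 0 < 1 - r := by linarith
  have h1l : 0 < 1 - lam := by linarith
  have hn0 : (0 : ℝ) ≤ n := Nat.cast_nonneg n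
  obtain ⟨c', hc'⟩ : ∃ c', c' = c * (1 + 2 * √n) ^ (-(n + σ)) / 8 ^ n := ⟨_, rfl⟩
  rw [← hc'] at hB
  have hc'0 : 0 < c' := by rw [hc']; positivity
  -- the size of the kernel
  have h1 : c' * w ^ 3 ≤ ρ * (ℓ ^ n * ℓ ^ n * ℓ ^ n) * Γ := by
    have h2 : (Z * W / 2) ^ n ≤ ℓ ^ n := pow_le_pow_left₀ (by positivity) hℓ n
    have h3 : w ^ 4 ≤ W ^ (2 * (n : ℝ) - σ) := by
      rw [hW, ← Real.rpow_natCast w k, ← Real.rpow_mul hw0.le, ← Real.rpow_natCast w 4]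
      apply Real.rpow_le_rpow_of_exponent_le hw
      push_cast
      exact hk
    have h4 : W ^ (3 * n) * (W * (1 + 2 * √n)) ^ (-((n : ℝ) + σ)) =
        W ^ (2 * (n : ℝ) - σ) * (1 + 2 * √n) ^ (-((n : ℝ) + σ)) := by
      rw [Real.mul_rpow hW0.le (by positivity), ← mul_assoc, ← Real.rpow_natCast W (3 * n),
        ← Real.rpow_add hW0]
      congr 2
      push_cast
      ring
    calc c' * w ^ 3 = c' * (w ^ 4 / w) := by field_simp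
      _ ≤ c' * (W ^ (2 * (n : ℝ) - σ) / w) := by gcongr
      _ = c / w / 8 ^ n * (W ^ (2 * (n : ℝ) - σ) * (1 + 2 * √n) ^ (-((n : ℝ) + σ))) := by
          rw [hc']
          ring
      _ = c / w / 8 ^ n * (W ^ (3 * n) * (W * (1 + 2 * √n)) ^ (-((n : ℝ) + σ))) := by rw [h4]
      _ = ρ * ((Z * W / 2) ^ n * (Z * W / 2) ^ n * (Z * W / 2) ^ n) * Γ := by
          rw [hΓ, hc₀, hρ, div_pow, mul_pow, show (8 : ℝ) = 2 * 2 * 2 by norm_num,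
            mul_pow (2 * 2) 2 n, mul_pow 2 2 n, show 3 * n = n + n + n by ring, pow_add, pow_add,
            pow_add, pow_add]
          field_simp
      _ ≤ ρ * (ℓ ^ n * ℓ ^ n * ℓ ^ n) * Γ := by gcongr
  have h5 : (2 : ℝ) ^ σ * CA * 32768 / ((1 - r) ^ 4 * (1 - lam)) ≤
      e ^ 2 * (ρ * (ℓ ^ n * ℓ ^ n * ℓ ^ n) * Γ) := by
    refine hB.trans ?_
    calc Ce ^ 2 * c' * w = e ^ 2 * (c' * w ^ 3) := by rw [he]; field_simp
      _ ≤ _ := mul_le_mul_of_nonneg_left h1 (by positivity)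
  rw [div_le_iff₀ (by positivity)] at h5
  rw [hω]
  have e1 : (2 : ℝ) ^ σ * (1024 / ((1 - r) ^ 2 * e * ρ * (ℓ ^ n) ^ 2) * CA * ρ / (1 - lam)) =
      (2 : ℝ) ^ σ * CA * 32768 * (1 / (32 * (1 - r) ^ 2 * e * (ℓ ^ n) ^ 2 * (1 - lam))) := by
    field_simp
    ring
  rw [e1]
  calc (2 : ℝ) ^ σ * CA * 32768 * (1 / (32 * (1 - r) ^ 2 * e * (ℓ ^ n) ^ 2 * (1 - lam)))
      ≤ e ^ 2 * (ρ * (ℓ ^ n * ℓ ^ n * ℓ ^ n) * Γ) * ((1 - r) ^ 4 * (1 - lam)) *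
        (1 / (32 * (1 - r) ^ 2 * e * (ℓ ^ n) ^ 2 * (1 - lam))) :=
        mul_le_mul_of_nonneg_right h5 (by positivity)
    _ = _ := by field_simp

/-- the chain -/
lemma par5I {r q ρ e ℓ Γ σ ω0 ξ : ℝ} {n : ℕ} (hr1 : r < 1) (hr0 : 0 ≤ r) (hq1 : q < 1)
    (hρ : 0 < ρ) (he : 0 < e) (hℓ : 0 < ℓ) (hΓ : 0 < Γ)
    (hω : ω0 = 1024 / ((1 - r) ^ 2 * e * ρ * (ℓ ^ n) ^ 2)) (hξ : ξ = 1 / (ω0 * (ℓ ^ n) ^ 2))
    (hωξ : ω0 ≤ ξ) :
    ∀ es H T : ℝ, T ≤ (1 - q) ^ 2 * e / 32 * ρ →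
      (2 : ℝ) ^ σ * es ≤ (1 - r) ^ 2 * e / 32 * ρ * (ℓ ^ n * Γ) →
      H = √(2 * (ξ + ω0)) + √(ξ + ω0) + √((2 : ℝ) ^ σ * es / (ℓ ^ n * Γ)) →
      √(ξ + ω0) + (H / (1 - r) + √T / (1 - q)) ≤ √e * √(ρ / 2) := by
  intro es H T hT hes hH
  have h1r : 0 < 1 - r := by linarith
  have h1q : 0 < 1 - q := by linarith
  obtain ⟨K1, hK1⟩ : ∃ K1 : ℝ, K1 = √(e / 2) := ⟨_, rfl⟩
  have hK10 : 0 < K1 := by rw [hK1]; exact Real.sqrt_pos.2 (by positivity)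
  have hK12 : K1 ^ 2 = e / 2 := by rw [hK1]; exact Real.sq_sqrt (by positivity)
  have hsρ : 0 < √ρ := Real.sqrt_pos.2 hρ
  have hξ1 : ξ = (1 - r) ^ 2 * e * ρ / 1024 := by
    rw [hξ, hω]
    field_simp
  have hs : ξ + ω0 ≤ (1 - r) ^ 2 * e * ρ / 512 := by linarith
  have b1 : √(2 * (ξ + ω0)) ≤ (1 - r) * K1 / 8 * √ρ := by
    rw [Real.sqrt_le_left (by positivity), mul_pow, Real.sq_sqrt hρ.le, div_pow, mul_pow, hK12]
    have h0 : 0 ≤ (1 - r) ^ 2 * e * ρ := by positivity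
    have h2 : (1 - r) ^ 2 * (e / 2) / 8 ^ 2 * ρ = (1 - r) ^ 2 * e * ρ / 128 := by ring
    rw [h2]
    linarith
  have b2 : √(ξ + ω0) ≤ (1 - r) * K1 / 16 * √ρ := by
    rw [Real.sqrt_le_left (by positivity), mul_pow, Real.sq_sqrt hρ.le, div_pow, mul_pow, hK12]
    refine hs.trans (le_of_eq ?_)
    ring
  have b3 : √((2 : ℝ) ^ σ * es / (ℓ ^ n * Γ)) ≤ ((1 - r) * K1 / 4) * √ρ := by
    rw [Real.sqrt_le_left (by positivity), mul_pow, Real.sq_sqrt hρ.le,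
      div_le_iff₀ (by positivity)]
    calc (2 : ℝ) ^ σ * es ≤ _ := hes
      _ = _ := by
        rw [div_pow, mul_pow, hK12]
        ring
  have hHle : H / (1 - r) ≤ K1 * √ρ * (7 / 16) := by
    rw [div_le_iff₀ h1r, hH]
    linarith only [b1, b2, b3]
  have hTle : √T / (1 - q) ≤ K1 * √ρ / 4 := by
    rw [div_le_iff₀ h1q]
    calc √T ≤ √(((1 - q) * K1 / 4 * √ρ) ^ 2) := by
          apply Real.sqrt_le_sqrt
          refine hT.trans (le_of_eq ?_)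
          rw [mul_pow, Real.sq_sqrt hρ.le, div_pow, mul_pow, hK12]
          ring
      _ = (1 - q) * K1 / 4 * √ρ := Real.sqrt_sq (by positivity)
      _ = K1 * √ρ / 4 * (1 - q) := by ring
  have hfst : √(ξ + ω0) ≤ K1 * √ρ / 16 := by
    refine b2.trans ?_
    have h1 : 0 ≤ r * (K1 * √ρ) := by positivity
    linarith only [h1]
  have hend : √e * √(ρ / 2) = K1 * √ρ := by
    rw [hK1, ← Real.sqrt_mul he.le, ← Real.sqrt_mul (by positivity : 0 ≤ e / 2)]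
    congr 1
    ring
  rw [hend]
  have h0 : 0 ≤ K1 * √ρ := by positivity
  linarith only [hHle, hTle, hfst, h0]

/-- the tolerances -/
lemma tI {n J : ℕ} {σ ℓ Λ Γ ρ tol κ₀ κ₂ Ca v₁ a am ω0 B : ℝ} (hℓ1 : Λ / 2 ≤ ℓ) (hΛ : 0 < Λ)
    (hΓ : 0 < Γ) (hρ : 0 < ρ) (hv₁ : 0 < v₁) (hB0 : 0 ≤ B) (hCa0 : 0 ≤ Ca) (hCa : Ca ≤ ρ * v₁)
    (ha0 : 0 ≤ a) (ha : a ≤ am) (hω0 : 0 ≤ ω0) (hω : ω0 ≤ ρ) (hκ₀ : κ₀ = B * ((Λ / 2) ^ n * Γ))
    (htol : tol = κ₀ * (2 : ℝ) ^ (-(σ * J)))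
    (hκ₂ : κ₂ = ρ * v₁ * √(am * ρ) * (2 : ℝ) ^ σ / ((Λ / 2) ^ n * Γ))
    (hJ : κ₂ * (2 : ℝ) ^ (-((n - σ) / 2 * J)) ≤ B) :
    tol * (2 : ℝ) ^ (σ * J) / (ℓ ^ n * Γ) +
      Ca * √(a * ω0) * (2 : ℝ) ^ σ / (ℓ ^ n * Γ) * (2 : ℝ) ^ (-((n - σ) / 2 * J)) ≤ 2 * B := by
  have hℓ0 : 0 < ℓ := lt_of_lt_of_le (by positivity) hℓ1
  have t1 : tol * (2 : ℝ) ^ (σ * J) / (ℓ ^ n * Γ) ≤ B := by
    have h1 : (2 : ℝ) ^ (-(σ * J)) * (2 : ℝ) ^ (σ * J) = 1 := by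
      rw [← Real.rpow_add (by norm_num)]; simp
    rw [div_le_iff₀ (by positivity)]
    calc tol * (2 : ℝ) ^ (σ * J) = κ₀ * ((2 : ℝ) ^ (-(σ * J)) * (2 : ℝ) ^ (σ * J)) := by
          rw [htol]; ring
      _ = B * ((Λ / 2) ^ n * Γ) := by rw [h1, mul_one, hκ₀]
      _ ≤ B * (ℓ ^ n * Γ) := by gcongr
  have t2 : Ca * √(a * ω0) * (2 : ℝ) ^ σ / (ℓ ^ n * Γ) * (2 : ℝ) ^ (-((n - σ) / 2 * J)) ≤ B := by
    refine le_trans ?_ hJ
    have ham : 0 ≤ am := ha0.trans ha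
    rw [hκ₂]
    gcongr
  linarith only [t1, t2]

/-- the small quantities of the chain -/
lemma eI {n : ℕ} {S P x CG CF ω0 lam ρ ν V N1 v₁ μ : ℝ} (hS : 0 < S) (hx : 4 ≤ x)
    (hCF : CF = 2 * (2 + √(7 / (1 - lam))) * v₁ + 25 * v₁ + 64 * n * (μ + 1))
    (hCG : CG = 1 + 8 * CF / S) (hCF0 : 0 < CF) (hω0 : 0 < ω0) (hlam0 : 0 < lam) (hlam : lam < 1)
    (hρ : 0 < ρ) (hν1 : ρ / 2 ≤ ν) (hν2 : ν ≤ ρ) (hV : 0 < V) (hP : P = ν ^ 2 * V)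
    (hv₁ : 0 < v₁) (hωx : ω0 / (1 - lam) ≤ ρ / (x * CG)) (hN1 : N1 = ν + ω0 / (1 - lam)) :
    N1 ≤ 2 * ν ∧ ω0 ≤ ρ ∧ (2 + √(7 / (1 - lam))) * v₁ * N1 + 25 * ω0 * v₁ +
      64 * n * ((μ + 1) * ρ) ≤ CF * ρ ∧
    ∀ A es : ℝ, 0 ≤ A → A ≤ CF * ρ → es = ω0 * A / (1 - lam) →
      es ≤ ω0 * CF * ρ / (1 - lam) ∧ es * V ≤ S * P / (2 * x) := by
  have hx0 : 0 < x := by linarith
  have h1l : 0 < 1 - lam := by linarith
  have hν0 : 0 < ν := by linarith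
  have hCG1 : 1 ≤ CG := by
    rw [hCG]
    have : 0 < 8 * CF / S := by positivity
    linarith
  have hCG0 : 0 < CG := by linarith
  have hωρ : ω0 / (1 - lam) ≤ ρ / 4 := by
    refine hωx.trans ?_
    apply div_le_div_of_nonneg_left hρ.le (by norm_num)
    calc (4 : ℝ) = 4 * 1 := by norm_num
      _ ≤ x * CG := mul_le_mul hx hCG1 zero_le_one hx0.le
  have hω1 : ω0 ≤ ρ / 4 := by
    refine le_trans ?_ hωρ
    rw [le_div_iff₀ h1l]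
    have := mul_nonneg hω0.le hlam0.le
    linarith
  have hN1a : N1 ≤ 2 * ν := by rw [hN1]; linarith
  have hω2 : ω0 ≤ ρ := by linarith
  refine ⟨hN1a, hω2, ?_, ?_⟩
  · have h1 : (2 + √(7 / (1 - lam))) * v₁ * N1 ≤ (2 + √(7 / (1 - lam))) * v₁ * (2 * ρ) :=
      mul_le_mul_of_nonneg_left (by linarith) (by positivity)
    have h2 : 25 * ω0 * v₁ ≤ 25 * ρ * v₁ := by gcongr
    have h3 : CF * ρ = (2 + √(7 / (1 - lam))) * v₁ * (2 * ρ) + 25 * ρ * v₁ +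
        64 * n * ((μ + 1) * ρ) := by
      rw [hCF]
      ring
    rw [h3]
    linarith
  · intro A es hA hA1 hes
    have hes1 : es ≤ ω0 * CF * ρ / (1 - lam) := by
      rw [hes]
      apply div_le_div_of_nonneg_right _ h1l.le
      rw [mul_assoc]
      exact mul_le_mul_of_nonneg_left hA1 hω0.le
    refine ⟨hes1, ?_⟩
    have h1 : ω0 * CF * ρ / (1 - lam) = ω0 / (1 - lam) * (CF * ρ) := by ring
    have h2 : ω0 / (1 - lam) * (CF * ρ) ≤ ρ / (x * CG) * (CF * ρ) :=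
      mul_le_mul_of_nonneg_right hωx (by positivity)
    have h3 : 8 * CF / S ≤ CG := by rw [hCG]; linarith
    have h4 : ρ / (x * CG) * (CF * ρ) ≤ S * ρ ^ 2 / (8 * x) := by
      rw [div_mul_eq_mul_div, div_le_div_iff₀ (by positivity) (by positivity)]
      rw [div_le_iff₀ hS] at h3
      calc ρ * (CF * ρ) * (8 * x) = (8 * CF) * (ρ ^ 2 * x) := by ring
        _ ≤ CG * S * (ρ ^ 2 * x) := mul_le_mul_of_nonneg_right h3 (by positivity)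
        _ = S * ρ ^ 2 * (x * CG) := by ring
    have h5 : es ≤ S * ρ ^ 2 / (8 * x) := by linarith
    have hρν2 : ρ ^ 2 ≤ (2 * ν) ^ 2 := pow_le_pow_left₀ hρ.le (by linarith) 2
    calc es * V ≤ S * ρ ^ 2 / (8 * x) * V := mul_le_mul_of_nonneg_right h5 hV.le
      _ ≤ S * (2 * ν) ^ 2 / (8 * x) * V := by gcongr
      _ = S * P / (2 * x) := by
        rw [hP]
        field_simp
        ring

end

end Pool.Agent.Y656
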