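import Pool.Agent.Y656.ParB
import Pool.Agent.W761.CB.Defs

/-!
# The parameters of the chain on scales larger than the healing length
-/

set_option autoImplicit false

open MeasureTheory
open scoped ENNReal

namespace Pool.Agent.Y656

open Pool.Agent.W761.CB

noncomputable section

/-- the kernel on the scales of the chain -/
theorem kernR {n : ℕ} {σ ℓ c₀ Z W : ℝ} {K : (Fin n → ℝ) → ℝ≥0∞} (hσ : 0 < σ) (hZ : 0 < Z)
    (hW : 1 ≤ W) (hℓ : 0 < ℓ) (hℓ2 : ℓ ≤ Z * W) (hc₀ : 0 ≤ c₀)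
    (hK : ∀ z, ENNReal.ofReal (c₀ * (1 + el z / Z) ^ (-(n + σ))) ≤ K z) (j : ℕ)
    (z : Fin n → ℝ) (hz : ∀ c, |z c| ≤ 2 * (2 ^ j * ℓ)) :
    ENNReal.ofReal (c₀ * (W * (1 + 2 * √n)) ^ (-(n + σ)) * (2 : ℝ) ^ (-((n + σ) * j))) ≤ K z := by
  refine le_trans (ENNReal.ofReal_le_ofReal ?_) (hK z)
  have h1 : el z ≤ √n * (2 * (2 ^ j * ℓ)) := by
    unfold el
    rw [Real.sqrt_le_left (by positivity), mul_pow, Real.sq_sqrt (by positivity)]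
    calc ∑ c, z c ^ 2 ≤ ∑ _c : Fin n, (2 * (2 ^ j * ℓ)) ^ 2 := by
          apply Finset.sum_le_sum
          intro i _
          rw [← sq_abs]
          exact pow_le_pow_left₀ (abs_nonneg _) (hz i) 2
      _ = n * (2 * (2 ^ j * ℓ)) ^ 2 := by simp
  have h2j : (1 : ℝ) ≤ 2 ^ j := one_le_pow₀ (by norm_num)
  have hel : 0 ≤ el z := Real.sqrt_nonneg _
  have h4 : 1 + el z / Z ≤ 2 ^ j * (W * (1 + 2 * √n)) := by
    have h5 : el z / Z ≤ 2 * √n * 2 ^ j * W := by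
      rw [div_le_iff₀ hZ]
      calc el z ≤ √n * (2 * (2 ^ j * ℓ)) := h1
        _ ≤ √n * (2 * (2 ^ j * (Z * W))) := by gcongr
        _ = _ := by ring
    have h6 : 1 ≤ 2 ^ j * W := by nlinarith
    have h7 : 2 ^ j * (W * (1 + 2 * √n)) = 2 ^ j * W + 2 * √n * 2 ^ j * W := by ring
    rw [h7]
    linarith
  have h0 : 0 < 1 + el z / Z := by positivity
  have h8 := Real.rpow_le_rpow_of_nonpos h0 h4 (by
    have : (0 : ℝ) ≤ n := Nat.cast_nonneg n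
    linarith : -((n : ℝ) + σ) ≤ 0)
  rw [Real.mul_rpow (by positivity) (by positivity), ← Real.rpow_natCast 2 j,
    ← Real.rpow_mul (by norm_num)] at h8
  rw [mul_assoc]
  refine mul_le_mul_of_nonneg_left (le_trans (le_of_eq ?_) h8) hc₀
  rw [mul_comm]
  congr 2
  ring

/-- the loss is small in comparison with the hopping -/
lemma lB {n k : ℕ} {σ w W Z ℓ c c₀ Γ e Ce δ ε0 r lam v₁ : ℝ} (hσ : 0 < σ) (hw : 1 ≤ w)
    (hW : W = w ^ k) (hk : 4 ≤ (k : ℝ) * (n - σ)) (hZ : 0 < Z) (hℓ : Z * W / 2 ≤ ℓ) (hc : 0 < c)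
    (hc₀ : c₀ = c / (Z ^ (2 * n) * w)) (hΓ : Γ = c₀ * (W * (1 + 2 * √n)) ^ (-(n + σ)))
    (hCe : 0 < Ce) (he : e = Ce / w) (hδ : 0 < δ)
    (hε0 : ε0 = 3072 / ((1 - r) ^ 2 * e * δ * ℓ ^ n)) (hr : r < 1) (hlam : lam < 1)
    (hv₁ : 0 ≤ v₁)
    (hB : (2 : ℝ) ^ σ * v₁ * 98304 / ((1 - r) ^ 4 * (1 - lam)) ≤
      Ce ^ 2 * (c * (1 + 2 * √n) ^ (-(n + σ)) / 4 ^ n) * w) :
    (2 : ℝ) ^ σ * (v₁ * δ ^ 2 * (ε0 / (1 - lam))) ≤ (1 - r) ^ 2 * e / 32 * δ * (ℓ ^ n * Γ) := by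
  have hw0 : 0 < w := by linarith
  have hW0 : 0 < W := by rw [hW]; positivity
  have hℓ0 : 0 < ℓ := lt_of_lt_of_le (by positivity) hℓ
  have hc₀0 : 0 < c₀ := by rw [hc₀]; positivity
  have hΓ0 : 0 < Γ := by rw [hΓ]; positivity
  have he0 : 0 < e := by rw [he]; positivity
  have h1r : 0 < 1 - r := by linarith
  have h1l : 0 < 1 - lam := by linarith
  have hn0 : (0 : ℝ) ≤ n := Nat.cast_nonneg n
  obtain ⟨c', hc'⟩ : ∃ c', c' = c * (1 + 2 * √n) ^ (-(n + σ)) / 4 ^ n := ⟨_, rfl⟩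
  rw [← hc'] at hB
  have hc'0 : 0 < c' := by rw [hc']; positivity
  -- the size of the kernel
  have h1 : c' * w ^ 3 ≤ ℓ ^ n * ℓ ^ n * Γ := by
    have h2 : (Z * W / 2) ^ n ≤ ℓ ^ n := pow_le_pow_left₀ (by positivity) hℓ n
    have h3 : w ^ 4 ≤ W ^ ((n : ℝ) - σ) := by
      rw [hW, ← Real.rpow_natCast w k, ← Real.rpow_mul hw0.le, ← Real.rpow_natCast w 4]
      apply Real.rpow_le_rpow_of_exponent_le hw
      push_cast
      exact hk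
    have h4 : W ^ (2 * n) * (W * (1 + 2 * √n)) ^ (-((n : ℝ) + σ)) =
        W ^ ((n : ℝ) - σ) * (1 + 2 * √n) ^ (-((n : ℝ) + σ)) := by
      rw [Real.mul_rpow hW0.le (by positivity), ← mul_assoc, ← Real.rpow_natCast W (2 * n),
        ← Real.rpow_add hW0]
      congr 2
      push_cast
      ring
    calc c' * w ^ 3 = c' * (w ^ 4 / w) := by field_simp
      _ ≤ c' * (W ^ ((n : ℝ) - σ) / w) := by gcongr
      _ = c / w / 4 ^ n * (W ^ ((n : ℝ) - σ) * (1 + 2 * √n) ^ (-((n : ℝ) + σ))) := by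
          rw [hc']
          ring
      _ = c / w / 4 ^ n * (W ^ (2 * n) * (W * (1 + 2 * √n)) ^ (-((n : ℝ) + σ))) := by rw [h4]
      _ = (Z * W / 2) ^ n * (Z * W / 2) ^ n * Γ := by
          rw [hΓ, hc₀, div_pow, mul_pow, show (4 : ℝ) = 2 * 2 by norm_num, mul_pow 2 2 n,
            two_mul n, pow_add, pow_add]
          field_simp
      _ ≤ ℓ ^ n * ℓ ^ n * Γ := by gcongr
  have h5 : (2 : ℝ) ^ σ * v₁ * 98304 / ((1 - r) ^ 4 * (1 - lam)) ≤ e ^ 2 * (ℓ ^ n * ℓ ^ n * Γ) := by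
    refine hB.trans ?_
    calc Ce ^ 2 * c' * w = e ^ 2 * (c' * w ^ 3) := by rw [he]; field_simp
      _ ≤ _ := mul_le_mul_of_nonneg_left h1 (by positivity)
  rw [div_le_iff₀ (by positivity)] at h5
  rw [hε0]
  have e1 : (2 : ℝ) ^ σ * (v₁ * δ ^ 2 * (3072 / ((1 - r) ^ 2 * e * δ * ℓ ^ n) / (1 - lam))) =
      (2 : ℝ) ^ σ * v₁ * 98304 * (δ / (32 * (1 - r) ^ 2 * e * ℓ ^ n * (1 - lam))) := by
    field_simp
    ring
  rw [e1]
  calc (2 : ℝ) ^ σ * v₁ * 98304 * (δ / (32 * (1 - r) ^ 2 * e * ℓ ^ n * (1 - lam)))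
      ≤ e ^ 2 * (ℓ ^ n * ℓ ^ n * Γ) * ((1 - r) ^ 4 * (1 - lam)) *
        (δ / (32 * (1 - r) ^ 2 * e * ℓ ^ n * (1 - lam))) :=
        mul_le_mul_of_nonneg_right h5 (by positivity)
    _ = _ := by field_simp

/-- the loss is small -/
lemma lA {n : ℕ} {w W Z ℓ e Ce δ ε0 r lam x : ℝ} (hn : 3 ≤ n) (hw : 1 ≤ w) (hW : 1 ≤ W)
    (hZ : 1 ≤ Z) (hℓ : Z * W / 2 ≤ ℓ) (hCe : 0 < Ce) (he : e = Ce / w) (hδ : δ = 1 / Z ^ 2)
    (hε0 : ε0 = 3072 / ((1 - r) ^ 2 * e * δ * ℓ ^ n)) (hr : r < 1) (hlam : lam < 1)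
    (hx : 0 < x) (hA : 3072 * 2 ^ n / ((1 - r) ^ 2 * Ce * (1 - lam)) * w * x ≤ Z) :
    ε0 / (1 - lam) ≤ 1 / x := by
  have hw0 : 0 < w := by linarith
  have hZ0 : 0 < Z := by linarith
  have hℓ0 : 0 < ℓ := lt_of_lt_of_le (by positivity) hℓ
  have he0 : 0 < e := by rw [he]; positivity
  have h1r : 0 < 1 - r := by linarith
  have h1l : 0 < 1 - lam := by linarith
  have h1 : Z / 2 ^ n ≤ δ * ℓ ^ n := by
    have h2 : (Z / 2) ^ n ≤ ℓ ^ n := by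
      apply pow_le_pow_left₀ (by positivity)
      refine le_trans ?_ hℓ
      have : Z * 1 ≤ Z * W := mul_le_mul_of_nonneg_left hW hZ0.le
      linarith
    have h3 : Z ^ 3 ≤ Z ^ n := pow_le_pow_right₀ hZ hn
    calc Z / 2 ^ n = 1 / Z ^ 2 * (Z ^ 3 / 2 ^ n) := by field_simp
      _ ≤ 1 / Z ^ 2 * (Z ^ n / 2 ^ n) := by gcongr
      _ = δ * (Z / 2) ^ n := by rw [hδ, div_pow]
      _ ≤ δ * ℓ ^ n := mul_le_mul_of_nonneg_left h2 (by rw [hδ]; positivity)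
  rw [div_le_iff₀ h1l, hε0]
  calc 3072 / ((1 - r) ^ 2 * e * δ * ℓ ^ n) = 3072 / ((1 - r) ^ 2 * e * (δ * ℓ ^ n)) := by
        rw [mul_assoc]
    _ ≤ 3072 / ((1 - r) ^ 2 * e * (Z / 2 ^ n)) := by gcongr
    _ = 3072 * 2 ^ n / ((1 - r) ^ 2 * Ce * (1 - lam)) * w * x * ((1 - lam) / (x * Z)) := by
        rw [he]
        field_simp
    _ ≤ Z * ((1 - lam) / (x * Z)) := mul_le_mul_of_nonneg_right hA (by positivity)
    _ = 1 / x * (1 - lam) := by field_simp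

/-- the excess energy -/
lemma lE {S D x E P A₂ A₃ cN A₁ Nlo pp γ₀ : ℝ} (hS : 0 < S) (hD : 1 ≤ D) (hx : 4 ≤ x) (hP : 0 < P)
    (hγ : γ₀ = S * (1 - 1 / x)) (hE0 : 0 ≤ E) (hE : E ≤ S * P * (1 + 2 / x))
    (hA₂ : A₂ ≤ 1 + (1 + 2 * D) / x) (hA₃ : A₃ ≤ D / x * P + γ₀ * (1 - 1 / x) * P)
    (hcN : cN ≤ D / x * P) (hAN : A₁ * Nlo = 2 * γ₀ * (1 - 1 / x) * (1 - pp) * P)
    (hpp : pp ≤ 1 / x) :
    A₂ * E + A₃ + cN ≤ A₁ * Nlo + (S * (9 + 6 * D) + 2 * D) / x * P := by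
  have hx0 : 0 < x := by linarith
  obtain ⟨u, hu⟩ : ∃ u, u = 1 / x := ⟨_, rfl⟩
  have hu0 : 0 < u := by rw [hu]; positivity
  have hu4 : u ≤ 1 / 4 := by rw [hu]; exact one_div_le_one_div_of_le (by norm_num) hx
  have e2 : 2 / x = 2 * u := by rw [hu]; ring
  have e3 : (1 + 2 * D) / x = (1 + 2 * D) * u := by rw [hu]; ring
  have e4 : D / x = D * u := by rw [hu]; ring
  have e5 : (S * (9 + 6 * D) + 2 * D) / x = (S * (9 + 6 * D) + 2 * D) * u := by rw [hu]; ring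
  rw [e2] at hE
  rw [e3] at hA₂
  rw [e4] at hA₃ hcN
  rw [e5, hAN]
  rw [← hu] at hγ hA₃ hpp ⊢
  have hSP : 0 < S * P := by positivity
  have h1 : A₂ * E ≤ (1 + (5 + 6 * D) * u) * (S * P) := by
    calc A₂ * E ≤ (1 + (1 + 2 * D) * u) * E := mul_le_mul_of_nonneg_right hA₂ hE0
      _ ≤ (1 + (1 + 2 * D) * u) * (S * P * (1 + 2 * u)) :=
          mul_le_mul_of_nonneg_left hE (by positivity)
      _ = (1 + (3 + 2 * D) * u + 2 * (1 + 2 * D) * u * u) * (S * P) := by ring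
      _ ≤ (1 + (3 + 2 * D) * u + 2 * (1 + 2 * D) * u * 1) * (S * P) := by
          gcongr
          linarith
      _ = _ := by ring
  have h2 : γ₀ * (1 - u) * P - 2 * γ₀ * (1 - u) * (1 - pp) * P ≤ -((1 - 4 * u) * (S * P)) := by
    have h3 : γ₀ * (1 - u) * P - 2 * γ₀ * (1 - u) * (1 - pp) * P =
        -((1 - u) ^ 2 * (1 - 2 * pp) * (S * P)) := by
      rw [hγ]
      ring
    rw [h3, neg_le_neg_iff]
    apply mul_le_mul_of_nonneg_right _ hSP.le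
    have h4 : 1 - 2 * u ≤ (1 - u) ^ 2 := by nlinarith
    calc 1 - 4 * u ≤ (1 - 2 * u) * (1 - 2 * u) := by nlinarith
      _ ≤ (1 - u) ^ 2 * (1 - 2 * pp) := by
          apply mul_le_mul h4 (by linarith) (by linarith) (by positivity)
  have h5 : 0 ≤ D * (u * P) := by positivity
  have h6 : (S * (9 + 6 * D) + 2 * D) * u * P = (5 + 6 * D) * u * (S * P) + 4 * u * (S * P) +
      2 * (D * (u * P)) := by ring
  rw [h6]
  have h7 : (1 + (5 + 6 * D) * u) * (S * P) = S * P + (5 + 6 * D) * u * (S * P) := by ring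
  rw [h7] at h1
  have h8 : (1 - 4 * u) * (S * P) = S * P - 4 * u * (S * P) := by ring
  rw [h8] at h2
  have h9 : D * u * P = D * (u * P) := by ring
  rw [h9] at hA₃ hcN
  linarith only [h1, h2, hA₃, hcN]

end

end Pool.Agent.Y656
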