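import Pool.Agent.Y656.Loss
import Pool.Agent.W741.CB.DE
import Pool.Agent.W135.CB.Tf

/-!
# The energy after a loss of particles
-/

set_option autoImplicit false
set_option linter.unusedSectionVars false

open MeasureTheory
open scoped ENNReal

namespace Pool.Agent.Y656

open Pool.Agent.W761.CB Pool.Agent.W741.CB

noncomputable section

variable {n : ℕ} {L : ℝ} [Fact (0 < L)] {I : Type} [Fintype I] {u : I → Tor n L → ℝ} {ε R : ℝ}
  {A : Type} [Countable A] {Lα : A → (Multiset (Tor n L) → ℂ) → Multiset (Tor n L) → ℂ}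
  {c : A → I → ℂ}

attribute [local irreducible] dE nE

theorem kin_int3 (hI : IsLoss volume u ε R Lα c) {F : Multiset (Tor n L) → ℂ} (hF : EB F)
    (h : Tor n L) : ∑' α, ∫⁻ x, dE volume (Lα α F) (x + h) x =
      ENNReal.ofReal (1 - ε) * ∫⁻ x, dE volume F (x + h) x := by
  rw [← lintegral_tsum (fun α => (meas_shift (hI.eb F hF α) _).aemeasurable),
    ← lintegral_const_mul' _ _ ENNReal.ofReal_ne_top]
  exact lintegral_congr fun x => hI.kin F hF (x + h) x

/-- the energy decreases -/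
theorem de3 (hTF : S_TF) (hI : IsLoss volume u ε R Lα c) (hε0 : 0 ≤ ε)
    {μ : ℝ≥0∞} {K : (Fin n → ℝ) → ℝ≥0∞} {v : ℝ → ℝ≥0∞} (hK : Measurable K) (hv : Measurable v)
    (F : Multiset (Tor n L) → ℂ) (hF : EB F) :
    ∑' α, en μ K v (Lα α F) ≤ ENNReal.ofReal (1 - ε) * en μ K v F := by
  have h1ε : ENNReal.ofReal (1 - ε) ≤ 1 := ENNReal.ofReal_le_one.2 (by linarith)
  have k1 : ∑' α, Kp (Lα α F) ≤ ENNReal.ofReal (1 - ε) * Kp F := by
    unfold Kp
    rw [Summable.tsum_finsetSum (fun _ _ => ENNReal.summable), Finset.mul_sum]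
    refine Finset.sum_le_sum fun d _ => ?_
    rw [tsum_iSup_mono _ (fun α => mono_kin hTF (hI.eb F hF α) d), ENNReal.mul_iSup]
    refine iSup_mono fun k => ?_
    rw [ENNReal.tsum_mul_left, kin_int3 hI hF]
    exact le_of_eq (by ring)
  have k2 : ∑' α, Hp K (Lα α F) ≤ ENNReal.ofReal (1 - ε) * Hp K F := by
    unfold Hp
    have hm : ∀ G : Multiset (Tor n L) → ℂ, EB G →
        Measurable (fun z : Fin n → ℝ => K z * ∫⁻ x, dE volume G (x + pr L z) x) :=
      fun G hG => hK.mul (meas_int hTF hG)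
    rw [ENNReal.tsum_mul_left, ← lintegral_tsum (fun α => (hm _ (hI.eb F hF α)).aemeasurable),
      mul_left_comm, ← lintegral_const_mul' _ _ ENNReal.ofReal_ne_top]
    refine mul_le_mul' le_rfl (le_of_eq (lintegral_congr fun z => ?_))
    rw [ENNReal.tsum_mul_left, kin_int3 hI hF]
    ring
  have k3 : ∑' α, Vp v (Lα α F) ≤ ENNReal.ofReal (1 - ε) * Vp v F := by
    have hw : Measurable (fun p : Tor n L × Tor n L => v (tdist p.1 p.2)) :=
      ((hTF n L).2.2.2.2.2.2.2 v hv).1
    have hm : ∀ G : Multiset (Tor n L) → ℂ, EB G → Measurable (fun p : Tor n L × Tor n L =>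
        v (tdist p.1 p.2) * nE volume (an p.2 (an p.1 G))) := fun G hG => hw.mul (meas_an2 hG)
    have hmx : ∀ G : Multiset (Tor n L) → ℂ, EB G → ∀ x, Measurable (fun y : Tor n L =>
        v (tdist x y) * nE volume (an y (an x G))) :=
      fun G hG x => (hm G hG).comp (f := fun y => (x, y)) (measurable_const.prodMk measurable_id)
    unfold Vp
    rw [ENNReal.tsum_mul_left,
      ← lintegral_tsum (fun α => ((hm _ (hI.eb F hF α)).lintegral_prod_right').aemeasurable),
      mul_left_comm, ← lintegral_const_mul' _ _ ENNReal.ofReal_ne_top]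
    refine mul_le_mul' le_rfl (lintegral_mono fun x => ?_)
    dsimp only
    rw [← lintegral_tsum (fun α => (hmx _ (hI.eb F hF α) x).aemeasurable),
      ← lintegral_const_mul' _ _ ENNReal.ofReal_ne_top]
    refine lintegral_mono fun y => ?_
    dsimp only
    rw [ENNReal.tsum_mul_left, hI.pair F hF x y]
    calc v (tdist x y) * (ENNReal.ofReal (1 - ε) * (ENNReal.ofReal (1 - ε) *
          nE volume (an y (an x F))))
        ≤ v (tdist x y) * (ENNReal.ofReal (1 - ε) * (1 * nE volume (an y (an x F)))) := by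
          gcongr
      _ = _ := by ring
  unfold en ken
  rw [ENNReal.tsum_add, ENNReal.tsum_add, ENNReal.tsum_mul_left]
  calc _ ≤ μ * (ENNReal.ofReal (1 - ε) * Kp F) + ENNReal.ofReal (1 - ε) * Hp K F +
        ENNReal.ofReal (1 - ε) * Vp v F := by gcongr
    _ = _ := by ring

theorem de3' (hTF : S_TF) (hI : IsLoss volume u ε R Lα c) (hε0 : 0 ≤ ε)
    {μ : ℝ≥0∞} {K : (Fin n → ℝ) → ℝ≥0∞} {v : ℝ → ℝ≥0∞} (hK : Measurable K) (hv : Measurable v)
    (F : Multiset (Tor n L) → ℂ) (hF : EB F) :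
    ∑' α, en μ K v (Lα α F) ≤ en μ K v F := by
  refine (de3 hTF hI hε0 hK hv F hF).trans ?_
  exact mul_le_of_le_one_left zero_le (ENNReal.ofReal_le_one.2 (by linarith))

end

end Pool.Agent.Y656
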