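import Pool.Agent.W761.CB.Stms
import Pool.Agent.W366.CB.Lam
import Pool.Agent.W975.CB.Ms

/-!
# Separability of the Fock space over the torus, and countable Parseval frames
-/

set_option autoImplicit false

open MeasureTheory MeasurableSpace
open scoped ENNReal

namespace Pool.Agent.Y656

open Pool.Agent.W761.CB

/-- configurations have a countably generated sigma algebra -/
theorem cg_sigma {Y : ℕ → Type} [∀ N, MeasurableSpace (Y N)] [∀ N, CountablyGenerated (Y N)] :
    CountablyGenerated (Σ N, Y N) := by
  classical
  have hb : ∀ N, ∃ b : Set (Set (Y N)), b.Countable ∧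
      (inferInstance : MeasurableSpace (Y N)) = generateFrom b := fun N =>
    CountablyGenerated.isCountablyGenerated
  choose b hbc hbg using hb
  refine ⟨⟨⋃ N, insert (Set.range (Sigma.mk N)) ((fun s => Sigma.mk N '' s) '' b N),
    Set.countable_iUnion fun N => ((hbc N).image _).insert _, ?_⟩⟩
  set G : Set (Set (Σ N, Y N)) :=
    ⋃ N, insert (Set.range (Sigma.mk N)) ((fun s => Sigma.mk N '' s) '' b N) with hG
  have him : ∀ N (s : Set (Y N)), MeasurableSet s → MeasurableSet[generateFrom G]
      (Sigma.mk N '' s) := by
    intro N s hs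
    have hs' : MeasurableSet[generateFrom (b N)] s := by rw [← hbg N]; exact hs
    have hr : MeasurableSet[generateFrom G] (Set.range (Sigma.mk N : Y N → Σ N, Y N)) :=
      measurableSet_generateFrom (Set.mem_iUnion.2 ⟨N, Set.mem_insert _ _⟩)
    induction s, hs' using generateFrom_induction with
    | hC t ht _ =>
      exact measurableSet_generateFrom (Set.mem_iUnion.2 ⟨N, Set.mem_insert_of_mem _ ⟨t, ht, rfl⟩⟩)
    | empty => rw [Set.image_empty]; exact @MeasurableSet.empty _ (generateFrom G)
    | compl t ht ih =>
      have h1 : MeasurableSet t := by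
        have := hs.compl
        rwa [compl_compl] at this
      have e : Sigma.mk N '' tᶜ = Set.range (Sigma.mk N : Y N → Σ N, Y N) \ (Sigma.mk N '' t) := by
        rw [Set.image_compl_eq_range_sdiff_image sigma_mk_injective]
      rw [e]
      exact @MeasurableSet.diff _ (generateFrom G) _ _ hr (ih h1)
    | iUnion f hf ih =>
      rw [Set.image_iUnion]
      refine @MeasurableSet.iUnion _ _ (generateFrom G) _ _ fun i => ih i ?_
      have := hf i
      rw [← hbg N] at this
      exact this
  refine le_antisymm ?_ ?_
  · intro t ht
    have e : t = ⋃ N, Sigma.mk N '' (Sigma.mk N ⁻¹' t) := by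
      ext ⟨N, x⟩
      simp only [Set.mem_iUnion, Set.mem_image, Set.mem_preimage]
      constructor
      · intro h
        exact ⟨N, x, h, rfl⟩
      · rintro ⟨M, y, hy, he⟩
        rw [← he]
        exact hy
    rw [e]
    exact @MeasurableSet.iUnion _ _ (generateFrom G) _ _ fun N =>
      him N _ (MeasurableSpace.measurableSet_iInf.1 ht N)
  · refine generateFrom_le fun t ht => ?_
    obtain ⟨N, hN⟩ := Set.mem_iUnion.1 ht
    have key : ∀ s : Set (Y N), MeasurableSet s → MeasurableSet (Sigma.mk N '' s) := by
      intro s hs
      refine MeasurableSpace.measurableSet_iInf.2 fun M => ?_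
      change MeasurableSet (Sigma.mk M ⁻¹' (Sigma.mk N '' s))
      by_cases h : M = N
      · subst h
        rw [Set.preimage_image_eq _ sigma_mk_injective]
        exact hs
      · have : Sigma.mk M ⁻¹' (Sigma.mk N '' s) = ∅ := by
          ext x
          simp only [Set.mem_preimage, Set.mem_image, Set.mem_empty_iff_false, iff_false,
            not_exists, not_and]
          intro y _ he
          exact h (congrArg Sigma.fst he).symm
        rw [this]
        exact MeasurableSet.empty
    rcases hN with rfl | ⟨s, hs, rfl⟩
    · have := key Set.univ MeasurableSet.univ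
      rwa [Set.image_univ] at this
    · refine key s ?_
      have h1 : MeasurableSet[generateFrom (b N)] s := measurableSet_generateFrom hs
      rw [← hbg N] at h1
      exact h1

instance tor_cg {n : ℕ} {L : ℝ} (N : ℕ) [Fact (0 < L)] :
    CountablyGenerated (Fin N → Tor n L) := by
  infer_instance

/-- the Fock space over the torus is separable -/
theorem sep_tor (n : ℕ) (L : ℝ) [Fact (0 < L)] :
    SecondCountableTopology (Lp ℂ 2 (lam (volume : Measure (Tor n L)))) := by
  haveI : CountablyGenerated (Cf (Tor n L)) := cg_sigma (Y := fun N => Fin N → Tor n L)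
  haveI : IsFiniteMeasure (lam (volume : Measure (Tor n L))) :=
    (Pool.Agent.W366.CB.proof_lam Pool.Agent.W975.CB.proof_ms (Tor n L) volume).2.1
  haveI : Fact ((2 : ℝ≥0∞) ≠ ⊤) := ⟨by norm_num⟩
  infer_instance

end Pool.Agent.Y656
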