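import Pool.Agent.Y656.Step3
import Pool.Agent.Y656.De3
import Pool.Agent.Y656.Sep
import Pool.Agent.W761.CB.Chain

/-!
# The chain of scales with the measurements by loss
-/

set_option autoImplicit false
set_option linter.unusedSectionVars false

open MeasureTheory
open scoped ENNReal

namespace Pool.Agent.Y656

open Pool.Agent.W761.CB Pool.Agent.TH268.CC

noncomputable section

theorem HasEns3.mono {X : Type} [MeasurableSpace X] {ν : Measure X} {I : Type} [Fintype I]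
    {en : (Multiset X → ℂ) → ℝ≥0∞} {u : I → X → ℝ} {Nlo E R B Nlo' E' R' B' : ℝ}
    {N : ℕ} (h : HasEns3 ν en u N Nlo E R B) (h1 : Nlo' ≤ Nlo) (h3 : E ≤ E')
    (h4 : R ≤ R') (h5 : B ≤ B') : HasEns3 ν en u N Nlo' E' R' B' := by
  obtain ⟨A, hA, Φ, c, h, hs⟩ := h
  exact ⟨A, hA, Φ, c, ⟨h.eb, h.norm, (ENNReal.ofReal_le_ofReal h1).trans h.nlo,
    h.nhi, h.energy.trans (ENNReal.ofReal_le_ofReal h3),
    fun i => (h.amp i).trans (ENNReal.ofReal_le_ofReal h4),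
    h.coh.trans (ENNReal.ofReal_le_ofReal h5)⟩, hs⟩

theorem HasEns3.toHas {X : Type} [MeasurableSpace X] {ν : Measure X} {I : Type} [Fintype I]
    {en : (Multiset X → ℂ) → ℝ≥0∞} {u : I → X → ℝ} {Nlo E R B : ℝ} {N : ℕ}
    (h : HasEns3 ν en u N Nlo E R B) : HasEns ν en u Nlo (N : ℝ) E R B := by
  obtain ⟨A, hA, Φ, c, h, -⟩ := h
  exact ⟨A, hA, Φ, c, h⟩

/-- the normalised error of the amplitudes -/
def r3 (n : ℕ) (ℓ : ℝ) (ε : ℕ → ℝ) (j : ℕ) : ℝ := 6 / (ε j * (2 ^ j * ℓ) ^ n)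

theorem r3_mul (n : ℕ) (ℓ : ℝ) (hℓ : 0 < ℓ) (ε : ℕ → ℝ) (j : ℕ) (hε : 0 < ε j) :
    r3 n ℓ ε j * ((2 ^ j * ℓ) ^ n) ^ 2 = 6 * (2 ^ j * ℓ) ^ n / ε j := by
  have : (0 : ℝ) < (2 ^ j * ℓ) ^ n := by positivity
  unfold r3
  field_simp

theorem r3_nonneg (n : ℕ) (ℓ : ℝ) (hℓ : 0 < ℓ) (ε : ℕ → ℝ) (j : ℕ) (hε : 0 < ε j) :
    0 ≤ r3 n ℓ ε j := by
  unfold r3
  positivity

theorem chain3 (hF : S_FRM) (hH : S_HAT) (hR : S_REF) (hG : S_GK) (hD : S_DIA) (hTF : S_TF)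
    {n J : ℕ} {L ℓ : ℝ} [Fact (0 < L)] (hℓ : 0 < ℓ) (hL : L = 2 ^ J * ℓ) {μ : ℝ≥0∞}
    {K : (Fin n → ℝ) → ℝ≥0∞} {v : ℝ → ℝ≥0∞} (hK : Measurable K) (hv : Measurable v)
    {e E Q tol Ca : ℝ} {N : ℕ} (he0 : 0 ≤ e) (hE : 0 ≤ E)
    (hCa : 0 ≤ Ca) (htolE : E - e ≤ tol * L ^ n)
    {ψ : Multiset (Tor n L) → ℂ} (hψ : EB ψ) (hψs : ∀ S, N < Multiset.card S → ψ S = 0)
    (hψ1 : nE volume ψ = 1)
    (hψN : nuE volume ψ = ENNReal.ofReal N) (hψE : en μ K v ψ ≤ ENNReal.ofReal E)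
    (hψQ : nE volume (ag volume (fun _ => 1) ψ) ≤ ENNReal.ofReal Q)
    (hlow : ∀ F : Multiset (Tor n L) → ℂ, EB F → (∀ S, N < Multiset.card S → F S = 0) →
      ENNReal.ofReal e * nE volume F ≤ en μ K v F + ENNReal.ofReal Ca * dm volume N F)
    (ε β g pp : ℕ → ℝ)
    (hε : ∀ j, j ≤ J → 0 < ε j ∧ ε j ≤ 1) (hβ0 : ∀ j, j ≤ J → 0 ≤ β j)
    (hpp : ∀ j, j ≤ J → 0 ≤ pp j ∧ pp j ≤ 1)
    (hg : ∀ j, 0 < j → j ≤ J → 0 < g j ∧ ∀ z : Fin n → ℝ, (∀ c, |z c| ≤ 2 * (2 ^ j * ℓ)) →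
      ENNReal.ofReal (g j) ≤ K z)
    (hβ : √Q + √(r3 n ℓ ε J) * L ^ n ≤ β J * L ^ n)
    (hppJ : ε J ≤ pp J) (hpp' : ∀ j, j < J → pp (j + 1) + ε j ≤ pp j)
    (hβ' : ∀ j, j < J → β (j + 1) + √(r3 n ℓ ε (j + 1)) + √(r3 n ℓ ε j) +
      √((tol + Ca * (N / L ^ n) * pp j) / ((2 ^ (j + 1) * ℓ) ^ n * g (j + 1))) ≤ β j) :
    HasEns3 volume (en μ K v) (hf n L ℓ (2 ^ J)) N ((1 - pp 0) * N) E
      (r3 n ℓ ε 0 * (ℓ ^ n) ^ 2) (β 0 * L ^ n) := by
  have hN : (0 : ℝ) ≤ N := Nat.cast_nonneg N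
  have hLpos : 0 < L := Fact.out
  have hV : (0 : ℝ) < L ^ n := by positivity
  haveI hsep := sep_tor n L
  have main : ∀ j, j ≤ J → ∀ q : ℕ, q = 2 ^ (J - j) →
      HasEns3 volume (en μ K v) (hf n L (2 ^ j * ℓ) q) N ((1 - pp j) * N) E
        (r3 n ℓ ε j * ((2 ^ j * ℓ) ^ n) ^ 2) (β j * L ^ n) := by
    intro j hjJ
    refine Nat.decreasingInduction' (P := fun j => ∀ q : ℕ, q = 2 ^ (J - j) →
      HasEns3 volume (en μ K v) (hf n L (2 ^ j * ℓ) q) N ((1 - pp j) * N) E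
        (r3 n ℓ ε j * ((2 ^ j * ℓ) ^ n) ^ 2) (β j * L ^ n)) ?_ hjJ ?_
    · intro j hjJ _ ih q hq
      have hjJ' : j ≤ J := hjJ.le
      set m : ℕ := 2 ^ (J - (j + 1)) with hm
      have hm1 : 1 ≤ m := Nat.one_le_two_pow
      have hq2 : q = 2 * m := by
        rw [hq, hm, ← pow_succ']
        congr 1
        omega
      subst hq2
      set ℓj : ℝ := 2 ^ j * ℓ with hℓj
      have hℓj0 : 0 < ℓj := by positivity
      have h2ℓ : 2 ^ (j + 1) * ℓ = 2 * ℓj := by rw [hℓj, pow_succ]; ring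
      have hLj : L = (2 * m : ℕ) * ℓj := by
        rw [hL, hℓj, hm]
        push_cast
        rw [← pow_succ', ← mul_assoc, ← pow_add]
        congr 2
        omega
      have hLm : L = m * (2 * ℓj) := by rw [hLj]; push_cast; ring
      obtain ⟨h, h0, h1, h2⟩ := hR n L ℓj m hm1 hLj
      obtain ⟨a1, a2, a3, a4, -⟩ := hH n L ℓj (2 * m) (by omega) hLj
      obtain ⟨b1, b2, b3, b4, -⟩ := hH n L (2 * ℓj) m hm1 hLm
      obtain ⟨w0, w1⟩ := hε j hjJ'
      obtain ⟨g0, g1⟩ := hg (j + 1) (by omega) hjJ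
      rw [h2ℓ] at g1
      have hMp : (0 : ℝ) < ℓj ^ n := by positivity
      have hM'p : (0 : ℝ) < (2 * ℓj) ^ n := by positivity
      have aub : ∀ i : Fin n → Fin (2 * m), ∃ C : ℝ, ∀ x, |hf n L ℓj (2 * m) i x| ≤ C := fun i =>
        ⟨1, fun x => by
          have := a2 (fun c => (i c : ℕ)) x
          rw [hf, abs_of_nonneg this.1]
          exact this.2⟩
      obtain ⟨A, hA, W, c, hfrm⟩ := hF (Tor n L) volume (Fin n → Fin (2 * m))
        (hf n L ℓj (2 * m)) (ℓj ^ n) hMp (fun i => a1 _) (fun i x => (a2 _ x).1) a3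
        (fun i => a4 _)
      have hins := loss_of_frm (by positivity) hfrm (fun i => a1 _) aub w0 w1
      have hdia := hD n L μ K v (Fin n → Fin m) (hf n L (2 * ℓj) m) (g (j + 1)) hK hv g0.le
        (fun i => b1 _) (fun i x => (b2 _ x).1) (fun i x => (b2 _ x).2)
        (hG n L (2 * ℓj) m K (g (j + 1)) hm1 hLm hK g0.le g1)
      have hde := de3' (μ := μ) hTF hins w0.le hK hv
      have ih' := ih m hm
      rw [h2ℓ] at ih'
      obtain ⟨p0, p1⟩ := hpp (j + 1) hjJ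
      have hNlo0 : 0 ≤ (1 - pp (j + 1)) * N := mul_nonneg (by linarith) hN
      have hNlo1 : (1 - pp (j + 1)) * (N : ℝ) ≤ N :=
        mul_le_of_le_one_left hN (by linarith)
      have key := step3 volume (Fin n → Fin (2 * m)) (Fin n → Fin m) (en μ K v)
        (hf n L ℓj (2 * m)) (hf n L (2 * ℓj) m) h (ε j) (g (j + 1)) e Ca
        ((1 - pp (j + 1)) * N) E (6 * ℓj ^ n / ε j)
        (r3 n ℓ ε (j + 1) * ((2 * ℓj) ^ n) ^ 2) (β (j + 1) * L ^ n) N A _ _
        (fun i => a1 _) (fun i x => (a2 _ x).1) a3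
        (fun i => b1 _) (fun i x => (b2 _ x).1) (fun i x => (b2 _ x).2)
        h2 h0 h1 w0.le w1 g0 he0 hCa hNlo1 hE (mul_nonneg (hβ0 (j + 1) hjJ) hV.le) hNlo0
        hdia hlow hins hde ih'
      have hcI' : (Fintype.card (Fin n → Fin m) : ℝ) = L ^ n / (2 * ℓj) ^ n := by
        rw [Fintype.card_fun, Fintype.card_fin, Fintype.card_fin, eq_div_iff (by positivity)]
        push_cast
        rw [← mul_pow, ← hLm]
      have hcI : (Fintype.card (Fin n → Fin (2 * m)) : ℝ) = L ^ n / ℓj ^ n := by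
        rw [Fintype.card_fun, Fintype.card_fin, Fintype.card_fin, eq_div_iff (by positivity)]
        rw [Nat.cast_pow, ← mul_pow, ← hLj]
      rw [hcI, hcI'] at key
      have hpj := hpp' j hjJ
      have hNN : (1 - pp j) * (N : ℝ) ≤ (1 - ε j) * ((1 - pp (j + 1)) * N) := by
        rw [← mul_assoc]
        refine mul_le_mul_of_nonneg_right ?_ hN
        have := mul_nonneg w0.le p0
        linarith only [this, hpj]
      refine key.mono hNN le_rfl ?_ ?_
      · rw [r3_mul n ℓ hℓ ε j w0]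
      · have e1 : L ^ n / (2 * ℓj) ^ n * √(r3 n ℓ ε (j + 1) * ((2 * ℓj) ^ n) ^ 2) =
            √(r3 n ℓ ε (j + 1)) * L ^ n := by
          rw [Real.sqrt_mul' _ (by positivity), Real.sqrt_sq hM'p.le]
          field_simp
        have e2 : L ^ n / ℓj ^ n * √(6 * ℓj ^ n / ε j) = √(r3 n ℓ ε j) * L ^ n := by
          rw [hℓj, ← r3_mul n ℓ hℓ ε j w0, ← hℓj, Real.sqrt_mul' _ (by positivity),
            Real.sqrt_sq hMp.le]
          field_simp
        have e3 : √(L ^ n / (2 * ℓj) ^ n * (E + Ca * (N - (1 - ε j) * ((1 - pp (j + 1)) * N)) -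
              e) / g (j + 1)) ≤
            √((tol + Ca * (N / L ^ n) * pp j) / ((2 ^ (j + 1) * ℓ) ^ n * g (j + 1))) * L ^ n := by
          have hsq : ∀ y : ℝ, √y * L ^ n = √(y * (L ^ n) ^ 2) := fun y => by
            rw [Real.sqrt_mul' _ (by positivity), Real.sqrt_sq hV.le]
          rw [hsq]
          apply Real.sqrt_le_sqrt
          have h4 : Ca * (N - (1 - ε j) * ((1 - pp (j + 1)) * N)) ≤
              Ca * (N / L ^ n) * pp j * L ^ n := by
            have h5 : (N : ℝ) - (1 - ε j) * ((1 - pp (j + 1)) * N) ≤ N * pp j := by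
              linarith only [hNN]
            calc _ ≤ Ca * (N * pp j) := mul_le_mul_of_nonneg_left h5 hCa
              _ = _ := by field_simp
          have h5 : E + Ca * (N - (1 - ε j) * ((1 - pp (j + 1)) * N)) - e ≤
              (tol + Ca * (N / L ^ n) * pp j) * L ^ n := by
            linarith only [h4, htolE]
          rw [h2ℓ]
          calc L ^ n / (2 * ℓj) ^ n * (E + Ca * (N - (1 - ε j) * ((1 - pp (j + 1)) * N)) - e) /
                g (j + 1)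
              ≤ L ^ n / (2 * ℓj) ^ n * ((tol + Ca * (N / L ^ n) * pp j) * L ^ n) / g (j + 1) := by
                gcongr
            _ = (tol + Ca * (N / L ^ n) * pp j) / ((2 * ℓj) ^ n * g (j + 1)) * (L ^ n) ^ 2 := by
                field_simp
        rw [e1, e2]
        have := mul_le_mul_of_nonneg_right (hβ' j hjJ) hV.le
        linarith only [this, e3]
    · intro q hq
      rw [Nat.sub_self, pow_zero] at hq
      subst hq
      have hLJ : L = (1 : ℕ) * (2 ^ J * ℓ) := by rw [hL]; push_cast; ring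
      rw [← hL]
      obtain ⟨a1, a2, a3, a4, a5⟩ := hH n L L 1 le_rfl (by push_cast; ring)
      obtain ⟨w0, w1⟩ := hε J le_rfl
      have aub : ∀ i : Fin n → Fin 1, ∃ C : ℝ, ∀ x, |hf n L L 1 i x| ≤ C := fun i =>
        ⟨1, fun x => by
          have := a2 (fun c => (i c : ℕ)) x
          rw [hf, abs_of_nonneg this.1]
          exact this.2⟩
      obtain ⟨A, hA, W, c, hfrm⟩ := hF (Tor n L) volume (Fin n → Fin 1) (hf n L L 1)
        (L ^ n) hV (fun i => a1 _) (fun i x => (a2 _ x).1) a3 (fun i => a4 _)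
      have hins := loss_of_frm (by positivity) hfrm (fun i => a1 _) aub w0 w1
      have hde := de3' (μ := μ) hTF hins w0.le hK hv
      have hc : Fintype.card (Fin n → Fin 1) = 1 := by simp
      have key := base3 volume (Fin n → Fin 1) (en μ K v) (hf n L L 1) (ε J) E Q
        (6 * L ^ n / ε J) N A _ _ ψ hc (fun i x => a5 rfl _ x) w0.le w1 hψ hψs hψ1 hψN hψE hψQ
        hins hde
      refine key.mono ?_ le_rfl ?_ ?_
      · refine mul_le_mul_of_nonneg_right ?_ hN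
        linarith only [hppJ]
      · have := r3_mul n ℓ hℓ ε J w0
        rw [← hL] at this
        rw [this]
      · have := r3_mul n ℓ hℓ ε J w0
        rw [← hL] at this
        rw [← this, Real.sqrt_mul' _ (by positivity), Real.sqrt_sq hV.le]
        exact hβ
  have := main 0 (Nat.zero_le _) (2 ^ J) (by simp)
  simpa using this

end

end Pool.Agent.Y656
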