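import Pool.Agent.TH268.CC.All

/-!
# The chain of scales with geometric parameters: the ensemble at the smallest scale
-/

set_option autoImplicit false

open MeasureTheory
open scoped ENNReal

namespace Pool.Agent.Y656

open Pool.Agent.W761.CB Pool.Agent.TH268.CC

noncomputable section

theorem core2E (hS : S_STEP2) (hB : S_BASE2) (hM : S_MOM) (hH : S_HAT) (hR : S_REF)
    (hSM : S_SM) (hG : S_GK) (hD : S_DIA) (hDE : S_DE) (hTF : S_TF)
    {n J : ℕ} {L ℓ : ℝ} [Fact (0 < L)] (hℓ : 0 < ℓ) (hL : L = 2 ^ J * ℓ) {μ : ℝ≥0∞}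
    {K : (Fin n → ℝ) → ℝ≥0∞} {v : ℝ → ℝ≥0∞} (hK : Measurable K) (hv : Measurable v) {v₁ : ℝ}
    (hv0 : 0 ≤ v₁) (hv1 : ∫⁻ z : Fin n → ℝ, v (el z) ≤ ENNReal.ofReal v₁)
    {e E Q tol Ca : ℝ} {N : ℕ} (he0 : 0 ≤ e) (hE : 0 ≤ E) (hQ : 0 ≤ Q)
    (htol : 0 ≤ tol) (hCa : 0 ≤ Ca) (htolE : E - e ≤ tol * L ^ n)
    {ψ : Multiset (Tor n L) → ℂ} (hψ : EB ψ) (hψs : ∀ S, Multiset.card S ≠ N → ψ S = 0)
    (hψ1 : nE volume ψ = 1)
    (hψN : nuE volume ψ = ENNReal.ofReal N) (hψE : en μ K v ψ ≤ ENNReal.ofReal E)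
    (hψQ : nE volume (ag volume (fun _ => 1) ψ) ≤ ENNReal.ofReal Q)
    (hlow : ∀ F : Multiset (Tor n L) → ℂ, EB F → ENNReal.ofReal e * nE volume F ≤
      en μ K v F + ENNReal.ofReal Ca * dm volume N F)
    {σ Γ X : ℝ} (hΓ : 0 < Γ) (hX0 : 0 ≤ X) (hσ : 0 < σ)
    (hg : ∀ j : ℕ, 0 < j → j ≤ J → ∀ z : Fin n → ℝ, (∀ c, |z c| ≤ 2 * (2 ^ j * ℓ)) →
      ENNReal.ofReal (Γ * (2 : ℝ) ^ (-((n + σ) * j))) ≤ K z)
    (hX : ∀ j : ℕ, j ≤ J → μ * (∑ c : Fin n, ⨆ k : ℕ, 4 ^ k *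
        ENNReal.ofReal (sm n (2 ^ j * ℓ) (Pi.single c ((2 : ℝ)⁻¹ ^ k)))) +
      2⁻¹ * ∫⁻ z, K z * ENNReal.ofReal (sm n (2 ^ j * ℓ) z) ≤ ENNReal.ofReal X)
    {ns : ℝ} (hns : N ≤ ns * L ^ n) (hCas : Ca ≤ ns * v₁)
    {ω0 lam mu ρ : ℝ} (hω0 : 0 < ω0) (hlam0 : 0 < lam) (hlm : lam ≤ mu) (hmu : mu < 1)
    (hρ : 0 ≤ ρ) (hmuρ : mu = ρ ^ 2) (hlam2 : lam * ((2 : ℝ) ^ n) ^ 2 * mu = 1)
    (hlams : (2 : ℝ) ^ σ * lam ≤ mu) (hlamn : lam * (2 : ℝ) ^ n = (2 : ℝ) ^ (-σ))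
    {ξ : ℝ} (hξ : ξ = 1 / (ω0 * (ℓ ^ n) ^ 2))
    {N1 A1 es H T q a2 : ℝ} (hN1 : N1 = ns + ω0 / (1 - lam))
    (hA1 : A1 = (2 + √(7 / (1 - lam))) * v₁ * N1 + 25 * ω0 * v₁ + X)
    (hes : es = ω0 * A1 / (1 - lam))
    (hHdef : H = √(2 * (ξ + ω0)) + √(ξ + ω0) + √((2 : ℝ) ^ σ * es / (ℓ ^ n * Γ)))
    (ha2 : a2 = (4 * N1 + 1 / ℓ ^ n) / (1 - (2 : ℝ) ^ (-σ)))
    (hT : T = tol * (2 : ℝ) ^ (σ * J) / (ℓ ^ n * Γ) +
      Ca * √(a2 * ω0) * (2 : ℝ) ^ σ / (ℓ ^ n * Γ) * (2 : ℝ) ^ (-((n - σ) / 2 * J)))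
    (hq : q = (2 : ℝ) ^ (-σ / 4)) :
    HasEns volume (en μ K v) (hf n L ℓ (2 ^ J)) N (N1 * L ^ n) (E + es * L ^ n)
      ((ξ + ω0) * (ℓ ^ n) ^ 2) ((√(Q / (L ^ n) ^ 2) + H / (1 - ρ) + √T / (1 - q)) * L ^ n) := by
  have hN : (0 : ℝ) ≤ N := Nat.cast_nonneg N
  have hLpos : 0 < L := Fact.out
  have hV : (0 : ℝ) < L ^ n := by positivity
  have hM0 : (0 : ℝ) < ℓ ^ n := by positivity
  have hmu0 : 0 < mu := lt_of_lt_of_le hlam0 hlm
  have hlam1 : lam < 1 := lt_of_le_of_lt hlm hmu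
  have h1l : 0 < 1 - lam := by linarith
  have hξ0 : 0 < ξ := by rw [hξ]; positivity
  have hρ1 : ρ < 1 := by
    by_contra h
    have : 1 ≤ ρ ^ 2 := one_le_pow₀ (not_lt.1 h)
    linarith
  have h1ρ : 0 < 1 - ρ := by linarith
  have hq0 : 0 < q := by rw [hq]; positivity
  have hq1 : q < 1 := by
    rw [hq]
    exact Real.rpow_lt_one_of_one_lt_of_neg (by norm_num) (by linarith)
  have h1q : 0 < 1 - q := by linarith
  have hns0 : 0 ≤ ns := by
    have : 0 ≤ ns * L ^ n := hN.trans hns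
    exact nonneg_of_mul_nonneg_left this hV
  have hN10 : 0 ≤ N1 := by rw [hN1]; positivity
  have hA10 : 0 ≤ A1 := by rw [hA1]; positivity
  have hes0 : 0 ≤ es := by rw [hes]; positivity
  set r2 : ℝ := (2 : ℝ) ^ (-σ) with hr2
  have hr20 : 0 < r2 := by positivity
  have hr21 : r2 < 1 := Real.rpow_lt_one_of_one_lt_of_neg (by norm_num) (by linarith)
  have h1r2 : 0 < 1 - r2 := by linarith
  have ha20 : 0 ≤ a2 := by rw [ha2]; positivity
  set s7 : ℝ := √(7 / (1 - lam)) with hs7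
  have hs70 : 0 ≤ s7 := Real.sqrt_nonneg _
  set A0 : ℝ := 2 * v₁ * N1 + 25 * ω0 * v₁ + X with hA0
  have hA00 : 0 ≤ A0 := by positivity
  have hA01 : A1 = A0 + s7 * v₁ * N1 := by rw [hA1, hA0]; ring
  set es0 : ℝ := ω0 * A0 / (1 - lam) with hes00
  have hes000 : 0 ≤ es0 := by positivity
  have hes1 : es = es0 + ω0 * (s7 * v₁ * N1) / (1 - lam) := by
    rw [hes, hes00, hA01]; ring
  have hesle : es0 + Ca * (s7 * ω0) ≤ es := by
    rw [hes1]
    have h1 : Ca ≤ v₁ * N1 := by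
      refine hCas.trans ?_
      rw [mul_comm]
      refine mul_le_mul_of_nonneg_left ?_ hv0
      rw [hN1]
      have : 0 ≤ ω0 / (1 - lam) := by positivity
      linarith
    have h2 : ω0 * (s7 * v₁ * N1) ≤ ω0 * (s7 * v₁ * N1) / (1 - lam) := by
      rw [le_div_iff₀ h1l]
      have : 0 ≤ ω0 * (s7 * v₁ * N1) := by positivity
      have h9 := mul_nonneg this hlam0.le
      linarith only [h9]
    have h3 : Ca * (s7 * ω0) ≤ (v₁ * N1) * (s7 * ω0) := by gcongr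
    linarith
  have hT0 : 0 ≤ T := by rw [hT]; positivity
  have hH0 : 0 ≤ H := by rw [hHdef]; positivity
  have hlamm : ∀ m : ℕ, lam ^ m ≤ 1 := fun m => pow_le_one₀ hlam0.le hlam1.le
  have hlmm : ∀ m : ℕ, lam ^ m ≤ mu ^ m := fun m => pow_le_pow_left₀ hlam0.le hlm m
  -- the sequences
  set ω : ℕ → ℝ := fun j => ω0 * lam ^ j with hωdef
  set nn : ℕ → ℝ := fun j => ns + ω0 / (1 - lam) * lam ^ j with hndef
  set ee : ℕ → ℝ := fun j => es0 * lam ^ j with hedef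
  set vv : ℕ → ℝ := fun j => 7 / (1 - lam) * (ω j) ^ 2 * (L ^ n) ^ 2 +
    a2 * ω j * (2 ^ j * ℓ) ^ n * L ^ n with hvdef
  set dd : ℕ → ℝ := fun j => Ca * (s7 * ω j) + Ca * √(a2 * ω j * (2 ^ j * ℓ) ^ n / L ^ n)
    with hddef
  set b0 : ℝ := √(Q / (L ^ n) ^ 2) with hb0
  set β : ℕ → ℝ := fun j => b0 + H / (1 - ρ) * ρ ^ j + √T * ((1 - q ^ (J - j)) / (1 - q))
    with hβdef
  set g : ℕ → ℝ := fun j => Γ * (2 : ℝ) ^ (-((n + σ) * j)) with hgdef
  have hqm : ∀ m : ℕ, q ^ m ≤ 1 := fun m => pow_le_one₀ hq0.le hq1.le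
  have hrr : ∀ j, rr n ℓ ω j ≤ (ξ + ω0) * mu ^ j := by
    intro m
    have e1 : 1 / (ω0 * lam ^ m * ((2 ^ m * ℓ) ^ n) ^ 2) = ξ * mu ^ m := by
      rw [hξ]
      have h3 : (lam ^ m) * (((2:ℝ) ^ n) ^ m) ^ 2 * mu ^ m = 1 := by
        rw [← pow_mul, mul_comm m 2, pow_mul, ← mul_pow, ← mul_pow, hlam2, one_pow]
      have h4 : (lam ^ m) ≠ 0 := by positivity
      have h5 : mu ^ m ≠ 0 := by positivity
      have h6 : ((2:ℝ) ^ m * ℓ) ^ n = ((2:ℝ) ^ n) ^ m * ℓ ^ n := by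
        rw [mul_pow, ← pow_mul, mul_comm m n, pow_mul]
      rw [h6]
      field_simp
      linear_combination (-1 : ℝ) * h3
    unfold rr
    simp only [hωdef]
    rw [e1]
    have h3 := mul_le_mul_of_nonneg_left (hlmm m) hω0.le
    linarith only [h3]
  have hrr0 : ∀ j, √(rr n ℓ ω j) ≤ √(ξ + ω0) * ρ ^ j := by
    intro j
    rw [← sqrt_geo hρ hmuρ]
    exact Real.sqrt_le_sqrt (hrr j)
  have hωle : ∀ j, ω j ≤ ω0 := by
    intro j
    have := mul_le_mul_of_nonneg_left (hlamm j) hω0.le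
    simp only [hωdef]
    linarith
  have hωpos : ∀ j, 0 < ω j := fun j => by simp only [hωdef]; positivity
  have hMj : ∀ j : ℕ, (0 : ℝ) < (2 ^ j * ℓ) ^ n := fun j => by positivity
  have hMj1 : ∀ j : ℕ, 1 ≤ (2 ^ j * ℓ) ^ n * (1 / ℓ ^ n) := by
    intro j
    rw [mul_one_div, le_div_iff₀ hM0, one_mul]
    apply pow_le_pow_left₀ hℓ.le
    exact le_mul_of_one_le_left hℓ.le (one_le_pow₀ (by norm_num))
  have hvv0 : ∀ j, 0 ≤ vv j := fun j => by
    have := (hωpos j).le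
    simp only [hvdef]
    positivity
  have key := chain2 hS hB hM hH hR hSM hG hD hDE hTF hℓ hL hK hv hv0 hv1 he0 hE hQ hCa
    htolE hψ hψs hψ1 hψN hψE hψQ hlow ω nn ee β (fun _ => X) g vv dd
    (fun j _ => hωpos j) (fun j _ => by simp only [hndef]; positivity)
    (fun j _ => by simp only [hedef]; positivity)
    (fun j _ => by
      simp only [hβdef]
      have : 0 ≤ 1 - q ^ (J - j) := by linarith [hqm (J - j)]
      positivity)
    (fun j _ => hvv0 j) ?_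
    (fun j h0 h1 => ⟨by simp only [hgdef]; positivity, hg j h0 h1⟩)
    (fun j h1 => ⟨hX0, hX j h1⟩) ?_ ?_ ?_ ?_ ?_ ?_ ?_ ?_
  · have h5 := hrr 0
    rw [pow_zero, mul_one] at h5
    have h7 : β 0 ≤ b0 + H / (1 - ρ) + √T / (1 - q) := by
      simp only [hβdef, pow_zero, mul_one]
      have : √T * ((1 - q ^ (J - 0)) / (1 - q)) ≤ √T / (1 - q) := by
        rw [← mul_div_assoc]
        gcongr
        have : 0 ≤ q ^ (J - 0) := by positivity
        have h9 := mul_nonneg (Real.sqrt_nonneg T) this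
        linarith only [h9]
      linarith
    have h8 : ee 0 ≤ es := by
      simp only [hedef, pow_zero, mul_one]
      have : 0 ≤ Ca * (s7 * ω0) := by positivity
      linarith
    refine key.toHas.mono ?_ ?_ ?_ ?_ ?_
    · exact le_rfl
    · apply le_of_eq
      simp only [hndef, hN1, pow_zero, mul_one]
    · gcongr
    · gcongr
    · gcongr
  · -- hdd
    intro j _
    have w0 := (hωpos j).le
    simp only [hvdef, hddef]
    have h1 : √(7 / (1 - lam) * ω j ^ 2 * (L ^ n) ^ 2 + a2 * ω j * (2 ^ j * ℓ) ^ n * L ^ n) ≤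
        s7 * ω j * L ^ n + √(a2 * ω j * (2 ^ j * ℓ) ^ n / L ^ n) * L ^ n := by
      refine (sqrt_add_le' (by positivity) (by positivity)).trans (le_of_eq ?_)
      congr 1
      · rw [show 7 / (1 - lam) * ω j ^ 2 * (L ^ n) ^ 2 = 7 / (1 - lam) * (ω j * L ^ n) ^ 2 by ring,
          Real.sqrt_mul' _ (by positivity), Real.sqrt_sq (by positivity), hs7]
        ring
      · rw [show a2 * ω j * (2 ^ j * ℓ) ^ n * L ^ n =
            a2 * ω j * (2 ^ j * ℓ) ^ n / L ^ n * (L ^ n) ^ 2 by field_simp,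
          Real.sqrt_mul' _ (by positivity), Real.sqrt_sq (by positivity)]
    refine (mul_le_mul_of_nonneg_left h1 hCa).trans (le_of_eq ?_)
    ring
  · -- hn
    have h3 : ω J ≤ ω0 / (1 - lam) * lam ^ J := by
      simp only [hωdef]
      apply mul_le_mul_of_nonneg_right _ (by positivity)
      rw [le_div_iff₀ h1l]
      have h9 := mul_nonneg hω0.le hlam0.le
      linarith only [h9]
    have := mul_le_mul_of_nonneg_right h3 hV.le
    simp only [hndef]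
    linarith
  · -- he
    have hnN : (N : ℝ) ≤ N1 * L ^ n := by
      refine hns.trans (mul_le_mul_of_nonneg_right ?_ hV.le)
      rw [hN1]
      have : 0 ≤ ω0 / (1 - lam) := by positivity
      linarith
    have w0 := (hωpos J).le
    have a1 : 2 * ω J * v₁ * N ≤ 2 * ω J * v₁ * (N1 * L ^ n) :=
      mul_le_mul_of_nonneg_left hnN (by positivity)
    have a2 : (25 * ω J ^ 2 * v₁ + ω J * X) * L ^ n ≤
        (25 * (ω J * ω0) * v₁ + ω J * X) * L ^ n := by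
      have : ω J ^ 2 ≤ ω J * ω0 := by rw [sq]; exact mul_le_mul_of_nonneg_left (hωle J) w0
      gcongr
    have a3 : ω J * A0 ≤ ee J := by
      simp only [hωdef, hedef, hes00]
      have : ω0 * lam ^ J * A0 ≤ ω0 * lam ^ J * A0 / (1 - lam) := by
        rw [le_div_iff₀ h1l]
        have : 0 ≤ ω0 * lam ^ J * A0 := by positivity
        have h9 := mul_nonneg this hlam0.le
        linarith only [h9]
      calc ω0 * lam ^ J * A0 ≤ ω0 * lam ^ J * A0 / (1 - lam) := this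
        _ = ω0 * A0 / (1 - lam) * lam ^ J := by ring
    have a5 := mul_le_mul_of_nonneg_right a3 hV.le
    have a7 : ω J * A0 * L ^ n = 2 * ω J * v₁ * (N1 * L ^ n) +
        (25 * (ω J * ω0) * v₁ + ω J * X) * L ^ n := by
      rw [hA0]; ring
    linarith
  · -- hβ
    have h1 : √(Q + ω J * (L ^ n) ^ 2) ≤ (b0 + √(ω J)) * L ^ n := by
      have h2 : Q + ω J * (L ^ n) ^ 2 = (Q / (L ^ n) ^ 2 + ω J) * (L ^ n) ^ 2 := by
        field_simp
      rw [h2, Real.sqrt_mul' _ (by positivity), Real.sqrt_sq hV.le]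
      apply mul_le_mul_of_nonneg_right _ hV.le
      exact sqrt_add_le' (by positivity) (hωpos J).le
    have h3 : √(ω J) ≤ √(2 * (ξ + ω0)) * ρ ^ J := by
      rw [← sqrt_geo hρ hmuρ]
      apply Real.sqrt_le_sqrt
      simp only [hωdef]
      have := mul_le_mul_of_nonneg_left (hlmm J) hω0.le
      have h4 : 0 ≤ ξ * mu ^ J := by positivity
      have h5 : 0 ≤ ω0 * mu ^ J := by positivity
      linarith only [this, h4, h5]
    have h4 := hrr0 J
    have h5 : H * ρ ^ J ≤ H / (1 - ρ) * ρ ^ J := by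
      apply mul_le_mul_of_nonneg_right _ (by positivity)
      rw [le_div_iff₀ h1ρ]
      have h9 := mul_nonneg hH0 hρ
      linarith only [h9]
    have h6 : (√(2 * (ξ + ω0)) + √(ξ + ω0)) * ρ ^ J ≤ H * ρ ^ J := by
      apply mul_le_mul_of_nonneg_right _ (by positivity)
      rw [hHdef]
      have := Real.sqrt_nonneg ((2 : ℝ) ^ σ * es / (ℓ ^ n * Γ))
      linarith
    have h7 : b0 + √(ω J) + √(rr n ℓ ω J) ≤ β J := by
      simp only [hβdef, Nat.sub_self, pow_zero, sub_self, zero_div, mul_zero, add_zero]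
      linarith only [h3, h4, h5, h6]
    have h8 := mul_le_mul_of_nonneg_right h7 hV.le
    linarith
  · -- hvv
    have w0 := (hωpos J).le
    have hnN : (N : ℝ) ≤ N1 * L ^ n := by
      refine hns.trans (mul_le_mul_of_nonneg_right ?_ hV.le)
      rw [hN1]
      have : 0 ≤ ω0 / (1 - lam) := by positivity
      linarith
    have hLJ : (2 ^ J * ℓ) ^ n = L ^ n := by rw [hL]
    have h1 : 1 ≤ L ^ n * (1 / ℓ ^ n) := by
      have := hMj1 J
      rwa [hLJ] at this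
    have h2 : 4 * N1 + 1 / ℓ ^ n ≤ a2 := by
      rw [ha2, le_div_iff₀ h1r2]
      have : 0 ≤ 4 * N1 + 1 / ℓ ^ n := by positivity
      have h9 := mul_nonneg this hr20.le
      linarith only [h9]
    have h3 : (7 : ℝ) ≤ 7 / (1 - lam) := by
      rw [le_div_iff₀ h1l]
      linarith
    simp only [hvdef]
    rw [hLJ]
    have c1 : 4 * ω J * L ^ n * N ≤ 4 * ω J * L ^ n * (N1 * L ^ n) := by gcongr
    have c2 : ω J * L ^ n * 1 ≤ ω J * L ^ n * (L ^ n * (1 / ℓ ^ n)) := by gcongr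
    have c3 : 7 * ω J ^ 2 * (L ^ n) ^ 2 ≤ 7 / (1 - lam) * ω J ^ 2 * (L ^ n) ^ 2 := by gcongr
    have c4 : (4 * N1 + 1 / ℓ ^ n) * (ω J * L ^ n * L ^ n) ≤ a2 * (ω J * L ^ n * L ^ n) := by
      gcongr
    linarith only [c1, c2, c3, c4]
  · -- hn'
    intro m _
    simp only [hndef, hωdef]
    have e1 : ω0 / (1 - lam) * lam ^ m = ω0 * lam ^ m + ω0 / (1 - lam) * lam ^ (m + 1) := by
      field_simp
      ring
    linarith
  · -- hvv'
    intro m _
    have w0 := (hωpos m).le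
    have hω1 : ω (m + 1) = lam * ω m := by simp only [hωdef]; ring
    have hnle : nn (m + 1) ≤ N1 := by
      simp only [hndef, hN1]
      have : ω0 / (1 - lam) * lam ^ (m + 1) ≤ ω0 / (1 - lam) * 1 :=
        mul_le_mul_of_nonneg_left (hlamm _) (by positivity)
      linarith
    have hM1 : ((2 : ℝ) ^ (m + 1) * ℓ) ^ n = 2 ^ n * (2 ^ m * ℓ) ^ n := by
      rw [pow_succ', mul_assoc, mul_pow]
    have d1 : a2 * ω (m + 1) * (2 ^ (m + 1) * ℓ) ^ n * L ^ n =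
        r2 * (a2 * ω m * (2 ^ m * ℓ) ^ n * L ^ n) := by
      rw [hω1, hM1, ← hlamn]
      ring
    have d2 : 7 / (1 - lam) * ω (m + 1) ^ 2 * (L ^ n) ^ 2 ≤
        lam * (7 / (1 - lam) * ω m ^ 2 * (L ^ n) ^ 2) := by
      rw [hω1]
      have h2 : lam * lam ≤ lam * 1 := mul_le_mul_of_nonneg_left hlam1.le hlam0.le
      have h3 : 0 ≤ 7 / (1 - lam) * ω m ^ 2 * (L ^ n) ^ 2 := by positivity
      have h4 := mul_le_mul_of_nonneg_right h2 h3
      calc 7 / (1 - lam) * (lam * ω m) ^ 2 * (L ^ n) ^ 2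
          = lam * lam * (7 / (1 - lam) * ω m ^ 2 * (L ^ n) ^ 2) := by ring
        _ ≤ lam * 1 * (7 / (1 - lam) * ω m ^ 2 * (L ^ n) ^ 2) := h4
        _ = _ := by ring
    have d3 : 7 * ω m ^ 2 * (L ^ n) ^ 2 = (1 - lam) * (7 / (1 - lam) * ω m ^ 2 * (L ^ n) ^ 2) := by
      field_simp
    have d4 : 4 * ω m * (2 ^ m * ℓ) ^ n * (nn (m + 1) * L ^ n) ≤
        4 * ω m * (2 ^ m * ℓ) ^ n * (N1 * L ^ n) := by
      have := hMj m
      gcongr
    have d5 : ω m * L ^ n * 1 ≤ ω m * L ^ n * ((2 ^ m * ℓ) ^ n * (1 / ℓ ^ n)) := by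
      have := hMj1 m
      gcongr
    have d6 : (4 * N1 + 1 / ℓ ^ n) * (ω m * (2 ^ m * ℓ) ^ n * L ^ n) =
        (1 - r2) * (a2 * ω m * (2 ^ m * ℓ) ^ n * L ^ n) := by
      rw [ha2]
      field_simp
    simp only [hvdef]
    rw [d1]
    linarith only [d2, d3, d4, d5, d6]
  · -- he'
    intro m _
    have hω' : ω m = ω0 * lam ^ m := rfl
    have w0 := (hωpos m).le
    have hnle : nn (m + 1) ≤ N1 := by
      simp only [hndef, hN1]
      have : ω0 / (1 - lam) * lam ^ (m + 1) ≤ ω0 / (1 - lam) * 1 :=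
        mul_le_mul_of_nonneg_left (hlamm _) (by positivity)
      linarith
    have hd : 2 * ω m * v₁ * nn (m + 1) + 25 * ω m ^ 2 * v₁ + ω m * X ≤ ω m * A0 := by
      have a1 : 2 * ω m * v₁ * nn (m + 1) ≤ 2 * ω m * v₁ * N1 :=
        mul_le_mul_of_nonneg_left hnle (by positivity)
      have a3 : 25 * ω m ^ 2 * v₁ ≤ 25 * (ω m * ω0) * v₁ := by
        have : ω m ^ 2 ≤ ω m * ω0 := by rw [sq]; exact mul_le_mul_of_nonneg_left (hωle m) w0
        gcongr
      rw [hA0]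
      linarith
    have he1 : ee m = ω m * A0 + ee (m + 1) := by
      simp only [hedef, hes00, hω']
      field_simp
      ring
    linarith
  · -- hβ'
    intro m hm
    have hω' : ω m = ω0 * lam ^ m := rfl
    have h1 : √(rr n ℓ ω (m + 1) + ω m) ≤ √(2 * (ξ + ω0)) * ρ ^ m := by
      rw [← sqrt_geo hρ hmuρ]
      apply Real.sqrt_le_sqrt
      have h2 := hrr (m + 1)
      have h3 : mu ^ (m + 1) ≤ mu ^ m := pow_le_pow_of_le_one hmu0.le hmu.le (by omega)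
      have h4 : (ξ + ω0) * mu ^ (m + 1) ≤ (ξ + ω0) * mu ^ m :=
        mul_le_mul_of_nonneg_left h3 (by positivity)
      have h5 := mul_le_mul_of_nonneg_left (hlmm m) hω0.le
      have h6 : 0 ≤ ξ * mu ^ m := by positivity
      rw [hω']
      linarith only [h2, h4, h5, h6]
    have h2 := hrr0 m
    have two : (0 : ℝ) < 2 := by norm_num
    have h3 : √((tol + ee m + dd m) / ((2 ^ (m + 1) * ℓ) ^ n * g (m + 1))) ≤
        √T * q ^ (J - (m + 1)) + √((2 : ℝ) ^ σ * es / (ℓ ^ n * Γ)) * ρ ^ m := by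
      have hden : (2 ^ (m + 1) * ℓ) ^ n * g (m + 1) =
          ℓ ^ n * Γ * (2 : ℝ) ^ (-(σ * (m + 1 : ℕ))) := by
        simp only [hgdef]
        have p1 : ((2 : ℝ) ^ (m + 1) * ℓ) ^ n = (2 : ℝ) ^ ((n : ℝ) * (m + 1 : ℕ)) * ℓ ^ n := by
          rw [mul_pow, ← pow_mul, ← Real.rpow_natCast]
          congr 2
          push_cast
          ring
        have p2 : (2 : ℝ) ^ (-(((n : ℝ) + σ) * (m + 1 : ℕ))) =
            (2 : ℝ) ^ (-((n : ℝ) * (m + 1 : ℕ))) * (2 : ℝ) ^ (-(σ * (m + 1 : ℕ))) := by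
          rw [← Real.rpow_add two]
          congr 1
          ring
        have p3 : (2 : ℝ) ^ ((n : ℝ) * (m + 1 : ℕ)) * (2 : ℝ) ^ (-((n : ℝ) * (m + 1 : ℕ))) = 1 := by
          rw [← Real.rpow_add two]
          simp
        rw [p1, p2]
        calc (2 : ℝ) ^ ((n : ℝ) * (m + 1 : ℕ)) * ℓ ^ n * (Γ * ((2 : ℝ) ^ (-((n : ℝ) * (m + 1 : ℕ))) *
              (2 : ℝ) ^ (-(σ * (m + 1 : ℕ)))))
            = ((2 : ℝ) ^ ((n : ℝ) * (m + 1 : ℕ)) * (2 : ℝ) ^ (-((n : ℝ) * (m + 1 : ℕ)))) *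
              (ℓ ^ n * Γ * (2 : ℝ) ^ (-(σ * (m + 1 : ℕ)))) := by ring
          _ = _ := by rw [p3, one_mul]
      have hp : (0 : ℝ) < (2 : ℝ) ^ (-(σ * (m + 1 : ℕ))) := by positivity
      have hden0 : 0 < ℓ ^ n * Γ * (2 : ℝ) ^ (-(σ * (m + 1 : ℕ))) := by positivity
      have hq2 : ∀ k : ℕ, (q ^ 2) ^ k = (2 : ℝ) ^ (-(σ / 2 * k)) := by
        intro k
        rw [hq, ← Real.rpow_natCast, ← Real.rpow_natCast, ← Real.rpow_mul two.le,
          ← Real.rpow_mul two.le]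
        congr 1
        push_cast
        ring
      have hcast : ((J - (m + 1) : ℕ) : ℝ) = J - (m + 1) := by
        rw [Nat.cast_sub (by omega)]
        push_cast
        ring
      have hsplit : (tol + ee m + dd m) / ((2 ^ (m + 1) * ℓ) ^ n * g (m + 1)) ≤
          T * (q ^ 2) ^ (J - (m + 1)) + ((2 : ℝ) ^ σ * es / (ℓ ^ n * Γ)) * mu ^ m := by
        rw [hden]
        have c1 : tol / (ℓ ^ n * Γ * (2 : ℝ) ^ (-(σ * (m + 1 : ℕ)))) ≤
            tol * (2 : ℝ) ^ (σ * J) / (ℓ ^ n * Γ) * (q ^ 2) ^ (J - (m + 1)) := by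
          rw [hq2, hcast, div_le_iff₀ hden0]
          have c3 : (1 : ℝ) ≤ (2 : ℝ) ^ (σ * J) * (2 : ℝ) ^ (-(σ / 2 * (J - (m + 1)))) *
              (2 : ℝ) ^ (-(σ * (m + 1 : ℕ))) := by
            rw [← Real.rpow_add two, ← Real.rpow_add two]
            apply Real.one_le_rpow (by norm_num)
            have hm1 : ((m : ℝ) + 1) ≤ J := by exact_mod_cast hm
            have hm2 : 0 ≤ σ / 2 * ((J : ℝ) - (m + 1)) := by
              have : 0 ≤ (J : ℝ) - (m + 1) := by linarith only [hm1]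
              positivity
            push_cast
            linarith only [hm2]
          have c4 : 0 < ℓ ^ n * Γ := by positivity
          calc tol = tol * 1 := (mul_one _).symm
            _ ≤ tol * ((2 : ℝ) ^ (σ * J) * (2 : ℝ) ^ (-(σ / 2 * (J - (m + 1)))) *
              (2 : ℝ) ^ (-(σ * (m + 1 : ℕ)))) := mul_le_mul_of_nonneg_left c3 htol
            _ = tol * (2 : ℝ) ^ (σ * J) / (ℓ ^ n * Γ) * (2 : ℝ) ^ (-(σ / 2 * (J - (m + 1)))) *
                (ℓ ^ n * Γ * (2 : ℝ) ^ (-(σ * (m + 1 : ℕ)))) := by field_simp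
        have c5 : (ee m + Ca * (s7 * ω m)) / (ℓ ^ n * Γ * (2 : ℝ) ^ (-(σ * (m + 1 : ℕ)))) ≤
            ((2 : ℝ) ^ σ * es / (ℓ ^ n * Γ)) * mu ^ m := by
          have c6 : (2 : ℝ) ^ (σ * (m : ℝ)) * lam ^ m ≤ mu ^ m := by
            rw [Real.rpow_mul two.le, Real.rpow_natCast, ← mul_pow]
            exact pow_le_pow_left₀ (by positivity) hlams m
          have c7 : (2 : ℝ) ^ σ * (2 : ℝ) ^ (σ * (m : ℝ)) * (2 : ℝ) ^ (-(σ * (m + 1 : ℕ))) = 1 := by
            rw [← Real.rpow_add two, ← Real.rpow_add two]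
            push_cast
            rw [show σ + σ * (m : ℝ) + -(σ * ((m : ℝ) + 1)) = 0 by ring, Real.rpow_zero]
          have c8 : ee m + Ca * (s7 * ω m) ≤ es * lam ^ m := by
            simp only [hedef, hω']
            have := mul_le_mul_of_nonneg_right hesle (pow_nonneg hlam0.le m)
            linarith only [this]
          rw [div_le_iff₀ hden0]
          have c9 : 0 ≤ (2 : ℝ) ^ σ * es / (ℓ ^ n * Γ) := by positivity
          calc ee m + Ca * (s7 * ω m) ≤ es * lam ^ m := c8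
            _ = es * lam ^ m *
                ((2 : ℝ) ^ σ * (2 : ℝ) ^ (σ * (m : ℝ)) * (2 : ℝ) ^ (-(σ * (m + 1 : ℕ)))) := by
                rw [c7, mul_one]
            _ = (2 : ℝ) ^ σ * es / (ℓ ^ n * Γ) * ((2 : ℝ) ^ (σ * (m : ℝ)) * lam ^ m) *
                (ℓ ^ n * Γ * (2 : ℝ) ^ (-(σ * (m + 1 : ℕ)))) := by field_simp
            _ ≤ (2 : ℝ) ^ σ * es / (ℓ ^ n * Γ) * mu ^ m *
                (ℓ ^ n * Γ * (2 : ℝ) ^ (-(σ * (m + 1 : ℕ)))) := by gcongr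
        have c10 : Ca * √(a2 * ω m * (2 ^ m * ℓ) ^ n / L ^ n) /
            (ℓ ^ n * Γ * (2 : ℝ) ^ (-(σ * (m + 1 : ℕ)))) ≤
            Ca * √(a2 * ω0) * (2 : ℝ) ^ σ / (ℓ ^ n * Γ) * (2 : ℝ) ^ (-((n - σ) / 2 * J)) *
              (q ^ 2) ^ (J - (m + 1)) := by
          rw [hq2, hcast, div_le_iff₀ hden0]
          have e1 : a2 * ω m * (2 ^ m * ℓ) ^ n / L ^ n =
              a2 * ω0 * ((2 : ℝ) ^ (-(σ * m + n * J) / 2)) ^ 2 := by
            have f1 : ((2 : ℝ) ^ (-(σ * m + n * J) / 2)) ^ 2 =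
                (2 : ℝ) ^ (-σ * m) * (2 : ℝ) ^ (-(n * J : ℝ)) := by
              rw [← Real.rpow_natCast, ← Real.rpow_mul two.le, ← Real.rpow_add two]
              congr 1
              push_cast
              ring
            have f2 : (2 : ℝ) ^ (-σ * m) = lam ^ m * ((2 : ℝ) ^ n) ^ m := by
              rw [Real.rpow_mul two.le, Real.rpow_natCast, ← mul_pow, hlamn]
            have f3 : (2 : ℝ) ^ (-(n * J : ℝ)) * L ^ n = ℓ ^ n := by
              rw [hL, mul_pow, ← mul_assoc, ← Real.rpow_natCast (2 ^ J) n,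
                ← Real.rpow_natCast 2 J, ← Real.rpow_mul two.le, ← Real.rpow_add two,
                show -(n * J : ℝ) + J * n = 0 by ring, Real.rpow_zero, one_mul]
            have f4 : ((2 : ℝ) ^ m * ℓ) ^ n = ((2 : ℝ) ^ n) ^ m * ℓ ^ n := by
              rw [mul_pow, ← pow_mul, ← pow_mul, mul_comm m n]
            rw [f1, f2, div_eq_iff hV.ne', hω', f4]
            calc a2 * (ω0 * lam ^ m) * (((2 : ℝ) ^ n) ^ m * ℓ ^ n)
                = a2 * (ω0 * lam ^ m) * (((2 : ℝ) ^ n) ^ m * ((2 : ℝ) ^ (-(n * J : ℝ)) * L ^ n)) := by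
                  rw [f3]
              _ = _ := by ring
          rw [e1, Real.sqrt_mul' _ (by positivity), Real.sqrt_sq (by positivity)]
          have e2 : (2 : ℝ) ^ (-(σ * m + n * J) / 2) ≤ (2 : ℝ) ^ σ *
              (2 : ℝ) ^ (-((n - σ) / 2 * J)) * (2 : ℝ) ^ (-(σ / 2 * (J - (m + 1)))) *
              (2 : ℝ) ^ (-(σ * (m + 1 : ℕ))) := by
            rw [← Real.rpow_add two, ← Real.rpow_add two, ← Real.rpow_add two]
            apply Real.rpow_le_rpow_of_exponent_le (by norm_num)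
            push_cast
            linarith
          have e3 : 0 ≤ Ca * √(a2 * ω0) := by positivity
          calc Ca * (√(a2 * ω0) * (2 : ℝ) ^ (-(σ * m + n * J) / 2))
              = Ca * √(a2 * ω0) * (2 : ℝ) ^ (-(σ * m + n * J) / 2) := by ring
            _ ≤ Ca * √(a2 * ω0) * ((2 : ℝ) ^ σ *
              (2 : ℝ) ^ (-((n - σ) / 2 * J)) * (2 : ℝ) ^ (-(σ / 2 * (J - (m + 1)))) *
              (2 : ℝ) ^ (-(σ * (m + 1 : ℕ)))) := mul_le_mul_of_nonneg_left e2 e3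
            _ = _ := by field_simp
        have c11 : tol + ee m + dd m = tol + (ee m + Ca * (s7 * ω m)) +
            Ca * √(a2 * ω m * (2 ^ m * ℓ) ^ n / L ^ n) := by
          simp only [hddef]
          ring
        rw [c11, add_div, add_div, hT]
        have c12 := add_le_add (add_le_add c1 c5) c10
        refine c12.trans (le_of_eq ?_)
        ring
      refine (Real.sqrt_le_sqrt hsplit).trans ?_
      refine (sqrt_add_le' (by positivity) (by positivity)).trans ?_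
      rw [sqrt_geo hq0.le rfl, sqrt_geo hρ hmuρ]
    have h4 : β m = H * ρ ^ m + √T * q ^ (J - (m + 1)) + β (m + 1) := by
      simp only [hβdef]
      obtain ⟨d, rfl⟩ : ∃ d, J = m + 1 + d := ⟨J - (m + 1), by omega⟩
      rw [show m + 1 + d - (m + 1) = d by omega, show m + 1 + d - m = d + 1 by omega]
      field_simp
      ring
    rw [h4]
    have h5 : H * ρ ^ m = √(2 * (ξ + ω0)) * ρ ^ m + √(ξ + ω0) * ρ ^ m +
        √((2 : ℝ) ^ σ * es / (ℓ ^ n * Γ)) * ρ ^ m := by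
      rw [hHdef]; ring
    rw [h5]
    linarith

end

end Pool.Agent.Y656
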