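import Pool.Agent.Y656.Chain3
import Pool.Agent.W761.CB.Core

/-!
# The chain of scales with geometric parameters
-/

set_option autoImplicit false

open MeasureTheory
open scoped ENNReal

namespace Pool.Agent.Y656

open Pool.Agent.W761.CB Pool.Agent.TH268.CC

noncomputable section

theorem core3 (hF : S_FRM) (hBOT : S_BOT) (hH : S_HAT) (hR : S_REF) (hG : S_GK) (hD : S_DIA)
    (hTF : S_TF)
    {n J : ℕ} {L ℓ : ℝ} [Fact (0 < L)] (hℓ : 0 < ℓ) (hL : L = 2 ^ J * ℓ) {μ : ℝ≥0∞}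
    {K : (Fin n → ℝ) → ℝ≥0∞} {v : ℝ → ℝ≥0∞} (hK : Measurable K) (hv : Measurable v)
    {e E Q tol Ca : ℝ} {N : ℕ} (he0 : 0 ≤ e) (hE : 0 ≤ E) (hQ : 0 ≤ Q)
    (htol : 0 ≤ tol) (hCa : 0 ≤ Ca) (htolE : E - e ≤ tol * L ^ n)
    {ψ : Multiset (Tor n L) → ℂ} (hψ : EB ψ) (hψs : ∀ S, N < Multiset.card S → ψ S = 0)
    (hψ1 : nE volume ψ = 1)
    (hψN : nuE volume ψ = ENNReal.ofReal N) (hψE : en μ K v ψ ≤ ENNReal.ofReal E)
    (hψQ : nE volume (ag volume (fun _ => 1) ψ) ≤ ENNReal.ofReal Q)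
    (hlow : ∀ F : Multiset (Tor n L) → ℂ, EB F → (∀ S, N < Multiset.card S → F S = 0) →
      ENNReal.ofReal e * nE volume F ≤ en μ K v F + ENNReal.ofReal Ca * dm volume N F)
    {P Tl K' : ℝ} (hP : 0 ≤ P) (hTl : 0 ≤ Tl) (hK' : 0 < K') (hKM : 1 ≤ K' * ℓ ^ n)
    (hcoh : ∀ F : Multiset (Tor n L) → ℂ, EB F → ENNReal.ofReal (ℓ ^ n) * nuE volume F ≤
      ∑ i, nE volume (ag volume (hf n L ℓ (2 ^ J) i) F) +
        ENNReal.ofReal (ℓ ^ n * P) * en μ K v F)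
    (htail : ∀ F : Multiset (Tor n L) → ℂ, EB F →
      ∑ i, tl volume (hf n L ℓ (2 ^ J) i) (K' * ℓ ^ n) F ≤ ENNReal.ofReal Tl * en μ K v F)
    {σ Γ : ℝ} (hΓ : 0 < Γ) (hσ : 0 < σ)
    (hg : ∀ j : ℕ, 0 < j → j ≤ J → ∀ z : Fin n → ℝ, (∀ c, |z c| ≤ 2 * (2 ^ j * ℓ)) →
      ENNReal.ofReal (Γ * (2 : ℝ) ^ (-((n + σ) * j))) ≤ K z)
    {ns : ℝ} (hns : N ≤ ns * L ^ n)
    {ε0 lam mu r : ℝ} (hε0 : 0 < ε0) (hlam0 : 0 < lam) (hlam1 : lam < 1)
    (hε1 : ε0 / (1 - lam) ≤ 1) (hr0 : 0 ≤ r) (hr1 : r < 1) (hmur : mu = r ^ 2)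
    (hlam2 : lam * (2 : ℝ) ^ n * mu = 1) (hlams : (2 : ℝ) ^ σ * lam ≤ mu)
    {ξ : ℝ} (hξ : ξ = 6 / (ε0 * ℓ ^ n))
    {es H T q : ℝ} (hes : es = Ca * ns * (ε0 / (1 - lam)))
    (hHdef : H = 2 * √ξ + √((2 : ℝ) ^ σ * es / (ℓ ^ n * Γ)))
    (hT : T = tol * (2 : ℝ) ^ (σ * J) / (ℓ ^ n * Γ))
    (hq : q = (2 : ℝ) ^ (-σ / 2)) :
    (1 - ε0 / (1 - lam)) * N ≤ ((P + 16 * Tl) * (E / L ^ n) + 12 * ξ +
      7 * √K' * (√(Q / (L ^ n) ^ 2) + H / (1 - r) + √T / (1 - q))) * L ^ n := by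
  have hN : (0 : ℝ) ≤ N := Nat.cast_nonneg N
  have hLpos : 0 < L := Fact.out
  have hV : (0 : ℝ) < L ^ n := by positivity
  have hM0 : (0 : ℝ) < ℓ ^ n := by positivity
  have h1l : 0 < 1 - lam := by linarith
  have hξ0 : 0 < ξ := by rw [hξ]; positivity
  have h1r : 0 < 1 - r := by linarith
  have two : (0 : ℝ) < 2 := by norm_num
  have hq0 : 0 < q := by rw [hq]; positivity
  have hq1 : q < 1 := by
    rw [hq]
    exact Real.rpow_lt_one_of_one_lt_of_neg (by norm_num) (by linarith)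
  have h1q : 0 < 1 - q := by linarith
  have hns0 : 0 ≤ ns := by
    have : 0 ≤ ns * L ^ n := hN.trans hns
    exact nonneg_of_mul_nonneg_left this hV
  have hes0 : 0 ≤ es := by rw [hes]; positivity
  have hT0 : 0 ≤ T := by rw [hT]; positivity
  have hH0 : 0 ≤ H := by rw [hHdef]; positivity
  have hmu0 : 0 ≤ mu := by rw [hmur]; positivity
  have hlamm : ∀ m : ℕ, lam ^ m ≤ 1 := fun m => pow_le_one₀ hlam0.le hlam1.le
  -- the sequences
  set ε : ℕ → ℝ := fun j => ε0 * lam ^ j with hεdef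
  set pp : ℕ → ℝ := fun j => ε0 / (1 - lam) * lam ^ j with hppdef
  set b0 : ℝ := √(Q / (L ^ n) ^ 2) with hb0
  set β : ℕ → ℝ := fun j => b0 + H / (1 - r) * r ^ j + √T * ((1 - q ^ (J - j)) / (1 - q))
    with hβdef
  set g : ℕ → ℝ := fun j => Γ * (2 : ℝ) ^ (-((n + σ) * j)) with hgdef
  have hqm : ∀ m : ℕ, q ^ m ≤ 1 := fun m => pow_le_one₀ hq0.le hq1.le
  have hεpos : ∀ j, 0 < ε j := fun j => by simp only [hεdef]; positivity
  have hε01 : ε0 ≤ 1 := by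
    have h1 : ε0 ≤ ε0 / (1 - lam) := by
      rw [le_div_iff₀ h1l]
      have := mul_nonneg hε0.le hlam0.le
      linarith only [this]
    linarith
  have hpp0 : ∀ j, 0 ≤ pp j := fun j => by simp only [hppdef]; positivity
  have hpp1 : ∀ j, pp j ≤ 1 := by
    intro j
    simp only [hppdef]
    calc ε0 / (1 - lam) * lam ^ j ≤ ε0 / (1 - lam) * 1 :=
          mul_le_mul_of_nonneg_left (hlamm j) (by positivity)
      _ ≤ 1 := by rw [mul_one]; exact hε1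
  have hrr : ∀ j, r3 n ℓ ε j = ξ * mu ^ j := by
    intro m
    have h3 : (lam ^ m) * ((2:ℝ) ^ n) ^ m * mu ^ m = 1 := by
      rw [← mul_pow, ← mul_pow, hlam2, one_pow]
    have h6 : ((2:ℝ) ^ m * ℓ) ^ n = ((2:ℝ) ^ n) ^ m * ℓ ^ n := by
      rw [mul_pow, ← pow_mul, mul_comm m n, pow_mul]
    unfold r3
    simp only [hεdef]
    rw [h6, hξ, div_mul_eq_mul_div, div_eq_div_iff (by positivity) (by positivity)]
    linear_combination (-6 * (ε0 * ℓ ^ n)) * h3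
  have hrr0 : ∀ j, √(r3 n ℓ ε j) = √ξ * r ^ j := by
    intro j
    rw [hrr, sqrt_geo hr0 hmur]
  have key := chain3 hF hH hR hG hD hTF hℓ hL hK hv he0 hE hCa
    htolE hψ hψs hψ1 hψN hψE hψQ hlow ε β g pp
    (fun j _ => ⟨hεpos j, by
      simp only [hεdef]
      calc ε0 * lam ^ j ≤ ε0 * 1 := mul_le_mul_of_nonneg_left (hlamm j) hε0.le
        _ ≤ 1 := by rw [mul_one]; exact hε01⟩)
    (fun j _ => by
      simp only [hβdef]
      have : 0 ≤ 1 - q ^ (J - j) := by linarith [hqm (J - j)]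
      positivity)
    (fun j _ => ⟨hpp0 j, hpp1 j⟩)
    (fun j h0 h1 => ⟨by simp only [hgdef]; positivity, hg j h0 h1⟩)
    ?_ ?_ ?_ ?_
  · obtain ⟨a1, a2, a3, a4, -⟩ := hH n L ℓ (2 ^ J) Nat.one_le_two_pow (by rw [hL]; push_cast; rfl)
    have hβ00 : 0 ≤ β 0 * L ^ n := by
      apply mul_nonneg _ hV.le
      simp only [hβdef]
      have : 0 ≤ 1 - q ^ (J - 0) := by linarith [hqm (J - 0)]
      positivity
    have hrr00 : 0 ≤ r3 n ℓ ε 0 := r3_nonneg n ℓ hℓ ε 0 (hεpos 0)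
    have hpp00 : 0 ≤ (1 - pp 0) * (N : ℝ) := mul_nonneg (by linarith [hpp1 0]) hN
    have bot := hBOT (Tor n L) volume (Fin n → Fin (2 ^ J)) (en μ K v) (hf n L ℓ (2 ^ J))
      (ℓ ^ n) K' P Tl ((1 - pp 0) * N) N E (r3 n ℓ ε 0 * (ℓ ^ n) ^ 2)
      (β 0 * L ^ n) (fun i => a1 _) (fun i x => (a2 _ x).1) (fun i x => (a2 _ x).2)
      (fun i => a4 _) hM0 hK' hKM hP hTl hpp00 hE (by positivity) hβ00 hcoh htail key.toHas
    have hcI : (Fintype.card (Fin n → Fin (2 ^ J)) : ℝ) = L ^ n / ℓ ^ n := by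
      rw [Fintype.card_fun, Fintype.card_fin, Fintype.card_fin, eq_div_iff (by positivity)]
      push_cast
      rw [← mul_pow, ← hL]
    rw [hcI] at bot
    have h6 : 12 * (L ^ n / ℓ ^ n) * (r3 n ℓ ε 0 * (ℓ ^ n) ^ 2) / ℓ ^ n =
        12 * r3 n ℓ ε 0 * L ^ n := by
      field_simp
    rw [h6, hrr 0, pow_zero, mul_one] at bot
    have h7 : β 0 ≤ b0 + H / (1 - r) + √T / (1 - q) := by
      simp only [hβdef, pow_zero, mul_one]
      have : √T * ((1 - q ^ (J - 0)) / (1 - q)) ≤ √T / (1 - q) := by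
        rw [← mul_div_assoc]
        gcongr
        have : 0 ≤ q ^ (J - 0) := by positivity
        have h9 := mul_nonneg (Real.sqrt_nonneg T) this
        linarith only [h9]
      linarith
    have h9 : (P + 16 * Tl) * E = (P + 16 * Tl) * (E / L ^ n) * L ^ n := by
      field_simp
    have h10 : 7 * √K' * (β 0 * L ^ n) ≤
        7 * √K' * (b0 + H / (1 - r) + √T / (1 - q)) * L ^ n := by
      rw [← mul_assoc]
      gcongr
    have h11 : pp 0 = ε0 / (1 - lam) := by simp only [hppdef, pow_zero, mul_one]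
    rw [h11] at bot
    linarith only [bot, h9, h10]
  · -- hβ
    have h1 : √Q = b0 * L ^ n := by
      rw [hb0, Real.sqrt_div hQ, Real.sqrt_sq hV.le, div_mul_cancel₀ _ hV.ne']
    have h4 := hrr0 J
    have h5 : H * r ^ J ≤ H / (1 - r) * r ^ J := by
      apply mul_le_mul_of_nonneg_right _ (by positivity)
      rw [le_div_iff₀ h1r]
      have h9 := mul_nonneg hH0 hr0
      linarith only [h9]
    have h6 : √ξ * r ^ J ≤ H * r ^ J := by
      apply mul_le_mul_of_nonneg_right _ (by positivity)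
      rw [hHdef]
      have := Real.sqrt_nonneg ((2 : ℝ) ^ σ * es / (ℓ ^ n * Γ))
      have := Real.sqrt_nonneg ξ
      linarith
    have h7 : b0 + √(r3 n ℓ ε J) ≤ β J := by
      simp only [hβdef, Nat.sub_self, pow_zero, sub_self, zero_div, mul_zero, add_zero]
      linarith only [h4, h5, h6]
    have h8 := mul_le_mul_of_nonneg_right h7 hV.le
    linarith only [h8, h1]
  · -- hppJ
    simp only [hppdef, hεdef]
    apply mul_le_mul_of_nonneg_right _ (by positivity)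
    rw [le_div_iff₀ h1l]
    have h9 := mul_nonneg hε0.le hlam0.le
    linarith only [h9]
  · -- hpp'
    intro m _
    simp only [hppdef, hεdef]
    have e1 : ε0 / (1 - lam) * lam ^ m = ε0 * lam ^ m + ε0 / (1 - lam) * lam ^ (m + 1) := by
      field_simp
      ring
    linarith only [e1]
  · -- hβ'
    intro m hm
    have h1 : √(r3 n ℓ ε (m + 1)) ≤ √ξ * r ^ m := by
      rw [hrr0]
      refine mul_le_mul_of_nonneg_left ?_ (Real.sqrt_nonneg _)
      exact pow_le_pow_of_le_one hr0 hr1.le (by omega)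
    have h2 := hrr0 m
    have h3 : √((tol + Ca * (N / L ^ n) * pp m) / ((2 ^ (m + 1) * ℓ) ^ n * g (m + 1))) ≤
        √T * q ^ (J - (m + 1)) + √((2 : ℝ) ^ σ * es / (ℓ ^ n * Γ)) * r ^ m := by
      have hden : (2 ^ (m + 1) * ℓ) ^ n * g (m + 1) =
          ℓ ^ n * Γ * (2 : ℝ) ^ (-(σ * (m + 1 : ℕ))) := by
        simp only [hgdef]
        have p1 : ((2 : ℝ) ^ (m + 1) * ℓ) ^ n = (2 : ℝ) ^ ((n : ℝ) * (m + 1 : ℕ)) * ℓ ^ n := by
          rw [mul_pow, ← pow_mul, ← Real.rpow_natCast]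
          congr 2
          push_cast
          ring
        have p2 : (2 : ℝ) ^ (-(((n : ℝ) + σ) * (m + 1 : ℕ))) =
            (2 : ℝ) ^ (-((n : ℝ) * (m + 1 : ℕ))) * (2 : ℝ) ^ (-(σ * (m + 1 : ℕ))) := by
          rw [← Real.rpow_add two]
          congr 1
          ring
        have p3 : (2 : ℝ) ^ ((n : ℝ) * (m + 1 : ℕ)) * (2 : ℝ) ^ (-((n : ℝ) * (m + 1 : ℕ))) = 1 := by
          rw [← Real.rpow_add two]
          simp
        rw [p1, p2]
        calc (2 : ℝ) ^ ((n : ℝ) * (m + 1 : ℕ)) * ℓ ^ n * (Γ * ((2 : ℝ) ^ (-((n : ℝ) * (m + 1 : ℕ))) *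
              (2 : ℝ) ^ (-(σ * (m + 1 : ℕ)))))
            = ((2 : ℝ) ^ ((n : ℝ) * (m + 1 : ℕ)) * (2 : ℝ) ^ (-((n : ℝ) * (m + 1 : ℕ)))) *
              (ℓ ^ n * Γ * (2 : ℝ) ^ (-(σ * (m + 1 : ℕ)))) := by ring
          _ = _ := by rw [p3, one_mul]
      have hp : (0 : ℝ) < (2 : ℝ) ^ (-(σ * (m + 1 : ℕ))) := by positivity
      have hden0 : 0 < ℓ ^ n * Γ * (2 : ℝ) ^ (-(σ * (m + 1 : ℕ))) := by positivity
      have hq2 : ∀ k : ℕ, (q ^ 2) ^ k = (2 : ℝ) ^ (-(σ * k)) := by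
        intro k
        rw [hq, ← Real.rpow_natCast, ← Real.rpow_natCast, ← Real.rpow_mul two.le,
          ← Real.rpow_mul two.le]
        congr 1
        push_cast
        ring
      have hcast : ((J - (m + 1) : ℕ) : ℝ) = J - (m + 1) := by
        rw [Nat.cast_sub (by omega)]
        push_cast
        ring
      have hsplit : (tol + Ca * (N / L ^ n) * pp m) / ((2 ^ (m + 1) * ℓ) ^ n * g (m + 1)) ≤
          T * (q ^ 2) ^ (J - (m + 1)) + ((2 : ℝ) ^ σ * es / (ℓ ^ n * Γ)) * mu ^ m := by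
        rw [hden]
        have c1 : tol / (ℓ ^ n * Γ * (2 : ℝ) ^ (-(σ * (m + 1 : ℕ)))) =
            T * (q ^ 2) ^ (J - (m + 1)) := by
          rw [hq2, hcast, hT, div_eq_iff hden0.ne']
          have c3 : (2 : ℝ) ^ (σ * J) * (2 : ℝ) ^ (-(σ * (J - (m + 1)))) *
              (2 : ℝ) ^ (-(σ * (m + 1 : ℕ))) = 1 := by
            rw [← Real.rpow_add two, ← Real.rpow_add two]
            push_cast
            rw [show σ * (J : ℝ) + -(σ * (J - (m + 1))) + -(σ * ((m : ℝ) + 1)) = 0 by ring,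
              Real.rpow_zero]
          have c4 : 0 < ℓ ^ n * Γ := by positivity
          calc tol = tol * ((2 : ℝ) ^ (σ * J) * (2 : ℝ) ^ (-(σ * (J - (m + 1)))) *
              (2 : ℝ) ^ (-(σ * (m + 1 : ℕ)))) := by rw [c3, mul_one]
            _ = tol * (2 : ℝ) ^ (σ * J) / (ℓ ^ n * Γ) * (2 : ℝ) ^ (-(σ * (J - (m + 1)))) *
                (ℓ ^ n * Γ * (2 : ℝ) ^ (-(σ * (m + 1 : ℕ)))) := by field_simp
        have c5 : (Ca * (N / L ^ n) * pp m) / (ℓ ^ n * Γ * (2 : ℝ) ^ (-(σ * (m + 1 : ℕ)))) ≤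
            ((2 : ℝ) ^ σ * es / (ℓ ^ n * Γ)) * mu ^ m := by
          have c6 : (2 : ℝ) ^ (σ * (m : ℝ)) * lam ^ m ≤ mu ^ m := by
            rw [Real.rpow_mul two.le, Real.rpow_natCast, ← mul_pow]
            exact pow_le_pow_left₀ (by positivity) hlams m
          have c7 : (2 : ℝ) ^ σ * (2 : ℝ) ^ (σ * (m : ℝ)) * (2 : ℝ) ^ (-(σ * (m + 1 : ℕ))) = 1 := by
            rw [← Real.rpow_add two, ← Real.rpow_add two]
            push_cast
            rw [show σ + σ * (m : ℝ) + -(σ * ((m : ℝ) + 1)) = 0 by ring, Real.rpow_zero]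
          have c8 : Ca * (N / L ^ n) * pp m ≤ es * lam ^ m := by
            rw [hes]
            simp only [hppdef]
            have h9 : (N : ℝ) / L ^ n ≤ ns := by rwa [div_le_iff₀ hV]
            calc Ca * (N / L ^ n) * (ε0 / (1 - lam) * lam ^ m) ≤
                  Ca * ns * (ε0 / (1 - lam) * lam ^ m) := by gcongr
              _ = _ := by ring
          rw [div_le_iff₀ hden0]
          have c9 : 0 ≤ (2 : ℝ) ^ σ * es / (ℓ ^ n * Γ) := by positivity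
          calc Ca * (N / L ^ n) * pp m ≤ es * lam ^ m := c8
            _ = es * lam ^ m *
                ((2 : ℝ) ^ σ * (2 : ℝ) ^ (σ * (m : ℝ)) * (2 : ℝ) ^ (-(σ * (m + 1 : ℕ)))) := by
                rw [c7, mul_one]
            _ = (2 : ℝ) ^ σ * es / (ℓ ^ n * Γ) * ((2 : ℝ) ^ (σ * (m : ℝ)) * lam ^ m) *
                (ℓ ^ n * Γ * (2 : ℝ) ^ (-(σ * (m + 1 : ℕ)))) := by field_simp
            _ ≤ (2 : ℝ) ^ σ * es / (ℓ ^ n * Γ) * mu ^ m *
                (ℓ ^ n * Γ * (2 : ℝ) ^ (-(σ * (m + 1 : ℕ)))) := by gcongr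
        rw [add_div, c1]
        exact add_le_add le_rfl c5
      refine (Real.sqrt_le_sqrt hsplit).trans ?_
      refine (sqrt_add_le' (by positivity) (by positivity)).trans ?_
      rw [sqrt_geo hq0.le rfl, sqrt_geo hr0 hmur]
    have h4 : β m = H * r ^ m + √T * q ^ (J - (m + 1)) + β (m + 1) := by
      simp only [hβdef]
      obtain ⟨d, rfl⟩ : ∃ d, J = m + 1 + d := ⟨J - (m + 1), by omega⟩
      rw [show m + 1 + d - (m + 1) = d by omega, show m + 1 + d - m = d + 1 by omega]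
      field_simp
      ring
    rw [h4]
    have h5 : H * r ^ m = 2 * √ξ * r ^ m + √((2 : ℝ) ^ σ * es / (ℓ ^ n * Γ)) * r ^ m := by
      rw [hHdef]; ring
    rw [h5]
    linarith only [h1, h2, h3]

end

end Pool.Agent.Y656
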