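import Pool.Agent.Y656.Os2
import Pool.Agent.W135.CB.Tf

/-!
# The cut-off functions
-/

set_option autoImplicit false
set_option linter.unusedSectionVars false

open MeasureTheory
open scoped ENNReal

namespace Pool.Agent.Y656

open Pool.Agent.W761.CB

noncomputable section

/-- the angle, as a function of the distance -/
def ang (R d : ℝ) : ℝ := (Real.pi / 2) * min 1 (max 0 (d / R - 1))

lemma ang_nonneg (R d : ℝ) : 0 ≤ ang R d := by
  unfold ang
  have := Real.pi_pos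
  positivity

lemma ang_le (R d : ℝ) : ang R d ≤ Real.pi / 2 := by
  unfold ang
  have := Real.pi_pos
  exact mul_le_of_le_one_right (by positivity) (min_le_left _ _)

lemma ang_zero {R d : ℝ} (hR : 0 < R) (h : d ≤ R) : ang R d = 0 := by
  unfold ang
  have : d / R - 1 ≤ 0 := by
    rw [sub_nonpos, div_le_one hR]
    exact h
  rw [max_eq_left this]
  simp

lemma ang_one {R d : ℝ} (hR : 0 < R) (h : 2 * R ≤ d) : ang R d = Real.pi / 2 := by
  unfold ang
  have : 1 ≤ d / R - 1 := by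
    have : 2 ≤ d / R := by
      rw [le_div_iff₀ hR]
      exact h
    linarith
  rw [max_eq_right (by linarith), min_eq_left this, mul_one]

lemma ang_lip {R : ℝ} (hR : 0 < R) (d d' : ℝ) :
    |ang R d - ang R d'| ≤ Real.pi / 2 / R * |d - d'| := by
  unfold ang
  have hpi := Real.pi_pos
  rw [← mul_sub, abs_mul, abs_of_pos (by positivity : 0 < Real.pi / 2),
    show Real.pi / 2 / R * |d - d'| = Real.pi / 2 * (|d - d'| / R) by ring]
  refine mul_le_mul_of_nonneg_left ?_ (by positivity)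
  calc |min 1 (max 0 (d / R - 1)) - min 1 (max 0 (d' / R - 1))|
      ≤ |max 0 (d / R - 1) - max 0 (d' / R - 1)| := by
        have := abs_min_sub_min_le_max (1 : ℝ) (max 0 (d / R - 1)) 1 (max 0 (d' / R - 1))
        simpa using this
    _ ≤ |(d / R - 1) - (d' / R - 1)| := by
        have := abs_max_sub_max_le_max (0 : ℝ) (d / R - 1) 0 (d' / R - 1)
        simpa using this
    _ = |d - d'| / R := by
        rw [show d / R - 1 - (d' / R - 1) = (d - d') / R by ring, abs_div, abs_of_pos hR]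

/-- the squared distance of two angles, given by the sine and the cosine -/
def dq (p p' : ℝ) : ℝ := (p - p') ^ 2 + (√(1 - p ^ 2) - √(1 - p' ^ 2)) ^ 2

lemma dq_nonneg (p p' : ℝ) : 0 ≤ dq p p' := by unfold dq; positivity

lemma dq_self (p : ℝ) : dq p p = 0 := by unfold dq; simp

lemma dq_eq {p p' : ℝ} (h0 : p ^ 2 ≤ 1) (h1 : p' ^ 2 ≤ 1) :
    dq p p' = 2 - 2 * (p * p' + √(1 - p ^ 2) * √(1 - p' ^ 2)) := by
  unfold dq
  have e1 : (√(1 - p ^ 2)) ^ 2 = 1 - p ^ 2 := Real.sq_sqrt (by linarith)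
  have e2 : (√(1 - p' ^ 2)) ^ 2 = 1 - p' ^ 2 := Real.sq_sqrt (by linarith)
  linear_combination e1 + e2

lemma cs2 {p q p' q' : ℝ} : p * p' + q * q' ≤ √(p ^ 2 + q ^ 2) * √(p' ^ 2 + q' ^ 2) := by
  rw [← Real.sqrt_mul (by positivity)]
  apply Real.le_sqrt_of_sq_le
  nlinarith [sq_nonneg (p * q' - q * p')]

/-- products of sines -/
lemma dq_mul {p p' a a' : ℝ} (p0 : 0 ≤ p) (p1 : p ≤ 1) (p0' : 0 ≤ p') (p1' : p' ≤ 1)
    (a0 : 0 ≤ a) (a1 : a ≤ 1) (a0' : 0 ≤ a') (a1' : a' ≤ 1) :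
    dq (a * p) (a' * p') ≤ dq a a' + dq p p' := by
  have hp : p ^ 2 ≤ 1 := pow_le_one₀ p0 p1
  have hp' : p' ^ 2 ≤ 1 := pow_le_one₀ p0' p1'
  have ha : a ^ 2 ≤ 1 := pow_le_one₀ a0 a1
  have ha' : a' ^ 2 ≤ 1 := pow_le_one₀ a0' a1'
  have hap : (a * p) ^ 2 ≤ 1 := pow_le_one₀ (by positivity) (mul_le_one₀ a1 p0 p1)
  have hap' : (a' * p') ^ 2 ≤ 1 := pow_le_one₀ (by positivity) (mul_le_one₀ a1' p0' p1')
  rw [dq_eq hap hap', dq_eq ha ha', dq_eq hp hp']
  obtain ⟨q, hq⟩ : ∃ q, q = √(1 - p ^ 2) := ⟨_, rfl⟩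
  obtain ⟨q', hq'⟩ : ∃ q', q' = √(1 - p' ^ 2) := ⟨_, rfl⟩
  obtain ⟨b, hb⟩ : ∃ b, b = √(1 - a ^ 2) := ⟨_, rfl⟩
  obtain ⟨b', hb'⟩ : ∃ b', b' = √(1 - a' ^ 2) := ⟨_, rfl⟩
  have q2 : q ^ 2 = 1 - p ^ 2 := by rw [hq]; exact Real.sq_sqrt (by linarith)
  have q2' : q' ^ 2 = 1 - p' ^ 2 := by rw [hq']; exact Real.sq_sqrt (by linarith)
  have b2 : b ^ 2 = 1 - a ^ 2 := by rw [hb]; exact Real.sq_sqrt (by linarith)
  have b2' : b' ^ 2 = 1 - a' ^ 2 := by rw [hb']; exact Real.sq_sqrt (by linarith)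
  have e1 : 1 - (a * p) ^ 2 = (a * q) ^ 2 + b ^ 2 := by
    rw [mul_pow, mul_pow, q2, b2]; ring
  have e2 : 1 - (a' * p') ^ 2 = (a' * q') ^ 2 + b' ^ 2 := by
    rw [mul_pow, mul_pow, q2', b2']; ring
  rw [e1, e2, ← hq, ← hq', ← hb, ← hb']
  have h1 := cs2 (p := a * q) (q := b) (p' := a' * q') (q' := b')
  have hP : p * p' + q * q' ≤ 1 := by
    have := cs2 (p := p) (q := q) (p' := p') (q' := q')
    rw [q2, q2'] at this
    simpa using this
  have hA : a * a' ≤ 1 := mul_le_one₀ a1 a0' a1'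
  nlinarith [mul_nonneg (sub_nonneg.2 hA) (sub_nonneg.2 hP)]

lemma dq_sin {α α' : ℝ} (h0 : 0 ≤ α) (h1 : α ≤ Real.pi / 2) (h0' : 0 ≤ α')
    (h1' : α' ≤ Real.pi / 2) : dq (Real.sin α) (Real.sin α') ≤ (α - α') ^ 2 := by
  have c0 : 0 ≤ Real.cos α := Real.cos_nonneg_of_mem_Icc ⟨by linarith, h1⟩
  have c0' : 0 ≤ Real.cos α' := Real.cos_nonneg_of_mem_Icc ⟨by linarith, h1'⟩
  have e1 : √(1 - Real.sin α ^ 2) = Real.cos α := by
    rw [← Real.cos_sq', Real.sqrt_sq c0]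
  have e2 : √(1 - Real.sin α' ^ 2) = Real.cos α' := by
    rw [← Real.cos_sq', Real.sqrt_sq c0']
  rw [dq_eq (Real.sin_sq_le_one α) (Real.sin_sq_le_one α'), e1, e2]
  have h2 := Real.one_sub_sq_div_two_le_cos (x := α - α')
  rw [Real.cos_sub] at h2
  linarith

lemma dq_le_four {p p' : ℝ} (p0 : 0 ≤ p) (p1 : p ≤ 1) (p0' : 0 ≤ p') (p1' : p' ≤ 1) :
    dq p p' ≤ 4 := by
  have hp : p ^ 2 ≤ 1 := pow_le_one₀ p0 p1
  have hp' : p' ^ 2 ≤ 1 := pow_le_one₀ p0' p1'
  rw [dq_eq hp hp']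
  have h1 : 0 ≤ p * p' := mul_nonneg p0 p0'
  have h2 : 0 ≤ √(1 - p ^ 2) * √(1 - p' ^ 2) := by positivity
  linarith

/-- the discrete localisation formula -/
lemma ims {F F' p p' : ℝ} (h0 : 0 ≤ p) (h1 : p ≤ 1) (h0' : 0 ≤ p') (h1' : p' ≤ 1) :
    (p * F - p' * F') ^ 2 + (√(1 - p ^ 2) * F - √(1 - p' ^ 2) * F') ^ 2 ≤
      (F - F') ^ 2 + dq p p' * (F ^ 2 / 2 + F' ^ 2 / 2) := by
  have hp : p ^ 2 ≤ 1 := pow_le_one₀ h0 h1
  have hp' : p' ^ 2 ≤ 1 := pow_le_one₀ h0' h1'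
  have e1 : (√(1 - p ^ 2)) ^ 2 = 1 - p ^ 2 := Real.sq_sqrt (by linarith)
  have e2 : (√(1 - p' ^ 2)) ^ 2 = 1 - p' ^ 2 := Real.sq_sqrt (by linarith)
  have e3 := dq_eq hp hp'
  have e4 := dq_nonneg p p'
  have e5 : (p * F - p' * F') ^ 2 + (√(1 - p ^ 2) * F - √(1 - p' ^ 2) * F') ^ 2 =
      (F - F') ^ 2 + dq p p' * (F * F') := by
    rw [e3]
    linear_combination F ^ 2 * e1 + F' ^ 2 * e2
  rw [e5]
  have e6 : F * F' ≤ F ^ 2 / 2 + F' ^ 2 / 2 := by nlinarith [sq_nonneg (F - F')]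
  have := mul_le_mul_of_nonneg_left e6 e4
  linarith

/-! ### On the torus -/

section
variable {n : ℕ} {L : ℝ} [Fact (0 < L)]

/-- the sine for one pair -/
def sa (R : ℝ) (w y : Tor n L) : ℝ := Real.sin (ang R ‖w - y‖)

/-- the sine for a point and a configuration -/
def ss (R : ℝ) (w : Tor n L) (S : Multiset (Tor n L)) : ℝ := (S.map fun y => sa R w y).prod

/-- the cosine for a point and a configuration -/
def sc (R : ℝ) (w : Tor n L) (S : Multiset (Tor n L)) : ℝ := √(1 - ss R w S ^ 2)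

lemma sa_nonneg (R : ℝ) (w y : Tor n L) : 0 ≤ sa R w y := by
  unfold sa
  refine Real.sin_nonneg_of_nonneg_of_le_pi (ang_nonneg _ _) ?_
  have := ang_le R ‖w - y‖
  have := Real.pi_pos
  linarith

lemma sa_le (R : ℝ) (w y : Tor n L) : sa R w y ≤ 1 := Real.sin_le_one _

lemma sa_symm (R : ℝ) (w y : Tor n L) : sa R w y = sa R y w := by
  unfold sa
  rw [norm_sub_rev]

lemma sa_zero {R : ℝ} (hR : 0 < R) {w y : Tor n L} (h : ‖w - y‖ ≤ R) : sa R w y = 0 := by
  unfold sa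
  rw [ang_zero hR h, Real.sin_zero]

lemma sa_one {R : ℝ} (hR : 0 < R) {w y : Tor n L} (h : 2 * R ≤ ‖w - y‖) : sa R w y = 1 := by
  unfold sa
  rw [ang_one hR h, Real.sin_pi_div_two]

lemma ss_cons (R : ℝ) (w y : Tor n L) (S : Multiset (Tor n L)) :
    ss R w (y ::ₘ S) = sa R w y * ss R w S := by
  unfold ss
  rw [Multiset.map_cons, Multiset.prod_cons]

lemma ss_nonneg (R : ℝ) (w : Tor n L) (S : Multiset (Tor n L)) : 0 ≤ ss R w S := by
  induction S using Multiset.induction with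
  | empty => simp [ss]
  | cons a S ih =>
    rw [ss_cons]
    exact mul_nonneg (sa_nonneg _ _ _) ih

lemma ss_le (R : ℝ) (w : Tor n L) (S : Multiset (Tor n L)) : ss R w S ≤ 1 := by
  induction S using Multiset.induction with
  | empty => simp [ss]
  | cons a S ih =>
    rw [ss_cons]
    exact mul_le_one₀ (sa_le _ _ _) (ss_nonneg _ _ _) ih

lemma sc_nonneg (R : ℝ) (w : Tor n L) (S : Multiset (Tor n L)) : 0 ≤ sc R w S :=
  Real.sqrt_nonneg _

lemma sc_le (R : ℝ) (w : Tor n L) (S : Multiset (Tor n L)) : sc R w S ≤ 1 := by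
  unfold sc
  rw [Real.sqrt_le_one]
  have := sq_nonneg (ss R w S)
  linarith

lemma sc_sq (R : ℝ) (w : Tor n L) (S : Multiset (Tor n L)) : sc R w S ^ 2 = 1 - ss R w S ^ 2 := by
  unfold sc
  rw [Real.sq_sqrt]
  have : ss R w S ^ 2 ≤ 1 := pow_le_one₀ (ss_nonneg _ _ _) (ss_le _ _ _)
  linarith

/-- a change of the position of the new particle -/
lemma dq_ss (R : ℝ) (w w' : Tor n L) (S : Multiset (Tor n L)) :
    dq (ss R w S) (ss R w' S) ≤ (S.map fun y => dq (sa R w y) (sa R w' y)).sum := by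
  induction S using Multiset.induction with
  | empty => simp [ss, dq_self]
  | cons a S ih =>
    rw [ss_cons, ss_cons, Multiset.map_cons, Multiset.sum_cons]
    have h := dq_mul (ss_nonneg R w S) (ss_le R w S) (ss_nonneg R w' S) (ss_le R w' S)
      (sa_nonneg R w a) (sa_le R w a) (sa_nonneg R w' a) (sa_le R w' a)
    linarith

/-- a change of the position of one of the old particles -/
lemma dq_ss' (R : ℝ) (w x y : Tor n L) (S : Multiset (Tor n L)) :
    dq (ss R w (x ::ₘ S)) (ss R w (y ::ₘ S)) ≤ dq (sa R x w) (sa R y w) := by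
  rw [ss_cons, ss_cons, sa_symm R x w, sa_symm R y w]
  have h := dq_mul (ss_nonneg R w S) (ss_le R w S) (ss_nonneg R w S) (ss_le R w S)
    (sa_nonneg R w x) (sa_le R w x) (sa_nonneg R w y) (sa_le R w y)
  rw [dq_self] at h
  linarith

lemma dq_sa_le {R : ℝ} (hR : 1 ≤ R) (x h y : Tor n L) :
    dq (sa R (x + h) y) (sa R x y) ≤ 4 * min 1 (‖h‖ ^ 2) := by
  have hR0 : 0 < R := by linarith
  rw [mul_min_of_nonneg _ _ (by norm_num : (0 : ℝ) ≤ 4), mul_one]
  refine le_min ?_ ?_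
  · exact dq_le_four (sa_nonneg _ _ _) (sa_le _ _ _) (sa_nonneg _ _ _) (sa_le _ _ _)
  · unfold sa
    refine (dq_sin (ang_nonneg _ _) (ang_le _ _) (ang_nonneg _ _) (ang_le _ _)).trans ?_
    have h1 := ang_lip hR0 ‖x + h - y‖ ‖x - y‖
    have h2 : |‖x + h - y‖ - ‖x - y‖| ≤ ‖h‖ := by
      have := abs_norm_sub_norm_le (x + h - y) (x - y)
      rwa [show x + h - y - (x - y) = h by abel] at this
    have h3 : Real.pi / 2 / R ≤ 2 := by
      have : Real.pi / 2 ≤ 2 := by have := Real.pi_le_four; linarith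
      rw [div_le_iff₀ hR0]
      nlinarith
    have h4 : |ang R ‖x + h - y‖ - ang R ‖x - y‖| ≤ 2 * ‖h‖ := by
      refine h1.trans ?_
      have hpi := Real.pi_pos
      exact mul_le_mul h3 h2 (abs_nonneg _) (by norm_num)
    rw [← sq_abs]
    calc _ ≤ (2 * ‖h‖) ^ 2 := pow_le_pow_left₀ (abs_nonneg _) h4 2
      _ = _ := by ring

lemma dq_sa_zero {R : ℝ} (hR : 0 < R) {x h y : Tor n L} (h1 : 2 * R ≤ ‖x + h - y‖)
    (h2 : 2 * R ≤ ‖x - y‖) : dq (sa R (x + h) y) (sa R x y) = 0 := by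
  rw [sa_one hR h1, sa_one hR h2, dq_self]

/-- the set of the points near `y` -/
def nb (R : ℝ) (y : Tor n L) : Set (Tor n L) := {x | ‖x - y‖ < 2 * R}

lemma nb_meas (R : ℝ) (y : Tor n L) : MeasurableSet (nb R y) := by
  unfold nb
  exact measurableSet_lt (by fun_prop) measurable_const

lemma nb_vol {R : ℝ} (hR : 0 < R) (y : Tor n L) :
    volume (nb R y) ≤ ENNReal.ofReal ((4 * R) ^ n) := by
  have e : nb R y = Metric.ball y (2 * R) := by
    ext x
    simp only [nb, Set.mem_ofPred_eq, Metric.mem_ball, dist_eq_norm]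
  rw [e]
  have e2 : Metric.ball y (2 * R) = Set.pi Set.univ fun c => Metric.ball (y c) (2 * R) :=
    ball_pi y (by positivity)
  rw [e2, MeasureTheory.volume_pi_pi]
  calc ∏ c : Fin n, volume (Metric.ball (y c) (2 * R))
      ≤ ∏ _c : Fin n, ENNReal.ofReal (4 * R) := by
        refine Finset.prod_le_prod' fun c _ => ?_
        refine (measure_mono Metric.ball_subset_closedBall).trans ?_
        rw [AddCircle.volume_closedBall]
        refine ENNReal.ofReal_le_ofReal ((min_le_right _ _).trans ?_)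
        linarith
    _ = _ := by
        rw [Finset.prod_const, Finset.card_univ, Fintype.card_fin, ENNReal.ofReal_pow (by positivity)]

/-- the volume near the particles -/
lemma sc_sum {R : ℝ} (hR : 0 < R) (w : Tor n L) (S : Multiset (Tor n L)) :
    ENNReal.ofReal (sc R w S ^ 2) ≤ (S.map fun y => (nb R y).indicator (fun _ => (1 : ℝ≥0∞)) w).sum := by
  induction S using Multiset.induction with
  | empty => simp [sc, ss]
  | cons a S ih =>
    rw [Multiset.map_cons, Multiset.sum_cons]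
    by_cases h : w ∈ nb R a
    · rw [Set.indicator_of_mem h]
      refine le_trans ?_ le_self_add
      rw [ENNReal.ofReal_le_one]
      exact pow_le_one₀ (sc_nonneg _ _ _) (sc_le _ _ _)
    · rw [Set.indicator_of_notMem h, zero_add]
      have h1 : sa R w a = 1 := sa_one hR (not_lt.1 h)
      rw [sc_sq, ss_cons, h1, one_mul, ← sc_sq]
      exact ih

end

end

end Pool.Agent.Y656
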