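import Pool.Agent.Y656.MainI

/-!
# Complete condensation with a rate for soft potentials: the final form
-/

set_option autoImplicit false

open MeasureTheory
open scoped ENNReal

namespace Pool.Agent.Y656

open Pool.Agent.W761.CB Pool.Agent.W761.CC Pool.Agent.TH268.CC

noncomputable section

/-- The main theorem for soft potentials. -/
theorem weakI (n : ℕ) (hn : 3 ≤ n) (μ σ c R₀ κ : ℝ) (hμ : 0 < μ) (hσ : 0 < σ)
    (hσn : σ < n) (hκ : κ = 1 / (48 * (n ^ 3 + 4 * n ^ 2))) (hc : 0 < c) (v : ℝ → ℝ≥0∞)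
    (hv : Measurable v) (hvR : ∀ r, R₀ < r → v r = 0)
    (hv0 : ∫⁻ z : Fin n → ℝ, v (el z) ≠ 0) (hvf : ∫⁻ z : Fin n → ℝ, v (el z) ≠ ⊤) :
    ∃ ρ₀ : ℝ, 0 < ρ₀ ∧ ∀ ρ : ℝ, 0 < ρ → ρ ≤ ρ₀ → ∃ c₁ L₀ : ℝ, 0 < c₁ ∧
      ∀ (L : ℝ) [Fact (0 < L)] (K : (Fin n → ℝ) → ℝ≥0∞), L₀ ≤ L → Measurable K →
      ∫⁻ z, K z * ENNReal.ofReal (min 1 (el z ^ 2)) ≤ ENNReal.ofReal ρ →
      (∀ z, ENNReal.ofReal (c * ρ ^ (3 * n / 2 - 1 + κ) * (1 + √ρ * el z) ^ (-(n + σ))) ≤ K z) →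
      ∀ N : ℕ, ρ / 2 * L ^ n ≤ N → (N : ℝ) ≤ ρ * L ^ n →
      ∀ Ψ : (Fin N → Tor n L) → ℂ, IsWf2 Ψ →
        (∀ Φ : (Fin N → Tor n L) → ℂ, IsWf Φ →
          enN (ENNReal.ofReal μ) K v Ψ ≤ enN (ENNReal.ofReal μ) K v Φ +
            ENNReal.ofReal (c₁ * L ^ (n - σ))) →
        (1 - ρ ^ κ) * N ≤ condN Ψ := by
  obtain ⟨m, hm⟩ : ∃ m : ℕ, m = n ^ 3 + 4 * n ^ 2 := ⟨_, rfl⟩
  have hmr : (m : ℝ) = n ^ 3 + 4 * n ^ 2 := by rw [hm]; push_cast; ring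
  have hn3 : (3 : ℝ) ≤ n := by exact_mod_cast hn
  have hm0 : (0 : ℝ) < m := by rw [hmr]; positivity
  rw [← hmr] at hκ
  have hκ0 : 0 < κ := by rw [hκ]; positivity
  obtain ⟨Ce, w₀, hCe, hw₀, hmain⟩ := coreI n 2 m μ σ c R₀ v hn hμ hσ hσn
    (by push_cast; linarith) hm hc hv hvR hv0 hvf
  obtain ⟨W₀, hW₀⟩ : ∃ W₀ : ℝ, W₀ = w₀ + 81 * Ce ^ 2 := ⟨_, rfl⟩
  have hW₀1 : 1 ≤ W₀ := by
    rw [hW₀]
    have : 0 ≤ 81 * Ce ^ 2 := by positivity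
    linarith
  have hW₀0 : 0 < W₀ := by linarith
  refine ⟨W₀ ^ (-(1 / (4 * κ))), by positivity, ?_⟩
  intro ρ hρ hρ1
  obtain ⟨w, hw⟩ : ∃ w : ℝ, w = ρ ^ (-(4 * κ)) := ⟨_, rfl⟩
  have hw0 : 0 < w := by rw [hw]; positivity
  have hwW : W₀ ≤ w := by
    have h1 : (W₀ ^ (-(1 / (4 * κ)))) ^ (-(4 * κ)) = W₀ := by
      rw [← Real.rpow_mul hW₀0.le]
      rw [show -(1 / (4 * κ)) * -(4 * κ) = 1 by field_simp, Real.rpow_one]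
    rw [hw, ← h1]
    exact Real.rpow_le_rpow_of_nonpos hρ hρ1 (by linarith)
  have hw1 : w₀ ≤ w := by
    rw [hW₀] at hwW
    have : 0 ≤ 81 * Ce ^ 2 := by positivity
    linarith
  have hw2 : 81 * Ce ^ 2 ≤ w := by
    rw [hW₀] at hwW
    linarith
  obtain ⟨Z, hZ⟩ : ∃ Z : ℝ, Z = w ^ ((2 * 2 + 2) * m) := ⟨_, rfl⟩
  have hZρ : Z = ρ ^ (-(1 / 2) : ℝ) := by
    rw [hZ, hw, ← Real.rpow_natCast, ← Real.rpow_mul hρ.le]
    congr 1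
    rw [hκ]
    push_cast
    field_simp
    ring
  have hZ0 : 0 < Z := by rw [hZ]; positivity
  have hZi : 1 / Z = √ρ := by
    rw [hZρ, Real.rpow_neg hρ.le, one_div, inv_inv, Real.sqrt_eq_rpow]
  have hρZ : ρ = 1 / Z ^ 2 := by
    rw [← one_div_pow, hZi, Real.sq_sqrt hρ.le]
  obtain ⟨c₁, L₀, hc₁, h⟩ := hmain w Z ρ hw1 hZ hρZ
  refine ⟨c₁, L₀, hc₁, ?_⟩
  intro L _ K hL hK hcost hKl N hN1 hN2 Ψ hΨ hnear
  have hρ1' : ρ ≤ 1 := by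
    refine hρ1.trans ?_
    exact Real.rpow_le_one_of_one_le_of_nonpos hW₀1 (by
      have : 0 < 1 / (4 * κ) := by positivity
      linarith)
  have h1 := h L K hL hK hcost (fun z => by
    refine (ENNReal.ofReal_le_ofReal ?_).trans (hKl z)
    have e1 : c * Z ^ 2 / (Z ^ (3 * n) * w) = c * ρ ^ (3 * n / 2 - 1 + 4 * κ) := by
      have e2 : Z ^ 2 / Z ^ (3 * n) = ρ ^ (3 * (n : ℝ) / 2 - 1) := by
        rw [← Real.rpow_natCast Z (3 * n), ← Real.rpow_natCast Z 2, ← Real.rpow_sub hZ0, hZρ,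
          ← Real.rpow_mul hρ.le]
        congr 1
        push_cast
        ring
      have e3 : 1 / w = ρ ^ (4 * κ) := by
        rw [hw, Real.rpow_neg hρ.le, one_div, inv_inv]
      rw [Real.rpow_add hρ, ← e2, ← e3]
      field_simp
    have e4 : el z / Z = √ρ * el z := by
      rw [← hZi]
      ring
    rw [e1, e4]
    have hel : 0 ≤ el z := Real.sqrt_nonneg _
    have e5 : ρ ^ (3 * n / 2 - 1 + 4 * κ) ≤ ρ ^ (3 * n / 2 - 1 + κ) :=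
      Real.rpow_le_rpow_of_exponent_ge hρ hρ1' (by linarith)
    gcongr) N hN1 hN2 Ψ hΨ hnear
  have h2 := finI_num hρ hw hCe hw2
  refine le_trans ?_ h1
  exact mul_le_mul_of_nonneg_right (by linarith) (Nat.cast_nonneg N)

end

end Pool.Agent.Y656
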