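import Pool.Agent.Y656.Od
import Pool.Agent.W806.CC.LayB
import Pool.Agent.W374.CB2.Blk

/-!
# Condensation in boxes
-/

set_option autoImplicit false
set_option linter.unusedSectionVars false

open MeasureTheory Filter
open scoped ENNReal Topology

namespace Pool.Agent.Y656

open Pool.Agent.W761.CB Pool.Agent.TH268.CC Pool.Agent.W975.CB
open Pool.Agent.W376.CB (Gf Gf_meas Gf_abs enorm_sq int_dom lint_update)
open Pool.Agent.W372.CB (tc meas_tc meas_cube)
open Pool.Agent.W806.CC (blk_vol blk_meas tr_le pr_mem_tc)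

noncomputable section

variable {n : ℕ} {L : ℝ} [Fact (0 < L)] {N : ℕ}

/-- the number of the particles in the condensates of the boxes `B` of side `L / q`,
`∑_B |B|^(-1) ∫_B ∫_B γ(x, y) dx dy` -/
def locN (q : ℕ) (Ψ : (Fin N → Tor n L) → ℂ) : ℝ :=
  ((L / q) ^ n)⁻¹ * ∑ j : Fin n → Fin q, ∑ i : Fin N,
    ∫ x in {x : Fin N → Tor n L | x i ∈ blk n L (L / q) (fun c => (j c : ℕ))},
      ∫ y in blk n L (L / q) (fun c => (j c : ℕ)),
        ((starRingEnd ℂ) (Ψ x) * Ψ (Function.update x i y)).re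

lemma upd_meas (i : Fin N) : Measurable fun p : (Fin N → Tor n L) × Tor n L =>
    Function.update p.1 i (p.1 i + p.2) := by
  simp only [upd_add]
  have h2 : Measurable fun h : Tor n L => (Pi.single i h : Fin N → Tor n L) := by
    rw [measurable_pi_iff]
    intro j
    by_cases hj : j = i
    · subst hj
      simp only [Pi.single_eq_same]
      exact measurable_id
    · simp only [Pi.single_eq_of_ne hj]
      exact measurable_const
  exact (h2.comp measurable_snd).add measurable_fst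

/-- the change of variables -/
lemma swap_box {f : (Fin N → Tor n L) → ℝ≥0∞} (hf : Measurable f) (i : Fin N) {B : Set (Tor n L)}
    (hB : MeasurableSet B) :
    ∫⁻ x in {x : Fin N → Tor n L | x i ∈ B}, ∫⁻ y in B, f (Function.update x i y) =
      volume B * ∫⁻ x in {x : Fin N → Tor n L | x i ∈ B}, f x := by
  have hLp : 0 < L := Fact.out
  have hBi : MeasurableSet {x : Fin N → Tor n L | x i ∈ B} := (measurable_pi_apply i) hB
  have hvol : volume (Set.univ : Set (Tor n L)) = ENNReal.ofReal (L ^ n) :=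
    (Pool.Agent.W135.CB.proof_tf n L).1
  have hV0 : volume (Set.univ : Set (Tor n L)) ≠ 0 := by
    rw [hvol, ne_eq, ENNReal.ofReal_eq_zero, not_le]
    positivity
  have hVt : volume (Set.univ : Set (Tor n L)) ≠ ⊤ := by rw [hvol]; exact ENNReal.ofReal_ne_top
  obtain ⟨g, hg⟩ : ∃ g : Tor n L → ℝ≥0∞, g = B.indicator 1 := ⟨_, rfl⟩
  have hgm : Measurable g := by rw [hg]; exact measurable_one.indicator hB
  have hgi : ∫⁻ h, g h = volume B := by rw [hg, lintegral_indicator_one hB]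
  have hin : ∀ (φ : Tor n L → ℝ≥0∞), ∫⁻ y in B, φ y = ∫⁻ y, g y * φ y := by
    intro φ
    rw [← lintegral_indicator hB]
    refine lintegral_congr fun y => ?_
    rw [hg]
    by_cases hy : y ∈ B
    · rw [Set.indicator_of_mem hy, Set.indicator_of_mem hy, Pi.one_apply, one_mul]
    · rw [Set.indicator_of_notMem hy, Set.indicator_of_notMem hy, zero_mul]
  have hin2 : ∀ (φ : (Fin N → Tor n L) → ℝ≥0∞),
      ∫⁻ x in {x : Fin N → Tor n L | x i ∈ B}, φ x = ∫⁻ x, g (x i) * φ x := by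
    intro φ
    rw [← lintegral_indicator hBi]
    refine lintegral_congr fun x => ?_
    rw [hg]
    by_cases hx : x i ∈ B
    · rw [Set.indicator_of_mem (show x ∈ {x : Fin N → Tor n L | x i ∈ B} from hx),
        Set.indicator_of_mem hx, Pi.one_apply, one_mul]
    · rw [Set.indicator_of_notMem (show x ∉ {x : Fin N → Tor n L | x i ∈ B} from hx),
        Set.indicator_of_notMem hx, zero_mul]
  obtain ⟨I, hI⟩ : ∃ I : (Fin N → Tor n L) → ℝ≥0∞, I = fun x =>
    ∫⁻ y, g y * f (Function.update x i y) := ⟨_, rfl⟩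
  have hIm : Measurable I := by
    rw [hI]
    apply Measurable.lintegral_prod_right'
      (f := fun p : (Fin N → Tor n L) × Tor n L => g p.2 * f (Function.update p.1 i p.2))
    exact (hgm.comp measurable_snd).mul (hf.comp (by fun_prop))
  have hIu : ∀ x y, I (Function.update x i y) = I x := by
    intro x y
    rw [hI]
    simp only [Function.update_idem]
  have hxi : Measurable fun x : Fin N → Tor n L => x i := measurable_pi_apply i
  have hA : ∀ h : Tor n L, ∫⁻ x : Fin N → Tor n L, g (x i + h) * I x =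
      ∫⁻ x : Fin N → Tor n L, g (x i) * I x := by
    intro h
    rw [← lint_upd (fun x : Fin N → Tor n L => g (x i) * I x) i h]
    refine lintegral_congr fun x => ?_
    rw [Function.update_self, hIu]
  have hBB : volume (Set.univ : Set (Tor n L)) * ∫⁻ x : Fin N → Tor n L, g (x i) * I x =
      volume B * ∫⁻ x, I x := by
    have h1 : ∫⁻ h : Tor n L, ∫⁻ x : Fin N → Tor n L, g (x i + h) * I x =
        volume (Set.univ : Set (Tor n L)) * ∫⁻ x : Fin N → Tor n L, g (x i) * I x := by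
      rw [lintegral_congr hA, lintegral_const, mul_comm]
    have hm : Measurable fun p : Tor n L × (Fin N → Tor n L) => g (p.2 i + p.1) * I p.2 :=
      (hgm.comp ((hxi.comp measurable_snd).add measurable_fst)).mul (hIm.comp measurable_snd)
    rw [← h1, lintegral_lintegral_swap hm.aemeasurable, ← lintegral_const_mul _ hIm]
    refine lintegral_congr fun x => ?_
    have hgx : Measurable fun h : Tor n L => g (x i + h) := hgm.comp (measurable_const_add (x i))
    rw [lintegral_mul_const (I x) hgx, lintegral_add_left_eq_self g (x i), hgi]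
  have hC : ∫⁻ x, I x = volume (Set.univ : Set (Tor n L)) *
      ∫⁻ x : Fin N → Tor n L, g (x i) * f x := by
    have h1 := lint_update (fun x : Fin N → Tor n L => g (x i) * f x) ((hgm.comp hxi).mul hf) i
    simp only [Function.update_self] at h1
    rw [← h1, hI]
  have hfin : volume (Set.univ : Set (Tor n L)) * ∫⁻ x : Fin N → Tor n L, g (x i) * I x =
      volume (Set.univ : Set (Tor n L)) * (volume B * ∫⁻ x : Fin N → Tor n L, g (x i) * f x) := by
    rw [hBB, hC]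
    ring
  have hfin2 := (ENNReal.mul_right_inj hV0 hVt).1 hfin
  rw [hin2, hin2]
  have e : ∀ x : Fin N → Tor n L, ∫⁻ y in B, f (Function.update x i y) = I x := by
    intro x
    rw [hin, hI]
  simp only [e]
  exact hfin2

/-- one box -/
lemma box_id {Ψ : (Fin N → Tor n L) → ℂ} (hm : Measurable Ψ) (hfin : ∫⁻ x, ‖Ψ x‖ₑ ^ 2 ≠ ⊤)
    (i : Fin N) {B : Set (Tor n L)} (hB : MeasurableSet B) :
    ∫⁻ x in {x : Fin N → Tor n L | x i ∈ B}, ∫⁻ y in B, ‖Ψ (Function.update x i y) - Ψ x‖ₑ ^ 2 =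
      ENNReal.ofReal (2 * ((volume B).toReal *
        (∫⁻ x in {x : Fin N → Tor n L | x i ∈ B}, ‖Ψ x‖ₑ ^ 2).toReal) -
        2 * ∫ x in {x : Fin N → Tor n L | x i ∈ B}, ∫ y in B,
          ((starRingEnd ℂ) (Ψ x) * Ψ (Function.update x i y)).re) ∧
    0 ≤ 2 * ((volume B).toReal *
        (∫⁻ x in {x : Fin N → Tor n L | x i ∈ B}, ‖Ψ x‖ₑ ^ 2).toReal) -
        2 * ∫ x in {x : Fin N → Tor n L | x i ∈ B}, ∫ y in B,
          ((starRingEnd ℂ) (Ψ x) * Ψ (Function.update x i y)).re := by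
  have hu : Measurable fun p : (Fin N → Tor n L) × Tor n L =>
      Ψ (Function.update p.1 i p.2) := hm.comp (by fun_prop)
  have hf : Measurable fun p : (Fin N → Tor n L) × Tor n L => Ψ p.1 := hm.comp measurable_fst
  have hBf : volume B ≠ ⊤ := measure_ne_top _ _
  obtain ⟨w, hw⟩ : ∃ w : ℝ≥0∞, w = ∫⁻ x in {x : Fin N → Tor n L | x i ∈ B}, ‖Ψ x‖ₑ ^ 2 :=
    ⟨_, rfl⟩
  have hwt : w ≠ ⊤ := by
    rw [hw]
    exact ne_top_of_le_ne_top hfin (setLIntegral_le_lintegral _ _)
  rw [← hw]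
  obtain ⟨P, hP⟩ : ∃ P : Measure ((Fin N → Tor n L) × Tor n L), P =
    ((volume : Measure (Fin N → Tor n L)).restrict {x | x i ∈ B}).prod
      ((volume : Measure (Tor n L)).restrict B) := ⟨_, rfl⟩
  have hPr : P = ((volume : Measure (Fin N → Tor n L)).prod
      (volume : Measure (Tor n L))).restrict ({x | x i ∈ B} ×ˢ B) := by
    rw [hP]
    exact Measure.prod_restrict _ _
  have n1 : ∫⁻ p, ‖Ψ p.1‖ₑ ^ 2 ∂P = volume B * w := by
    rw [hP, lintegral_prod _ ((hf.enorm.pow_const 2).aemeasurable)]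
    simp only [lintegral_const, Measure.restrict_apply_univ]
    rw [lintegral_mul_const' _ _ hBf, hw, mul_comm]
  have n2 : ∫⁻ p, ‖Ψ (Function.update p.1 i p.2)‖ₑ ^ 2 ∂P = volume B * w := by
    rw [hP, lintegral_prod _ ((hu.enorm.pow_const 2).aemeasurable)]
    simp only
    rw [swap_box (hm.enorm.pow_const 2) i hB, hw]
  have hVw : volume B * w ≠ ⊤ := ENNReal.mul_ne_top hBf hwt
  have i1 : Integrable (fun p : (Fin N → Tor n L) × Tor n L => ‖Ψ p.1‖ ^ 2) P := by
    refine ⟨(hf.norm.pow_const 2).aestronglyMeasurable, ?_⟩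
    rw [HasFiniteIntegral]
    simp only [enorm_sq]
    rw [n1]
    exact lt_top_iff_ne_top.2 hVw
  have i2 : Integrable (fun p : (Fin N → Tor n L) × Tor n L =>
      ‖Ψ (Function.update p.1 i p.2)‖ ^ 2) P := by
    refine ⟨(hu.norm.pow_const 2).aestronglyMeasurable, ?_⟩
    rw [HasFiniteIntegral]
    simp only [enorm_sq]
    rw [n2]
    exact lt_top_iff_ne_top.2 hVw
  have toI : ∀ g : (Fin N → Tor n L) × Tor n L → ℂ, Measurable g →
      ∫⁻ p, ‖g p‖ₑ ^ 2 ∂P = volume B * w →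
      ∫ p, ‖g p‖ ^ 2 ∂P = (volume B).toReal * w.toReal := by
    intro g hg hgn
    rw [integral_eq_lintegral_of_nonneg_ae (Eventually.of_forall fun x => by positivity)
      (hg.norm.pow_const 2).aestronglyMeasurable]
    have : ∫⁻ p, ENNReal.ofReal (‖g p‖ ^ 2) ∂P = volume B * w := by
      rw [← hgn]
      refine lintegral_congr fun x => ?_
      rw [ENNReal.ofReal_pow (norm_nonneg _), ofReal_norm]
    rw [this, ENNReal.toReal_mul]
  have ig : Integrable (Gf Ψ i) P := by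
    rw [hPr]
    exact ((int_dom hm hfin i).mono' (Gf_meas hm i).aestronglyMeasurable
      (Eventually.of_forall fun p => by
        rw [Real.norm_eq_abs]
        exact Gf_abs Ψ i p)).restrict
  have eG : ∫ x in {x : Fin N → Tor n L | x i ∈ B}, ∫ y in B,
      ((starRingEnd ℂ) (Ψ x) * Ψ (Function.update x i y)).re = ∫ p, Gf Ψ i p ∂P := by
    have h1 := ig
    rw [hP] at h1 ⊢
    rw [integral_prod _ h1]
    rfl
  have eL : ∫⁻ x in {x : Fin N → Tor n L | x i ∈ B}, ∫⁻ y in B,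
      ‖Ψ (Function.update x i y) - Ψ x‖ₑ ^ 2 =
      ∫⁻ p, ‖Ψ (Function.update p.1 i p.2) - Ψ p.1‖ₑ ^ 2 ∂P := by
    have hmm : Measurable fun p : (Fin N → Tor n L) × Tor n L =>
        ‖Ψ (Function.update p.1 i p.2) - Ψ p.1‖ₑ ^ 2 := (hu.sub hf).enorm.pow_const 2
    rw [hP, lintegral_prod _ hmm.aemeasurable]
  rw [eG, eL]
  have e0 : ∀ p : (Fin N → Tor n L) × Tor n L, ‖Ψ (Function.update p.1 i p.2) - Ψ p.1‖ ^ 2 =
      ‖Ψ (Function.update p.1 i p.2)‖ ^ 2 + ‖Ψ p.1‖ ^ 2 - 2 * Gf Ψ i p := fun p => sq_diff _ _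
  have e1 : ∫ p, ‖Ψ (Function.update p.1 i p.2) - Ψ p.1‖ ^ 2 ∂P =
      2 * ((volume B).toReal * w.toReal) - 2 * ∫ p, Gf Ψ i p ∂P := by
    simp only [e0]
    rw [(int3 i2 i1 ig).2, toI _ hu n2, toI _ hf n1]
    ring
  have hd : Integrable (fun p : (Fin N → Tor n L) × Tor n L =>
      ‖Ψ (Function.update p.1 i p.2) - Ψ p.1‖ ^ 2) P := by
    simp only [e0]
    exact (int3 i2 i1 ig).1
  rw [← e1]
  refine ⟨?_, integral_nonneg fun x => by positivity⟩
  rw [ofReal_integral_eq_lintegral_ofReal hd (Eventually.of_forall fun x => by positivity)]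
  refine lintegral_congr fun x => ?_
  rw [ENNReal.ofReal_pow (norm_nonneg _), ofReal_norm]

/-- a partition of the configurations -/
lemma box_sum {J : Type} [Fintype J] {B : J → Set (Tor n L)} (hBm : ∀ j, MeasurableSet (B j))
    (hex : ∀ x : Tor n L, ∃! j, x ∈ B j) (i : Fin N) (H : (Fin N → Tor n L) → ℝ≥0∞) :
    ∑ j, ∫⁻ x in {x : Fin N → Tor n L | x i ∈ B j}, H x = ∫⁻ x, H x := by
  rw [← lintegral_biUnion_finset (s := Finset.univ)
    (t := fun j => {x : Fin N → Tor n L | x i ∈ B j})]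
  · have : (⋃ j ∈ (Finset.univ : Finset J), {x : Fin N → Tor n L | x i ∈ B j}) =
        Set.univ := by
      ext x
      simp only [Finset.mem_univ, Set.iUnion_true, Set.mem_iUnion, Set.mem_ofPred_eq,
        Set.mem_univ, iff_true]
      obtain ⟨j, hj, -⟩ := hex (x i)
      exact ⟨j, hj⟩
    rw [this, Measure.restrict_univ]
  · intro j _ k _ hjk
    rw [Function.onFun, Set.disjoint_left]
    intro x hx hx'
    exact hjk ((hex (x i)).unique hx hx')
  · exact fun j _ => (measurable_pi_apply i) (hBm j)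

/-- the differences in the boxes -/
lemma box_diff {J : Type} [Fintype J] {B : J → Set (Tor n L)} (hBm : ∀ j, MeasurableSet (B j))
    (hex : ∀ x : Tor n L, ∃! j, x ∈ B j) {s : ℝ}
    (hsub : ∀ j (x y : Tor n L), x ∈ B j → y ∈ B j → y ∈ tc x s) (i : Fin N)
    {Ψ : (Fin N → Tor n L) → ℂ} (hm : Measurable Ψ) :
    ∑ j, ∫⁻ x in {x : Fin N → Tor n L | x i ∈ B j}, ∫⁻ y in B j,
      ‖Ψ (Function.update x i y) - Ψ x‖ₑ ^ 2 ≤
      ∫⁻ z in cube n s, ∫⁻ x, ‖Ψ (Function.update x i (x i + pr L z)) - Ψ x‖ₑ ^ 2 := by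
  have hpr : Measurable (pr (n := n) L) := (Pool.Agent.W135.CB.proof_tf n L).2.1
  have hu : Measurable fun p : (Fin N → Tor n L) × Tor n L =>
      Ψ (Function.update p.1 i p.2) := hm.comp (by fun_prop)
  have hf : Measurable fun p : (Fin N → Tor n L) × Tor n L => Ψ p.1 := hm.comp measurable_fst
  have hmm : Measurable fun p : (Fin N → Tor n L) × Tor n L =>
      ‖Ψ (Function.update p.1 i p.2) - Ψ p.1‖ₑ ^ 2 := (hu.sub hf).enorm.pow_const 2
  obtain ⟨H, hH⟩ : ∃ H : (Fin N → Tor n L) → ℝ≥0∞, H = fun x =>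
    ∫⁻ z in cube n s, ‖Ψ (Function.update x i (x i + pr L z)) - Ψ x‖ₑ ^ 2 := ⟨_, rfl⟩
  have h1 : ∀ j, ∫⁻ x in {x : Fin N → Tor n L | x i ∈ B j}, ∫⁻ y in B j,
      ‖Ψ (Function.update x i y) - Ψ x‖ₑ ^ 2 ≤
      ∫⁻ x in {x : Fin N → Tor n L | x i ∈ B j}, H x := by
    intro j
    refine setLIntegral_mono' ((measurable_pi_apply i) (hBm j)) fun x hx => ?_
    rw [hH]
    have hux : Measurable fun y : Tor n L => Ψ (Function.update x i y) :=
      hm.comp (measurable_update x)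
    have hmx : Measurable fun y : Tor n L => ‖Ψ (Function.update x i y) - Ψ x‖ₑ ^ 2 :=
      (hux.sub measurable_const).enorm.pow_const 2
    have h2 := tr_le (r := s) hmx (x i)
    exact (lintegral_mono_set (fun y hy => hsub j _ _ hx hy)).trans h2
  refine (Finset.sum_le_sum fun j _ => h1 j).trans ?_
  rw [box_sum hBm hex i H, hH]
  have hmz : Measurable fun p : (Fin N → Tor n L) × (Fin n → ℝ) =>
      Function.update p.1 i (p.1 i + pr L p.2) :=
    (upd_meas i).comp (f := fun p : (Fin N → Tor n L) × (Fin n → ℝ) => (p.1, pr L p.2))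
      (measurable_fst.prodMk (hpr.comp measurable_snd))
  rw [lintegral_lintegral_swap]
  exact (((hm.comp hmz).sub (hm.comp measurable_fst)).enorm.pow_const 2).aemeasurable

/-- the sum over the particles -/
lemma sum_cube {Ψ : (Fin N → Tor n L) → ℂ} (hm : Measurable Ψ) {s : ℝ} (hs : 0 ≤ s) {X : ℝ≥0∞}
    (h : ∀ w ∈ cube n s, Dn Ψ (pr L w) ≤ X) :
    ∑ i : Fin N, ∫⁻ z in cube n s, ∫⁻ x, ‖Ψ (Function.update x i (x i + pr L z)) - Ψ x‖ₑ ^ 2 ≤
      ENNReal.ofReal ((2 * s) ^ n) * X := by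
  have hpr : Measurable (pr (n := n) L) := (Pool.Agent.W135.CB.proof_tf n L).2.1
  rw [← lintegral_finsetSum']
  · calc ∫⁻ z in cube n s, ∑ i : Fin N,
          ∫⁻ x, ‖Ψ (Function.update x i (x i + pr L z)) - Ψ x‖ₑ ^ 2
        ≤ ∫⁻ _z in cube n s, X :=
          setLIntegral_mono' (meas_cube n s) fun z hz => h z hz
      _ = _ := by
          rw [setLIntegral_const, Pool.Agent.W372.CB.vol_cube n hs, mul_comm]
  · intro i _
    have hmm : Measurable fun p : (Fin n → ℝ) × (Fin N → Tor n L) =>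
        Function.update p.2 i (p.2 i + pr L p.1) :=
      (upd_meas i).comp (f := fun p : (Fin n → ℝ) × (Fin N → Tor n L) => (p.2, pr L p.1))
        (measurable_snd.prodMk (hpr.comp measurable_fst))
    have h1 : Measurable fun p : (Fin n → ℝ) × (Fin N → Tor n L) =>
        ‖Ψ (Function.update p.2 i (p.2 i + pr L p.1)) - Ψ p.2‖ₑ ^ 2 :=
      ((hm.comp hmm).sub (hm.comp measurable_snd)).enorm.pow_const 2
    exact h1.lintegral_prod_right'.aemeasurable

/-- condensation in boxes from the smallness of the differences -/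
theorem loc_of_Dn {Ψ : (Fin N → Tor n L) → ℂ} (hΨ : IsWf2 Ψ) {q : ℕ} (hq : 1 ≤ q) {δ : ℝ}
    (hδ : 0 ≤ δ) (h : ∀ w ∈ cube n (L / q), Dn Ψ (pr L w) ≤ ENNReal.ofReal (2 * δ)) :
    (N : ℝ) - 2 ^ n * δ ≤ locN q Ψ := by
  have hLp : 0 < L := Fact.out
  have hq0 : (0 : ℝ) < q := by exact_mod_cast hq
  have hq1 : (1 : ℝ) ≤ q := by exact_mod_cast hq
  obtain ⟨s, hs⟩ : ∃ s, s = L / q := ⟨_, rfl⟩
  have hs0 : 0 < s := by rw [hs]; positivity
  have hsL : s ≤ L := by rw [hs]; exact div_le_self hLp.le hq1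
  have hLs : L = q * s := by rw [hs]; field_simp
  have hV : 0 < s ^ n := by positivity
  obtain ⟨-, hex, hz, -, -⟩ := Pool.Agent.W374.CB2.Blk.blk Pool.Agent.W135.CB.proof_tf n L s q hq hLs
  unfold locN
  rw [← hs]
  rw [← hs] at h
  obtain ⟨B, hB⟩ : ∃ B : (Fin n → Fin q) → Set (Tor n L), B = fun j =>
    blk n L s (fun c => (j c : ℕ)) := ⟨_, rfl⟩
  have hBj : ∀ j : Fin n → Fin q, blk n L s (fun c => (j c : ℕ)) = B j := fun j => by rw [hB]
  have hBm : ∀ j, MeasurableSet (B j) := fun j => by rw [hB]; exact blk_meas hsL _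
  have hBv : ∀ j, (volume (B j)).toReal = s ^ n := fun j => by
    rw [hB]
    simp only
    rw [blk_vol hs0 hsL, ENNReal.toReal_ofReal hV.le]
  have hexB : ∀ x : Tor n L, ∃! j : Fin n → Fin q, x ∈ B j := by
    intro x
    obtain ⟨j, h1, h2⟩ := hex x
    exact ⟨j, by rw [hB]; exact h1, fun k hk => h2 k (by rw [hB] at hk; exact hk)⟩
  have hsub : ∀ j (x y : Tor n L), x ∈ B j → y ∈ B j → y ∈ tc x s := by
    intro j x y hx hy
    rw [hB] at hx hy
    obtain ⟨z, hz1, hz2⟩ := hz _ x y hx hy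
    rw [hz2]
    exact pr_mem_tc fun c => (hz1 c).le
  simp only [hBj]
  clear hB hBj hz hex
  have hfin : ∫⁻ x, ‖Ψ x‖ₑ ^ 2 ≠ ⊤ := by rw [hΨ.norm]; exact ENNReal.one_ne_top
  obtain ⟨w, hw⟩ : ∃ w : Fin N → (Fin n → Fin q) → ℝ, w = fun i j =>
    (∫⁻ x in {x : Fin N → Tor n L | x i ∈ B j}, ‖Ψ x‖ₑ ^ 2).toReal := ⟨_, rfl⟩
  obtain ⟨g, hg⟩ : ∃ g : Fin N → (Fin n → Fin q) → ℝ, g = fun i j =>
    ∫ x in {x : Fin N → Tor n L | x i ∈ B j}, ∫ y in B j,
      ((starRingEnd ℂ) (Ψ x) * Ψ (Function.update x i y)).re := ⟨_, rfl⟩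
  have hid : ∀ i j, ∫⁻ x in {x : Fin N → Tor n L | x i ∈ B j}, ∫⁻ y in B j,
      ‖Ψ (Function.update x i y) - Ψ x‖ₑ ^ 2 = ENNReal.ofReal (2 * (s ^ n * w i j) - 2 * g i j) ∧
      0 ≤ 2 * (s ^ n * w i j) - 2 * g i j := by
    intro i j
    have h1 := box_id hΨ.meas hfin i (hBm j)
    rw [hBv j] at h1
    rw [hw, hg]
    exact h1
  have hws : ∀ i, ∑ j, w i j = 1 := by
    intro i
    have h1 := box_sum hBm hexB i (fun x => ‖Ψ x‖ₑ ^ 2)
    rw [hΨ.norm] at h1
    rw [hw]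
    simp only
    rw [← ENNReal.toReal_sum fun j _ => ne_top_of_le_ne_top hfin (setLIntegral_le_lintegral _ _),
      h1, ENNReal.toReal_one]
  have hsum : ∑ i : Fin N, ∑ j, ENNReal.ofReal (2 * (s ^ n * w i j) - 2 * g i j) ≤
      ENNReal.ofReal ((2 * s) ^ n) * ENNReal.ofReal (2 * δ) := by
    refine le_trans (Finset.sum_le_sum fun i _ => ?_) (sum_cube hΨ.meas hs0.le h)
    refine le_trans (le_of_eq ?_) (box_diff hBm hexB hsub i hΨ.meas)
    exact Finset.sum_congr rfl fun j _ => (hid i j).1.symm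
  have hgoal : ∑ j, ∑ i : Fin N, ∫ x in {x : Fin N → Tor n L | x i ∈ B j}, ∫ y in B j,
      ((starRingEnd ℂ) (Ψ x) * Ψ (Function.update x i y)).re = ∑ j, ∑ i, g i j := by
    rw [hg]
  rw [hgoal]
  have h1 : ∀ i j, 0 ≤ 2 * (s ^ n * w i j) - 2 * g i j := fun i j => (hid i j).2
  clear hid hgoal hg hw hsub hexB hBm hBv h
  have hsum2 : ∑ i : Fin N, ∑ j, (2 * (s ^ n * w i j) - 2 * g i j) ≤
      (2 * s) ^ n * (2 * δ) := by
    have h2 : ∑ i : Fin N, ∑ j, ENNReal.ofReal (2 * (s ^ n * w i j) - 2 * g i j) =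
        ENNReal.ofReal (∑ i : Fin N, ∑ j, (2 * (s ^ n * w i j) - 2 * g i j)) := by
      rw [ENNReal.ofReal_sum_of_nonneg fun i _ => Finset.sum_nonneg fun j _ => h1 i j]
      refine Finset.sum_congr rfl fun i _ => ?_
      rw [ENNReal.ofReal_sum_of_nonneg fun j _ => h1 i j]
    rw [h2, ← ENNReal.ofReal_mul (by positivity),
      ENNReal.ofReal_le_ofReal_iff (by positivity)] at hsum
    exact hsum
  have h3 : ∑ i : Fin N, ∑ j, (2 * (s ^ n * w i j) - 2 * g i j) =
      2 * s ^ n * N - 2 * ∑ j, ∑ i : Fin N, g i j := by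
    have h4 : ∀ i : Fin N, ∑ j, (2 * (s ^ n * w i j) - 2 * g i j) =
        2 * s ^ n - 2 * ∑ j, g i j := by
      intro i
      rw [Finset.sum_sub_distrib, ← Finset.mul_sum, ← Finset.mul_sum, ← Finset.mul_sum, hws i,
        mul_one]
    rw [Finset.sum_congr rfl fun i _ => h4 i, Finset.sum_sub_distrib, Finset.sum_const,
      Finset.card_univ, Fintype.card_fin, nsmul_eq_mul, ← Finset.mul_sum, Finset.sum_comm]
    ring
  rw [h3, mul_pow] at hsum2
  have h5 : s ^ n * ((N : ℝ) - 2 ^ n * δ) ≤ ∑ j, ∑ i : Fin N, g i j := by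
    linarith
  calc (N : ℝ) - 2 ^ n * δ = (s ^ n)⁻¹ * (s ^ n * ((N : ℝ) - 2 ^ n * δ)) := by field_simp
    _ ≤ _ := mul_le_mul_of_nonneg_left h5 (by positivity)

end

end Pool.Agent.Y656
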