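import Pool.Agent.Y656.MainT
import Pool.Agent.Y656.Loc

/-!
# Local condensation for potentials with a tail: the final form
-/

set_option autoImplicit false

open MeasureTheory
open scoped ENNReal

namespace Pool.Agent.Y656

open Pool.Agent.W761.CB Pool.Agent.W761.CC Pool.Agent.TH268.CC
open Pool.Agent.W74.CC (rep rep_mem pr_rep)

noncomputable section

/-- The main theorem. -/
theorem offT (n : ℕ) (hn : 3 ≤ n) (μ R₀ : ℝ) (hμ : 0 < μ) (v : ℝ → ℝ≥0∞) (hv : Measurable v)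
    (hv0 : ∫⁻ z : Fin n → ℝ, v (el z) ≠ 0)
    (hvt : ∫⁻ z in {z : Fin n → ℝ | R₀ < el z}, v (el z) ≠ ⊤) :
    0 < scat n μ v ∧ ∀ ε A : ℝ, 0 < ε → 0 < A → ∃ ρ₀ δ : ℝ, 0 < ρ₀ ∧ 0 < δ ∧
      ∀ ρ : ℝ, 0 < ρ → ρ ≤ ρ₀ → ∀ (L : ℝ) [Fact (0 < L)], 1 / √ρ ≤ L →
      ∀ N : ℕ, ρ / 2 * L ^ n ≤ N → (N : ℝ) ≤ ρ * L ^ n →
      ∀ Ψ : (Fin N → Tor n L) → ℂ, IsWf2 Ψ →
        (∀ Φ : (Fin N → Tor n L) → ℂ, IsWf Φ → enN (ENNReal.ofReal μ) (fun _ => 0) v Ψ ≤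
          enN (ENNReal.ofReal μ) (fun _ => 0) v Φ + ENNReal.ofReal (δ * ρ ^ 2 * L ^ n)) →
        ENNReal.ofReal ((1 - ε) * (scat n μ v / 2 * (N ^ 2 / L ^ n))) ≤
          enN (ENNReal.ofReal μ) (fun _ => 0) v Ψ ∧
        enN (ENNReal.ofReal μ) (fun _ => 0) v Ψ ≤
          ENNReal.ofReal ((1 + ε) * (scat n μ v / 2 * (N ^ 2 / L ^ n))) ∧
        (∀ z : Fin n → ℝ, (∀ c, |z c| ≤ A / √ρ) → (1 - ε) * N ≤ odN Ψ z) ∧
        (∀ q : ℕ, 1 ≤ q → L / q ≤ A / √ρ → (1 - ε) * N ≤ locN q Ψ) ∧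
        (L ≤ A / √ρ → (1 - ε) * N ≤ condN Ψ) := by
  obtain ⟨m, hm⟩ : ∃ m : ℕ, m = n ^ 3 + 4 * n ^ 2 := ⟨_, rfl⟩
  have hm1 : 1 ≤ m := by
    rw [hm]
    have : 0 < n ^ 3 := by positivity
    omega
  obtain ⟨hG, hmain⟩ := coreT n μ R₀ v hn hμ hv hv0 hvt m hm
  refine ⟨hG, ?_⟩
  intro ε A hε hA
  obtain ⟨δ, x₂, hδ, hx₂, h⟩ := hmain ε A hε hA
  refine ⟨1 / (x₂ ^ m) ^ 2, δ, by positivity, hδ, ?_⟩
  intro ρ hρ hρ1 L _ hL N hN1 hN2 Ψ hΨ hnear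
  obtain ⟨Z, hZ⟩ : ∃ Z : ℝ, Z = 1 / √ρ := ⟨_, rfl⟩
  have hZ0 : 0 < Z := by rw [hZ]; positivity
  have hZρ : ρ = 1 / Z ^ 2 := by
    rw [hZ, one_div_pow, one_div_one_div, Real.sq_sqrt hρ.le]
  obtain ⟨x, hx⟩ : ∃ x : ℝ, x = Z ^ ((m : ℝ)⁻¹) := ⟨_, rfl⟩
  have hx0 : 0 < x := by rw [hx]; positivity
  have hxm : Z = x ^ m := by
    rw [hx, ← Real.rpow_natCast, ← Real.rpow_mul hZ0.le, inv_mul_cancel₀, Real.rpow_one]
    exact_mod_cast (by omega : m ≠ 0)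
  have hxx : x₂ ≤ x := by
    have h1 : x₂ ^ m ≤ x ^ m := by
      rw [← hxm]
      have h2 : (x₂ ^ m) ^ 2 ≤ Z ^ 2 := by
        rw [hZρ] at hρ1
        exact (one_div_le_one_div (by positivity) (by positivity)).1 hρ1
      exact (pow_le_pow_iff_left₀ (by positivity) hZ0.le two_ne_zero).1 h2
    exact (pow_le_pow_iff_left₀ (by linarith) hx0.le (by omega)).1 h1
  have hAZ : A / √ρ = A * Z := by rw [hZ]; ring
  rw [← hZ] at hL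
  obtain ⟨c1, c2, c3⟩ := h x Z ρ hxx hxm hZρ L hL N hN1 hN2 Ψ hΨ hnear
  rw [hAZ]
  have hLp : 0 < L := Fact.out
  have h2n : ε * N / 2 ^ n ≤ ε * N :=
    div_le_self (by positivity) (one_le_pow₀ (by norm_num))
  refine ⟨c1, c2, ?_, ?_, ?_⟩
  · intro z hz
    have h1 := c3 (A * Z) (by positivity) le_rfl z hz
    have h2 := od_of_Dn hΨ (δ := ε * N / 2 ^ n) (by positivity) h1
    linarith
  · intro q hq hLq
    have h2 := loc_of_Dn hΨ hq (δ := ε * N / 2 ^ n) (by positivity)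
      (fun w hw => c3 (L / q) (by positivity) hLq w hw)
    have h3 : (2 : ℝ) ^ n * (ε * N / 2 ^ n) = ε * N := by field_simp
    rw [h3] at h2
    linarith
  · intro hLs
    have h2 := cond_of_Dn hΨ (δ := ε * N / 2 ^ n) (by positivity) (fun h => by
      have h3 := c3 (L / 2) (by positivity) (by linarith) (rep h) (fun c => by
        have h4 := rep_mem h c
        rw [abs_le]
        exact ⟨by linarith [h4.1], h4.2⟩)
      rw [pr_rep] at h3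
      exact h3)
    linarith

end

end Pool.Agent.Y656
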