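import Pool.Agent.Y656.Onb
import Pool.Agent.W193.CB.Meas
import Pool.Agent.W150.CB.Step1

/-!
# Frames of the Fock space with approximate amplitudes
-/

set_option autoImplicit false
set_option linter.unusedSectionVars false

open MeasureTheory
open scoped ENNReal

namespace Pool.Agent.Y656

open Pool.Agent.W761.CB Pool.Agent.W193.CB

noncomputable section

section
variable {X : Type} [MeasurableSpace X]

/-- a Parseval frame with approximate amplitudes `c` -/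
structure IsFrm (ν : Measure X) {I : Type} [Fintype I] (u : I → X → ℝ) (R : ℝ) {A : Type}
    (W : A → Cf X → ℂ) (c : A → I → ℂ) : Prop where
  meas : ∀ a, Measurable (W a)
  fin : ∀ a, ∫⁻ γ, ‖W a γ‖ₑ ^ 2 ∂(lam ν) < ⊤
  norm : ∀ G, EB G → ∑' a, ‖∫ γ, W a γ * G (ms γ) ∂(lam ν)‖ₑ ^ 2 = nE ν G
  amp : ∀ G, EB G → ∀ i, ∑' a, ‖(∫ γ, W a γ * ag ν (u i) G (ms γ) ∂(lam ν)) -
    c a i * ∫ γ, W a γ * G (ms γ) ∂(lam ν)‖ₑ ^ 2 ≤ ENNReal.ofReal R * nE ν G

/-- the space of exponentially bounded vectors -/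
def EBs (X : Type) [MeasurableSpace X] : Submodule ℂ (Multiset X → ℂ) where
  carrier := {F | EB F}
  zero_mem' := ⟨measurable_const, 0, 1, le_rfl, le_rfl, fun S => by simp⟩
  add_mem' := by
    intro F G hF hG
    have h := EB_lin hF hG 1 1
    simp only [one_mul] at h
    exact h
  smul_mem' := by
    intro a F hF
    have h := EB_lin hF hF a 0
    simp only [zero_mul, add_zero] at h
    exact h

variable (ν : Measure X) [IsFiniteMeasure ν]

lemma nE_fin {F : Multiset X → ℂ} (hF : EB F) : nE ν F < ⊤ :=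
  (Pool.Agent.W150.CB.slam X ν).2.2.2.2.1 F hF

lemma memLp_EB {F : Multiset X → ℂ} (hF : EB F) : MemLp (fun γ => F (ms γ)) 2 (lam ν) := by
  refine ⟨hF.meas.aestronglyMeasurable, ?_⟩
  rw [← Pool.Agent.W150.CB.sE_eq]
  exact ENNReal.rpow_lt_top_of_nonneg (by norm_num) (nE_fin ν hF).ne

/-- the vector of the Hilbert space -/
def toH : EBs X →ₗ[ℂ] Lp ℂ 2 (lam ν) where
  toFun F := (memLp_EB ν F.2).toLp _
  map_add' F G := by
    rw [← MemLp.toLp_add]
    rfl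
  map_smul' a F := by
    rw [RingHom.id_apply, ← MemLp.toLp_const_smul]
    rfl

lemma toH_norm (F : EBs X) : ‖toH ν F‖ₑ ^ 2 = nE ν F.1 := by
  have h : ‖toH ν F‖ₑ = Pool.Agent.W150.CB.sE ν F.1 := by
    rw [Pool.Agent.W150.CB.sE_eq]
    exact Lp.enorm_toLp (memLp_EB ν F.2)
  rw [h, sq, Pool.Agent.W150.CB.sE_sq]

lemma inner_toH (W : Lp ℂ 2 (lam ν)) (F : EBs X) :
    inner ℂ W (toH ν F) = ∫ γ, (starRingEnd ℂ) (W γ) * F.1 (ms γ) ∂(lam ν) := by
  rw [L2.inner_def]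
  refine integral_congr_ae ?_
  filter_upwards [MemLp.coeFn_toLp (memLp_EB ν F.2)] with γ hγ
  have h : (toH ν F : Cf X → ℂ) γ = F.1 (ms γ) := hγ
  rw [h]
  simp [mul_comm]

variable {I : Type} [Fintype I] {u : I → X → ℝ} {ω κ : ℝ}

/-- the outcomes of the measurement are linear -/
def LLl (H : Hyp u ω κ) (k : I × Bool → ℤ) : EBs X →ₗ[ℂ] EBs X where
  toFun F := ⟨LL ν u κ k F.1, Tk_EB k (GB_win H.WIN) (H.jb ν F.2)⟩
  map_add' F G := by
    ext S
    change Tk k (fun s => (win s : ℂ)) (fun s => DD ν (wv u κ s) (F.1 + G.1)) S =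
      Tk k (fun s => (win s : ℂ)) (fun s => DD ν (wv u κ s) F.1) S +
      Tk k (fun s => (win s : ℂ)) (fun s => DD ν (wv u κ s) G.1) S
    have h1 : (fun s : I × Bool → ℝ => DD ν (wv u κ s) (F.1 + G.1)) =
        fun s S => 1 * DD ν (wv u κ s) F.1 S + 1 * DD ν (wv u κ s) G.1 S := by
      funext s S
      rw [← H.DDlin ν F.2 G.2 s 1 1 S]
      simp only [one_mul]
      rfl
    rw [h1, Tk_lin k (GB_win H.WIN) (H.jb ν F.2) (H.jb ν G.2)]
    ring
  map_smul' a F := by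
    ext S
    change Tk k (fun s => (win s : ℂ)) (fun s => DD ν (wv u κ s) (a • F.1)) S =
      a * Tk k (fun s => (win s : ℂ)) (fun s => DD ν (wv u κ s) F.1) S
    have h1 : (fun s : I × Bool → ℝ => DD ν (wv u κ s) (a • F.1)) =
        fun s S => a * DD ν (wv u κ s) F.1 S + 0 * DD ν (wv u κ s) F.1 S := by
      funext s S
      rw [← H.DDlin ν F.2 F.2 s a 0 S]
      simp only [zero_mul, add_zero]
      rfl
    rw [h1, Tk_lin k (GB_win H.WIN) (H.jb ν F.2) (H.jb ν F.2)]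
    ring

lemma LL_norm (H : Hyp u ω κ) {F : Multiset X → ℂ} (hF : EB F) :
    ∑' k, nE ν (LL ν u κ k F) = nE ν F := by
  have h := sumJ H.PAR H.WIN ν (H.jb ν hF)
  simp only [H.nD ν hF] at h
  rw [J_const H.WIN] at h
  exact h

/-- the measurement and the annihilation operators -/
lemma LL_amp [DecidableEq I] (H : Hyp u ω κ) {F : Multiset X → ℂ} (hF : EB F) (i : I) {M : ℝ}
    (hM : ∫ x, u i x ∂ν = M) :
    ∑' k, nE ν (fun S => LL ν u κ k (ag ν (u i) F) S - cc κ k i * LL ν u κ k F S) ≤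
      ENNReal.ofReal (2 / ω + 4 * (M ^ 2 * ω)) * nE ν F := by
  have hgb : ∃ C : ℝ, ∀ x, |u i x| ≤ C := ⟨1, H.u1 i⟩
  have hjb := H.jb ν hF
  have hAg : EB (ag ν (u i) F) := (ebc X ν F F hF hF).2.2.2.1 _ (H.um i) hgb
  obtain ⟨a, ha⟩ : ∃ a : I → ℝ, a = fun j => ∫ x, u i x * u j x ∂ν := ⟨_, rfl⟩
  have gw := GB_win (I := I) H.WIN
  have gbw : GB (fun s : I × Bool → ℝ => bt κ a s * (win s : ℂ)) := (GB_bt κ a).mul gw
  have hpt : ∀ k S, LL ν u κ k (ag ν (u i) F) S - cc κ k i * LL ν u κ k F S =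
      (ag ν (u i) (LL ν u κ k F) S - cc κ k i * LL ν u κ k F S) +
        (-1) * Tk k (fun s => bt κ a s * (win s : ℂ)) (fun s => DD ν (wv u κ s) F) S := by
    intro k S
    have h1 : LL ν u κ k (ag ν (u i) F) S = ag ν (u i) (LL ν u κ k F) S +
        (-1) * Tk k (fun s => bt κ a s * (win s : ℂ)) (fun s => DD ν (wv u κ s) F) S := by
      unfold LL
      rw [Tk_ag ν k gw hjb (H.um i) hgb]
      have e : ∀ s S, ag ν (u i) (DD ν (wv u κ s) F) S =
          DD ν (wv u κ s) (ag ν (u i) F) S + bt κ a s * DD ν (wv u κ s) F S := by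
        intro s S
        rw [H.DDag ν hF s (H.um i) hgb S, H.bint ν (H.um i) hgb, ← ha]
        have := H.DDlin ν hAg hF s 1 (bt κ a s) S
        simp only [one_mul] at this
        exact this
      have hi1 := int_fix k gw (H.jb ν hAg) S
      have hi2 := int_fix k gbw hjb S
      unfold Tk
      simp only [e]
      have e2 : (fun s : I × Bool → ℝ => ek k s * ((win s : ℂ) * (DD ν (wv u κ s) (ag ν (u i) F) S +
          bt κ a s * DD ν (wv u κ s) F S))) =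
          fun s => ek k s * ((win s : ℂ) * DD ν (wv u κ s) (ag ν (u i) F) S) +
            ek k s * (bt κ a s * (win s : ℂ) * DD ν (wv u κ s) F S) := by
        funext s
        ring
      rw [e2, integral_add hi1 hi2]
      ring
    rw [h1]
    ring
  have hT : ∀ k, EB (Tk k (fun s => bt κ a s * (win s : ℂ)) (fun s => DD ν (wv u κ s) F)) :=
    fun k => Tk_EB k gbw hjb
  have hL : ∀ k, EB (LL ν u κ k F) := fun k => Tk_EB k gw hjb
  have hD : ∀ k, EB (fun S => ag ν (u i) (LL ν u κ k F) S - cc κ k i * LL ν u κ k F S) :=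
    fun k => Pool.Agent.W150.CB.dev_eb (hL k) (H.um i) hgb _
  have h1 : ∀ k, nE ν (fun S => LL ν u κ k (ag ν (u i) F) S - cc κ k i * LL ν u κ k F S) ≤
      2 * dev ν (u i) (cc κ k i) (LL ν u κ k F) +
        2 * nE ν (Tk k (fun s => bt κ a s * (win s : ℂ)) (fun s => DD ν (wv u κ s) F)) := by
    intro k
    rw [nE_congr ν (hpt k)]
    have hT' : EB (fun S => (-1 : ℂ) *
        Tk k (fun s => bt κ a s * (win s : ℂ)) (fun s => DD ν (wv u κ s) F) S) := by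
      have := EB_lin (hT k) (hT k) (-1) 0
      simpa only [zero_mul, add_zero] using this
    refine (nE_add_le ν (hD k) hT').trans (le_of_eq ?_)
    rw [nE_smul ν (hT k)]
    simp [dev]
  refine (ENNReal.tsum_le_tsum h1).trans ?_
  rw [ENNReal.tsum_add, ENNReal.tsum_mul_left, ENNReal.tsum_mul_left]
  have h2 := H.amp ν hF i hM
  have h3 : ∑' k, nE ν (Tk k (fun s => bt κ a s * (win s : ℂ)) (fun s => DD ν (wv u κ s) F)) ≤
      ENNReal.ofReal (M ^ 2 * ω) * nE ν F := by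
    rw [sumT H.PAR ν gbw hjb]
    simp only [H.nD ν hF]
    rw [lintegral_mul_const _ (gbw.meas.enorm.pow_const 2)]
    gcongr
    have e1 : ∀ s : I × Bool → ℝ, ‖bt κ a s * (win s : ℂ)‖ₑ ^ 2 =
        ENNReal.ofReal (win s ^ 2) * ‖bt κ a s‖ₑ ^ 2 := by
      intro s
      rw [enorm_mul, mul_pow, mul_comm, en2 (win s : ℂ), Complex.normSq_ofReal, sq (win s)]
    simp only [e1]
    have hJ := J_bt H.WIN κ a
    rw [H.k14] at hJ
    refine hJ.le.trans (ENNReal.ofReal_le_ofReal ?_)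
    have hint : ∀ j, Integrable (fun x => u i x * u j x) ν := by
      intro j
      refine Integrable.of_bound ((H.um i).mul (H.um j)).aestronglyMeasurable (1 * 1)
        (Filter.Eventually.of_forall fun x => ?_)
      change |u i x * u j x| ≤ _
      rw [abs_mul]
      exact mul_le_mul (H.u1 i x) (H.u1 j x) (abs_nonneg _) zero_le_one
    have hsum : ∑ j, a j = M := by
      rw [ha, ← integral_finsetSum _ fun j _ => hint j, ← hM]
      refine integral_congr_ae (Filter.Eventually.of_forall fun x => ?_)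
      simp only [← Finset.mul_sum, H.us x, mul_one]
    rw [mul_comm (M ^ 2) ω]
    refine mul_le_mul_of_nonneg_left ?_ H.ω0.le
    rw [← hsum]
    refine sum_sq_le fun j => ?_
    rw [ha]
    exact integral_nonneg fun x => mul_nonneg (H.u0 i x) (H.u0 j x)
  have hω := H.ω0
  calc _ ≤ 2 * (ENNReal.ofReal (1 / ω + M ^ 2 * ω) * nE ν F) +
        2 * (ENNReal.ofReal (M ^ 2 * ω) * nE ν F) := by gcongr
    _ = _ := by
        have e2 : (2 : ℝ≥0∞) = ENNReal.ofReal 2 := by norm_num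
        rw [e2, ← mul_assoc, ← mul_assoc, ← add_mul, ← ENNReal.ofReal_mul (by norm_num),
          ← ENNReal.ofReal_mul (by norm_num), ← ENNReal.ofReal_add (by positivity) (by positivity)]
        congr 2
        ring

end

/-- existence of frames -/
def S_FRM : Prop := ∀ (X : Type) [MeasurableSpace X] (ν : Measure X) [IsFiniteMeasure ν]
    [SecondCountableTopology (Lp ℂ 2 (lam ν))]
    (I : Type) [Fintype I] (u : I → X → ℝ) (M : ℝ), 0 < M →
  (∀ i, Measurable (u i)) → (∀ i x, 0 ≤ u i x) → (∀ x, ∑ i, u i x = 1) →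
  (∀ i, ∫ x, u i x ∂ν = M) →
  ∃ (A : Type) (_ : Countable A) (W : A → Cf X → ℂ) (c : A → I → ℂ),
    IsFrm ν u (6 * M) W c

theorem frm : S_W1 → S_W2 → S_W3 → S_DER → S_PAR → S_IBP → S_WIN → S_FRM := by
  classical
  intro W1 W2 W3 DER PAR IBP WIN X _ ν _ _ I _ u M hMp um u0 us hM
  obtain ⟨ω, hω⟩ : ∃ ω : ℝ, ω = 1 / M := ⟨_, rfl⟩
  have hω0 : 0 < ω := by rw [hω]; positivity
  have H : Hyp u ω (√(14 * ω)) :=
    ⟨W1, W2, W3, DER, PAR, IBP, WIN, um, u0, us, hω0, Real.sqrt_pos.2 (by positivity),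
      Real.sq_sqrt (by positivity)⟩
  obtain ⟨κ, hκ⟩ : ∃ κ : ℝ, κ = √(14 * ω) := ⟨_, rfl⟩
  rw [← hκ] at H
  obtain ⟨ι, hι, b, hb⟩ := countable_basis (Lp ℂ 2 (lam ν))
  -- the functionals
  obtain ⟨φ, hφ⟩ : ∃ φ : (I × Bool → ℤ) × ι → (EBs X →ₗ[ℂ] ℂ), φ = fun a =>
      (innerSL ℂ (b a.2)).toLinearMap ∘ₗ (toH ν) ∘ₗ (LLl ν H a.1) := ⟨_, rfl⟩
  have hφ1 : ∀ a F, φ a F = inner ℂ (b a.2) (toH ν (LLl ν H a.1 F)) := by
    intro a F
    rw [hφ]
    rfl
  have hbd : ∀ k (F : EBs X), ‖toH ν (LLl ν H k F)‖ ≤ ‖toH ν F‖ := by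
    intro k F
    have h1 : ‖toH ν (LLl ν H k F)‖ₑ ^ 2 ≤ ‖toH ν F‖ₑ ^ 2 := by
      rw [toH_norm, toH_norm, ← LL_norm ν H F.2]
      exact ENNReal.le_tsum k
    rw [← ofReal_norm, ← ofReal_norm, ← ENNReal.ofReal_pow (norm_nonneg _),
      ← ENNReal.ofReal_pow (norm_nonneg _), ENNReal.ofReal_le_ofReal_iff (by positivity)] at h1
    exact (sq_le_sq₀ (norm_nonneg _) (norm_nonneg _)).1 h1
  have hex : ∀ a, ∃ W : Lp ℂ 2 (lam ν), ∀ F : EBs X, φ a F = inner ℂ W (toH ν F) := by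
    intro a
    refine riesz_ext (toH ν) (φ a) ‖b a.2‖ fun F => ?_
    rw [hφ1]
    refine (norm_inner_le_norm _ _).trans ?_
    exact mul_le_mul_of_nonneg_left (hbd a.1 F) (norm_nonneg _)
  choose W' hW' using hex
  have hW : ∀ a (F : Multiset X → ℂ) (hF : EB F),
      ∫ γ, (starRingEnd ℂ) (W' a γ) * F (ms γ) ∂(lam ν) =
        inner ℂ (b a.2) (toH ν (LLl ν H a.1 ⟨F, hF⟩)) := by
    intro a F hF
    rw [← hφ1, hW', inner_toH]
  refine ⟨(I × Bool → ℤ) × ι, inferInstance, fun a γ => (starRingEnd ℂ) (W' a γ),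
    fun a => cc κ a.1, ?_, ?_, ?_, ?_⟩
  · intro a
    exact (continuous_star.measurable).comp (Lp.stronglyMeasurable (W' a)).measurable
  · intro a
    have h1 := Lp.eLpNorm_lt_top (W' a)
    have h2 : ∫⁻ γ, ‖(starRingEnd ℂ) (W' a γ)‖ₑ ^ 2 ∂(lam ν) = (eLpNorm (W' a) 2 (lam ν)) ^ 2 := by
      rw [eLpNorm_eq_lintegral_rpow_enorm_toReal (by norm_num) (by norm_num)]
      have : ∀ x : ℝ≥0∞, (x ^ (1 / 2 : ℝ)) ^ 2 = x := by
        intro x
        rw [← ENNReal.rpow_natCast, ← ENNReal.rpow_mul]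
        norm_num
      simp only [ENNReal.toReal_ofNat, this]
      refine lintegral_congr fun γ => ?_
      have h3 : ‖(starRingEnd ℂ) (W' a γ)‖ₑ = ‖W' a γ‖ₑ := by
        rw [← ofReal_norm, ← ofReal_norm, RCLike.norm_conj]
      rw [h3]
      norm_num
    rw [h2]
    exact ENNReal.pow_lt_top h1
  · intro G hG
    have h1 : ∀ a : (I × Bool → ℤ) × ι, ‖∫ γ, (starRingEnd ℂ) (W' a γ) * G (ms γ) ∂(lam ν)‖ₑ ^ 2 =
        ‖(inner ℂ (b a.2) (toH ν (LLl ν H a.1 ⟨G, hG⟩)) : ℂ)‖ₑ ^ 2 := by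
      intro a
      rw [hW a G hG]
    simp only [h1]
    rw [ENNReal.tsum_prod (f := fun k m => ‖(inner ℂ (b m) (toH ν (LLl ν H k ⟨G, hG⟩)) : ℂ)‖ₑ ^ 2)]
    simp only [hb, toH_norm]
    exact LL_norm ν H hG
  · intro G hG i
    have hAg : EB (ag ν (u i) G) := (ebc X ν G G hG hG).2.2.2.1 _ (um i) ⟨1, H.u1 i⟩
    have h1 : ∀ a : (I × Bool → ℤ) × ι,
        ‖(∫ γ, (starRingEnd ℂ) (W' a γ) * ag ν (u i) G (ms γ) ∂(lam ν)) -
          cc κ a.1 i * ∫ γ, (starRingEnd ℂ) (W' a γ) * G (ms γ) ∂(lam ν)‖ₑ ^ 2 =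
        ‖(inner ℂ (b a.2) (toH ν (LLl ν H a.1 ⟨_, hAg⟩ - cc κ a.1 i • LLl ν H a.1 ⟨G, hG⟩)) :
          ℂ)‖ₑ ^ 2 := by
      intro a
      rw [hW a G hG, hW a _ hAg, map_sub, map_smul, inner_sub_right, inner_smul_right]
    simp only [h1]
    rw [ENNReal.tsum_prod (f := fun k m => ‖(inner ℂ (b m) (toH ν (LLl ν H k ⟨_, hAg⟩ -
      cc κ k i • LLl ν H k ⟨G, hG⟩)) : ℂ)‖ₑ ^ 2)]
    simp only [hb, toH_norm]
    have h2 := LL_amp ν H hG i (hM i)
    have h3 : 2 / ω + 4 * (M ^ 2 * ω) = 6 * M := by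
      rw [hω]
      field_simp
      ring
    rw [h3] at h2
    exact h2

end

end Pool.Agent.Y656
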