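import Pool.Agent.Y656.Add4

/-!
# One more particle, with a general cut-off function
-/

set_option autoImplicit false
set_option linter.unusedSectionVars false

open MeasureTheory
open scoped ENNReal

namespace Pool.Agent.Y656

open Pool.Agent.W761.CB
open Pool.Agent.W338.CB (ms_cs)
open Pool.Agent.W741.CB (meas_dE meas_an meas_an2 meas_shift meas_shift2 meas_int mono_kin ebc)

noncomputable section

lemma dq_symm (p p' : ℝ) : dq p p' = dq p' p := by
  unfold dq
  ring

lemma dq_meas : Measurable fun r : ℝ × ℝ => ENNReal.ofReal (dq r.1 r.2) := by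
  unfold dq
  fun_prop

/-- an admissible cut-off function -/
structure Pf {n : ℕ} {L : ℝ} (s : Tor n L → ℝ) : Prop where
  meas : Measurable s
  nonneg : ∀ z, 0 ≤ s z
  le_one : ∀ z, s z ≤ 1
  even : ∀ z, s (-z) = s z

section tor
variable {n : ℕ} {L : ℝ} [Fact (0 < L)] {s : Tor n L → ℝ}

/-- the cut-off for one point and a configuration -/
def gsP (s : Tor n L → ℝ) (w : Tor n L) (S : Multiset (Tor n L)) : ℝ :=
  (S.map fun y => s (w - y)).prod

/-- the complementary function -/
def gc (s : Tor n L → ℝ) (w : Tor n L) (S : Multiset (Tor n L)) : ℝ := √(1 - gsP s w S ^ 2)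

lemma gsP_cons (w y : Tor n L) (S : Multiset (Tor n L)) :
    gsP s w (y ::ₘ S) = s (w - y) * gsP s w S := by
  unfold gsP
  rw [Multiset.map_cons, Multiset.prod_cons]

lemma gs_nonneg (hs : Pf s) (w : Tor n L) (S : Multiset (Tor n L)) : 0 ≤ gsP s w S := by
  induction S using Multiset.induction with
  | empty => simp [gsP]
  | cons a S ih =>
    rw [gsP_cons]
    exact mul_nonneg (hs.nonneg _) ih

lemma gs_le (hs : Pf s) (w : Tor n L) (S : Multiset (Tor n L)) : gsP s w S ≤ 1 := by
  induction S using Multiset.induction with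
  | empty => simp [gsP]
  | cons a S ih =>
    rw [gsP_cons]
    exact mul_le_one₀ (hs.le_one _) (gs_nonneg hs _ _) ih

lemma gc_nonneg (w : Tor n L) (S : Multiset (Tor n L)) : 0 ≤ gc s w S := Real.sqrt_nonneg _

lemma gc_le (w : Tor n L) (S : Multiset (Tor n L)) : gc s w S ≤ 1 := by
  unfold gc
  rw [Real.sqrt_le_one]
  have := sq_nonneg (gsP s w S)
  linarith

lemma gc_sq (hs : Pf s) (w : Tor n L) (S : Multiset (Tor n L)) :
    gc s w S ^ 2 = 1 - gsP s w S ^ 2 := by
  unfold gc
  rw [Real.sq_sqrt]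
  have : gsP s w S ^ 2 ≤ 1 := pow_le_one₀ (gs_nonneg hs _ _) (gs_le hs _ _)
  linarith

/-- a change of the position of the new particle -/
lemma dq_gs (hs : Pf s) (w w' : Tor n L) (S : Multiset (Tor n L)) :
    dq (gsP s w S) (gsP s w' S) ≤ (S.map fun y => dq (s (w - y)) (s (w' - y))).sum := by
  induction S using Multiset.induction with
  | empty => simp [gsP, dq_self]
  | cons a S ih =>
    rw [gsP_cons, gsP_cons, Multiset.map_cons, Multiset.sum_cons]
    have h := dq_mul (gs_nonneg hs w S) (gs_le hs w S) (gs_nonneg hs w' S) (gs_le hs w' S)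
      (hs.nonneg (w - a)) (hs.le_one (w - a)) (hs.nonneg (w' - a)) (hs.le_one (w' - a))
    linarith

/-- a change of the position of one of the old particles -/
lemma dq_gs' (hs : Pf s) (w x y : Tor n L) (S : Multiset (Tor n L)) :
    dq (gsP s w (x ::ₘ S)) (gsP s w (y ::ₘ S)) ≤ dq (s (w - x)) (s (w - y)) := by
  rw [gsP_cons, gsP_cons]
  have h := dq_mul (gs_nonneg hs w S) (gs_le hs w S) (gs_nonneg hs w S) (gs_le hs w S)
    (hs.nonneg (w - x)) (hs.le_one (w - x)) (hs.nonneg (w - y)) (hs.le_one (w - y))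
  rw [dq_self] at h
  linarith

/-- the volume near the particles -/
lemma gc_sum (hs : Pf s) (w : Tor n L) (S : Multiset (Tor n L)) :
    ENNReal.ofReal (gc s w S ^ 2) ≤
      (S.map fun y => ENNReal.ofReal (1 - s (w - y) ^ 2)).sum := by
  induction S using Multiset.induction with
  | empty => simp [gc, gsP]
  | cons a S ih =>
    rw [Multiset.map_cons, Multiset.sum_cons]
    refine le_trans ?_ (add_le_add le_rfl ih)
    have h1 : s (w - a) ^ 2 ≤ 1 := pow_le_one₀ (hs.nonneg _) (hs.le_one _)
    rw [← ENNReal.ofReal_add (by linarith) (by positivity), gc_sq hs, gc_sq hs, gsP_cons]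
    refine ENNReal.ofReal_le_ofReal ?_
    have h2 : gsP s w S ^ 2 ≤ 1 := pow_le_one₀ (gs_nonneg hs _ _) (gs_le hs _ _)
    rw [mul_pow]
    nlinarith [mul_nonneg (sub_nonneg.2 h1) (sub_nonneg.2 h2)]

lemma gs_meas (hs : Pf s) : Measurable fun p : Tor n L × Cf (Tor n L) => gsP s p.1 (ms p.2) := by
  obtain ⟨-, -, h3, -⟩ := Pool.Agent.W975.CB.proof_ms (Tor n L)
  have h := h3 (Tor n L) (fun w y => ((s (w - y) : ℝ) : ℂ))
    (Complex.measurable_ofReal.comp (hs.meas.comp (measurable_fst.sub measurable_snd)))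
  have e : (fun p : Tor n L × Cf (Tor n L) => gsP s p.1 (ms p.2)) =
      fun p : Tor n L × Cf (Tor n L) =>
        (((ms p.2).map fun y => ((s (p.1 - y) : ℝ) : ℂ)).prod).re := by
    funext p
    have e2 : ((ms p.2).map fun y => ((s (p.1 - y) : ℝ) : ℂ)).prod = ((gsP s p.1 (ms p.2) : ℝ) : ℂ) := by
      unfold gsP
      have := map_multiset_prod Complex.ofRealHom ((ms p.2).map fun y => s (p.1 - y))
      rw [Multiset.map_map] at this
      exact this.symm
    rw [e2, Complex.ofReal_re]
  rw [e]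
  exact Complex.measurable_re.comp h

lemma gc_meas (hs : Pf s) : Measurable fun p : Tor n L × Cf (Tor n L) => gc s p.1 (ms p.2) := by
  unfold gc
  exact (measurable_const.sub ((gs_meas hs).pow_const 2)).sqrt

/-- the part with the new particle far from the other particles -/
def Qs (s : Tor n L → ℝ) (F : Multiset (Tor n L) → ℂ) (w : Tor n L) (S : Multiset (Tor n L)) : ℝ :=
  gsP s w S * ‖F S‖

/-- the part with a particle near the point `w` -/
def Qc (s : Tor n L → ℝ) (F : Multiset (Tor n L) → ℂ) (w : Tor n L) (S : Multiset (Tor n L)) : ℝ :=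
  gc s w S * ‖F S‖

lemma Qs_FR (hs : Pf s) {F : Multiset (Tor n L) → ℂ} (hF : EB F) : FR (Qs s F) := by
  obtain ⟨C, c, hC, hc, hb⟩ := hF.bdd
  refine ⟨(gs_meas hs).mul ((hF.meas.norm).comp measurable_snd), C, c, hC, hc, fun w S => ?_⟩
  unfold Qs
  rw [abs_mul, abs_of_nonneg (gs_nonneg hs _ _), abs_norm]
  exact (mul_le_of_le_one_left (norm_nonneg _) (gs_le hs _ _)).trans (hb S)

lemma Qc_FR (hs : Pf s) {F : Multiset (Tor n L) → ℂ} (hF : EB F) : FR (Qc s F) := by
  obtain ⟨C, c, hC, hc, hb⟩ := hF.bdd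
  refine ⟨(gc_meas hs).mul ((hF.meas.norm).comp measurable_snd), C, c, hC, hc, fun w S => ?_⟩
  unfold Qc
  rw [abs_mul, abs_of_nonneg (gc_nonneg _ _), abs_norm]
  exact (mul_le_of_le_one_left (norm_nonneg _) (gc_le _ _)).trans (hb S)

lemma sum_gq (hs : Pf s) (F : Multiset (Tor n L) → ℂ) (w : Tor n L) (S : Multiset (Tor n L)) :
    ENNReal.ofReal (Qs s F w S ^ 2) + ENNReal.ofReal (Qc s F w S ^ 2) = ‖F S‖ₑ ^ 2 := by
  rw [← ENNReal.ofReal_add (by positivity) (by positivity), en_sq']
  congr 1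
  unfold Qs Qc
  rw [mul_pow, mul_pow, gc_sq hs]
  ring

/-- the norms -/
theorem gadd_nE (hTF : S_TF) (hs : Pf s) {F : Multiset (Tor n L) → ℂ} (hF : EB F) :
    nE volume (GP (Qs s F)) + ∫⁻ w, nE volume (tc (Qc s F) w) =
      ENNReal.ofReal (L ^ n) * nE volume F := by
  have _h := finlam (volume : Measure (Tor n L))
  have h1 := (Qs_FR hs hF)
  have h2 := (Qc_FR hs hF)
  rw [nE_GP volume h1]
  simp only [nE_tc]
  rw [← lintegral_add_left h1.sqm.lintegral_prod_right']
  have e : ∀ w : Tor n L, (∫⁻ γ, ENNReal.ofReal (Qs s F w (ms γ) ^ 2) ∂(lam volume)) +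
      ∫⁻ γ, ENNReal.ofReal (Qc s F w (ms γ) ^ 2) ∂(lam volume) = nE volume F := by
    intro w
    rw [← lintegral_add_left ((h1.fix w).pow_const 2).ennreal_ofReal]
    unfold nE
    exact lintegral_congr fun γ => sum_gq hs F w (ms γ)
  simp only [e]
  rw [lintegral_const, (hTF n L).1, mul_comm]

/-- the volume -/
def gv (s : Tor n L → ℝ) : ℝ≥0∞ := ∫⁻ z, ENNReal.ofReal (1 - s z ^ 2)

/-- the differences of the cut-off function -/
def gM (s : Tor n L → ℝ) (h : Tor n L) : ℝ≥0∞ := ∫⁻ z, ENNReal.ofReal (dq (s (z + h)) (s z))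

/-- the norm of the part with a particle near `w` -/
theorem gcos_nE (hTF : S_TF) (hs : Pf s) {F : Multiset (Tor n L) → ℂ} (hF : EB F) :
    ∫⁻ w, nE volume (tc (Qc s F) w) ≤ gv s * nuE volume F := by
  have _h := finlam (volume : Measure (Tor n L))
  have hM := Pool.Agent.W975.CB.proof_ms
  have hL := Pool.Agent.W366.CB.proof_lam hM
  have hind : Measurable fun p : Tor n L × Tor n L => ENNReal.ofReal (1 - s (p.1 - p.2) ^ 2) :=
    (measurable_const.sub ((hs.meas.comp (measurable_fst.sub measurable_snd)).pow_const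
      2)).ennreal_ofReal
  have hindw : ∀ y : Tor n L, Measurable fun w : Tor n L => ENNReal.ofReal (1 - s (w - y) ^ 2) :=
    fun y => hind.comp (f := fun w : Tor n L => (w, y)) (measurable_id.prodMk measurable_const)
  have h1 : ∀ w : Tor n L, nE volume (tc (Qc s F) w) ≤
      ∫⁻ y, ENNReal.ofReal (1 - s (w - y) ^ 2) * nE volume (an y F) := by
    intro w
    rw [nE_tc]
    have hm : Measurable fun p : Tor n L × Cf (Tor n L) =>
        ENNReal.ofReal (1 - s (w - p.1) ^ 2) * ‖F (ms p.2)‖ₑ ^ 2 := by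
      have h3 : Measurable fun p : Tor n L × Cf (Tor n L) => ENNReal.ofReal (1 - s (w - p.1) ^ 2) :=
        hind.comp (f := fun p : Tor n L × Cf (Tor n L) => (w, p.1))
          (measurable_const.prodMk measurable_fst)
      exact h3.mul ((hF.meas.comp measurable_snd).enorm.pow_const 2)
    have h2 := Pool.Agent.W337.CB.proof_mecke hM hL (Tor n L) volume
      (fun y S => ENNReal.ofReal (1 - s (w - y) ^ 2) * ‖F S‖ₑ ^ 2) hm
    calc _ ≤ ∫⁻ γ, ((ms γ).map fun y => ENNReal.ofReal (1 - s (w - y) ^ 2) *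
          ‖F (ms γ)‖ₑ ^ 2).sum ∂(lam volume) := by
          refine lintegral_mono fun γ => ?_
          rw [Multiset.sum_map_mul_right, en_sq']
          unfold Qc
          rw [mul_pow, ENNReal.ofReal_mul (by positivity)]
          exact mul_le_mul' (gc_sum hs w (ms γ)) le_rfl
      _ = _ := by
          rw [h2]
          refine lintegral_congr fun y => ?_
          unfold nE an
          rw [lintegral_const_mul' _ _ ENNReal.ofReal_ne_top]
  refine (lintegral_mono h1).trans ?_
  have hm2 : Measurable fun p : Tor n L × Tor n L =>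
      ENNReal.ofReal (1 - s (p.1 - p.2) ^ 2) * nE volume (an p.2 F) :=
    hind.mul ((meas_an hF).comp measurable_snd)
  rw [lintegral_lintegral_swap hm2.aemeasurable]
  unfold nuE
  rw [← lintegral_const_mul _ (meas_an hF)]
  refine lintegral_mono fun y => ?_
  dsimp only
  rw [lintegral_mul_const _ (hindw y)]
  refine mul_le_mul' (le_of_eq ?_) le_rfl
  unfold gv
  have h3 : Measurable fun z : Tor n L => ENNReal.ofReal (1 - s z ^ 2) :=
    (measurable_const.sub (hs.meas.pow_const 2)).ennreal_ofReal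
  have h4 := (hTF n L).2.2.2.2.1 (fun z => ENNReal.ofReal (1 - s z ^ 2)) h3 (-y)
  rw [← h4]
  refine lintegral_congr fun w => ?_
  rw [← sub_eq_add_neg w y]

/-- the difference of the angles -/
def gD (s : Tor n L → ℝ) (x y z : Tor n L) : ℝ≥0∞ := ENNReal.ofReal (dq (s (x - z)) (s (y - z)))

lemma gD_meas (hs : Pf s) :
    Measurable fun q : Tor n L × Tor n L × Tor n L => gD s q.1 q.2.1 q.2.2 := by
  have h1 : Measurable fun q : Tor n L × Tor n L × Tor n L => s (q.1 - q.2.2) :=
    hs.meas.comp (measurable_fst.sub (measurable_snd.comp measurable_snd))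
  have h2 : Measurable fun q : Tor n L × Tor n L × Tor n L => s (q.2.1 - q.2.2) :=
    hs.meas.comp ((measurable_fst.comp measurable_snd).sub (measurable_snd.comp measurable_snd))
  exact dq_meas.comp (f := fun q : Tor n L × Tor n L × Tor n L => (s (q.1 - q.2.2),
    s (q.2.1 - q.2.2))) (h1.prodMk h2)

lemma dM_meas (hs : Pf s) :
    Measurable fun q : Tor n L × Tor n L => ENNReal.ofReal (dq (s (q.2 + q.1)) (s q.2)) :=
  dq_meas.comp (f := fun q : Tor n L × Tor n L => (s (q.2 + q.1), s q.2))
    ((hs.meas.comp (measurable_snd.add measurable_fst)).prodMk (hs.meas.comp measurable_snd))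

lemma gM_meas (hs : Pf s) : Measurable fun h : Tor n L => gM s h :=
  (dM_meas hs).lintegral_prod_right'

lemma gint1 (hTF : S_TF) (hs : Pf s) (h z : Tor n L) :
    ∫⁻ x, gD s (x + h) x z = gM s h := by
  have h3 : Measurable fun x : Tor n L => ENNReal.ofReal (dq (s (x + h)) (s x)) :=
    (dM_meas hs).comp (f := fun x : Tor n L => (h, x)) (measurable_const.prodMk measurable_id)
  have h4 := (hTF n L).2.2.2.2.1 (fun x => ENNReal.ofReal (dq (s (x + h)) (s x))) h3 (-z)
  unfold gM gD
  rw [← h4]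
  refine lintegral_congr fun x => ?_
  rw [show x + h - z = x + -z + h by abel, show x - z = x + -z by abel]

lemma gint2 (hTF : S_TF) (hs : Pf s) (x h : Tor n L) :
    ∫⁻ w, gD s (x + h) x w = gM s h := by
  have h3 : Measurable fun u : Tor n L => ENNReal.ofReal (dq (s (u + h)) (s u)) :=
    (dM_meas hs).comp (f := fun x : Tor n L => (h, x)) (measurable_const.prodMk measurable_id)
  have h4 := (hTF n L).2.2.2.2.1 (fun x => ENNReal.ofReal (dq (s (x + h)) (s x))) h3 (-x - h)
  unfold gM gD
  rw [← h4]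
  refine lintegral_congr fun w => ?_
  rw [← hs.even (x + h - w), ← hs.even (x - w), dq_symm]
  rw [show -(x - w) = w + (-x - h) + h by abel, show -(x + h - w) = w + (-x - h) by abel]

end tor

end

end Pool.Agent.Y656
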