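import Pool.Agent.Y656.Gen

/-!
# One more particle, with a general cut-off function: the energy
-/

set_option autoImplicit false
set_option linter.unusedSectionVars false

open MeasureTheory
open scoped ENNReal

namespace Pool.Agent.Y656

open Pool.Agent.W761.CB
open Pool.Agent.W338.CB (ms_cs)
open Pool.Agent.W741.CB (meas_dE meas_an meas_an2 meas_shift meas_shift2 meas_int mono_kin ebc)

noncomputable section

variable {n : ℕ} {L : ℝ} [Fact (0 < L)] {s : Tor n L → ℝ}

/-- the differences, pointwise -/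
theorem gadd_dE (hTF : S_TF) (hs : Pf s) {F : Multiset (Tor n L) → ℂ} (hF : EB F)
    (x y : Tor n L) : dE volume (GP (Qs s F)) x y + ∫⁻ w, dE volume (tc (Qc s F) w) x y ≤
      (∫⁻ z, gD s x y z * nE volume (an z F)) + (ENNReal.ofReal (L ^ n) * dE volume F x y +
        (∫⁻ w, gD s x y w) * (2⁻¹ * nE volume (an x F) + 2⁻¹ * nE volume (an y F))) := by
  have _h := finlam (volume : Measure (Tor n L))
  have hM := Pool.Agent.W975.CB.proof_ms
  have hL := Pool.Agent.W366.CB.proof_lam hM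
  have h1 := (Qs_FR hs hF)
  have h2 := (Qc_FR hs hF)
  have hx : EB (an x F) := (ebc (Tor n L) volume F F hF hF).1 x
  have hy : EB (an y F) := (ebc (Tor n L) volume F F hF hF).1 y
  have hDx : Measurable fun z : Tor n L => gD s x y z :=
    (gD_meas hs).comp (f := fun z : Tor n L => (x, y, z))
      (measurable_const.prodMk (measurable_const.prodMk measurable_id))
  -- the new particle moves
  have t1 : ∫⁻ γ, ENNReal.ofReal ((Qs s F x (ms γ) - Qs s F y (ms γ)) ^ 2) ∂(lam volume) ≤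
      ∫⁻ z, gD s x y z * nE volume (an z F) := by
    have hm : Measurable fun p : Tor n L × Cf (Tor n L) => gD s x y p.1 * ‖F (ms p.2)‖ₑ ^ 2 :=
      (hDx.comp measurable_fst).mul ((hF.meas.comp measurable_snd).enorm.pow_const 2)
    have h3 := Pool.Agent.W337.CB.proof_mecke hM hL (Tor n L) volume
      (fun z S => gD s x y z * ‖F S‖ₑ ^ 2) hm
    have h4 : ∫⁻ z, gD s x y z * nE volume (an z F) =
        ∫⁻ z, ∫⁻ γ, gD s x y z * ‖F (z ::ₘ ms γ)‖ₑ ^ 2 ∂(lam volume) := by
      refine lintegral_congr fun z => ?_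
      unfold nE an
      rw [lintegral_const_mul']
      exact ENNReal.ofReal_ne_top
    rw [h4, ← h3]
    refine lintegral_mono fun γ => ?_
    dsimp only
    rw [Multiset.sum_map_mul_right, en_sq']
    have h5 := dq_gs hs x y (ms γ)
    have h6 : (gsP s x (ms γ) - gsP s y (ms γ)) ^ 2 ≤ dq (gsP s x (ms γ)) (gsP s y (ms γ)) := by
      unfold dq
      have := sq_nonneg (√(1 - gsP s x (ms γ) ^ 2) - √(1 - gsP s y (ms γ) ^ 2))
      linarith
    have h7 : (((ms γ).map fun z => gD s x y z).sum : ℝ≥0∞) =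
        ENNReal.ofReal ((ms γ).map fun z => dq (s (x - z)) (s (y - z))).sum := by
      generalize ms γ = S
      induction S using Multiset.induction with
      | empty => simp
      | cons a S ih =>
        rw [Multiset.map_cons, Multiset.sum_cons, Multiset.map_cons, Multiset.sum_cons, ih,
          ENNReal.ofReal_add (dq_nonneg _ _)]
        · rfl
        · exact Multiset.sum_nonneg fun r hr => by
            obtain ⟨z, -, rfl⟩ := Multiset.mem_map.1 hr
            exact dq_nonneg _ _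
    rw [h7, ← ENNReal.ofReal_mul (Multiset.sum_nonneg fun r hr => by
      obtain ⟨z, -, rfl⟩ := Multiset.mem_map.1 hr
      exact dq_nonneg _ _)]
    refine ENNReal.ofReal_le_ofReal ?_
    unfold Qs
    rw [← sub_mul, mul_pow]
    exact mul_le_mul_of_nonneg_right (h6.trans h5) (by positivity)
  -- an old particle moves
  have m1 : Measurable fun w : Tor n L => ∫⁻ γ, ENNReal.ofReal ((Qs s F w (x ::ₘ ms γ) -
      Qs s F w (y ::ₘ ms γ)) ^ 2) ∂(lam volume) :=
    ((h1.cons x).sub (h1.cons y)).sqm.lintegral_prod_right'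
  have mx : Measurable fun γ : Cf (Tor n L) => ‖F (x ::ₘ ms γ)‖ₑ ^ 2 := hx.meas.enorm.pow_const 2
  have my : Measurable fun γ : Cf (Tor n L) => ‖F (y ::ₘ ms γ)‖ₑ ^ 2 := hy.meas.enorm.pow_const 2
  have t2 : ∀ w : Tor n L, (∫⁻ γ, ENNReal.ofReal ((Qs s F w (x ::ₘ ms γ) -
      Qs s F w (y ::ₘ ms γ)) ^ 2) ∂(lam volume)) + dE volume (tc (Qc s F) w) x y ≤
      dE volume F x y + gD s x y w * (2⁻¹ * nE volume (an x F) + 2⁻¹ * nE volume (an y F)) := by
    intro w
    have m2 : Measurable fun γ : Cf (Tor n L) => ENNReal.ofReal ((Qs s F w (x ::ₘ ms γ) -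
        Qs s F w (y ::ₘ ms γ)) ^ 2) := (((h1.cons x).sub (h1.cons y)).fix w |>.pow_const 2).ennreal_ofReal
    have m3 : Measurable fun γ : Cf (Tor n L) => ‖F (x ::ₘ ms γ) - F (y ::ₘ ms γ)‖ₑ ^ 2 :=
      ((hx.meas.sub hy.meas).enorm).pow_const 2
    rw [dE_tc, ← lintegral_add_left m2]
    have e1 : dE volume F x y + gD s x y w * (2⁻¹ * nE volume (an x F) +
        2⁻¹ * nE volume (an y F)) = ∫⁻ γ, (‖F (x ::ₘ ms γ) - F (y ::ₘ ms γ)‖ₑ ^ 2 +
          gD s x y w * (2⁻¹ * ‖F (x ::ₘ ms γ)‖ₑ ^ 2 + 2⁻¹ * ‖F (y ::ₘ ms γ)‖ₑ ^ 2))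
            ∂(lam volume) := by
      rw [lintegral_add_left m3, lintegral_const_mul' (gD s x y w) _
          (by unfold gD; exact ENNReal.ofReal_ne_top),
        lintegral_add_left (mx.const_mul _), lintegral_const_mul _ mx, lintegral_const_mul _ my]
      rfl
    rw [e1]
    refine lintegral_mono fun γ => ?_
    dsimp only
    have h3 := ims (F := ‖F (x ::ₘ ms γ)‖) (F' := ‖F (y ::ₘ ms γ)‖)
      (gs_nonneg hs w (x ::ₘ ms γ)) (gs_le hs w (x ::ₘ ms γ))
      (gs_nonneg hs w (y ::ₘ ms γ)) (gs_le hs w (y ::ₘ ms γ))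
    have h4 : dq (gsP s w (x ::ₘ ms γ)) (gsP s w (y ::ₘ ms γ)) ≤ dq (s (x - w)) (s (y - w)) := by
      rw [← hs.even (x - w), ← hs.even (y - w), neg_sub, neg_sub]
      exact dq_gs' hs w x y (ms γ)
    have h5 : (‖F (x ::ₘ ms γ)‖ - ‖F (y ::ₘ ms γ)‖) ^ 2 ≤ ‖F (x ::ₘ ms γ) - F (y ::ₘ ms γ)‖ ^ 2 := by
      have := abs_norm_sub_norm_le (F (x ::ₘ ms γ)) (F (y ::ₘ ms γ))
      rw [← sq_abs]
      exact pow_le_pow_left₀ (abs_nonneg _) this 2
    have e2 : (2⁻¹ : ℝ≥0∞) = ENNReal.ofReal (1 / 2) := by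
      rw [one_div, ENNReal.ofReal_inv_of_pos (by norm_num)]
      norm_num
    have e3 : gD s x y w * (2⁻¹ * ‖F (x ::ₘ ms γ)‖ₑ ^ 2 + 2⁻¹ * ‖F (y ::ₘ ms γ)‖ₑ ^ 2) =
        ENNReal.ofReal (dq (s (x - w)) (s (y - w)) * (1 / 2 * ‖F (x ::ₘ ms γ)‖ ^ 2 +
          1 / 2 * ‖F (y ::ₘ ms γ)‖ ^ 2)) := by
      rw [en_sq', en_sq', e2, ← ENNReal.ofReal_mul (by norm_num),
        ← ENNReal.ofReal_mul (by norm_num), ← ENNReal.ofReal_add (by positivity) (by positivity),
        gD, ← ENNReal.ofReal_mul (dq_nonneg _ _)]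
    rw [e3, en_sq', ← ENNReal.ofReal_add (by positivity) (by positivity),
      ← ENNReal.ofReal_add (by positivity) (mul_nonneg (dq_nonneg _ _) (by positivity))]
    refine ENNReal.ofReal_le_ofReal ?_
    have h6 : 0 ≤ ‖F (x ::ₘ ms γ)‖ ^ 2 / 2 + ‖F (y ::ₘ ms γ)‖ ^ 2 / 2 := by positivity
    have h7 := mul_le_mul_of_nonneg_right h4 h6
    unfold Qs Qc
    unfold gc
    linarith
  calc dE volume (GP (Qs s F)) x y + ∫⁻ w, dE volume (tc (Qc s F) w) x y
      ≤ ((∫⁻ z, gD s x y z * nE volume (an z F)) +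
        ∫⁻ w, ∫⁻ γ, ENNReal.ofReal ((Qs s F w (x ::ₘ ms γ) -
          Qs s F w (y ::ₘ ms γ)) ^ 2) ∂(lam volume)) +
            ∫⁻ w, dE volume (tc (Qc s F) w) x y := by
        gcongr
        exact (dE_GP volume h1 x y).trans (add_le_add t1 le_rfl)
    _ = (∫⁻ z, gD s x y z * nE volume (an z F)) +
        ∫⁻ w, ((∫⁻ γ, ENNReal.ofReal ((Qs s F w (x ::ₘ ms γ) -
          Qs s F w (y ::ₘ ms γ)) ^ 2) ∂(lam volume)) + dE volume (tc (Qc s F) w) x y) := by
        rw [lintegral_add_left m1, add_assoc]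
    _ ≤ (∫⁻ z, gD s x y z * nE volume (an z F)) +
        ∫⁻ w, (dE volume F x y + gD s x y w * (2⁻¹ * nE volume (an x F) +
          2⁻¹ * nE volume (an y F))) := add_le_add le_rfl (lintegral_mono t2)
    _ = _ := by
        rw [lintegral_add_left measurable_const, lintegral_const, (hTF n L).1,
          lintegral_mul_const _ hDx, mul_comm (dE volume F x y)]

attribute [local irreducible] dE nE

/-- the differences, integrated -/
theorem gadd_shift (hTF : S_TF) (hs : Pf s) {F : Multiset (Tor n L) → ℂ} (hF : EB F)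
    (h : Tor n L) :
    (∫⁻ x, dE volume (GP (Qs s F)) (x + h) x) +
      ∫⁻ w, ∫⁻ x, dE volume (tc (Qc s F) w) (x + h) x ≤
    ENNReal.ofReal (L ^ n) * (∫⁻ x, dE volume F (x + h) x) +
      2 * gM s h * nuE volume F := by
  have h2 := Qc_FR hs hF
  have m1 : Measurable fun p : Tor n L × Tor n L =>
      dE volume (tc (Qc s F) p.1) (p.2 + h) p.2 := h2.m_shift h
  have mA : Measurable fun x : Tor n L => dE volume (GP (Qs s F)) (x + h) x :=
    meas_shift (GP_EB (Qs_FR hs hF)) h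
  have mF : Measurable fun x : Tor n L => dE volume F (x + h) x := meas_shift hF h
  have mN : Measurable fun x : Tor n L => nE volume (an x F) := meas_an hF
  have mNh : Measurable fun x : Tor n L => nE volume (an (x + h) F) :=
    mN.comp (measurable_id.add_const h)
  have mD : Measurable fun p : Tor n L × Tor n L => gD s (p.1 + h) p.1 p.2 :=
    (gD_meas hs).comp (f := fun p : Tor n L × Tor n L => (p.1 + h, p.1, p.2))
      ((measurable_fst.add_const h).prodMk (measurable_fst.prodMk measurable_snd))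
  have mDz : ∀ z : Tor n L, Measurable fun x : Tor n L => gD s (x + h) x z := fun z =>
    mD.comp (f := fun x : Tor n L => (x, z)) (measurable_id.prodMk measurable_const)
  have mDN : Measurable fun p : Tor n L × Tor n L => gD s (p.1 + h) p.1 p.2 *
      nE volume (an p.2 F) := mD.mul (mN.comp measurable_snd)
  have mT1 : Measurable fun x : Tor n L => ∫⁻ z, gD s (x + h) x z * nE volume (an z F) :=
    mDN.lintegral_prod_right'
  have mLF : Measurable fun x : Tor n L => ENNReal.ofReal (L ^ n) * dE volume F (x + h) x :=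
    mF.const_mul _
  have mS : Measurable fun x : Tor n L =>
      2⁻¹ * nE volume (an (x + h) F) + 2⁻¹ * nE volume (an x F) :=
    (mNh.const_mul _).add (mN.const_mul _)
  have e0 : ∫⁻ w, ∫⁻ x, dE volume (tc (Qc s F) w) (x + h) x =
      ∫⁻ x, ∫⁻ w, dE volume (tc (Qc s F) w) (x + h) x :=
    lintegral_lintegral_swap m1.aemeasurable
  have hnu : ∫⁻ x : Tor n L, (2⁻¹ * nE volume (an (x + h) F) + 2⁻¹ * nE volume (an x F)) =
      nuE volume F := by
    have e2 : ∫⁻ x : Tor n L, nE volume (an (x + h) F) = nuE volume F := by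
      have := (hTF n L).2.2.2.2.1 (fun x => nE volume (an x F)) mN h
      rw [this]
      rfl
    rw [lintegral_add_left (mNh.const_mul _), lintegral_const_mul _ mNh,
      lintegral_const_mul _ mN, e2]
    change 2⁻¹ * nuE volume F + 2⁻¹ * nuE volume F = nuE volume F
    rw [← add_mul, ENNReal.inv_two_add_inv_two, one_mul]
  have t1 : ∫⁻ x, ∫⁻ z, gD s (x + h) x z * nE volume (an z F) =
      gM s h * nuE volume F := by
    rw [lintegral_lintegral_swap mDN.aemeasurable]
    unfold nuE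
    rw [← lintegral_const_mul _ mN]
    refine lintegral_congr fun z => ?_
    rw [lintegral_mul_const _ (mDz z), gint1 hTF hs h z]
  have t3 : ∫⁻ x : Tor n L, (∫⁻ w, gD s (x + h) x w) *
      (2⁻¹ * nE volume (an (x + h) F) + 2⁻¹ * nE volume (an x F)) =
      gM s h * nuE volume F := by
    rw [← hnu, ← lintegral_const_mul _ mS]
    exact lintegral_congr fun x => by rw [gint2 hTF hs x h]
  rw [e0, ← lintegral_add_left mA]
  calc ∫⁻ x, (dE volume (GP (Qs s F)) (x + h) x + ∫⁻ w, dE volume (tc (Qc s F) w) (x + h) x)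
      ≤ ∫⁻ x, ((∫⁻ z, gD s (x + h) x z * nE volume (an z F)) +
        (ENNReal.ofReal (L ^ n) * dE volume F (x + h) x +
        (∫⁻ w, gD s (x + h) x w) *
          (2⁻¹ * nE volume (an (x + h) F) + 2⁻¹ * nE volume (an x F)))) :=
        lintegral_mono fun x => gadd_dE hTF hs hF (x + h) x
    _ = (∫⁻ x, ∫⁻ z, gD s (x + h) x z * nE volume (an z F)) +
        (ENNReal.ofReal (L ^ n) * (∫⁻ x, dE volume F (x + h) x) +
        ∫⁻ x : Tor n L, (∫⁻ w, gD s (x + h) x w) *
          (2⁻¹ * nE volume (an (x + h) F) + 2⁻¹ * nE volume (an x F))) := by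
        rw [lintegral_add_left mT1, lintegral_add_left mLF, lintegral_const_mul _ mF]
    _ = _ := by
        rw [t1, t3]
        ring

/-- the kinetic energy of the cut-off function -/
def gK (s : Tor n L → ℝ) : ℝ≥0∞ := ∑ c : Fin n, ⨆ k : ℕ, 4 ^ k * gM s (ec L c ((2 : ℝ)⁻¹ ^ k))

/-- the hopping energy of the cut-off function -/
def gH (K : (Fin n → ℝ) → ℝ≥0∞) (s : Tor n L → ℝ) : ℝ≥0∞ := 2⁻¹ * ∫⁻ z, K z * gM s (pr L z)

/-- the kinetic energy -/
theorem gadd_Kp (hTF : S_TF) (hs : Pf s) {F : Multiset (Tor n L) → ℂ} (hF : EB F) :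
    Kp (GP (Qs s F)) + ∫⁻ w, Kp (tc (Qc s F) w) ≤
      ENNReal.ofReal (L ^ n) * Kp F + 2 * gK s * nuE volume F := by
  have h2 := Qc_FR hs hF
  have hA := GP_EB (Qs_FR hs hF)
  have mI : ∀ h : Tor n L, Measurable fun w : Tor n L =>
      ∫⁻ x, dE volume (tc (Qc s F) w) (x + h) x := fun h => (h2.m_shift h).lintegral_prod_right'
  have mk : ∀ (c : Fin n) (k : ℕ), Measurable fun w : Tor n L =>
      4 ^ k * ∫⁻ x, dE volume (tc (Qc s F) w) (x + ec L c ((2 : ℝ)⁻¹ ^ k)) x :=
    fun c k => (mI _).const_mul _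
  have e1 : ∀ c : Fin n, ∫⁻ w, ⨆ k : ℕ, 4 ^ k *
        ∫⁻ x, dE volume (tc (Qc s F) w) (x + ec L c ((2 : ℝ)⁻¹ ^ k)) x =
      ⨆ k : ℕ, ∫⁻ w, 4 ^ k *
        ∫⁻ x, dE volume (tc (Qc s F) w) (x + ec L c ((2 : ℝ)⁻¹ ^ k)) x := by
    intro c
    refine lintegral_iSup (mk c) ?_
    intro i j hij w
    exact mono_kin hTF (h2.tc_EB w) c hij
  have mS : ∀ c : Fin n, Measurable fun w : Tor n L => ⨆ k : ℕ, 4 ^ k *
        ∫⁻ x, dE volume (tc (Qc s F) w) (x + ec L c ((2 : ℝ)⁻¹ ^ k)) x :=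
    fun c => Measurable.iSup (mk c)
  unfold Kp gK
  rw [lintegral_finsetSum _ fun c _ => mS c, ← Finset.sum_add_distrib, Finset.mul_sum,
    Finset.mul_sum, Finset.sum_mul, ← Finset.sum_add_distrib]
  refine Finset.sum_le_sum fun c _ => ?_
  rw [e1 c, ENNReal.iSup_add_iSup_of_monotone (mono_kin hTF hA c)]
  · refine iSup_le fun k => ?_
    rw [lintegral_const_mul _ (mI _), ← mul_add]
    refine (mul_le_mul' le_rfl (gadd_shift hTF hs hF _)).trans ?_
    rw [mul_add]
    refine add_le_add ?_ ?_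
    · rw [mul_left_comm]
      refine mul_le_mul' le_rfl ?_
      exact le_iSup (fun k : ℕ => (4 : ℝ≥0∞) ^ k *
        ∫⁻ x, dE volume F (x + ec L c ((2 : ℝ)⁻¹ ^ k)) x) k
    · rw [← mul_assoc, mul_left_comm]
      refine mul_le_mul' (mul_le_mul' le_rfl ?_) le_rfl
      exact le_iSup (fun k : ℕ => (4 : ℝ≥0∞) ^ k * gM s (ec L c ((2 : ℝ)⁻¹ ^ k))) k
  · intro i j hij
    exact lintegral_mono fun w => mono_kin hTF (h2.tc_EB w) c hij

/-- the hopping energy -/
theorem gadd_Hp (hTF : S_TF) (hs : Pf s) {K : (Fin n → ℝ) → ℝ≥0∞} (hK : Measurable K)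
    {F : Multiset (Tor n L) → ℂ} (hF : EB F) :
    Hp K (GP (Qs s F)) + ∫⁻ w, Hp K (tc (Qc s F) w) ≤
      ENNReal.ofReal (L ^ n) * Hp K F + 2 * gH K s * nuE volume F := by
  have h2 := Qc_FR hs hF
  have hA := GP_EB (Qs_FR hs hF)
  have mP : Measurable fun q : (Tor n L × (Fin n → ℝ)) × Tor n L =>
      dE volume (tc (Qc s F) q.1.1) (q.2 + pr L q.1.2) q.2 :=
    (h2.m_dE volume).comp (f := fun q : (Tor n L × (Fin n → ℝ)) × Tor n L =>
      (q.1.1, q.2 + pr L q.1.2, q.2))
      ((measurable_fst.comp measurable_fst).prodMk ((measurable_snd.add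
        ((hTF n L).2.1.comp (measurable_snd.comp measurable_fst))).prodMk measurable_snd))
  have mQ : Measurable fun q : Tor n L × (Fin n → ℝ) =>
      ∫⁻ x, dE volume (tc (Qc s F) q.1) (x + pr L q.2) x := mP.lintegral_prod_right'
  have mQK : Measurable fun q : Tor n L × (Fin n → ℝ) =>
      K q.2 * ∫⁻ x, dE volume (tc (Qc s F) q.1) (x + pr L q.2) x :=
    (hK.comp measurable_snd).mul mQ
  have mQw : ∀ z : Fin n → ℝ, Measurable fun w : Tor n L =>
      ∫⁻ x, dE volume (tc (Qc s F) w) (x + pr L z) x := fun z =>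
    mQ.comp (f := fun w : Tor n L => (w, z)) (measurable_id.prodMk measurable_const)
  have mW : Measurable fun w : Tor n L => ∫⁻ z, K z *
      ∫⁻ x, dE volume (tc (Qc s F) w) (x + pr L z) x := mQK.lintegral_prod_right'
  have mA : Measurable fun z : Fin n → ℝ => K z *
      ∫⁻ x, dE volume (GP (Qs s F)) (x + pr L z) x := hK.mul (meas_int hTF hA)
  have mF : Measurable fun z : Fin n → ℝ => K z *
      ∫⁻ x, dE volume F (x + pr L z) x := hK.mul (meas_int hTF hF)
  have mm0 : Measurable fun z : Fin n → ℝ => K z * gM s (pr L z) :=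
    hK.mul ((gM_meas hs).comp (hTF n L).2.1)
  unfold Hp gH
  rw [lintegral_const_mul _ mW, ← mul_add, lintegral_lintegral_swap mQK.aemeasurable,
    ← lintegral_add_left mA]
  have key : ∀ z : Fin n → ℝ, K z * (∫⁻ x, dE volume (GP (Qs s F)) (x + pr L z) x) +
      (∫⁻ w, K z * ∫⁻ x, dE volume (tc (Qc s F) w) (x + pr L z) x) ≤
      ENNReal.ofReal (L ^ n) * (K z * ∫⁻ x, dE volume F (x + pr L z) x) +
        2 * nuE volume F * (K z * gM s (pr L z)) := by
    intro z
    rw [lintegral_const_mul _ (mQw z), ← mul_add]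
    refine (mul_le_mul' le_rfl (gadd_shift hTF hs hF _)).trans (le_of_eq ?_)
    ring
  refine (mul_le_mul' le_rfl (lintegral_mono key)).trans ?_
  rw [lintegral_add_left (mF.const_mul _), lintegral_const_mul _ mF, lintegral_const_mul _ mm0]
  exact le_of_eq (by ring)

/-- the potential energy -/
theorem gadd_Vp (hTF : S_TF) (hs : Pf s) {v : ℝ → ℝ≥0∞} (hv : Measurable v)
    (hvs : ∀ x y : Tor n L, v (tdist x y) ≠ 0 → s (x - y) = 0)
    {F : Multiset (Tor n L) → ℂ} (hF : EB F) :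
    Vp v (GP (Qs s F)) + ∫⁻ w, Vp v (tc (Qc s F) w) ≤
      ENNReal.ofReal (L ^ n) * Vp v F := by
  have h1 := Qs_FR hs hF
  have h2 := Qc_FR hs hF
  have hA := GP_EB h1
  have hw : Measurable (fun p : Tor n L × Tor n L => v (tdist p.1 p.2)) :=
    ((hTF n L).2.2.2.2.2.2.2 v hv).1
  -- measurability
  have mP : Measurable fun q : (Tor n L × Tor n L) × Tor n L =>
      v (tdist q.1.2 q.2) * nE volume (an q.2 (an q.1.2 (tc (Qc s F) q.1.1))) := by
    have m1 : Measurable fun q : (Tor n L × Tor n L) × Tor n L => v (tdist q.1.2 q.2) :=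
      hw.comp (f := fun q : (Tor n L × Tor n L) × Tor n L => (q.1.2, q.2))
        ((measurable_snd.comp measurable_fst).prodMk measurable_snd)
    have m2 : Measurable fun q : (Tor n L × Tor n L) × Tor n L =>
        nE volume (an q.2 (an q.1.2 (tc (Qc s F) q.1.1))) :=
      (h2.m_pair volume).comp (f := fun q : (Tor n L × Tor n L) × Tor n L =>
        (q.1.1, q.1.2, q.2)) ((measurable_fst.comp measurable_fst).prodMk
          ((measurable_snd.comp measurable_fst).prodMk measurable_snd))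
    exact m1.mul m2
  have mQ : Measurable fun q : Tor n L × Tor n L => ∫⁻ y,
      v (tdist q.2 y) * nE volume (an y (an q.2 (tc (Qc s F) q.1))) :=
    mP.lintegral_prod_right'
  have mW : Measurable fun w : Tor n L => ∫⁻ x, ∫⁻ y,
      v (tdist x y) * nE volume (an y (an x (tc (Qc s F) w))) := mQ.lintegral_prod_right'
  have mA2 : Measurable fun p : Tor n L × Tor n L =>
      v (tdist p.1 p.2) * nE volume (an p.2 (an p.1 (GP (Qs s F)))) := hw.mul (meas_an2 hA)
  have mA : Measurable fun x : Tor n L => ∫⁻ y,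
      v (tdist x y) * nE volume (an y (an x (GP (Qs s F)))) := mA2.lintegral_prod_right'
  have mAx : ∀ x : Tor n L, Measurable fun y : Tor n L =>
      v (tdist x y) * nE volume (an y (an x (GP (Qs s F)))) := fun x =>
    mA2.comp (f := fun y : Tor n L => (x, y)) (measurable_const.prodMk measurable_id)
  have mPx : ∀ x : Tor n L, Measurable fun q : Tor n L × Tor n L =>
      v (tdist x q.2) * nE volume (an q.2 (an x (tc (Qc s F) q.1))) := fun x =>
    mP.comp (f := fun q : Tor n L × Tor n L => ((q.1, x), q.2))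
      ((measurable_fst.prodMk measurable_const).prodMk measurable_snd)
  have mPxy : ∀ x y : Tor n L, Measurable fun w : Tor n L =>
      nE volume (an y (an x (tc (Qc s F) w))) := fun x y =>
    (h2.m_pair volume).comp (f := fun w : Tor n L => (w, x, y))
      (measurable_id.prodMk measurable_const)
  have s1 : ∫⁻ w, ∫⁻ x, ∫⁻ y, v (tdist x y) * nE volume (an y (an x (tc (Qc s F) w))) =
      ∫⁻ x, ∫⁻ w, ∫⁻ y, v (tdist x y) * nE volume (an y (an x (tc (Qc s F) w))) :=
    lintegral_lintegral_swap mQ.aemeasurable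
  have s2 : ∀ x : Tor n L, ∫⁻ w, ∫⁻ y, v (tdist x y) *
        nE volume (an y (an x (tc (Qc s F) w))) =
      ∫⁻ y, ∫⁻ w, v (tdist x y) * nE volume (an y (an x (tc (Qc s F) w))) :=
    fun x => lintegral_lintegral_swap (mPx x).aemeasurable
  unfold Vp
  rw [lintegral_const_mul _ mW, ← mul_add, s1, ← lintegral_add_left mA, mul_left_comm]
  refine mul_le_mul' le_rfl ?_
  rw [← lintegral_const_mul' _ _ ENNReal.ofReal_ne_top]
  refine lintegral_mono fun x => ?_
  dsimp only
  rw [s2 x, ← lintegral_add_left (mAx x),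
    ← lintegral_const_mul' _ _ ENNReal.ofReal_ne_top]
  refine lintegral_mono fun y => ?_
  dsimp only
  rw [lintegral_const_mul _ (mPxy x y), ← mul_add]
  by_cases hz : v (tdist x y) = 0
  · rw [hz]
    simp
  · rw [mul_left_comm]
    refine mul_le_mul' le_rfl ?_
    have hxy := hvs x y hz
    have hyx : s (y - x) = 0 := by rw [← hs.even, neg_sub, hxy]
    have z1 : ∀ S, Qs s F x (y ::ₘ S) = 0 := by
      intro S
      unfold Qs
      rw [gsP_cons, hxy]
      simp
    have z2 : ∀ S, Qs s F y (x ::ₘ S) = 0 := by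
      intro S
      unfold Qs
      rw [gsP_cons, hyx]
      simp
    rw [pair_GP volume h1 x y]
    simp only [z1, z2]
    have e3 : ∀ w : Tor n L, nE volume (an y (an x (tc (Qc s F) w))) =
        ∫⁻ γ, ENNReal.ofReal (Qc s F w (x ::ₘ y ::ₘ ms γ) ^ 2) ∂(lam volume) :=
      fun w => pair_tc volume w x y
    simp only [e3]
    have h1c : FR fun w S => Qs s F w (x ::ₘ y ::ₘ S) := (h1.cons x).cons y
    have h2c : FR fun w S => Qc s F w (x ::ₘ y ::ₘ S) := (h2.cons x).cons y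
    have _h := finlam (volume : Measure (Tor n L))
    have m1 : Measurable fun w : Tor n L =>
        ∫⁻ γ, ENNReal.ofReal (Qs s F w (x ::ₘ y ::ₘ ms γ) ^ 2) ∂(lam volume) :=
      h1c.sqm.lintegral_prod_right'
    have m1w : ∀ w : Tor n L, Measurable fun γ : Cf (Tor n L) =>
        ENNReal.ofReal (Qs s F w (x ::ₘ y ::ₘ ms γ) ^ 2) := fun w =>
      ((h1c.fix w).pow_const 2).ennreal_ofReal
    have e4 : nE volume (an y (an x F)) = ∫⁻ γ, ‖F (x ::ₘ y ::ₘ ms γ)‖ₑ ^ 2 ∂(lam volume) := by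
      unfold nE an
      rfl
    have e5 : ∀ w : Tor n L, (∫⁻ γ, ENNReal.ofReal (Qs s F w (x ::ₘ y ::ₘ ms γ) ^ 2)
        ∂(lam volume)) + (∫⁻ γ, ENNReal.ofReal (Qc s F w (x ::ₘ y ::ₘ ms γ) ^ 2)
        ∂(lam volume)) = nE volume (an y (an x F)) := by
      intro w
      rw [← lintegral_add_left (m1w w), e4]
      exact lintegral_congr fun γ => sum_gq hs F w _
    have e6 : (∫⁻ w, ∫⁻ γ, ENNReal.ofReal (Qs s F w (x ::ₘ y ::ₘ ms γ) ^ 2) ∂(lam volume)) +
        (∫⁻ w, ∫⁻ γ, ENNReal.ofReal (Qc s F w (x ::ₘ y ::ₘ ms γ) ^ 2) ∂(lam volume)) =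
        ENNReal.ofReal (L ^ n) * nE volume (an y (an x F)) := by
      rw [← lintegral_add_left m1]
      simp only [e5]
      rw [lintegral_const, (hTF n L).1, mul_comm]
    rw [← e6]
    simp

/-- the energy of one more particle -/
def gE (μ : ℝ≥0∞) (K : (Fin n → ℝ) → ℝ≥0∞) (s : Tor n L → ℝ) : ℝ≥0∞ :=
  2 * (μ * gK s + gH K s)

/-- the energy -/
theorem gadd_en (hTF : S_TF) (hs : Pf s) {μ : ℝ≥0∞} {K : (Fin n → ℝ) → ℝ≥0∞}
    {v : ℝ → ℝ≥0∞} (hK : Measurable K) (hv : Measurable v)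
    (hvs : ∀ x y : Tor n L, v (tdist x y) ≠ 0 → s (x - y) = 0)
    {F : Multiset (Tor n L) → ℂ} (hF : EB F) :
    en μ K v (GP (Qs s F)) + ∫⁻ w, en μ K v (tc (Qc s F) w) ≤
      ENNReal.ofReal (L ^ n) * en μ K v F + gE μ K s * nuE volume F := by
  have h2 := Qc_FR hs hF
  have m1 : Measurable fun w : Tor n L => μ * Kp (tc (Qc s F) w) := h2.m_Kp.const_mul _
  have m2 : Measurable fun w : Tor n L => Hp K (tc (Qc s F) w) := h2.m_Hp hTF hK
  have m12 : Measurable fun w : Tor n L => μ * Kp (tc (Qc s F) w) +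
      Hp K (tc (Qc s F) w) := m1.add m2
  have b1 := gadd_Kp hTF hs hF
  have b2 := gadd_Hp hTF hs hK hF
  have b3 := gadd_Vp hTF hs hv hvs hF
  unfold en ken
  rw [lintegral_add_left m12, lintegral_add_left m1, lintegral_const_mul _ h2.m_Kp]
  calc μ * Kp (GP (Qs s F)) + Hp K (GP (Qs s F)) + Vp v (GP (Qs s F)) +
        (μ * (∫⁻ w, Kp (tc (Qc s F) w)) + (∫⁻ w, Hp K (tc (Qc s F) w)) +
          ∫⁻ w, Vp v (tc (Qc s F) w))
      = μ * (Kp (GP (Qs s F)) + ∫⁻ w, Kp (tc (Qc s F) w)) +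
        (Hp K (GP (Qs s F)) + ∫⁻ w, Hp K (tc (Qc s F) w)) +
        (Vp v (GP (Qs s F)) + ∫⁻ w, Vp v (tc (Qc s F) w)) := by ring
    _ ≤ μ * (ENNReal.ofReal (L ^ n) * Kp F + 2 * gK s * nuE volume F) +
        (ENNReal.ofReal (L ^ n) * Hp K F + 2 * gH K s * nuE volume F) +
        ENNReal.ofReal (L ^ n) * Vp v F :=
        add_le_add (add_le_add (mul_le_mul' le_rfl b1) b2) b3
    _ = _ := by
        unfold gE
        ring

end

end Pool.Agent.Y656
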