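import Pool.Agent.Y656.Gen2

/-!
# One more particle, with a general cut-off function and a general pair potential
-/

set_option autoImplicit false
set_option linter.unusedSectionVars false

open MeasureTheory
open scoped ENNReal

namespace Pool.Agent.Y656

open Pool.Agent.W761.CB
open Pool.Agent.W741.CB (meas_dE meas_an meas_an2 meas_shift meas_shift2 meas_int mono_kin ebc)

noncomputable section

variable {n : ℕ} {L : ℝ} [Fact (0 < L)] {s : Tor n L → ℝ}

/-- the potential energy with the cut-off function -/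
def gW (v : ℝ → ℝ≥0∞) (s : Tor n L → ℝ) : ℝ≥0∞ := ∫⁻ z, v (tdist z 0) * ENNReal.ofReal (s z ^ 2)

lemma tdist_sub (x y : Tor n L) : tdist x y = tdist (x - y) 0 := by
  unfold tdist
  simp

lemma tdist_symm (x y : Tor n L) : tdist x y = tdist y x := by
  unfold tdist
  congr 1
  refine Finset.sum_congr rfl fun c _ => ?_
  rw [norm_sub_rev]

lemma gW_meas (hTF : S_TF) {v : ℝ → ℝ≥0∞} (hv : Measurable v) (hs : Pf s) :
    Measurable fun p : Tor n L × Tor n L =>
      v (tdist p.1 p.2) * ENNReal.ofReal (s (p.1 - p.2) ^ 2) := by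
  have hw : Measurable (fun p : Tor n L × Tor n L => v (tdist p.1 p.2)) :=
    ((hTF n L).2.2.2.2.2.2.2 v hv).1
  exact hw.mul (((hs.meas.comp (measurable_fst.sub measurable_snd)).pow_const 2).ennreal_ofReal)

lemma gW_int (hTF : S_TF) {v : ℝ → ℝ≥0∞} (hv : Measurable v) (hs : Pf s) (y : Tor n L) :
    ∫⁻ x, v (tdist x y) * ENNReal.ofReal (s (x - y) ^ 2) = gW v s := by
  have hg : Measurable fun z : Tor n L => v (tdist z 0) * ENNReal.ofReal (s z ^ 2) := by
    have h := (gW_meas hTF hv hs).comp (f := fun z : Tor n L => (z, (0 : Tor n L)))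
      (measurable_id.prodMk measurable_const)
    simpa [Function.comp_def] using h
  unfold gW
  rw [← (hTF n L).2.2.2.2.1 _ hg (-y)]
  refine lintegral_congr fun x => ?_
  rw [tdist_sub x y, sub_eq_add_neg]

lemma gW_int' (hTF : S_TF) {v : ℝ → ℝ≥0∞} (hv : Measurable v) (hs : Pf s) (y : Tor n L) :
    ∫⁻ x, v (tdist y x) * ENNReal.ofReal (s (x - y) ^ 2) = gW v s := by
  rw [← gW_int hTF hv hs y]
  refine lintegral_congr fun x => ?_
  rw [tdist_symm]

/-- the norms of two particles removed -/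
lemma pair_bd (hTF : S_TF) (hs : Pf s) {F : Multiset (Tor n L) → ℂ} (hF : EB F)
    (x y : Tor n L) :
    nE volume (an y (an x (GP (Qs s F)))) + ∫⁻ w, nE volume (an y (an x (tc (Qc s F) w))) ≤
      ENNReal.ofReal (s (x - y) ^ 2) * nE volume (an y F) +
      (ENNReal.ofReal (s (y - x) ^ 2) * nE volume (an x F) +
      ENNReal.ofReal (L ^ n) * nE volume (an y (an x F))) := by
  have h1 := Qs_FR hs hF
  have h2 := Qc_FR hs hF
  rw [pair_GP volume h1 x y]
  have _h := finlam (volume : Measure (Tor n L))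
  have b1 : ∀ x y : Tor n L, ∫⁻ γ, ENNReal.ofReal (Qs s F x (y ::ₘ ms γ) ^ 2) ∂(lam volume) ≤
      ENNReal.ofReal (s (x - y) ^ 2) * nE volume (an y F) := by
    intro x y
    unfold nE an
    rw [← lintegral_const_mul' _ _ ENNReal.ofReal_ne_top]
    refine lintegral_mono fun γ => ?_
    dsimp only
    rw [en_sq', ← ENNReal.ofReal_mul (sq_nonneg _)]
    refine ENNReal.ofReal_le_ofReal ?_
    unfold Qs
    rw [gsP_cons, mul_pow, mul_pow]
    have h3 : gsP s x (ms γ) ^ 2 ≤ 1 := pow_le_one₀ (gs_nonneg hs _ _) (gs_le hs _ _)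
    have h4 : 0 ≤ s (x - y) ^ 2 := sq_nonneg _
    have h5 : s (x - y) ^ 2 * gsP s x (ms γ) ^ 2 ≤ s (x - y) ^ 2 := mul_le_of_le_one_right h4 h3
    exact mul_le_mul_of_nonneg_right h5 (sq_nonneg _)
  have e3 : ∀ w : Tor n L, nE volume (an y (an x (tc (Qc s F) w))) =
      ∫⁻ γ, ENNReal.ofReal (Qc s F w (x ::ₘ y ::ₘ ms γ) ^ 2) ∂(lam volume) :=
    fun w => pair_tc volume w x y
  simp only [e3]
  have h1c : FR fun w S => Qs s F w (x ::ₘ y ::ₘ S) := (h1.cons x).cons y
  have h2c : FR fun w S => Qc s F w (x ::ₘ y ::ₘ S) := (h2.cons x).cons y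
  have m1 : Measurable fun w : Tor n L =>
      ∫⁻ γ, ENNReal.ofReal (Qs s F w (x ::ₘ y ::ₘ ms γ) ^ 2) ∂(lam volume) :=
    h1c.sqm.lintegral_prod_right'
  have m1w : ∀ w : Tor n L, Measurable fun γ : Cf (Tor n L) =>
      ENNReal.ofReal (Qs s F w (x ::ₘ y ::ₘ ms γ) ^ 2) := fun w =>
    ((h1c.fix w).pow_const 2).ennreal_ofReal
  have e4 : nE volume (an y (an x F)) = ∫⁻ γ, ‖F (x ::ₘ y ::ₘ ms γ)‖ₑ ^ 2 ∂(lam volume) := by
    unfold nE an
    rfl
  have e5 : ∀ w : Tor n L, (∫⁻ γ, ENNReal.ofReal (Qs s F w (x ::ₘ y ::ₘ ms γ) ^ 2)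
      ∂(lam volume)) + (∫⁻ γ, ENNReal.ofReal (Qc s F w (x ::ₘ y ::ₘ ms γ) ^ 2)
      ∂(lam volume)) = nE volume (an y (an x F)) := by
    intro w
    rw [← lintegral_add_left (m1w w), e4]
    exact lintegral_congr fun γ => sum_gq hs F w _
  have e6 : (∫⁻ w, ∫⁻ γ, ENNReal.ofReal (Qs s F w (x ::ₘ y ::ₘ ms γ) ^ 2) ∂(lam volume)) +
      (∫⁻ w, ∫⁻ γ, ENNReal.ofReal (Qc s F w (x ::ₘ y ::ₘ ms γ) ^ 2) ∂(lam volume)) =
      ENNReal.ofReal (L ^ n) * nE volume (an y (an x F)) := by
    rw [← lintegral_add_left m1]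
    simp only [e5]
    rw [lintegral_const, (hTF n L).1, mul_comm]
  rw [← e6, add_assoc, add_assoc]
  exact add_le_add (b1 x y) (add_le_add (b1 y x) le_rfl)

lemma T1_meas (hTF : S_TF) (hs : Pf s) {v : ℝ → ℝ≥0∞} (hv : Measurable v)
    {F : Multiset (Tor n L) → ℂ} (hF : EB F) : Measurable fun p : Tor n L × Tor n L =>
      v (tdist p.1 p.2) * ENNReal.ofReal (s (p.1 - p.2) ^ 2) * nE volume (an p.2 F) :=
  (gW_meas hTF hv hs).mul ((meas_an hF).comp measurable_snd)

lemma g2_meas (hTF : S_TF) (hs : Pf s) {v : ℝ → ℝ≥0∞} (hv : Measurable v) :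
    Measurable fun p : Tor n L × Tor n L =>
      v (tdist p.1 p.2) * ENNReal.ofReal (s (p.2 - p.1) ^ 2) :=
  (((hTF n L).2.2.2.2.2.2.2 v hv).1).mul (((hs.meas.comp
    (measurable_snd.sub measurable_fst)).pow_const 2).ennreal_ofReal)

lemma T2_meas (hTF : S_TF) (hs : Pf s) {v : ℝ → ℝ≥0∞} (hv : Measurable v)
    {F : Multiset (Tor n L) → ℂ} (hF : EB F) : Measurable fun p : Tor n L × Tor n L =>
      v (tdist p.1 p.2) * ENNReal.ofReal (s (p.2 - p.1) ^ 2) * nE volume (an p.1 F) :=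
  (g2_meas hTF hs hv).mul ((meas_an hF).comp measurable_fst)

lemma T3_meas (hTF : S_TF) {v : ℝ → ℝ≥0∞} (hv : Measurable v)
    {F : Multiset (Tor n L) → ℂ} (hF : EB F) : Measurable fun p : Tor n L × Tor n L =>
      v (tdist p.1 p.2) * nE volume (an p.2 (an p.1 F)) :=
  ((hTF n L).2.2.2.2.2.2.2 v hv).1.mul (meas_an2 hF)

lemma sec1 {f : Tor n L × Tor n L → ℝ≥0∞} (hf : Measurable f) (x : Tor n L) :
    Measurable fun y : Tor n L => f (x, y) :=
  hf.comp (measurable_const.prodMk measurable_id)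

lemma sec2 {f : Tor n L × Tor n L → ℝ≥0∞} (hf : Measurable f) (y : Tor n L) :
    Measurable fun x : Tor n L => f (x, y) :=
  hf.comp (measurable_id.prodMk measurable_const)

lemma W_i1 (hTF : S_TF) (hs : Pf s) {v : ℝ → ℝ≥0∞} (hv : Measurable v)
    {F : Multiset (Tor n L) → ℂ} (hF : EB F) :
    ∫⁻ x, ∫⁻ y, v (tdist x y) * ENNReal.ofReal (s (x - y) ^ 2) * nE volume (an y F) =
      gW v s * nuE volume F := by
  have e := lintegral_lintegral_swap (μ := (volume : Measure (Tor n L)))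
    (ν := (volume : Measure (Tor n L)))
    (f := fun x y => v (tdist x y) * ENNReal.ofReal (s (x - y) ^ 2) * nE volume (an y F))
    (T1_meas hTF hs hv hF).aemeasurable
  refine e.trans ?_
  unfold nuE
  rw [← lintegral_const_mul _ (meas_an hF)]
  refine lintegral_congr fun y => ?_
  have m3 : Measurable fun x : Tor n L => v (tdist x y) * ENNReal.ofReal (s (x - y) ^ 2) :=
    sec2 (gW_meas hTF hv hs) y
  have e3 := lintegral_mul_const (μ := (volume : Measure (Tor n L)))
    (nE volume (an y F)) m3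
  refine e3.trans ?_
  rw [gW_int hTF hv hs y]

lemma W_i2 (hTF : S_TF) (hs : Pf s) {v : ℝ → ℝ≥0∞} (hv : Measurable v)
    {F : Multiset (Tor n L) → ℂ} (hF : EB F) :
    ∫⁻ x, ∫⁻ y, v (tdist x y) * ENNReal.ofReal (s (y - x) ^ 2) * nE volume (an x F) =
      gW v s * nuE volume F := by
  unfold nuE
  rw [← lintegral_const_mul _ (meas_an hF)]
  refine lintegral_congr fun x => ?_
  have m3 : Measurable fun y : Tor n L => v (tdist x y) * ENNReal.ofReal (s (y - x) ^ 2) :=
    sec1 (g2_meas hTF hs hv) x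
  have e3 := lintegral_mul_const (μ := (volume : Measure (Tor n L)))
    (nE volume (an x F)) m3
  refine e3.trans ?_
  rw [gW_int' hTF hv hs x]

/-- the potential energy of a family -/
lemma Vp_tc_swap (hTF : S_TF) {v : ℝ → ℝ≥0∞} (hv : Measurable v)
    {G : Tor n L → Multiset (Tor n L) → ℝ} (hG : FR G) :
    ∫⁻ w, Vp v (tc G w) =
      2⁻¹ * ∫⁻ x, ∫⁻ y, v (tdist x y) * ∫⁻ w, nE volume (an y (an x (tc G w))) := by
  have hw : Measurable (fun p : Tor n L × Tor n L => v (tdist p.1 p.2)) :=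
    ((hTF n L).2.2.2.2.2.2.2 v hv).1
  have mP : Measurable fun q : (Tor n L × Tor n L) × Tor n L =>
      v (tdist q.1.2 q.2) * nE volume (an q.2 (an q.1.2 (tc G q.1.1))) := by
    have m1 : Measurable fun q : (Tor n L × Tor n L) × Tor n L => v (tdist q.1.2 q.2) :=
      hw.comp (f := fun q : (Tor n L × Tor n L) × Tor n L => (q.1.2, q.2))
        ((measurable_snd.comp measurable_fst).prodMk measurable_snd)
    have m2 : Measurable fun q : (Tor n L × Tor n L) × Tor n L =>
        nE volume (an q.2 (an q.1.2 (tc G q.1.1))) :=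
      (hG.m_pair volume).comp (f := fun q : (Tor n L × Tor n L) × Tor n L =>
        (q.1.1, q.1.2, q.2)) ((measurable_fst.comp measurable_fst).prodMk
          ((measurable_snd.comp measurable_fst).prodMk measurable_snd))
    exact m1.mul m2
  have mQ : Measurable fun q : Tor n L × Tor n L => ∫⁻ y,
      v (tdist q.2 y) * nE volume (an y (an q.2 (tc G q.1))) :=
    mP.lintegral_prod_right'
  have mW : Measurable fun w : Tor n L => ∫⁻ x, ∫⁻ y,
      v (tdist x y) * nE volume (an y (an x (tc G w))) := mQ.lintegral_prod_right'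
  have mPx : ∀ x : Tor n L, Measurable fun q : Tor n L × Tor n L =>
      v (tdist x q.2) * nE volume (an q.2 (an x (tc G q.1))) := fun x =>
    mP.comp (f := fun q : Tor n L × Tor n L => ((q.1, x), q.2))
      ((measurable_fst.prodMk measurable_const).prodMk measurable_snd)
  have mPxy : ∀ x y : Tor n L, Measurable fun w : Tor n L =>
      nE volume (an y (an x (tc G w))) := fun x y =>
    (hG.m_pair volume).comp (f := fun w : Tor n L => (w, x, y))
      (measurable_id.prodMk measurable_const)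
  unfold Vp
  rw [lintegral_const_mul _ mW]
  congr 1
  have s1 := lintegral_lintegral_swap (μ := (volume : Measure (Tor n L)))
    (ν := (volume : Measure (Tor n L)))
    (f := fun w x => ∫⁻ y, v (tdist x y) * nE volume (an y (an x (tc G w)))) mQ.aemeasurable
  refine s1.trans ?_
  refine lintegral_congr fun x => ?_
  have s2 := lintegral_lintegral_swap (μ := (volume : Measure (Tor n L)))
    (ν := (volume : Measure (Tor n L)))
    (f := fun w y => v (tdist x y) * nE volume (an y (an x (tc G w)))) (mPx x).aemeasurable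
  refine s2.trans ?_
  refine lintegral_congr fun y => ?_
  exact lintegral_const_mul _ (mPxy x y)

/-- the potential energy -/
theorem gadd_Vpv (hTF : S_TF) (hs : Pf s) {v : ℝ → ℝ≥0∞} (hv : Measurable v)
    {F : Multiset (Tor n L) → ℂ} (hF : EB F) :
    Vp v (GP (Qs s F)) + ∫⁻ w, Vp v (tc (Qc s F) w) ≤
      ENNReal.ofReal (L ^ n) * Vp v F + gW v s * nuE volume F := by
  have h1 := Qs_FR hs hF
  have h2 := Qc_FR hs hF
  have hA := GP_EB h1
  have mT1 := T1_meas hTF hs hv hF
  have mT2 := T2_meas hTF hs hv hF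
  have mT3 := T3_meas hTF hv hF
  have mA2 : Measurable fun p : Tor n L × Tor n L =>
      v (tdist p.1 p.2) * nE volume (an p.2 (an p.1 (GP (Qs s F)))) := T3_meas hTF hv hA
  have mA : Measurable fun x : Tor n L => ∫⁻ y,
      v (tdist x y) * nE volume (an y (an x (GP (Qs s F)))) := mA2.lintegral_prod_right'
  rw [Vp_tc_swap hTF hv h2]
  unfold Vp
  rw [← mul_add, ← lintegral_add_left mA]
  have hmain : ∫⁻ x, ((∫⁻ y, v (tdist x y) * nE volume (an y (an x (GP (Qs s F))))) +
      ∫⁻ y, v (tdist x y) * ∫⁻ w, nE volume (an y (an x (tc (Qc s F) w)))) ≤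
      gW v s * nuE volume F + (gW v s * nuE volume F +
        ENNReal.ofReal (L ^ n) * ∫⁻ x, ∫⁻ y, v (tdist x y) * nE volume (an y (an x F))) := by
    have hx : ∀ x : Tor n L, (∫⁻ y, v (tdist x y) * nE volume (an y (an x (GP (Qs s F))))) +
        ∫⁻ y, v (tdist x y) * ∫⁻ w, nE volume (an y (an x (tc (Qc s F) w))) ≤
        (∫⁻ y, v (tdist x y) * ENNReal.ofReal (s (x - y) ^ 2) * nE volume (an y F)) +
        ((∫⁻ y, v (tdist x y) * ENNReal.ofReal (s (y - x) ^ 2) * nE volume (an x F)) +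
        ENNReal.ofReal (L ^ n) * ∫⁻ y, v (tdist x y) * nE volume (an y (an x F))) := by
      intro x
      have e1 := lintegral_const_mul (μ := (volume : Measure (Tor n L)))
        (ENNReal.ofReal (L ^ n)) (sec1 mT3 x)
      have e2 := lintegral_add_left (μ := (volume : Measure (Tor n L))) (sec1 mT2 x)
        (fun y => ENNReal.ofReal (L ^ n) * (v (tdist x y) * nE volume (an y (an x F))))
      have e3 := lintegral_add_left (μ := (volume : Measure (Tor n L))) (sec1 mT1 x)
        (fun y => v (tdist x y) * ENNReal.ofReal (s (y - x) ^ 2) * nE volume (an x F) +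
          ENNReal.ofReal (L ^ n) * (v (tdist x y) * nE volume (an y (an x F))))
      have e4 := lintegral_add_left (μ := (volume : Measure (Tor n L))) (sec1 mA2 x)
        (fun y => v (tdist x y) * ∫⁻ w, nE volume (an y (an x (tc (Qc s F) w))))
      dsimp only at e1 e2 e3 e4
      rw [← e4, ← e1, ← e2, ← e3]
      refine lintegral_mono fun y => ?_
      dsimp only
      have hp := mul_le_mul' (le_refl (v (tdist x y))) (pair_bd hTF hs hF x y)
      refine le_trans (le_of_eq ?_) (hp.trans (le_of_eq ?_))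
      · rw [mul_add]
      · rw [mul_add, mul_add, mul_assoc, mul_assoc, mul_left_comm (ENNReal.ofReal (L ^ n))]
    refine (lintegral_mono hx).trans (le_of_eq ?_)
    have hi1 : Measurable fun x : Tor n L => ∫⁻ y,
        v (tdist x y) * ENNReal.ofReal (s (x - y) ^ 2) * nE volume (an y F) :=
      mT1.lintegral_prod_right'
    have hi2 : Measurable fun x : Tor n L => ∫⁻ y,
        v (tdist x y) * ENNReal.ofReal (s (y - x) ^ 2) * nE volume (an x F) :=
      mT2.lintegral_prod_right'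
    have hi3 : Measurable fun x : Tor n L => ∫⁻ y,
        v (tdist x y) * nE volume (an y (an x F)) := mT3.lintegral_prod_right'
    have e1 := lintegral_add_left (μ := (volume : Measure (Tor n L))) hi1
      (fun x => (∫⁻ y, v (tdist x y) * ENNReal.ofReal (s (y - x) ^ 2) * nE volume (an x F)) +
        ENNReal.ofReal (L ^ n) * ∫⁻ y, v (tdist x y) * nE volume (an y (an x F)))
    have e2 := lintegral_add_left (μ := (volume : Measure (Tor n L))) hi2
      (fun x => ENNReal.ofReal (L ^ n) * ∫⁻ y, v (tdist x y) * nE volume (an y (an x F)))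
    have e3 := lintegral_const_mul (μ := (volume : Measure (Tor n L)))
      (ENNReal.ofReal (L ^ n)) hi3
    rw [e1, e2, e3, W_i1 hTF hs hv hF, W_i2 hTF hs hv hF]
  refine (mul_le_mul' le_rfl hmain).trans (le_of_eq ?_)
  have e2 : (2 : ℝ≥0∞)⁻¹ * 2 = 1 := ENNReal.inv_mul_cancel (by norm_num) (by norm_num)
  calc 2⁻¹ * (gW v s * nuE volume F + (gW v s * nuE volume F +
        ENNReal.ofReal (L ^ n) * ∫⁻ x, ∫⁻ y, v (tdist x y) * nE volume (an y (an x F))))
      = ENNReal.ofReal (L ^ n) * (2⁻¹ * ∫⁻ x, ∫⁻ y, v (tdist x y) * nE volume (an y (an x F))) +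
        (2⁻¹ * 2) * (gW v s * nuE volume F) := by ring
    _ = _ := by rw [e2, one_mul]

/-- the energy of one more particle -/
def gEv (μ : ℝ≥0∞) (K : (Fin n → ℝ) → ℝ≥0∞) (v : ℝ → ℝ≥0∞) (s : Tor n L → ℝ) : ℝ≥0∞ :=
  gE μ K s + gW v s

/-- the energy -/
theorem gadd_env (hTF : S_TF) (hs : Pf s) {μ : ℝ≥0∞} {K : (Fin n → ℝ) → ℝ≥0∞}
    {v : ℝ → ℝ≥0∞} (hK : Measurable K) (hv : Measurable v)
    {F : Multiset (Tor n L) → ℂ} (hF : EB F) :
    en μ K v (GP (Qs s F)) + ∫⁻ w, en μ K v (tc (Qc s F) w) ≤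
      ENNReal.ofReal (L ^ n) * en μ K v F + gEv μ K v s * nuE volume F := by
  have h2 := Qc_FR hs hF
  have m1 : Measurable fun w : Tor n L => μ * Kp (tc (Qc s F) w) := h2.m_Kp.const_mul _
  have m2 : Measurable fun w : Tor n L => Hp K (tc (Qc s F) w) := h2.m_Hp hTF hK
  have m12 : Measurable fun w : Tor n L => μ * Kp (tc (Qc s F) w) +
      Hp K (tc (Qc s F) w) := m1.add m2
  have b1 := gadd_Kp hTF hs hF
  have b2 := gadd_Hp hTF hs hK hF
  have b3 := gadd_Vpv hTF hs hv hF
  unfold en ken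
  rw [lintegral_add_left m12, lintegral_add_left m1, lintegral_const_mul _ h2.m_Kp]
  calc μ * Kp (GP (Qs s F)) + Hp K (GP (Qs s F)) + Vp v (GP (Qs s F)) +
        (μ * (∫⁻ w, Kp (tc (Qc s F) w)) + (∫⁻ w, Hp K (tc (Qc s F) w)) +
          ∫⁻ w, Vp v (tc (Qc s F) w))
      = μ * (Kp (GP (Qs s F)) + ∫⁻ w, Kp (tc (Qc s F) w)) +
        (Hp K (GP (Qs s F)) + ∫⁻ w, Hp K (tc (Qc s F) w)) +
        (Vp v (GP (Qs s F)) + ∫⁻ w, Vp v (tc (Qc s F) w)) := by ring
    _ ≤ μ * (ENNReal.ofReal (L ^ n) * Kp F + 2 * gK s * nuE volume F) +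
        (ENNReal.ofReal (L ^ n) * Hp K F + 2 * gH K s * nuE volume F) +
        (ENNReal.ofReal (L ^ n) * Vp v F + gW v s * nuE volume F) :=
        add_le_add (add_le_add (mul_le_mul' le_rfl b1) b2) b3
    _ = _ := by
        unfold gEv gE
        ring

end

end Pool.Agent.Y656
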