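import Pool.Agent.W761.CC.HPar
import Pool.Agent.W761.CC.HP
import Pool.Agent.W761.CC.Stms

/-!
# Choice of the block sides, for a fixed number of particles
-/

set_option autoImplicit false

open MeasureTheory
open scoped ENNReal

namespace Pool.Agent.Y656

open Pool.Agent.W761.CB Pool.Agent.W761.CC

theorem hparC (n : ℕ) (hn : 3 ≤ n) (G γ₀ ε e CP CA b₀ r₀ lam0 : ℝ) (hG : 0 < G) (he : 0 < e)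
    (he1 : e ≤ 1 / 100) (hε : ε = e / 20) (hγ : γ₀ = G / 2 * (1 - ε)) (hCP : 0 < CP)
    (hCA : 0 < CA) (hb₀ : 1 ≤ b₀) (hr₀ : 1 ≤ r₀) (hl : 0 < lam0) :
    ∃ ρ₁ : ℝ, 0 < ρ₁ ∧ ∀ ρ ν : ℝ, 0 < ρ → ρ ≤ ρ₁ → ρ / 2 ≤ ν → ν ≤ ρ →
    ∀ ℓ : ℝ, lam0 * ρ ^ (-(1 / 2 : ℝ)) / 2 ≤ ℓ →
    ∃ (s s₁ : ℕ) (b b₁ r : ℝ), ℓ = 2 ^ s * b ∧ b = 2 ^ s₁ * b₁ ∧ r₀ ≤ r ∧ 4 * r ≤ b ∧ 1 ≤ b ∧
      b₀ ≤ b₁ ∧ ∀ κ X' : ℝ, κ = 2 * (2 ^ s₁) ^ n →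
      X' = γ₀ * (5 * κ ^ 2 / b ^ n + κ / (ε * (2 * r) ^ n)) * (CP * b ^ 2) →
      (1 + X') / (γ₀ * (1 - ε) * ν ^ 2) + 12 * (CA * b₁ ^ n) / ν ≤
        2 / (G * ν ^ 2) * (1 + e) ∧
      γ₀ * (1 / b ^ n) * (κ / b ^ n + κ ^ 2 / b ^ n * (4 * n * r / b + 2 * κ * (4 * r / b) ^ n)) /
        (γ₀ * (1 - ε) * ν ^ 2) ≤ e := by
  obtain ⟨δ₁, hδ₁, hh⟩ := hpar n hn G γ₀ ε e CP CA b₀ r₀ (lam0 * (G / 2) ^ (1 / 2 : ℝ)) hG he he1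
    hε hγ hCP hCA hb₀ hr₀ (by positivity)
  refine ⟨δ₁ / G, by positivity, fun ρ ν hρ hρ1 hν1 hν2 ℓ hℓ => ?_⟩
  have hν0 : 0 < ν := by linarith
  have h1 : G * ν ≤ δ₁ := by
    rw [le_div_iff₀ hG] at hρ1
    have := mul_le_mul_of_nonneg_left hν2 hG.le
    linarith
  have h2 : lam0 * (G / 2) ^ (1 / 2 : ℝ) * (G * ν) ^ (-(1 / 2 : ℝ)) / 2 ≤ ℓ := by
    refine le_trans ?_ hℓ
    have h3 : (G * ν) ^ (-(1 / 2 : ℝ)) ≤ (G / 2 * ρ) ^ (-(1 / 2 : ℝ)) :=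
      Real.rpow_le_rpow_of_nonpos (by positivity) (by
        have := mul_le_mul_of_nonneg_left hν1 hG.le
        linarith) (by norm_num)
    have h4 : (G / 2) ^ (1 / 2 : ℝ) * (G / 2 * ρ) ^ (-(1 / 2 : ℝ)) = ρ ^ (-(1 / 2 : ℝ)) := by
      rw [Real.mul_rpow (by positivity) hρ.le, ← mul_assoc, ← Real.rpow_add (by positivity)]
      norm_num
    have h5 : (G / 2) ^ (1 / 2 : ℝ) * (G * ν) ^ (-(1 / 2 : ℝ)) ≤ ρ ^ (-(1 / 2 : ℝ)) := by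
      rw [← h4]
      gcongr
    have h6 := mul_le_mul_of_nonneg_left h5 hl.le
    rw [mul_assoc]
    linarith
  obtain ⟨s, s₁, b, b₁, r, q1, q2, q3, q4, q5, q6, q7⟩ := hh (G * ν) (by positivity) h1 ℓ h2
  refine ⟨s, s₁, b, b₁, r, q1, q2, q3, q4, q5, q6, fun κ X' hκ hX' => ?_⟩
  have h7 := q7 κ X' hκ hX'
  rw [show G * ν / G = ν by field_simp] at h7
  exact h7

end Pool.Agent.Y656
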