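import Pool.Agent.Y656.Capt2
import Pool.Agent.W806.CC.Lay
import Pool.Agent.W131.CB.Fib

/-!
# The lower bound of the energy, without the averaged part of the kinetic energy
-/

set_option autoImplicit false
set_option linter.unusedSectionVars false

open MeasureTheory
open scoped ENNReal

namespace Pool.Agent.Y656

open Pool.Agent.W761.CB Pool.Agent.W761.CC
open Pool.Agent.W372.CB (tc meas_tc tr vol_cube meas_cube)
open Pool.Agent.W806.CC (bdl mem_iso iso_nodup iso_pair mem_good av_tc nr nr_refl nr_symm nr_meet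
  tc_sub tc_vol pr_mem_tc tc_prod_meas bd_vol blk_vol blk_meas gb_meas gb rs rs_eb rs_zero av_rs
  nE_sum nE_sum_sq dp_sum dp_tot num1 num2 num3 sum_lint_le sum_ite_le ebd pot lamfin ebc5)

noncomputable section

variable {n : ℕ} {L : ℝ} [hL : Fact (0 < L)]

/-- one fibre -/
def fb (F : Multiset (Tor n L) → ℂ) (γ : Cf (Tor n L)) : Tor n L → ℂ := fun x => F (x ::ₘ ms γ)

/-- the kinetic energy of the part of `F` which is not averaged -/
def hig (R : ℝ) (F : Multiset (Tor n L) → ℂ) : ℝ≥0∞ :=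
  ∫⁻ γ, K1 (fun x => fb F γ x - MM R (fb F γ) x) ∂(lam (volume : Measure (Tor n L)))

/-- the kinetic energy of the average of `F` -/
def lowk (R : ℝ) (F : Multiset (Tor n L) → ℂ) : ℝ≥0∞ :=
  ∫⁻ γ, K1 (Mo R (fb F γ)) ∂(lam (volume : Measure (Tor n L)))

lemma fb_Bd {F : Multiset (Tor n L) → ℂ} (hF : EB F) (γ : Cf (Tor n L)) : Bd (fb F γ) :=
  ⟨(ebd hF γ).1, (ebd hF γ).2⟩

lemma ken_K1 {F : Multiset (Tor n L) → ℂ} (hF : EB F) (μ : ℝ≥0∞) (hμ : μ ≠ ⊤) :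
    ken μ (fun _ => 0) F = μ * ∫⁻ γ, K1 (fb F γ) ∂(lam (volume : Measure (Tor n L))) := by
  rw [← Pool.Agent.W131.CB.fib n L μ (fun _ => 0) measurable_const F hF,
    ← lintegral_const_mul' _ _ hμ]
  refine lintegral_congr fun γ => ?_
  unfold ken1 K1 fb
  simp

/-- splitting of the kinetic energy -/
theorem ken_split {F : Multiset (Tor n L) → ℂ} (hF : EB F) {R : ℝ} (hR : 0 < R) (μ : ℝ≥0∞)
    (hμ : μ ≠ ⊤) : μ * hig R F + μ * lowk R F ≤ ken μ (fun _ => 0) F := by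
  rw [ken_K1 hF μ hμ, ← mul_add]
  refine mul_le_mul_right ((le_lintegral_add _ _).trans (lintegral_mono fun γ => ?_)) _
  exact K1_split (fb_Bd hF γ) hR

lemma nuE_N2 {F : Multiset (Tor n L) → ℂ} (hF : EB F) :
    nuE volume F = ∫⁻ γ, N2 (fb F γ) ∂(lam (volume : Measure (Tor n L))) := by
  have hfin : IsFiniteMeasure (lam (volume : Measure (Tor n L))) := lamfin _
  unfold nuE nE N2 fb an
  rw [lintegral_lintegral_swap]
  exact ((ebc5 hF).enorm.pow_const 2).aemeasurable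

lemma N2_meas {F : Multiset (Tor n L) → ℂ} (hF : EB F) :
    Measurable fun γ : Cf (Tor n L) => N2 (fb F γ) := by
  unfold N2 fb
  exact ((ebc5 hF).enorm.pow_const 2).lintegral_prod_left'

open Classical in
lemma capt_pt2 (hKQ : S_KQ) {b r r₀ R μ γ₀ ε : ℝ} {q : ℕ}
    (hex : ∀ x : Tor n L, ∃! i : Fin n → Fin q, x ∈ blk n L b (fun c => (i c : ℕ)))
    (hr₀ : 0 < r₀) (hr₀r : r₀ ≤ r) (hrL : r < L / 2) (hrR : r ≤ R) (hR : 1 ≤ R) (hμ : 0 ≤ μ)
    (hγ : 0 ≤ γ₀) (hε : 0 < ε) {v : ℝ → ℝ≥0∞} (hv : Measurable v)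
    (hCap : Cap n μ v γ₀ r₀) {F : Multiset (Tor n L) → ℂ} (hF : EB F) (γ : Cf (Tor n L)) :
    ENNReal.ofReal γ₀ * ∑ i : Fin n → Fin q,
      ((iso (blk n L b (fun c => (i c : ℕ))) (blk n L b (fun c => (i c : ℕ)) \
        bdl n L b r (fun c => (i c : ℕ))) (nr r) (ms γ)).map fun y =>
          ‖av volume (tc y r₀) F (ms γ)‖ₑ ^ 2).sum ≤
      ENNReal.ofReal ((1 + ε) * μ) * K1 (fun x => fb F γ x - MM R (fb F γ) x) +
        2⁻¹ * ((ms γ).map fun y => ∫⁻ x, v (tdist x y) * ‖F (x ::ₘ ms γ)‖ₑ ^ 2).sum +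
        ENNReal.ofReal ((1 + 1 / ε) * μ * (2 * n * ((60 * r₀ / r) ^ n / R ^ 2))) *
          N2 (fb F γ) := by
  have hr : 0 < r := by linarith
  set I : (Fin n → Fin q) → Multiset (Tor n L) := fun i =>
    iso (blk n L b (fun c => (i c : ℕ))) (blk n L b (fun c => (i c : ℕ)) \
        bdl n L b r (fun c => (i c : ℕ))) (nr r) (ms γ) with hI
  have hmem : ∀ i, ∀ y ∈ I i, y ∈ ms γ ∧ y ∈ blk n L b (fun c => (i c : ℕ)) ∧
      y ∈ gb n L b r (fun c => (i c : ℕ)) := by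
    intro i y hy
    obtain ⟨h1, h2, -⟩ := mem_iso.1 hy
    exact ⟨h1, mem_good h2⟩
  have hnd : ∀ i, (I i).Nodup := fun i => iso_nodup Set.sdiff_subset (nr_refl hr)
  set G : Finset (Tor n L) := Finset.univ.biUnion fun i => (I i).toFinset with hG
  have hGm : ∀ y ∈ G, ∃ i, y ∈ I i := by
    intro y hy
    obtain ⟨i, -, h⟩ := Finset.mem_biUnion.1 hy
    exact ⟨i, Multiset.mem_toFinset.1 h⟩
  have hsum : ∀ φ : Tor n L → ℝ≥0∞, ∑ y ∈ G, φ y = ∑ i, ((I i).map φ).sum := by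
    intro φ
    rw [hG, Finset.sum_biUnion]
    · refine Finset.sum_congr rfl fun i _ => ?_
      unfold Finset.sum
      rw [Multiset.toFinset_val, (hnd i).dedup]
    · intro i _ j _ hij
      rw [Function.onFun, Finset.disjoint_left]
      intro y hy hy'
      exact hij ((hex y).unique (hmem i y (Multiset.mem_toFinset.1 hy)).2.1
        (hmem j y (Multiset.mem_toFinset.1 hy')).2.1)
  have hle : ∀ φ : Tor n L → ℝ≥0∞, ∑ y ∈ G, φ y ≤ ((ms γ).map φ).sum := by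
    intro φ
    have h1 : G.val ≤ ms γ := by
      rw [Multiset.le_iff_subset G.nodup]
      intro y hy
      obtain ⟨i, hi⟩ := hGm y hy
      exact (hmem i y hi).1
    obtain ⟨u, hu⟩ := Multiset.le_iff_exists_add.1 h1
    rw [hu, Multiset.map_add, Multiset.sum_add]
    exact le_self_add
  have key := capt2 hKQ (r₀ := r₀) (r := r) (R := R) (μ := μ) (γ₀ := γ₀) (ε := ε) (v := v) G
    (fb_Bd hF γ) hμ hγ hr₀ hr₀r (by linarith) hrR hR hv hCap hε ?_
  · have e1 : ∀ y, ‖av volume (tc y r₀) F (ms γ)‖ₑ ^ 2 =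
        ‖(((2 * r₀) ^ n : ℝ) : ℂ)⁻¹ * ∫ z in cube n r₀, fb F γ (y + pr L z)‖ₑ ^ 2 := by
      intro y
      rw [av_tc hr₀ (by linarith) hF]
      rfl
    rw [← hsum]
    simp only [e1]
    exact key.trans (add_le_add (add_le_add le_rfl (mul_le_mul' le_rfl (hle _))) le_rfl)
  · intro y hy y' hy' hne z hz z' hz' heq
    obtain ⟨i, hi⟩ := hGm y hy
    obtain ⟨j, hj⟩ := hGm y' hy'
    obtain ⟨a1, a2, a3⟩ := hmem i y hi
    obtain ⟨b1, b2, b3⟩ := hmem j y' hj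
    have h1 := tc_sub hr _ y a3 (pr_mem_tc hz)
    have h2 := tc_sub hr _ y' b3 (pr_mem_tc hz')
    rw [← heq] at h2
    have hij : i = j := (hex _).unique h1 h2
    subst hij
    exact hne (iso_pair hi b1 a2 b2 (nr_refl hr y) (nr_meet hz hz' heq))

open Classical in
theorem lay2 (hKQ : S_KQ) (hONE : S_ONE) (hPO2 : S_PO2) (hTF : S_TF) (hBLK : S_BLK)
    {b r r₀ R μ γ₀ ε ε' CP : ℝ} {v : ℝ → ℝ≥0∞} {q κ : ℕ} (hμ : 0 < μ)
    (hv : Measurable v) (hγ : 0 ≤ γ₀) (hCap : Cap n μ v γ₀ r₀)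
    (hPO : PO n L 2 CP (ENNReal.ofReal μ) (fun _ => 0)) (hCP : 0 ≤ CP) (hε : 0 < ε) (hε1 : ε ≤ 1)
    (hε' : 0 < ε') (hr₀ : 0 < r₀) (hr₀r : r₀ ≤ r) (hrR : r ≤ R) (hR : 1 ≤ R)
    (h4r : 4 * r ≤ b) (hb1 : 1 ≤ b) (hq : 2 ≤ q) (hLb : L = q * b)
    {F : Multiset (Tor n L) → ℂ} (hF : EB F) :
    ENNReal.ofReal (γ₀ * (1 - ε) / b ^ n) * ∑ i : Fin n → Fin q, ∫⁻ γ,
        (if cnt (blk n L b (fun c => (i c : ℕ))) (ms γ) ≤ κ then
          (cnt (blk n L b (fun c => (i c : ℕ))) (ms γ) : ℝ≥0∞) ^ 2 else 0) * ‖F (ms γ)‖ₑ ^ 2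
          ∂(lam (volume : Measure (Tor n L))) ≤
      ENNReal.ofReal ((1 + ε') * μ) * hig R F + Vp v F +
      ENNReal.ofReal ((1 + 1 / ε') * μ * (2 * n * ((60 * r₀ / r) ^ n / R ^ 2))) * nuE volume F +
      ENNReal.ofReal (γ₀ * (L ^ n / b ^ n) * (κ / b ^ n + κ ^ 2 / b ^ n *
        (4 * n * r / b + 2 * κ * (4 * r / b) ^ n))) * nE volume F +
      ENNReal.ofReal (γ₀ * (5 * κ ^ 2 / b ^ n + κ / (ε * (2 * r₀) ^ n)) * (CP * b ^ 2)) *
        ken (ENNReal.ofReal μ) (fun _ => 0) F := by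
  have hr : 0 < r := by linarith
  have hb0 : 0 < b := by linarith
  have hq2 : (2 : ℝ) ≤ q := by exact_mod_cast hq
  have hbL2 : 2 * b ≤ L := by rw [hLb]; nlinarith
  have hbL : b ≤ L := by linarith
  have hbn : 0 < b ^ n := pow_pos hb0 n
  have hq1 : 1 ≤ q := by omega
  have hblk := hBLK n L b q hq1 hLb
  have hex := hblk.2.1
  have hfin : IsFiniteMeasure (lam (volume : Measure (Tor n L))) := lamfin _
  set B : (Fin n → Fin q) → Set (Tor n L) := fun i => blk n L b (fun c => (i c : ℕ)) with hBd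
  set bd : (Fin n → Fin q) → Set (Tor n L) := fun i => bdl n L b r (fun c => (i c : ℕ)) with hbd
  have hBm : ∀ i, MeasurableSet (B i) := fun i => blk_meas hbL _
  have hbdm : ∀ i, MeasurableSet (bd i) := fun i => (blk_meas hbL _).diff (gb_meas hr hbL _)
  have hsubt : ∀ y : Tor n L, tc y r₀ ⊆ tc y r := fun y x hx c => (hx c).trans hr₀r
  set E1 : ℝ := κ / b ^ n + κ ^ 2 / b ^ n * (4 * n * r / b + 2 * κ * (4 * r / b) ^ n) with hE1
  set E2 : ℝ := 5 * κ ^ 2 / b ^ n + κ / (ε * (2 * r₀) ^ n) with hE2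
  have hE1n : 0 ≤ E1 := by positivity
  have hE2n : 0 ≤ E2 := by positivity
  -- one block with `N` particles
  have hone : ∀ i : Fin n → Fin q, ∀ N ∈ Finset.Icc 1 κ,
      ENNReal.ofReal ((1 - ε) / b ^ n) * ((N : ℝ≥0∞) ^ 2 * nE volume (rs (B i) N F)) ≤
        ENNReal.ofReal E1 * nE volume (rs (B i) N F) +
        ENNReal.ofReal E2 * dp volume (B i) (rs (B i) N F) +
        ∫⁻ γ, ((iso (B i) (B i \ bd i) (nr r) (ms γ)).map fun y =>
          ‖av volume (tc y r₀) (rs (B i) N F) (ms γ)‖ₑ ^ 2).sum ∂(lam volume) := by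
    intro i N hN
    obtain ⟨hN1, hN2⟩ := Finset.mem_Icc.1 hN
    have h1 := hONE (Tor n L) volume (B i) (bd i) (nr r) (fun y => tc y r₀) N (b ^ n)
      ((2 * r₀) ^ n) ((4 * r) ^ n) (2 * n * r / b * b ^ n) ε (rs (B i) N F) (hBm i) (hbdm i)
      (tc_prod_meas (2 * r)) (tc_prod_meas r₀) hbn (blk_vol hb0 hbL _) Set.sdiff_subset
      (by positivity) (bd_vol hb0 hr (by linarith) hbL _) (nr_refl hr) nr_symm (by positivity)
      ?_ (by positivity) ?_ hε hε1 (rs_eb (hBm i) N hF) (fun S hS => rs_zero _ _ _ _ hS)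
    · rw [num1 hbn hε1, mul_assoc] at h1
      refine h1.trans (add_le_add (add_le_add (mul_le_mul' ?_ le_rfl) (mul_le_mul' ?_ le_rfl))
        le_rfl)
      · exact ENNReal.ofReal_le_ofReal (num2 hb0 hr hN2)
      · exact ENNReal.ofReal_le_ofReal (num3 hbn hε (by positivity) hN1 hN2)
    · intro y _
      have h2 : volume (tc y (2 * r)) = ENNReal.ofReal ((4 * r) ^ n) := by
        rw [tc_vol (by linarith) (by linarith)]
        congr 2
        ring
      rw [← h2]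
      exact measure_mono fun y' hy' => hy'.2
    · intro y hy hy2
      have h3 : y ∈ gb n L b r (fun c => (i c : ℕ)) := by
        by_contra h4
        exact hy2 ⟨hy, h4⟩
      exact ⟨(hsubt y).trans (tc_sub hr _ y h3), tc_vol hr₀.le (by linarith) y⟩
  -- one block
  have hblock : ∀ i : Fin n → Fin q,
      ENNReal.ofReal ((1 - ε) / b ^ n) * ∫⁻ γ,
        (if cnt (B i) (ms γ) ≤ κ then (cnt (B i) (ms γ) : ℝ≥0∞) ^ 2 else 0) * ‖F (ms γ)‖ₑ ^ 2
          ∂(lam volume) ≤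
        ENNReal.ofReal E1 * nE volume F + ENNReal.ofReal E2 * dp volume (B i) F +
        ∫⁻ γ, ((iso (B i) (B i \ bd i) (nr r) (ms γ)).map fun y =>
          ‖av volume (tc y r₀) F (ms γ)‖ₑ ^ 2).sum ∂(lam volume) := by
    intro i
    refine (mul_le_mul' le_rfl (nE_sum_sq volume (hBm i) κ hF)).trans ?_
    rw [Finset.mul_sum]
    refine (Finset.sum_le_sum fun N hN => hone i N hN).trans ?_
    rw [Finset.sum_add_distrib, Finset.sum_add_distrib, ← Finset.mul_sum, ← Finset.mul_sum]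
    refine add_le_add (add_le_add (mul_le_mul' le_rfl (nE_sum volume (B i) κ F))
      (mul_le_mul' le_rfl (dp_sum volume (hBm i) κ F))) ?_
    refine (sum_lint_le _ _ _).trans (lintegral_mono fun γ => ?_)
    simp only
    rw [Pool.Agent.W571.CB.La.swap_sum]
    refine Multiset.sum_map_le_sum_map _ _ fun y hy => ?_
    obtain ⟨-, h2, -⟩ := mem_iso.1 hy
    have h3 := (mem_good h2).2
    have h4 : ∀ N ∈ Finset.Icc 1 κ, ‖av volume (tc y r₀) (rs (B i) N F) (ms γ)‖ₑ ^ 2 =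
        if cnt (B i) (ms γ) + 1 = N then ‖av volume (tc y r₀) F (ms γ)‖ₑ ^ 2 else 0 := by
      intro N _
      rw [av_rs volume (meas_tc y r₀) ((hsubt y).trans (tc_sub hr _ y h3))]
      split_ifs <;> simp
    rw [Finset.sum_congr rfl h4]
    exact sum_ite_le κ _ _
  -- all blocks
  set Rr : Cf (Tor n L) → ℝ≥0∞ := fun γ => ∑ i : Fin n → Fin q,
    ((iso (B i) (B i \ bd i) (nr r) (ms γ)).map fun y =>
      ‖av volume (tc y r₀) F (ms γ)‖ₑ ^ 2).sum with hRr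
  have hall : ENNReal.ofReal ((1 - ε) / b ^ n) * ∑ i : Fin n → Fin q, ∫⁻ γ,
        (if cnt (B i) (ms γ) ≤ κ then (cnt (B i) (ms γ) : ℝ≥0∞) ^ 2 else 0) * ‖F (ms γ)‖ₑ ^ 2
          ∂(lam volume) ≤
      ((q ^ n : ℕ) : ℝ≥0∞) * (ENNReal.ofReal E1 * nE volume F) +
        ENNReal.ofReal E2 * (ENNReal.ofReal (CP * b ^ 2) *
          ken (ENNReal.ofReal μ) (fun _ => 0) F) + ∫⁻ γ, Rr γ ∂(lam volume) := by
    rw [Finset.mul_sum]
    refine (Finset.sum_le_sum fun i _ => hblock i).trans ?_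
    have s1 : ∑ _i : Fin n → Fin q, (ENNReal.ofReal E1 * nE volume F) =
        ((q ^ n : ℕ) : ℝ≥0∞) * (ENNReal.ofReal E1 * nE volume F) := by
      rw [Finset.sum_const, Finset.card_univ, Fintype.card_fun, Fintype.card_fin,
        Fintype.card_fin, nsmul_eq_mul]
    have s2 : ∑ i : Fin n → Fin q, ENNReal.ofReal E2 * dp volume (B i) F =
        ENNReal.ofReal E2 * ∑ i : Fin n → Fin q, dp volume (B i) F := by
      rw [Finset.mul_sum]
    rw [Finset.sum_add_distrib, Finset.sum_add_distrib, s1, s2]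
    refine add_le_add (add_le_add le_rfl (mul_le_mul' le_rfl ?_)) (sum_lint_le _ _ _)
    exact dp_tot hPO2 hBLK hq1 hLb hb1 hCP hPO hF
  -- the energy
  have hvm : Measurable fun p : Tor n L × Tor n L => v (tdist p.1 p.2) :=
    ((hTF n L).2.2.2.2.2.2.2 v hv).1
  obtain ⟨hpm, hpe⟩ := pot volume hF (fun x y => v (tdist x y)) hvm
  set CE : ℝ := (1 + 1 / ε') * μ * (2 * n * ((60 * r₀ / r) ^ n / R ^ 2)) with hCE
  have hen : ENNReal.ofReal γ₀ * ∫⁻ γ, Rr γ ∂(lam volume) ≤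
      ENNReal.ofReal ((1 + ε') * μ) * hig R F + Vp v F + ENNReal.ofReal CE * nuE volume F := by
    refine (lintegral_const_mul_le _ _).trans ?_
    have h1 : ∫⁻ γ, ENNReal.ofReal γ₀ * Rr γ ∂(lam volume) ≤
        ∫⁻ γ, (ENNReal.ofReal ((1 + ε') * μ) * K1 (fun x => fb F γ x - MM R (fb F γ) x) +
        2⁻¹ * ((ms γ).map fun y => ∫⁻ x, v (tdist x y) * ‖F (x ::ₘ ms γ)‖ₑ ^ 2).sum +
        ENNReal.ofReal CE * N2 (fb F γ)) ∂(lam volume) :=
      lintegral_mono fun γ => capt_pt2 hKQ hex hr₀ hr₀r (by linarith) hrR hR hμ.le hγ hε' hv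
        hCap hF γ
    refine h1.trans (le_of_eq ?_)
    rw [lintegral_add_right _ ((N2_meas hF).const_mul _), lintegral_add_right _ (hpm.const_mul _),
      lintegral_const_mul _ hpm, hpe, lintegral_const_mul _ (N2_meas hF), ← nuE_N2 hF,
      lintegral_const_mul' _ _ ENNReal.ofReal_ne_top]
    rfl
  -- the end
  have hqn : ((q ^ n : ℕ) : ℝ≥0∞) = ENNReal.ofReal (L ^ n / b ^ n) := by
    rw [hLb, mul_pow, mul_div_assoc, div_self hbn.ne', mul_one, ← Nat.cast_pow,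
      ENNReal.ofReal_natCast]
  have hL0 : 0 < L := hL.out
  have hLbn : 0 ≤ L ^ n / b ^ n := by positivity
  have e0 : ENNReal.ofReal (γ₀ * (1 - ε) / b ^ n) =
      ENNReal.ofReal γ₀ * ENNReal.ofReal ((1 - ε) / b ^ n) := by
    rw [← ENNReal.ofReal_mul hγ]
    congr 1
    ring
  have e1 : ENNReal.ofReal (γ₀ * (L ^ n / b ^ n) * E1) =
      ENNReal.ofReal γ₀ * ENNReal.ofReal (L ^ n / b ^ n) * ENNReal.ofReal E1 := by
    rw [ENNReal.ofReal_mul (mul_nonneg hγ hLbn), ENNReal.ofReal_mul hγ]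
  have e2 : ENNReal.ofReal (γ₀ * E2 * (CP * b ^ 2)) =
      ENNReal.ofReal γ₀ * ENNReal.ofReal E2 * ENNReal.ofReal (CP * b ^ 2) := by
    rw [ENNReal.ofReal_mul (mul_nonneg hγ hE2n), ENNReal.ofReal_mul hγ]
  rw [e0, e1, e2, ← hqn, mul_assoc]
  refine (mul_le_mul' le_rfl hall).trans ?_
  rw [mul_add, mul_add]
  calc ENNReal.ofReal γ₀ * (((q ^ n : ℕ) : ℝ≥0∞) * (ENNReal.ofReal E1 * nE volume F)) +
        ENNReal.ofReal γ₀ * (ENNReal.ofReal E2 * (ENNReal.ofReal (CP * b ^ 2) *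
          ken (ENNReal.ofReal μ) (fun _ => 0) F)) +
        ENNReal.ofReal γ₀ * ∫⁻ γ, Rr γ ∂(lam volume) ≤
      ENNReal.ofReal γ₀ * (((q ^ n : ℕ) : ℝ≥0∞) * (ENNReal.ofReal E1 * nE volume F)) +
        ENNReal.ofReal γ₀ * (ENNReal.ofReal E2 * (ENNReal.ofReal (CP * b ^ 2) *
          ken (ENNReal.ofReal μ) (fun _ => 0) F)) +
        (ENNReal.ofReal ((1 + ε') * μ) * hig R F + Vp v F + ENNReal.ofReal CE * nuE volume F) :=
        add_le_add le_rfl hen
    _ = _ := by ring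

end

end Pool.Agent.Y656
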