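import Pool.Agent.Y656.ParL

/-!
# The parameters, with the blocks given, and the chain
-/

set_option autoImplicit false

namespace Pool.Agent.Y656

noncomputable section

/-- the parameters -/
theorem parB (n : ℕ) (hn : 3 ≤ n) (G μ CP CA b₀ Cc : ℝ) (hG : 0 < G) (hμ : 0 < μ) (hCP : 0 ≤ CP)
    (hCA : 0 ≤ CA) :
    ∃ D x₀ : ℝ, 1 ≤ D ∧ 4 ≤ x₀ ∧ ∀ x : ℝ, x₀ ≤ x → ∀ L ν b M : ℝ, 0 < L →
      1 / 2 / x ^ (2 * (n ^ 3 + 4 * n ^ 2)) ≤ ν → ν ≤ 1 / x ^ (2 * (n ^ 3 + 4 * n ^ 2)) →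
      x ^ (2 * n ^ 2 + 8 * n + 2) ≤ b → b ≤ 2 * x ^ (2 * n ^ 2 + 8 * n + 2) →
      x ^ 3 ≤ M → M ≤ 2 * x ^ 3 →
      ∃ (b₁ r r₀ R : ℝ), b = M * b₁ ∧
        0 < b₁ ∧ b₀ ≤ b₁ ∧ 1 ≤ b ∧ 4 * r ≤ b ∧ r ≤ R ∧ 1 ≤ R ∧ r₀ ≤ r ∧ 0 < r₀ ∧
        Cc * x ^ 8 ≤ r₀ ∧ R ^ 2 * ν ≤ 1 / x ^ 2 ∧
        ∀ γ₀ : ℝ, 0 < γ₀ → γ₀ ≤ G →
          γ₀ * (5 * (2 * M ^ n) ^ 2 / b ^ n + 2 * M ^ n / (1 / x * (2 * r₀) ^ n)) *
            (CP * b ^ 2) ≤ D / x ∧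
          4 * γ₀ * ν * (CA * b₁ ^ n) ≤ D / x ∧
          γ₀ * (L ^ n / b ^ n) * (2 * M ^ n / b ^ n + (2 * M ^ n) ^ 2 / b ^ n *
            (4 * n * r / b + 2 * (2 * M ^ n) * (4 * r / b) ^ n)) ≤ D / x * (ν ^ 2 * L ^ n) ∧
          (1 + 1 / (1 / x)) * μ * (2 * n * ((60 * r₀ / r) ^ n / R ^ 2)) * (ν * L ^ n) ≤
            D / x * (ν ^ 2 * L ^ n) := by
  obtain ⟨D₁, hD₁⟩ : ∃ D₁ : ℝ, D₁ = 4 * G * (CA * 2 ^ n) := ⟨_, rfl⟩
  obtain ⟨D₂, hD₂⟩ : ∃ D₂ : ℝ, D₂ = G * (80 * 4 ^ n * CP + 8 * CP) := ⟨_, rfl⟩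
  obtain ⟨D₃, hD₃⟩ : ∃ D₃ : ℝ, D₃ = G * (4 * (2 * 2 ^ n + 16 * n * 4 ^ n + 16 * 32 ^ n)) := ⟨_, rfl⟩
  obtain ⟨D₄, hD₄⟩ : ∃ D₄ : ℝ, D₄ = 8 * μ * n * 60 ^ n := ⟨_, rfl⟩
  have h1 : 0 ≤ D₁ := by rw [hD₁]; positivity
  have h2 : 0 ≤ D₂ := by rw [hD₂]; positivity
  have h3 : 0 ≤ D₃ := by rw [hD₃]; positivity
  have h4 : 0 ≤ D₄ := by rw [hD₄]; positivity
  refine ⟨1 + D₁ + D₂ + D₃ + D₄, max (max 4 (2 * b₀)) Cc, by linarith,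
    (le_max_left _ _).trans (le_max_left _ _), ?_⟩
  intro x hx L ν b M hL0 hν1 hν2 hb1 hb2 hM1 hM2
  have hx4 : 4 ≤ x := ((le_max_left _ _).trans (le_max_left _ _)).trans hx
  have hx2 : 2 ≤ x := by linarith
  have hxb : 2 * b₀ ≤ x := ((le_max_right _ _).trans (le_max_left _ _)).trans hx
  have hxc : Cc ≤ x := (le_max_right _ _).trans hx
  have hx1 : 1 ≤ x := by linarith
  have hx0 : 0 < x := by linarith
  obtain ⟨Z, hZ⟩ : ∃ Z : ℝ, Z = x ^ (n ^ 3 + 4 * n ^ 2) := ⟨_, rfl⟩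
  have hZ0 : 0 < Z := by rw [hZ]; positivity
  have hZ2 : x ^ (2 * (n ^ 3 + 4 * n ^ 2)) = Z ^ 2 := by rw [hZ, ← pow_mul]; congr 1; ring
  rw [hZ2] at hν1 hν2
  have hν0 : 0 < ν := lt_of_lt_of_le (by positivity) hν1
  obtain ⟨B, hB⟩ : ∃ B : ℝ, B = x ^ (2 * n ^ 2 + 8 * n + 2) := ⟨_, rfl⟩
  rw [← hB] at hb1 hb2
  have hB0 : 0 < B := by rw [hB]; positivity
  have hB1 : 1 ≤ B := by rw [hB]; exact one_le_pow₀ hx1
  have hBn : B ^ n = Z ^ 2 * x ^ (2 * n) := by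
    rw [hB, hZ, ← pow_mul, ← pow_mul, ← pow_add]
    congr 1
    ring
  have h9 : 3 * n ^ 2 ≤ n ^ 3 := by
    rw [pow_succ n 2, mul_comm]
    exact Nat.mul_le_mul_left _ hn
  have hx3 : 8 ≤ x ^ 3 := by
    calc (8 : ℝ) = 2 ^ 3 := by norm_num
      _ ≤ x ^ 3 := pow_le_pow_left₀ (by norm_num) hx2 3
  have hM0 : (0 : ℝ) < M := by linarith
  have hb0 : 0 < b := by linarith
  obtain ⟨b₁, hb₁⟩ : ∃ b₁ : ℝ, b₁ = b / M := ⟨_, rfl⟩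
  have hbb : b = M * b₁ := by rw [hb₁]; field_simp
  have hb₁0 : 0 < b₁ := by rw [hb₁]; positivity
  have hb₁u : b₁ ≤ 2 * B / x ^ 3 := by
    rw [hb₁, div_le_div_iff₀ hM0 (by positivity)]
    exact mul_le_mul hb2 hM1 (by positivity) (by positivity)
  have hb₁l : x / 2 ≤ b₁ := by
    rw [hb₁, le_div_iff₀ hM0]
    have h5 : x ^ 4 ≤ B := by
      rw [hB]
      exact pow_le_pow_right₀ hx1 (by nlinarith)
    calc x / 2 * M ≤ x / 2 * (2 * x ^ 3) := mul_le_mul_of_nonneg_left hM2 (by positivity)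
      _ = x ^ 4 := by ring
      _ ≤ B := h5
      _ ≤ b := hb1
  obtain ⟨r, hr⟩ : ∃ r : ℝ, r = x ^ (2 * n ^ 2 + 6 * n) := ⟨_, rfl⟩
  have hr0 : 0 < r := by rw [hr]; positivity
  have hrB : r * x ^ (2 * n + 2) = B := by
    rw [hr, hB, ← pow_add]
    congr 1
    ring
  obtain ⟨r₀, hr₀⟩ : ∃ r₀ : ℝ, r₀ = x ^ (4 * n + 21) := ⟨_, rfl⟩
  have hr₀0 : 0 < r₀ := by rw [hr₀]; positivity
  obtain ⟨R, hR⟩ : ∃ R : ℝ, R = Z / x := ⟨_, rfl⟩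
  have hR0 : 0 < R := by rw [hR]; positivity
  have hrR : r ≤ R := by
    rw [hR, le_div_iff₀ hx0, hr, hZ, ← pow_succ]
    apply pow_le_pow_right₀ hx1
    nlinarith
  have hr1 : 1 ≤ r := by rw [hr]; exact one_le_pow₀ hx1
  have hDx : ∀ y : ℝ, 0 ≤ y → ∀ c : ℝ, 0 ≤ c → c ≤ 1 + D₁ + D₂ + D₃ + D₄ → y ≤ 1 / x →
      c * y ≤ (1 + D₁ + D₂ + D₃ + D₄) / x := by
    intro y hy c hc hcD hyx
    calc c * y ≤ (1 + D₁ + D₂ + D₃ + D₄) * (1 / x) := mul_le_mul hcD hyx hy (by positivity)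
      _ = _ := by ring
  refine ⟨b₁, r, r₀, R, hbb, hb₁0, by linarith, by linarith, ?_,
    hrR, hr1.trans hrR, ?_, hr₀0, ?_, ?_, ?_⟩
  · refine le_trans ?_ hb1
    rw [← hrB, mul_comm]
    apply mul_le_mul_of_nonneg_left _ hr0.le
    calc (4 : ℝ) = 2 ^ 2 := by norm_num
      _ ≤ x ^ 2 := pow_le_pow_left₀ (by norm_num) hx2 2
      _ ≤ x ^ (2 * n + 2) := pow_le_pow_right₀ hx1 (by omega)
  · rw [hr₀, hr]
    apply pow_le_pow_right₀ hx1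
    nlinarith
  · rw [hr₀]
    calc Cc * x ^ 8 ≤ x * x ^ 8 := mul_le_mul_of_nonneg_right hxc (by positivity)
      _ = x ^ 9 := by ring
      _ ≤ x ^ (4 * n + 21) := pow_le_pow_right₀ hx1 (by omega)
  · rw [hR, div_pow]
    calc Z ^ 2 / x ^ 2 * ν ≤ Z ^ 2 / x ^ 2 * (1 / Z ^ 2) :=
          mul_le_mul_of_nonneg_left hν2 (by positivity)
      _ = 1 / x ^ 2 := by field_simp
  · intro γ₀ hγ hγG
    refine ⟨?_, ?_, ?_, ?_⟩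
    · refine (pE2 hn hx1 hB hb1 hb2 hM0 hM2 hr₀ hCP hγ hγG).trans ?_
      rw [← hD₂]
      exact hDx _ (by positivity) _ h2 (by linarith) le_rfl
    · calc 4 * γ₀ * ν * (CA * b₁ ^ n) ≤ 4 * G * (1 / Z ^ 2) * (CA * (2 * B / x ^ 3) ^ n) := by
            gcongr
        _ = 4 * G * (CA * 2 ^ n) * (x ^ (2 * n) / x ^ (3 * n)) := by
            rw [div_pow, mul_pow, hBn, ← pow_mul]
            field_simp
        _ = D₁ * (x ^ (2 * n) / x ^ (3 * n)) := by rw [hD₁]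
        _ ≤ _ := hDx _ (by positivity) _ h1 (by linarith) (pq hx1 (by omega))
    · refine (pE3 hn hx1 hB0 hBn hb1 hM0 hM2 hr0 hrB hγ hγG hL0 hZ0 hν1).trans ?_
      rw [← hD₃]
      exact mul_le_mul_of_nonneg_right (hDx _ (by positivity) _ h3 (by linarith) le_rfl)
        (by positivity)
    · refine (pE4 hn hx1 hμ hr hr₀ hR hL0 hZ0 hν1).trans ?_
      rw [← hD₄]
      exact mul_le_mul_of_nonneg_right (hDx _ (by positivity) _ h4 (by linarith) le_rfl)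
        (by positivity)

/-- real arithmetic for the first constant -/
lemma aR1 {S D x X γ₀ ν A : ℝ} (hS : 0 < S) (hD : 1 ≤ D) (hx : 4 ≤ x) (hν : 0 < ν)
    (hγ : γ₀ = S * (1 - 1 / x)) (hX : X ≤ D / x) (hA0 : 0 ≤ A) (hA : 4 * γ₀ * ν * A ≤ D / x) :
    (1 + X) / (γ₀ * (1 - 1 / x) * ν ^ 2) + 12 * A / ν ≤
      1 / (S * ν ^ 2) * (1 + 19 * D / x) := by
  have hx0 : 0 < x := by linarith
  obtain ⟨u, hu⟩ : ∃ u, u = 1 / x := ⟨_, rfl⟩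
  have hu0 : 0 < u := by rw [hu]; positivity
  have hu4 : u ≤ 1 / 4 := by rw [hu]; exact one_div_le_one_div_of_le (by norm_num) hx
  have hDu : D / x = D * u := by rw [hu]; ring
  have h19 : 19 * D / x = 19 * D * u := by rw [hu]; ring
  rw [hDu] at hX hA
  rw [h19]
  rw [← hu] at hγ ⊢
  have h1u : 0 < 1 - u := by linarith
  have hγ0 : 0 < γ₀ := by rw [hγ]; positivity
  have hγ2 : S / 2 ≤ γ₀ := by rw [hγ]; nlinarith
  have e1 : (1 + X) / (γ₀ * (1 - u) * ν ^ 2) = 1 / (S * ν ^ 2) * ((1 + X) / (1 - u) ^ 2) := by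
    rw [hγ]
    field_simp
  have e2 : 12 * A / ν = 1 / (S * ν ^ 2) * (3 * (4 * γ₀ * ν * A) * (S / γ₀)) := by
    field_simp
    ring
  have h3 : (1 + X) / (1 - u) ^ 2 ≤ 1 + 13 * D * u := by
    rw [div_le_iff₀ (by positivity)]
    have h4 : 1 ≤ (1 + 6 * u) * (1 - u) ^ 2 := by
      have : (1 + 6 * u) * (1 - u) ^ 2 = 1 + u * (4 - 11 * u + 6 * u ^ 2) := by ring
      rw [this]
      have : 0 ≤ u * (4 - 11 * u + 6 * u ^ 2) := mul_nonneg hu0.le (by nlinarith)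
      linarith
    have h5 : (1 + D * u) * (1 + 6 * u) ≤ 1 + 13 * D * u := by
      have : (1 + D * u) * (1 + 6 * u) = 1 + 6 * u + D * u + 6 * D * u * u := by ring
      rw [this]
      have h6 : 6 * D * u * u ≤ 6 * D * u * 1 :=
        mul_le_mul_of_nonneg_left (by linarith) (by positivity)
      nlinarith
    calc 1 + X ≤ (1 + D * u) * 1 := by linarith
      _ ≤ (1 + D * u) * ((1 + 6 * u) * (1 - u) ^ 2) :=
          mul_le_mul_of_nonneg_left h4 (by positivity)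
      _ = (1 + D * u) * (1 + 6 * u) * (1 - u) ^ 2 := by ring
      _ ≤ _ := mul_le_mul_of_nonneg_right h5 (by positivity)
  have h6 : 3 * (4 * γ₀ * ν * A) * (S / γ₀) ≤ 6 * D * u := by
    have h7 : S / γ₀ ≤ 2 := by
      rw [div_le_iff₀ hγ0]
      linarith
    calc 3 * (4 * γ₀ * ν * A) * (S / γ₀) ≤ 3 * (D * u) * 2 := by gcongr
      _ = _ := by ring
  rw [e1, e2, ← mul_add]
  apply mul_le_mul_of_nonneg_left _ (by positivity)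
  linarith

/-- real arithmetic for the second constant -/
lemma aR2 {S D x γ₀ ν Y b T V : ℝ} {n : ℕ} (hS : 0 < S) (hx : 4 ≤ x) (hν : 0 < ν)
    (hγ : γ₀ = S * (1 - 1 / x)) (hV : 0 < V) (hD : 0 ≤ D)
    (hY : γ₀ * (V / b ^ n) * T ≤ D / x * (ν ^ 2 * V)) (hYd : Y = γ₀ * (1 / b ^ n) * T /
      (γ₀ * (1 - 1 / x) * ν ^ 2)) : Y ≤ 4 * D / (S * x) := by
  have hx0 : 0 < x := by linarith
  have hu4 : 1 / x ≤ 1 / 4 := one_div_le_one_div_of_le (by norm_num) hx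
  have h1u : 0 < 1 - 1 / x := by linarith
  have h1u2 : 1 / 2 ≤ 1 - 1 / x := by linarith
  have hγ0 : 0 < γ₀ := by rw [hγ]; positivity
  have hγ2 : S / 2 ≤ γ₀ := by rw [hγ]; nlinarith
  have h1 : γ₀ * (1 / b ^ n) * T ≤ D / x * ν ^ 2 := by
    have h2 : γ₀ * (V / b ^ n) * T = γ₀ * (1 / b ^ n) * T * V := by ring
    rw [h2, ← mul_assoc] at hY
    exact le_of_mul_le_mul_right hY hV
  rw [hYd, div_le_iff₀ (by positivity)]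
  have h3 : S / 4 ≤ γ₀ * (1 - 1 / x) := by
    calc S / 4 = S / 2 * (1 / 2) := by ring
      _ ≤ γ₀ * (1 - 1 / x) := mul_le_mul hγ2 h1u2 (by norm_num) hγ0.le
  calc γ₀ * (1 / b ^ n) * T ≤ D / x * ν ^ 2 := h1
    _ = 4 * D / (S * x) * (S / 4 * ν ^ 2) := by field_simp
    _ ≤ 4 * D / (S * x) * (γ₀ * (1 - 1 / x) * ν ^ 2) := by gcongr

/-- the chain -/
lemma par5 {lam r q δ e ℓ Γ v₁ σ : ℝ} {n : ℕ} (hr1 : r < 1) (hr0 : 0 ≤ r)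
    (hq1 : q < 1) (hδ : 0 < δ) (he : 0 < e) (hℓ : 0 < ℓ) (hΓ : 0 < Γ)
    {ε0 : ℝ} (hε0 : ε0 = 3072 / ((1 - r) ^ 2 * e * δ * ℓ ^ n))
    (hB : (2 : ℝ) ^ σ * (v₁ * δ ^ 2 * (ε0 / (1 - lam))) ≤
      (1 - r) ^ 2 * e / 32 * δ * (ℓ ^ n * Γ)) :
    ∀ ξ es H T : ℝ, T ≤ (1 - q) ^ 2 * e / 32 * δ → ξ = 6 / (ε0 * ℓ ^ n) → 0 ≤ es →
      es ≤ v₁ * δ ^ 2 * (ε0 / (1 - lam)) →
      H = 2 * √ξ + √((2 : ℝ) ^ σ * es / (ℓ ^ n * Γ)) →
      √ξ + H / (1 - r) + √T / (1 - q) ≤ √e * √(δ / 2) := by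
  intro ξ es H T hT hξ hes0 hes hH
  have h1r : 0 < 1 - r := by linarith
  have h1q : 0 < 1 - q := by linarith
  obtain ⟨K1, hK1⟩ : ∃ K1 : ℝ, K1 = √(e / 2) := ⟨_, rfl⟩
  have hK10 : 0 < K1 := by rw [hK1]; exact Real.sqrt_pos.2 (by positivity)
  have hK12 : K1 ^ 2 = e / 2 := by rw [hK1]; exact Real.sq_sqrt (by positivity)
  have hsδ : 0 < √δ := Real.sqrt_pos.2 hδ
  have hξ1 : ξ = (1 - r) ^ 2 * e * δ / 512 := by
    rw [hξ, hε0]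
    field_simp
    norm_num
  have b2 : √ξ ≤ (1 - r) * K1 / 16 * √δ := by
    rw [Real.sqrt_le_left (by positivity), mul_pow, Real.sq_sqrt hδ.le, hξ1, div_pow, mul_pow,
      hK12]
    apply le_of_eq
    ring
  have b3 : √((2 : ℝ) ^ σ * es / (ℓ ^ n * Γ)) ≤ ((1 - r) * K1 / 4) * √δ := by
    rw [Real.sqrt_le_left (by positivity), mul_pow, Real.sq_sqrt hδ.le,
      div_le_iff₀ (by positivity)]
    calc (2 : ℝ) ^ σ * es ≤ (2 : ℝ) ^ σ * (v₁ * δ ^ 2 * (ε0 / (1 - lam))) := by gcongr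
      _ ≤ _ := hB
      _ = _ := by
        rw [div_pow, mul_pow, hK12]
        ring
  have hHle : H / (1 - r) ≤ K1 * √δ * (3 / 8) := by
    rw [div_le_iff₀ h1r, hH]
    linarith only [b2, b3]
  have hTle : √T / (1 - q) ≤ K1 * √δ / 4 := by
    rw [div_le_iff₀ h1q]
    calc √T ≤ √(((1 - q) * K1 / 4 * √δ) ^ 2) := by
          apply Real.sqrt_le_sqrt
          refine hT.trans (le_of_eq ?_)
          rw [mul_pow, Real.sq_sqrt hδ.le, div_pow, mul_pow, hK12]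
          ring
      _ = (1 - q) * K1 / 4 * √δ := Real.sqrt_sq (by positivity)
      _ = K1 * √δ / 4 * (1 - q) := by ring
  have hfst : √ξ ≤ K1 * √δ / 16 := by
    refine b2.trans ?_
    have h1 : 0 ≤ r * (K1 * √δ) := by positivity
    linarith only [h1]
  have hend : √e * √(δ / 2) = K1 * √δ := by
    rw [hK1, ← Real.sqrt_mul he.le, ← Real.sqrt_mul (by positivity : 0 ≤ e / 2)]
    congr 1
    ring
  rw [hend]
  have h0 : 0 ≤ K1 * √δ := by positivity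
  linarith only [hHle, hTle, hfst, h0]

end

end Pool.Agent.Y656
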