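import Pool.Agent.Y656.ChR
import Pool.Agent.W761.CB.Par

/-!
# Auxiliary facts for soft potentials
-/

set_option autoImplicit false

open MeasureTheory
open scoped ENNReal

namespace Pool.Agent.Y656

open Pool.Agent.W761.CB

noncomputable section

lemma m_natI {n m : ℕ} (hn : 3 ≤ n) (hm : m = n ^ 3 + 4 * n ^ 2) :
    8 * n + 3 ≤ m ∧ 2 * n ^ 2 + 8 * n + 2 + 1 ≤ m ∧ 3 ≤ m := by
  have hnn : 3 * n ≤ n ^ 2 := by
    rw [pow_two]
    exact Nat.mul_le_mul_right _ hn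
  have h9 : 3 * n ^ 2 ≤ n ^ 3 := by
    rw [pow_succ n 2, mul_comm]
    exact Nat.mul_le_mul_left _ hn
  refine ⟨by rw [hm]; omega, by rw [hm]; omega, by rw [hm]; omega⟩

/-- powers of two -/
lemma two_pow_nearI {y : ℝ} (hy : 1 ≤ y) : ∃ s : ℕ, y ≤ ((2 ^ s : ℕ) : ℝ) ∧
    ((2 ^ s : ℕ) : ℝ) ≤ 2 * y := by
  obtain ⟨j, h1, h2⟩ := near 2 y (by norm_num) hy
  refine ⟨j + 1, ?_, ?_⟩
  · push_cast
    exact h2.le
  · push_cast
    rw [pow_succ]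
    linarith

/-- a scale -/
lemma scale_nearI {ℓ B : ℝ} (hB : 0 < B) (h : B ≤ ℓ) : ∃ (s : ℕ) (b : ℝ), ℓ = 2 ^ s * b ∧
    B ≤ b ∧ b ≤ 2 * B := by
  obtain ⟨s, h1, h2⟩ := near 2 (ℓ / B) (by norm_num) (by rwa [one_le_div hB])
  have h2s : (0 : ℝ) < 2 ^ s := by positivity
  refine ⟨s, ℓ / 2 ^ s, by field_simp, ?_, ?_⟩
  · rw [le_div_iff₀ h2s]
    rw [le_div_iff₀ hB] at h1
    linarith
  · rw [div_le_iff₀ h2s]
    rw [div_lt_iff₀ hB, pow_succ] at h2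
    linarith

/-- the constants of the last step -/
lemma lCI {S D C₁ c₄ Ce w x e : ℝ} (hS : 0 < S) (hD : 1 ≤ D) (hC₁ : 0 < C₁) (hc₄ : 0 < c₄)
    (hCe : Ce = 4 + 2 * C₁ / S + 4 * S * c₄ + 19 * D + 4 * D / S) (hw : 1 ≤ w) (hwx : w ≤ x)
    (he : e = Ce / w) :
    19 * D / x ≤ e ∧ 4 * D / (S * x) ≤ e ∧ 4 * S * c₄ / w ≤ e ∧ 2 / x + C₁ / (S * w) ≤ e / 2 ∧
      1 / x ≤ e := by
  have hw0 : 0 < w := by linarith
  have hx0 : 0 < x := by linarith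
  have p1 : 0 < 2 * C₁ / S := by positivity
  have p2 : 0 < 4 * S * c₄ := by positivity
  have p3 : 0 < 4 * D / S := by positivity
  have hmono : ∀ y : ℝ, 0 ≤ y → y ≤ Ce → y / x ≤ e := by
    intro y hy hyC
    rw [he]
    calc y / x ≤ y / w := div_le_div_of_nonneg_left hy hw0 hwx
      _ ≤ Ce / w := div_le_div_of_nonneg_right hyC hw0.le
  refine ⟨hmono _ (by positivity) (by rw [hCe]; linarith), ?_, ?_, ?_,
    hmono _ zero_le_one (by rw [hCe]; linarith)⟩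
  · have : 4 * D / (S * x) = 4 * D / S / x := by field_simp
    rw [this]
    exact hmono _ (by positivity) (by rw [hCe]; linarith)
  · rw [he]
    exact div_le_div_of_nonneg_right (by rw [hCe]; linarith) hw0.le
  · have h1 : 2 / x ≤ 2 / w := div_le_div_of_nonneg_left (by norm_num) hw0 hwx
    have h2 : 2 / w + C₁ / (S * w) = (4 + 2 * C₁ / S) / (2 * w) := by field_simp; ring
    have h3 : (4 + 2 * C₁ / S) / (2 * w) ≤ e / 2 := by
      have h4 : e / 2 = Ce / (2 * w) := by rw [he]; field_simp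
      rw [h4]
      exact div_le_div_of_nonneg_right (by rw [hCe]; linarith) (by positivity)
    linarith

/-- the energy with the averaged part of the kinetic energy -/
lemma lUI {S P x w t C₁ E e : ℝ} {k : ℕ} (hS : 0 < S) (hP : 0 < P) (hw : 1 ≤ w)
    (hx : x = w ^ (2 * k + 2)) (ht : t = w ^ (2 * k + 1)) (hE : E ≤ S * P * (1 + 2 / x))
    (h : 2 / x + C₁ / (S * w) ≤ e / 2) :
    E + t * (C₁ / x * P) ≤ S * P * (1 + e / 2) := by
  have hw0 : 0 < w := by linarith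
  have h1 : t * (C₁ / x * P) = S * P * (C₁ / (S * w)) := by
    rw [ht, hx, show 2 * k + 2 = (2 * k + 1) + 1 by ring, pow_succ w (2 * k + 1)]
    field_simp
  rw [h1]
  have h2 : S * P * (1 + 2 / x) + S * P * (C₁ / (S * w)) ≤ S * P * (1 + e / 2) := by
    rw [← mul_add]
    apply mul_le_mul_of_nonneg_left _ (by positivity)
    linarith
  linarith

/-- the constant of the coherence -/
lemma lPI {S c₄ Z W w t ν ℓ R x e : ℝ} {k : ℕ} (hS : 0 < S) (hc₄ : 0 < c₄) (hw : 1 ≤ w)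
    (hW : W = w ^ k) (ht : t = w ^ (2 * k + 1)) (hν0 : 0 < ν) (hν : ν ≤ 1 / Z ^ 2)
    (hZ : 0 < Z) (hℓ0 : 0 < ℓ) (hℓ : ℓ ≤ Z * W) (hR : R ^ 2 * ν ≤ 1 / x ^ 2) (hwx : w ≤ x)
    (h : 4 * S * c₄ / w ≤ e) :
    (c₄ * ℓ ^ 2 / t + c₄ * R ^ 2) * (2 * S * ν) ≤ e := by
  have hw0 : 0 < w := by linarith
  have hx0 : 0 < x := by linarith
  have ht0 : 0 < t := by rw [ht]; positivity
  have h1 : ℓ ^ 2 * ν / t ≤ 1 / w := by
    have h2 : ℓ ^ 2 * ν ≤ W ^ 2 := by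
      calc ℓ ^ 2 * ν ≤ (Z * W) ^ 2 * (1 / Z ^ 2) :=
            mul_le_mul (pow_le_pow_left₀ hℓ0.le hℓ 2) hν hν0.le (by positivity)
        _ = W ^ 2 := by field_simp
    rw [div_le_div_iff₀ ht0 hw0]
    calc ℓ ^ 2 * ν * w ≤ W ^ 2 * w := mul_le_mul_of_nonneg_right h2 hw0.le
      _ = 1 * t := by
        rw [hW, ht, one_mul, ← pow_mul, ← pow_succ]
        congr 1
        ring
  have h3 : R ^ 2 * ν ≤ 1 / w := by
    refine hR.trans (one_div_le_one_div_of_le hw0 ?_)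
    have hx1 : 1 ≤ x := hw.trans hwx
    exact hwx.trans (le_self_pow₀ hx1 (by norm_num))
  calc (c₄ * ℓ ^ 2 / t + c₄ * R ^ 2) * (2 * S * ν) =
        2 * S * c₄ * (ℓ ^ 2 * ν / t) + 2 * S * c₄ * (R ^ 2 * ν) := by ring
    _ ≤ 2 * S * c₄ * (1 / w) + 2 * S * c₄ * (1 / w) := by gcongr
    _ = 4 * S * c₄ / w := by ring
    _ ≤ e := h

lemma finI_num {w Ce κ ρ : ℝ} (hρ : 0 < ρ) (hw : w = ρ ^ (-(4 * κ))) (hCe : 0 < Ce)
    (h : 81 * Ce ^ 2 ≤ w) : 3 * √(Ce / w) ≤ ρ ^ κ := by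
  have hw0 : 0 < w := by rw [hw]; positivity
  have hy0 : 0 < ρ ^ κ := by positivity
  have h1 : (ρ ^ κ) ^ 4 * w = 1 := by
    rw [hw, ← Real.rpow_natCast (ρ ^ κ), ← Real.rpow_mul hρ.le, ← Real.rpow_add hρ]
    push_cast
    rw [show κ * 4 + -(4 * κ) = 0 by ring, Real.rpow_zero]
  have h2 : √(Ce / w) ≤ ρ ^ κ / 3 := by
    rw [Real.sqrt_le_left (by positivity), div_le_iff₀ hw0]
    have h3 : (9 * Ce) ^ 2 ≤ ((ρ ^ κ) ^ 2 * w) ^ 2 := by
      calc (9 * Ce) ^ 2 = 81 * Ce ^ 2 := by ring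
        _ ≤ w := h
        _ = (ρ ^ κ) ^ 4 * w * w := by rw [h1, one_mul]
        _ = _ := by ring
    have h4 : 9 * Ce ≤ (ρ ^ κ) ^ 2 * w :=
      (pow_le_pow_iff_left₀ (by positivity) (by positivity) two_ne_zero).1 h3
    calc Ce ≤ (ρ ^ κ) ^ 2 * w / 9 := by linarith
      _ = (ρ ^ κ / 3) ^ 2 * w := by ring
  linarith

end

end Pool.Agent.Y656
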