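import Pool.Agent.Y656.Frm
import Pool.Agent.W338.CB.Ad

/-!
# Measurement of the amplitudes by the loss of a small fraction of the particles

`(J F) (S, T) = (1 - ε)^(|S| / 2) ε^(|T| / 2) F (S + T)`; the lost particles `T` are measured.
-/

set_option autoImplicit false
set_option linter.unusedSectionVars false

open MeasureTheory
open scoped ENNReal

namespace Pool.Agent.Y656

open Pool.Agent.W761.CB Pool.Agent.W193.CB

noncomputable section

/-- A measurement by loss: outcomes `α : A`, operators `L α`, measured values `c α i`. -/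
structure IsLoss {X : Type} [MeasurableSpace X] (ν : Measure X) {I : Type} [Fintype I]
    (u : I → X → ℝ) (ε R : ℝ) {A : Type}
    (L : A → (Multiset X → ℂ) → Multiset X → ℂ) (c : A → I → ℂ) : Prop where
  eb : ∀ F, EB F → ∀ α, EB (L α F)
  supp : ∀ (F : Multiset X → ℂ) (N : ℕ), (∀ S, N < Multiset.card S → F S = 0) →
    ∀ α S, N < Multiset.card S → L α F S = 0
  norm : ∀ F, EB F → ∑' α, nE ν (L α F) = nE ν F
  one : ∀ F, EB F → ∀ x, ∑' α, nE ν (an x (L α F)) = ENNReal.ofReal (1 - ε) * nE ν (an x F)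
  kin : ∀ F, EB F → ∀ x y, ∑' α, dE ν (L α F) x y = ENNReal.ofReal (1 - ε) * dE ν F x y
  pair : ∀ F, EB F → ∀ x y, ∑' α, nE ν (an y (an x (L α F))) =
    ENNReal.ofReal (1 - ε) * (ENNReal.ofReal (1 - ε) * nE ν (an y (an x F)))
  amp : ∀ F, EB F → ∀ i, ∑' α, dev ν (u i) (c α i) (L α F) ≤ ENNReal.ofReal R * nE ν F
  old : ∀ F, EB F → ∀ (g : X → ℝ) (z : ℂ), Measurable g → (∃ C : ℝ, ∀ x, |g x| ≤ C) →
    ∑' α, dev ν g ((√(1 - ε) : ℝ) * z) (L α F) = ENNReal.ofReal (1 - ε) * dev ν g z F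

section
variable {X : Type} [MeasurableSpace X]

/-- the lost particles, when `S` remain -/
def gs (t : ℝ) (F : Multiset X → ℂ) (S : Multiset X) : Multiset X → ℂ :=
  fun T => ((t ^ Multiset.card T : ℝ) : ℂ) * F (S + T)

/-- the outcomes -/
def Lo (ν : Measure X) (w : Cf X → ℂ) (ε : ℝ) (F : Multiset X → ℂ) : Multiset X → ℂ :=
  fun S => ((√(1 - ε) ^ Multiset.card S : ℝ) : ℂ) * ∫ γ, w γ * gs (√ε) F S (ms γ) ∂(lam ν)

lemma card_ms (γ : Cf X) : Multiset.card (ms γ) = γ.1 := by simp [ms]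

lemma meas_card : Measurable fun γ : Cf X => Multiset.card (ms γ) := by
  obtain ⟨-, -, -, -, h5, -⟩ := Pool.Agent.W975.CB.proof_ms X
  have h := (h5 Unit (fun _ _ => 1) measurable_const).comp
    (f := fun γ : Cf X => ((), γ)) (measurable_const.prodMk measurable_id)
  have h' : Measurable fun γ : Cf X => ((Multiset.card (ms γ) : ℕ) : ℝ≥0∞) := by
    convert h using 2 with γ
    simp
  have h2 := h'.ennreal_toReal
  have h3 : Measurable fun γ : Cf X => ⌊((Multiset.card (ms γ) : ℝ≥0∞)).toReal⌋₊ := h2.nat_floor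
  convert h3 using 2 with γ
  simp

lemma meas_pow (t : ℝ) : Measurable fun γ : Cf X => ((t ^ Multiset.card (ms γ) : ℝ) : ℂ) :=
  Complex.measurable_ofReal.comp ((measurable_from_top (f := fun k : ℕ => t ^ k)).comp meas_card)

lemma meas_add {F : Multiset X → ℂ} (hF : EB F) :
    Measurable fun p : Cf X × Cf X => F (ms p.1 + ms p.2) :=
  (ebc X 0 F F hF hF).2.2.2.2.2.2.1

lemma meas_gs {F : Multiset X → ℂ} (hF : EB F) (t : ℝ) :
    Measurable fun p : Cf X × Cf X => gs t F (ms p.1) (ms p.2) :=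
  ((meas_pow t).comp measurable_snd).mul (meas_add hF)

lemma gs_bd {F : Multiset X → ℂ} {t : ℝ} (ht0 : 0 ≤ t) (ht1 : t ≤ 1) {C c : ℝ}
    (hC : 0 ≤ C) (hc : 1 ≤ c) (hb : ∀ S, ‖F S‖ ≤ C * c ^ Multiset.card S) (S T : Multiset X) :
    ‖gs t F S T‖ ≤ C * c ^ Multiset.card S * c ^ Multiset.card T := by
  unfold gs
  rw [norm_mul, Complex.norm_real, Real.norm_eq_abs, abs_of_nonneg (pow_nonneg ht0 _)]
  have h1 := hb (S + T)
  rw [Multiset.card_add, pow_add, ← mul_assoc] at h1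
  calc _ ≤ 1 * (C * c ^ Multiset.card S * c ^ Multiset.card T) :=
        mul_le_mul (pow_le_one₀ ht0 ht1) h1 (norm_nonneg _) zero_le_one
    _ = _ := one_mul _

lemma gs_EB {F : Multiset X → ℂ} (hF : EB F) {t : ℝ} (ht0 : 0 ≤ t) (ht1 : t ≤ 1)
    (S : Multiset X) : EB (gs t F S) := by
  obtain ⟨C, c, hC, hc, hb⟩ := hF.bdd
  refine ⟨?_, C * c ^ Multiset.card S, c, by positivity, hc, gs_bd ht0 ht1 hC hc hb S⟩
  obtain ⟨γ0, rfl⟩ := ms_surj S
  exact (meas_gs hF t).comp (measurable_const.prodMk measurable_id)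

variable {ν : Measure X} [IsFiniteMeasure ν]

lemma fin_lam : IsFiniteMeasure (lam ν) := (Pool.Agent.W150.CB.slam X ν).2.1

lemma memLp_w {w : Cf X → ℂ} (hw : Measurable w) (hw2 : ∫⁻ γ, ‖w γ‖ₑ ^ 2 ∂(lam ν) < ⊤) :
    MemLp w 2 (lam ν) := by
  refine ⟨hw.aestronglyMeasurable, ?_⟩
  rw [eLpNorm_eq_lintegral_rpow_enorm_toReal (by norm_num) (by norm_num)]
  refine ENNReal.rpow_lt_top_of_nonneg (by norm_num) ?_
  simp only [ENNReal.toReal_ofNat]
  refine ne_of_lt (lt_of_eq_of_lt (lintegral_congr fun γ => ?_) hw2)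
  norm_num

lemma int_w {w : Cf X → ℂ} (hw : Measurable w) (hw2 : ∫⁻ γ, ‖w γ‖ₑ ^ 2 ∂(lam ν) < ⊤)
    {G : Multiset X → ℂ} (hG : EB G) : Integrable (fun γ => w γ * G (ms γ)) (lam ν) :=
  (memLp_w hw hw2).integrable_mul (memLp_EB ν hG)

/-- integrability of the bound -/
lemma int_b {w : Cf X → ℂ} (hw : Measurable w) (hw2 : ∫⁻ γ, ‖w γ‖ₑ ^ 2 ∂(lam ν) < ⊤)
    {c : ℝ} (hc : 1 ≤ c) :
    Integrable (fun γ => ‖w γ‖ * c ^ Multiset.card (ms γ)) (lam ν) := by
  have h1 : EB (fun S : Multiset X => ((c ^ Multiset.card S : ℝ) : ℂ)) := by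
    refine ⟨meas_pow c, 1, c, zero_le_one, hc, fun S => ?_⟩
    rw [Complex.norm_real, Real.norm_eq_abs, abs_of_nonneg (by positivity), one_mul]
  have h2 := (int_w hw hw2 h1).norm
  refine h2.congr (Filter.Eventually.of_forall fun γ => ?_)
  simp only [norm_mul, Complex.norm_real, Real.norm_eq_abs]
  rw [abs_of_nonneg (by positivity)]

lemma Lo_EB {w : Cf X → ℂ} (hw : Measurable w) (hw2 : ∫⁻ γ, ‖w γ‖ₑ ^ 2 ∂(lam ν) < ⊤)
    {ε : ℝ} (h0 : 0 ≤ ε) (h1 : ε ≤ 1) {F : Multiset X → ℂ} (hF : EB F) : EB (Lo ν w ε F) := by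
  haveI := fin_lam (ν := ν)
  constructor
  · refine (meas_pow _).mul ?_
    have h2 : Measurable fun p : Cf X × Cf X => w p.2 * gs (√ε) F (ms p.1) (ms p.2) :=
      (hw.comp measurable_snd).mul (meas_gs hF _)
    exact (StronglyMeasurable.integral_prod_right' (ν := lam ν) h2.stronglyMeasurable).measurable
  · obtain ⟨C, c, hC, hc, hb⟩ := hF.bdd
    have hε0 : 0 ≤ √ε := Real.sqrt_nonneg _
    have hε1 : √ε ≤ 1 := Real.sqrt_le_one.2 h1
    set D : ℝ := ∫ γ, ‖w γ‖ * c ^ Multiset.card (ms γ) ∂(lam ν) with hD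
    have hD0 : 0 ≤ D := integral_nonneg fun γ => by positivity
    refine ⟨C * D, c, by positivity, hc, fun S => ?_⟩
    unfold Lo
    rw [norm_mul, Complex.norm_real, Real.norm_eq_abs, abs_of_nonneg (by positivity)]
    have e1 : √(1 - ε) ^ Multiset.card S ≤ 1 :=
      pow_le_one₀ (Real.sqrt_nonneg _) (Real.sqrt_le_one.2 (by linarith))
    have e2 : ‖∫ γ, w γ * gs (√ε) F S (ms γ) ∂(lam ν)‖ ≤ C * c ^ Multiset.card S * D := by
      rw [hD, ← integral_const_mul]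
      refine norm_integral_le_of_norm_le ((int_b hw hw2 hc).const_mul _)
        (Filter.Eventually.of_forall fun γ => ?_)
      rw [norm_mul]
      have := gs_bd hε0 hε1 hC hc hb S (ms γ)
      calc ‖w γ‖ * ‖gs (√ε) F S (ms γ)‖ ≤
            ‖w γ‖ * (C * c ^ Multiset.card S * c ^ Multiset.card (ms γ)) := by gcongr
        _ = _ := by ring
    calc _ ≤ 1 * (C * c ^ Multiset.card S * D) :=
          mul_le_mul e1 e2 (norm_nonneg _) zero_le_one
      _ = _ := by ring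

lemma Lo_lin {w : Cf X → ℂ} (hw : Measurable w) (hw2 : ∫⁻ γ, ‖w γ‖ₑ ^ 2 ∂(lam ν) < ⊤)
    {ε : ℝ} (h1 : ε ≤ 1) {F G : Multiset X → ℂ} (hF : EB F) (hG : EB G) (a b : ℂ)
    (S : Multiset X) :
    Lo ν w ε (fun S => a * F S + b * G S) S = a * Lo ν w ε F S + b * Lo ν w ε G S := by
  have hε0 : 0 ≤ √ε := Real.sqrt_nonneg _
  have hε1 : √ε ≤ 1 := Real.sqrt_le_one.2 h1
  have i1 := (int_w hw hw2 (gs_EB hF hε0 hε1 S)).const_mul a
  have i2 := (int_w hw hw2 (gs_EB hG hε0 hε1 S)).const_mul b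
  have e : ∀ γ, w γ * gs (√ε) (fun S => a * F S + b * G S) S (ms γ) =
      a * (w γ * gs (√ε) F S (ms γ)) + b * (w γ * gs (√ε) G S (ms γ)) := by
    intro γ
    unfold gs
    ring
  unfold Lo
  simp only [e]
  rw [integral_add i1 i2, integral_const_mul, integral_const_mul]
  ring

lemma gs_cons (t : ℝ) (F : Multiset X → ℂ) (x : X) (S T : Multiset X) :
    gs t F (x ::ₘ S) T = gs t (an x F) S T := by
  unfold gs an
  rw [Multiset.cons_add]

lemma Lo_an (w : Cf X → ℂ) (ε : ℝ) (F : Multiset X → ℂ) (x : X) (S : Multiset X) :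
    Lo ν w ε F (x ::ₘ S) = ((√(1 - ε) : ℝ) : ℂ) * Lo ν w ε (an x F) S := by
  unfold Lo
  simp only [gs_cons]
  rw [Multiset.card_cons, pow_succ]
  push_cast
  ring

/-- Fubini -/
lemma Lo_ag {w : Cf X → ℂ} (hw : Measurable w) (hw2 : ∫⁻ γ, ‖w γ‖ₑ ^ 2 ∂(lam ν) < ⊤)
    {ε : ℝ} (h1 : ε ≤ 1) {F : Multiset X → ℂ} (hF : EB F)
    {g : X → ℝ} (hg : Measurable g) (hgb : ∃ C : ℝ, ∀ x, |g x| ≤ C) (S : Multiset X) :
    ag ν g (Lo ν w ε F) S = ((√(1 - ε) : ℝ) : ℂ) * Lo ν w ε (ag ν g F) S := by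
  haveI := fin_lam (ν := ν)
  have hε0 : 0 ≤ √ε := Real.sqrt_nonneg _
  have hε1 : √ε ≤ 1 := Real.sqrt_le_one.2 h1
  have e1 : ag ν g (Lo ν w ε F) S = ((√(1 - ε) : ℝ) : ℂ) *
      (((√(1 - ε) ^ Multiset.card S : ℝ) : ℂ) *
        ∫ x, ∫ γ, (g x : ℂ) * (w γ * gs (√ε) F (x ::ₘ S) (ms γ)) ∂(lam ν) ∂ν) := by
    unfold ag
    simp only [Lo_an]
    unfold Lo
    rw [← integral_const_mul, ← integral_const_mul]
    refine integral_congr_ae (Filter.Eventually.of_forall fun x => ?_)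
    simp only [gs_cons]
    rw [integral_const_mul]
    ring
  have e2 : ∀ γ, w γ * gs (√ε) (ag ν g F) S (ms γ) =
      ∫ x, (g x : ℂ) * (w γ * gs (√ε) F (x ::ₘ S) (ms γ)) ∂ν := by
    intro γ
    unfold gs ag
    rw [← integral_const_mul, ← integral_const_mul]
    refine integral_congr_ae (Filter.Eventually.of_forall fun x => ?_)
    simp only [Multiset.cons_add]
    ring
  rw [e1]
  congr 1
  unfold Lo
  congr 1
  simp only [e2]
  refine integral_integral_swap ?_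
  obtain ⟨K, hK⟩ := hgb
  obtain ⟨C, c, hC, hc, hb⟩ := hF.bdd
  obtain ⟨γ0, rfl⟩ := ms_surj S
  have hm : Measurable (Function.uncurry fun (x : X) (γ : Cf X) =>
      (g x : ℂ) * (w γ * gs (√ε) F (x ::ₘ ms γ0) (ms γ))) := by
    refine (Complex.measurable_ofReal.comp (hg.comp measurable_fst)).mul
      ((hw.comp measurable_snd).mul ?_)
    obtain ⟨hcs, -⟩ := Pool.Agent.W975.CB.proof_ms X
    have h2 : Measurable fun q : X × Cf X => (cs q.1 γ0, q.2) :=
      (hcs.comp (measurable_fst.prodMk measurable_const)).prodMk measurable_snd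
    have h3 := (meas_gs hF (√ε)).comp h2
    simpa only [Function.comp_def, Pool.Agent.W417.CB.ms_cs] using h3
  have hint : Integrable (fun p : X × Cf X => |K| * ((C * c ^ (Multiset.card (ms γ0) + 1)) *
      (‖w p.2‖ * c ^ Multiset.card (ms p.2)))) (ν.prod (lam ν)) := by
    refine Integrable.const_mul (Integrable.const_mul ?_ _) _
    exact (int_b hw hw2 hc).comp_snd ν
  refine hint.mono' hm.aestronglyMeasurable (Filter.Eventually.of_forall fun p => ?_)
  simp only [Function.uncurry]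
  rw [norm_mul, norm_mul, Complex.norm_real, Real.norm_eq_abs]
  have h2 := gs_bd hε0 hε1 hC hc hb (p.1 ::ₘ ms γ0) (ms p.2)
  rw [Multiset.card_cons] at h2
  calc |g p.1| * (‖w p.2‖ * ‖gs (√ε) F (p.1 ::ₘ ms γ0) (ms p.2)‖)
      ≤ |K| * (‖w p.2‖ * (C * c ^ (Multiset.card (ms γ0) + 1) * c ^ Multiset.card (ms p.2))) :=
        mul_le_mul ((hK _).trans (le_abs_self K)) (mul_le_mul_of_nonneg_left h2 (norm_nonneg _))
          (by positivity) (abs_nonneg _)
    _ = _ := by ring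

/-- the isometry -/
lemma split_norm {ε : ℝ} (h0 : 0 ≤ ε) (h1 : ε ≤ 1) {F : Multiset X → ℂ} (hF : EB F) :
    ∫⁻ γ, ‖((√(1 - ε) ^ Multiset.card (ms γ) : ℝ) : ℂ)‖ₑ ^ 2 * nE ν (gs (√ε) F (ms γ)) ∂(lam ν) =
      nE ν F := by
  have hsq : ∀ (t : ℝ), 0 ≤ t → ∀ k : ℕ, ‖((√t ^ k : ℝ) : ℂ)‖ₑ ^ 2 = (ENNReal.ofReal t) ^ k := by
    intro t ht k
    rw [en2, Complex.normSq_ofReal, ← sq, ← pow_mul, mul_comm, pow_mul, Real.sq_sqrt ht,
      ENNReal.ofReal_pow ht]
  obtain ⟨h, hh⟩ : ∃ h : Multiset X → Multiset X → ℝ≥0∞, h = fun A B =>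
      (ENNReal.ofReal (1 - ε)) ^ Multiset.card A * ((ENNReal.ofReal ε) ^ Multiset.card B *
        ‖F (A + B)‖ₑ ^ 2) := ⟨_, rfl⟩
  have mp : ∀ t : ℝ≥0∞, Measurable fun γ : Cf X => t ^ Multiset.card (ms γ) := fun t =>
    (measurable_from_top (f := fun k : ℕ => t ^ k)).comp meas_card
  have hm : Measurable fun p : Cf X × Cf X => h (ms p.1) (ms p.2) := by
    rw [hh]
    exact ((mp _).comp measurable_fst).mul (((mp _).comp measurable_snd).mul
      ((meas_add hF).enorm.pow_const 2))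
  have had := (Pool.Agent.W338.CB.proof_ad Pool.Agent.W975.CB.proof_ms
    (Pool.Agent.W366.CB.proof_lam Pool.Agent.W975.CB.proof_ms) X ν).1 h hm
  have e1 : ∀ γ : Cf X, ((ms γ).antidiagonal.map fun s => h s.1 s.2).sum = ‖F (ms γ)‖ₑ ^ 2 := by
    intro γ
    have e2 : (ms γ).antidiagonal.map (fun s => h s.1 s.2) =
        (ms γ).antidiagonal.map (fun s => ((s.1.map fun _ => ENNReal.ofReal (1 - ε)).prod *
          (s.2.map fun _ => ENNReal.ofReal ε).prod) * ‖F (ms γ)‖ₑ ^ 2) := by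
      refine Multiset.map_congr rfl fun s hs => ?_
      rw [Multiset.mem_antidiagonal] at hs
      rw [hh]
      simp only [Multiset.map_const', Multiset.prod_replicate]
      rw [hs]
      ring
    rw [e2, Multiset.sum_map_mul_right, ← Multiset.prod_map_add]
    simp only [Multiset.map_const', Multiset.prod_replicate]
    rw [← ENNReal.ofReal_add (by linarith) h0]
    simp
  simp only [e1] at had
  unfold nE
  rw [had]
  refine lintegral_congr fun γ => ?_
  rw [hsq _ (by linarith), ← lintegral_const_mul']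
  · refine lintegral_congr fun γ' => ?_
    rw [hh]
    simp only [gs, enorm_mul, mul_pow]
    rw [hsq _ h0]
  · exact ENNReal.pow_ne_top ENNReal.ofReal_ne_top

end

theorem loss_of_frm {X : Type} [MeasurableSpace X] {ν : Measure X} [IsFiniteMeasure ν]
    {I : Type} [Fintype I] {u : I → X → ℝ} {R : ℝ} (hR : 0 ≤ R) {A : Type} [Countable A]
    {W : A → Cf X → ℂ} {c : A → I → ℂ} (hF : IsFrm ν u R W c) (um : ∀ i, Measurable (u i))
    (ub : ∀ i, ∃ C : ℝ, ∀ x, |u i x| ≤ C) {ε : ℝ} (h0 : 0 < ε) (h1 : ε ≤ 1) :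
    IsLoss ν u ε (R / ε) (fun a => Lo ν (W a) ε)
      (fun a i => ((√(1 - ε) / √ε : ℝ) : ℂ) * c a i) := by
  have hε0 : 0 ≤ √ε := Real.sqrt_nonneg _
  have hεp : 0 < √ε := Real.sqrt_pos.2 h0
  have hε1 : √ε ≤ 1 := Real.sqrt_le_one.2 h1
  have hLo : ∀ F, EB F → ∀ a, EB (Lo ν (W a) ε F) := fun F hF' a =>
    Lo_EB (hF.meas a) (hF.fin a) h0.le h1 hF'
  have hsq : ‖((√(1 - ε) : ℝ) : ℂ)‖ₑ ^ 2 = ENNReal.ofReal (1 - ε) := by
    rw [en2, Complex.normSq_ofReal, Real.mul_self_sqrt (by linarith)]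
  -- the norm
  have hnorm : ∀ F, EB F → ∑' a, nE ν (Lo ν (W a) ε F) = nE ν F := by
    intro F hF'
    rw [← split_norm (ν := ν) h0.le h1 hF']
    unfold nE
    rw [← lintegral_tsum fun a => ((hLo F hF' a).meas.enorm.pow_const 2).aemeasurable]
    refine lintegral_congr fun γ => ?_
    have e : ∀ a, ‖Lo ν (W a) ε F (ms γ)‖ₑ ^ 2 =
        ‖((√(1 - ε) ^ Multiset.card (ms γ) : ℝ) : ℂ)‖ₑ ^ 2 *
          ‖∫ γ', W a γ' * gs (√ε) F (ms γ) (ms γ') ∂(lam ν)‖ₑ ^ 2 := by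
      intro a
      unfold Lo
      rw [enorm_mul, mul_pow]
    simp only [e]
    rw [ENNReal.tsum_mul_left, hF.norm _ (gs_EB hF' hε0 hε1 _)]
    rfl
  refine ⟨hLo, ?_, hnorm, ?_, ?_, ?_, ?_, ?_⟩
  · intro F N hN a S hS
    unfold Lo
    have e : ∀ γ, W a γ * gs (√ε) F S (ms γ) = 0 := by
      intro γ
      unfold gs
      rw [hN (S + ms γ) (by rw [Multiset.card_add]; omega), mul_zero, mul_zero]
    simp only [e, integral_zero, mul_zero]
  · intro F hF' x
    have e : ∀ a, nE ν (an x (Lo ν (W a) ε F)) =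
        ENNReal.ofReal (1 - ε) * nE ν (Lo ν (W a) ε (an x F)) := by
      intro a
      have h2 := nE_smul ν (hLo _ (EB_an hF' x) a) ((√(1 - ε) : ℝ) : ℂ)
      rw [hsq] at h2
      exact (nE_congr ν fun S => Lo_an (W a) ε F x S).trans h2
    simp only [e]
    rw [ENNReal.tsum_mul_left]
    congr 1
    exact hnorm _ (EB_an hF' x)
  · intro F hF' x y
    have hd : EB (fun S => 1 * an x F S + (-1) * an y F S) :=
      EB_lin (EB_an hF' x) (EB_an hF' y) 1 (-1)
    have e : ∀ a, dE ν (Lo ν (W a) ε F) x y =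
        ENNReal.ofReal (1 - ε) * nE ν (Lo ν (W a) ε (fun S => 1 * an x F S + (-1) * an y F S)) := by
      intro a
      rw [← hsq, ← nE_smul ν (hLo _ hd a)]
      refine nE_congr ν fun S => ?_
      rw [Lo_lin (F := an x F) (G := an y F) (hF.meas a) (hF.fin a) h1 (EB_an hF' x)
        (EB_an hF' y), Lo_an, Lo_an]
      ring
    simp only [e]
    rw [ENNReal.tsum_mul_left, hnorm _ hd]
    congr 1
    refine nE_congr ν fun S => ?_
    simp [an, sub_eq_add_neg]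
  · intro F hF' x y
    have e : ∀ a, nE ν (an y (an x (Lo ν (W a) ε F))) =
        ENNReal.ofReal (1 - ε) * (ENNReal.ofReal (1 - ε) *
          nE ν (Lo ν (W a) ε (an y (an x F)))) := by
      intro a
      have h2 : ∀ S, an y (an x (Lo ν (W a) ε F)) S =
          ((√(1 - ε) : ℝ) : ℂ) * (((√(1 - ε) : ℝ) : ℂ) * Lo ν (W a) ε (an y (an x F)) S) := by
        intro S
        change Lo ν (W a) ε F (x ::ₘ y ::ₘ S) = _
        rw [Lo_an, Lo_an]
      have h3 : EB (an y (an x F)) := EB_an (EB_an hF' x) y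
      rw [nE_congr ν h2]
      have h4 := nE_smul ν (F := fun S => ((√(1 - ε) : ℝ) : ℂ) *
        Lo ν (W a) ε (an y (an x F)) S) (by
          have := EB_lin (hLo _ h3 a) (hLo _ h3 a) ((√(1 - ε) : ℝ) : ℂ) 0
          simpa only [zero_mul, add_zero] using this) ((√(1 - ε) : ℝ) : ℂ)
      rw [h4, nE_smul ν (hLo _ h3 a), hsq]
    simp only [e]
    rw [ENNReal.tsum_mul_left, ENNReal.tsum_mul_left,
      hnorm (an y (an x F)) (EB_an (EB_an hF' x) y)]
  · intro F hF' i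
    have hAg : EB (ag ν (u i) F) := (ebc X ν F F hF' hF').2.2.2.1 _ (um i) (ub i)
    have hd : ∀ a, EB (fun S => ag ν (u i) (Lo ν (W a) ε F) S -
        ((√(1 - ε) / √ε : ℝ) : ℂ) * c a i * Lo ν (W a) ε F S) := fun a =>
      Pool.Agent.W150.CB.dev_eb (hLo F hF' a) (um i) (ub i) _
    have hsp : √(1 - ε) = (√(1 - ε) / √ε) * √ε := by field_simp
    -- the amplitude of the lost particles
    have e1 : ∀ S T, gs (√ε) (ag ν (u i) F) S T =
        (((√ε)⁻¹ : ℝ) : ℂ) * ag ν (u i) (gs (√ε) F S) T := by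
      intro S T
      unfold gs ag
      rw [← integral_const_mul, ← integral_const_mul]
      refine integral_congr_ae (Filter.Eventually.of_forall fun x => ?_)
      simp only
      rw [Multiset.card_cons, Multiset.add_cons, pow_succ]
      have : (((√ε)⁻¹ : ℝ) : ℂ) * ((√ε : ℝ) : ℂ) = 1 := by
        rw [← Complex.ofReal_mul, inv_mul_cancel₀ hεp.ne', Complex.ofReal_one]
      push_cast at this ⊢
      linear_combination (-(u i x : ℂ) * (√ε : ℂ) ^ Multiset.card T * F (x ::ₘ (S + T))) * this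
    have e2 : ∀ a S, ag ν (u i) (Lo ν (W a) ε F) S -
        ((√(1 - ε) / √ε : ℝ) : ℂ) * c a i * Lo ν (W a) ε F S =
        ((√(1 - ε) / √ε : ℝ) : ℂ) * (((√(1 - ε) ^ Multiset.card S : ℝ) : ℂ) *
          ((∫ γ, W a γ * ag ν (u i) (gs (√ε) F S) (ms γ) ∂(lam ν)) -
            c a i * ∫ γ, W a γ * gs (√ε) F S (ms γ) ∂(lam ν))) := by
      intro a S
      rw [Lo_ag (hF.meas a) (hF.fin a) h1 hF' (um i) (ub i)]
      unfold Lo
      have e3 : ∀ γ, W a γ * gs (√ε) (ag ν (u i) F) S (ms γ) =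
          (((√ε)⁻¹ : ℝ) : ℂ) * (W a γ * ag ν (u i) (gs (√ε) F S) (ms γ)) := by
        intro γ
        rw [e1]
        ring
      simp only [e3]
      rw [integral_const_mul, div_eq_mul_inv]
      push_cast
      ring
    have e4 : ∀ γ : Cf X, ∑' a, ‖ag ν (u i) (Lo ν (W a) ε F) (ms γ) -
        ((√(1 - ε) / √ε : ℝ) : ℂ) * c a i * Lo ν (W a) ε F (ms γ)‖ₑ ^ 2 ≤
        ENNReal.ofReal (R / ε) * (‖((√(1 - ε) ^ Multiset.card (ms γ) : ℝ) : ℂ)‖ₑ ^ 2 *
          nE ν (gs (√ε) F (ms γ))) := by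
      intro γ
      simp only [e2, enorm_mul, mul_pow]
      rw [ENNReal.tsum_mul_left, ENNReal.tsum_mul_left]
      have h2 := hF.amp _ (gs_EB hF' hε0 hε1 (ms γ)) i
      have h3 : ‖((√(1 - ε) / √ε : ℝ) : ℂ)‖ₑ ^ 2 ≤ ENNReal.ofReal (1 / ε) := by
        rw [en2, Complex.normSq_ofReal, ← sq, div_pow, Real.sq_sqrt (by linarith),
          Real.sq_sqrt h0.le]
        refine ENNReal.ofReal_le_ofReal ?_
        gcongr
        linarith
      calc _ ≤ ENNReal.ofReal (1 / ε) * (‖((√(1 - ε) ^ Multiset.card (ms γ) : ℝ) : ℂ)‖ₑ ^ 2 *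
            (ENNReal.ofReal R * nE ν (gs (√ε) F (ms γ)))) := by
            gcongr
        _ = _ := by
            rw [div_eq_mul_one_div R, mul_comm R, ENNReal.ofReal_mul (by positivity)]
            ring
    have h5 : ∀ a, dev ν (u i) (((√(1 - ε) / √ε : ℝ) : ℂ) * c a i) (Lo ν (W a) ε F) =
        ∫⁻ γ, ‖ag ν (u i) (Lo ν (W a) ε F) (ms γ) -
        ((√(1 - ε) / √ε : ℝ) : ℂ) * c a i * Lo ν (W a) ε F (ms γ)‖ₑ ^ 2 ∂(lam ν) := fun a => rfl
    simp only [h5]
    rw [← lintegral_tsum fun a => ((hd a).meas.enorm.pow_const 2).aemeasurable]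
    refine (lintegral_mono e4).trans ?_
    rw [lintegral_const_mul' _ _ ENNReal.ofReal_ne_top, split_norm (ν := ν) h0.le h1 hF']
  · intro F hF' g z hg hgb
    have hAg : EB (ag ν g F) := (ebc X ν F F hF' hF').2.2.2.1 _ hg hgb
    have hd : EB (fun S => 1 * ag ν g F S + (-z) * F S) := EB_lin hAg hF' 1 (-z)
    have e : ∀ a, dev ν g ((√(1 - ε) : ℝ) * z) (Lo ν (W a) ε F) =
        ENNReal.ofReal (1 - ε) * nE ν (Lo ν (W a) ε (fun S => 1 * ag ν g F S + (-z) * F S)) := by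
      intro a
      rw [← hsq, ← nE_smul ν (hLo _ hd a)]
      refine nE_congr ν fun S => ?_
      rw [Lo_lin (hF.meas a) (hF.fin a) h1 hAg hF', Lo_ag (hF.meas a) (hF.fin a) h1 hF' hg hgb]
      ring
    simp only [e]
    rw [ENNReal.tsum_mul_left, hnorm _ hd]
    congr 1
    refine nE_congr ν fun S => ?_
    ring

end

end Pool.Agent.Y656
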