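import Pool.Agent.Y656.Add4
import Pool.Agent.Y656.Frm

/-!
# The lowest energy of `k` particles, and the lower bound in the Fock space
-/

set_option autoImplicit false
set_option linter.unusedSectionVars false

open MeasureTheory
open scoped ENNReal

namespace Pool.Agent.Y656

open Pool.Agent.W761.CB Pool.Agent.TH268.CC
open Pool.Agent.W374.CB2.Lown (Ps)

noncomputable section

variable {n : ℕ} {L : ℝ} [Fact (0 < L)]

/-- the lowest energy of `k` particles -/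
def ee (n : ℕ) (L : ℝ) [Fact (0 < L)] (μ : ℝ≥0∞) (K : (Fin n → ℝ) → ℝ≥0∞) (v : ℝ → ℝ≥0∞)
    (k : ℕ) : ℝ≥0∞ :=
  sSup {e : ℝ≥0∞ | ∀ F : Multiset (Tor n L) → ℂ, EB F → (∀ S, Multiset.card S ≠ k → F S = 0) →
    e * nE volume F ≤ en μ K v F}

variable {μ : ℝ≥0∞} {K : (Fin n → ℝ) → ℝ≥0∞} {v : ℝ → ℝ≥0∞}

theorem ee_le {k : ℕ} {F : Multiset (Tor n L) → ℂ} (hF : EB F)
    (hs : ∀ S, Multiset.card S ≠ k → F S = 0) : ee n L μ K v k * nE volume F ≤ en μ K v F := by
  unfold ee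
  rw [ENNReal.sSup_mul]
  exact iSup₂_le fun e he => he F hF hs

theorem le_ee {k : ℕ} {e : ℝ≥0∞} (h : ∀ F : Multiset (Tor n L) → ℂ, EB F →
    (∀ S, Multiset.card S ≠ k → F S = 0) → e * nE volume F ≤ en μ K v F) :
    e ≤ ee n L μ K v k := le_sSup h

/-- the vacuum -/
def vac {X : Type} (S : Multiset X) : ℂ := if Multiset.card S = 0 then 1 else 0

lemma vac_EB {X : Type} [MeasurableSpace X] : EB (vac (X := X)) := by
  refine ⟨?_, 1, 1, zero_le_one, le_rfl, fun S => ?_⟩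
  · exact Measurable.ite (Pool.Agent.TH268.CC.AddP.meas_card (measurableSet_singleton 0))
      measurable_const measurable_const
  · unfold vac
    split_ifs <;> simp

theorem ee_zero : ee n L μ K v 0 = 0 := by
  have hM := Pool.Agent.W975.CB.proof_ms
  have hL := Pool.Agent.W366.CB.proof_lam hM
  have h1 := ee_le (n := n) (L := L) (μ := μ) (K := K) (v := v) (k := 0) vac_EB
    (fun S hS => by unfold vac; rw [if_neg hS])
  have hN : nE volume (vac (X := Tor n L)) = 1 := by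
    rw [lc_ne hL vac_EB, tsum_eq_single 0]
    · have : ∀ x : Fin 0 → Tor n L, Ps (vac (X := Tor n L)) 0 x = 1 := by
        intro x
        unfold Ps vac ms
        simp
      simp only [this]
      have h0 : (volume : Measure (Fin 0 → Tor n L)) Set.univ = 1 := by
        rw [MeasureTheory.volume_pi, Measure.pi_univ]
        simp
      simp [h0]
    · intro k hk
      have : ∀ x : Fin k → Tor n L, Ps (vac (X := Tor n L)) k x = 0 := by
        intro x
        unfold Ps vac ms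
        simp [hk]
      simp only [this]
      simp
  have hz : ∀ x : Tor n L, ∀ S : Multiset (Tor n L), vac (x ::ₘ S) = 0 := by
    intro x S
    unfold vac
    simp
  have hd : ∀ x y : Tor n L, dE volume vac x y = 0 := by
    intro x y
    unfold dE nE
    simp [hz]
  have hp : ∀ x y : Tor n L, nE volume (an y (an x vac)) = 0 := by
    intro x y
    unfold nE an
    simp [hz]
  have hE : en μ K v (vac (X := Tor n L)) = 0 := by
    unfold en ken Kp Hp Vp
    simp [hd, hp]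
  rw [hN, hE, mul_one] at h1
  exact le_antisymm h1 zero_le

theorem ee_step (hTF : S_TF) {R : ℝ} (hR : 1 ≤ R) (hK : Measurable K) (hv : Measurable v)
    (hvR : ∀ r, R < r → v r = 0) {D : ℝ≥0∞}
    (hD : ENNReal.ofReal (16 * (4 * R) ^ n) *
      (n * μ + ∫⁻ z, K z * ENNReal.ofReal (min 1 (el z ^ 2))) ≤ D) (hDt : D ≠ ⊤)
    {k : ℕ} (hk : 2 * (ENNReal.ofReal ((4 * R) ^ n) * k) ≤ ENNReal.ofReal (L ^ n))
    (hfin : ee n L μ K v k ≠ ⊤) :
    ee n L μ K v (k + 1) ≤ ee n L μ K v k + 2 * (D * k) / ENNReal.ofReal (L ^ n) := by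
  have hM := Pool.Agent.W975.CB.proof_ms
  have hL := Pool.Agent.W366.CB.proof_lam hM
  have hMe := Pool.Agent.W337.CB.proof_mecke hM hL
  have hLp : 0 < L := Fact.out
  obtain ⟨V, hV⟩ : ∃ V : ℝ≥0∞, V = ENNReal.ofReal (L ^ n) := ⟨_, rfl⟩
  have hV0 : V ≠ 0 := by
    rw [hV]
    simp only [ne_eq, ENNReal.ofReal_eq_zero, not_le]
    positivity
  have hVt : V ≠ ⊤ := by rw [hV]; exact ENNReal.ofReal_ne_top
  obtain ⟨a, ha⟩ : ∃ a : ℝ≥0∞, a = ee n L μ K v k := ⟨_, rfl⟩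
  obtain ⟨C, hC⟩ : ∃ C : ℝ≥0∞, C = 2 * (D * k) / V := ⟨_, rfl⟩
  rw [← hV] at hk ⊢
  rw [← ha] at hfin ⊢
  rw [← hC]
  have hCV : C * V = 2 * (D * k) := by
    rw [hC, ENNReal.div_mul_cancel hV0 hVt]
  by_contra hcon
  rw [not_le] at hcon
  obtain ⟨t, ht0, ht⟩ := ENNReal.lt_iff_exists_add_pos_lt.1 hcon
  have hval : ∀ F : Multiset (Tor n L) → ℂ, EB F → (∀ S, Multiset.card S ≠ k → F S = 0) →
      (a + t / 2) * nE volume F ≤ en μ K v F := by
    intro F hF hs
    have h1 := Ps3_FR R hF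
    have h2 := Ph3_FR R hF
    have hNt : nE volume F ≠ ⊤ := (nE_fin volume hF).ne
    have hA := GP_EB h1
    have hAs : ∀ S, Multiset.card S ≠ k + 1 → GP (Ps3 R F) S = 0 := by
      refine GP_supp fun w S hS => ?_
      unfold Ps3
      rw [hs S hS]
      simp
    have hBs : ∀ w : Tor n L, ∀ S, Multiset.card S ≠ k → tc (Ph3 R F) w S = 0 := by
      intro w S hS
      unfold tc Ph3
      rw [hs S hS]
      simp
    obtain ⟨x, hx⟩ : ∃ x, x = nE volume (GP (Ps3 R F)) := ⟨_, rfl⟩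
    obtain ⟨y, hy⟩ : ∃ y, y = ∫⁻ w, nE volume (tc (Ph3 R F) w) := ⟨_, rfl⟩
    obtain ⟨N, hN⟩ : ∃ N, N = nE volume F := ⟨_, rfl⟩
    have e1 : x + y = V * N := by
      rw [hx, hy, hN, hV]
      exact add_nE hTF R hF
    have hnu : nuE volume F = k * N := by
      rw [hN]
      exact lc_nu hMe hF k hs
    have e2 : 2 * y ≤ V * N := by
      calc 2 * y ≤ 2 * (ENNReal.ofReal ((4 * R) ^ n) * nuE volume F) := by
            rw [hy]
            exact mul_le_mul' le_rfl (cos_nE (by linarith) hF)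
        _ = 2 * (ENNReal.ofReal ((4 * R) ^ n) * k) * N := by rw [hnu]; ring
        _ ≤ V * N := mul_le_mul' hk le_rfl
    rw [← hN] at hNt ⊢
    have hVN : V * N ≠ ⊤ := ENNReal.mul_ne_top hVt hNt
    have hyt : y ≠ ⊤ := by
      refine ne_top_of_le_ne_top hVN ?_
      rw [← e1]
      exact le_add_self
    have e3 : V * N ≤ 2 * x := by
      have h3 : V * N + 2 * y ≤ 2 * x + 2 * y := by
        calc V * N + 2 * y ≤ V * N + V * N := add_le_add le_rfl e2
          _ = 2 * (x + y) := by rw [e1]; ring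
          _ = _ := by ring
      exact (ENNReal.add_le_add_iff_right (ENNReal.mul_ne_top (by norm_num) hyt)).1 h3
    have e4 : (a + C + t) * x ≤ en μ K v (GP (Ps3 R F)) := by
      rw [hx]
      exact (mul_le_mul' ht.le le_rfl).trans (ee_le hA hAs)
    have e5 : a * y ≤ ∫⁻ w, en μ K v (tc (Ph3 R F) w) := by
      rw [hy, ← lintegral_const_mul' _ _ hfin, ha]
      exact lintegral_mono fun w => ee_le (h2.tc_EB w) (hBs w)
    have e6 : (a + C + t) * x + a * y ≤ V * en μ K v F + D * (k * N) := by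
      refine (add_le_add e4 e5).trans ((add_en hTF hR hK hv hvR hF).trans ?_)
      rw [← hV, hnu]
      exact add_le_add le_rfl (mul_le_mul' hD le_rfl)
    have e7 : V * ((2 * a + t) * N) + 2 * (D * (k * N)) ≤
        V * (2 * en μ K v F) + 2 * (D * (k * N)) := by
      calc V * ((2 * a + t) * N) + 2 * (D * (k * N))
          = 2 * a * (V * N) + (2 * (D * k)) * N + t * (V * N) := by ring
        _ = 2 * a * (x + y) + (C * V) * N + t * (V * N) := by rw [e1, hCV]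
        _ = 2 * a * (x + y) + (C + t) * (V * N) := by ring
        _ ≤ 2 * a * (x + y) + (C + t) * (2 * x) := by gcongr
        _ = 2 * ((a + C + t) * x + a * y) := by ring
        _ ≤ 2 * (V * en μ K v F + D * (k * N)) := by gcongr
        _ = _ := by ring
    have hDkN : 2 * (D * (k * N)) ≠ ⊤ := by finiteness
    have e8 : V * ((2 * a + t) * N) ≤ V * (2 * en μ K v F) :=
      (ENNReal.add_le_add_iff_right hDkN).1 e7
    have e9 : (2 * a + t) * N ≤ 2 * en μ K v F := (ENNReal.mul_le_mul_iff_right hV0 hVt).1 e8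
    have e10 : 2 * ((a + t / 2) * N) ≤ 2 * en μ K v F := by
      refine le_trans (le_of_eq ?_) e9
      have : 2 * ((a + (t : ℝ≥0∞) / 2) * N) = (2 * a + 2 * (t / 2)) * N := by ring
      rw [this, ENNReal.mul_div_cancel (by norm_num) (by norm_num)]
    exact (ENNReal.mul_le_mul_iff_right (by norm_num) (by norm_num)).1 e10
  have h3 := le_ee hval
  rw [← ha] at h3
  have h4 : a < a + (t : ℝ≥0∞) / 2 := by
    refine ENNReal.lt_add_right hfin ?_
    have : (t : ℝ≥0∞) ≠ 0 := by exact_mod_cast ht0.ne'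
    simp [this]
  exact absurd h3 (not_le.2 h4)

/-- the lowest energies of different numbers of particles -/
theorem ee_diff (hTF : S_TF) {R : ℝ} (hR : 1 ≤ R) (hK : Measurable K) (hv : Measurable v)
    (hvR : ∀ r, R < r → v r = 0) {D : ℝ≥0∞}
    (hD : ENNReal.ofReal (16 * (4 * R) ^ n) *
      (n * μ + ∫⁻ z, K z * ENNReal.ofReal (min 1 (el z ^ 2))) ≤ D) (hDt : D ≠ ⊤)
    {N : ℕ} (hN : 2 * (ENNReal.ofReal ((4 * R) ^ n) * N) ≤ ENNReal.ofReal (L ^ n)) :
    ∀ k : ℕ, k ≤ N → ee n L μ K v k ≠ ⊤ ∧ ∀ j : ℕ, j ≤ k →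
      ee n L μ K v k ≤ ee n L μ K v j +
        2 * (D * N) / ENNReal.ofReal (L ^ n) * ((k - j : ℕ) : ℝ≥0∞) := by
  have hLp : 0 < L := Fact.out
  obtain ⟨V, hV⟩ : ∃ V : ℝ≥0∞, V = ENNReal.ofReal (L ^ n) := ⟨_, rfl⟩
  have hV0 : V ≠ 0 := by
    rw [hV]
    simp only [ne_eq, ENNReal.ofReal_eq_zero, not_le]
    positivity
  have hCt : 2 * (D * N) / V ≠ ⊤ := ENNReal.div_ne_top (by finiteness) hV0
  intro k
  induction k with
  | zero =>
    intro _
    refine ⟨by rw [ee_zero]; exact ENNReal.zero_ne_top, fun j hj => ?_⟩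
    rw [ee_zero]
    exact zero_le
  | succ k ih =>
    intro hk
    obtain ⟨h1, h2⟩ := ih (by omega)
    have hkN : (k : ℝ≥0∞) ≤ N := by exact_mod_cast (by omega : k ≤ N)
    have h3 := ee_step hTF hR hK hv hvR hD hDt (k := k) (by
      refine le_trans ?_ hN
      gcongr) h1
    have h4 : ee n L μ K v (k + 1) ≤ ee n L μ K v k + 2 * (D * N) / ENNReal.ofReal (L ^ n) := by
      refine h3.trans ?_
      gcongr
    refine ⟨?_, fun j hj => ?_⟩
    · refine ne_top_of_le_ne_top ?_ h4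
      rw [← hV]
      exact ENNReal.add_ne_top.2 ⟨h1, hCt⟩
    · rcases Nat.eq_or_lt_of_le hj with rfl | hj'
      · exact le_self_add
      · have h5 := h2 j (by omega)
        have e : ((k + 1 - j : ℕ) : ℝ≥0∞) = ((k - j : ℕ) : ℝ≥0∞) + 1 := by
          rw [show k + 1 - j = (k - j) + 1 by omega]
          push_cast
          rfl
        rw [e, mul_add, mul_one, ← add_assoc]
        exact h4.trans (add_le_add h5 le_rfl)

/-- the lower bound in the Fock space -/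
theorem low3 (hTF : S_TF) (hC : S_CONV2) {R : ℝ} (hR : 1 ≤ R) (hK : Measurable K)
    (hv : Measurable v) (hvR : ∀ r, R < r → v r = 0) {D : ℝ≥0∞}
    (hD : ENNReal.ofReal (16 * (4 * R) ^ n) *
      (n * μ + ∫⁻ z, K z * ENNReal.ofReal (min 1 (el z ^ 2))) ≤ D) (hDt : D ≠ ⊤)
    {N : ℕ} (hN : 2 * (ENNReal.ofReal ((4 * R) ^ n) * N) ≤ ENNReal.ofReal (L ^ n))
    (F : Multiset (Tor n L) → ℂ) (hF : EB F) (hs : ∀ S, N < Multiset.card S → F S = 0) :
    ee n L μ K v N * nE volume F ≤ en μ K v F +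
      2 * (D * N) / ENNReal.ofReal (L ^ n) * dm volume N F := by
  have hM := Pool.Agent.W975.CB.proof_ms
  have hL := Pool.Agent.W366.CB.proof_lam hM
  have hE := Pool.Agent.W417.CB.proof_ebc hM hL
  have hMe := Pool.Agent.W337.CB.proof_mecke hM hL
  obtain ⟨hfin, hdiff⟩ := ee_diff hTF hR hK hv hvR hD hDt hN N le_rfl
  obtain ⟨C, hCdef⟩ : ∃ C : ℝ≥0∞, C = 2 * (D * N) / ENNReal.ofReal (L ^ n) := ⟨_, rfl⟩
  rw [← hCdef] at hdiff ⊢
  obtain ⟨e, he⟩ : ∃ e : ℝ≥0∞, e = ee n L μ K v N := ⟨_, rfl⟩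
  rw [← he] at hdiff hfin ⊢
  have hQ : ∀ k : ℕ, k ≤ N → ∀ F : Multiset (Tor n L) → ℂ, EB F →
      (∀ S, Multiset.card S ≠ k → F S = 0) →
      e * nE volume F ≤ en μ K v F + C * ((N - k : ℕ) : ℝ≥0∞) * nE volume F := by
    intro k hkN F hF hk
    calc e * nE volume F ≤ (ee n L μ K v k + C * ((N - k : ℕ) : ℝ≥0∞)) * nE volume F :=
          mul_le_mul' (hdiff k hkN) le_rfl
      _ = ee n L μ K v k * nE volume F + C * ((N - k : ℕ) : ℝ≥0∞) * nE volume F := by ring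
      _ ≤ _ := add_le_add (ee_le hF hk) le_rfl
  -- wave functions
  have hW : ∀ (k : ℕ), k ≤ N → ∀ (Ψ : (Fin k → Tor n L) → ℂ), IsWf Ψ →
      e ≤ enN μ K v Ψ + C * ((N - k : ℕ) : ℝ≥0∞) := by
    intro k hkN Ψ hΨ
    obtain ⟨-, G, hG, hGs, hGn, -, hGe, -⟩ := hC n L μ K v k Ψ hK hv hΨ
    have := hQ k hkN G hG hGs
    rwa [hGn, hGe, mul_one, mul_one] at this
  have hsec : ∀ k : ℕ, e * ∫⁻ x : Fin k → Tor n L, ‖Ps F k x‖ₑ ^ 2 ≤
      enN μ K v (Ps F k) +
        C * ((N - k : ℕ) : ℝ≥0∞) * ∫⁻ x : Fin k → Tor n L, ‖Ps F k x‖ₑ ^ 2 := by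
    intro k
    rcases le_or_gt k N with hkN | hkN
    · obtain ⟨h1, h2, h3⟩ := lc_sector hF k
      exact lc_unnorm μ K v _ _ (hW k hkN) (Ps F k) h1 h2 h3
    · have : ∀ x : Fin k → Tor n L, Ps F k x = 0 := by
        intro x
        unfold Ps
        apply hs
        unfold ms
        simpa using hkN
      simp only [this]
      simp
  have hzero : enN μ K v (Ps F 0) = 0 := by
    unfold enN
    simp
  have hsum : ∑' k : ℕ, (k.factorial : ℝ≥0∞)⁻¹ * enN μ K v (Ps F k) ≤ en μ K v F := by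
    rw [tsum_eq_zero_add' ENNReal.summable, hzero, mul_zero, zero_add]
    exact lc_hen hTF hM hL hE hMe μ K v hK hv hF
  rw [lc_ne hL hF, lc_dm hL N hF, ← ENNReal.tsum_mul_left, ← ENNReal.tsum_mul_left]
  calc ∑' k : ℕ, e * ((k.factorial : ℝ≥0∞)⁻¹ *
        ∫⁻ x : Fin k → Tor n L, ‖Ps F k x‖ₑ ^ 2)
      ≤ ∑' k : ℕ, ((k.factorial : ℝ≥0∞)⁻¹ * enN μ K v (Ps F k) +
          C * ((k.factorial : ℝ≥0∞)⁻¹ * (((N - k : ℕ) : ℝ≥0∞) *
            ∫⁻ x : Fin k → Tor n L, ‖Ps F k x‖ₑ ^ 2))) := by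
        apply ENNReal.tsum_le_tsum
        intro k
        calc e * ((k.factorial : ℝ≥0∞)⁻¹ *
              ∫⁻ x : Fin k → Tor n L, ‖Ps F k x‖ₑ ^ 2)
            = (k.factorial : ℝ≥0∞)⁻¹ * (e *
              ∫⁻ x : Fin k → Tor n L, ‖Ps F k x‖ₑ ^ 2) := by rw [mul_left_comm]
          _ ≤ (k.factorial : ℝ≥0∞)⁻¹ * (enN μ K v (Ps F k) +
              C * ((N - k : ℕ) : ℝ≥0∞) * ∫⁻ x : Fin k → Tor n L, ‖Ps F k x‖ₑ ^ 2) := by
              gcongr
              exact hsec k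
          _ = _ := by
              rw [mul_add, mul_assoc C, mul_left_comm _ C]
    _ = ∑' k : ℕ, (k.factorial : ℝ≥0∞)⁻¹ * enN μ K v (Ps F k) +
          ∑' k : ℕ, C * ((k.factorial : ℝ≥0∞)⁻¹ * (((N - k : ℕ) : ℝ≥0∞) *
            ∫⁻ x : Fin k → Tor n L, ‖Ps F k x‖ₑ ^ 2)) := ENNReal.tsum_add
    _ ≤ _ := by gcongr

end

end Pool.Agent.Y656
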