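import Pool.Agent.Y656.GenV
import Pool.Agent.TH268.CC.Rem
import Pool.Agent.Y656.Low3

/-!
# The lowest energy of `k` particles with a general cut-off function and pair potential
-/

set_option autoImplicit false
set_option linter.unusedSectionVars false

open MeasureTheory
open scoped ENNReal

namespace Pool.Agent.Y656

open Pool.Agent.W761.CB Pool.Agent.TH268.CC
open Pool.Agent.W374.CB2.Lown (Ps)

noncomputable section

variable {n : ℕ} {L : ℝ} [Fact (0 < L)]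

variable {μ : ℝ≥0∞} {K : (Fin n → ℝ) → ℝ≥0∞} {v : ℝ → ℝ≥0∞} {s : Tor n L → ℝ}

theorem ee_stepv (hTF : S_TF) (hs : Pf s) (hK : Measurable K) (hv : Measurable v)
    {D β : ℝ≥0∞} (hD : gEv μ K v s ≤ D) (hβ : gv s ≤ β) (hDt : D ≠ ⊤)
    {k : ℕ} (hk : 2 * (β * k) ≤ ENNReal.ofReal (L ^ n))
    (hfin : ee n L μ K v k ≠ ⊤) :
    ee n L μ K v (k + 1) ≤ ee n L μ K v k + 2 * (D * k) / ENNReal.ofReal (L ^ n) := by
  have hM := Pool.Agent.W975.CB.proof_ms
  have hL := Pool.Agent.W366.CB.proof_lam hM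
  have hMe := Pool.Agent.W337.CB.proof_mecke hM hL
  have hLp : 0 < L := Fact.out
  obtain ⟨V, hV⟩ : ∃ V : ℝ≥0∞, V = ENNReal.ofReal (L ^ n) := ⟨_, rfl⟩
  have hV0 : V ≠ 0 := by
    rw [hV]
    simp only [ne_eq, ENNReal.ofReal_eq_zero, not_le]
    positivity
  have hVt : V ≠ ⊤ := by rw [hV]; exact ENNReal.ofReal_ne_top
  obtain ⟨a, ha⟩ : ∃ a : ℝ≥0∞, a = ee n L μ K v k := ⟨_, rfl⟩
  obtain ⟨C, hC⟩ : ∃ C : ℝ≥0∞, C = 2 * (D * k) / V := ⟨_, rfl⟩
  rw [← hV] at hk ⊢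
  rw [← ha] at hfin ⊢
  rw [← hC]
  have hCV : C * V = 2 * (D * k) := by
    rw [hC, ENNReal.div_mul_cancel hV0 hVt]
  by_contra hcon
  rw [not_le] at hcon
  obtain ⟨t, ht0, ht⟩ := ENNReal.lt_iff_exists_add_pos_lt.1 hcon
  have hval : ∀ F : Multiset (Tor n L) → ℂ, EB F → (∀ S, Multiset.card S ≠ k → F S = 0) →
      (a + t / 2) * nE volume F ≤ en μ K v F := by
    intro F hF hsF
    have h1 := Qs_FR hs hF
    have h2 := Qc_FR hs hF
    have hNt : nE volume F ≠ ⊤ := (nE_fin volume hF).ne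
    have hA := GP_EB h1
    have hAs : ∀ S, Multiset.card S ≠ k + 1 → GP (Qs s F) S = 0 := by
      refine GP_supp fun w S hS => ?_
      unfold Qs
      rw [hsF S hS]
      simp
    have hBs : ∀ w : Tor n L, ∀ S, Multiset.card S ≠ k → tc (Qc s F) w S = 0 := by
      intro w S hS
      unfold tc Qc
      rw [hsF S hS]
      simp
    obtain ⟨x, hx⟩ : ∃ x, x = nE volume (GP (Qs s F)) := ⟨_, rfl⟩
    obtain ⟨y, hy⟩ : ∃ y, y = ∫⁻ w, nE volume (tc (Qc s F) w) := ⟨_, rfl⟩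
    obtain ⟨N, hN⟩ : ∃ N, N = nE volume F := ⟨_, rfl⟩
    have e1 : x + y = V * N := by
      rw [hx, hy, hN, hV]
      exact gadd_nE hTF hs hF
    have hnu : nuE volume F = k * N := by
      rw [hN]
      exact lc_nu hMe hF k hsF
    have e2 : 2 * y ≤ V * N := by
      calc 2 * y ≤ 2 * (β * nuE volume F) := by
            rw [hy]
            exact mul_le_mul' le_rfl ((gcos_nE hTF hs hF).trans (mul_le_mul' hβ le_rfl))
        _ = 2 * (β * k) * N := by rw [hnu]; ring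
        _ ≤ V * N := mul_le_mul' hk le_rfl
    rw [← hN] at hNt ⊢
    have hVN : V * N ≠ ⊤ := ENNReal.mul_ne_top hVt hNt
    have hyt : y ≠ ⊤ := by
      refine ne_top_of_le_ne_top hVN ?_
      rw [← e1]
      exact le_add_self
    have e3 : V * N ≤ 2 * x := by
      have h3 : V * N + 2 * y ≤ 2 * x + 2 * y := by
        calc V * N + 2 * y ≤ V * N + V * N := add_le_add le_rfl e2
          _ = 2 * (x + y) := by rw [e1]; ring
          _ = _ := by ring
      exact (ENNReal.add_le_add_iff_right (ENNReal.mul_ne_top (by norm_num) hyt)).1 h3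
    have e4 : (a + C + t) * x ≤ en μ K v (GP (Qs s F)) := by
      rw [hx]
      exact (mul_le_mul' ht.le le_rfl).trans (ee_le hA hAs)
    have e5 : a * y ≤ ∫⁻ w, en μ K v (tc (Qc s F) w) := by
      rw [hy, ← lintegral_const_mul' _ _ hfin, ha]
      exact lintegral_mono fun w => ee_le (h2.tc_EB w) (hBs w)
    have e6 : (a + C + t) * x + a * y ≤ V * en μ K v F + D * (k * N) := by
      refine (add_le_add e4 e5).trans ((gadd_env hTF hs hK hv hF).trans ?_)
      rw [← hV, hnu]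
      exact add_le_add le_rfl (mul_le_mul' hD le_rfl)
    have e7 : V * ((2 * a + t) * N) + 2 * (D * (k * N)) ≤
        V * (2 * en μ K v F) + 2 * (D * (k * N)) := by
      calc V * ((2 * a + t) * N) + 2 * (D * (k * N))
          = 2 * a * (V * N) + (2 * (D * k)) * N + t * (V * N) := by ring
        _ = 2 * a * (x + y) + (C * V) * N + t * (V * N) := by rw [e1, hCV]
        _ = 2 * a * (x + y) + (C + t) * (V * N) := by ring
        _ ≤ 2 * a * (x + y) + (C + t) * (2 * x) := by gcongr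
        _ = 2 * ((a + C + t) * x + a * y) := by ring
        _ ≤ 2 * (V * en μ K v F + D * (k * N)) := by gcongr
        _ = _ := by ring
    have hDkN : 2 * (D * (k * N)) ≠ ⊤ := by finiteness
    have e8 : V * ((2 * a + t) * N) ≤ V * (2 * en μ K v F) :=
      (ENNReal.add_le_add_iff_right hDkN).1 e7
    have e9 : (2 * a + t) * N ≤ 2 * en μ K v F := (ENNReal.mul_le_mul_iff_right hV0 hVt).1 e8
    have e10 : 2 * ((a + t / 2) * N) ≤ 2 * en μ K v F := by
      refine le_trans (le_of_eq ?_) e9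
      have : 2 * ((a + (t : ℝ≥0∞) / 2) * N) = (2 * a + 2 * (t / 2)) * N := by ring
      rw [this, ENNReal.mul_div_cancel (by norm_num) (by norm_num)]
    exact (ENNReal.mul_le_mul_iff_right (by norm_num) (by norm_num)).1 e10
  have h3 := le_ee hval
  rw [← ha] at h3
  have h4 : a < a + (t : ℝ≥0∞) / 2 := by
    refine ENNReal.lt_add_right hfin ?_
    have : (t : ℝ≥0∞) ≠ 0 := by exact_mod_cast ht0.ne'
    simp [this]
  exact absurd h3 (not_le.2 h4)

/-- the lowest energies of different numbers of particles -/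
theorem ee_diffv (hTF : S_TF) (hs : Pf s) (hK : Measurable K) (hv : Measurable v)
    {D β : ℝ≥0∞} (hD : gEv μ K v s ≤ D) (hβ : gv s ≤ β) (hDt : D ≠ ⊤)
    {N : ℕ} (hN : 2 * (β * N) ≤ ENNReal.ofReal (L ^ n)) :
    ∀ k : ℕ, k ≤ N → ee n L μ K v k ≠ ⊤ ∧ ∀ j : ℕ, j ≤ k →
      ee n L μ K v k ≤ ee n L μ K v j +
        2 * (D * N) / ENNReal.ofReal (L ^ n) * ((k - j : ℕ) : ℝ≥0∞) := by
  have hLp : 0 < L := Fact.out
  obtain ⟨V, hV⟩ : ∃ V : ℝ≥0∞, V = ENNReal.ofReal (L ^ n) := ⟨_, rfl⟩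
  have hV0 : V ≠ 0 := by
    rw [hV]
    simp only [ne_eq, ENNReal.ofReal_eq_zero, not_le]
    positivity
  have hCt : 2 * (D * N) / V ≠ ⊤ := ENNReal.div_ne_top (by finiteness) hV0
  intro k
  induction k with
  | zero =>
    intro _
    refine ⟨by rw [ee_zero]; exact ENNReal.zero_ne_top, fun j hj => ?_⟩
    rw [ee_zero]
    exact zero_le
  | succ k ih =>
    intro hk
    obtain ⟨h1, h2⟩ := ih (by omega)
    have hkN : (k : ℝ≥0∞) ≤ N := by exact_mod_cast (by omega : k ≤ N)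
    have h3 := ee_stepv hTF hs hK hv hD hβ hDt (k := k) (by
      refine le_trans ?_ hN
      gcongr) h1
    have h4 : ee n L μ K v (k + 1) ≤ ee n L μ K v k + 2 * (D * N) / ENNReal.ofReal (L ^ n) := by
      refine h3.trans ?_
      gcongr
    refine ⟨?_, fun j hj => ?_⟩
    · refine ne_top_of_le_ne_top ?_ h4
      rw [← hV]
      exact ENNReal.add_ne_top.2 ⟨h1, hCt⟩
    · rcases Nat.eq_or_lt_of_le hj with rfl | hj'
      · exact le_self_add
      · have h5 := h2 j (by omega)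
        have e : ((k + 1 - j : ℕ) : ℝ≥0∞) = ((k - j : ℕ) : ℝ≥0∞) + 1 := by
          rw [show k + 1 - j = (k - j) + 1 by omega]
          push_cast
          rfl
        rw [e, mul_add, mul_one, ← add_assoc]
        exact h4.trans (add_le_add h5 le_rfl)

/-- the lowest energy increases with the number of particles -/
theorem ee_mono (hTF : S_TF) (hK : Measurable K) (hv : Measurable v) :
    ∀ j k : ℕ, j ≤ k → ee n L μ K v j ≤ ee n L μ K v k := by
  have step : ∀ k : ℕ, ee n L μ K v k ≤ ee n L μ K v (k + 1) := by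
    intro k
    refine le_ee fun F hF hs => ?_
    obtain ⟨G, hG, hGs, hGn, hGe⟩ := rem_one hTF n L μ K v hK hv k F hF hs
    have h1 := (ee_le hG hGs).trans hGe
    rw [hGn, mul_left_comm] at h1
    exact (ENNReal.mul_le_mul_iff_right (by
      simp) (ENNReal.natCast_ne_top _)).1 h1
  intro j k hjk
  induction k with
  | zero =>
    obtain rfl : j = 0 := by omega
    exact le_rfl
  | succ k ih =>
    rcases Nat.eq_or_lt_of_le hjk with rfl | h
    · exact le_rfl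
    · exact (ih (by omega)).trans (step k)

/-- the lower bound in the Fock space -/
theorem low3v (hTF : S_TF) (hC : S_CONV2) (hs : Pf s) (hK : Measurable K)
    (hv : Measurable v) {D β : ℝ≥0∞} (hD : gEv μ K v s ≤ D) (hβ : gv s ≤ β) (hDt : D ≠ ⊤)
    {N : ℕ} (hN : 2 * (β * N) ≤ ENNReal.ofReal (L ^ n))
    (F : Multiset (Tor n L) → ℂ) (hF : EB F) :
    ee n L μ K v N * nE volume F ≤ en μ K v F +
      2 * (D * N) / ENNReal.ofReal (L ^ n) * dm volume N F := by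
  have hM := Pool.Agent.W975.CB.proof_ms
  have hL := Pool.Agent.W366.CB.proof_lam hM
  have hE := Pool.Agent.W417.CB.proof_ebc hM hL
  have hMe := Pool.Agent.W337.CB.proof_mecke hM hL
  obtain ⟨hfin, hdiff⟩ := ee_diffv hTF hs hK hv hD hβ hDt hN N le_rfl
  obtain ⟨C, hCdef⟩ : ∃ C : ℝ≥0∞, C = 2 * (D * N) / ENNReal.ofReal (L ^ n) := ⟨_, rfl⟩
  rw [← hCdef] at hdiff ⊢
  obtain ⟨e, he⟩ : ∃ e : ℝ≥0∞, e = ee n L μ K v N := ⟨_, rfl⟩
  rw [← he] at hdiff hfin ⊢
  have hQ : ∀ k : ℕ, ∀ F : Multiset (Tor n L) → ℂ, EB F →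
      (∀ S, Multiset.card S ≠ k → F S = 0) →
      e * nE volume F ≤ en μ K v F + C * ((N - k : ℕ) : ℝ≥0∞) * nE volume F := by
    intro k F hF hk
    rcases le_or_gt N k with hkN' | hkN'
    · have h9 := ee_mono (n := n) (L := L) (μ := μ) hTF hK hv N k hkN'
      rw [← he] at h9
      exact ((mul_le_mul' h9 le_rfl).trans (ee_le hF hk)).trans le_self_add
    have hkN := hkN'.le
    calc e * nE volume F ≤ (ee n L μ K v k + C * ((N - k : ℕ) : ℝ≥0∞)) * nE volume F :=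
          mul_le_mul' (hdiff k hkN) le_rfl
      _ = ee n L μ K v k * nE volume F + C * ((N - k : ℕ) : ℝ≥0∞) * nE volume F := by ring
      _ ≤ _ := add_le_add (ee_le hF hk) le_rfl
  -- wave functions
  have hW : ∀ (k : ℕ) (Ψ : (Fin k → Tor n L) → ℂ), IsWf Ψ →
      e ≤ enN μ K v Ψ + C * ((N - k : ℕ) : ℝ≥0∞) := by
    intro k Ψ hΨ
    obtain ⟨-, G, hG, hGs, hGn, -, hGe, -⟩ := hC n L μ K v k Ψ hK hv hΨ
    have := hQ k G hG hGs
    rwa [hGn, hGe, mul_one, mul_one] at this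
  have hsec : ∀ k : ℕ, e * ∫⁻ x : Fin k → Tor n L, ‖Ps F k x‖ₑ ^ 2 ≤
      enN μ K v (Ps F k) +
        C * ((N - k : ℕ) : ℝ≥0∞) * ∫⁻ x : Fin k → Tor n L, ‖Ps F k x‖ₑ ^ 2 := by
    intro k
    obtain ⟨h1, h2, h3⟩ := lc_sector hF k
    exact lc_unnorm μ K v _ _ (hW k) (Ps F k) h1 h2 h3
  have hzero : enN μ K v (Ps F 0) = 0 := by
    unfold enN
    simp
  have hsum : ∑' k : ℕ, (k.factorial : ℝ≥0∞)⁻¹ * enN μ K v (Ps F k) ≤ en μ K v F := by
    rw [tsum_eq_zero_add' ENNReal.summable, hzero, mul_zero, zero_add]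
    exact lc_hen hTF hM hL hE hMe μ K v hK hv hF
  rw [lc_ne hL hF, lc_dm hL N hF, ← ENNReal.tsum_mul_left, ← ENNReal.tsum_mul_left]
  calc ∑' k : ℕ, e * ((k.factorial : ℝ≥0∞)⁻¹ *
        ∫⁻ x : Fin k → Tor n L, ‖Ps F k x‖ₑ ^ 2)
      ≤ ∑' k : ℕ, ((k.factorial : ℝ≥0∞)⁻¹ * enN μ K v (Ps F k) +
          C * ((k.factorial : ℝ≥0∞)⁻¹ * (((N - k : ℕ) : ℝ≥0∞) *
            ∫⁻ x : Fin k → Tor n L, ‖Ps F k x‖ₑ ^ 2))) := by
        apply ENNReal.tsum_le_tsum
        intro k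
        calc e * ((k.factorial : ℝ≥0∞)⁻¹ *
              ∫⁻ x : Fin k → Tor n L, ‖Ps F k x‖ₑ ^ 2)
            = (k.factorial : ℝ≥0∞)⁻¹ * (e *
              ∫⁻ x : Fin k → Tor n L, ‖Ps F k x‖ₑ ^ 2) := by rw [mul_left_comm]
          _ ≤ (k.factorial : ℝ≥0∞)⁻¹ * (enN μ K v (Ps F k) +
              C * ((N - k : ℕ) : ℝ≥0∞) * ∫⁻ x : Fin k → Tor n L, ‖Ps F k x‖ₑ ^ 2) := by
              gcongr
              exact hsec k
          _ = _ := by
              rw [mul_add, mul_assoc C, mul_left_comm _ C]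
    _ = ∑' k : ℕ, (k.factorial : ℝ≥0∞)⁻¹ * enN μ K v (Ps F k) +
          ∑' k : ℕ, C * ((k.factorial : ℝ≥0∞)⁻¹ * (((N - k : ℕ) : ℝ≥0∞) *
            ∫⁻ x : Fin k → Tor n L, ‖Ps F k x‖ₑ ^ 2)) := ENNReal.tsum_add
    _ ≤ _ := by gcongr

end

end Pool.Agent.Y656
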