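import Pool.Agent.W761.CB.Par

/-!
# The parameters of the chain with the measurements by loss
-/

set_option autoImplicit false

open Filter Topology

namespace Pool.Agent.Y656

open Pool.Agent.W761.CB

theorem par3 (n : ℕ) (m σ g CP CA b₀ c v₁ : ℝ) (hn : 1 ≤ n) (hm : 0 < m) (hmn : m < n)
    (hσ : 0 < σ) (hσn : σ < n) (hgn : g < n / m) (hCP : 0 < CP) (hCA : 0 < CA) (hb₀ : 1 ≤ b₀)
    (hc : 0 < c) (hv : 0 < v₁) :
    ∃ lam mu r q : ℝ, 0 < lam ∧ lam < 1 ∧ 0 ≤ r ∧ r < 1 ∧ mu = r ^ 2 ∧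
      lam * (2 : ℝ) ^ n * mu = 1 ∧ (2 : ℝ) ^ σ * lam ≤ mu ∧ q = (2 : ℝ) ^ (-σ / 2) ∧
    ∃ lam0 δ₀ c₁ η4 : ℝ, 0 < lam0 ∧ lam0 ≤ 1 ∧ 0 < δ₀ ∧ 0 < c₁ ∧ 0 < η4 ∧
      ∀ δ : ℝ, 0 < δ → δ ≤ δ₀ → δ ≤ 1 ∧ ∃ s : ℕ,
      ∀ ℓ : ℝ, lam0 * δ ^ (-(1 / m)) / 2 ≤ ℓ → ℓ ≤ lam0 * δ ^ (-(1 / m)) →
        b₀ ≤ ℓ / 2 ^ s ∧
        ∃ ε0 : ℝ, 0 < ε0 ∧ ε0 / (1 - lam) ≤ 1 / 2 ∧
        ∀ ξ es H T a EV : ℝ, 0 ≤ a → 0 ≤ EV → EV ≤ v₁ * δ ^ 2 → T ≤ η4 * δ →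
          ξ = 6 / (ε0 * ℓ ^ n) → 0 ≤ es → es ≤ v₁ * δ ^ 2 * (ε0 / (1 - lam)) →
          H = 2 * √ξ + √((2 : ℝ) ^ σ * es /
            (ℓ ^ n * (c * δ ^ (g + n / m) * (1 + 2 * √n) ^ (-(n + σ))))) →
          δ / 4 ≤ (CP * 2 ^ (n + m) * ℓ ^ m + 16 * (CA * (ℓ / 2 ^ s) ^ n)) * EV +
            12 * ξ + 7 * √(4 ^ n / (ℓ / 2 ^ s) ^ n) *
              (√a + H / (1 - r) + √T / (1 - q)) →
          c₁ * δ ≤ a := by
  have hn1 : (1 : ℝ) ≤ n := by exact_mod_cast hn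
  have two : (0 : ℝ) < 2 := by norm_num
  have hnm : 1 < (n : ℝ) / m := by rw [one_lt_div hm]; exact hmn
  set κ : ℝ := (n - σ) / 2 with hκ
  have hκ0 : 0 < κ := by rw [hκ]; linarith
  set mu : ℝ := (2 : ℝ) ^ (-κ) with hmu
  set lam : ℝ := (2 : ℝ) ^ (κ - n) with hlam
  have hmu0 : 0 < mu := by positivity
  have hlam0 : 0 < lam := by positivity
  have hmu1 : mu < 1 := Real.rpow_lt_one_of_one_lt_of_neg (by norm_num) (by linarith)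
  have hlam1 : lam < 1 :=
    Real.rpow_lt_one_of_one_lt_of_neg (by norm_num) (by rw [hκ]; linarith)
  set ρ : ℝ := √mu with hρ
  have hρ0 : 0 ≤ ρ := Real.sqrt_nonneg _
  have hmuρ : mu = ρ ^ 2 := (Real.sq_sqrt hmu0.le).symm
  have hρ1 : ρ < 1 := by
    by_contra h
    have : 1 ≤ ρ ^ 2 := one_le_pow₀ (not_lt.1 h)
    linarith
  have h1ρ : 0 < 1 - ρ := by linarith
  have h1l : 0 < 1 - lam := by linarith
  set q : ℝ := (2 : ℝ) ^ (-σ / 2) with hq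
  have hq0 : 0 < q := by positivity
  have hq1 : q < 1 := Real.rpow_lt_one_of_one_lt_of_neg (by norm_num) (by linarith)
  have h1q : 0 < 1 - q := by linarith
  refine ⟨lam, mu, ρ, q, hlam0, hlam1, hρ0, hρ1, hmuρ, ?_, ?_, rfl, ?_⟩
  · rw [← Real.rpow_natCast 2 n, hlam, hmu, ← Real.rpow_add two, ← Real.rpow_add two]
    rw [show κ - (n : ℝ) + (n : ℝ) + -κ = 0 by ring, Real.rpow_zero]
  · rw [hlam, hmu, ← Real.rpow_add two]
    exact Real.rpow_le_rpow_of_exponent_le (by norm_num) (by rw [hκ]; linarith)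
  -- the constants
  have h2n : (0 : ℝ) < 2 ^ n := by positivity
  have h4n : (0 : ℝ) < 4 ^ n := by positivity
  obtain ⟨cl, hcl⟩ : ∃ cl : ℝ, cl = 1 / 4 := ⟨_, rfl⟩
  have hcl0 : 0 < cl := by rw [hcl]; norm_num
  set l0m : ℝ := min 1 (cl / (8 * (CP * 2 ^ (n + m) * (v₁ + 1)))) with hl0m
  have hl0m0 : 0 < l0m := lt_min one_pos (by positivity)
  set l0 : ℝ := l0m ^ (1 / m) with hl0
  have hl00 : 0 < l0 := by positivity
  have hl01 : l0 ≤ 1 := Real.rpow_le_one hl0m0.le (min_le_left _ _) (by positivity)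
  have hl0pow : l0 ^ m = l0m := by
    rw [hl0, ← Real.rpow_mul hl0m0.le, one_div, inv_mul_cancel₀ hm.ne', Real.rpow_one]
  set K1 : ℝ := 128 * CA * (v₁ + 1) / cl with hK1
  have hK10 : 0 < K1 := by positivity
  set c1 : ℝ := cl / (14 * 4 ^ n * √K1) with hc1
  have hc10 : 0 < c1 := by positivity
  set η1 : ℝ := min (cl / 192) (((1 - ρ) * c1 / 16) ^ 2) with hη1
  have hη10 : 0 < η1 := by rw [hη1]; exact lt_min (by positivity) (by positivity)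
  have hη1a : η1 ≤ cl / 192 := min_le_left _ _
  have hη1b : η1 ≤ ((1 - ρ) * c1 / 16) ^ 2 := min_le_right _ _
  set η4 : ℝ := ((1 - q) * c1 / 4) ^ 2 with hη4
  have hη40 : 0 < η4 := by positivity
  -- `ε0 ≤ F1 δ^(n/m - 1)`
  set F1 : ℝ := 6 * (2 / l0) ^ (n : ℝ) / η1 with hF1
  have hF10 : 0 < F1 := by positivity
  set F2 : ℝ := v₁ * (F1 / (1 - lam)) with hF2
  have hF20 : 0 < F2 := by positivity
  set D : ℝ := (1 + 2 * √n) ^ ((n : ℝ) + σ) with hD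
  have hD0 : 0 < D := by positivity
  set F3 : ℝ := (2 : ℝ) ^ σ * F2 * (2 / l0) ^ (n : ℝ) * D / c with hF3
  have hF30 : 0 < F3 := by positivity
  obtain ⟨δa, hδa, Qa⟩ := sp (n / m - 1) F1 ((1 - lam) / 2) (by linarith) hF10.le (by positivity)
  obtain ⟨δc, hδc, Qc⟩ := sp (n / m - g) F3 (((1 - ρ) * c1 / 4) ^ 2)
    (by linarith) hF30.le (by positivity)
  obtain ⟨δe, hδe, Qe⟩ := sp (n / m - 1) (1 / (K1 * l0 ^ n)) 1 (by linarith) (by positivity)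
    one_pos
  refine ⟨l0, min 1 (min δa (min (min δc δe)
    (1 / (4 ^ n * K1 * b₀ ^ n)))), c1 ^ 2 / 16, η4,
    hl00, hl01, lt_min one_pos (lt_min hδa (lt_min (lt_min hδc
      hδe) (by positivity))), by positivity, hη40, ?_⟩
  intro δ hδ hδ0
  have hδ1 : δ ≤ 1 := hδ0.trans (min_le_left _ _)
  have hx2 := hδ0.trans (min_le_right _ _)
  have hδA' : δ ≤ δa := hx2.trans (min_le_left _ _)
  have hx4 := hx2.trans (min_le_right _ _)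
  have hx5 := hx4.trans (min_le_left _ _)
  have hδC' : δ ≤ δc := hx5.trans (min_le_left _ _)
  have hδE' : δ ≤ δe := hx5.trans (min_le_right _ _)
  have hδG : δ ≤ 1 / (4 ^ n * K1 * b₀ ^ n) := hx4.trans (min_le_right _ _)
  have Ra := Qa δ hδ.le hδA'
  have Rc := Qc δ hδ.le hδC'
  have Re := Qe δ hδ.le hδE'
  refine ⟨hδ1, ?_⟩
  set Λ : ℝ := l0 * δ ^ (-(1 / m)) with hΛ
  have hΛ0 : 0 < Λ := by positivity
  have hΛn : Λ ^ n = l0 ^ n * δ ^ (-(n / m : ℝ)) := by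
    rw [hΛ, mul_pow, ← Real.rpow_natCast (δ ^ (-(1 / m))), ← Real.rpow_mul hδ.le]
    congr 2
    ring
  have hΛm : Λ ^ m = l0m / δ := by
    rw [hΛ, Real.mul_rpow hl00.le (by positivity), hl0pow, ← Real.rpow_mul hδ.le]
    rw [show -(1 / m) * m = -1 by field_simp, Real.rpow_neg_one]
    rfl
  have hbig : ∀ κ' : ℝ, 0 < κ' → 1 / (κ' * l0 ^ n) * δ ^ ((n : ℝ) / m - 1) ≤ 1 →
      1 ≤ κ' * δ * Λ ^ n := by
    intro κ' hκ' h
    rw [hΛn]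
    have e1 : δ ^ ((n : ℝ) / m - 1) * (δ * δ ^ (-(n / m : ℝ))) = 1 := by
      nth_rewrite 2 [← Real.rpow_one δ]
      rw [← Real.rpow_add hδ, ← Real.rpow_add hδ]
      rw [show (n : ℝ) / m - 1 + (1 + -(n / m : ℝ)) = 0 by ring, Real.rpow_zero]
    have hp : 0 < δ ^ ((n : ℝ) / m - 1) := by positivity
    have h' : δ ^ ((n : ℝ) / m - 1) ≤ κ' * l0 ^ n := by
      rw [div_mul_eq_mul_div, one_mul, div_le_one (by positivity)] at h
      exact h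
    calc (1 : ℝ) = δ ^ ((n : ℝ) / m - 1) * (δ * δ ^ (-(n / m : ℝ))) := e1.symm
      _ ≤ κ' * l0 ^ n * (δ * δ ^ (-(n / m : ℝ))) := by gcongr
      _ = κ' * δ * (l0 ^ n * δ ^ (-(n / m : ℝ))) := by ring
  obtain ⟨s, hs⟩ := side n hn Λ K1 δ b₀ hΛ0 hK10 hδ hb₀ (hbig K1 hK10 Re) (by
    rw [le_div_iff₀ (by positivity)] at hδG
    linarith)
  refine ⟨s, fun ℓ hℓ1 hℓ2 => ?_⟩
  have hℓ : 0 < ℓ := by linarith
  obtain ⟨t1, t2, t3⟩ := hs ℓ hℓ1 hℓ2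
  refine ⟨t1, ?_⟩
  set ε0 : ℝ := 6 / (η1 * δ * ℓ ^ n) with hε0
  have hε00 : 0 < ε0 := by positivity
  have e2 : (Λ / 2) ^ n ≤ ℓ ^ n := pow_le_pow_left₀ (by positivity) hℓ1 n
  have e3 : (Λ / 2) ^ n = (l0 / 2) ^ n * δ ^ (-((n : ℝ) / m)) := by
    rw [div_pow, hΛn, div_pow]
    ring
  have e4 : (2 / l0) ^ (n : ℝ) * (l0 / 2) ^ n = 1 := by
    rw [Real.rpow_natCast, ← mul_pow]
    rw [show 2 / l0 * (l0 / 2) = 1 by field_simp, one_pow]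
  -- `ε0 ≤ F1 δ^(n/m - 1)`
  have hε1 : ε0 ≤ F1 * δ ^ ((n : ℝ) / m - 1) := by
    have e5 : δ ^ ((n : ℝ) / m - 1) * (δ * δ ^ (-((n : ℝ) / m))) = 1 := by
      nth_rewrite 2 [← Real.rpow_one δ]
      rw [← Real.rpow_add hδ, ← Real.rpow_add hδ]
      rw [show (n : ℝ) / m - 1 + (1 + -((n : ℝ) / m)) = 0 by ring, Real.rpow_zero]
    rw [hε0, div_le_iff₀ (by positivity)]
    calc (6 : ℝ) = 6 * ((2 / l0) ^ (n : ℝ) * (l0 / 2) ^ n) *
          (δ ^ ((n : ℝ) / m - 1) * (δ * δ ^ (-((n : ℝ) / m)))) := by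
          rw [e4, e5]
          norm_num
      _ = 6 * (2 / l0) ^ (n : ℝ) * δ ^ ((n : ℝ) / m - 1) * δ * (Λ / 2) ^ n := by
          rw [e3]; ring
      _ ≤ 6 * (2 / l0) ^ (n : ℝ) * δ ^ ((n : ℝ) / m - 1) * δ * ℓ ^ n := by gcongr
      _ = F1 * δ ^ ((n : ℝ) / m - 1) * (η1 * δ * ℓ ^ n) := by
          rw [hF1]
          field_simp
  have hεc : ε0 / (1 - lam) ≤ 1 / 2 := by
    rw [div_le_iff₀ h1l]
    linarith only [hε1, Ra]
  refine ⟨ε0, hε00, hεc, ?_⟩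
  intro ξ es H T a EV ha hEV0 hEV hT hξ hes0 hes hH hineq
  have hξ1 : ξ = η1 * δ := by
    rw [hξ, hε0]
    field_simp
  have hes1 : es ≤ F2 * (δ ^ ((n : ℝ) / m - 1) * δ ^ 2) := by
    calc es ≤ v₁ * δ ^ 2 * (ε0 / (1 - lam)) := hes
      _ ≤ v₁ * δ ^ 2 * ((F1 * δ ^ ((n : ℝ) / m - 1)) / (1 - lam)) := by gcongr
      _ = F2 * (δ ^ ((n : ℝ) / m - 1) * δ ^ 2) := by rw [hF2]; ring
  -- the four terms
  have hEVes : EV ≤ (v₁ + 1) * δ ^ 2 := by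
    have : 0 ≤ δ ^ 2 := by positivity
    linarith only [hEV, this]
  have hL1 : CP * 2 ^ (n + m) * ℓ ^ m * EV ≤ cl / 8 * δ := by
    have h5 : ℓ ^ m ≤ l0m / δ := by
      rw [← hΛm]
      exact Real.rpow_le_rpow hℓ.le hℓ2 hm.le
    have h6 : l0m ≤ cl / (8 * (CP * 2 ^ (n + m) * (v₁ + 1))) := min_le_right _ _
    calc CP * 2 ^ (n + m) * ℓ ^ m * EV
        ≤ CP * 2 ^ (n + m) * (l0m / δ) * ((v₁ + 1) * δ ^ 2) := by gcongr
      _ = CP * 2 ^ (n + m) * (v₁ + 1) * l0m * δ := by field_simp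
      _ ≤ CP * 2 ^ (n + m) * (v₁ + 1) * (cl / (8 * (CP * 2 ^ (n + m) * (v₁ + 1)))) * δ := by
          gcongr
      _ = cl / 8 * δ := by field_simp
  have hbs : 0 < (ℓ / 2 ^ s) ^ n := by positivity
  have hL2 : 16 * (CA * (ℓ / 2 ^ s) ^ n) * EV ≤ cl / 8 * δ := by
    calc 16 * (CA * (ℓ / 2 ^ s) ^ n) * EV
        ≤ 16 * (CA * (ℓ / 2 ^ s) ^ n) * ((v₁ + 1) * δ ^ 2) := by gcongr
      _ = 16 * CA * (v₁ + 1) / K1 * δ * ((ℓ / 2 ^ s) ^ n * (K1 * δ)) := by field_simp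
      _ ≤ 16 * CA * (v₁ + 1) / K1 * δ * 1 := by gcongr
      _ = cl / 8 * δ := by
          rw [hK1]
          field_simp
          norm_num
  have hL3 : 12 * ξ ≤ cl / 8 * δ := by
    have h5 := mul_le_mul_of_nonneg_right hη1a hδ.le
    have h6 : 0 < cl * δ := by positivity
    rw [hξ1]
    linarith only [h5, h6]
  have hlsδ : δ / 4 = cl * δ := by rw [hcl]; ring
  have hsδ : 0 < √δ := Real.sqrt_pos.2 hδ
  have hsK : 0 < √K1 := Real.sqrt_pos.2 hK10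
  have hsq : δ = √δ * √δ := (Real.mul_self_sqrt hδ.le).symm
  have hR1 : √(4 ^ n / (ℓ / 2 ^ s) ^ n) ≤ 4 ^ n * √K1 * √δ := by
    rw [Real.sqrt_le_left (by positivity), mul_pow, mul_pow, Real.sq_sqrt hK10.le,
      Real.sq_sqrt hδ.le]
    calc 4 ^ n / (ℓ / 2 ^ s) ^ n = 4 ^ n * (1 / (ℓ / 2 ^ s) ^ n) := by ring
      _ ≤ 4 ^ n * (4 ^ n * K1 * δ) := by gcongr
      _ = (4 ^ n) ^ 2 * K1 * δ := by ring
  have hH0 : 0 ≤ H := by rw [hH]; positivity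
  set G : ℝ := √a + H / (1 - ρ) + √T / (1 - q) with hG
  have hG0 : 0 ≤ G := by positivity
  have hR2 : cl / 2 * δ ≤ 7 * (4 ^ n * √K1 * √δ) * G := by
    have h5 : 7 * √(4 ^ n / (ℓ / 2 ^ s) ^ n) * G ≤ 7 * (4 ^ n * √K1 * √δ) * G := by gcongr
    have h6 : 0 < cl * δ := by positivity
    linarith only [h5, hL1, hL2, hL3, hineq, hlsδ, h6]
  have hR3 : c1 * √δ ≤ G := by
    have h6 : cl / 2 * δ = 7 * (4 ^ n * √K1 * √δ) * (c1 * √δ) := by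
      rw [hc1]
      nth_rewrite 1 [hsq]
      field_simp
      norm_num
    rw [h6] at hR2
    exact le_of_mul_le_mul_left hR2 (by positivity)
  have hHle : H / (1 - ρ) ≤ c1 * √δ / 2 := by
    rw [div_le_iff₀ h1ρ, hH]
    have b4 := mul_le_mul_of_nonneg_right hη1b hδ.le
    have b2 : √ξ ≤ (1 - ρ) * c1 / 16 * √δ := by
      rw [Real.sqrt_le_left (by positivity), mul_pow, Real.sq_sqrt hδ.le, hξ1]
      exact b4
    have b3 : √((2 : ℝ) ^ σ * es /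
        (ℓ ^ n * (c * δ ^ (g + n / m) * (1 + 2 * √n) ^ (-(n + σ))))) ≤
        ((1 - ρ) * c1 / 4) * √δ := by
      rw [Real.sqrt_le_left (by positivity), mul_pow, Real.sq_sqrt hδ.le]
      have hDinv : (1 + 2 * √(n : ℝ)) ^ (-((n : ℝ) + σ)) = D⁻¹ := by
        rw [hD, Real.rpow_neg (by positivity)]
      rw [hDinv, div_le_iff₀ (by positivity)]
      have e5 : δ ^ ((n : ℝ) / m - 1) * δ ^ 2 =
          δ ^ ((n : ℝ) / m - g) * δ * (δ ^ (-((n : ℝ) / m)) * δ ^ (g + n / m)) := by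
        rw [← Real.rpow_natCast δ 2]
        nth_rewrite 4 [← Real.rpow_one δ]
        rw [← Real.rpow_add hδ, ← Real.rpow_add hδ, ← Real.rpow_add hδ, ← Real.rpow_add hδ]
        congr 1
        push_cast
        ring
      calc (2 : ℝ) ^ σ * es ≤ (2 : ℝ) ^ σ * (F2 * (δ ^ ((n : ℝ) / m - 1) * δ ^ 2)) := by gcongr
        _ = F3 * δ ^ ((n : ℝ) / m - g) * δ *
            ((l0 / 2) ^ n * δ ^ (-((n : ℝ) / m)) * (c * δ ^ (g + n / m) * D⁻¹)) := by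
            have hD1 : D * D⁻¹ = 1 := mul_inv_cancel₀ hD0.ne'
            have hc1' : c / c = 1 := div_self hc.ne'
            rw [e5, hF3]
            calc (2 : ℝ) ^ σ * (F2 * (δ ^ ((n : ℝ) / m - g) * δ *
                  (δ ^ (-((n : ℝ) / m)) * δ ^ (g + n / m))))
                = ((2 / l0) ^ (n : ℝ) * (l0 / 2) ^ n) * (D * D⁻¹) * (c / c) *
                  ((2 : ℝ) ^ σ * (F2 * (δ ^ ((n : ℝ) / m - g) * δ *
                  (δ ^ (-((n : ℝ) / m)) * δ ^ (g + n / m))))) := by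
                  rw [e4, hD1, hc1']
                  ring
              _ = _ := by ring
        _ ≤ ((1 - ρ) * c1 / 4) ^ 2 * δ *
            ((l0 / 2) ^ n * δ ^ (-((n : ℝ) / m)) * (c * δ ^ (g + n / m) * D⁻¹)) := by
            gcongr
        _ = ((1 - ρ) * c1 / 4) ^ 2 * δ * ((Λ / 2) ^ n * (c * δ ^ (g + n / m) * D⁻¹)) := by
            rw [e3]
        _ ≤ ((1 - ρ) * c1 / 4) ^ 2 * δ * (ℓ ^ n * (c * δ ^ (g + n / m) * D⁻¹)) := by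
            gcongr
    have h9 : 0 ≤ (1 - ρ) * c1 * √δ := by positivity
    linarith only [b2, b3, h9]
  have hTle : √T / (1 - q) ≤ c1 * √δ / 4 := by
    rw [div_le_iff₀ h1q]
    calc √T ≤ √(η4 * δ) := Real.sqrt_le_sqrt hT
      _ = (1 - q) * c1 / 4 * √δ := by
          rw [hη4, Real.sqrt_mul' _ hδ.le, Real.sqrt_sq (by positivity)]
      _ = c1 * √δ / 4 * (1 - q) := by ring
  have hfin : c1 * √δ / 4 ≤ √a := by linarith only [hHle, hR3, hTle, hG]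
  have h5 : (c1 * √δ / 4) ^ 2 ≤ a := by
    have := pow_le_pow_left₀ (by positivity) hfin 2
    rwa [Real.sq_sqrt ha] at this
  rw [div_pow, mul_pow, Real.sq_sqrt hδ.le] at h5
  linarith

end Pool.Agent.Y656
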