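import Pool.Agent.Y656.Low3
import Pool.Agent.Y656.Core3
import Pool.Agent.Y656.Par3
import Pool.Agent.TH268.CC.All

/-!
# The main theorem for pair potentials of finite range which may be infinite
-/

set_option autoImplicit false

open MeasureTheory
open scoped ENNReal

namespace Pool.Agent.Y656

open Pool.Agent.W761.CB Pool.Agent.TH268.CC

noncomputable section

/-- the lowest energy of `N` particles and the energy of near minimisers -/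
theorem near_ee {n : ℕ} {L : ℝ} [Fact (0 < L)] {μ : ℝ≥0∞} {K : (Fin n → ℝ) → ℝ≥0∞}
    {v : ℝ → ℝ≥0∞} (hK : Measurable K) (hv : Measurable v) {N : ℕ} {a b : ℝ≥0∞} (hb : b ≠ ⊤)
    (h : ∀ Φ : (Fin N → Tor n L) → ℂ, IsWf Φ → a ≤ enN μ K v Φ + b) :
    a ≤ ee n L μ K v N + b := by
  have hM := Pool.Agent.W975.CB.proof_ms
  have hL := Pool.Agent.W366.CB.proof_lam hM
  have hE := Pool.Agent.W417.CB.proof_ebc hM hL
  have hMe := Pool.Agent.W337.CB.proof_mecke hM hL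
  refine tsub_le_iff_right.1 (le_ee fun F hF hs => ?_)
  have h1 := lc_TQ Pool.Agent.W135.CB.proof_tf hM hL hE hMe μ K v hK hv a b N h hF hs
  have hN : nE volume F ≠ ⊤ := (nE_fin volume hF).ne
  rw [ENNReal.sub_mul fun _ _ => hN]
  exact tsub_le_iff_right.2 h1

lemma add_cost {n : ℕ} {R τ : ℝ} (hR : 0 < R) (hτ : 0 < τ) {μ I : ℝ≥0∞}
    (h : μ + I ≤ ENNReal.ofReal τ) :
    ENNReal.ofReal (16 * (4 * R) ^ n) * (n * μ + I) ≤
      ENNReal.ofReal (16 * (4 * R) ^ n * ((n + 1) * τ)) := by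
  have e1 : ENNReal.ofReal (16 * (4 * R) ^ n * ((n + 1) * τ)) =
      ENNReal.ofReal (16 * (4 * R) ^ n) * (((n : ℝ≥0∞) + 1) * ENNReal.ofReal τ) := by
    rw [ENNReal.ofReal_mul (p := 16 * (4 * R) ^ n) (by positivity),
      ENNReal.ofReal_mul (p := (n : ℝ) + 1) (by positivity),
      ENNReal.ofReal_add (by positivity) (by norm_num),
      ENNReal.ofReal_natCast, ENNReal.ofReal_one]
  rw [e1]
  refine mul_le_mul' le_rfl ?_
  refine le_trans ?_ (mul_le_mul' le_rfl h)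
  calc (n : ℝ≥0∞) * μ + I ≤ (n * μ + I) + (μ + n * I) := le_self_add
    _ = _ := by ring

lemma add_num {n N : ℕ} {R L δ : ℝ} (hR : 0 < R) (hL : 0 < L) (h1 : (N : ℝ) ≤ δ * L ^ n)
    (h2 : δ * (2 * (4 * R) ^ n) ≤ 1) :
    2 * (ENNReal.ofReal ((4 * R) ^ n) * N) ≤ ENNReal.ofReal (L ^ n) := by
  have e1 : (2 : ℝ≥0∞) * (ENNReal.ofReal ((4 * R) ^ n) * N) =
      ENNReal.ofReal (2 * ((4 * R) ^ n * N)) := by
    rw [ENNReal.ofReal_mul (p := 2) (by norm_num),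
      ENNReal.ofReal_mul (p := (4 * R) ^ n) (by positivity), ENNReal.ofReal_natCast]
    norm_num
  rw [e1]
  refine ENNReal.ofReal_le_ofReal ?_
  calc 2 * ((4 * R) ^ n * N) ≤ 2 * ((4 * R) ^ n * (δ * L ^ n)) := by gcongr
    _ = δ * (2 * (4 * R) ^ n) * L ^ n := by ring
    _ ≤ 1 * L ^ n := by gcongr
    _ = L ^ n := one_mul _

lemma Ca_eq {n N : ℕ} {L D₀ : ℝ} (hL : 0 < L) (hD : 0 < D₀) :
    2 * (ENNReal.ofReal D₀ * N) / ENNReal.ofReal (L ^ n) =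
      ENNReal.ofReal (2 * (D₀ * N) / L ^ n) := by
  rw [ENNReal.ofReal_div_of_pos (by positivity), ENNReal.ofReal_mul (p := 2) (by norm_num),
    ENNReal.ofReal_mul (p := D₀) hD.le, ENNReal.ofReal_natCast]
  norm_num

lemma aux1 {D₀ δ Ca : ℝ} (hD : 0 ≤ D₀) (hδ : 0 ≤ δ) (h : Ca ≤ 2 * D₀ * δ) :
    Ca * δ ≤ 8 * D₀ * δ ^ 2 := by
  have h1 := mul_le_mul_of_nonneg_right h hδ
  have h2 : 0 ≤ D₀ * δ ^ 2 := by positivity
  linarith only [h1, h2]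

lemma aux2 {D₀ δ Ca N V E tol e : ℝ} (hD : 0 ≤ D₀) (hδ : 0 ≤ δ) (hV : 0 < V)
    (h : Ca ≤ 2 * D₀ * δ) (hN : N ≤ δ * V) (hN0 : 0 ≤ N) (hE : E ≤ e + tol * V)
    (he : e ≤ Ca * N) (ht : tol ≤ 8 * D₀ * δ ^ 2 / 2) : E / V ≤ 8 * D₀ * δ ^ 2 := by
  rw [div_le_iff₀ hV]
  have h1 : Ca * N ≤ 2 * D₀ * δ * (δ * V) := mul_le_mul h hN hN0 (by positivity)
  have h3 := mul_le_mul_of_nonneg_right ht hV.le
  have h4 : 0 ≤ D₀ * δ ^ 2 * V := by positivity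
  linarith only [h1, h3, h4, hE, he]

lemma aux3 {δ V N x Y : ℝ} (hV : 0 < V) (hδ : 0 ≤ δ) (hx : x ≤ 1 / 2) (hN : δ / 2 * V ≤ N)
    (h : (1 - x) * N ≤ Y * V) : δ / 4 ≤ Y := by
  have h2 : (1 : ℝ) / 2 * (δ / 2 * V) ≤ (1 - x) * N :=
    mul_le_mul (by linarith only [hx]) hN (by positivity) (by linarith only [hx])
  have h4 := h2.trans h
  have h5 : (1 : ℝ) / 2 * (δ / 2 * V) = δ / 4 * V := by ring
  rw [h5] at h4
  exact le_of_mul_le_mul_right h4 hV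

/-- The main theorem for a fixed number of particles and potentials with a hard core. -/
theorem hcore (n : ℕ) (m σ g CP τ c R₀ : ℝ) (v : ℝ → ℝ≥0∞) (hn : 1 ≤ n) (hm : 0 < m)
    (hmn : m < n) (hσ : 0 < σ) (hσn : σ < n) (hgn : g < n / m) (hCP : 0 < CP) (hτ : 0 < τ)
    (hc : 0 < c) (hv : Measurable v) (hvR : ∀ r, R₀ < r → v r = 0)
    (hv0 : ∫⁻ z : Fin n → ℝ, v (el z) ≠ 0) :
    ∃ ρ₀ c₀ : ℝ, 0 < ρ₀ ∧ 0 < c₀ ∧ ∀ ρ : ℝ, 0 < ρ → ρ ≤ ρ₀ → ∃ c₁ L₀ : ℝ, 0 < c₁ ∧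
      ∀ (L : ℝ) [Fact (0 < L)] (μ : ℝ≥0∞) (K : (Fin n → ℝ) → ℝ≥0∞), L₀ ≤ L → Measurable K →
      PO n L m CP μ K →
      μ + ∫⁻ z, K z * ENNReal.ofReal (min 1 (el z ^ 2)) ≤ ENNReal.ofReal τ →
      (∀ z, ENNReal.ofReal (c * ρ ^ (g + n / m) * (1 + ρ ^ (1 / m) * el z) ^ (-(n + σ))) ≤ K z) →
      ∀ N : ℕ, ρ / 2 * L ^ n ≤ N → (N : ℝ) ≤ ρ * L ^ n →
      ∀ Ψ : (Fin N → Tor n L) → ℂ, IsWf2 Ψ →
        (∀ Φ : (Fin N → Tor n L) → ℂ, IsWf Φ →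
          enN μ K v Ψ ≤ enN μ K v Φ + ENNReal.ofReal (c₁ * L ^ (n - σ))) →
        c₀ * N ≤ condN Ψ := by
  have hMS := Pool.Agent.W975.CB.proof_ms
  have hLAM := Pool.Agent.W366.CB.proof_lam hMS
  have hAD := Pool.Agent.W338.CB.proof_ad hMS hLAM
  have hW1 := Pool.Agent.W991.CB.proof_w1
  have hW2 := Pool.Agent.W174.CB.main hAD hW1
  have hW3 := Pool.Agent.W803.CB.w3 hW1
  have hDER := Pool.Agent.W99.CB.der hW1 hW3
  have hFRM := frm hW1 hW2 hW3 hDER Pool.Agent.W803.CB.par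
    Pool.Agent.W366.CB.proof_ibp Pool.Agent.W790.CB.proof_win
  have hTF := Pool.Agent.W135.CB.proof_tf
  have hHAT := Pool.Agent.W19.CB.hat_proof hTF
  have hGK := Pool.Agent.W249.CB.gk hTF hHAT Pool.Agent.W249.CB.sup
  have hDIA := Pool.Agent.W427.CB.dia Pool.Agent.W880.CB.dia0 hTF
  have hFIB := Pool.Agent.W131.CB.fib
  have hPO2 := Pool.Agent.W880.CB.po2 hFIB
  have hCOH := Pool.Agent.W374.CB2.Coh.coh hTF hHAT hGK hPO2
  have hBLK := Pool.Agent.W374.CB2.Blk.blk hTF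
  have hLA1 := Pool.Agent.W372.CB.main hTF hBLK
  have hLA := Pool.Agent.W571.CB.La.proof_la hTF hBLK hLA1 hFIB
  have hTAIL := Pool.Agent.W571.CB.Tail.proof_tail hHAT hBLK
  have hCONV := conv2 hTF
  have hREF := Pool.Agent.W816.CB.cb_ref
  have hTRUNC := Pool.Agent.W376.CB.trunc
  obtain ⟨R, hRdef⟩ : ∃ R : ℝ, R = max 1 R₀ := ⟨_, rfl⟩
  have hR1 : 1 ≤ R := by rw [hRdef]; exact le_max_left _ _
  have hR0 : 0 < R := by linarith
  have hvR' : ∀ r, R < r → v r = 0 := fun r hr => hvR r (lt_of_le_of_lt (by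
    rw [hRdef]; exact le_max_right _ _) hr)
  obtain ⟨D₀, hD₀⟩ : ∃ D₀ : ℝ, D₀ = 16 * (4 * R) ^ n * ((n + 1) * τ) := ⟨_, rfl⟩
  have hD₀0 : 0 < D₀ := by rw [hD₀]; positivity
  obtain ⟨v₁, hv₁⟩ : ∃ v₁ : ℝ, v₁ = 8 * D₀ := ⟨_, rfl⟩
  have hv₁0 : 0 < v₁ := by rw [hv₁]; positivity
  obtain ⟨CA0, b₀, hCA0, hb₀, hla⟩ := hLA n m CP v hn hm hmn hCP.le hv hv0
  set CA : ℝ := CA0 + 1 with hCA
  have hCApos : 0 < CA := by rw [hCA]; linarith
  obtain ⟨lam, mu, r, q, hlam0, hlam1, hr0, hr1, hmur, hlam2, hlams, hq, lam0, δ₀, c₁, η4,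
    hl00, hl01, hδ₀, hc₁, hη4, hpar⟩ :=
    par3 n m σ g CP CA b₀ c v₁ hn hm hmn hσ hσn hgn hCP hCApos hb₀ hc hv₁0
  have h1l : 0 < 1 - lam := by linarith
  refine ⟨min δ₀ (1 / (2 * (4 * R) ^ n)), c₁, lt_min hδ₀ (by positivity), hc₁, ?_⟩
  intro δ hδ hδle'
  have hδle : δ ≤ δ₀ := hδle'.trans (min_le_left _ _)
  have hδR : δ * (2 * (4 * R) ^ n) ≤ 1 := by
    have := hδle'.trans (min_le_right _ _)
    rwa [le_div_iff₀ (by positivity)] at this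
  obtain ⟨hδ1, s, hfin⟩ := hpar δ hδ hδle
  set Λ : ℝ := lam0 * δ ^ (-(1 / m)) with hΛ
  have hΛ0 : 0 < Λ := by positivity
  set Γ : ℝ := c * δ ^ (g + n / m) * (1 + 2 * √n) ^ (-(n + σ)) with hΓ
  have hΓ0 : 0 < Γ := by positivity
  set κ₀ : ℝ := η4 * δ * ((Λ / 2) ^ n * Γ) with hκ₀
  have hκ₀0 : 0 < κ₀ := by positivity
  -- the tolerance is small on large tori
  have geo : ∀ (s κ b : ℝ), 0 < s → 0 < κ → 0 < b → ∃ J₀ : ℕ, ∀ J : ℕ, J₀ ≤ J →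
      κ * (2 : ℝ) ^ (-(s * J)) ≤ b := by
    intro s κ b hs hκ hb
    have h1 : (2 : ℝ) ^ (-s) < 1 := Real.rpow_lt_one_of_one_lt_of_neg (by norm_num) (by linarith)
    obtain ⟨J₀, hJ⟩ := exists_pow_lt_of_lt_one (div_pos hb hκ) h1
    refine ⟨J₀, fun J hJJ => ?_⟩
    have h3 : (2 : ℝ) ^ (-(s * J)) = ((2 : ℝ) ^ (-s)) ^ J := by
      rw [← Real.rpow_natCast, ← Real.rpow_mul (by norm_num)]
      congr 1
      ring
    have h4 : ((2 : ℝ) ^ (-s)) ^ J ≤ ((2 : ℝ) ^ (-s)) ^ J₀ :=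
      pow_le_pow_of_le_one (by positivity) h1.le hJJ
    rw [lt_div_iff₀ hκ] at hJ
    rw [h3]
    have h5 := mul_le_mul_of_nonneg_left h4 hκ.le
    linarith only [h5, hJ]
  obtain ⟨J₀, hJ₀⟩ := geo σ κ₀ (v₁ * δ ^ 2 / 2) hσ hκ₀0 (by positivity)
  refine ⟨κ₀ * (Λ / 2) ^ σ / 2, max 1 (Λ / 2 * 2 ^ (J₀ + 3)), by positivity, ?_⟩
  intro L _ μ K hL₀ hK hPO hcost hLB
  have hLpos : 0 < L := Fact.out
  have hL1 : 1 ≤ L := (le_max_left _ _).trans hL₀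
  have hLJ : Λ / 2 * 2 ^ (J₀ + 3) ≤ L := (le_max_right _ _).trans hL₀
  have hV : (0 : ℝ) < L ^ n := by positivity
  -- the smallest scale
  have h2J : (1 : ℝ) ≤ 2 ^ (J₀ + 3) := one_le_pow₀ (by norm_num)
  have hLΛ : 2 ^ (J₀ + 3) ≤ L / (Λ / 2) := by
    rw [le_div_iff₀ (by positivity)]
    linarith
  obtain ⟨J, hJ1, hJ2⟩ := near 2 (L / (Λ / 2)) (by norm_num) (h2J.trans hLΛ)
  have hJJ : J₀ + 3 ≤ J := by
    by_contra hcon
    have h3 : (2 : ℝ) ^ (J + 1) ≤ 2 ^ (J₀ + 3) := pow_le_pow_right₀ (by norm_num) (by omega)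
    linarith
  have h2Jp : (0 : ℝ) < 2 ^ J := by positivity
  set ℓ : ℝ := L / 2 ^ J with hℓdef
  have hℓ0 : 0 < ℓ := by positivity
  have hLℓ : L = 2 ^ J * ℓ := by rw [hℓdef]; field_simp
  have hℓ1 : Λ / 2 ≤ ℓ := by
    rw [hℓdef, le_div_iff₀ h2Jp]
    rw [le_div_iff₀ (by positivity)] at hJ1
    linarith
  have hℓ2 : ℓ ≤ Λ := by
    rw [hℓdef, div_le_iff₀ h2Jp]
    rw [div_lt_iff₀ (by positivity), pow_succ] at hJ2
    linarith
  obtain ⟨hb1, ε0, hε0, hε1, hcond⟩ := hfin ℓ hℓ1 hℓ2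
  have hla' : ∀ t : ℕ, b₀ ≤ ℓ / 2 ^ t → _ := fun t ht =>
    hla L (ℓ / 2 ^ t) (2 ^ J * 2 ^ t) μ K ht (by
      push_cast
      rw [hLℓ]
      field_simp) (by
      have : 2 ^ 3 ≤ 2 ^ J := Nat.pow_le_pow_right (by norm_num) (by omega)
      have h1 : 1 ≤ 2 ^ t := Nat.one_le_two_pow
      simpa using Nat.mul_le_mul this h1) hK hPO
  -- the energy of one more particle
  obtain ⟨D, hDdef⟩ : ∃ D : ℝ≥0∞, D = ENNReal.ofReal D₀ := ⟨_, rfl⟩
  have hDt : D ≠ ⊤ := by rw [hDdef]; exact ENNReal.ofReal_ne_top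
  have hD : ENNReal.ofReal (16 * (4 * R) ^ n) *
      (n * μ + ∫⁻ z, K z * ENNReal.ofReal (min 1 (el z ^ 2))) ≤ D := by
    rw [hDdef, hD₀]
    exact add_cost hR0 hτ hcost
  intro N hNlo hNhi Ψ hΨ hnear
  have hN0 : (0 : ℝ) ≤ N := Nat.cast_nonneg N
  have hN2 : 2 * (ENNReal.ofReal ((4 * R) ^ n) * N) ≤ ENNReal.ofReal (L ^ n) :=
    add_num hR0 hLpos hNhi hδR
  obtain ⟨heefin, heediff⟩ := ee_diff hTF hR1 hK hv hvR' hD hDt hN2 N le_rfl
  obtain ⟨Ca, hCa⟩ : ∃ Ca : ℝ, Ca = 2 * (D₀ * N) / L ^ n := ⟨_, rfl⟩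
  have hCa0 : 0 ≤ Ca := by rw [hCa]; positivity
  have hCaE : 2 * (D * N) / ENNReal.ofReal (L ^ n) = ENNReal.ofReal Ca := by
    rw [hCa, hDdef]
    exact Ca_eq hLpos hD₀0
  rw [hCaE] at heediff
  -- the tolerance
  set tol : ℝ := κ₀ * (2 : ℝ) ^ (-(σ * J)) with htol
  have htol0 : 0 < tol := by positivity
  have htol1 : tol ≤ v₁ * δ ^ 2 / 2 := hJ₀ J (by omega)
  have htolV : κ₀ * (Λ / 2) ^ σ / 2 * L ^ (n - σ) ≤ tol * L ^ n / 2 := by
    have h1 : L ^ ((n : ℝ) - σ) = L ^ n * (2 : ℝ) ^ (-(σ * J)) * ℓ ^ (-σ) := by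
      rw [Real.rpow_sub hLpos, Real.rpow_natCast, div_eq_mul_inv, ← Real.rpow_neg hLpos.le]
      nth_rewrite 2 [hLℓ]
      rw [Real.mul_rpow h2Jp.le hℓ0.le, ← Real.rpow_natCast 2 J, ← Real.rpow_mul (by norm_num)]
      rw [show (J : ℝ) * -σ = -(σ * J) by ring]
      ring
    have h2 : (Λ / 2) ^ σ * ℓ ^ (-σ) ≤ 1 := by
      rw [Real.rpow_neg hℓ0.le, ← div_eq_mul_inv, div_le_one (by positivity)]
      exact Real.rpow_le_rpow (by positivity) hℓ1 hσ.le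
    rw [h1]
    calc κ₀ * (Λ / 2) ^ σ / 2 * (L ^ n * (2 : ℝ) ^ (-(σ * J)) * ℓ ^ (-σ))
        = tol * L ^ n / 2 * ((Λ / 2) ^ σ * ℓ ^ (-σ)) := by rw [htol]; ring
      _ ≤ tol * L ^ n / 2 * 1 := by gcongr
      _ = tol * L ^ n / 2 := mul_one _
  -- finiteness of the energy
  have hfinite : enN μ K v Ψ ≠ ⊤ := by
    intro htop
    have h1 : (⊤ : ℝ≥0∞) ≤ ee n L μ K v N + 0 := by
      refine near_ee hK hv ENNReal.zero_ne_top fun Φ hΦ => ?_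
      have h2 := hnear Φ hΦ
      rw [htop, top_le_iff, ENNReal.add_eq_top] at h2
      rcases h2 with h2 | h2
      · rw [h2, top_add]
      · exact absurd h2 ENNReal.ofReal_ne_top
    rw [add_zero, top_le_iff] at h1
    exact heefin h1
  -- it is enough to consider bounded wave functions
  have red : ∀ ε : ℝ, 0 < ε → c₁ * N ≤ condN Ψ + ε := by
    intro ε hε
    set ε' : ℝ := min ε (tol * L ^ n / 2) with hε'
    have hε'0 : 0 < ε' := lt_min hε (by positivity)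
    obtain ⟨Ψ', hΨ', hΨe, hΨc⟩ := hTRUNC n L μ K v N Ψ ε' hK hv hε'0 hΨ hfinite
    have hnear' : ∀ Φ : (Fin N → Tor n L) → ℂ, IsWf Φ →
        enN μ K v Ψ' ≤ enN μ K v Φ + ENNReal.ofReal (tol * L ^ n) := by
      intro Φ hΦ
      calc enN μ K v Ψ' ≤ enN μ K v Ψ + ENNReal.ofReal ε' := hΨe
        _ ≤ enN μ K v Φ + ENNReal.ofReal (κ₀ * (Λ / 2) ^ σ / 2 * L ^ ((n : ℝ) - σ)) +
            ENNReal.ofReal ε' := add_le_add (hnear Φ hΦ) le_rfl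
        _ = enN μ K v Φ + ENNReal.ofReal (κ₀ * (Λ / 2) ^ σ / 2 * L ^ ((n : ℝ) - σ) + ε') := by
            rw [add_assoc, ← ENNReal.ofReal_add (by positivity) hε'0.le]
        _ ≤ enN μ K v Φ + ENNReal.ofReal (tol * L ^ n) := by
            refine add_le_add le_rfl (ENNReal.ofReal_le_ofReal ?_)
            have h9 : ε' ≤ tol * L ^ n / 2 := min_le_right _ _
            linarith only [h9, htolV]
    have hfin' : enN μ K v Ψ' ≠ ⊤ :=
      (lt_of_le_of_lt hΨe (ENNReal.add_lt_top.2 ⟨lt_top_iff_ne_top.2 hfinite,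
        ENNReal.ofReal_lt_top⟩)).ne
    set E : ℝ := (enN μ K v Ψ').toReal with hE
    have hE0 : 0 ≤ E := ENNReal.toReal_nonneg
    have hEe : enN μ K v Ψ' = ENNReal.ofReal E := (ENNReal.ofReal_toReal hfin').symm
    obtain ⟨e, he⟩ : ∃ e : ℝ, e = (ee n L μ K v N).toReal := ⟨_, rfl⟩
    have he0 : 0 ≤ e := by rw [he]; exact ENNReal.toReal_nonneg
    have heE : ee n L μ K v N = ENNReal.ofReal e := by
      rw [he, ENNReal.ofReal_toReal heefin]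
    have hEle : E ≤ e + tol * L ^ n := by
      have h1 := near_ee hK hv (μ := μ) ENNReal.ofReal_ne_top hnear'
      rw [hEe, heE, ← ENNReal.ofReal_add he0 (by positivity),
        ENNReal.ofReal_le_ofReal_iff (by positivity)] at h1
      exact h1
    have hele : e ≤ Ca * N := by
      have h1 := heediff 0 (Nat.zero_le _)
      rw [ee_zero, zero_add, heE, Nat.sub_zero, ← ENNReal.ofReal_natCast N,
        ← ENNReal.ofReal_mul hCa0, ENNReal.ofReal_le_ofReal_iff (by positivity)] at h1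
      exact h1
    have hEe' : E - e ≤ tol * L ^ n := by linarith
    have hNV : (N : ℝ) / L ^ n ≤ δ := by
      rw [div_le_iff₀ hV]
      exact hNhi
    have hCa1 : Ca ≤ 2 * D₀ * δ := by
      have : Ca = 2 * D₀ * (N / L ^ n) := by rw [hCa]; ring
      rw [this]
      gcongr
    have hlow : ∀ F : Multiset (Tor n L) → ℂ, EB F → (∀ S, N < Multiset.card S → F S = 0) →
        ENNReal.ofReal e * nE volume F ≤ en μ K v F + ENNReal.ofReal Ca * dm volume N F := by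
      intro F hF hs
      rw [← heE, ← hCaE]
      exact low3 hTF hCONV hR1 hK hv hvR' hD hDt hN2 F hF hs
    -- Fock space
    obtain ⟨hcn0, F, hF, hFs, hF1, hFN, hFe, hFc⟩ := hCONV n L μ K v N Ψ' hK hv hΨ'
    rw [hEe] at hFe
    -- the chain of scales
    have hbs : 0 < (ℓ / 2 ^ s) ^ n := by positivity
    have hcoh : ∀ F : Multiset (Tor n L) → ℂ, EB F → ENNReal.ofReal (ℓ ^ n) * nuE volume F ≤
        ∑ i, nE volume (ag volume (hf n L ℓ (2 ^ J) i) F) +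
          ENNReal.ofReal (ℓ ^ n * (CP * 2 ^ (n + m) * ℓ ^ m)) * en μ K v F := by
      intro F hF
      have h2q : 2 ≤ 2 ^ J := by
        calc 2 = 2 ^ 1 := rfl
          _ ≤ 2 ^ J := Nat.pow_le_pow_right (by norm_num) (by omega)
      have hℓb : b₀ ≤ ℓ := by
        have h1 : ℓ / 2 ^ s ≤ ℓ := div_le_self hℓ0.le (one_le_pow₀ (by norm_num))
        linarith
      refine (hCOH n L ℓ m CP (2 ^ J) μ K hK hCP.le hPO h2q (by rw [hLℓ]; push_cast; rfl)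
        (by linarith) F hF).trans ?_
      gcongr
      · exact le_rfl
      · exact le_self_add
    have hKM : 1 ≤ 4 ^ n / (ℓ / 2 ^ s) ^ n * ℓ ^ n := by
      rw [div_mul_eq_mul_div, one_le_div hbs, ← mul_pow]
      apply pow_le_pow_left₀ (by positivity)
      have h1 : ℓ / 2 ^ s ≤ ℓ := div_le_self hℓ0.le (one_le_pow₀ (by norm_num))
      linarith
    have htail : ∀ F : Multiset (Tor n L) → ℂ, EB F →
        ∑ i, tl volume (hf n L ℓ (2 ^ J) i) (4 ^ n / (ℓ / 2 ^ s) ^ n * ℓ ^ n) F ≤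
          ENNReal.ofReal (CA * (ℓ / 2 ^ s) ^ n) * en μ K v F := by
      intro F hF
      have h2s : (2 : ℝ) ^ s * (ℓ / 2 ^ s) = ℓ := by field_simp
      have h1 := hTAIL n L (ℓ / 2 ^ s) (2 ^ J) s Nat.one_le_two_pow (by
        push_cast
        rw [hLℓ]
        field_simp) F hF
      rw [h2s] at h1
      refine (h1.trans (hla' s hb1 F hF).1).trans ?_
      gcongr
      rw [hCA]
      linarith
    set Q : ℝ := L ^ n * condN Ψ' with hQ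
    have hQ0 : 0 ≤ Q := by positivity
    have hineq := core3 hFRM Pool.Agent.W762.CB.bot hHAT hREF hGK hDIA hTF hℓ0 hLℓ hK hv he0
      hE0 hQ0 htol0.le hCa0 hEe' hF (fun S hS => hFs S (ne_of_gt hS)) hF1 hFN hFe.le
      (by rw [hFc]) hlow
      (P := CP * 2 ^ (n + m) * ℓ ^ m) (Tl := CA * (ℓ / 2 ^ s) ^ n)
      (K' := 4 ^ n / (ℓ / 2 ^ s) ^ n) (by positivity) (by positivity) (by positivity) hKM hcoh
      htail (σ := σ) (Γ := Γ) hΓ0 hσ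
      (fun j _ _ => kern n m σ g δ lam0 c ℓ hδ hσ hl01 hc hℓ0 hℓ2 K hLB j) hNhi hε0
      hlam0 hlam1 (by linarith) hr0 hr1 hmur hlam2 hlams rfl rfl rfl rfl hq
    have hℓn : (Λ / 2) ^ n ≤ ℓ ^ n := by gcongr
    have hTle : tol * (2 : ℝ) ^ (σ * J) / (ℓ ^ n * Γ) ≤ η4 * δ := by
      have h1 : (2 : ℝ) ^ (-(σ * J)) * (2 : ℝ) ^ (σ * J) = 1 := by
        rw [← Real.rpow_add (by norm_num)]; simp
      rw [div_le_iff₀ (by positivity)]
      calc tol * (2 : ℝ) ^ (σ * J) = κ₀ * ((2 : ℝ) ^ (-(σ * J)) * (2 : ℝ) ^ (σ * J)) := by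
            rw [htol]; ring
        _ = η4 * δ * ((Λ / 2) ^ n * Γ) := by rw [h1, mul_one]
        _ ≤ η4 * δ * (ℓ ^ n * Γ) := by gcongr
    have hes : Ca * δ * (ε0 / (1 - lam)) ≤ v₁ * δ ^ 2 * (ε0 / (1 - lam)) := by
      have h1 : 0 ≤ ε0 / (1 - lam) := by positivity
      refine mul_le_mul_of_nonneg_right ?_ h1
      rw [hv₁]
      exact aux1 hD₀0.le hδ.le hCa1
    have hEV : E / L ^ n ≤ v₁ * δ ^ 2 := by
      rw [hv₁] at htol1 ⊢
      exact aux2 hD₀0.le hδ.le hV hCa1 hNhi hN0 hEle hele htol1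
    have hcond' := hcond _ _ _ _ (Q / (L ^ n) ^ 2) (E / L ^ n)
      (by positivity) (by positivity) hEV hTle rfl (by positivity) hes rfl
      (aux3 hV hδ.le hε1 hNlo hineq)
    have hcN : c₁ * δ * L ^ n ≤ condN Ψ' := by
      have h1 : Q / (L ^ n) ^ 2 = condN Ψ' / L ^ n := by rw [hQ]; field_simp
      rw [h1, le_div_iff₀ hV] at hcond'
      exact hcond'
    calc c₁ * N ≤ c₁ * (δ * L ^ n) := by gcongr
      _ = c₁ * δ * L ^ n := by ring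
      _ ≤ condN Ψ' := hcN
      _ ≤ condN Ψ + ε' := hΨc
      _ ≤ condN Ψ + ε := by
          have := min_le_left ε (tol * L ^ n / 2)
          linarith
  exact le_of_forall_pos_le_add fun ε hε => red ε hε

end

end Pool.Agent.Y656
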