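import Pool.Agent.W761.CB.Par

/-!
# The parameters of the chain with the measurements by loss: complete condensation
-/

set_option autoImplicit false

open Filter Topology

namespace Pool.Agent.Y656

open Pool.Agent.W761.CB

theorem par4 (n : ℕ) (hn : 3 ≤ n) (σ g CP c v₁ G e : ℝ) (hσ : 0 < σ) (hσn : σ < n)
    (hgn : g < n / 2) (hCP : 0 < CP) (hc : 0 < c) (hv : 0 < v₁) (hG : 0 < G) (he : 0 < e) :
    ∃ lam mu r q : ℝ, 0 < lam ∧ lam < 1 ∧ 0 ≤ r ∧ r < 1 ∧ mu = r ^ 2 ∧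
      lam * (2 : ℝ) ^ n * mu = 1 ∧ (2 : ℝ) ^ σ * lam ≤ mu ∧ q = (2 : ℝ) ^ (-σ / 2) ∧
    ∃ lam0 δ₀ η4 : ℝ, 0 < lam0 ∧ lam0 ≤ 1 ∧ 0 < δ₀ ∧ 0 < η4 ∧
      ∀ δ : ℝ, 0 < δ → δ ≤ δ₀ → δ ≤ 1 ∧
      ∀ ℓ : ℝ, lam0 * δ ^ (-(1 / 2 : ℝ)) / 2 ≤ ℓ → ℓ ≤ lam0 * δ ^ (-(1 / 2 : ℝ)) →
        CP * 2 ^ ((n : ℝ) + 2) * ℓ ^ (2 : ℝ) * (G * δ) ≤ e ∧
        ∃ ε0 : ℝ, 0 < ε0 ∧ ε0 / (1 - lam) ≤ e ∧
        ∀ ξ es H T : ℝ, T ≤ η4 * δ →
          ξ = 6 / (ε0 * ℓ ^ n) → 0 ≤ es → es ≤ v₁ * δ ^ 2 * (ε0 / (1 - lam)) →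
          H = 2 * √ξ + √((2 : ℝ) ^ σ * es /
            (ℓ ^ n * (c * δ ^ (g + n / 2) * (1 + 2 * √n) ^ (-(n + σ))))) →
          √ξ + H / (1 - r) + √T / (1 - q) ≤ √e * √(δ / 2) := by
  have hn1 : (3 : ℝ) ≤ n := by exact_mod_cast hn
  have two : (0 : ℝ) < 2 := by norm_num
  set κ : ℝ := (n - σ) / 2 with hκ
  have hκ0 : 0 < κ := by rw [hκ]; linarith
  set mu : ℝ := (2 : ℝ) ^ (-κ) with hmu
  set lam : ℝ := (2 : ℝ) ^ (κ - n) with hlam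
  have hmu0 : 0 < mu := by positivity
  have hlam0 : 0 < lam := by positivity
  have hmu1 : mu < 1 := Real.rpow_lt_one_of_one_lt_of_neg (by norm_num) (by linarith)
  have hlam1 : lam < 1 :=
    Real.rpow_lt_one_of_one_lt_of_neg (by norm_num) (by rw [hκ]; linarith)
  set ρ : ℝ := √mu with hρ
  have hρ0 : 0 ≤ ρ := Real.sqrt_nonneg _
  have hmuρ : mu = ρ ^ 2 := (Real.sq_sqrt hmu0.le).symm
  have hρ1 : ρ < 1 := by
    by_contra h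
    have : 1 ≤ ρ ^ 2 := one_le_pow₀ (not_lt.1 h)
    linarith
  have h1ρ : 0 < 1 - ρ := by linarith
  have h1l : 0 < 1 - lam := by linarith
  set q : ℝ := (2 : ℝ) ^ (-σ / 2) with hq
  have hq0 : 0 < q := by positivity
  have hq1 : q < 1 := Real.rpow_lt_one_of_one_lt_of_neg (by norm_num) (by linarith)
  have h1q : 0 < 1 - q := by linarith
  refine ⟨lam, mu, ρ, q, hlam0, hlam1, hρ0, hρ1, hmuρ, ?_, ?_, rfl, ?_⟩
  · rw [← Real.rpow_natCast 2 n, hlam, hmu, ← Real.rpow_add two, ← Real.rpow_add two]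
    rw [show κ - (n : ℝ) + (n : ℝ) + -κ = 0 by ring, Real.rpow_zero]
  · rw [hlam, hmu, ← Real.rpow_add two]
    exact Real.rpow_le_rpow_of_exponent_le (by norm_num) (by rw [hκ]; linarith)
  -- the constants
  set PC : ℝ := CP * 2 ^ ((n : ℝ) + 2) * G with hPC
  have hPC0 : 0 < PC := by positivity
  set l0 : ℝ := min 1 √(e / PC) with hl0
  have hl00 : 0 < l0 := lt_min one_pos (Real.sqrt_pos.2 (by positivity))
  have hl01 : l0 ≤ 1 := min_le_left _ _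
  have hl0e : PC * l0 ^ 2 ≤ e := by
    have h1 : l0 ≤ √(e / PC) := min_le_right _ _
    have h2 : l0 ^ 2 ≤ e / PC := by
      calc l0 ^ 2 ≤ √(e / PC) ^ 2 := pow_le_pow_left₀ hl00.le h1 2
        _ = e / PC := Real.sq_sqrt (by positivity)
    rw [le_div_iff₀ hPC0] at h2
    linarith
  obtain ⟨K1, hK1⟩ : ∃ K1 : ℝ, K1 = √(e / 2) := ⟨_, rfl⟩
  have hK10 : 0 < K1 := by rw [hK1]; exact Real.sqrt_pos.2 (by positivity)
  set η : ℝ := ((1 - ρ) * K1 / 16) ^ 2 with hη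
  have hη0 : 0 < η := by positivity
  set η4 : ℝ := ((1 - q) * K1 / 4) ^ 2 with hη4
  have hη40 : 0 < η4 := by positivity
  -- `ε0 ≤ F1 δ^(n/2 - 1)`
  set F1 : ℝ := 6 * (2 / l0) ^ (n : ℝ) / η with hF1
  have hF10 : 0 < F1 := by positivity
  set F2 : ℝ := v₁ * (F1 / (1 - lam)) with hF2
  have hF20 : 0 < F2 := by positivity
  set D : ℝ := (1 + 2 * √n) ^ ((n : ℝ) + σ) with hD
  have hD0 : 0 < D := by positivity
  set F3 : ℝ := (2 : ℝ) ^ σ * F2 * (2 / l0) ^ (n : ℝ) * D / c with hF3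
  have hF30 : 0 < F3 := by positivity
  obtain ⟨δa, hδa, Qa⟩ := sp ((n : ℝ) / 2 - 1) F1 (e * (1 - lam)) (by linarith) hF10.le
    (by positivity)
  obtain ⟨δc, hδc, Qc⟩ := sp ((n : ℝ) / 2 - g) F3 (((1 - ρ) * K1 / 4) ^ 2)
    (by linarith) hF30.le (by positivity)
  refine ⟨l0, min 1 (min δa δc), η4, hl00, hl01, lt_min one_pos (lt_min hδa hδc), hη40, ?_⟩
  intro δ hδ hδ0
  have hδ1 : δ ≤ 1 := hδ0.trans (min_le_left _ _)
  have hx2 := hδ0.trans (min_le_right _ _)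
  have hδA' : δ ≤ δa := hx2.trans (min_le_left _ _)
  have hδC' : δ ≤ δc := hx2.trans (min_le_right _ _)
  have Ra := Qa δ hδ.le hδA'
  have Rc := Qc δ hδ.le hδC'
  refine ⟨hδ1, fun ℓ hℓ1 hℓ2 => ?_⟩
  set y : ℝ := δ ^ (-(1 / 2 : ℝ)) with hy
  have hy0 : 0 < y := by positivity
  have hy2 : y ^ 2 = δ⁻¹ := by
    rw [hy, ← Real.rpow_natCast, ← Real.rpow_mul hδ.le]
    rw [show -(1 / 2 : ℝ) * ((2 : ℕ) : ℝ) = -1 by push_cast; ring, Real.rpow_neg_one]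
  have hyn : y ^ n = δ ^ (-((n : ℝ) / 2)) := by
    rw [hy, ← Real.rpow_natCast, ← Real.rpow_mul hδ.le]
    congr 1
    ring
  have hℓ : 0 < ℓ := lt_of_lt_of_le (by positivity) hℓ1
  constructor
  · rw [Real.rpow_two]
    calc CP * 2 ^ ((n : ℝ) + 2) * ℓ ^ 2 * (G * δ) = PC * ℓ ^ 2 * δ := by rw [hPC]; ring
      _ ≤ PC * (l0 * y) ^ 2 * δ := by gcongr
      _ = PC * l0 ^ 2 * (y ^ 2 * δ) := by ring
      _ = PC * l0 ^ 2 := by rw [hy2, inv_mul_cancel₀ hδ.ne', mul_one]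
      _ ≤ e := hl0e
  set ε0 : ℝ := 6 / (η * δ * ℓ ^ n) with hε0
  have hε00 : 0 < ε0 := by positivity
  have e2 : (l0 / 2) ^ n * δ ^ (-((n : ℝ) / 2)) ≤ ℓ ^ n := by
    rw [← hyn, ← mul_pow]
    exact pow_le_pow_left₀ (by positivity) (by linarith) n
  have e4 : (2 / l0) ^ (n : ℝ) * (l0 / 2) ^ n = 1 := by
    rw [Real.rpow_natCast, ← mul_pow]
    rw [show 2 / l0 * (l0 / 2) = 1 by field_simp, one_pow]
  -- `ε0 ≤ F1 δ^(n/2 - 1)`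
  have hε1 : ε0 ≤ F1 * δ ^ ((n : ℝ) / 2 - 1) := by
    have e5 : δ ^ ((n : ℝ) / 2 - 1) * (δ * δ ^ (-((n : ℝ) / 2))) = 1 := by
      nth_rewrite 2 [← Real.rpow_one δ]
      rw [← Real.rpow_add hδ, ← Real.rpow_add hδ]
      rw [show (n : ℝ) / 2 - 1 + (1 + -((n : ℝ) / 2)) = 0 by ring, Real.rpow_zero]
    rw [hε0, div_le_iff₀ (by positivity)]
    calc (6 : ℝ) = 6 * ((2 / l0) ^ (n : ℝ) * (l0 / 2) ^ n) *
          (δ ^ ((n : ℝ) / 2 - 1) * (δ * δ ^ (-((n : ℝ) / 2)))) := by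
          rw [e4, e5]
          norm_num
      _ = 6 * (2 / l0) ^ (n : ℝ) * δ ^ ((n : ℝ) / 2 - 1) * δ *
          ((l0 / 2) ^ n * δ ^ (-((n : ℝ) / 2))) := by ring
      _ ≤ 6 * (2 / l0) ^ (n : ℝ) * δ ^ ((n : ℝ) / 2 - 1) * δ * ℓ ^ n := by gcongr
      _ = F1 * δ ^ ((n : ℝ) / 2 - 1) * (η * δ * ℓ ^ n) := by
          rw [hF1]
          field_simp
  have hεc : ε0 / (1 - lam) ≤ e := by
    rw [div_le_iff₀ h1l]
    linarith only [hε1, Ra]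
  refine ⟨ε0, hε00, hεc, ?_⟩
  intro ξ es H T hT hξ hes0 hes hH
  have hξ1 : ξ = η * δ := by
    rw [hξ, hε0]
    field_simp
  have hes1 : es ≤ F2 * (δ ^ ((n : ℝ) / 2 - 1) * δ ^ 2) := by
    calc es ≤ v₁ * δ ^ 2 * (ε0 / (1 - lam)) := hes
      _ ≤ v₁ * δ ^ 2 * ((F1 * δ ^ ((n : ℝ) / 2 - 1)) / (1 - lam)) := by gcongr
      _ = F2 * (δ ^ ((n : ℝ) / 2 - 1) * δ ^ 2) := by rw [hF2]; ring
  have hsδ : 0 < √δ := Real.sqrt_pos.2 hδ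
  have b2 : √ξ ≤ (1 - ρ) * K1 / 16 * √δ := by
    rw [Real.sqrt_le_left (by positivity), mul_pow, Real.sq_sqrt hδ.le, hξ1]
  have b3 : √((2 : ℝ) ^ σ * es /
      (ℓ ^ n * (c * δ ^ (g + n / 2) * (1 + 2 * √n) ^ (-(n + σ))))) ≤
      ((1 - ρ) * K1 / 4) * √δ := by
    rw [Real.sqrt_le_left (by positivity), mul_pow, Real.sq_sqrt hδ.le]
    have hDinv : (1 + 2 * √(n : ℝ)) ^ (-((n : ℝ) + σ)) = D⁻¹ := by
      rw [hD, Real.rpow_neg (by positivity)]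
    rw [hDinv, div_le_iff₀ (by positivity)]
    have e5 : δ ^ ((n : ℝ) / 2 - 1) * δ ^ 2 =
        δ ^ ((n : ℝ) / 2 - g) * δ * (δ ^ (-((n : ℝ) / 2)) * δ ^ (g + n / 2)) := by
      rw [← Real.rpow_natCast δ 2]
      nth_rewrite 4 [← Real.rpow_one δ]
      rw [← Real.rpow_add hδ, ← Real.rpow_add hδ, ← Real.rpow_add hδ, ← Real.rpow_add hδ]
      congr 1
      push_cast
      ring
    calc (2 : ℝ) ^ σ * es ≤ (2 : ℝ) ^ σ * (F2 * (δ ^ ((n : ℝ) / 2 - 1) * δ ^ 2)) := by gcongr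
      _ = F3 * δ ^ ((n : ℝ) / 2 - g) * δ *
          ((l0 / 2) ^ n * δ ^ (-((n : ℝ) / 2)) * (c * δ ^ (g + n / 2) * D⁻¹)) := by
          have hD1 : D * D⁻¹ = 1 := mul_inv_cancel₀ hD0.ne'
          have hc1' : c / c = 1 := div_self hc.ne'
          rw [e5, hF3]
          calc (2 : ℝ) ^ σ * (F2 * (δ ^ ((n : ℝ) / 2 - g) * δ *
                (δ ^ (-((n : ℝ) / 2)) * δ ^ (g + n / 2))))
              = ((2 / l0) ^ (n : ℝ) * (l0 / 2) ^ n) * (D * D⁻¹) * (c / c) *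
                ((2 : ℝ) ^ σ * (F2 * (δ ^ ((n : ℝ) / 2 - g) * δ *
                (δ ^ (-((n : ℝ) / 2)) * δ ^ (g + n / 2))))) := by
                rw [e4, hD1, hc1']
                ring
            _ = _ := by ring
      _ ≤ ((1 - ρ) * K1 / 4) ^ 2 * δ *
          ((l0 / 2) ^ n * δ ^ (-((n : ℝ) / 2)) * (c * δ ^ (g + n / 2) * D⁻¹)) := by
          gcongr
      _ ≤ ((1 - ρ) * K1 / 4) ^ 2 * δ * (ℓ ^ n * (c * δ ^ (g + n / 2) * D⁻¹)) := by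
          gcongr
  have hHle : H / (1 - ρ) ≤ K1 * √δ * (3 / 8) := by
    rw [div_le_iff₀ h1ρ, hH]
    linarith only [b2, b3]
  have hTle : √T / (1 - q) ≤ K1 * √δ / 4 := by
    rw [div_le_iff₀ h1q]
    calc √T ≤ √(η4 * δ) := Real.sqrt_le_sqrt hT
      _ = (1 - q) * K1 / 4 * √δ := by
          rw [hη4, Real.sqrt_mul' _ hδ.le, Real.sqrt_sq (by positivity)]
      _ = K1 * √δ / 4 * (1 - q) := by ring
  have hfst : √ξ ≤ K1 * √δ / 16 := by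
    refine b2.trans ?_
    have h1 : 0 ≤ ρ * (K1 * √δ) := by positivity
    linarith only [h1]
  have hend : √e * √(δ / 2) = K1 * √δ := by
    rw [hK1, ← Real.sqrt_mul he.le, ← Real.sqrt_mul (by positivity : 0 ≤ e / 2)]
    congr 1
    ring
  rw [hend]
  have h0 : 0 ≤ K1 * √δ := by positivity
  linarith only [hHle, hTle, hfst, h0]

end Pool.Agent.Y656
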