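import Pool.Agent.W327.CC.CUT
import Pool.Agent.W612.CC.Cap
import Pool.Agent.W377.CC.SYM
import Pool.Agent.W883.CC.GPos

/-!
# The scattering constant of pair potentials which may be infinite near the origin
-/

set_option autoImplicit false

open MeasureTheory Set Filter
open scoped ENNReal Topology

namespace Pool.Agent.Y656

open Pool.Agent.W761.CB Pool.Agent.W761.CC
open Pool.Agent.W327.CC (chi chi_nonneg chi_le_one chi_zero measurableSet_cube vol_cube JJ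
  gr_cut JJ_le cutf_meas)
open Pool.Agent.W612.CC (cube_mono cube_meas el_meas QD_mono QD_congr QD_smul BM_comb BM_smul
  BM_sub rep tail_small)

noncomputable section

variable {n : ℕ}

/-- the potential outside the ball of radius `R₀` -/
def vo (R₀ : ℝ) (v : ℝ → ℝ≥0∞) (r : ℝ) : ℝ≥0∞ := if R₀ < r then v r else 0

lemma vo_meas {R₀ : ℝ} {v : ℝ → ℝ≥0∞} (hv : Measurable v) : Measurable (vo R₀ v) :=
  Measurable.ite measurableSet_Ioi hv measurable_const

lemma vo_le (R₀ : ℝ) (v : ℝ → ℝ≥0∞) (r : ℝ) : vo R₀ v r ≤ v r := by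
  unfold vo
  split_ifs
  · exact le_rfl
  · exact zero_le

lemma vo_int (R₀ : ℝ) (v : ℝ → ℝ≥0∞) : ∫⁻ z : Fin n → ℝ, vo R₀ v (el z) =
    ∫⁻ z in {z : Fin n → ℝ | R₀ < el z}, v (el z) := by
  rw [← lintegral_indicator (measurableSet_lt measurable_const el_meas)]
  refine lintegral_congr fun z => ?_
  unfold vo Set.indicator
  rfl

lemma el_ge (z : Fin n → ℝ) (c : Fin n) : |z c| ≤ el z := by
  unfold el
  apply Real.abs_le_sqrt
  exact Finset.single_le_sum (f := fun i => z i ^ 2) (fun i _ => sq_nonneg _) (Finset.mem_univ c)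

lemma vo_eq {R₀ a : ℝ} (ha : R₀ ≤ a) (v : ℝ → ℝ≥0∞) {z : Fin n → ℝ} (hz : z ∉ cube n a) :
    vo R₀ v (el z) = v (el z) := by
  unfold vo
  rw [if_pos]
  have h1 : ∃ c, a < |z c| := by
    by_contra h
    push Not at h
    exact hz h
  obtain ⟨c, hc⟩ := h1
  linarith [el_ge z c]

/-- the potential energy of a cut off -/
lemma pot2 {r R₀ : ℝ} (hr : 0 < r) (hR : 2 * R₀ ≤ r) {v : ℝ → ℝ≥0∞} (hv : Measurable v)
    (u : (Fin n → ℝ) → ℝ) :
    ∫⁻ z : Fin n → ℝ, v (el z) * ENNReal.ofReal (cutf r u z ^ 2) ≤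
      (∫⁻ z in cube n r, v (el z) * ENNReal.ofReal (u z ^ 2)) +
        ∫⁻ z : Fin n → ℝ, vo R₀ v (el z) := by
  have hvm : Measurable (fun z : Fin n → ℝ => vo R₀ v (el z)) := (vo_meas hv).comp el_meas
  rw [← lintegral_indicator (measurableSet_cube n r), ← lintegral_add_right _ hvm]
  refine lintegral_mono fun z => ?_
  have hc0 := chi_nonneg (r := r) z
  have hc1 := chi_le_one (r := r) z
  by_cases hz : z ∈ cube n r
  · rw [Set.indicator_of_mem hz]
    by_cases hz2 : z ∈ cube n (r / 2)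
    · rw [Pool.Agent.W612.CC.cutf_eq hr u hz2]
      exact le_self_add
    · rw [vo_eq (by linarith) v hz2]
      calc v (el z) * ENNReal.ofReal (cutf r u z ^ 2) ≤
          v (el z) * (ENNReal.ofReal (u z ^ 2) + 1) := by
            apply mul_le_mul_right
            rw [← ENNReal.ofReal_one, ← ENNReal.ofReal_add (sq_nonneg _) zero_le_one]
            apply ENNReal.ofReal_le_ofReal
            rw [Pool.Agent.W327.CC.cutf_eq]
            nlinarith [mul_nonneg hc0 (sub_nonneg.2 hc1), mul_nonneg (mul_nonneg hc0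
              (sub_nonneg.2 hc1)) (sq_nonneg (u z - 1)), mul_nonneg (sub_nonneg.2 hc1)
              (sq_nonneg (u z))]
        _ = v (el z) * ENNReal.ofReal (u z ^ 2) + v (el z) := by rw [mul_add, mul_one]
  · have hz2 : z ∉ cube n (r / 2) := fun h => hz (cube_mono (by linarith) h)
    rw [Set.indicator_of_notMem hz, zero_add, Pool.Agent.W327.CC.cutf_eq, chi_zero hr hz,
      vo_eq (by linarith) v hz2]
    simp

lemma cutf_adm {r : ℝ} (hr : 0 < r) {u : (Fin n → ℝ) → ℝ} (hu : BM u) : Adm (cutf r u) := by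
  refine { meas := cutf_meas hu, bdd := ?_, out := ⟨r, fun z hz => ?_⟩ }
  · obtain ⟨B, hB⟩ := hu.bdd
    refine ⟨1 + (B + 1), fun z => ?_⟩
    rw [Pool.Agent.W327.CC.cutf_eq]
    have h1 := abs_add_le 1 (chi r z * (u z - 1))
    rw [abs_one, abs_mul, abs_of_nonneg (chi_nonneg z)] at h1
    have h2 := abs_sub (u z) 1
    rw [abs_one] at h2
    have h3 := hB z
    have h4 : chi r z * |u z - 1| ≤ 1 * |u z - 1| :=
      mul_le_mul_of_nonneg_right (chi_le_one z) (abs_nonneg _)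
    linarith
  · rw [Pool.Agent.W327.CC.cutf_eq, chi_zero hr hz]
    ring

/-- an admissible function with finite energy -/
theorem adm_fin (μ R₀ : ℝ) {v : ℝ → ℝ≥0∞} (hv : Measurable v)
    (hvt : ∫⁻ z in {z : Fin n → ℝ | R₀ < el z}, v (el z) ≠ ⊤) :
    ∃ f : (Fin n → ℝ) → ℝ, Adm f ∧ QD μ v Set.univ f ≠ ⊤ := by
  obtain ⟨r, hrd⟩ : ∃ r : ℝ, r = max 1 (2 * R₀) := ⟨_, rfl⟩
  have hr : 0 < r := lt_of_lt_of_le one_pos (by rw [hrd]; exact le_max_left _ _)
  have hR : 2 * R₀ ≤ r := by rw [hrd]; exact le_max_right _ _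
  have hu : BM (fun _ : Fin n → ℝ => (0 : ℝ)) := ⟨measurable_const, 0, fun z => by simp⟩
  refine ⟨cutf r fun _ => 0, cutf_adm hr hu, ?_⟩
  have h1 := gr_cut hr hu
  have h2 := pot2 hr hR hv (fun _ : Fin n → ℝ => (0 : ℝ))
  have h3 : JJ r (fun _ : Fin n → ℝ => (0 : ℝ)) ≠ ⊤ := by
    unfold JJ
    simp only [zero_sub, even_two, Even.neg_pow, one_pow, ENNReal.ofReal_one,
      lintegral_const, one_mul, Measure.restrict_apply_univ, vol_cube hr.le]
    exact ENNReal.ofReal_ne_top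
  have h4 : gr (cube n r) (fun _ : Fin n → ℝ => (0 : ℝ)) = 0 := by
    unfold gr gk
    simp
  rw [h4, mul_zero, zero_add] at h1
  have h5 : gr Set.univ (cutf r fun _ : Fin n → ℝ => (0 : ℝ)) ≠ ⊤ := by
    refine ne_top_of_le_ne_top ?_ h1
    exact ENNReal.mul_ne_top (ENNReal.natCast_ne_top n)
      (ENNReal.mul_ne_top ENNReal.ofReal_ne_top h3)
  have h6 : ∫⁻ z : Fin n → ℝ, v (el z) * ENNReal.ofReal (cutf r (fun _ => 0) z ^ 2) ≠ ⊤ := by
    refine ne_top_of_le_ne_top ?_ h2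
    rw [vo_int]
    refine ENNReal.add_ne_top.2 ⟨?_, hvt⟩
    simp
  unfold QD
  rw [Measure.restrict_univ]
  exact ENNReal.add_ne_top.2 ⟨ENNReal.mul_ne_top ENNReal.ofReal_ne_top h5,
    ENNReal.mul_ne_top (by simp) h6⟩

/-- the energy of a cut off -/
theorem cutH (hP : S_POIC) (μ R₀ : ℝ) (v : ℝ → ℝ≥0∞) (hn : 1 ≤ n) (hv : Measurable v)
    (hvt : ∫⁻ z in {z : Fin n → ℝ | R₀ < el z}, v (el z) ≠ ⊤) :
    ∃ C : ℝ, 0 ≤ C ∧ ∀ r : ℝ, 1 ≤ r → 2 * R₀ ≤ r →
    ∀ u : (Fin n → ℝ) → ℝ, BM u → ∫ z in cube n r, u z = (2 * r) ^ n →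
      Adm (cutf r u) ∧ QD μ v Set.univ (cutf r u) ≤ ENNReal.ofReal C * (1 + QD μ v (cube n r) u) := by
  obtain ⟨A, hA, hPA⟩ := hP n hn
  set Vt : ℝ≥0∞ := 2⁻¹ * ∫⁻ z : Fin n → ℝ, vo R₀ v (el z) with hVt
  have hVfin : Vt ≠ ⊤ := by
    rw [hVt, vo_int]
    exact ENNReal.mul_ne_top (by simp) hvt
  refine ⟨2 + 16 * n * A + Vt.toReal, by positivity, ?_⟩
  intro r hr1 hR u hu hint
  have hr : 0 < r := by linarith
  refine ⟨cutf_adm hr hu, ?_⟩
  have h1 := gr_cut hr hu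
  have h2 := JJ_le hr hu hint
  have h3 := hPA r hr u hu
  -- bound for JJ
  have hJ : ENNReal.ofReal (16 / r ^ 2) * JJ r u ≤ ENNReal.ofReal (16 * A) * gr (cube n r) u := by
    have h4 : ENNReal.ofReal (16 / r ^ 2) =
        ENNReal.ofReal (16 / r ^ 2 / (2 * r) ^ n) * ENNReal.ofReal ((2 * r) ^ n) := by
      rw [← ENNReal.ofReal_mul (by positivity)]
      congr 1
      field_simp
    rw [h4, mul_assoc]
    calc ENNReal.ofReal (16 / r ^ 2 / (2 * r) ^ n) * (ENNReal.ofReal ((2 * r) ^ n) * JJ r u) ≤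
        ENNReal.ofReal (16 / r ^ 2 / (2 * r) ^ n) *
          (ENNReal.ofReal (A * r ^ (n + 2)) * gr (cube n r) u) :=
          mul_le_mul_right (h2.trans h3) _
      _ = ENNReal.ofReal (16 / r ^ 2 / (2 * r) ^ n * (A * r ^ (n + 2))) * gr (cube n r) u := by
          rw [← mul_assoc, ← ENNReal.ofReal_mul (by positivity)]
      _ ≤ ENNReal.ofReal (16 * A) * gr (cube n r) u := by
          apply mul_le_mul_left
          apply ENNReal.ofReal_le_ofReal
          have h5 : 16 / r ^ 2 / (2 * r) ^ n * (A * r ^ (n + 2)) = 16 * A / 2 ^ n := by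
            rw [mul_pow, pow_add]
            field_simp
          rw [h5]
          exact div_le_self (by positivity) (one_le_pow₀ (by norm_num))
  have h6 : gr Set.univ (cutf r u) ≤ ENNReal.ofReal (2 + 16 * n * A) * gr (cube n r) u := by
    refine h1.trans ?_
    calc 2 * gr (cube n r) u + n * (ENNReal.ofReal (16 / r ^ 2) * JJ r u) ≤
        2 * gr (cube n r) u + n * (ENNReal.ofReal (16 * A) * gr (cube n r) u) := by gcongr
      _ = ENNReal.ofReal (2 + 16 * n * A) * gr (cube n r) u := by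
          rw [ENNReal.ofReal_add (by norm_num) (by positivity), add_mul]
          congr 1
          · simp
          · rw [← mul_assoc]
            congr 1
            rw [show 16 * (n : ℝ) * A = n * (16 * A) by ring,
              ENNReal.ofReal_mul (Nat.cast_nonneg n), ENNReal.ofReal_natCast]
  have h7 := pot2 hr hR hv u
  unfold QD
  rw [Measure.restrict_univ]
  set C₀ : ℝ := 2 + 16 * n * A with hC₀
  have hC₀1 : 1 ≤ C₀ := by
    have : 0 ≤ 16 * (n : ℝ) * A := by positivity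
    linarith
  have hVr : Vt = ENNReal.ofReal Vt.toReal := (ENNReal.ofReal_toReal hVfin).symm
  have hCle : ENNReal.ofReal C₀ ≤ ENNReal.ofReal (C₀ + Vt.toReal) :=
    ENNReal.ofReal_le_ofReal (by linarith [ENNReal.toReal_nonneg (a := Vt)])
  have hVle : Vt ≤ ENNReal.ofReal (C₀ + Vt.toReal) := by
    rw [hVr]
    apply ENNReal.ofReal_le_ofReal
    rw [ENNReal.toReal_ofReal ENNReal.toReal_nonneg]
    linarith
  have hone : (1 : ℝ≥0∞) ≤ ENNReal.ofReal (C₀ + Vt.toReal) := by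
    rw [← ENNReal.ofReal_one]
    apply ENNReal.ofReal_le_ofReal
    linarith [ENNReal.toReal_nonneg (a := Vt)]
  calc ENNReal.ofReal μ * gr Set.univ (cutf r u) +
        2⁻¹ * ∫⁻ z, v (el z) * ENNReal.ofReal (cutf r u z ^ 2) ≤
      ENNReal.ofReal μ * (ENNReal.ofReal C₀ * gr (cube n r) u) +
        2⁻¹ * ((∫⁻ z in cube n r, v (el z) * ENNReal.ofReal (u z ^ 2)) +
          ∫⁻ z : Fin n → ℝ, vo R₀ v (el z)) := by gcongr
    _ = ENNReal.ofReal C₀ * (ENNReal.ofReal μ * gr (cube n r) u) +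
        (1 * (2⁻¹ * ∫⁻ z in cube n r, v (el z) * ENNReal.ofReal (u z ^ 2)) + Vt * 1) := by
        rw [hVt]
        ring
    _ ≤ ENNReal.ofReal (C₀ + Vt.toReal) * (ENNReal.ofReal μ * gr (cube n r) u) +
        (ENNReal.ofReal (C₀ + Vt.toReal) *
          (2⁻¹ * ∫⁻ z in cube n r, v (el z) * ENNReal.ofReal (u z ^ 2)) +
          ENNReal.ofReal (C₀ + Vt.toReal) * 1) := by gcongr
    _ = _ := by ring

/-- the tail of the potential -/
lemma tailH {R₀ : ℝ} {v : ℝ → ℝ≥0∞} (hv : Measurable v)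
    (hvt : ∫⁻ z in {z : Fin n → ℝ | R₀ < el z}, v (el z) ≠ ⊤)
    {δ : ℝ} (hδ : 0 < δ) : ∃ R : ℝ, ∀ r : ℝ, R ≤ r →
      ∫⁻ z in (cube n r)ᶜ, v (el z) ≤ ENNReal.ofReal δ := by
  rw [← vo_int] at hvt
  obtain ⟨R, hR⟩ := tail_small (vo_meas (R₀ := R₀) hv) hvt hδ
  refine ⟨max R R₀, fun r hr => ?_⟩
  refine le_trans (le_of_eq ?_) (hR r ((le_max_left _ _).trans hr))
  apply setLIntegral_congr_fun (cube_meas _).compl
  intro z hz
  exact (vo_eq ((le_max_right _ _).trans hr) v hz).symm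

lemma scat_fin {μ R₀ : ℝ} {v : ℝ → ℝ≥0∞} (hv : Measurable v)
    (hvt : ∫⁻ z in {z : Fin n → ℝ | R₀ < el z}, v (el z) ≠ ⊤) :
    (⨅ f ∈ {f : (Fin n → ℝ) → ℝ | Adm f}, QD μ v Set.univ f) ≠ ⊤ := by
  obtain ⟨f, hf, hft⟩ := adm_fin (n := n) μ R₀ hv hvt
  exact ne_top_of_le_ne_top hft (iInf₂_le f hf)

/-- good trial functions -/
theorem symH (hKQ : S_KQ) (μ R₀ : ℝ) (v : ℝ → ℝ≥0∞) (hv : Measurable v)
    (hvt : ∫⁻ z in {z : Fin n → ℝ | R₀ < el z}, v (el z) ≠ ⊤) (κ : ℝ) (hκ : 0 < κ) :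
    ∃ (f : (Fin n → ℝ) → ℝ) (a : ℝ),
    Measurable f ∧ (∀ z, f (-z) = f z) ∧ (∀ z, 0 ≤ f z ∧ f z ≤ 1) ∧ 1 ≤ a ∧
    (∀ z, z ∉ cube n a → f z = 1) ∧ QD μ v Set.univ f ≤ ENNReal.ofReal (scat n μ v / 2 + κ) := by
  obtain ⟨m, hm⟩ : ∃ m, m = ⨅ f ∈ {f : (Fin n → ℝ) → ℝ | Adm f}, QD μ v Set.univ f := ⟨_, rfl⟩
  have hmtop : m ≠ ⊤ := by
    rw [hm]
    exact scat_fin hv hvt
  have hscat : ENNReal.ofReal (scat n μ v / 2 + κ) = m + ENNReal.ofReal κ := by
    unfold scat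
    rw [← hm, mul_div_cancel_left₀ _ (two_ne_zero), ENNReal.ofReal_add ENNReal.toReal_nonneg hκ.le,
      ENNReal.ofReal_toReal hmtop]
  have hlt : m < m + ENNReal.ofReal κ :=
    ENNReal.lt_add_right hmtop (by simpa using hκ)
  obtain ⟨f0, hf0, hf0lt⟩ : ∃ f0 : (Fin n → ℝ) → ℝ, Adm f0 ∧
      QD μ v Set.univ f0 < m + ENNReal.ofReal κ := by
    have h1 := hlt
    conv_lhs at h1 => rw [hm]
    rw [iInf_lt_iff] at h1
    obtain ⟨f0, h2⟩ := h1
    rw [iInf_lt_iff] at h2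
    obtain ⟨h3, h4⟩ := h2
    exact ⟨f0, h3, h4⟩
  open Pool.Agent.W377.CC in
  obtain ⟨a0, ha0⟩ := hf0.out
  have hf1m : Measurable (fun z => Pool.Agent.W377.CC.cut (f0 z)) :=
    Pool.Agent.W377.CC.cut_meas.comp hf0.meas
  have hf1B : BM (fun z : Fin n → ℝ => Pool.Agent.W377.CC.cut (f0 z)) :=
    ⟨hf1m, 1, fun z => abs_le.2 ⟨by linarith [Pool.Agent.W377.CC.cut_nonneg (f0 z)],
      Pool.Agent.W377.CC.cut_le _⟩⟩
  have hf1nB : BM (fun z : Fin n → ℝ => Pool.Agent.W377.CC.cut (f0 (-z))) :=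
    ⟨hf1m.comp measurable_neg, 1, fun z => abs_le.2 ⟨by
      linarith [Pool.Agent.W377.CC.cut_nonneg (f0 (-z))], Pool.Agent.W377.CC.cut_le _⟩⟩
  have hQ1 : QD μ v Set.univ (fun z => Pool.Agent.W377.CC.cut (f0 z)) ≤ QD μ v Set.univ f0 := by
    apply Pool.Agent.W377.CC.QD_mono
    · intro z w
      exact Pool.Agent.W377.CC.cut_sub _ _
    · intro z
      have h1 := Pool.Agent.W377.CC.cut_sub (f0 z) 0
      rwa [Pool.Agent.W377.CC.cut_zero, sub_zero, sub_zero] at h1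
  have hQ2 := (hKQ n Set.univ (Or.inl rfl)).2.1 μ (1 / 2) v _ _ hv hf1B hf1nB (by norm_num)
    (by norm_num)
  have hneg : QD μ v Set.univ (fun z : Fin n → ℝ => Pool.Agent.W377.CC.cut (f0 (-z))) =
      QD μ v Set.univ (fun z => Pool.Agent.W377.CC.cut (f0 z)) :=
    Pool.Agent.W377.CC.QD_neg μ v (fun z => Pool.Agent.W377.CC.cut (f0 z))
  refine ⟨fun z => (1 - 1 / 2) * Pool.Agent.W377.CC.cut (f0 z) +
    1 / 2 * Pool.Agent.W377.CC.cut (f0 (-z)), max 1 a0, ?_, ?_, ?_, le_max_left _ _, ?_, ?_⟩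
  · exact (hf1m.const_mul _).add ((hf1m.comp measurable_neg).const_mul _)
  · intro z
    simp only [neg_neg]
    ring
  · intro z
    have h1 := Pool.Agent.W377.CC.cut_nonneg (f0 z)
    have h2 := Pool.Agent.W377.CC.cut_nonneg (f0 (-z))
    have h3 := Pool.Agent.W377.CC.cut_le (f0 z)
    have h4 := Pool.Agent.W377.CC.cut_le (f0 (-z))
    constructor <;> linarith
  · intro z hz
    have h1 : z ∉ cube n a0 := fun h => hz fun c => (h c).trans (le_max_right _ _)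
    have h2 : -z ∉ cube n a0 := fun h => hz fun c => by
      have := h c
      rw [Pi.neg_apply, abs_neg] at this
      exact this.trans (le_max_right _ _)
    simp only
    rw [ha0 z h1, ha0 _ h2, Pool.Agent.W377.CC.cut_one]
    norm_num
  · rw [hscat]
    refine le_trans ?_ (hQ1.trans hf0lt.le)
    calc QD μ v Set.univ (fun z => (1 - 1 / 2) * Pool.Agent.W377.CC.cut (f0 z) +
          1 / 2 * Pool.Agent.W377.CC.cut (f0 (-z)))
        ≤ _ := le_self_add
      _ = _ := hQ2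
      _ = QD μ v Set.univ (fun z => Pool.Agent.W377.CC.cut (f0 z)) := by
        rw [hneg, ← add_mul, ← ENNReal.ofReal_add (by norm_num) (by norm_num)]
        norm_num

/-- the bounded part of the potential -/
def vb (k : ℕ) (v : ℝ → ℝ≥0∞) (r : ℝ) : ℝ≥0∞ := if r ≤ k then min (v r) 1 else 0

lemma vb_le (k : ℕ) (v : ℝ → ℝ≥0∞) (r : ℝ) : vb k v r ≤ v r := by
  unfold vb
  split_ifs
  · exact min_le_left _ _
  · exact zero_le

lemma vb_meas (k : ℕ) {v : ℝ → ℝ≥0∞} (hv : Measurable v) : Measurable (vb k v) :=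
  Measurable.ite measurableSet_Iic (hv.min measurable_const) measurable_const

/-- the scattering constant is positive -/
theorem gposH (μ R₀ : ℝ) (v : ℝ → ℝ≥0∞) (hn : 3 ≤ n) (hμ : 0 < μ) (hv : Measurable v)
    (hv0 : ∫⁻ z : Fin n → ℝ, v (el z) ≠ 0)
    (hvt : ∫⁻ z in {z : Fin n → ℝ | R₀ < el z}, v (el z) ≠ ⊤) : 0 < scat n μ v := by
  obtain ⟨k, hk⟩ : ∃ k : ℕ, ∫⁻ z : Fin n → ℝ, vb k v (el z) ≠ 0 := by
    by_contra hcon
    push Not at hcon
    apply hv0
    have hvm : Measurable fun z : Fin n → ℝ => v (el z) := hv.comp el_meas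
    rw [lintegral_eq_zero_iff hvm]
    have h1 : ∀ k : ℕ, ∀ᵐ z : Fin n → ℝ, vb k v (el z) = 0 := by
      intro k
      have hvm : Measurable fun z : Fin n → ℝ => vb k v (el z) := (vb_meas k hv).comp el_meas
      have h2 := (lintegral_eq_zero_iff hvm).1 (hcon k)
      filter_upwards [h2] with z hz
      exact hz
    rw [← ae_all_iff] at h1
    filter_upwards [h1] with z hz
    obtain ⟨k, hk⟩ := exists_nat_ge (el z)
    have h3 := hz k
    unfold vb at h3
    rw [if_pos hk] at h3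
    rcases min_choice (v (el z)) 1 with h4 | h4
    · rw [h4] at h3
      exact h3
    · rw [h4] at h3
      exact absurd h3 one_ne_zero
  have hfin : ∫⁻ z : Fin n → ℝ, vb k v (el z) ≠ ⊤ := by
    have h1 : ∫⁻ z : Fin n → ℝ, vb k v (el z) ≤ ∫⁻ z : Fin n → ℝ, (cube n k).indicator 1 z := by
      refine lintegral_mono fun z => ?_
      unfold vb
      split_ifs with h
      · have hz : z ∈ cube n k := fun c => (el_ge z c).trans h
        rw [Set.indicator_of_mem hz]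
        exact min_le_right _ _
      · exact zero_le
    refine ne_top_of_le_ne_top ?_ h1
    rw [lintegral_indicator_one (cube_meas _), vol_cube (Nat.cast_nonneg k)]
    exact ENNReal.ofReal_ne_top
  have h1 := Pool.Agent.W883.CC.gpos n μ (vb k v) hn hμ (vb_meas k hv) hk hfin
  refine lt_of_lt_of_le h1 ?_
  unfold scat
  refine mul_le_mul_of_nonneg_left ?_ zero_le_two
  refine ENNReal.toReal_mono (scat_fin hv hvt) ?_
  refine iInf₂_mono fun f _ => ?_
  unfold QD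
  gcongr
  exact vb_le k v _

end

end Pool.Agent.Y656
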