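import Pool.Agent.Y656.LowV
import Pool.Agent.Y656.Add4
import Pool.Agent.Y656.ScatH

/-!
# The cut-off function for a hard core
-/

set_option autoImplicit false
set_option linter.unusedSectionVars false

open MeasureTheory
open scoped ENNReal

namespace Pool.Agent.Y656

open Pool.Agent.W761.CB

noncomputable section

variable {n : ℕ} {L : ℝ} [Fact (0 < L)]

/-- the cut-off function -/
def s1 (n : ℕ) (L : ℝ) [Fact (0 < L)] (R : ℝ) (z : Tor n L) : ℝ := sa R z 0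

lemma s1_Pf (R : ℝ) : Pf (s1 n L R) where
  meas := (sa_meas R).comp (f := fun z : Tor n L => (z, (0 : Tor n L))) (measurable_id.prodMk measurable_const)
  nonneg := fun z => sa_nonneg _ _ _
  le_one := fun z => sa_le _ _ _
  even := fun z => by
    unfold s1 sa
    rw [sub_zero, sub_zero, norm_neg]

lemma gM_s1 (hTF : S_TF) {R : ℝ} (hR : 1 ≤ R) (h : Tor n L) :
    gM (s1 n L R) h ≤ ENNReal.ofReal (mm n R ‖h‖) := int_D1 hTF hR h 0

lemma gv_s1 {R : ℝ} (hR : 0 < R) : gv (s1 n L R) ≤ ENNReal.ofReal ((4 * R) ^ n) := by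
  unfold gv
  have h1 : ∀ z : Tor n L, ENNReal.ofReal (1 - s1 n L R z ^ 2) ≤
      (nb R (0 : Tor n L)).indicator (fun _ => (1 : ℝ≥0∞)) z := by
    intro z
    by_cases h : z ∈ nb R (0 : Tor n L)
    · rw [Set.indicator_of_mem h, ← ENNReal.ofReal_one]
      refine ENNReal.ofReal_le_ofReal ?_
      have := sq_nonneg (s1 n L R z)
      linarith
    · rw [Set.indicator_of_notMem h]
      have h2 : s1 n L R z = 1 := sa_one hR (not_lt.1 h)
      rw [h2]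
      simp
  refine (lintegral_mono h1).trans ?_
  rw [lintegral_indicator_const (nb_meas R _), one_mul]
  exact nb_vol hR _

lemma gK_s1 (hTF : S_TF) {R : ℝ} (hR : 1 ≤ R) :
    gK (s1 n L R) ≤ n * ENNReal.ofReal (8 * (4 * R) ^ n) := by
  have hR0 : 0 ≤ R := by linarith
  unfold gK
  have h1 : ∀ c : Fin n, (⨆ k : ℕ, 4 ^ k * gM (s1 n L R) (ec L c ((2 : ℝ)⁻¹ ^ k))) ≤
      ENNReal.ofReal (8 * (4 * R) ^ n) := by
    intro c
    refine iSup_le fun k => ?_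
    refine (mul_le_mul' le_rfl (gM_s1 hTF hR _)).trans ?_
    have e4 : (4 : ℝ≥0∞) ^ k = ENNReal.ofReal (4 ^ k) := by
      rw [ENNReal.ofReal_pow (by norm_num)]
      norm_num
    rw [e4, ← ENNReal.ofReal_mul (by positivity)]
    refine ENNReal.ofReal_le_ofReal ?_
    have h5 : mm n R ‖ec L c ((2 : ℝ)⁻¹ ^ k)‖ ≤ 8 * (4 * R) ^ n * ((2 : ℝ)⁻¹ ^ k) ^ 2 := by
      refine (mm_mono hR0 (norm_nonneg _) (ec_norm c _)).trans ?_
      unfold mm
      rw [sq_abs]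
      gcongr
      exact min_le_right _ _
    have h6 : (4 : ℝ) ^ k * ((2 : ℝ)⁻¹ ^ k) ^ 2 = 1 := by
      rw [← pow_mul, mul_comm k 2, pow_mul, ← mul_pow]
      norm_num
    calc (4 : ℝ) ^ k * (mm n R ‖ec L c ((2 : ℝ)⁻¹ ^ k)‖)
        ≤ 4 ^ k * (8 * (4 * R) ^ n * ((2 : ℝ)⁻¹ ^ k) ^ 2) := by gcongr
      _ = 8 * (4 * R) ^ n * (4 ^ k * ((2 : ℝ)⁻¹ ^ k) ^ 2) := by ring
      _ = _ := by rw [h6, mul_one]
  refine (Finset.sum_le_sum fun c _ => h1 c).trans ?_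
  rw [Finset.sum_const, Finset.card_univ, Fintype.card_fin, nsmul_eq_mul]

lemma gH_s1 (hTF : S_TF) {R : ℝ} (hR : 1 ≤ R) (K : (Fin n → ℝ) → ℝ≥0∞) :
    gH K (s1 n L R) ≤ ENNReal.ofReal (8 * (4 * R) ^ n) *
      ∫⁻ z, K z * ENNReal.ofReal (min 1 (el z ^ 2)) := by
  have hR0 : 0 ≤ R := by linarith
  unfold gH
  have h1 : ∀ z : Fin n → ℝ, K z * gM (s1 n L R) (pr L z) ≤
      ENNReal.ofReal (8 * (4 * R) ^ n) * (K z * ENNReal.ofReal (min 1 (el z ^ 2))) := by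
    intro z
    rw [mul_left_comm]
    refine mul_le_mul' le_rfl ((gM_s1 hTF hR _).trans ?_)
    rw [← ENNReal.ofReal_mul (by positivity)]
    exact ENNReal.ofReal_le_ofReal (mm_mono hR0 (norm_nonneg _) (pr_norm (L := L) z))
  calc 2⁻¹ * ∫⁻ z, K z * gM (s1 n L R) (pr L z)
      ≤ 1 * ∫⁻ z, K z * gM (s1 n L R) (pr L z) := by
        gcongr
        exact ENNReal.inv_le_one.2 (by norm_num)
    _ ≤ ∫⁻ z, ENNReal.ofReal (8 * (4 * R) ^ n) * (K z * ENNReal.ofReal (min 1 (el z ^ 2))) := by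
        rw [one_mul]
        exact lintegral_mono h1
    _ = _ := lintegral_const_mul' _ _ ENNReal.ofReal_ne_top

lemma norm_le_tdist (x y : Tor n L) : ‖x - y‖ ≤ tdist x y := by
  unfold tdist
  rw [pi_norm_le_iff_of_nonneg (Real.sqrt_nonneg _)]
  intro d
  apply Real.le_sqrt_of_sq_le
  exact Finset.single_le_sum (f := fun c => ‖x c - y c‖ ^ 2) (fun c _ => sq_nonneg _)
    (Finset.mem_univ d)

lemma gW_s1 (hTF : S_TF) {R R₀ : ℝ} (hR : 0 < R) (hRR : R₀ ≤ R) {v : ℝ → ℝ≥0∞}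
    (hv : Measurable v) : gW v (s1 n L R) ≤ ∫⁻ z : Fin n → ℝ, vo R₀ v (el z) := by
  unfold gW
  refine le_trans ?_ (((hTF n L).2.2.2.2.2.2.2 (vo R₀ v) (vo_meas hv)).2 0)
  refine lintegral_mono fun z => ?_
  rw [tdist_symm 0 z]
  rcases le_or_gt (tdist z 0) R₀ with h | h
  · have h1 : s1 n L R z = 0 := sa_zero hR (((norm_le_tdist z 0).trans h).trans hRR)
    rw [h1]
    simp
  · have h2 : vo R₀ v (tdist z 0) = v (tdist z 0) := by
      unfold vo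
      rw [if_pos h]
    rw [h2]
    refine mul_le_of_le_one_right' ?_
    rw [ENNReal.ofReal_le_one]
    exact pow_le_one₀ (sa_nonneg _ _ _) (sa_le _ _ _)

/-- the energy of one more particle -/
theorem gEv_s1 (hTF : S_TF) {R R₀ : ℝ} (hR : 1 ≤ R) (hRR : R₀ ≤ R) {v : ℝ → ℝ≥0∞}
    (hv : Measurable v) (μ : ℝ≥0∞) (K : (Fin n → ℝ) → ℝ≥0∞) :
    gEv μ K v (s1 n L R) ≤ ENNReal.ofReal (16 * (4 * R) ^ n) *
      (n * μ + ∫⁻ z, K z * ENNReal.ofReal (min 1 (el z ^ 2))) +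
      ∫⁻ z : Fin n → ℝ, vo R₀ v (el z) := by
  unfold gEv gE
  refine add_le_add ?_ (gW_s1 hTF (by linarith) hRR hv)
  have h1 := mul_le_mul' (le_refl μ) (gK_s1 (n := n) (L := L) hTF hR)
  have h2 := gH_s1 (L := L) hTF hR K
  refine (mul_le_mul' le_rfl (add_le_add h1 h2)).trans (le_of_eq ?_)
  have e2 : ENNReal.ofReal (16 * (4 * R) ^ n) = 2 * ENNReal.ofReal (8 * (4 * R) ^ n) := by
    rw [show (2 : ℝ≥0∞) = ENNReal.ofReal 2 by norm_num, ← ENNReal.ofReal_mul (by norm_num)]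
    congr 1
    ring
  rw [e2]
  ring

end

end Pool.Agent.Y656
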