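import Pool.Agent.Y656.LowV
import Pool.Agent.Y656.Step3
import Pool.Agent.Y656.Upt2

/-!
# The energy of `N` particles from a vector with a random number of particles
-/

set_option autoImplicit false
set_option linter.unusedSectionVars false

open MeasureTheory
open scoped ENNReal

namespace Pool.Agent.Y656

open Pool.Agent.W761.CB Pool.Agent.TH268.CC
open Pool.Agent.W741.CB (ebc)

noncomputable section

section
variable {X : Type} [MeasurableSpace X] {ν : Measure X} [IsFiniteMeasure ν]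

/-- the pairs of particles -/
lemma pairs_eq {F : Multiset X → ℂ} (hF : EB F) :
    ∫⁻ γ, ((Multiset.card (ms γ) : ℕ) : ℝ≥0∞) * (((Multiset.card (ms γ) - 1 : ℕ) : ℝ≥0∞) *
      ‖F (ms γ)‖ₑ ^ 2) ∂(lam ν) = ∫⁻ x, ∫⁻ y, nE ν (an y (an x F)) ∂ν ∂ν := by
  have hM := Pool.Agent.W975.CB.proof_ms
  have hL := Pool.Agent.W366.CB.proof_lam hM
  have hc : Measurable fun γ : Cf X => ((Multiset.card (ms γ) - 1 : ℕ) : ℝ≥0∞) :=
    (measurable_from_top (f := fun k : ℕ => ((k - 1 : ℕ) : ℝ≥0∞))).comp meas_card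
  have hm : Measurable fun p : X × Cf X => ((Multiset.card (ms p.2) - 1 : ℕ) : ℝ≥0∞) *
      ‖F (ms p.2)‖ₑ ^ 2 :=
    (hc.comp measurable_snd).mul ((hF.meas.comp measurable_snd).enorm.pow_const 2)
  have h := Pool.Agent.W337.CB.proof_mecke hM hL X ν
    (fun _ S => ((Multiset.card S - 1 : ℕ) : ℝ≥0∞) * ‖F S‖ₑ ^ 2) hm
  have e1 : ∫⁻ γ, ((Multiset.card (ms γ) : ℕ) : ℝ≥0∞) *
      (((Multiset.card (ms γ) - 1 : ℕ) : ℝ≥0∞) * ‖F (ms γ)‖ₑ ^ 2) ∂(lam ν) =
      ∫⁻ γ, ((ms γ).map fun _ => ((Multiset.card (ms γ) - 1 : ℕ) : ℝ≥0∞) *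
        ‖F (ms γ)‖ₑ ^ 2).sum ∂(lam ν) := by
    refine lintegral_congr fun γ => ?_
    simp
  rw [e1, h]
  refine lintegral_congr fun x => ?_
  have hx : EB (an x F) := (ebc X ν F F hF hF).1 x
  have h2 := nuE_eq (ν := ν) hx
  unfold nuE at h2
  rw [h2]
  refine lintegral_congr fun γ => ?_
  unfold an
  rw [Multiset.card_cons, Nat.add_sub_cancel]

lemma pt_card (N k : ℕ) {t : ℝ} (ht : 0 < t) (hN : 0 < N) :
    ((N - k : ℕ) : ℝ≥0∞) + ENNReal.ofReal (1 / t) * (k : ℝ≥0∞) ≤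
      ENNReal.ofReal (t * N / 2 + N / (2 * t)) +
        ENNReal.ofReal (1 / (2 * t * N)) * ((k : ℝ≥0∞) * ((k - 1 : ℕ) : ℝ≥0∞) + k) := by
  have hN0 : (0 : ℝ) < N := by exact_mod_cast hN
  have e1 : (k : ℝ≥0∞) * ((k - 1 : ℕ) : ℝ≥0∞) + k = ENNReal.ofReal ((k : ℝ) ^ 2) := by
    have : k * (k - 1) + k = k ^ 2 := by
      rcases k with _ | k
      · rfl
      · rw [Nat.add_sub_cancel]
        ring
    rw [← Nat.cast_mul, ← Nat.cast_add, this, Nat.cast_pow, ENNReal.ofReal_pow (Nat.cast_nonneg k),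
      ENNReal.ofReal_natCast]
  rw [e1, ← ENNReal.ofReal_natCast (N - k), ← ENNReal.ofReal_natCast k,
    ← ENNReal.ofReal_mul (by positivity), ← ENNReal.ofReal_mul (by positivity),
    ← ENNReal.ofReal_add (by positivity) (by positivity),
    ← ENNReal.ofReal_add (by positivity) (by positivity)]
  refine ENNReal.ofReal_le_ofReal ?_
  have hk0 : (0 : ℝ) ≤ k := Nat.cast_nonneg k
  have h1 : ((N - k : ℕ) : ℝ) ≤ |(N : ℝ) - k| := by
    rcases le_or_gt k N with h | h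
    · rw [Nat.cast_sub h]
      exact le_abs_self _
    · rw [Nat.sub_eq_zero_of_le h.le]
      simp
  have h2 : |(N : ℝ) - k| ≤ t * N / 2 + ((N : ℝ) - k) ^ 2 / (2 * t * N) := by
    have h3 : 0 ≤ (t * N - |(N : ℝ) - k|) ^ 2 / (2 * t * N) := by positivity
    have h4 : (t * N - |(N : ℝ) - k|) ^ 2 / (2 * t * N) =
        t * N / 2 - |(N : ℝ) - k| + |(N : ℝ) - k| ^ 2 / (2 * t * N) := by
      field_simp
      ring
    rw [h4, sq_abs] at h3
    linarith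
  have h5 : ((N : ℝ) - k) ^ 2 / (2 * t * N) = N / (2 * t) - 1 / t * k + 1 / (2 * t * N) * k ^ 2 := by
    field_simp
    ring
  rw [h5] at h2
  linarith

/-- the number of missing particles of a vector whose number of particles is concentrated -/
theorem dm_up {φ : Multiset X → ℂ} (hφ : EB φ) (h1 : nE ν φ = 1) {N : ℕ} (hN : 0 < N) {t a : ℝ}
    (ht : 0 < t) (ha0 : 0 ≤ a) (ha : ENNReal.ofReal a ≤ nuE ν φ) (hb : nuE ν φ ≤ (N : ℝ≥0∞))
    (h2 : ∫⁻ x, ∫⁻ y, nE ν (an y (an x φ)) ∂ν ∂ν ≤ (N : ℝ≥0∞) ^ 2) :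
    dm ν N φ ≤ ENNReal.ofReal (t * N / 2 + (N - a) / t + 1 / (2 * t)) := by
  have hN0 : (0 : ℝ) < N := by exact_mod_cast hN
  have hc : Measurable fun γ : Cf X => ((Multiset.card (ms γ) : ℕ) : ℝ≥0∞) :=
    (measurable_from_top (f := fun k : ℕ => (k : ℝ≥0∞))).comp meas_card
  have hc1 : Measurable fun γ : Cf X => ((Multiset.card (ms γ) - 1 : ℕ) : ℝ≥0∞) :=
    (measurable_from_top (f := fun k : ℕ => ((k - 1 : ℕ) : ℝ≥0∞))).comp meas_card
  have hn : Measurable fun γ : Cf X => ‖φ (ms γ)‖ₑ ^ 2 := hφ.meas.enorm.pow_const 2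
  have m1 : Measurable fun γ : Cf X =>
      ((Multiset.card (ms γ) : ℕ) : ℝ≥0∞) * ‖φ (ms γ)‖ₑ ^ 2 := hc.mul hn
  have m2 : Measurable fun γ : Cf X => ((Multiset.card (ms γ) : ℕ) : ℝ≥0∞) *
      (((Multiset.card (ms γ) - 1 : ℕ) : ℝ≥0∞) * ‖φ (ms γ)‖ₑ ^ 2) := hc.mul (hc1.mul hn)
  have key : dm ν N φ + ENNReal.ofReal (1 / t) * nuE ν φ ≤
      ENNReal.ofReal (t * N / 2 + N / (2 * t)) * nE ν φ +
        ENNReal.ofReal (1 / (2 * t * N)) *
          (∫⁻ x, ∫⁻ y, nE ν (an y (an x φ)) ∂ν ∂ν + nuE ν φ) := by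
    have m12 : Measurable fun γ : Cf X => ((Multiset.card (ms γ) : ℕ) : ℝ≥0∞) *
        (((Multiset.card (ms γ) - 1 : ℕ) : ℝ≥0∞) * ‖φ (ms γ)‖ₑ ^ 2) +
        ((Multiset.card (ms γ) : ℕ) : ℝ≥0∞) * ‖φ (ms γ)‖ₑ ^ 2 := m2.add m1
    rw [← pairs_eq hφ, nuE_eq hφ]
    unfold dm nE
    rw [← lintegral_const_mul _ m1, ← lintegral_add_right _ (m1.const_mul _),
      ← lintegral_const_mul _ hn, ← lintegral_add_left m2, ← lintegral_const_mul _ m12,
      ← lintegral_add_left (hn.const_mul _)]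
    refine lintegral_mono fun γ => ?_
    dsimp only
    have h3 := mul_le_mul' (pt_card N (Multiset.card (ms γ)) ht hN) (le_refl (‖φ (ms γ)‖ₑ ^ 2))
    refine le_trans (le_of_eq ?_) (h3.trans (le_of_eq ?_))
    · ring
    · ring
  rw [h1, mul_one] at key
  have hnat : (N : ℝ≥0∞) = ENNReal.ofReal N := (ENNReal.ofReal_natCast N).symm
  have k1 : dm ν N φ + ENNReal.ofReal (a / t) ≤
      ENNReal.ofReal (t * N / 2 + N / t + 1 / (2 * t)) := by
    calc dm ν N φ + ENNReal.ofReal (a / t)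
        = dm ν N φ + ENNReal.ofReal (1 / t) * ENNReal.ofReal a := by
          rw [← ENNReal.ofReal_mul (by positivity)]
          congr 2
          ring
      _ ≤ dm ν N φ + ENNReal.ofReal (1 / t) * nuE ν φ := by gcongr
      _ ≤ _ := key
      _ ≤ ENNReal.ofReal (t * N / 2 + N / (2 * t)) +
          ENNReal.ofReal (1 / (2 * t * N)) * ((N : ℝ≥0∞) ^ 2 + N) := by gcongr
      _ = _ := by
          rw [hnat, ← ENNReal.ofReal_pow (by positivity),
            ← ENNReal.ofReal_add (by positivity) (by positivity),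
            ← ENNReal.ofReal_mul (by positivity),
            ← ENNReal.ofReal_add (by positivity) (by positivity)]
          congr 1
          field_simp
          ring
  have k2 := ENNReal.le_sub_of_add_le_right ENNReal.ofReal_ne_top k1
  rw [← ENNReal.ofReal_sub _ (by positivity)] at k2
  refine k2.trans (le_of_eq ?_)
  congr 1
  ring

end

/-- real arithmetic for the upper bound -/
lemma up_arith {D₀ ν V N t C κ G e : ℝ} (hN : N = ν * V) (hν : 0 < ν) (hV : 0 < V) (ht : 0 < t)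
    (hG : 0 < G) (he : 0 < e)
    (h1 : D₀ * t ≤ G * e / 64) (h2 : 2 * D₀ * C * ν / t ≤ G * e / 64)
    (h3 : D₀ / t ≤ G * e / 64 * (ν * V)) (h4 : C * (ν + κ) ≤ G * e / 32) :
    (ν ^ 2 * V) * (G / 2 + G * e / 32) + C * ν ^ 2 * (ν + κ) * V +
      2 * D₀ * ν * (t * N / 2 + (N - ν * (1 - C * ν) * V) / t + 1 / (2 * t)) ≤
      G / 2 * ν ^ 2 * (1 + e / 4) * V := by
  subst hN
  have e1 : 2 * D₀ * ν * (t * (ν * V) / 2 + (ν * V - ν * (1 - C * ν) * V) / t + 1 / (2 * t)) =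
      (ν ^ 2 * V) * (D₀ * t) + (ν ^ 2 * V) * (2 * D₀ * C * ν / t) + ν * (D₀ / t) := by
    field_simp
    ring
  rw [e1]
  have hp : 0 < ν ^ 2 * V := by positivity
  have b1 := mul_le_mul_of_nonneg_left h1 hp.le
  have b2 := mul_le_mul_of_nonneg_left h2 hp.le
  have b3 := mul_le_mul_of_nonneg_left h3 hν.le
  have b4 := mul_le_mul_of_nonneg_left h4 hp.le
  have e2 : C * ν ^ 2 * (ν + κ) * V = ν ^ 2 * V * (C * (ν + κ)) := by ring
  rw [e2]
  have e3 : ν * (G * e / 64 * (ν * V)) = ν ^ 2 * V * (G * e / 64) := by ring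
  rw [e3] at b3
  have e4 : G / 2 * ν ^ 2 * (1 + e / 4) * V = ν ^ 2 * V * (G / 2) + 8 * (ν ^ 2 * V * (G * e / 64)) := by
    ring
  rw [e4]
  have e5 : ν ^ 2 * V * (G * e / 32) = 2 * (ν ^ 2 * V * (G * e / 64)) := by ring
  have e6 : (ν ^ 2 * V) * (G / 2 + G * e / 32) = ν ^ 2 * V * (G / 2) +
      2 * (ν ^ 2 * V * (G * e / 64)) := by ring
  rw [e5] at b4
  rw [e6]
  have b5 : 0 ≤ ν ^ 2 * V * (G * e / 64) := by positivity
  linarith only [b1, b2, b3, b4, b5]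

/-- the upper bound of the lowest energy of `N` particles -/
theorem ee_upper {n : ℕ} {L μ : ℝ} [Fact (0 < L)] {K : (Fin n → ℝ) → ℝ≥0∞} {v : ℝ → ℝ≥0∞}
    {N : ℕ} {D₀ Ca ν t C κ G e : ℝ} {f : (Fin n → ℝ) → ℝ} {φ : Multiset (Tor n L) → ℂ}
    (hN : 0 < N) (hν : ν = N / L ^ n) (hCa : Ca = 2 * (D₀ * N) / L ^ n) (hD₀ : 0 ≤ D₀)
    (hlow : ee n L (ENNReal.ofReal μ) K v N * nE volume φ ≤ en (ENNReal.ofReal μ) K v φ +
      ENNReal.ofReal Ca * dm volume N φ)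
    (hφ : EB φ) (hφ1 : nE volume φ = 1)
    (hφN : ENNReal.ofReal (ν * (1 - C * ν) * L ^ n) ≤ nuE volume φ)
    (hφN2 : nuE volume φ ≤ ENNReal.ofReal (ν * L ^ n))
    (hφE : en (ENNReal.ofReal μ) K v φ ≤ ENNReal.ofReal (ν ^ 2 * L ^ n) *
      Pool.Agent.W761.CC.QD μ v Set.univ f + ENNReal.ofReal (C * ν ^ 2 * (ν + κ) * L ^ n))
    (hφ2 : ∀ x y, nE volume (an y (an x φ)) ≤ ENNReal.ofReal (ν ^ 2))
    (hQ : Pool.Agent.W761.CC.QD μ v Set.univ f ≤ ENNReal.ofReal (G / 2 + G * e / 32))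
    (ht : 0 < t) (hG : 0 < G) (he : 0 < e) (hC : 0 ≤ C) (hκ : 0 ≤ κ) (hCν : C * ν ≤ 1)
    (h1 : D₀ * t ≤ G * e / 64) (h2 : 2 * D₀ * C * ν / t ≤ G * e / 64)
    (h3 : D₀ / t ≤ G * e / 64 * (ν * L ^ n)) (h4 : C * (ν + κ) ≤ G * e / 32) :
    ee n L (ENNReal.ofReal μ) K v N ≤ ENNReal.ofReal (G / 2 * ν ^ 2 * (1 + e / 4) * L ^ n) := by
  have hLp : 0 < L := Fact.out
  have hV : 0 < L ^ n := by positivity
  have hN0 : (0 : ℝ) < N := by exact_mod_cast hN
  have hν0 : 0 < ν := by rw [hν]; positivity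
  have hNν : (N : ℝ) = ν * L ^ n := by rw [hν]; field_simp
  have hvol : volume (Set.univ : Set (Tor n L)) = ENNReal.ofReal (L ^ n) :=
    (Pool.Agent.W135.CB.proof_tf n L).1
  rw [hφ1, mul_one] at hlow
  have hnat : (N : ℝ≥0∞) = ENNReal.ofReal (ν * L ^ n) := by rw [← hNν, ENNReal.ofReal_natCast]
  have hpairs : ∫⁻ x, ∫⁻ y, nE volume (an y (an x φ)) ≤ (N : ℝ≥0∞) ^ 2 := by
    calc ∫⁻ x, ∫⁻ y, nE volume (an y (an x φ))
        ≤ ∫⁻ _x : Tor n L, ∫⁻ _y : Tor n L, ENNReal.ofReal (ν ^ 2) :=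
          lintegral_mono fun x => lintegral_mono fun y => hφ2 x y
      _ = (N : ℝ≥0∞) ^ 2 := by
          rw [lintegral_const, lintegral_const, hvol, hnat,
            ← ENNReal.ofReal_mul (by positivity), ← ENNReal.ofReal_mul (by positivity),
            ← ENNReal.ofReal_pow (by positivity)]
          congr 1
          ring
  have ha0 : 0 ≤ ν * (1 - C * ν) * L ^ n := by
    have : 0 ≤ 1 - C * ν := by linarith
    positivity
  have hdm := dm_up hφ hφ1 hN ht ha0 hφN (by rw [hnat]; exact hφN2) hpairs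
  have hCa' : Ca = 2 * D₀ * ν := by
    rw [hCa, hν]
    ring
  have hCa0 : 0 ≤ Ca := by rw [hCa']; positivity
  have hX0 : 0 ≤ t * N / 2 + (N - ν * (1 - C * ν) * L ^ n) / t + 1 / (2 * t) := by
    have h9 : 0 ≤ (N : ℝ) - ν * (1 - C * ν) * L ^ n := by
      rw [hNν]
      have : ν * L ^ n - ν * (1 - C * ν) * L ^ n = C * ν * ν * L ^ n := by ring
      rw [this]
      positivity
    positivity
  calc ee n L (ENNReal.ofReal μ) K v N
      ≤ en (ENNReal.ofReal μ) K v φ + ENNReal.ofReal Ca * dm volume N φ := hlow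
    _ ≤ (ENNReal.ofReal (ν ^ 2 * L ^ n) * ENNReal.ofReal (G / 2 + G * e / 32) +
          ENNReal.ofReal (C * ν ^ 2 * (ν + κ) * L ^ n)) +
        ENNReal.ofReal Ca * ENNReal.ofReal (t * N / 2 + (N - ν * (1 - C * ν) * L ^ n) / t +
          1 / (2 * t)) := by
        refine add_le_add (hφE.trans ?_) (mul_le_mul' le_rfl hdm)
        gcongr
    _ = ENNReal.ofReal ((ν ^ 2 * L ^ n) * (G / 2 + G * e / 32) +
          C * ν ^ 2 * (ν + κ) * L ^ n + 2 * D₀ * ν * (t * N / 2 +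
          (N - ν * (1 - C * ν) * L ^ n) / t + 1 / (2 * t))) := by
        rw [← ENNReal.ofReal_mul (by positivity), ← ENNReal.ofReal_mul hCa0,
          ← ENNReal.ofReal_add (by positivity) (by positivity),
          ← ENNReal.ofReal_add (by positivity) (by positivity), hCa']
    _ ≤ _ := ENNReal.ofReal_le_ofReal (up_arith hNν hν0 hV ht hG he h1 h2 h3 h4)

end

end Pool.Agent.Y656
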