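import Pool.Agent.Y656.Main3
import Pool.Agent.Y656.ProfN
import Pool.Agent.Y656.CapH
import Pool.Agent.Y656.UpC
import Pool.Agent.Y656.Par4
import Pool.Agent.Y656.AtC
import Pool.Agent.Y656.HParC
import Pool.Agent.W761.CC.All

/-!
# Complete condensation for hard cores: the main theorem
-/

set_option autoImplicit false

open MeasureTheory
open scoped ENNReal

namespace Pool.Agent.Y656

open Pool.Agent.W761.CB Pool.Agent.W761.CC Pool.Agent.TH268.CC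

noncomputable section

lemma gE_D0 (hTF : S_TF) {n : ℕ} {L : ℝ} [Fact (0 < L)] {R R₀ μ Tv : ℝ} (hR : 1 ≤ R)
    (hRR : R₀ ≤ R) (hμ : 0 < μ) (hTv : 0 ≤ Tv) {v : ℝ → ℝ≥0∞} (hv : Measurable v)
    (hvo : ∫⁻ z : Fin n → ℝ, vo R₀ v (el z) ≤ ENNReal.ofReal Tv) {K : (Fin n → ℝ) → ℝ≥0∞}
    (hK1 : ∫⁻ z, K z * ENNReal.ofReal (min 1 (el z ^ 2)) ≤ 1) :
    gEv (ENNReal.ofReal μ) K v (s1 n L R) ≤
      ENNReal.ofReal (16 * (4 * R) ^ n * (n * μ + 1) + Tv) := by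
  refine (gEv_s1 hTF hR hRR hv _ K).trans ?_
  have hR0 : 0 < R := by linarith
  have e1 : ENNReal.ofReal (16 * (4 * R) ^ n * (n * μ + 1) + Tv) =
      ENNReal.ofReal (16 * (4 * R) ^ n) * (n * ENNReal.ofReal μ + 1) + ENNReal.ofReal Tv := by
    rw [ENNReal.ofReal_add (by positivity) hTv,
      ENNReal.ofReal_mul (p := 16 * (4 * R) ^ n) (by positivity),
      ENNReal.ofReal_add (by positivity) zero_le_one, ENNReal.ofReal_mul (p := (n : ℝ))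
        (by positivity), ENNReal.ofReal_natCast, ENNReal.ofReal_one]
  rw [e1]
  gcongr

/-- the tolerance is small on large tori -/
lemma geo_small (s κ b : ℝ) (hs : 0 < s) (hκ : 0 < κ) (hb : 0 < b) : ∃ J₀ : ℕ, ∀ J : ℕ, J₀ ≤ J →
    κ * (2 : ℝ) ^ (-(s * J)) ≤ b := by
  have h1 : (2 : ℝ) ^ (-s) < 1 := Real.rpow_lt_one_of_one_lt_of_neg (by norm_num) (by linarith)
  obtain ⟨J₀, hJ⟩ := exists_pow_lt_of_lt_one (div_pos hb hκ) h1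
  refine ⟨J₀, fun J hJJ => ?_⟩
  have h3 : (2 : ℝ) ^ (-(s * J)) = ((2 : ℝ) ^ (-s)) ^ J := by
    rw [← Real.rpow_natCast, ← Real.rpow_mul (by norm_num)]
    congr 1
    ring
  have h4 : ((2 : ℝ) ^ (-s)) ^ J ≤ ((2 : ℝ) ^ (-s)) ^ J₀ :=
    pow_le_pow_of_le_one (by positivity) h1.le hJJ
  rw [lt_div_iff₀ hκ] at hJ
  rw [h3]
  have h5 := mul_le_mul_of_nonneg_left h4 hκ.le
  linarith only [h5, hJ]

lemma tol_vol {n J : ℕ} {L ℓ Λ σ κ₀ tol : ℝ} (hL : 0 < L) (hℓ : 0 < ℓ) (hΛ : 0 < Λ) (hσ : 0 < σ)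
    (hκ₀ : 0 < κ₀) (hLℓ : L = 2 ^ J * ℓ) (hℓ1 : Λ / 2 ≤ ℓ)
    (htol : tol = κ₀ * (2 : ℝ) ^ (-(σ * J))) :
    κ₀ * (Λ / 2) ^ σ / 2 * L ^ ((n : ℝ) - σ) ≤ tol * L ^ n / 2 := by
  have h2Jp : (0 : ℝ) < 2 ^ J := by positivity
  have htol0 : 0 < tol := by rw [htol]; positivity
  have h1 : L ^ ((n : ℝ) - σ) = L ^ n * (2 : ℝ) ^ (-(σ * J)) * ℓ ^ (-σ) := by
    rw [Real.rpow_sub hL, Real.rpow_natCast, div_eq_mul_inv, ← Real.rpow_neg hL.le]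
    nth_rewrite 2 [hLℓ]
    rw [Real.mul_rpow h2Jp.le hℓ.le, ← Real.rpow_natCast 2 J, ← Real.rpow_mul (by norm_num)]
    rw [show (J : ℝ) * -σ = -(σ * J) by ring]
    ring
  have h2 : (Λ / 2) ^ σ * ℓ ^ (-σ) ≤ 1 := by
    rw [Real.rpow_neg hℓ.le, ← div_eq_mul_inv, div_le_one (by positivity)]
    exact Real.rpow_le_rpow (by positivity) hℓ1 hσ.le
  rw [h1]
  calc κ₀ * (Λ / 2) ^ σ / 2 * (L ^ n * (2 : ℝ) ^ (-(σ * J)) * ℓ ^ (-σ))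
      = tol * L ^ n / 2 * ((Λ / 2) ^ σ * ℓ ^ (-σ)) := by rw [htol]; ring
    _ ≤ tol * L ^ n / 2 * 1 := by gcongr
    _ = tol * L ^ n / 2 := mul_one _

/-- The main theorem. -/
theorem hcoreC (n : ℕ) (μ σ g c R₀ : ℝ) (v : ℝ → ℝ≥0∞) (hn : 3 ≤ n) (hμ : 0 < μ) (hσ : 0 < σ)
    (hσn : σ < n) (hgn : g < n / 2) (hc : 0 < c) (hv : Measurable v)
    (hv0 : ∫⁻ z : Fin n → ℝ, v (el z) ≠ 0)
    (hvt : ∫⁻ z in {z : Fin n → ℝ | R₀ < el z}, v (el z) ≠ ⊤) :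
    0 < scat n μ v ∧ ∀ ε : ℝ, 0 < ε → ∃ ρ₀ : ℝ, 0 < ρ₀ ∧ ∀ ρ : ℝ, 0 < ρ → ρ ≤ ρ₀ →
      ∃ c₁ L₀ : ℝ, 0 < c₁ ∧
      ∀ (L : ℝ) [Fact (0 < L)] (K : (Fin n → ℝ) → ℝ≥0∞), L₀ ≤ L → Measurable K →
      ∫⁻ z, K z * ENNReal.ofReal (min 1 (el z ^ 2)) ≤ ENNReal.ofReal ρ₀ →
      (∀ z, ENNReal.ofReal (c * ρ ^ (g + n / 2) * (1 + √ρ * el z) ^ (-(n + σ))) ≤ K z) →
      ∀ N : ℕ, ρ / 2 * L ^ n ≤ N → (N : ℝ) ≤ ρ * L ^ n →
      ∀ Ψ : (Fin N → Tor n L) → ℂ, IsWf2 Ψ →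
        (∀ Φ : (Fin N → Tor n L) → ℂ, IsWf Φ →
          enN (ENNReal.ofReal μ) K v Ψ ≤ enN (ENNReal.ofReal μ) K v Φ +
            ENNReal.ofReal (c₁ * L ^ (n - σ))) →
        ENNReal.ofReal ((1 - ε) * (scat n μ v / 2 * (N ^ 2 / L ^ n))) ≤
          enN (ENNReal.ofReal μ) K v Ψ ∧
        enN (ENNReal.ofReal μ) K v Ψ ≤
          ENNReal.ofReal ((1 + ε) * (scat n μ v / 2 * (N ^ 2 / L ^ n))) ∧
        (1 - ε) * N ≤ condN Ψ := by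
  have hMS := Pool.Agent.W975.CB.proof_ms
  have hLAM := Pool.Agent.W366.CB.proof_lam hMS
  have hEBC := Pool.Agent.W571.CB.La.ebc
  have hAD := Pool.Agent.W338.CB.proof_ad hMS hLAM
  have hW1 := Pool.Agent.W991.CB.proof_w1
  have hW2 := Pool.Agent.W174.CB.main hAD hW1
  have hW3 := Pool.Agent.W803.CB.w3 hW1
  have hDER := Pool.Agent.W99.CB.der hW1 hW3
  have hFRM := frm hW1 hW2 hW3 hDER Pool.Agent.W803.CB.par
    Pool.Agent.W366.CB.proof_ibp Pool.Agent.W790.CB.proof_win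
  have hTF := Pool.Agent.W135.CB.proof_tf
  have hHAT := Pool.Agent.W19.CB.hat_proof hTF
  have hGK := Pool.Agent.W249.CB.gk hTF hHAT Pool.Agent.W249.CB.sup
  have hDIA := Pool.Agent.W427.CB.dia Pool.Agent.W880.CB.dia0 hTF
  have hFIB := Pool.Agent.W131.CB.fib
  have hPO2 := Pool.Agent.W880.CB.po2 hFIB
  have hCOH := Pool.Agent.W374.CB2.Coh.coh hTF hHAT hGK hPO2
  have hBLK := Pool.Agent.W374.CB2.Blk.blk hTF
  have hLA1 := Pool.Agent.W372.CB.main hTF hBLK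
  have hLA := Pool.Agent.W571.CB.La.proof_la hTF hBLK hLA1 hFIB
  have hCONV := conv2 hTF
  have hREF := Pool.Agent.W816.CB.cb_ref
  have hTRUNC := Pool.Agent.W376.CB.trunc
  have hKQ := Pool.Agent.W214.CC.main
  have hPOIC := Pool.Agent.W975.CC.main
  have hLAY := Pool.Agent.W806.CC.lay Pool.Agent.W366.CC.One.one
    (Pool.Agent.W554.CC.main hKQ hTF) hPO2 hFIB hTF hBLK
  have hCRD := Pool.Agent.W688.CC.crd hBLK
  have hUPT := upt2 Pool.Agent.W216.CC.jas hTF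
  have hn1 : 1 ≤ n := by omega
  have hn3 : (3 : ℝ) ≤ n := by exact_mod_cast hn
  have hG0 : 0 < scat n μ v := gposH μ R₀ v hn hμ hv hv0 hvt
  refine ⟨hG0, fun ε hε => ?_⟩
  have hcap0 := capH hKQ hPOIC μ R₀ v hn1 hv hvt hG0
  have hsym0 := symH hKQ μ R₀ v hv hvt
  obtain ⟨G, hGdef⟩ : ∃ G : ℝ, G = scat n μ v := ⟨_, rfl⟩
  rw [← hGdef] at hG0 hcap0 hsym0 ⊢
  obtain ⟨e, he⟩ : ∃ e : ℝ, e = min (1 / 100) ((ε / 9) ^ 2) := ⟨_, rfl⟩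
  have he0 : 0 < e := by rw [he]; exact lt_min (by norm_num) (by positivity)
  have he1 : e ≤ 1 / 100 := by rw [he]; exact min_le_left _ _
  have he9 : 9 * √e ≤ ε := by
    have h1 : √e ≤ ε / 9 := by
      rw [Real.sqrt_le_left (by positivity), he]
      exact min_le_right _ _
    linarith
  have hse0 : 0 ≤ √e := Real.sqrt_nonneg e
  have hees : e ≤ √e := by
    have h1 : √e ≤ 1 := by
      rw [Real.sqrt_le_one]
      linarith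
    calc e = √e * √e := (Real.mul_self_sqrt he0.le).symm
      _ ≤ √e * 1 := by gcongr
      _ = √e := mul_one _
  obtain ⟨εc, hεc⟩ : ∃ εc : ℝ, εc = e / 20 := ⟨_, rfl⟩
  have hεc0 : 0 < εc := by rw [hεc]; positivity
  have hεc1 : εc < 1 := by rw [hεc]; linarith
  have h1εc : 0 < 1 - εc := by linarith
  obtain ⟨r₀, hr₀, hcap⟩ := hcap0 εc hεc0
  obtain ⟨γ₀, hγ₀⟩ : ∃ γ₀ : ℝ, γ₀ = G / 2 * (1 - εc) := ⟨_, rfl⟩
  rw [← hγ₀] at hcap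
  have hγ₀0 : 0 < γ₀ := by rw [hγ₀]; positivity
  obtain ⟨CP, hCPd⟩ : ∃ CP : ℝ, CP = n * 2 ^ n / μ := ⟨_, rfl⟩
  have hCP : 0 < CP := by rw [hCPd]; positivity
  obtain ⟨CA0, b₀, hCA0, hb₀, hla⟩ := hLA n 2 CP v hn1 two_pos (by linarith) hCP.le hv hv0
  obtain ⟨CA, hCA⟩ : ∃ CA : ℝ, CA = CA0 + 1 := ⟨_, rfl⟩
  have hCApos : 0 < CA := by rw [hCA]; linarith
  -- the energy of one more particle
  obtain ⟨R, hRdef⟩ : ∃ R : ℝ, R = max 1 R₀ := ⟨_, rfl⟩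
  have hR1 : 1 ≤ R := by rw [hRdef]; exact le_max_left _ _
  have hRR : R₀ ≤ R := by rw [hRdef]; exact le_max_right _ _
  have hR0 : 0 < R := by linarith
  obtain ⟨Tv, hTvd⟩ : ∃ Tv : ℝ, Tv = (∫⁻ z : Fin n → ℝ, vo R₀ v (el z)).toReal := ⟨_, rfl⟩
  have hTv0 : 0 ≤ Tv := by rw [hTvd]; exact ENNReal.toReal_nonneg
  have hTv : ∫⁻ z : Fin n → ℝ, vo R₀ v (el z) ≤ ENNReal.ofReal Tv := by
    rw [hTvd, ENNReal.ofReal_toReal]
    rw [vo_int]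
    exact hvt
  obtain ⟨D₀, hD₀⟩ : ∃ D₀ : ℝ, D₀ = 16 * (4 * R) ^ n * (n * μ + 1) + Tv := ⟨_, rfl⟩
  have hD₀0 : 0 < D₀ := by rw [hD₀]; positivity
  obtain ⟨lam, mu, r', q, hlam0, hlam1, hr0', hr1', hmur, hlam2, hlams, hq, lam0, δp, η4,
    hl00, hl01, hδp, hη4, hpar4⟩ :=
    par4 n hn σ g CP c (2 * D₀) G e hσ hσn hgn hCP hc (by positivity) hG0 he0
  obtain ⟨ρh, hρh, hhp⟩ := hparC n hn G γ₀ εc e CP CA b₀ r₀ lam0 hG0 he0 he1 hεc hγ₀ hCP hCApos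
    hb₀ hr₀ hl00
  obtain ⟨f, af, hfm, hfe, hf01, haf, hfa, hfQ⟩ := hsym0 (G * e / 32) (by positivity)
  obtain ⟨C, hC0, hupt⟩ := hUPT n μ af v f hn1 hμ hv hfm hfe hf01 haf hfa
    (ne_top_of_le_ne_top ENNReal.ofReal_ne_top hfQ)
  obtain ⟨t, ht⟩ : ∃ t : ℝ, t = G * e / (64 * D₀) := ⟨_, rfl⟩
  have ht0 : 0 < t := by rw [ht]; positivity
  have hD₀t : D₀ * t ≤ G * e / 64 := by
    rw [ht]
    refine le_of_eq ?_
    field_simp
  obtain ⟨ρ₀, hρ₀⟩ : ∃ ρ₀ : ℝ, ρ₀ = min (min δp ρh) (min (min 1 (1 / (2 * (4 * R) ^ n)))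
    (min (min (G * e / (64 * (C + 1))) (1 / (C + 1)))
      (G * e / 64 * t / (2 * D₀ * (C + 1))))) := ⟨_, rfl⟩
  have hρ₀0 : 0 < ρ₀ := by
    rw [hρ₀]
    refine lt_min (lt_min hδp hρh) (lt_min (lt_min one_pos (by positivity))
      (lt_min (lt_min (by positivity) (by positivity)) (by positivity)))
  have q1 : ρ₀ ≤ δp := by rw [hρ₀]; exact (min_le_left _ _).trans (min_le_left _ _)
  have q2 : ρ₀ ≤ ρh := by rw [hρ₀]; exact (min_le_left _ _).trans (min_le_right _ _)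
  have q3 : ρ₀ ≤ 1 := by
    rw [hρ₀]
    exact ((min_le_right _ _).trans (min_le_left _ _)).trans (min_le_left _ _)
  have q4 : ρ₀ * (2 * (4 * R) ^ n) ≤ 1 := by
    rw [← le_div_iff₀ (by positivity), hρ₀]
    exact ((min_le_right _ _).trans (min_le_left _ _)).trans (min_le_right _ _)
  have q5 : ρ₀ * (64 * (C + 1)) ≤ G * e := by
    rw [← le_div_iff₀ (by positivity), hρ₀]
    exact (((min_le_right _ _).trans (min_le_right _ _)).trans (min_le_left _ _)).trans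
      (min_le_left _ _)
  have q6 : ρ₀ * (C + 1) ≤ 1 := by
    rw [← le_div_iff₀ (by positivity), hρ₀]
    exact (((min_le_right _ _).trans (min_le_right _ _)).trans (min_le_left _ _)).trans
      (min_le_right _ _)
  have q7 : ρ₀ * (2 * D₀ * (C + 1)) ≤ G * e / 64 * t := by
    rw [← le_div_iff₀ (by positivity), hρ₀]
    exact ((min_le_right _ _).trans (min_le_right _ _)).trans (min_le_right _ _)
  refine ⟨ρ₀, hρ₀0, ?_⟩
  intro ρ hρ hρle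
  obtain ⟨hρ1, hfin⟩ := hpar4 ρ hρ (hρle.trans q1)
  obtain ⟨Λ, hΛ⟩ : ∃ Λ : ℝ, Λ = lam0 * ρ ^ (-(1 / 2 : ℝ)) := ⟨_, rfl⟩
  have hΛ0 : 0 < Λ := by rw [hΛ]; positivity
  rw [← hΛ] at hfin
  obtain ⟨Γ, hΓ⟩ : ∃ Γ : ℝ, Γ = c * ρ ^ (g + n / 2) * (1 + 2 * √n) ^ (-(n + σ)) := ⟨_, rfl⟩
  have hΓ0 : 0 < Γ := by rw [hΓ]; positivity
  rw [← hΓ] at hfin
  obtain ⟨κ₀, hκ₀⟩ : ∃ κ₀ : ℝ, κ₀ = η4 * ρ * ((Λ / 2) ^ n * Γ) := ⟨_, rfl⟩
  have hκ₀0 : 0 < κ₀ := by rw [hκ₀]; positivity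
  obtain ⟨J₀, hJ₀⟩ := geo_small σ κ₀ (G * e / 32 * ρ ^ 2) hσ hκ₀0 (by positivity)
  refine ⟨κ₀ * (Λ / 2) ^ σ / 2, max (max (8 * af) (Λ / 2 * 2 ^ (J₀ + 3)))
    (max 1 (D₀ / t / (G * e / 64 * (ρ / 2)))), by positivity, ?_⟩
  intro L _ K hL₀ hK hcostA hLB0 N hNlo hNhi Ψ hΨ hnear
  have hLpos : 0 < L := Fact.out
  have hLa : 8 * af ≤ L := ((le_max_left _ _).trans (le_max_left _ _)).trans hL₀
  have hLJ : Λ / 2 * 2 ^ (J₀ + 3) ≤ L := ((le_max_right _ _).trans (le_max_left _ _)).trans hL₀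
  have hL1 : 1 ≤ L := ((le_max_left _ _).trans (le_max_right _ _)).trans hL₀
  have hLD : D₀ / t / (G * e / 64 * (ρ / 2)) ≤ L :=
    ((le_max_right _ _).trans (le_max_right _ _)).trans hL₀
  have hV : (0 : ℝ) < L ^ n := by positivity
  have hLn : L ≤ L ^ n := le_self_pow₀ hL1 (by omega)
  have hPO : PO n L 2 CP (ENNReal.ofReal μ) K := by
    rw [hCPd]; exact Pool.Agent.W753.CB.main n L μ K hμ
  have hPO0 : PO n L 2 CP (ENNReal.ofReal μ) (fun _ => 0) := by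
    rw [hCPd]; exact Pool.Agent.W753.CB.main n L μ _ hμ
  have hLB : ∀ z, ENNReal.ofReal (c * ρ ^ (g + n / 2) *
      (1 + ρ ^ (1 / 2 : ℝ) * el z) ^ (-(n + σ))) ≤ K z := by
    intro z
    rw [← Real.sqrt_eq_rpow]
    exact hLB0 z
  -- the density
  obtain ⟨ν, hν⟩ : ∃ ν : ℝ, ν = N / L ^ n := ⟨_, rfl⟩
  have hν1 : ρ / 2 ≤ ν := by rw [hν, le_div_iff₀ hV]; exact hNlo
  have hν2 : ν ≤ ρ := by rw [hν, div_le_iff₀ hV]; exact hNhi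
  have hν0 : 0 < ν := by linarith
  have hNν : (N : ℝ) = ν * L ^ n := by rw [hν]; field_simp
  have hN0 : (0 : ℝ) < N := by rw [hNν]; positivity
  have hN1 : 0 < N := by exact_mod_cast hN0
  -- the smallest scale
  have h2J : (1 : ℝ) ≤ 2 ^ (J₀ + 3) := one_le_pow₀ (by norm_num)
  have hLΛ : 2 ^ (J₀ + 3) ≤ L / (Λ / 2) := by
    rw [le_div_iff₀ (by positivity)]
    linarith
  obtain ⟨J, hJ1, hJ2⟩ := near 2 (L / (Λ / 2)) (by norm_num) (h2J.trans hLΛ)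
  have hJJ : J₀ + 3 ≤ J := by
    by_contra hcon
    have h3 : (2 : ℝ) ^ (J + 1) ≤ 2 ^ (J₀ + 3) := pow_le_pow_right₀ (by norm_num) (by omega)
    linarith
  have h2Jp : (0 : ℝ) < 2 ^ J := by positivity
  obtain ⟨ℓ, hℓdef⟩ : ∃ ℓ : ℝ, ℓ = L / 2 ^ J := ⟨_, rfl⟩
  have hℓ0 : 0 < ℓ := by rw [hℓdef]; positivity
  have hLℓ : L = 2 ^ J * ℓ := by rw [hℓdef]; field_simp
  have hℓ1 : Λ / 2 ≤ ℓ := by
    rw [hℓdef, le_div_iff₀ h2Jp]
    rw [le_div_iff₀ (by positivity)] at hJ1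
    linarith
  have hℓ2 : ℓ ≤ Λ := by
    rw [hℓdef, div_le_iff₀ h2Jp]
    rw [div_lt_iff₀ (by positivity), pow_succ] at hJ2
    linarith
  obtain ⟨hPe, ε0, hε0, hε1, hcond⟩ := hfin ℓ hℓ1 hℓ2
  obtain ⟨s, s₁, b, b₁, r, hℓb, hbb, hr₀r, h4r, hb1, hb₀b, hfin2⟩ :=
    hhp ρ ν hρ (hρle.trans q2) hν1 hν2 ℓ (by rw [← hΛ]; exact hℓ1)
  have hr0 : 0 < r := by linarith
  have hb0 : 0 < b := by linarith
  have hb₁0 : 0 < b₁ := by linarith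
  obtain ⟨κ, hκ⟩ : ∃ κ : ℝ, κ = 2 * (2 ^ s₁) ^ n := ⟨_, rfl⟩
  have hκ0 : 0 < κ := by rw [hκ]; positivity
  obtain ⟨X', hX'⟩ : ∃ X' : ℝ, X' = γ₀ * (5 * κ ^ 2 / b ^ n + κ / (εc * (2 * r) ^ n)) *
    (CP * b ^ 2) := ⟨_, rfl⟩
  have hX'0 : 0 ≤ X' := by rw [hX']; positivity
  obtain ⟨haB, ha₂B⟩ := hfin2 κ X' hκ hX'
  obtain ⟨a, ha⟩ : ∃ a : ℝ, a = (1 + X') / (γ₀ * (1 - εc) * ν ^ 2) + 12 * (CA * b₁ ^ n) / ν :=
    ⟨_, rfl⟩
  obtain ⟨a₂, ha₂⟩ : ∃ a₂ : ℝ, a₂ = γ₀ * (1 / b ^ n) * (κ / b ^ n + κ ^ 2 / b ^ n *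
    (4 * n * r / b + 2 * κ * (4 * r / b) ^ n)) / (γ₀ * (1 - εc) * ν ^ 2) := ⟨_, rfl⟩
  rw [← ha] at haB
  rw [← ha₂] at ha₂B
  have ha0 : 0 ≤ a := by rw [ha]; positivity
  have ha₂0 : 0 ≤ a₂ := by rw [ha₂]; positivity
  have hq8 : 8 ≤ 2 ^ J * 2 ^ s * 2 ^ s₁ := by
    have h1 : 2 ^ 3 ≤ 2 ^ J := Nat.pow_le_pow_right (by norm_num) (by omega)
    have h2 : 1 ≤ 2 ^ s := Nat.one_le_two_pow
    have h3 : 1 ≤ 2 ^ s₁ := Nat.one_le_two_pow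
    calc 8 = 2 ^ 3 * 1 * 1 := by norm_num
      _ ≤ 2 ^ J * 2 ^ s * 2 ^ s₁ := Nat.mul_le_mul (Nat.mul_le_mul h1 h2) h3
  have hla1 := fun (F : Multiset (Tor n L) → ℂ) (hF : EB F) =>
    hla L b₁ (2 ^ J * 2 ^ s * 2 ^ s₁) (ENNReal.ofReal μ) K hb₀b (by
      push_cast
      rw [hLℓ, hℓb, hbb]
      ring) hq8 hK hPO F hF
  have hHP : ∀ F : Multiset (Tor n L) → ℂ, EB F → ENNReal.ofReal (ℓ ^ n) *
      ∑ i, ∫⁻ γ, ENNReal.ofReal (pf (((ms γ).map (hf n L ℓ (2 ^ J) i)).sum / (ℓ ^ n * ν))) *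
        ‖F (ms γ)‖ₑ ^ 2 ∂(Pool.Agent.W761.CB.lam (volume : Measure (Tor n L))) ≤
      ENNReal.ofReal a * en (ENNReal.ofReal μ) K v F +
        ENNReal.ofReal (a₂ * L ^ n) * nE volume F := by
    intro F hF
    have h1 := hp_core hLAY hCRD Pool.Agent.W460.CC.proof_tr Pool.Agent.W935.CC.cvx hTF hBLK hn1
      hK hv hμ hγ₀0 (hcap r hr₀r) hPO0 hCP.le
      hCApos.le hεc0 hεc1 hr0 h4r hb1 hb₁0 hν0 (by omega) hLℓ hℓb hbb (fun F hF =>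
        (hla1 F hF).1.trans (by
          gcongr
          rw [hCA]
          linarith)) hκ hX' rfl F hF
    rw [← ha] at h1
    refine h1.trans (le_of_eq ?_)
    congr 3
    rw [ha₂]
    ring
  -- the tolerance
  obtain ⟨tol, htol⟩ : ∃ tol : ℝ, tol = κ₀ * (2 : ℝ) ^ (-(σ * J)) := ⟨_, rfl⟩
  have htol0 : 0 < tol := by rw [htol]; positivity
  have htol1 : tol ≤ G * e / 32 * ρ ^ 2 := by rw [htol]; exact hJ₀ J (by omega)
  have htolV := tol_vol (n := n) hLpos hℓ0 hΛ0 hσ hκ₀0 hLℓ hℓ1 htol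
  have htolν : tol * L ^ n ≤ G / 2 * ν ^ 2 * (e / 4) * L ^ n := by
    refine mul_le_mul_of_nonneg_right (htol1.trans ?_) hV.le
    have h1 : ρ ^ 2 ≤ (2 * ν) ^ 2 := pow_le_pow_left₀ hρ.le (by linarith) 2
    have h2 := mul_le_mul_of_nonneg_left h1 (by positivity : 0 ≤ G * e / 32)
    linarith only [h2]
  -- the energy of one more particle
  have hgE : gEv (ENNReal.ofReal μ) K v (s1 n L R) ≤ ENNReal.ofReal D₀ := by
    rw [hD₀]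
    exact gE_D0 hTF hR1 hRR hμ hTv0 hv hTv (hcostA.trans (by
      rw [← ENNReal.ofReal_one]; exact ENNReal.ofReal_le_ofReal q3))
  have hgv : gv (s1 n L R) ≤ ENNReal.ofReal ((4 * R) ^ n) := gv_s1 hR0
  have hN2 : 2 * (ENNReal.ofReal ((4 * R) ^ n) * N) ≤ ENNReal.ofReal (L ^ n) :=
    add_num hR0 hLpos hNhi ((mul_le_mul_of_nonneg_right hρle (by positivity)).trans q4)
  obtain ⟨heefin, -⟩ := ee_diffv hTF (s1_Pf (n := n) (L := L) R) hK hv hgE hgv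
    ENNReal.ofReal_ne_top hN2 N le_rfl
  obtain ⟨Ca, hCa⟩ : ∃ Ca : ℝ, Ca = 2 * (D₀ * N) / L ^ n := ⟨_, rfl⟩
  have hCa0 : 0 ≤ Ca := by rw [hCa]; positivity
  have hCaE : 2 * (ENNReal.ofReal D₀ * N) / ENNReal.ofReal (L ^ n) = ENNReal.ofReal Ca := by
    rw [hCa]
    exact Ca_eq hLpos hD₀0
  have hCa1 : Ca ≤ 2 * D₀ * ρ := by
    have h1 : Ca = 2 * D₀ * ν := by rw [hCa, hν]; ring
    rw [h1]
    gcongr
  have hlowA : ∀ F : Multiset (Tor n L) → ℂ, EB F →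
      ee n L (ENNReal.ofReal μ) K v N * nE volume F ≤
        en (ENNReal.ofReal μ) K v F + ENNReal.ofReal Ca * dm volume N F := by
    intro F hF
    rw [← hCaE]
    exact low3v hTF hCONV (s1_Pf (n := n) (L := L) R) hK hv hgE hgv ENNReal.ofReal_ne_top hN2 F hF
  -- the upper bound of the lowest energy
  have hC1 : C * ν ≤ 1 := by
    calc C * ν ≤ (C + 1) * ρ₀ := by
          have : ν ≤ ρ₀ := hν2.trans hρle
          gcongr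
          linarith
      _ = ρ₀ * (C + 1) := by ring
      _ ≤ 1 := q6
  have hc2 : 2 * D₀ * C * ν / t ≤ G * e / 64 := by
    rw [div_le_iff₀ ht0]
    calc 2 * D₀ * C * ν ≤ 2 * D₀ * (C + 1) * ρ₀ := by
          have : ν ≤ ρ₀ := hν2.trans hρle
          gcongr
          linarith
      _ = ρ₀ * (2 * D₀ * (C + 1)) := by ring
      _ ≤ _ := q7
  have hc3 : D₀ / t ≤ G * e / 64 * (ν * L ^ n) := by
    rw [div_le_iff₀ (by positivity)] at hLD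
    calc D₀ / t ≤ L * (G * e / 64 * (ρ / 2)) := hLD
      _ ≤ L ^ n * (G * e / 64 * ν) := by gcongr
      _ = _ := by ring
  have hc4 : C * (ν + ρ₀) ≤ G * e / 32 := by
    have h1 : ν ≤ ρ₀ := hν2.trans hρle
    have h2 : C * (ν + ρ₀) ≤ (C + 1) * (2 * ρ₀) := by
      have : ν + ρ₀ ≤ 2 * ρ₀ := by linarith
      have h0 : 0 ≤ ν + ρ₀ := by positivity
      gcongr
      linarith
    linarith only [h2, q5]
  obtain ⟨φ, hφ, hφ1, hφN, hφN2, hφE, hφ2⟩ := hupt L K ρ₀ ν hLa hK hρ₀0.le hν0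
    (hν2.trans hρ1) hcostA
  have hup0 : ee n L (ENNReal.ofReal μ) K v N ≤
      ENNReal.ofReal (G / 2 * ν ^ 2 * (1 + e / 4) * L ^ n) :=
    ee_upper hN1 hν hCa hD₀0.le (hlowA φ hφ) hφ hφ1 hφN hφN2 hφE hφ2 hfQ ht0 hG0 he0 hC0
      hρ₀0.le hC1 hD₀t hc2 hc3 hc4
  obtain ⟨e₀, he₀⟩ : ∃ e₀ : ℝ, e₀ = (ee n L (ENNReal.ofReal μ) K v N).toReal := ⟨_, rfl⟩
  have he₀0 : 0 ≤ e₀ := by rw [he₀]; exact ENNReal.toReal_nonneg
  have heE : ee n L (ENNReal.ofReal μ) K v N = ENNReal.ofReal e₀ := by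
    rw [he₀, ENNReal.ofReal_toReal heefin]
  have he₀1 : e₀ ≤ G / 2 * ν ^ 2 * (1 + e / 4) * L ^ n := by
    rw [heE, ENNReal.ofReal_le_ofReal_iff (by positivity)] at hup0
    exact hup0
  rw [heE] at hlowA
  -- the energy of the given vector
  have hΨe : enN (ENNReal.ofReal μ) K v Ψ ≤ ENNReal.ofReal (e₀ + tol * L ^ n / 2) := by
    have h1 := near_ee hK hv ENNReal.ofReal_ne_top hnear
    rw [heE, ← ENNReal.ofReal_add he₀0 (by positivity)] at h1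
    exact h1.trans (ENNReal.ofReal_le_ofReal (by linarith))
  have hfinite : enN (ENNReal.ofReal μ) K v Ψ ≠ ⊤ :=
    ne_top_of_le_ne_top ENNReal.ofReal_ne_top hΨe
  -- it is enough to consider bounded wave functions
  have red : ∀ ε₂ : ℝ, 0 < ε₂ →
      ENNReal.ofReal (G / 2 * ν ^ 2 * (1 - 2 * e) * L ^ n) ≤
        enN (ENNReal.ofReal μ) K v Ψ + ENNReal.ofReal ε₂ ∧
      (1 - 3 * √e) * N ≤ condN Ψ + ε₂ := by
    intro ε₂ hε₂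
    obtain ⟨ε', hε'⟩ : ∃ ε' : ℝ, ε' = min ε₂ (tol * L ^ n / 2) := ⟨_, rfl⟩
    have hε'0 : 0 < ε' := by rw [hε']; exact lt_min hε₂ (by positivity)
    have hε'1 : ε' ≤ ε₂ := by rw [hε']; exact min_le_left _ _
    have hε'2 : ε' ≤ tol * L ^ n / 2 := by rw [hε']; exact min_le_right _ _
    obtain ⟨Ψ', hΨ', hΨe', hΨc⟩ := hTRUNC n L (ENNReal.ofReal μ) K v N Ψ ε' hK hv hε'0 hΨ hfinite
    have hfin' : enN (ENNReal.ofReal μ) K v Ψ' ≠ ⊤ :=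
      (lt_of_le_of_lt hΨe' (ENNReal.add_lt_top.2 ⟨lt_top_iff_ne_top.2 hfinite,
        ENNReal.ofReal_lt_top⟩)).ne
    obtain ⟨E, hE⟩ : ∃ E : ℝ, E = (enN (ENNReal.ofReal μ) K v Ψ').toReal := ⟨_, rfl⟩
    have hE0 : 0 ≤ E := by rw [hE]; exact ENNReal.toReal_nonneg
    have hEe : enN (ENNReal.ofReal μ) K v Ψ' = ENNReal.ofReal E := by
      rw [hE, ENNReal.ofReal_toReal hfin']
    have hEle : E ≤ e₀ + tol * L ^ n := by
      have h1 : ENNReal.ofReal E ≤ ENNReal.ofReal (e₀ + tol * L ^ n) := by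
        rw [← hEe]
        refine hΨe'.trans ((add_le_add hΨe le_rfl).trans ?_)
        rw [← ENNReal.ofReal_add (by positivity) hε'0.le]
        exact ENNReal.ofReal_le_ofReal (by linarith)
      rw [ENNReal.ofReal_le_ofReal_iff (by positivity)] at h1
      exact h1
    have hup : E ≤ G / 2 * ν ^ 2 * (1 + e / 2) * L ^ n := by
      have h1 : G / 2 * ν ^ 2 * (1 + e / 2) * L ^ n = G / 2 * ν ^ 2 * (1 + e / 4) * L ^ n +
          G / 2 * ν ^ 2 * (e / 4) * L ^ n := by ring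
      rw [h1]
      linarith only [hEle, he₀1, htolν]
    -- Fock space
    obtain ⟨hcn0, F, hF, hFs, hF1, hFN, hFe, hFc⟩ := hCONV n L (ENNReal.ofReal μ) K v N Ψ' hK hv
      hΨ'
    rw [hEe] at hFe
    have hcoh : ∀ F : Multiset (Tor n L) → ℂ, EB F → ENNReal.ofReal (ℓ ^ n) * nuE volume F ≤
        ∑ i, nE volume (ag volume (hf n L ℓ (2 ^ J) i) F) +
          ENNReal.ofReal (ℓ ^ n * (CP * 2 ^ ((n : ℝ) + 2) * ℓ ^ (2 : ℝ))) *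
            en (ENNReal.ofReal μ) K v F := by
      intro F hF
      have h2q : 2 ≤ 2 ^ J := by
        calc 2 = 2 ^ 1 := rfl
          _ ≤ 2 ^ J := Nat.pow_le_pow_right (by norm_num) (by omega)
      have hℓge : b ≤ ℓ := by
        rw [hℓb]
        calc b = 1 * b := (one_mul b).symm
          _ ≤ 2 ^ s * b := by
            have : (1 : ℝ) ≤ 2 ^ s := one_le_pow₀ (by norm_num)
            gcongr
      refine (hCOH n L ℓ 2 CP (2 ^ J) (ENNReal.ofReal μ) K hK hCP.le hPO h2q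
        (by rw [hLℓ]; push_cast; rfl) (by linarith) F hF).trans ?_
      gcongr
      · exact le_rfl
      · exact le_self_add
    obtain ⟨Q, hQ⟩ : ∃ Q : ℝ, Q = L ^ n * condN Ψ' := ⟨_, rfl⟩
    have hQ0 : 0 ≤ Q := by rw [hQ]; positivity
    have hTle : tol * (2 : ℝ) ^ (σ * J) / (ℓ ^ n * Γ) ≤ η4 * ρ := by
      have h1 : (2 : ℝ) ^ (-(σ * J)) * (2 : ℝ) ^ (σ * J) = 1 := by
        rw [← Real.rpow_add (by norm_num)]; simp
      rw [div_le_iff₀ (by positivity)]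
      calc tol * (2 : ℝ) ^ (σ * J) = κ₀ * ((2 : ℝ) ^ (-(σ * J)) * (2 : ℝ) ^ (σ * J)) := by
            rw [htol]; ring
        _ = η4 * ρ * ((Λ / 2) ^ n * Γ) := by rw [h1, mul_one, hκ₀]
        _ ≤ η4 * ρ * (ℓ ^ n * Γ) := by gcongr
    have h1l : 0 < 1 - lam := by linarith
    have hes0 : 0 ≤ Ca * ρ * (ε0 / (1 - lam)) := by positivity
    have hes : Ca * ρ * (ε0 / (1 - lam)) ≤ 2 * D₀ * ρ ^ 2 * (ε0 / (1 - lam)) := by
      have h1 : 0 ≤ ε0 / (1 - lam) := by positivity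
      refine mul_le_mul_of_nonneg_right ?_ h1
      calc Ca * ρ ≤ 2 * D₀ * ρ * ρ := by gcongr
        _ = _ := by ring
    have c3 := hcond _ _ _ _ hTle rfl hes0 hes rfl
    have hsq : √(ρ / 2) ≤ √ν := Real.sqrt_le_sqrt hν1
    have hPe' : CP * 2 ^ ((n : ℝ) + 2) * ℓ ^ (2 : ℝ) * (G * ν) ≤ e := by
      refine le_trans ?_ hPe
      gcongr
    obtain ⟨res1, res2⟩ := atC Pool.Agent.W160.CC.bot2' hLAM hEBC hFRM hHAT hREF hGK hDIA hTF hℓ0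
      hLℓ hK hv hN1 he₀0 hE0 hQ0 htol0.le hCa0 (by linarith) hF
      (fun S hS => hFs S (ne_of_gt hS)) hF1 hFN hFe.le (by rw [hFc, hQ])
      (fun F hF _ => hlowA F hF) hG0 he0 he1 hν hup
      (P := CP * 2 ^ ((n : ℝ) + 2) * ℓ ^ (2 : ℝ)) (by positivity) hPe' ha0 haB ha₂0 ha₂B hcoh hHP
      (σ := σ) (Γ := Γ) hΓ0 hσ
      (fun j _ _ => by
        rw [hΓ]
        exact kern n 2 σ g ρ lam0 c ℓ hρ hσ hl01 hc hℓ0 (by rw [← hΛ]; exact hℓ2) K hLB j)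
      hNhi hε0 hlam0 hlam1 hε1 hr0' hr1' hmur hlam2 hlams rfl rfl rfl rfl hq
      (c3.trans (by gcongr))
    constructor
    · have h1 : ENNReal.ofReal (G / 2 * ν ^ 2 * (1 - 2 * e) * L ^ n) ≤
          enN (ENNReal.ofReal μ) K v Ψ' := by
        rw [hEe]
        exact ENNReal.ofReal_le_ofReal res1
      exact h1.trans (hΨe'.trans (add_le_add le_rfl (ENNReal.ofReal_le_ofReal hε'1)))
    · have h2 : Q / (L ^ n) ^ 2 = condN Ψ' / L ^ n := by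
        rw [hQ]
        field_simp
      rw [h2, hν, mul_div_assoc', div_le_div_iff_of_pos_right hV] at res2
      linarith only [res2, hΨc, hε'1]
  -- the conclusion
  have hN2V : (N : ℝ) ^ 2 / L ^ n = ν ^ 2 * L ^ n := by
    rw [hNν]
    field_simp
  rw [hN2V]
  have hp : 0 < G / 2 * (ν ^ 2 * L ^ n) := by positivity
  refine ⟨?_, ?_, ?_⟩
  · have h1 : (1 - ε) * (G / 2 * (ν ^ 2 * L ^ n)) ≤ (1 - 2 * e) * (G / 2 * (ν ^ 2 * L ^ n)) :=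
      mul_le_mul_of_nonneg_right (by linarith) hp.le
    have h2 : (1 - ε) * (G / 2 * (ν ^ 2 * L ^ n)) ≤ G / 2 * ν ^ 2 * (1 - 2 * e) * L ^ n := by
      linarith only [h1]
    refine (ENNReal.ofReal_le_ofReal h2).trans ?_
    refine ENNReal.le_of_forall_pos_le_add fun ε' hε' _ => ?_
    have h3 := (red ε' (by exact_mod_cast hε')).1
    rwa [ENNReal.ofReal_coe_nnreal] at h3
  · refine hΨe.trans (ENNReal.ofReal_le_ofReal ?_)
    have h1 : (1 + e / 2) * (G / 2 * (ν ^ 2 * L ^ n)) ≤ (1 + ε) * (G / 2 * (ν ^ 2 * L ^ n)) :=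
      mul_le_mul_of_nonneg_right (by linarith) hp.le
    have h2 : (1 + e / 2) * (G / 2 * (ν ^ 2 * L ^ n)) = G / 2 * ν ^ 2 * (1 + e / 4) * L ^ n +
          G / 2 * ν ^ 2 * (e / 4) * L ^ n := by ring
    have h3 : 0 ≤ tol * L ^ n := by positivity
    linarith only [h1, h2, h3, he₀1, htolν]
  · have h1 : (1 - 3 * √e) * N ≤ condN Ψ :=
      le_of_forall_pos_le_add fun ε' hε' => (red ε' hε').2
    have h2 : (1 - ε) * N ≤ (1 - 3 * √e) * N :=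
      mul_le_mul_of_nonneg_right (by linarith) (Nat.cast_nonneg N)
    exact h2.trans h1

end

end Pool.Agent.Y656
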