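import Pool.Agent.Y656.UpL

/-!
# The upper bound of the energy, with a rate and a weak hopping
-/

set_option autoImplicit false

open MeasureTheory
open scoped ENNReal

namespace Pool.Agent.Y656

open Pool.Agent.W761.CB Pool.Agent.W761.CC Pool.Agent.TH268.CC

noncomputable section

lemma uplk_c4 {C C₃ ν G x κ : ℝ} {n : ℕ} (hG : 0 < G) (hx : 1 ≤ x) (hCν : C * ν ≤ C₃ / x ^ 3)
    (hC₃ : 0 < C₃) (hC : C ≤ C₃ * x ^ (8 * n)) (hκ0 : 0 ≤ κ) (hκ : κ ≤ 1 / x ^ (8 * n + 3))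
    (y4 : 64 * C₃ ≤ x * G) : C * (ν + κ) ≤ G * (1 / x) / 32 := by
  have hx0 : 0 < x := by linarith
  have h1 : C * κ ≤ C₃ / x ^ 3 := by
    calc C * κ ≤ C₃ * x ^ (8 * n) * (1 / x ^ (8 * n + 3)) := mul_le_mul hC hκ hκ0 (by positivity)
      _ = C₃ / x ^ 3 := by rw [pow_add]; field_simp
  have h2 : C * (ν + κ) ≤ 2 * C₃ / x ^ 3 := by
    have : 2 * C₃ / x ^ 3 = C₃ / x ^ 3 + C₃ / x ^ 3 := by ring
    rw [this]
    linarith
  refine h2.trans ?_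
  rw [div_le_div_iff₀ (by positivity) (by norm_num)]
  have h5 : G * (1 / x) * x ^ 3 = x * G * x := by field_simp
  rw [h5]
  have h6 : x * G * 1 ≤ x * G * x := mul_le_mul_of_nonneg_left hx (by positivity)
  linarith only [h6, y4]

/-- the upper bound of the energy, with a rate and a weak hopping -/
theorem upLK (n : ℕ) (μ R₀ : ℝ) (v : ℝ → ℝ≥0∞) (hn : 3 ≤ n) (hμ : 0 < μ) (hv : Measurable v)
    (hvR : ∀ r, R₀ < r → v r = 0) (hG0 : 0 < scat n μ v) :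
    ∃ x₁ : ℝ, 1 ≤ x₁ ∧ ∀ x : ℝ, x₁ ≤ x → ∀ (L : ℝ) [Fact (0 < L)]
      (K : (Fin n → ℝ) → ℝ≥0∞) (N : ℕ) (ν : ℝ), Measurable K →
      ∫⁻ z, K z * ENNReal.ofReal (min 1 (el z ^ 2)) ≤ ENNReal.ofReal (1 / x ^ (8 * n + 3)) →
      x ^ (n ^ 3 + 4 * n ^ 2) ≤ L → ν = N / L ^ n →
      1 / 2 / x ^ (2 * (n ^ 3 + 4 * n ^ 2)) ≤ ν → ν ≤ 1 / x ^ (2 * (n ^ 3 + 4 * n ^ 2)) →
      ee n L (ENNReal.ofReal μ) K v N ≤
        ENNReal.ofReal (scat n μ v / 2 * ν ^ 2 * (1 + 1 / x) * L ^ n) := by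
  have hTF := Pool.Agent.W135.CB.proof_tf
  have hCONV := conv2 hTF
  have hKQ := Pool.Agent.W214.CC.main
  have hUPT := upt3 Pool.Agent.W216.CC.jas hTF
  have hn1 : 1 ≤ n := by omega
  obtain ⟨Cr, hCr, hrate⟩ := rate hKQ μ R₀ v hn hμ hv hvR hG0
  obtain ⟨G, hGdef⟩ : ∃ G : ℝ, G = scat n μ v := ⟨_, rfl⟩
  rw [← hGdef] at hG0 hrate ⊢
  have hvt : ∫⁻ z in {z : Fin n → ℝ | R₀ < el z}, v (el z) ≠ ⊤ := by
    have h1 : ∫⁻ z in {z : Fin n → ℝ | R₀ < el z}, v (el z) = 0 := by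
      rw [setLIntegral_congr_fun (g := fun _ => 0)
        (measurableSet_lt measurable_const Pool.Agent.W612.CC.el_meas) fun z hz => hvR _ hz]
      simp
    rw [h1]
    exact ENNReal.zero_ne_top
  -- the energy of one more particle
  obtain ⟨R, hRdef⟩ : ∃ R : ℝ, R = max 1 R₀ := ⟨_, rfl⟩
  have hR1 : 1 ≤ R := by rw [hRdef]; exact le_max_left _ _
  have hRR : R₀ ≤ R := by rw [hRdef]; exact le_max_right _ _
  have hR0 : 0 < R := by linarith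
  obtain ⟨Tv, hTvd⟩ : ∃ Tv : ℝ, Tv = (∫⁻ z : Fin n → ℝ, vo R₀ v (el z)).toReal := ⟨_, rfl⟩
  have hTv0 : 0 ≤ Tv := by rw [hTvd]; exact ENNReal.toReal_nonneg
  have hTv : ∫⁻ z : Fin n → ℝ, vo R₀ v (el z) ≤ ENNReal.ofReal Tv := by
    rw [hTvd, ENNReal.ofReal_toReal]
    rw [vo_int]
    exact hvt
  obtain ⟨D₀, hD₀⟩ : ∃ D₀ : ℝ, D₀ = 16 * (4 * R) ^ n * (n * μ + 1) + Tv := ⟨_, rfl⟩
  have hD₀0 : 0 < D₀ := by rw [hD₀]; positivity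
  -- the constants
  obtain ⟨c₁, hc₁⟩ : ∃ c₁ : ℝ, c₁ = Cr * 16 ^ 4 := ⟨_, rfl⟩
  have hc₁1 : 1 ≤ c₁ := by rw [hc₁]; linarith
  obtain ⟨C₃, hC₃⟩ : ∃ C₃ : ℝ, C₃ = (2 * c₁) ^ (2 * n) * (8 + 2 * μ * (G / μ) +
    3 * n * (G / μ)) := ⟨_, rfl⟩
  have hC₃0 : 0 < C₃ := by rw [hC₃]; positivity
  obtain ⟨x₁, hx₁⟩ : ∃ x₁ : ℝ, x₁ = 1 + 8 * c₁ + 8192 * D₀ ^ 2 * C₃ / G ^ 2 +
    8192 * D₀ ^ 2 / G ^ 2 + 64 * C₃ / G + C₃ + 2 * (4 * R) ^ n := ⟨_, rfl⟩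
  have p1 : 0 ≤ 8192 * D₀ ^ 2 * C₃ / G ^ 2 := by positivity
  have p2 : 0 ≤ 8192 * D₀ ^ 2 / G ^ 2 := by positivity
  have p3 : 0 ≤ 64 * C₃ / G := by positivity
  have p4 : 0 ≤ 2 * (4 * R) ^ n := by positivity
  refine ⟨x₁, by rw [hx₁]; linarith, ?_⟩
  intro x hx L _ K N ν hK hcK hL hν hν1 hν2
  rw [hx₁] at hx
  have hx1 : 1 ≤ x := by linarith
  have hx0 : 0 < x := by linarith
  have y1 : 8 * c₁ ≤ x := by linarith
  have y2 : 8192 * D₀ ^ 2 * C₃ / G ^ 2 ≤ x := by linarith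
  have y3 : 8192 * D₀ ^ 2 / G ^ 2 ≤ x := by linarith
  have y4 : 64 * C₃ / G ≤ x := by linarith
  have y5 : C₃ ≤ x := by linarith
  have y6 : 2 * (4 * R) ^ n ≤ x := by linarith
  rw [div_le_iff₀ (by positivity)] at y2 y3 y4
  have hLpos : 0 < L := Fact.out
  have hV : (0 : ℝ) < L ^ n := by positivity
  obtain ⟨m, hm⟩ : ∃ m : ℕ, m = n ^ 3 + 4 * n ^ 2 := ⟨_, rfl⟩
  rw [← hm] at hL hν1 hν2
  obtain ⟨hm9, hm5, hmn⟩ := upl_nat hn hm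
  have hν0 : 0 < ν := lt_of_lt_of_le (by positivity) hν1
  have hNν : (N : ℝ) = ν * L ^ n := by rw [hν]; field_simp
  have hN0 : (0 : ℝ) < N := by rw [hNν]; positivity
  have hN1 : 0 < N := by exact_mod_cast hN0
  obtain ⟨e, he⟩ : ∃ e : ℝ, e = 1 / x := ⟨_, rfl⟩
  have he0 : 0 < e := by rw [he]; positivity
  have he1 : e ≤ 1 := by rw [he, div_le_one hx0]; exact hx1
  have hex : e * x = 1 := by rw [he]; field_simp
  obtain ⟨af, haf⟩ : ∃ af : ℝ, af = c₁ * x ^ 4 := ⟨_, rfl⟩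
  have haf1 : 1 ≤ af := by
    rw [haf]
    have : 1 ≤ x ^ 4 := one_le_pow₀ hx1
    nlinarith
  obtain ⟨f, hfm, hfe, hf01, hfa, hfQ⟩ := hrate (e / 16) (by positivity) (by linarith) af (by
    rw [haf, hc₁, he]
    apply le_of_eq
    field_simp)
  have hfQ' : QD μ v Set.univ f ≤ ENNReal.ofReal (G / 2 + G * e / 32) := by
    refine hfQ.trans (le_of_eq ?_)
    congr 1
    ring
  have hQt : QD μ v Set.univ f ≠ ⊤ := ne_top_of_le_ne_top ENNReal.ofReal_ne_top hfQ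
  obtain ⟨C, hC0, hCe, hupt⟩ := hUPT n μ af v f hn1 hμ hv hfm hfe hf01 haf1 hfa hQt
  have hGr : (gr Set.univ f).toReal ≤ G / μ := by
    have h1 : ENNReal.ofReal μ * gr Set.univ f ≤ ENNReal.ofReal G := by
      calc ENNReal.ofReal μ * gr Set.univ f ≤ QD μ v Set.univ f := le_self_add
        _ ≤ _ := hfQ'.trans (ENNReal.ofReal_le_ofReal (by nlinarith))
    have h2 : gr Set.univ f ≤ ENNReal.ofReal (G / μ) := by
      rw [ENNReal.ofReal_div_of_pos hμ, ENNReal.le_div_iff_mul_le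
        (Or.inl (by rw [ne_eq, ENNReal.ofReal_eq_zero]; linarith)) (Or.inl ENNReal.ofReal_ne_top),
        mul_comm]
      exact h1
    exact ENNReal.toReal_le_of_le_ofReal (by positivity) h2
  have hCle : C ≤ C₃ * x ^ (8 * n) := by
    rw [hCe, hC₃]
    exact Cup_le hμ hc₁1 hx1 haf ENNReal.toReal_nonneg hGr
  have hCν : C * ν ≤ C₃ / x ^ 3 := upl_cν hx1 hν0 hC₃0 hCle hν2 hm9
  have hC1 : C * ν ≤ 1 := by
    refine hCν.trans ?_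
    rw [div_le_one (by positivity)]
    exact y5.trans (le_self_pow₀ hx1 (by norm_num))
  obtain ⟨t, ht⟩ : ∃ t : ℝ, t = G * e / (64 * D₀) := ⟨_, rfl⟩
  have ht0 : 0 < t := by rw [ht]; positivity
  have hD₀t : D₀ * t ≤ G * e / 64 := by
    rw [ht]
    refine le_of_eq ?_
    field_simp
  have ht' : t = G * (1 / x) / (64 * D₀) := by rw [ht, he]
  have hc2 : 2 * D₀ * C * ν / t ≤ G * e / 64 := by
    rw [he]
    exact upl_c2 hD₀0 hG0 hx0 ht' hCν y2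
  have hc3 : D₀ / t ≤ G * e / 64 * (ν * L ^ n) := by
    rw [he]
    exact upl_c3 hD₀0 hG0 hx1 hν0 ht' hL hν1 hmn y3
  obtain ⟨κ, hκ⟩ : ∃ κ : ℝ, κ = 1 / x ^ (8 * n + 3) := ⟨_, rfl⟩
  have hκ0 : 0 ≤ κ := by rw [hκ]; positivity
  have hκ1 : κ ≤ 1 := by
    rw [hκ, div_le_one (by positivity)]
    exact one_le_pow₀ hx1
  rw [← hκ] at hcK
  have hc4 : C * (ν + κ) ≤ G * e / 32 := by
    rw [he]
    exact uplk_c4 hG0 hx1 hCν hC₃0 hCle hκ0 hκ.le y4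
  have hLa : 8 * af ≤ L := by
    refine le_trans ?_ hL
    rw [haf]
    calc 8 * (c₁ * x ^ 4) = 8 * c₁ * x ^ 4 := by ring
      _ ≤ x * x ^ 4 := mul_le_mul_of_nonneg_right y1 (by positivity)
      _ = x ^ 5 := by ring
      _ ≤ x ^ m := pow_le_pow_right₀ hx1 hm5
  have hν01 : ν ≤ 1 := by
    refine hν2.trans ?_
    rw [div_le_one (by positivity)]
    exact one_le_pow₀ hx1
  have hgE : gEv (ENNReal.ofReal μ) K v (s1 n L R) ≤ ENNReal.ofReal D₀ := by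
    rw [hD₀]
    exact gE_D0 hTF hR1 hRR hμ hTv0 hv hTv (hcK.trans (by
      rw [← ENNReal.ofReal_one]; exact ENNReal.ofReal_le_ofReal hκ1))
  have hgv : gv (s1 n L R) ≤ ENNReal.ofReal ((4 * R) ^ n) := gv_s1 hR0
  have hN2 : 2 * (ENNReal.ofReal ((4 * R) ^ n) * N) ≤ ENNReal.ofReal (L ^ n) := by
    refine add_num (δ := ν) hR0 hLpos hNν.le ?_
    have h1 : ν ≤ 1 / x := by
      refine hν2.trans ?_
      apply one_div_le_one_div_of_le hx0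
      exact le_self_pow₀ hx1 (by omega)
    calc ν * (2 * (4 * R) ^ n) ≤ 1 / x * x := mul_le_mul h1 y6 p4 (by positivity)
      _ = 1 := by field_simp
  obtain ⟨Ca, hCa⟩ : ∃ Ca : ℝ, Ca = 2 * (D₀ * N) / L ^ n := ⟨_, rfl⟩
  have hCaE : 2 * (ENNReal.ofReal D₀ * N) / ENNReal.ofReal (L ^ n) = ENNReal.ofReal Ca := by
    rw [hCa]
    exact Ca_eq hLpos hD₀0
  obtain ⟨φ, hφ, hφ1, hφN, hφN2, hφE, hφ2⟩ := hupt L K κ ν hLa hK hκ0 hν0
    hν01 hcK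
  have hlowA : ee n L (ENNReal.ofReal μ) K v N * nE volume φ ≤
        en (ENNReal.ofReal μ) K v φ + ENNReal.ofReal Ca * dm volume N φ := by
    rw [← hCaE]
    exact low3v hTF hCONV (s1_Pf (n := n) (L := L) R) hK hv hgE hgv ENNReal.ofReal_ne_top hN2 φ hφ
  have hup0 := ee_upper hN1 hν hCa hD₀0.le hlowA hφ hφ1 hφN hφN2 hφE hφ2 hfQ' ht0 hG0 he0 hC0
      hκ0 hC1 hD₀t hc2 hc3 hc4
  refine hup0.trans (ENNReal.ofReal_le_ofReal ?_)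
  rw [← he]
  have : G / 2 * ν ^ 2 * (1 + e / 4) ≤ G / 2 * ν ^ 2 * (1 + e) := by
    apply mul_le_mul_of_nonneg_left _ (by positivity)
    linarith
  exact mul_le_mul_of_nonneg_right this hV.le

end

end Pool.Agent.Y656
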