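import Pool.Agent.Y656.AtI
import Pool.Agent.Y656.ChI
import Pool.Agent.Y656.Core2E
import Pool.Agent.Y656.LemI
import Pool.Agent.Y656.UpLK
import Pool.Agent.Y656.CapR
import Pool.Agent.Y656.Main4

/-!
# Complete condensation with a rate: soft potentials
-/

set_option autoImplicit false

open MeasureTheory
open scoped ENNReal

namespace Pool.Agent.Y656

open Pool.Agent.W761.CB Pool.Agent.W761.CC Pool.Agent.TH268.CC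

noncomputable section

/-- the cost of the weights -/
lemma costI {n : ℕ} {μ ρ Z ℓ : ℝ} (hn : 1 ≤ n) (hμ : 0 < μ) (hZ : 1 ≤ Z) (hρ : ρ = 1 / Z ^ 2)
    (hℓ : Z / 2 ≤ ℓ) {K : (Fin n → ℝ) → ℝ≥0∞}
    (hcost : ∫⁻ z, K z * ENNReal.ofReal (min 1 (el z ^ 2)) ≤ ENNReal.ofReal ρ) :
    ENNReal.ofReal μ * (∑ c : Fin n, ⨆ k : ℕ, 4 ^ k *
        ENNReal.ofReal (sm n ℓ (Pi.single c ((2 : ℝ)⁻¹ ^ k)))) +
      2⁻¹ * ∫⁻ z, K z * ENNReal.ofReal (sm n ℓ z) ≤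
      ENNReal.ofReal (64 * n * ((μ + 1) * ρ)) := by
  have hZ0 : 0 < Z := by linarith
  have hρ0 : 0 < ρ := by rw [hρ]; positivity
  have hρ1 : ρ ≤ 1 := by
    rw [hρ, div_le_one (by positivity)]
    exact one_le_pow₀ hZ
  have e1 : ρ ^ ((2 : ℝ) / 2) = ρ := by rw [div_self two_ne_zero, Real.rpow_one]
  have e2 : ρ ^ (-(1 / (2 : ℝ))) = Z := by
    rw [Real.rpow_neg hρ0.le, ← Real.sqrt_eq_rpow, hρ, ← one_div_pow,
      Real.sqrt_sq (by positivity), one_div, inv_inv]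
  have h1 := cost n 2 ρ 1 (μ + 1) ℓ hρ0 one_pos le_rfl hn (by rw [e2, one_mul]; exact hℓ)
    (ENNReal.ofReal μ) K (by
      rw [e1, ← ENNReal.ofReal_mul hμ.le]
      have h2 : ∫⁻ z, K z * ENNReal.ofReal (min 1 (ρ * el z ^ 2)) ≤ ENNReal.ofReal ρ := by
        refine le_trans (lintegral_mono fun z => ?_) hcost
        refine mul_le_mul_right ?_ _
        apply ENNReal.ofReal_le_ofReal
        apply min_le_min le_rfl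
        have : 0 ≤ el z ^ 2 := by positivity
        nlinarith
      refine (add_le_add le_rfl h2).trans ?_
      rw [← ENNReal.ofReal_add (by positivity) hρ0.le]
      apply ENNReal.ofReal_le_ofReal
      linarith)
  refine h1.trans (le_of_eq ?_)
  congr 1
  ring

/-- The main theorem for soft potentials, in terms of a power of the density. -/
theorem coreI (n k m : ℕ) (μ σ c R₀ : ℝ) (v : ℝ → ℝ≥0∞) (hn : 3 ≤ n) (hμ : 0 < μ) (hσ : 0 < σ)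
    (hσn : σ < n) (hk : 4 ≤ (k : ℝ) * (2 * n - σ)) (hm : m = n ^ 3 + 4 * n ^ 2) (hc : 0 < c)
    (hv : Measurable v) (hvR : ∀ r, R₀ < r → v r = 0)
    (hv0 : ∫⁻ z : Fin n → ℝ, v (el z) ≠ 0) (hvf : ∫⁻ z : Fin n → ℝ, v (el z) ≠ ⊤) :
    ∃ Ce w₀ : ℝ, 0 < Ce ∧ 1 ≤ w₀ ∧ ∀ w Z ρ : ℝ, w₀ ≤ w → Z = w ^ ((2 * k + 2) * m) →
      ρ = 1 / Z ^ 2 → ∃ c₁ L₀ : ℝ, 0 < c₁ ∧
      ∀ (L : ℝ) [Fact (0 < L)] (K : (Fin n → ℝ) → ℝ≥0∞), L₀ ≤ L → Measurable K →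
      ∫⁻ z, K z * ENNReal.ofReal (min 1 (el z ^ 2)) ≤ ENNReal.ofReal ρ →
      (∀ z, ENNReal.ofReal (c * Z ^ 2 / (Z ^ (3 * n) * w) * (1 + el z / Z) ^ (-(n + σ))) ≤ K z) →
      ∀ N : ℕ, ρ / 2 * L ^ n ≤ N → (N : ℝ) ≤ ρ * L ^ n →
      ∀ Ψ : (Fin N → Tor n L) → ℂ, IsWf2 Ψ →
        (∀ Φ : (Fin N → Tor n L) → ℂ, IsWf Φ →
          enN (ENNReal.ofReal μ) K v Ψ ≤ enN (ENNReal.ofReal μ) K v Φ +
            ENNReal.ofReal (c₁ * L ^ (n - σ))) →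
        (1 - 3 * √(Ce / w)) * N ≤ condN Ψ := by
  have hMS := Pool.Agent.W975.CB.proof_ms
  have hLAM := Pool.Agent.W366.CB.proof_lam hMS
  have hAD := Pool.Agent.W338.CB.proof_ad hMS hLAM
  have hW1 := Pool.Agent.W991.CB.proof_w1
  have hW2 := Pool.Agent.W174.CB.main hAD hW1
  have hW3 := Pool.Agent.W803.CB.w3 hW1
  have hDER := Pool.Agent.W99.CB.der hW1 hW3
  have hMOM := mom hW1 hW2 hW3 hDER Pool.Agent.W803.CB.par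
    Pool.Agent.W366.CB.proof_ibp Pool.Agent.W790.CB.proof_win
  have hTF := Pool.Agent.W135.CB.proof_tf
  have hHAT := Pool.Agent.W19.CB.hat_proof hTF
  have hGK := Pool.Agent.W249.CB.gk hTF hHAT Pool.Agent.W249.CB.sup
  have hDIA := Pool.Agent.W427.CB.dia Pool.Agent.W880.CB.dia0 hTF
  have hDE := Pool.Agent.W741.CB.proof_de hTF
  have hFIB := Pool.Agent.W131.CB.fib
  have hPO2 := Pool.Agent.W880.CB.po2 hFIB
  have hBLK := Pool.Agent.W374.CB2.Blk.blk hTF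
  have hLA1 := Pool.Agent.W372.CB.main hTF hBLK
  have hLA := Pool.Agent.W571.CB.La.proof_la hTF hBLK hLA1 hFIB
  have hCONV := conv2 hTF
  have hREF := Pool.Agent.W816.CB.cb_ref
  have hTRUNC := Pool.Agent.W376.CB.trunc
  have hKQ := Pool.Agent.W214.CC.main
  have hPOIC := Pool.Agent.W975.CC.main
  have hONE := Pool.Agent.W366.CC.One.one
  have hLAY := Pool.Agent.W806.CC.lay hONE
    (Pool.Agent.W554.CC.main hKQ hTF) hPO2 hFIB hTF hBLK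
  have hCRD := Pool.Agent.W688.CC.crd hBLK
  have hn1 : 1 ≤ n := by omega
  have hn3 : (3 : ℝ) ≤ n := by exact_mod_cast hn
  obtain ⟨hmA, hmB, hmC⟩ := m_natI hn hm
  have hvt0 : ∫⁻ z in {z : Fin n → ℝ | R₀ < el z}, v (el z) = 0 := by
    rw [setLIntegral_congr_fun (g := fun _ => 0)
      (measurableSet_lt measurable_const Pool.Agent.W612.CC.el_meas) fun z hz => hvR _ hz]
    simp
  have hvt : ∫⁻ z in {z : Fin n → ℝ | R₀ < el z}, v (el z) ≠ ⊤ := by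
    rw [hvt0]
    exact ENNReal.zero_ne_top
  have hG0 : 0 < scat n μ v := gposH μ R₀ v hn hμ hv hv0 hvt
  obtain ⟨Cc, hCc, hcapR⟩ := capR hKQ hPOIC μ R₀ v hn hμ hv hvR hG0
  obtain ⟨x₁, hx₁, hupL⟩ := upLK n μ R₀ v hn hμ hv hvR hG0
  obtain ⟨S, hS⟩ : ∃ S : ℝ, S = scat n μ v / 2 := ⟨_, rfl⟩
  have hS0 : 0 < S := by rw [hS]; linarith
  rw [← hS] at hcapR hupL
  obtain ⟨CP, hCPd⟩ : ∃ CP : ℝ, CP = n * 2 ^ n / μ := ⟨_, rfl⟩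
  have hCP : 0 < CP := by rw [hCPd]; positivity
  obtain ⟨CA, b₀, hCA, hb₀, hla⟩ := hLA n 2 CP v hn1 two_pos (by linarith) hCP.le hv hv0
  obtain ⟨D, x₀, hD, hx₀, hpar⟩ := parB n hn S μ CP CA b₀ Cc hS0 hμ hCP.le hCA
  obtain ⟨lam, mu, r', q, hlam0, hlm, hmu1, hr0', hmur, hlam2, hlams, hlamn, hq, -⟩ :=
    par2 n 2 σ 0 1 1 1 1 1 1 hn1 two_pos (by linarith) hσ hσn (by linarith) one_pos one_pos
      le_rfl one_pos one_pos one_pos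
  have hlam1 : lam < 1 := lt_of_le_of_lt hlm hmu1
  have hr1' : r' < 1 := by
    by_contra h
    have : 1 ≤ r' ^ 2 := one_le_pow₀ (not_lt.1 h)
    linarith
  have hq1 : q < 1 := by
    rw [hq]
    exact Real.rpow_lt_one_of_one_lt_of_neg (by norm_num) (by linarith)
  have h1q : 0 < 1 - q := by linarith
  have h1r : 0 < 1 - r' := by linarith
  have h1l : 0 < 1 - lam := by linarith
  -- the energy of one more particle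
  obtain ⟨Rv, hRdef⟩ : ∃ R : ℝ, R = max 1 R₀ := ⟨_, rfl⟩
  have hRv1 : 1 ≤ Rv := by rw [hRdef]; exact le_max_left _ _
  have hRvR : R₀ ≤ Rv := by rw [hRdef]; exact le_max_right _ _
  have hRv0 : 0 < Rv := by linarith
  have hTv : ∫⁻ z : Fin n → ℝ, vo R₀ v (el z) ≤ ENNReal.ofReal 0 := by
    rw [vo_int, hvt0]
    exact bot_le
  obtain ⟨D₀, hD₀⟩ : ∃ D₀ : ℝ, D₀ = 16 * (4 * Rv) ^ n * (n * μ + 1) + 0 := ⟨_, rfl⟩
  have hD₀0 : 0 < D₀ := by rw [hD₀]; positivity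
  obtain ⟨C₁, hC₁⟩ : ∃ C₁ : ℝ, C₁ = S * (9 + 6 * (2 * D)) + 2 * (2 * D) := ⟨_, rfl⟩
  have hC₁0 : 0 < C₁ := by rw [hC₁]; positivity
  obtain ⟨c₄, hc₄⟩ : ∃ c₄ : ℝ, c₄ = 4 ^ n * 8 * n / μ := ⟨_, rfl⟩
  have hc₄0 : 0 < c₄ := by rw [hc₄]; positivity
  obtain ⟨Ce, hCe⟩ : ∃ Ce : ℝ, Ce = 4 + 2 * C₁ / S + 4 * S * c₄ + 19 * D + 4 * D / S := ⟨_, rfl⟩
  have hCe0 : 0 < Ce := by rw [hCe]; positivity
  obtain ⟨vI, hvI⟩ : ∃ vI : ℝ, vI = (∫⁻ z : Fin n → ℝ, v (el z)).toReal := ⟨_, rfl⟩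
  have hvI0 : 0 < vI := by rw [hvI]; exact ENNReal.toReal_pos hv0 hvf
  obtain ⟨v₁, hv₁⟩ : ∃ v₁ : ℝ, v₁ = 2 * D₀ + vI := ⟨_, rfl⟩
  have hv₁0 : 0 < v₁ := by rw [hv₁]; positivity
  have hv1 : ∫⁻ z : Fin n → ℝ, v (el z) ≤ ENNReal.ofReal v₁ := by
    rw [← ENNReal.ofReal_toReal hvf, ← hvI]
    exact ENNReal.ofReal_le_ofReal (by rw [hv₁]; linarith)
  obtain ⟨c', hc'⟩ : ∃ c' : ℝ, c' = c * (1 + 2 * √n) ^ (-(n + σ)) / 8 ^ n := ⟨_, rfl⟩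
  have hc'0 : 0 < c' := by rw [hc']; positivity
  obtain ⟨CF, hCF⟩ : ∃ CF : ℝ, CF = 2 * (2 + √(7 / (1 - lam))) * v₁ + 25 * v₁ +
    64 * n * (μ + 1) := ⟨_, rfl⟩
  have hCF0 : 0 < CF := by rw [hCF]; positivity
  obtain ⟨CB, hCB⟩ : ∃ CB : ℝ, CB = (2 : ℝ) ^ σ * CF * 32768 / ((1 - r') ^ 4 * (1 - lam)) :=
    ⟨_, rfl⟩
  have hCB0 : 0 < CB := by rw [hCB]; positivity
  obtain ⟨CG, hCG⟩ : ∃ CG : ℝ, CG = 1 + 8 * CF / S := ⟨_, rfl⟩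
  have hCG1 : 1 ≤ CG := by
    rw [hCG]
    have : 0 < 8 * CF / S := by positivity
    linarith
  obtain ⟨CAA, hCAA⟩ : ∃ CAA : ℝ, CAA = 1024 * 2 ^ n / ((1 - r') ^ 2 * Ce * (1 - lam)) * CG :=
    ⟨_, rfl⟩
  have hCG0 : 0 < CG := by linarith
  have hCAA0 : 0 < CAA := by rw [hCAA]; positivity
  have hRn : 0 < 2 * (4 * Rv) ^ n := by positivity
  have hCBc : 0 < CB / (Ce ^ 2 * c') := by positivity
  have h2n0 : (0 : ℝ) < 2 ^ n := by positivity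
  obtain ⟨w₀, hw₀⟩ : ∃ w₀ : ℝ, w₀ = x₀ + x₁ + 100 * Ce + CAA + CB / (Ce ^ 2 * c') +
    2 * (4 * Rv) ^ n + 2 ^ n := ⟨_, rfl⟩
  refine ⟨Ce, w₀, hCe0, by rw [hw₀]; linarith, ?_⟩
  intro w Z ρ hww hZ hρ
  have w1 : x₀ ≤ w := by rw [hw₀] at hww; linarith
  have w2 : x₁ ≤ w := by rw [hw₀] at hww; linarith
  have w3 : 100 * Ce ≤ w := by rw [hw₀] at hww; linarith
  have w4 : CAA ≤ w := by rw [hw₀] at hww; linarith
  have w5 : CB / (Ce ^ 2 * c') ≤ w := by rw [hw₀] at hww; linarith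
  have w6 : 2 * (4 * Rv) ^ n ≤ w := by rw [hw₀] at hww; linarith
  have w7 : 2 ^ n ≤ w := by rw [hw₀] at hww; linarith
  have hw4 : 4 ≤ w := by linarith
  have hw1 : 1 ≤ w := by linarith
  have hw0 : 0 < w := by linarith
  obtain ⟨x, hx⟩ : ∃ x : ℝ, x = w ^ (2 * k + 2) := ⟨_, rfl⟩
  have hwx : w ≤ x := by rw [hx]; exact le_self_pow₀ hw1 (by omega)
  have hx4 : 4 ≤ x := by linarith
  have hx1 : 1 ≤ x := by linarith
  have hx0 : 0 < x := by linarith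
  have hZx : Z = x ^ m := by rw [hZ, hx, ← pow_mul]
  have hZ1 : 1 ≤ Z := by rw [hZx]; exact one_le_pow₀ hx1
  have hZ0 : 0 < Z := by linarith
  have hx3Z : x ^ 3 ≤ Z := by rw [hZx]; exact pow_le_pow_right₀ hx1 hmC
  have hxZ : x ≤ Z := by
    refine le_trans ?_ hx3Z
    exact le_self_pow₀ hx1 (by norm_num)
  obtain ⟨W, hW⟩ : ∃ W : ℝ, W = w ^ k := ⟨_, rfl⟩
  have hW1 : 1 ≤ W := by rw [hW]; exact one_le_pow₀ hw1
  have hW0 : 0 < W := by linarith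
  obtain ⟨t, ht⟩ : ∃ t : ℝ, t = w ^ (2 * k + 1) := ⟨_, rfl⟩
  have ht0 : 0 < t := by rw [ht]; positivity
  obtain ⟨e, he⟩ : ∃ e : ℝ, e = Ce / w := ⟨_, rfl⟩
  have he0 : 0 < e := by rw [he]; positivity
  have he1 : e ≤ 1 / 100 := by
    rw [he, div_le_iff₀ hw0]
    linarith
  obtain ⟨lc1, lc2, lc3, lc4, lc5⟩ := lCI hS0 hD hC₁0 hc₄0 hCe hw1 hwx he
  rw [← he]
  have hρ0 : 0 < ρ := by rw [hρ]; positivity
  have hρ1 : ρ ≤ 1 := by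
    rw [hρ, div_le_one (by positivity)]
    exact one_le_pow₀ hZ1
  obtain ⟨Λ, hΛ⟩ : ∃ Λ : ℝ, Λ = Z * W := ⟨_, rfl⟩
  have hΛ0 : 0 < Λ := by rw [hΛ]; positivity
  obtain ⟨c₀, hc₀⟩ : ∃ c₀ : ℝ, c₀ = c * Z ^ 2 / (Z ^ (3 * n) * w) := ⟨_, rfl⟩
  have hc₀0 : 0 < c₀ := by rw [hc₀]; positivity
  obtain ⟨Γ, hΓ⟩ : ∃ Γ : ℝ, Γ = c₀ * (W * (1 + 2 * √n)) ^ (-(n + σ)) := ⟨_, rfl⟩
  have hΓ0 : 0 < Γ := by rw [hΓ]; positivity
  obtain ⟨κ₀, hκ₀⟩ : ∃ κ₀ : ℝ, κ₀ = (1 - q) ^ 2 * e / 64 * ρ * ((Λ / 2) ^ n * Γ) := ⟨_, rfl⟩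
  have hκ₀0 : 0 < κ₀ := by rw [hκ₀]; positivity
  obtain ⟨r2, hr2⟩ : ∃ r2 : ℝ, r2 = (2 : ℝ) ^ (-σ) := ⟨_, rfl⟩
  have hr20 : 0 < r2 := by rw [hr2]; positivity
  have hr21 : r2 < 1 := by
    rw [hr2]
    exact Real.rpow_lt_one_of_one_lt_of_neg (by norm_num) (by linarith)
  have h1r2 : 0 < 1 - r2 := by linarith
  obtain ⟨am, ham⟩ : ∃ am : ℝ, am = (8 * ρ + 1 / (Λ / 2) ^ n) / (1 - r2) := ⟨_, rfl⟩
  have ham0 : 0 < am := by rw [ham]; positivity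
  obtain ⟨κ₂, hκ₂⟩ : ∃ κ₂ : ℝ, κ₂ = ρ * v₁ * √(am * ρ) * (2 : ℝ) ^ σ / ((Λ / 2) ^ n * Γ) :=
    ⟨_, rfl⟩
  have hκ₂0 : 0 < κ₂ := by rw [hκ₂]; positivity
  obtain ⟨J₁, hJ₁⟩ := geo_small σ κ₀ (S * ρ ^ 2 / (8 * x)) hσ hκ₀0 (by positivity)
  obtain ⟨J₂, hJ₂⟩ := geo_small ((n - σ) / 2) κ₂ ((1 - q) ^ 2 * e / 64 * ρ) (by linarith) hκ₂0
    (by positivity)
  obtain ⟨J₀, hJ₀⟩ : ∃ J₀ : ℕ, J₀ = max J₁ J₂ := ⟨_, rfl⟩
  refine ⟨κ₀ * (Λ / 2) ^ σ / 2, max Z (Λ / 2 * 2 ^ (J₀ + 3)), by positivity, ?_⟩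
  intro L _ K hL₀ hK hcost0 hLB0 N hNlo hNhi Ψ hΨ hnear
  rw [← hc₀] at hLB0
  have hcost : ∫⁻ z, K z * ENNReal.ofReal (min 1 (el z ^ 2)) ≤ ENNReal.ofReal (1 / Z) := by
    refine hcost0.trans (ENNReal.ofReal_le_ofReal ?_)
    rw [hρ]
    exact one_div_le_one_div_of_le hZ0 (le_self_pow₀ hZ1 (by norm_num))
  have hLpos : 0 < L := Fact.out
  have hLZ : Z ≤ L := (le_max_left _ _).trans hL₀
  have hLJ : Λ / 2 * 2 ^ (J₀ + 3) ≤ L := (le_max_right _ _).trans hL₀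
  have hL1 : 1 ≤ L := hZ1.trans hLZ
  have hV : (0 : ℝ) < L ^ n := by positivity
  have hPO : PO n L 2 CP (ENNReal.ofReal μ) K := by
    rw [hCPd]; exact Pool.Agent.W753.CB.main n L μ K hμ
  have hPO0 : PO n L 2 CP (ENNReal.ofReal μ) (fun _ => 0) := by
    rw [hCPd]; exact Pool.Agent.W753.CB.main n L μ _ hμ
  -- the density
  obtain ⟨ν, hν⟩ : ∃ ν : ℝ, ν = N / L ^ n := ⟨_, rfl⟩
  have hν1 : ρ / 2 ≤ ν := by rw [hν, le_div_iff₀ hV]; exact hNlo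
  have hν2 : ν ≤ ρ := by rw [hν, div_le_iff₀ hV]; exact hNhi
  have hν0 : 0 < ν := by linarith
  have hNν : (N : ℝ) = ν * L ^ n := by rw [hν]; field_simp
  have hN0 : (0 : ℝ) < N := by rw [hNν]; positivity
  have hN1 : 0 < N := by exact_mod_cast hN0
  obtain ⟨P, hP⟩ : ∃ P, P = ν ^ 2 * L ^ n := ⟨_, rfl⟩
  have hP0 : 0 < P := by rw [hP]; positivity
  have hx2m : x ^ (2 * (n ^ 3 + 4 * n ^ 2)) = Z ^ 2 := by
    rw [hZx, ← hm, ← pow_mul]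
    congr 1
    ring
  have hxmZ : x ^ (n ^ 3 + 4 * n ^ 2) = Z := by rw [hZx, hm]
  have hνa : 1 / 2 / x ^ (2 * (n ^ 3 + 4 * n ^ 2)) ≤ ν := by
    rw [hx2m]
    refine le_trans (le_of_eq ?_) hν1
    rw [hρ]
    ring
  have hνb : ν ≤ 1 / x ^ (2 * (n ^ 3 + 4 * n ^ 2)) := by
    rw [hx2m, ← hρ]
    exact hν2
  have hcost2 : ∫⁻ z, K z * ENNReal.ofReal (min 1 (el z ^ 2)) ≤
      ENNReal.ofReal (1 / x ^ (8 * n + 3)) := by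
    refine hcost.trans (ENNReal.ofReal_le_ofReal ?_)
    apply one_div_le_one_div_of_le (by positivity)
    rw [hZx]
    exact pow_le_pow_right₀ hx1 hmA
  have hup := hupL x (w2.trans hwx) L K N ν hK hcost2 (by rw [hxmZ]; exact hLZ) hν hνa hνb
  -- the smallest scale
  have h2J : (1 : ℝ) ≤ 2 ^ (J₀ + 3) := one_le_pow₀ (by norm_num)
  have hLΛ : 2 ^ (J₀ + 3) ≤ L / (Λ / 2) := by
    rw [le_div_iff₀ (by positivity)]
    linarith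
  obtain ⟨J, hJ1, hJ2⟩ := near 2 (L / (Λ / 2)) (by norm_num) (h2J.trans hLΛ)
  have hJJ : J₀ + 3 ≤ J := by
    by_contra hcon
    have h3 : (2 : ℝ) ^ (J + 1) ≤ 2 ^ (J₀ + 3) := pow_le_pow_right₀ (by norm_num) (by omega)
    linarith
  have h2Jp : (0 : ℝ) < 2 ^ J := by positivity
  obtain ⟨ℓ, hℓdef⟩ : ∃ ℓ : ℝ, ℓ = L / 2 ^ J := ⟨_, rfl⟩
  have hℓ0 : 0 < ℓ := by rw [hℓdef]; positivity
  have hLℓ : L = 2 ^ J * ℓ := by rw [hℓdef]; field_simp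
  have hℓ1 : Λ / 2 ≤ ℓ := by
    rw [hℓdef, le_div_iff₀ h2Jp]
    rw [le_div_iff₀ (by positivity)] at hJ1
    linarith
  have hℓ2 : ℓ ≤ Λ := by
    rw [hℓdef, div_le_iff₀ h2Jp]
    rw [div_lt_iff₀ (by positivity), pow_succ] at hJ2
    linarith
  -- the blocks
  have hBℓ : x ^ (2 * n ^ 2 + 8 * n + 2) ≤ ℓ := by
    have h1 : x ^ (2 * n ^ 2 + 8 * n + 2) * x ≤ Z := by
      rw [← pow_succ, hZx]
      exact pow_le_pow_right₀ hx1 hmB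
    have h2 : 0 < x ^ (2 * n ^ 2 + 8 * n + 2) := by positivity
    have h3 : x ^ (2 * n ^ 2 + 8 * n + 2) * 2 ≤ x ^ (2 * n ^ 2 + 8 * n + 2) * x :=
      mul_le_mul_of_nonneg_left (by linarith) h2.le
    have h4 : Z * 1 ≤ Z * W := mul_le_mul_of_nonneg_left hW1 hZ0.le
    rw [hΛ] at hℓ1
    linarith
  obtain ⟨s, b, hℓb, hbB, hbB2⟩ := scale_nearI (by positivity) hBℓ
  obtain ⟨s₁, hs1, hs2⟩ := two_pow_nearI (y := x ^ 3) (one_le_pow₀ hx1)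
  obtain ⟨b₁, r, r₀, R, hbb, hb₁0, hb₀b, hb1, h4r, hrR, hR1, hr₀r, hr₀0, hcr, hRν, hpars⟩ :=
    hpar x (w1.trans hwx) L ν b ((2 ^ s₁ : ℕ) : ℝ) hLpos hνa hνb hbB hbB2 hs1 hs2
  have hM1 : 1 ≤ 2 ^ s₁ := Nat.one_le_two_pow
  have hr0 : 0 < r := lt_of_lt_of_le hr₀0 hr₀r
  have hb0 : 0 < b := by linarith
  have hux0 : 0 < 1 / x := by positivity
  have hux1 : 1 / x < 1 := by rw [div_lt_one hx0]; linarith
  have h1u : 0 < 1 - 1 / x := by linarith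
  have hcapr := hcapR (1 / x) hux0 hux1.le
  have hcr' : Cc / (1 / x) ^ 8 ≤ r₀ := by
    refine le_trans (le_of_eq ?_) hcr
    field_simp
  obtain ⟨γ₀, hγ₀⟩ : ∃ γ₀ : ℝ, γ₀ = S * (1 - 1 / x) := ⟨_, rfl⟩
  have hγ₀0 : 0 < γ₀ := by rw [hγ₀]; positivity
  have hγ₀S : γ₀ ≤ S := by
    rw [hγ₀]
    have : S * (1 - 1 / x) ≤ S * 1 := mul_le_mul_of_nonneg_left (by linarith) hS0.le
    linarith
  rw [← hγ₀] at hcapr
  obtain ⟨p1, p2, p3, p4⟩ := hpars γ₀ hγ₀0 hγ₀S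
  have hq8 : 8 ≤ 2 ^ J * 2 ^ s * 2 ^ s₁ := by
    have h1 : 2 ^ 3 ≤ 2 ^ J := Nat.pow_le_pow_right (by norm_num) (by omega)
    have h2 : 1 ≤ 2 ^ s := Nat.one_le_two_pow
    have h3 : 1 ≤ 2 ^ s₁ := Nat.one_le_two_pow
    calc 8 = 2 ^ 3 * 1 * 1 := by norm_num
      _ ≤ 2 ^ J * 2 ^ s * 2 ^ s₁ := Nat.mul_le_mul (Nat.mul_le_mul h1 h2) h3
  have hla1 := fun (F : Multiset (Tor n L) → ℂ) (hF : EB F) =>
    (hla L b₁ (2 ^ J * 2 ^ s * 2 ^ s₁) (ENNReal.ofReal μ) K hb₀b (by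
      rw [hLℓ, hℓb, hbb]
      push_cast
      ring) hq8 hK hPO F hF).1
  have h2s : ((2 ^ s₁ : ℕ) : ℝ) = 2 ^ s₁ := by push_cast; rfl
  have hR0 : 0 < R := by linarith
  obtain ⟨X3, hX3⟩ : ∃ X3 : ℝ, X3 = γ₀ * (5 * (2 * ((2 ^ s₁ : ℕ) : ℝ) ^ n) ^ 2 / b ^ n +
    2 * ((2 ^ s₁ : ℕ) : ℝ) ^ n / (1 / x * (2 * r₀) ^ n)) * (CP * b ^ 2) := ⟨_, rfl⟩
  obtain ⟨Y3, hY3⟩ : ∃ Y3 : ℝ, Y3 = γ₀ * (L ^ n / b ^ n) * (2 * ((2 ^ s₁ : ℕ) : ℝ) ^ n / b ^ n +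
    (2 * ((2 ^ s₁ : ℕ) : ℝ) ^ n) ^ 2 / b ^ n * (4 * n * r / b +
      2 * (2 * ((2 ^ s₁ : ℕ) : ℝ) ^ n) * (4 * r / b) ^ n)) := ⟨_, rfl⟩
  obtain ⟨CE, hCE⟩ : ∃ CE : ℝ, CE = (1 + 1 / (1 / x)) * μ * (2 * n * ((60 * r₀ / r) ^ n / R ^ 2)) :=
    ⟨_, rfl⟩
  have hX30 : 0 ≤ X3 := by rw [hX3]; positivity
  have hY30 : 0 ≤ Y3 := by rw [hY3]; positivity
  have hCE0 : 0 ≤ CE := by rw [hCE]; positivity
  have p1' : X3 ≤ D / x := by rw [hX3]; exact p1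
  have p3' : Y3 ≤ D / x * (ν ^ 2 * L ^ n) := by rw [hY3]; exact p3
  have p4' : CE * (ν * L ^ n) ≤ D / x * (ν ^ 2 * L ^ n) := by rw [hCE]; exact p4
  -- the measured densities
  obtain ⟨κ, hκ⟩ : ∃ κ : ℝ, κ = 2 * (2 ^ s₁) ^ n := ⟨_, rfl⟩
  have hκ0 : 0 < κ := by rw [hκ]; positivity
  have hκM : 2 * ((2 ^ s₁ : ℕ) : ℝ) ^ n = κ := by rw [hκ, h2s]
  rw [hκM] at p1 p3
  obtain ⟨X', hX'⟩ : ∃ X' : ℝ, X' = γ₀ * (5 * κ ^ 2 / b ^ n + κ / (1 / x * (2 * r) ^ n)) *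
    (CP * b ^ 2) := ⟨_, rfl⟩
  have hX'0 : 0 ≤ X' := by rw [hX']; positivity
  have hX'D : X' ≤ D / x := by
    refine le_trans ?_ p1
    rw [hX']
    gcongr
  obtain ⟨Tb, hTb⟩ : ∃ Tb : ℝ, Tb = κ / b ^ n + κ ^ 2 / b ^ n *
    (4 * n * r / b + 2 * κ * (4 * r / b) ^ n) := ⟨_, rfl⟩
  have hTb0 : 0 ≤ Tb := by rw [hTb]; positivity
  rw [← hTb] at p3
  obtain ⟨a, ha⟩ : ∃ a : ℝ, a = (1 + X') / (γ₀ * (1 - 1 / x) * ν ^ 2) +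
    12 * (CA * b₁ ^ n) / ν := ⟨_, rfl⟩
  obtain ⟨a₂, ha₂⟩ : ∃ a₂ : ℝ, a₂ = γ₀ * (1 / b ^ n) * Tb / (γ₀ * (1 - 1 / x) * ν ^ 2) :=
    ⟨_, rfl⟩
  have ha0 : 0 ≤ a := by rw [ha]; positivity
  have ha₂0 : 0 ≤ a₂ := by rw [ha₂]; positivity
  have haB : a ≤ 2 / (2 * S * ν ^ 2) * (1 + e) := by
    rw [ha]
    refine (aR1 hS0 hD hx4 hν0 hγ₀ hX'D (by positivity) p2).trans ?_
    have h1 : 2 / (2 * S * ν ^ 2) = 1 / (S * ν ^ 2) := by field_simp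
    rw [h1]
    gcongr
  have ha₂B : a₂ ≤ e := (aR2 hS0 hx4 hν0 hγ₀ hV (by linarith) p3 ha₂).trans lc2
  have hHP0 : ∀ F : Multiset (Tor n L) → ℂ, EB F → ENNReal.ofReal (ℓ ^ n) *
      ∑ i, ∫⁻ γ, ENNReal.ofReal (pf (((ms γ).map (hf n L ℓ (2 ^ J) i)).sum / (ℓ ^ n * ν))) *
        ‖F (ms γ)‖ₑ ^ 2 ∂(Pool.Agent.W761.CB.lam (volume : Measure (Tor n L))) ≤
      ENNReal.ofReal a * en (ENNReal.ofReal μ) K v F +
        ENNReal.ofReal (a₂ * L ^ n) * nE volume F := by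
    intro F hF
    have h1 := hp_core hLAY hCRD Pool.Agent.W460.CC.proof_tr Pool.Agent.W935.CC.cvx hTF hBLK hn1
      hK hv hμ hγ₀0 (hcapr r (hcr'.trans hr₀r)) hPO0 hCP.le
      hCA hux0 hux1 hr0 h4r hb1 hb₁0 hν0 (by omega) hLℓ hℓb (by rw [hbb, h2s]) hla1 hκ hX' rfl F hF
    rw [← ha] at h1
    refine h1.trans (le_of_eq ?_)
    congr 3
    rw [ha₂, hTb]
    ring
  -- the energy and the averaged part of the kinetic energy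
  have hq2 : 2 ≤ 2 ^ J * 2 ^ s := by
    have h1 : 2 ^ 1 ≤ 2 ^ J := Nat.pow_le_pow_right (by norm_num) (by omega)
    have h2 : 1 ≤ 2 ^ s := Nat.one_le_two_pow
    calc 2 = 2 ^ 1 * 1 := by norm_num
      _ ≤ 2 ^ J * 2 ^ s := Nat.mul_le_mul h1 h2
  have hLq : L = ((2 ^ J * 2 ^ s : ℕ) : ℝ) * b := by
    rw [hLℓ, hℓb]
    push_cast
    ring
  have hlow3 : ∀ F : Multiset (Tor n L) → ℂ, EB F →
      ENNReal.ofReal (2 * γ₀ * (1 - 1 / x) * ν) * nuE volume F + ENNReal.ofReal μ * lowk R F ≤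
      ENNReal.ofReal (1 + 1 / x + X3 + 4 * γ₀ * ν * (CA * b₁ ^ n)) *
          en (ENNReal.ofReal μ) K v F +
        ENNReal.ofReal (Y3 + γ₀ * (1 - 1 / x) * ν ^ 2 * L ^ n) * nE volume F +
        ENNReal.ofReal CE * nuE volume F := fun F hF =>
    hp3 hKQ hONE hPO2 hTF hBLK hCRD hμ hv hγ₀0 (hcapr r₀ hcr') hPO0 hCP.le hCA hux0 hux1 hux0 hr₀0
      hr₀r hrR hR1 h4r hb1 hq2 hM1 hLq hbb hb₁0 hν0 hla1 hX3 hY3 hCE hF
  obtain ⟨A₁, hA₁⟩ : ∃ A₁ : ℝ, A₁ = 2 * γ₀ * (1 - 1 / x) * ν := ⟨_, rfl⟩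
  obtain ⟨A₂, hA₂⟩ : ∃ A₂ : ℝ, A₂ = 1 + 1 / x + X3 + 4 * γ₀ * ν * (CA * b₁ ^ n) := ⟨_, rfl⟩
  obtain ⟨A₃, hA₃⟩ : ∃ A₃ : ℝ, A₃ = Y3 + γ₀ * (1 - 1 / x) * ν ^ 2 * L ^ n := ⟨_, rfl⟩
  have hA₁0 : 0 ≤ A₁ := by rw [hA₁]; positivity
  have hA₂0 : 0 ≤ A₂ := by rw [hA₂]; positivity
  have hA₃0 : 0 ≤ A₃ := by rw [hA₃]; positivity
  rw [← hA₁, ← hA₂, ← hA₃] at hlow3
  have hA₂b : A₂ ≤ 1 + (1 + 2 * D) / x := by
    have : (1 + 2 * D) / x = 1 / x + D / x + D / x := by ring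
    rw [hA₂, this]
    linarith
  have hA₃b : A₃ ≤ D / x * P + γ₀ * (1 - 1 / x) * P := by
    have : γ₀ * (1 - 1 / x) * ν ^ 2 * L ^ n = γ₀ * (1 - 1 / x) * (ν ^ 2 * L ^ n) := by ring
    rw [hA₃, hP, this]
    linarith
  have hcNb : CE * N ≤ D / x * P := by rw [hNν, hP]; exact p4'
  obtain ⟨enc, henc⟩ : ∃ enc : (Multiset (Tor n L) → ℂ) → ℝ≥0∞, enc = fun F =>
    en (ENNReal.ofReal μ) K v F + ENNReal.ofReal t * (ENNReal.ofReal μ * lowk R F) := ⟨_, rfl⟩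
  have hHP : ∀ F : Multiset (Tor n L) → ℂ, EB F → ENNReal.ofReal (ℓ ^ n) *
      ∑ i, ∫⁻ γ, ENNReal.ofReal (pf (((ms γ).map (hf n L ℓ (2 ^ J) i)).sum / (ℓ ^ n * ν))) *
        ‖F (ms γ)‖ₑ ^ 2 ∂(Pool.Agent.W761.CB.lam (volume : Measure (Tor n L))) ≤
      ENNReal.ofReal a * enc F + ENNReal.ofReal (a₂ * L ^ n) * nE volume F := by
    intro F hF
    refine (hHP0 F hF).trans ?_
    rw [henc]
    gcongr
    exact le_self_add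
  obtain ⟨Pc, hPc⟩ : ∃ Pc : ℝ, Pc = c₄ * ℓ ^ 2 / t + c₄ * R ^ 2 := ⟨_, rfl⟩
  have hPc0 : 0 ≤ Pc := by rw [hPc]; positivity
  have hPce : Pc * (2 * S * ν) ≤ e := by
    rw [hPc]
    exact lPI hS0 hc₄0 hw1 hW ht hν0 (by rw [← hρ]; exact hν2) hZ0 hℓ0 (by rw [← hΛ]; exact hℓ2)
      hRν hwx lc3
  have hcoh : ∀ F : Multiset (Tor n L) → ℂ, EB F → ENNReal.ofReal (ℓ ^ n) * nuE volume F ≤
      ∑ i, nE volume (ag volume (hf n L ℓ (2 ^ J) i) F) +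
        ENNReal.ofReal (ℓ ^ n * Pc) * enc F := by
    intro F hF
    have h1 := cohL (q := 2 ^ J) hHAT hGK hμ hR0 Nat.one_le_two_pow
      (by rw [hLℓ]; push_cast; rfl) hF
    refine h1.trans ?_
    rw [add_assoc]
    refine add_le_add le_rfl ?_
    have hke0 : ken (ENNReal.ofReal μ) (fun _ => 0) F ≤ ken (ENNReal.ofReal μ) K F := by
      unfold ken
      refine add_le_add le_rfl ?_
      unfold Hp
      simp
    have hke : ken (ENNReal.ofReal μ) (fun _ => 0) F ≤ en (ENNReal.ofReal μ) K v F :=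
      hke0.trans le_self_add
    have e1 : ENNReal.ofReal (ℓ ^ n * (4 ^ n * 8 * n * ℓ ^ 2 / μ)) ≤
        ENNReal.ofReal (ℓ ^ n * Pc) * ENNReal.ofReal t := by
      rw [← ENNReal.ofReal_mul (by positivity)]
      apply ENNReal.ofReal_le_ofReal
      have h2 : 4 ^ n * 8 * n * ℓ ^ 2 / μ = c₄ * ℓ ^ 2 := by rw [hc₄]; ring
      have h3 : c₄ * ℓ ^ 2 ≤ Pc * t := by
        have : Pc * t = c₄ * ℓ ^ 2 + c₄ * R ^ 2 * t := by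
          rw [hPc]
          field_simp
        rw [this]
        have : 0 ≤ c₄ * R ^ 2 * t := by positivity
        linarith
      rw [h2, mul_assoc]
      exact mul_le_mul_of_nonneg_left h3 (by positivity)
    have e2 : ENNReal.ofReal (ℓ ^ n * (4 ^ n * 8 * n * R ^ 2 / μ)) ≤
        ENNReal.ofReal (ℓ ^ n * Pc) := by
      apply ENNReal.ofReal_le_ofReal
      have h2 : 4 ^ n * 8 * n * R ^ 2 / μ = c₄ * R ^ 2 := by rw [hc₄]; ring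
      rw [h2, hPc]
      apply mul_le_mul_of_nonneg_left _ (by positivity)
      have : 0 ≤ c₄ * ℓ ^ 2 / t := by positivity
      linarith
    rw [henc]
    calc ENNReal.ofReal (ℓ ^ n * (4 ^ n * 8 * n * ℓ ^ 2 / μ)) * (ENNReal.ofReal μ * lowk R F) +
          ENNReal.ofReal (ℓ ^ n * (4 ^ n * 8 * n * R ^ 2 / μ)) *
            ken (ENNReal.ofReal μ) (fun _ => 0) F ≤
          ENNReal.ofReal (ℓ ^ n * Pc) * ENNReal.ofReal t * (ENNReal.ofReal μ * lowk R F) +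
          ENNReal.ofReal (ℓ ^ n * Pc) * en (ENNReal.ofReal μ) K v F :=
        add_le_add (mul_le_mul' e1 le_rfl) (mul_le_mul' e2 hke)
      _ = _ := by ring
  -- the tolerance
  obtain ⟨tol, htol⟩ : ∃ tol : ℝ, tol = κ₀ * (2 : ℝ) ^ (-(σ * J)) := ⟨_, rfl⟩
  have htol0 : 0 < tol := by rw [htol]; positivity
  have htol1 : tol ≤ S * ρ ^ 2 / (8 * x) := by rw [htol]; exact hJ₁ J (by omega)
  have htolV := tol_vol (n := n) hLpos hℓ0 hΛ0 hσ hκ₀0 hLℓ hℓ1 htol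
  have hρν2 : ρ ^ 2 ≤ (2 * ν) ^ 2 := pow_le_pow_left₀ hρ0.le (by linarith) 2
  have htolν : tol * L ^ n ≤ S * P / (2 * x) := by
    calc tol * L ^ n ≤ S * ρ ^ 2 / (8 * x) * L ^ n := mul_le_mul_of_nonneg_right htol1 hV.le
      _ ≤ S * (2 * ν) ^ 2 / (8 * x) * L ^ n := by gcongr
      _ = S * P / (2 * x) := by
        rw [hP]
        field_simp
        ring
  -- the energy of one more particle
  have hgE : gEv (ENNReal.ofReal μ) K v (s1 n L Rv) ≤ ENNReal.ofReal D₀ := by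
    rw [hD₀]
    exact gE_D0 hTF hRv1 hRvR hμ le_rfl hv hTv (hcost.trans (by
      rw [← ENNReal.ofReal_one]
      exact ENNReal.ofReal_le_ofReal (by rw [div_le_one hZ0]; exact hZ1)))
  have hgv : gv (s1 n L Rv) ≤ ENNReal.ofReal ((4 * Rv) ^ n) := gv_s1 hRv0
  have hN2 : 2 * (ENNReal.ofReal ((4 * Rv) ^ n) * N) ≤ ENNReal.ofReal (L ^ n) :=
    add_num hRv0 hLpos hNhi (by
      rw [hρ, one_div_mul_eq_div, div_le_one (by positivity)]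
      calc 2 * (4 * Rv) ^ n ≤ w := w6
        _ ≤ Z := hwx.trans hxZ
        _ ≤ Z ^ 2 := le_self_pow₀ hZ1 (by norm_num))
  obtain ⟨heefin, -⟩ := ee_diffv hTF (s1_Pf (n := n) (L := L) Rv) hK hv hgE hgv
    ENNReal.ofReal_ne_top hN2 N le_rfl
  obtain ⟨Ca, hCa⟩ : ∃ Ca : ℝ, Ca = 2 * (D₀ * N) / L ^ n := ⟨_, rfl⟩
  have hCa0 : 0 ≤ Ca := by rw [hCa]; positivity
  have hCaE : 2 * (ENNReal.ofReal D₀ * N) / ENNReal.ofReal (L ^ n) = ENNReal.ofReal Ca := by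
    rw [hCa]
    exact Ca_eq hLpos hD₀0
  have hCa1 : Ca ≤ 2 * D₀ * ρ := by
    have h1 : Ca = 2 * D₀ * ν := by rw [hCa, hν]; ring
    rw [h1]
    gcongr
  have hlowA : ∀ F : Multiset (Tor n L) → ℂ, EB F →
      ee n L (ENNReal.ofReal μ) K v N * nE volume F ≤
        en (ENNReal.ofReal μ) K v F + ENNReal.ofReal Ca * dm volume N F := by
    intro F hF
    rw [← hCaE]
    exact low3v hTF hCONV (s1_Pf (n := n) (L := L) Rv) hK hv hgE hgv ENNReal.ofReal_ne_top hN2 F hF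
  obtain ⟨e₀, he₀⟩ : ∃ e₀ : ℝ, e₀ = (ee n L (ENNReal.ofReal μ) K v N).toReal := ⟨_, rfl⟩
  have he₀0 : 0 ≤ e₀ := by rw [he₀]; exact ENNReal.toReal_nonneg
  have heE : ee n L (ENNReal.ofReal μ) K v N = ENNReal.ofReal e₀ := by
    rw [he₀, ENNReal.ofReal_toReal heefin]
  have he₀1 : e₀ ≤ S * P * (1 + 1 / x) := by
    have h1 : S * ν ^ 2 * (1 + 1 / x) * L ^ n = S * P * (1 + 1 / x) := by rw [hP]; ring
    rw [heE, h1, ENNReal.ofReal_le_ofReal_iff (by positivity)] at hup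
    exact hup
  rw [heE] at hlowA
  -- the energy of the given vector
  have hΨe : enN (ENNReal.ofReal μ) K v Ψ ≤ ENNReal.ofReal (e₀ + tol * L ^ n / 2) := by
    have h1 := near_ee hK hv ENNReal.ofReal_ne_top hnear
    rw [heE, ← ENNReal.ofReal_add he₀0 (by positivity)] at h1
    exact h1.trans (ENNReal.ofReal_le_ofReal (by linarith))
  have hfinite : enN (ENNReal.ofReal μ) K v Ψ ≠ ⊤ :=
    ne_top_of_le_ne_top ENNReal.ofReal_ne_top hΨe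
  -- the loss
  rw [hΛ] at hℓ1
  have hyI := yI hn hW1 hZ1 hℓ1 hρ
  obtain ⟨ω0, hω0d⟩ : ∃ ω0 : ℝ, ω0 = 1024 / ((1 - r') ^ 2 * e * ρ * (ℓ ^ n) ^ 2) := ⟨_, rfl⟩
  have hω0 : 0 < ω0 := by rw [hω0d]; positivity
  obtain ⟨ξ, hξ⟩ : ∃ ξ : ℝ, ξ = 1 / (ω0 * (ℓ ^ n) ^ 2) := ⟨_, rfl⟩
  have hξ0 : 0 < ξ := by rw [hξ]; positivity
  obtain ⟨hωξ, hωx⟩ := lAI hyI hℓ0 hρ0 hw0 (w7.trans (hwx.trans hxZ)) hCe0 he hω0d hr1' hlam1 hlam0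
    hx1 hCG1 (by
      rw [← hCAA]
      calc CAA * w * x ≤ x * x * x := by
            have : CAA ≤ x := w4.trans hwx
            gcongr
        _ = x ^ 3 := by ring
        _ ≤ Z := hx3Z)
  rw [← hξ] at hωξ
  have hBB := lBI hσ hw1 hW hk hZ0 hℓ1 hc hρ hc₀ hΓ hCe0 he hω0d hr1' hlam1 (by
      rw [← hCB, ← hc']
      rw [div_le_iff₀ (by positivity)] at w5
      linarith)
  rw [← hΛ] at hℓ1
  obtain ⟨N1, hN1d⟩ : ∃ N1 : ℝ, N1 = ν + ω0 / (1 - lam) := ⟨_, rfl⟩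
  obtain ⟨hN1a, hω2, hAb1', hes'⟩ := eI hS0 hx4 hCF hCG hCF0 hω0 hlam0 hlam1 hρ0 hν1 hν2 hV hP
    hv₁0 hωx hN1d
  have hN1b : N1 ≤ 2 * ρ := by linarith only [hN1a, hν2]
  have hN1c : 0 < N1 := by rw [hN1d]; exact add_pos hν0 (div_pos hω0 h1l)
  obtain ⟨X, hXd⟩ : ∃ X : ℝ, X = 64 * n * ((μ + 1) * ρ) := ⟨_, rfl⟩
  have hX0 : 0 ≤ X := by rw [hXd]; positivity
  obtain ⟨Ab, hAbd⟩ : ∃ A : ℝ, A = (2 + √(7 / (1 - lam))) * v₁ * N1 + 25 * ω0 * v₁ + X :=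
    ⟨_, rfl⟩
  have hAb0 : 0 ≤ Ab := by rw [hAbd]; positivity
  rw [← hXd, ← hAbd] at hAb1'
  obtain ⟨es, hesd⟩ : ∃ es : ℝ, es = ω0 * Ab / (1 - lam) := ⟨_, rfl⟩
  have hes0 : 0 ≤ es := by rw [hesd]; exact div_nonneg (mul_nonneg hω0.le hAb0) h1l.le
  obtain ⟨hes1, hesν⟩ := hes' Ab es hAb0 hAb1' hesd
  have hesB : (2 : ℝ) ^ σ * es ≤ (1 - r') ^ 2 * e / 32 * ρ * (ℓ ^ n * Γ) :=
    (mul_le_mul_of_nonneg_left hes1 (by positivity)).trans hBB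
  have hCas : Ca ≤ ν * v₁ := by
    have h1 : Ca = ν * (2 * D₀) := by rw [hCa, hν]; ring
    rw [h1, hv₁]
    exact mul_le_mul_of_nonneg_left (by linarith only [hvI0]) hν0.le
  have hCaρ : Ca ≤ ρ * v₁ := hCas.trans (mul_le_mul_of_nonneg_right hν2 hv₁0.le)
  obtain ⟨a2', ha2'⟩ : ∃ a2' : ℝ, a2' = (4 * N1 + 1 / ℓ ^ n) / (1 - (2 : ℝ) ^ (-σ)) := ⟨_, rfl⟩
  have ha2'1 : a2' ≤ am := by
    rw [ha2', ham, ← hr2]
    have h1 : 1 / ℓ ^ n ≤ 1 / (Λ / 2) ^ n :=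
      one_div_le_one_div_of_le (by positivity) (pow_le_pow_left₀ (by positivity) hℓ1 n)
    have h2 : 4 * N1 ≤ 8 * ρ := by linarith only [hN1b]
    exact div_le_div_of_nonneg_right (add_le_add h2 h1) h1r2.le
  have ha2'0 : 0 ≤ a2' := by
    rw [ha2', ← hr2]
    exact div_nonneg (add_nonneg (mul_nonneg (by norm_num) hN1c.le) (by positivity)) h1r2.le
  obtain ⟨T, hTd⟩ : ∃ T : ℝ, T = tol * (2 : ℝ) ^ (σ * J) / (ℓ ^ n * Γ) +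
      Ca * √(a2' * ω0) * (2 : ℝ) ^ σ / (ℓ ^ n * Γ) * (2 : ℝ) ^ (-((n - σ) / 2 * J)) := ⟨_, rfl⟩
  have hTle : T ≤ (1 - q) ^ 2 * e / 32 * ρ := by
    rw [hTd]
    refine (tI hℓ1 hΛ0 hΓ0 hρ0 hv₁0 (by positivity) hCa0 hCaρ ha2'0 ha2'1 hω0.le hω2 hκ₀ htol hκ₂
      (hJ₂ J (by omega))).trans (le_of_eq ?_)
    ring
  -- it is enough to consider bounded wave functions
  have red : ∀ ε₂ : ℝ, 0 < ε₂ → (1 - 3 * √e) * N ≤ condN Ψ + ε₂ := by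
    intro ε₂ hε₂
    obtain ⟨ε', hε'⟩ : ∃ ε' : ℝ, ε' = min ε₂ (tol * L ^ n / 2) := ⟨_, rfl⟩
    have hε'0 : 0 < ε' := by rw [hε']; exact lt_min hε₂ (by positivity)
    have hε'1 : ε' ≤ ε₂ := by rw [hε']; exact min_le_left _ _
    have hε'2 : ε' ≤ tol * L ^ n / 2 := by rw [hε']; exact min_le_right _ _
    obtain ⟨Ψ', hΨ', hΨe', hΨc⟩ := hTRUNC n L (ENNReal.ofReal μ) K v N Ψ ε' hK hv hε'0 hΨ hfinite
    have hfin' : enN (ENNReal.ofReal μ) K v Ψ' ≠ ⊤ :=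
      (lt_of_le_of_lt hΨe' (ENNReal.add_lt_top.2 ⟨lt_top_iff_ne_top.2 hfinite,
        ENNReal.ofReal_lt_top⟩)).ne
    obtain ⟨E, hE⟩ : ∃ E : ℝ, E = (enN (ENNReal.ofReal μ) K v Ψ').toReal := ⟨_, rfl⟩
    have hE0 : 0 ≤ E := by rw [hE]; exact ENNReal.toReal_nonneg
    have hEe : enN (ENNReal.ofReal μ) K v Ψ' = ENNReal.ofReal E := by
      rw [hE, ENNReal.ofReal_toReal hfin']
    have hEle : E ≤ e₀ + tol * L ^ n := by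
      have h1 : ENNReal.ofReal E ≤ ENNReal.ofReal (e₀ + tol * L ^ n) := by
        rw [← hEe]
        refine hΨe'.trans ((add_le_add hΨe le_rfl).trans ?_)
        rw [← ENNReal.ofReal_add (by positivity) hε'0.le]
        exact ENNReal.ofReal_le_ofReal (by linarith only [hε'2])
      rw [ENNReal.ofReal_le_ofReal_iff (by positivity)] at h1
      exact h1
    have hE2 : E + es * L ^ n ≤ S * P * (1 + 2 / x) := by
      have h1 : S * P * (1 + 2 / x) = S * P * (1 + 1 / x) + S * P / (2 * x) +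
          S * P / (2 * x) := by
        field_simp
        ring
      rw [h1]
      linarith only [hEle, he₀1, htolν, hesν]
    -- Fock space
    obtain ⟨hcn0, F, hF, hFs, hF1, hFN, hFe, hFc⟩ := hCONV n L (ENNReal.ofReal μ) K v N Ψ' hK hv
      hΨ'
    rw [hEe] at hFe
    obtain ⟨Q, hQ⟩ : ∃ Q : ℝ, Q = L ^ n * condN Ψ' := ⟨_, rfl⟩
    have hQ0 : 0 ≤ Q := by rw [hQ]; positivity
    -- the energy with the averaged part of the kinetic energy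
    obtain ⟨E', hE'⟩ : ∃ E' : ℝ, E' = E + es * L ^ n := ⟨_, rfl⟩
    have hE'0 : 0 ≤ E' := by rw [hE']; positivity
    rw [← hE'] at hE2
    have hAN : A₁ * (N : ℝ) = 2 * γ₀ * (1 - 1 / x) * (1 - 0) * P := by
      rw [hA₁, hNν, hP]
      ring
    obtain ⟨E₁, hE₁⟩ : ∃ E₁ : ℝ, E₁ = C₁ / x * P := ⟨_, rfl⟩
    have hE₁0 : 0 ≤ E₁ := by rw [hE₁]; positivity
    have hNhi0 : 0 ≤ N1 * L ^ n := by positivity
    have hcN2 : CE * (N1 * L ^ n) ≤ 2 * D / x * P := by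
      have h1 : CE * (N1 * L ^ n) ≤ 2 * (CE * N) := by
        calc CE * (N1 * L ^ n) ≤ CE * (2 * ν * L ^ n) :=
              mul_le_mul_of_nonneg_left (mul_le_mul_of_nonneg_right hN1a hV.le) hCE0
          _ = 2 * (CE * N) := by rw [hNν]; ring
      have h2 : 2 * D / x * P = 2 * (D / x * P) := by ring
      rw [h2]
      linarith only [h1, hcNb]
    have hA₂b2 : A₂ ≤ 1 + (1 + 2 * (2 * D)) / x := by
      refine hA₂b.trans ?_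
      have : (1 + 2 * D) / x ≤ (1 + 2 * (2 * D)) / x :=
        div_le_div_of_nonneg_right (by linarith only [hD]) hx0.le
      linarith only [this]
    have hA₃b2 : A₃ ≤ 2 * D / x * P + γ₀ * (1 - 1 / x) * P := by
      refine hA₃b.trans ?_
      have h2 : 2 * D / x * P = 2 * (D / x * P) := by ring
      have h3 : 0 ≤ D / x * P := mul_nonneg (div_nonneg (by linarith only [hD]) hx0.le) hP0.le
      rw [h2]
      linarith only [h3]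
    have hexc : A₂ * E' + A₃ + CE * (N1 * L ^ n) ≤ A₁ * (N : ℝ) + E₁ := by
      rw [hE₁, hC₁]
      exact lE hS0 (by linarith only [hD]) hx4 hP0 hγ₀ hE'0 hE2 hA₂b2 hA₃b2 hcN2 hAN hux0.le
    obtain ⟨Ec, hEc⟩ : ∃ Ec : ℝ, Ec = E' + t * E₁ := ⟨_, rfl⟩
    have hEc0 : 0 ≤ Ec := by rw [hEc]; positivity
    have hupc : Ec ≤ 2 * S / 2 * ν ^ 2 * (1 + e / 2) * L ^ n := by
      have h1 : 2 * S / 2 * ν ^ 2 * (1 + e / 2) * L ^ n = S * P * (1 + e / 2) := by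
        rw [hP]
        ring
      rw [h1, hEc, hE₁]
      exact lUI hS0 hP0 hw1 hx ht hE2 lc4
    have hker : ∀ j : ℕ, 0 < j → j ≤ J → ∀ z : Fin n → ℝ, (∀ c, |z c| ≤ 2 * (2 ^ j * ℓ)) →
        ENNReal.ofReal (Γ * (2 : ℝ) ^ (-((n + σ) * j))) ≤ K z := by
      intro j _ _
      rw [hΓ]
      exact kernR hσ hZ0 hW1 hℓ0 (by rw [← hΛ]; exact hℓ2) hc₀0.le hLB0 j
    have hXX : ∀ j : ℕ, j ≤ J → ENNReal.ofReal μ * (∑ c : Fin n, ⨆ k : ℕ, 4 ^ k *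
        ENNReal.ofReal (sm n (2 ^ j * ℓ) (Pi.single c ((2 : ℝ)⁻¹ ^ k)))) +
        2⁻¹ * ∫⁻ z, K z * ENNReal.ofReal (sm n (2 ^ j * ℓ) z) ≤ ENNReal.ofReal X := by
      intro j _
      rw [hXd]
      refine costI hn1 hμ hZ1 hρ ?_ hcost0
      have h1 : (1 : ℝ) ≤ 2 ^ j := one_le_pow₀ (by norm_num)
      have h2 : Z * 1 ≤ Z * W := mul_le_mul_of_nonneg_left hW1 hZ0.le
      have h3 : 1 * ℓ ≤ 2 ^ j * ℓ := mul_le_mul_of_nonneg_right h1 hℓ0.le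
      rw [hΛ] at hℓ1
      linarith only [h2, h3, hℓ1]
    obtain ⟨H, hHd⟩ : ∃ H : ℝ, H = √(2 * (ξ + ω0)) + √(ξ + ω0) +
      √((2 : ℝ) ^ σ * es / (ℓ ^ n * Γ)) := ⟨_, rfl⟩
    have hH0 : 0 ≤ H := by rw [hHd]; positivity
    have hens := core2E proof_step2 proof_base2 hMOM hHAT hREF (Pool.Agent.W816.CB.cb_sm hHAT)
      hGK hDIA hDE hTF hℓ0 hLℓ hK hv hv₁0.le hv1 he₀0 hE0 hQ0 htol0.le hCa0 (by linarith only [hEle]) hF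
      hFs hF1 hFN hFe.le (by rw [hFc, hQ]) hlowA hΓ0 hX0 hσ
      hker hXX (le_of_eq hNν) hCas hω0 hlam0 hlm hmu1 hr0' hmur hlam2 hlams hlamn hξ hN1d hAbd
      hesd hHd ha2' hTd hq
    rw [← hE'] at hens
    have hens2 := ens_conv (lw := fun F => ENNReal.ofReal μ * lowk R F) hens hN0.le hNhi0 hE'0
      hA₁0 hA₂0 hA₃0 hCE0 ht0.le hlow3 hE₁0 hexc
    rw [← hEc] at hens2
    have hens3 : HasEns volume enc (hf n L ℓ (2 ^ J)) N (N1 * L ^ n) Ec ((ξ + ω0) * (ℓ ^ n) ^ 2)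
        ((√(Q / (L ^ n) ^ 2) + (H / (1 - r') + √T / (1 - q))) * L ^ n) := by
      rw [henc, ← add_assoc]
      exact hens2
    have c3 := par5I (σ := σ) hr1' hr0' hq1 hρ0 he0 hℓ0 hΓ0 hω0d hξ hωξ es H T hTle hesB hHd
    have hsq : √(ρ / 2) ≤ √ν := Real.sqrt_le_sqrt hν1
    have res2 := atEns Pool.Agent.W160.CC.bot2' hHAT hTF hℓ0 hLℓ hN1 hQ0 hEc0 (g := 2 * S)
      (by positivity) he0 he1 hν hupc hPc0 hPce ha0 haB ha₂0 ha₂B hcoh hHP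
      (by
        have := mul_nonneg he0.le hN0.le
        linarith only [this]) hNhi0 (add_pos hξ0 hω0).le
      (add_nonneg (div_nonneg hH0 h1r.le) (div_nonneg (Real.sqrt_nonneg _) h1q.le))
      (c3.trans (mul_le_mul_of_nonneg_left hsq (Real.sqrt_nonneg _))) hens3
    have h2 : Q / (L ^ n) ^ 2 = condN Ψ' / L ^ n := by
      rw [hQ]
      field_simp
    rw [h2, hν, mul_div_assoc', div_le_div_iff_of_pos_right hV] at res2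
    linarith only [res2, hΨc, hε'1]
  exact le_of_forall_pos_le_add fun ε' hε' => red ε' hε'

end

end Pool.Agent.Y656
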