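import Mathlib

/-!
# The parameters
-/

set_option autoImplicit false

namespace Pool.Agent.Y656

noncomputable section

lemma pq {x : ℝ} (hx : 1 ≤ x) {a b : ℕ} (h : a + 1 ≤ b) : x ^ a / x ^ b ≤ 1 / x := by
  have hx0 : 0 < x := by linarith
  rw [div_le_div_iff₀ (by positivity) hx0, one_mul, ← pow_succ]
  exact pow_le_pow_right₀ hx h

/-- a division into boxes -/
lemma boxes {L B : ℝ} (hB : 0 < B) (h : 2 * B ≤ L) :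
    ∃ (q : ℕ) (b : ℝ), 2 ≤ q ∧ L = q * b ∧ B ≤ b ∧ b ≤ 2 * B := by
  have hL : 0 < L := by linarith
  have h1 : 2 ≤ L / B := by rwa [le_div_iff₀ hB]
  have h0 : 0 ≤ L / B := by linarith
  have h2 : 2 ≤ ⌊L / B⌋₊ := Nat.le_floor (by exact_mod_cast h1)
  have h3 : ((2 : ℕ) : ℝ) ≤ ⌊L / B⌋₊ := by exact_mod_cast h2
  have h4 : (⌊L / B⌋₊ : ℝ) ≤ L / B := Nat.floor_le h0
  have h5 : L / B < (⌊L / B⌋₊ : ℝ) + 1 := Nat.lt_floor_add_one _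
  push_cast at h3
  have h6 : (0 : ℝ) < ⌊L / B⌋₊ := by linarith
  refine ⟨⌊L / B⌋₊, L / ⌊L / B⌋₊, h2, by field_simp, ?_, ?_⟩
  · rw [le_div_iff₀ h6]
    rw [le_div_iff₀ hB] at h4
    linarith
  · rw [div_le_iff₀ h6]
    rw [div_lt_iff₀ hB] at h5
    nlinarith

lemma pM {x M : ℝ} {n : ℕ} (hM0 : 0 < M) (hM2 : M ≤ 2 * x ^ 3) :
    M ^ n ≤ 2 ^ n * x ^ (3 * n) ∧ (2 * M ^ n) ^ 2 ≤ 4 * 4 ^ n * x ^ (6 * n) := by
  have h1 : M ^ n ≤ 2 ^ n * x ^ (3 * n) := by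
    calc M ^ n ≤ (2 * x ^ 3) ^ n := pow_le_pow_left₀ hM0.le hM2 n
      _ = 2 ^ n * x ^ (3 * n) := by rw [mul_pow, ← pow_mul]
  refine ⟨h1, ?_⟩
  have hMn0 : 0 < M ^ n := by positivity
  calc (2 * M ^ n) ^ 2 ≤ (2 * (2 ^ n * x ^ (3 * n))) ^ 2 := by gcongr
    _ = 4 * 4 ^ n * x ^ (6 * n) := by
      rw [show (4 : ℝ) = 2 ^ 2 by norm_num, ← pow_mul, mul_pow, mul_pow, ← pow_mul, ← pow_mul,
        mul_comm 2 n]
      rw [show 3 * n * 2 = 6 * n by ring]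
      ring

lemma pE2 {x B b M r₀ CP γ₀ G : ℝ} {n : ℕ} (hn : 3 ≤ n) (hx : 1 ≤ x)
    (hB : B = x ^ (2 * n ^ 2 + 8 * n + 2)) (hb1 : B ≤ b) (hb2 : b ≤ 2 * B) (hM0 : 0 < M)
    (hM2 : M ≤ 2 * x ^ 3) (hr₀ : r₀ = x ^ (4 * n + 21)) (hCP : 0 ≤ CP) (hγ : 0 < γ₀)
    (hγG : γ₀ ≤ G) :
    γ₀ * (5 * (2 * M ^ n) ^ 2 / b ^ n + 2 * M ^ n / (1 / x * (2 * r₀) ^ n)) *
      (CP * b ^ 2) ≤ G * (80 * 4 ^ n * CP + 8 * CP) * (1 / x) := by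
  have hx0 : 0 < x := by linarith
  have hB0 : 0 < B := by rw [hB]; positivity
  have hB1 : 1 ≤ B := by rw [hB]; exact one_le_pow₀ hx
  have hb0 : 0 < b := by linarith
  obtain ⟨hMn, hMn2⟩ := pM (n := n) hM0 hM2
  have hMn0 : 0 < M ^ n := by positivity
  have hbn : B ^ n ≤ b ^ n := pow_le_pow_left₀ hB0.le hb1 n
  have hb22 : b ^ 2 ≤ 4 * B ^ 2 := by nlinarith
  have hBB : B ^ 2 / B ^ n ≤ 1 / B := pq hB1 (by omega)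
  have e1 : 5 * (2 * M ^ n) ^ 2 / b ^ n * (CP * b ^ 2) ≤ 80 * 4 ^ n * CP * (1 / x) := by
    calc 5 * (2 * M ^ n) ^ 2 / b ^ n * (CP * b ^ 2)
        ≤ 5 * (4 * 4 ^ n * x ^ (6 * n)) / B ^ n * (CP * (4 * B ^ 2)) := by gcongr
      _ = 80 * 4 ^ n * CP * (x ^ (6 * n) * (B ^ 2 / B ^ n)) := by ring
      _ ≤ 80 * 4 ^ n * CP * (x ^ (6 * n) * (1 / B)) := by gcongr
      _ = 80 * 4 ^ n * CP * (x ^ (6 * n) / x ^ (2 * n ^ 2 + 8 * n + 2)) := by rw [hB]; ring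
      _ ≤ _ := by
          apply mul_le_mul_of_nonneg_left _ (by positivity)
          exact pq hx (by nlinarith)
  have e2 : 2 * M ^ n / (1 / x * (2 * r₀) ^ n) * (CP * b ^ 2) ≤ 8 * CP * (1 / x) := by
    have e3 : 1 / x * (2 * r₀) ^ n = 2 ^ n * x ^ (n * (4 * n + 21)) / x := by
      rw [hr₀, mul_pow, ← pow_mul, mul_comm (4 * n + 21) n]
      ring
    rw [e3]
    calc 2 * M ^ n / (2 ^ n * x ^ (n * (4 * n + 21)) / x) * (CP * b ^ 2)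
        ≤ 2 * (2 ^ n * x ^ (3 * n)) / (2 ^ n * x ^ (n * (4 * n + 21)) / x) *
          (CP * (4 * B ^ 2)) := by gcongr
      _ = 8 * CP * (x ^ (3 * n) * x * B ^ 2 / x ^ (n * (4 * n + 21))) := by
          field_simp
          ring
      _ = 8 * CP * (x ^ (3 * n + 1 + (2 * n ^ 2 + 8 * n + 2) * 2) / x ^ (n * (4 * n + 21))) := by
          rw [hB, ← pow_mul, pow_add x (3 * n + 1), pow_add x (3 * n) 1, pow_one]
      _ ≤ _ := by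
          apply mul_le_mul_of_nonneg_left _ (by positivity)
          exact pq hx (by nlinarith)
  calc γ₀ * (5 * (2 * M ^ n) ^ 2 / b ^ n + 2 * M ^ n / (1 / x * (2 * r₀) ^ n)) *
        (CP * b ^ 2) = γ₀ * (5 * (2 * M ^ n) ^ 2 / b ^ n * (CP * b ^ 2) +
          2 * M ^ n / (1 / x * (2 * r₀) ^ n) * (CP * b ^ 2)) := by ring
    _ ≤ G * (80 * 4 ^ n * CP * (1 / x) + 8 * CP * (1 / x)) :=
        mul_le_mul hγG (add_le_add e1 e2) (by rw [hr₀]; positivity) (by linarith)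
    _ = _ := by ring

lemma pE3a {x : ℝ} {n : ℕ} (hn : 3 ≤ n) (hx : 1 ≤ x) :
    (2 * (2 ^ n * x ^ (3 * n)) + 4 * 4 ^ n * x ^ (6 * n) *
      (4 * n * (1 / x ^ (2 * n + 2)) + 2 * (2 * (2 ^ n * x ^ (3 * n))) *
        (4 * (1 / x ^ (2 * n + 2))) ^ n)) / x ^ (4 * n) ≤
      (2 * 2 ^ n + 16 * n * 4 ^ n + 16 * 32 ^ n) * (1 / x) := by
  have hx0 : 0 < x := by linarith
  have e7 : (2 * (2 ^ n * x ^ (3 * n)) + 4 * 4 ^ n * x ^ (6 * n) *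
    (4 * n * (1 / x ^ (2 * n + 2)) + 2 * (2 * (2 ^ n * x ^ (3 * n))) *
      (4 * (1 / x ^ (2 * n + 2))) ^ n)) / x ^ (4 * n) =
      2 * 2 ^ n * (x ^ (3 * n) / x ^ (4 * n)) +
      16 * n * 4 ^ n * (x ^ (6 * n) / x ^ (2 * n + 2 + 4 * n)) +
      16 * 32 ^ n * (x ^ (6 * n + 3 * n) / x ^ ((2 * n + 2) * n + 4 * n)) := by
    have e8 : (32 : ℝ) ^ n = 4 ^ n * 2 ^ n * 4 ^ n := by
      rw [← mul_pow, ← mul_pow]
      norm_num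
    have e9 : (4 * (1 / x ^ (2 * n + 2))) ^ n = 4 ^ n / x ^ ((2 * n + 2) * n) := by
      rw [mul_pow, div_pow, one_pow, ← pow_mul]
      ring
    rw [e8, e9, pow_add x (2 * n + 2) (4 * n), pow_add x ((2 * n + 2) * n) (4 * n),
      pow_add x (6 * n) (3 * n)]
    generalize x ^ (3 * n) = X3
    generalize x ^ (6 * n) = X6
    generalize x ^ (4 * n) = X4
    generalize x ^ (2 * n + 2) = X2
    generalize x ^ ((2 * n + 2) * n) = X5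
    generalize (4 : ℝ) ^ n = F
    generalize (2 : ℝ) ^ n = T
    ring
  have e20 : (2 * 2 ^ n + 16 * n * 4 ^ n + 16 * 32 ^ n) * (1 / x) = 2 * 2 ^ n * (1 / x) +
      16 * n * 4 ^ n * (1 / x) + 16 * 32 ^ n * (1 / x) := by ring
  rw [e7, e20]
  refine add_le_add (add_le_add ?_ ?_) ?_
  · exact mul_le_mul_of_nonneg_left (pq hx (by omega)) (by positivity)
  · exact mul_le_mul_of_nonneg_left (pq hx (by omega)) (by positivity)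
  · exact mul_le_mul_of_nonneg_left (pq hx (by nlinarith)) (by positivity)

lemma pE3 {x B b M r γ₀ G L ν Z : ℝ} {n : ℕ} (hn : 3 ≤ n) (hx : 1 ≤ x) (hB0 : 0 < B)
    (hBn : B ^ n = Z ^ 2 * x ^ (2 * n)) (hb1 : B ≤ b) (hM0 : 0 < M)
    (hM2 : M ≤ 2 * x ^ 3) (hr0 : 0 < r) (hrB : r * x ^ (2 * n + 2) = B) (hγ : 0 < γ₀)
    (hγG : γ₀ ≤ G) (hL : 0 < L) (hZ : 0 < Z) (hν1 : 1 / 2 / Z ^ 2 ≤ ν) :
    γ₀ * (L ^ n / b ^ n) * (2 * M ^ n / b ^ n + (2 * M ^ n) ^ 2 / b ^ n *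
      (4 * n * r / b + 2 * (2 * M ^ n) * (4 * r / b) ^ n)) ≤
      G * (4 * (2 * 2 ^ n + 16 * n * 4 ^ n + 16 * 32 ^ n)) * (1 / x) * (ν ^ 2 * L ^ n) := by
  have hx0 : 0 < x := by linarith
  have hb0 : 0 < b := by linarith
  have hG0 : 0 < G := by linarith
  obtain ⟨hMn, hMn2⟩ := pM (n := n) hM0 hM2
  have hMn0 : 0 < M ^ n := by positivity
  have hbn : B ^ n ≤ b ^ n := pow_le_pow_left₀ hB0.le hb1 n
  have hLn : 0 < L ^ n := by positivity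
  have hrb : r / b ≤ 1 / x ^ (2 * n + 2) := by
    rw [div_le_div_iff₀ hb0 (by positivity), one_mul, hrB]
    exact hb1
  have hrb0 : 0 ≤ r / b := by positivity
  have e5 : 4 * n * r / b = 4 * n * (r / b) := by ring
  have e6 : 4 * r / b = 4 * (r / b) := by ring
  obtain ⟨ω, hω⟩ : ∃ ω, ω = 1 / x ^ (2 * n + 2) := ⟨_, rfl⟩
  have hω0 : 0 < ω := by rw [hω]; positivity
  rw [← hω] at hrb
  have hS : 2 * M ^ n + (2 * M ^ n) ^ 2 *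
      (4 * n * (r / b) + 2 * (2 * M ^ n) * (4 * (r / b)) ^ n) ≤
      2 * (2 ^ n * x ^ (3 * n)) + 4 * 4 ^ n * x ^ (6 * n) *
      (4 * n * ω + 2 * (2 * (2 ^ n * x ^ (3 * n))) * (4 * ω) ^ n) := by
    gcongr
  have hT := pE3a (x := x) hn hx
  rw [← hω] at hT
  obtain ⟨S, hSd⟩ : ∃ S, S = 2 * (2 ^ n * x ^ (3 * n)) + 4 * 4 ^ n * x ^ (6 * n) *
      (4 * n * ω + 2 * (2 * (2 ^ n * x ^ (3 * n))) * (4 * ω) ^ n) := ⟨_, rfl⟩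
  have hS0 : 0 ≤ S := by rw [hSd]; positivity
  rw [← hSd] at hS hT
  have hLB : L ^ n / b ^ n * (1 / b ^ n) ≤ 4 * (ν ^ 2 * L ^ n) / x ^ (4 * n) := by
    have e9 : (1 / 2 / Z ^ 2) ^ 2 ≤ ν ^ 2 := pow_le_pow_left₀ (by positivity) hν1 2
    calc L ^ n / b ^ n * (1 / b ^ n) ≤ L ^ n / B ^ n * (1 / B ^ n) := by gcongr
      _ = 4 * ((1 / 2 / Z ^ 2) ^ 2 * L ^ n) / x ^ (4 * n) := by
          rw [hBn, show 4 * n = 2 * n + 2 * n by ring, pow_add]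
          field_simp
          ring
      _ ≤ _ := by gcongr
  rw [e5, e6]
  calc γ₀ * (L ^ n / b ^ n) * (2 * M ^ n / b ^ n + (2 * M ^ n) ^ 2 / b ^ n *
        (4 * n * (r / b) + 2 * (2 * M ^ n) * (4 * (r / b)) ^ n))
      = γ₀ * (L ^ n / b ^ n * (1 / b ^ n)) * (2 * M ^ n + (2 * M ^ n) ^ 2 *
        (4 * n * (r / b) + 2 * (2 * M ^ n) * (4 * (r / b)) ^ n)) := by ring
    _ ≤ G * (4 * (ν ^ 2 * L ^ n) / x ^ (4 * n)) * S := by gcongr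
    _ = G * 4 * (ν ^ 2 * L ^ n) * (S / x ^ (4 * n)) := by ring
    _ ≤ G * 4 * (ν ^ 2 * L ^ n) * ((2 * 2 ^ n + 16 * n * 4 ^ n + 16 * 32 ^ n) * (1 / x)) := by
        gcongr
    _ = _ := by ring

lemma pE4 {x r r₀ R L ν Z μ : ℝ} {n : ℕ} (hn : 3 ≤ n) (hx : 1 ≤ x) (hμ : 0 < μ)
    (hr : r = x ^ (2 * n ^ 2 + 6 * n)) (hr₀ : r₀ = x ^ (4 * n + 21)) (hR : R = Z / x)
    (hL : 0 < L) (hZ : 0 < Z) (hν1 : 1 / 2 / Z ^ 2 ≤ ν) :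
    (1 + 1 / (1 / x)) * μ * (2 * n * ((60 * r₀ / r) ^ n / R ^ 2)) * (ν * L ^ n) ≤
      8 * μ * n * 60 ^ n * (1 / x) * (ν ^ 2 * L ^ n) := by
  have hx0 : 0 < x := by linarith
  have hν0 : 0 < ν := lt_of_lt_of_le (by positivity) hν1
  have hLn : 0 < L ^ n := by positivity
  have e10 : (60 * r₀ / r) ^ n = 60 ^ n * (x ^ ((4 * n + 21) * n) /
      x ^ ((2 * n ^ 2 + 6 * n) * n)) := by
    rw [div_pow, mul_pow, hr₀, hr, ← pow_mul, ← pow_mul]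
    ring
  have e11 : 1 + 1 / (1 / x) ≤ 2 * x := by
    rw [one_div_one_div]
    linarith
  have e12 : 1 / R ^ 2 ≤ 2 * ν * x ^ 2 := by
    rw [hR, div_pow, one_div_div]
    have : 1 / 2 / Z ^ 2 * (2 * x ^ 2) ≤ ν * (2 * x ^ 2) :=
      mul_le_mul_of_nonneg_right hν1 (by positivity)
    calc x ^ 2 / Z ^ 2 = 1 / 2 / Z ^ 2 * (2 * x ^ 2) := by ring
      _ ≤ ν * (2 * x ^ 2) := this
      _ = _ := by ring
  obtain ⟨W, hW⟩ : ∃ W, W = (60 * r₀ / r) ^ n := ⟨_, rfl⟩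
  rw [← hW] at e10 ⊢
  have hW0 : 0 ≤ W := by rw [e10]; positivity
  obtain ⟨y, hy⟩ : ∃ y, y = 1 + 1 / (1 / x) := ⟨_, rfl⟩
  rw [← hy] at e11 ⊢
  calc y * μ * (2 * n * (W / R ^ 2)) * (ν * L ^ n)
      = y * μ * (2 * n * (W * (1 / R ^ 2))) * (ν * L ^ n) := by ring
    _ ≤ 2 * x * μ * (2 * n * (W * (2 * ν * x ^ 2))) * (ν * L ^ n) := by gcongr
    _ = 8 * μ * n * 60 ^ n * (x ^ ((4 * n + 21) * n + 3) / x ^ ((2 * n ^ 2 + 6 * n) * n)) *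
        (ν ^ 2 * L ^ n) := by
        rw [e10, pow_add]
        ring
    _ ≤ _ := by
        apply mul_le_mul_of_nonneg_right _ (by positivity)
        refine mul_le_mul_of_nonneg_left (pq hx ?_) (by positivity)
        nlinarith [Nat.mul_le_mul hn (Nat.mul_le_mul hn hn)]

/-- the parameters -/
theorem parL (n : ℕ) (hn : 3 ≤ n) (G μ CP CA b₀ Cc : ℝ) (hG : 0 < G) (hμ : 0 < μ) (hCP : 0 ≤ CP)
    (hCA : 0 ≤ CA) :
    ∃ D x₀ : ℝ, 1 ≤ D ∧ 2 ≤ x₀ ∧ ∀ x : ℝ, x₀ ≤ x → ∀ L ν : ℝ, x ^ (n ^ 3 + 4 * n ^ 2) ≤ L →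
      1 / 2 / x ^ (2 * (n ^ 3 + 4 * n ^ 2)) ≤ ν → ν ≤ 1 / x ^ (2 * (n ^ 3 + 4 * n ^ 2)) →
      ∃ (q M : ℕ) (b b₁ r r₀ R : ℝ), 2 ≤ q ∧ 8 ≤ q * M ∧ 1 ≤ M ∧ L = q * b ∧ b = M * b₁ ∧
        0 < b₁ ∧ b₀ ≤ b₁ ∧ 1 ≤ b ∧ 4 * r ≤ b ∧ r ≤ R ∧ 1 ≤ R ∧ r₀ ≤ r ∧ 0 < r₀ ∧
        Cc * x ^ 8 ≤ r₀ ∧ R ^ 2 * ν ≤ 1 / x ^ 2 ∧
        ∀ γ₀ : ℝ, 0 < γ₀ → γ₀ ≤ G →
          γ₀ * (5 * (2 * M ^ n) ^ 2 / b ^ n + 2 * M ^ n / (1 / x * (2 * r₀) ^ n)) *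
            (CP * b ^ 2) ≤ D / x ∧
          4 * γ₀ * ν * (CA * b₁ ^ n) ≤ D / x ∧
          γ₀ * (L ^ n / b ^ n) * (2 * M ^ n / b ^ n + (2 * M ^ n) ^ 2 / b ^ n *
            (4 * n * r / b + 2 * (2 * M ^ n) * (4 * r / b) ^ n)) ≤ D / x * (ν ^ 2 * L ^ n) ∧
          (1 + 1 / (1 / x)) * μ * (2 * n * ((60 * r₀ / r) ^ n / R ^ 2)) * (ν * L ^ n) ≤
            D / x * (ν ^ 2 * L ^ n) := by
  obtain ⟨D₁, hD₁⟩ : ∃ D₁ : ℝ, D₁ = 4 * G * (CA * 2 ^ n) := ⟨_, rfl⟩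
  obtain ⟨D₂, hD₂⟩ : ∃ D₂ : ℝ, D₂ = G * (80 * 4 ^ n * CP + 8 * CP) := ⟨_, rfl⟩
  obtain ⟨D₃, hD₃⟩ : ∃ D₃ : ℝ, D₃ = G * (4 * (2 * 2 ^ n + 16 * n * 4 ^ n + 16 * 32 ^ n)) := ⟨_, rfl⟩
  obtain ⟨D₄, hD₄⟩ : ∃ D₄ : ℝ, D₄ = 8 * μ * n * 60 ^ n := ⟨_, rfl⟩
  have h1 : 0 ≤ D₁ := by rw [hD₁]; positivity
  have h2 : 0 ≤ D₂ := by rw [hD₂]; positivity
  have h3 : 0 ≤ D₃ := by rw [hD₃]; positivity
  have h4 : 0 ≤ D₄ := by rw [hD₄]; positivity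
  refine ⟨1 + D₁ + D₂ + D₃ + D₄, max (max 2 (2 * b₀)) Cc, by linarith,
    (le_max_left _ _).trans (le_max_left _ _), ?_⟩
  intro x hx L ν hL hν1 hν2
  have hx2 : 2 ≤ x := ((le_max_left _ _).trans (le_max_left _ _)).trans hx
  have hxb : 2 * b₀ ≤ x := ((le_max_right _ _).trans (le_max_left _ _)).trans hx
  have hxc : Cc ≤ x := (le_max_right _ _).trans hx
  have hx1 : 1 ≤ x := by linarith
  have hx0 : 0 < x := by linarith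
  obtain ⟨Z, hZ⟩ : ∃ Z : ℝ, Z = x ^ (n ^ 3 + 4 * n ^ 2) := ⟨_, rfl⟩
  have hZ0 : 0 < Z := by rw [hZ]; positivity
  have hZ2 : x ^ (2 * (n ^ 3 + 4 * n ^ 2)) = Z ^ 2 := by rw [hZ, ← pow_mul]; congr 1; ring
  rw [hZ2] at hν1 hν2
  rw [← hZ] at hL
  have hν0 : 0 < ν := lt_of_lt_of_le (by positivity) hν1
  obtain ⟨B, hB⟩ : ∃ B : ℝ, B = x ^ (2 * n ^ 2 + 8 * n + 2) := ⟨_, rfl⟩
  have hB0 : 0 < B := by rw [hB]; positivity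
  have hB1 : 1 ≤ B := by rw [hB]; exact one_le_pow₀ hx1
  have hBn : B ^ n = Z ^ 2 * x ^ (2 * n) := by
    rw [hB, hZ, ← pow_mul, ← pow_mul, ← pow_add]
    congr 1
    ring
  have h9 : 3 * n ^ 2 ≤ n ^ 3 := by
    rw [pow_succ n 2, mul_comm]
    exact Nat.mul_le_mul_left _ hn
  -- q
  have hBZ : 2 * B ≤ L := by
    refine le_trans ?_ hL
    calc 2 * B ≤ x * B := mul_le_mul_of_nonneg_right hx2 hB0.le
      _ = x ^ (2 * n ^ 2 + 8 * n + 3) := by rw [hB]; ring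
      _ ≤ Z := by
        rw [hZ]
        apply pow_le_pow_right₀ hx1
        nlinarith
  obtain ⟨q, b, hq, hLb, hb1, hb2⟩ := boxes hB0 hBZ
  -- M
  obtain ⟨M, hM⟩ : ∃ M : ℕ, M = ⌈x ^ 3⌉₊ := ⟨_, rfl⟩
  have hM1 : x ^ 3 ≤ M := by rw [hM]; exact Nat.le_ceil _
  have hx3 : 8 ≤ x ^ 3 := by
    calc (8 : ℝ) = 2 ^ 3 := by norm_num
      _ ≤ x ^ 3 := pow_le_pow_left₀ (by norm_num) hx2 3
  have hM2 : (M : ℝ) ≤ 2 * x ^ 3 := by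
    have h5 : (M : ℝ) < x ^ 3 + 1 := by rw [hM]; exact Nat.ceil_lt_add_one (by positivity)
    linarith
  have hM8 : 8 ≤ M := by
    have : (8 : ℝ) ≤ (M : ℝ) := hx3.trans hM1
    exact_mod_cast this
  have hM0 : (0 : ℝ) < M := by
    have : (0 : ℝ) < x ^ 3 := by positivity
    linarith
  have hb0 : 0 < b := by linarith
  obtain ⟨b₁, hb₁⟩ : ∃ b₁ : ℝ, b₁ = b / M := ⟨_, rfl⟩
  have hbb : b = M * b₁ := by rw [hb₁]; field_simp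
  have hb₁0 : 0 < b₁ := by rw [hb₁]; positivity
  have hb₁u : b₁ ≤ 2 * B / x ^ 3 := by
    rw [hb₁, div_le_div_iff₀ hM0 (by positivity)]
    exact mul_le_mul hb2 hM1 (by positivity) (by positivity)
  have hb₁l : x / 2 ≤ b₁ := by
    rw [hb₁, le_div_iff₀ hM0]
    have h5 : x ^ 4 ≤ B := by
      rw [hB]
      exact pow_le_pow_right₀ hx1 (by nlinarith)
    calc x / 2 * M ≤ x / 2 * (2 * x ^ 3) := mul_le_mul_of_nonneg_left hM2 (by positivity)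
      _ = x ^ 4 := by ring
      _ ≤ B := h5
      _ ≤ b := hb1
  obtain ⟨r, hr⟩ : ∃ r : ℝ, r = x ^ (2 * n ^ 2 + 6 * n) := ⟨_, rfl⟩
  have hr0 : 0 < r := by rw [hr]; positivity
  have hrB : r * x ^ (2 * n + 2) = B := by
    rw [hr, hB, ← pow_add]
    congr 1
    ring
  obtain ⟨r₀, hr₀⟩ : ∃ r₀ : ℝ, r₀ = x ^ (4 * n + 21) := ⟨_, rfl⟩
  have hr₀0 : 0 < r₀ := by rw [hr₀]; positivity
  obtain ⟨R, hR⟩ : ∃ R : ℝ, R = Z / x := ⟨_, rfl⟩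
  have hR0 : 0 < R := by rw [hR]; positivity
  have hrR : r ≤ R := by
    rw [hR, le_div_iff₀ hx0, hr, hZ, ← pow_succ]
    apply pow_le_pow_right₀ hx1
    nlinarith
  have hr1 : 1 ≤ r := by rw [hr]; exact one_le_pow₀ hx1
  have hL0 : 0 < L := by linarith
  have hDx : ∀ y : ℝ, 0 ≤ y → ∀ c : ℝ, 0 ≤ c → c ≤ 1 + D₁ + D₂ + D₃ + D₄ → y ≤ 1 / x →
      c * y ≤ (1 + D₁ + D₂ + D₃ + D₄) / x := by
    intro y hy c hc hcD hyx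
    calc c * y ≤ (1 + D₁ + D₂ + D₃ + D₄) * (1 / x) := mul_le_mul hcD hyx hy (by positivity)
      _ = _ := by ring
  refine ⟨q, M, b, b₁, r, r₀, R, hq, ?_, by omega, hLb, hbb, hb₁0, by linarith, by linarith, ?_,
    hrR, hr1.trans hrR, ?_, hr₀0, ?_, ?_, ?_⟩
  · calc 8 = 1 * 8 := by norm_num
      _ ≤ q * M := Nat.mul_le_mul (by omega) hM8
  · refine le_trans ?_ hb1
    rw [← hrB, mul_comm]
    apply mul_le_mul_of_nonneg_left _ hr0.le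
    calc (4 : ℝ) = 2 ^ 2 := by norm_num
      _ ≤ x ^ 2 := pow_le_pow_left₀ (by norm_num) hx2 2
      _ ≤ x ^ (2 * n + 2) := pow_le_pow_right₀ hx1 (by omega)
  · rw [hr₀, hr]
    apply pow_le_pow_right₀ hx1
    nlinarith
  · rw [hr₀]
    calc Cc * x ^ 8 ≤ x * x ^ 8 := mul_le_mul_of_nonneg_right hxc (by positivity)
      _ = x ^ 9 := by ring
      _ ≤ x ^ (4 * n + 21) := pow_le_pow_right₀ hx1 (by omega)
  · rw [hR, div_pow]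
    calc Z ^ 2 / x ^ 2 * ν ≤ Z ^ 2 / x ^ 2 * (1 / Z ^ 2) :=
          mul_le_mul_of_nonneg_left hν2 (by positivity)
      _ = 1 / x ^ 2 := by field_simp
  · intro γ₀ hγ hγG
    refine ⟨?_, ?_, ?_, ?_⟩
    · refine (pE2 hn hx1 hB hb1 hb2 hM0 hM2 hr₀ hCP hγ hγG).trans ?_
      rw [← hD₂]
      exact hDx _ (by positivity) _ h2 (by linarith) le_rfl
    · calc 4 * γ₀ * ν * (CA * b₁ ^ n) ≤ 4 * G * (1 / Z ^ 2) * (CA * (2 * B / x ^ 3) ^ n) := by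
            gcongr
        _ = 4 * G * (CA * 2 ^ n) * (x ^ (2 * n) / x ^ (3 * n)) := by
            rw [div_pow, mul_pow, hBn, ← pow_mul]
            field_simp
        _ = D₁ * (x ^ (2 * n) / x ^ (3 * n)) := by rw [hD₁]
        _ ≤ _ := hDx _ (by positivity) _ h1 (by linarith) (pq hx1 (by omega))
    · refine (pE3 hn hx1 hB0 hBn hb1 hM0 hM2 hr0 hrB hγ hγG hL0 hZ0 hν1).trans ?_
      rw [← hD₃]
      exact mul_le_mul_of_nonneg_right (hDx _ (by positivity) _ h3 (by linarith) le_rfl)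
        (by positivity)
    · refine (pE4 hn hx1 hμ hr hr₀ hR hL0 hZ0 hν1).trans ?_
      rw [← hD₄]
      exact mul_le_mul_of_nonneg_right (hDx _ (by positivity) _ h4 (by linarith) le_rfl)
        (by positivity)

end

end Pool.Agent.Y656
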