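import Pool.Agent.Y656.UpT
import Pool.Agent.Y656.BddL
import Pool.Agent.Y656.CapR
import Pool.Agent.Y656.ParL
import Pool.Agent.Y656.BddQ

/-!
# Local condensation for potentials with a tail: the main theorem
-/

set_option autoImplicit false

open MeasureTheory
open scoped ENNReal

namespace Pool.Agent.Y656

open Pool.Agent.W761.CB Pool.Agent.W761.CC Pool.Agent.TH268.CC

noncomputable section

lemma ft_dn {C C' S S' η ν V R s μ x T A ε Z : ℝ} {n : ℕ} (hη : 0 < η) (hμ : 0 < μ)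
    (hV : 0 < V) (hν : 0 < ν) (hC0 : 0 ≤ C') (hC : C' ≤ C) (hS0 : 0 ≤ S') (hS : S' ≤ S)
    (hZ : ν * Z ^ 2 ≤ 1) (hs : 0 ≤ s) (hs1 : s ≤ A * Z) (hx : 1 ≤ x) (hxη : 1 / x ≤ η)
    (hR : R ^ 2 * ν ≤ 1 / x ^ 2) (hT : 0 < T)
    (h : (2 * n * A ^ 2 * C + 8 * n * (2 * S + 5)) * η ≤ 2 * μ * ε / T) :
    (2 * n * s ^ 2 * (C' * η * (ν ^ 2 * V)) + 8 * n * R ^ 2 * ((2 * S' + 5) * (ν ^ 2 * V))) / μ ≤
      2 * (ε * (ν * V) / T) := by
  have hS00 : 0 ≤ S := hS0.trans hS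
  have hCC : 0 ≤ C := hC0.trans hC
  rw [div_le_iff₀ hμ]
  have h1 : s ^ 2 * ν ≤ A ^ 2 := by
    have h2 : s ^ 2 ≤ (A * Z) ^ 2 := pow_le_pow_left₀ hs hs1 2
    calc s ^ 2 * ν ≤ (A * Z) ^ 2 * ν := mul_le_mul_of_nonneg_right h2 hν.le
      _ = A ^ 2 * (ν * Z ^ 2) := by ring
      _ ≤ A ^ 2 * 1 := mul_le_mul_of_nonneg_left hZ (by positivity)
      _ = A ^ 2 := mul_one _
  have h3 : R ^ 2 * ν ≤ η := by
    refine hR.trans (le_trans ?_ hxη)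
    apply one_div_le_one_div_of_le (by linarith)
    nlinarith
  have h4 : 2 * n * s ^ 2 * (C' * η * (ν ^ 2 * V)) ≤ 2 * n * A ^ 2 * C * η * (ν * V) := by
    calc 2 * n * s ^ 2 * (C' * η * (ν ^ 2 * V)) ≤ 2 * n * s ^ 2 * (C * η * (ν ^ 2 * V)) := by
          gcongr
      _ = 2 * n * C * η * (ν * V) * (s ^ 2 * ν) := by ring
      _ ≤ 2 * n * C * η * (ν * V) * A ^ 2 :=
          mul_le_mul_of_nonneg_left h1 (by positivity)
      _ = _ := by ring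
  have h5 : 8 * n * R ^ 2 * ((2 * S' + 5) * (ν ^ 2 * V)) ≤ 8 * n * (2 * S + 5) * η * (ν * V) := by
    calc 8 * n * R ^ 2 * ((2 * S' + 5) * (ν ^ 2 * V)) ≤
          8 * n * R ^ 2 * ((2 * S + 5) * (ν ^ 2 * V)) := by gcongr
      _ = 8 * n * (2 * S + 5) * (ν * V) * (R ^ 2 * ν) := by ring
      _ ≤ 8 * n * (2 * S + 5) * (ν * V) * η := mul_le_mul_of_nonneg_left h3 (by positivity)
      _ = _ := by ring
  have h6 : (2 * n * A ^ 2 * C + 8 * n * (2 * S + 5)) * η * (ν * V) ≤ 2 * μ * ε / T * (ν * V) :=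
    mul_le_mul_of_nonneg_right h (by positivity)
  have h7 : 2 * μ * ε / T * (ν * V) = 2 * (ε * (ν * V) / T) * μ := by
    field_simp
  rw [h7] at h6
  linarith only [h4, h5, h6]

/-- The main theorem, in terms of a power of the density. -/
theorem coreT (n : ℕ) (μ R₀ : ℝ) (v : ℝ → ℝ≥0∞) (hn : 3 ≤ n) (hμ : 0 < μ) (hv : Measurable v)
    (hv0 : ∫⁻ z : Fin n → ℝ, v (el z) ≠ 0)
    (hvt : ∫⁻ z in {z : Fin n → ℝ | R₀ < el z}, v (el z) ≠ ⊤) (m : ℕ)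
    (hm : m = n ^ 3 + 4 * n ^ 2) :
    0 < scat n μ v ∧ ∀ ε A : ℝ, 0 < ε → 0 < A → ∃ η x₂ : ℝ, 0 < η ∧ 1 ≤ x₂ ∧
      ∀ x Z ρ : ℝ, x₂ ≤ x → Z = x ^ m → ρ = 1 / Z ^ 2 →
      ∀ (L : ℝ) [Fact (0 < L)], Z ≤ L →
      ∀ N : ℕ, ρ / 2 * L ^ n ≤ N → (N : ℝ) ≤ ρ * L ^ n →
      ∀ Ψ : (Fin N → Tor n L) → ℂ, IsWf2 Ψ →
        (∀ Φ : (Fin N → Tor n L) → ℂ, IsWf Φ → enN (ENNReal.ofReal μ) (fun _ => 0) v Ψ ≤
          enN (ENNReal.ofReal μ) (fun _ => 0) v Φ + ENNReal.ofReal (η * ρ ^ 2 * L ^ n)) →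
        ENNReal.ofReal ((1 - ε) * (scat n μ v / 2 * (N ^ 2 / L ^ n))) ≤
          enN (ENNReal.ofReal μ) (fun _ => 0) v Ψ ∧
        enN (ENNReal.ofReal μ) (fun _ => 0) v Ψ ≤
          ENNReal.ofReal ((1 + ε) * (scat n μ v / 2 * (N ^ 2 / L ^ n))) ∧
        ∀ s : ℝ, 0 ≤ s → s ≤ A * Z → ∀ w ∈ cube n s,
          Dn Ψ (pr L w) ≤ ENNReal.ofReal (2 * (ε * N / 2 ^ n)) := by
  have hMS := Pool.Agent.W975.CB.proof_ms
  have hLAM := Pool.Agent.W366.CB.proof_lam hMS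
  have hTF := Pool.Agent.W135.CB.proof_tf
  have hFIB := Pool.Agent.W131.CB.fib
  have hPO2 := Pool.Agent.W880.CB.po2 hFIB
  have hBLK := Pool.Agent.W374.CB2.Blk.blk hTF
  have hLA1 := Pool.Agent.W372.CB.main hTF hBLK
  have hLA := Pool.Agent.W571.CB.La.proof_la hTF hBLK hLA1 hFIB
  have hTRUNC := Pool.Agent.W376.CB.trunc
  have hKQ := Pool.Agent.W214.CC.main
  have hPOIC := Pool.Agent.W975.CC.main
  have hONE := Pool.Agent.W366.CC.One.one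
  have hCRD := Pool.Agent.W688.CC.crd hBLK
  have hn1 : 1 ≤ n := by omega
  have hn3 : (3 : ℝ) ≤ n := by exact_mod_cast hn
  have hG0 : 0 < scat n μ v := gposH μ R₀ v hn hμ hv hv0 hvt
  refine ⟨hG0, ?_⟩
  intro ε A hε hA
  have hcap0 := capH hKQ hPOIC μ R₀ v hn1 hv hvt hG0
  have hup0 := upT n μ R₀ v hn hμ hv hvt hG0
  obtain ⟨S, hS⟩ : ∃ S : ℝ, S = scat n μ v / 2 := ⟨_, rfl⟩
  have hS0 : 0 < S := by rw [hS]; linarith
  rw [← hS] at hcap0 hup0 ⊢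
  obtain ⟨CP, hCPd⟩ : ∃ CP : ℝ, CP = n * 2 ^ n / μ := ⟨_, rfl⟩
  have hCP : 0 < CP := by rw [hCPd]; positivity
  obtain ⟨CA, b₀, hCA, hb₀, hla⟩ := hLA n 2 CP v hn1 two_pos (by linarith) hCP.le hv hv0
  obtain ⟨D, x₀, hD, hx₀, hpar⟩ := parL n hn S μ CP CA b₀ 1 hS0 hμ hCP.le hCA
  obtain ⟨C₁, hC₁⟩ : ∃ C₁, C₁ = (S + 5) + (1 + 2 * D) * (2 * S + 5) + 2 * D + 2 * S := ⟨_, rfl⟩
  have hC₁1 : 5 ≤ C₁ := by
    rw [hC₁]
    have : 0 ≤ (1 + 2 * D) * (2 * S + 5) := by positivity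
    linarith
  obtain ⟨Q, hQ⟩ : ∃ Q, Q = 2 * n * A ^ 2 * C₁ + 8 * n * (2 * S + 5) := ⟨_, rfl⟩
  have hQ0 : 0 < Q := by rw [hQ]; positivity
  obtain ⟨T, hT⟩ : ∃ T : ℝ, T = 2 ^ n := ⟨_, rfl⟩
  have hT0 : 0 < T := by rw [hT]; positivity
  obtain ⟨η, hη⟩ : ∃ η : ℝ, η = min 1 (min (ε * S / (1 + C₁)) (2 * μ * ε / T / Q)) := ⟨_, rfl⟩
  have hη0 : 0 < η := by rw [hη]; positivity
  have hη1 : η ≤ 1 := by rw [hη]; exact min_le_left _ _
  have g2 : (1 + C₁) * η ≤ ε * S := by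
    have h1 : η ≤ ε * S / (1 + C₁) := by
      rw [hη]; exact (min_le_right _ _).trans (min_le_left _ _)
    rw [le_div_iff₀ (by positivity)] at h1
    linarith
  have g3 : Q * η ≤ 2 * μ * ε / T := by
    have h1 : η ≤ 2 * μ * ε / T / Q := by
      rw [hη]; exact (min_le_right _ _).trans (min_le_right _ _)
    rw [le_div_iff₀ hQ0] at h1
    linarith
  obtain ⟨εc, hεc⟩ : ∃ εc : ℝ, εc = min (1 / 2) (η / S) := ⟨_, rfl⟩
  have hεc0 : 0 < εc := by rw [hεc]; positivity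
  have hεc1 : εc ≤ 1 / 2 := by rw [hεc]; exact min_le_left _ _
  have hεcS : S * εc ≤ η := by
    have h1 : εc ≤ η / S := by rw [hεc]; exact min_le_right _ _
    rw [le_div_iff₀ hS0] at h1
    linarith
  obtain ⟨rc, hrc1, hcap⟩ := hcap0 εc hεc0
  obtain ⟨e, he⟩ : ∃ e : ℝ, e = η / S := ⟨_, rfl⟩
  have he0 : 0 < e := by rw [he]; positivity
  have heS : S * e = η := by rw [he]; field_simp
  obtain ⟨Z₁, hZ₁, hup⟩ := hup0 e he0
  obtain ⟨S', hS'⟩ : ∃ S' : ℝ, S' = S * (1 - εc) := ⟨_, rfl⟩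
  have hS'0 : 0 < S' := by rw [hS']; exact mul_pos hS0 (by linarith)
  have hS'S : S' ≤ S := by
    rw [hS']
    exact mul_le_of_le_one_right hS0.le (by linarith)
  have hS'l : S - η ≤ S' := by rw [hS']; linarith
  rw [← hS'] at hcap
  obtain ⟨x₂, hx₂⟩ : ∃ x₂ : ℝ, x₂ = x₀ + rc + Z₁ + 1 / η := ⟨_, rfl⟩
  have hiη : 0 < 1 / η := by positivity
  refine ⟨η / 4, x₂, by positivity, by rw [hx₂]; linarith, ?_⟩
  intro x Z ρ hx hZ hρ L _ hL N hN1 hN2 Ψ hΨ hnear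
  have b1 : x₀ ≤ x := by rw [hx₂] at hx; linarith
  have b2 : rc ≤ x := by rw [hx₂] at hx; linarith
  have b3 : Z₁ ≤ x := by rw [hx₂] at hx; linarith
  have b4 : 1 / η ≤ x := by rw [hx₂] at hx; linarith
  have hx1 : 1 < x := by linarith
  have hx0 : 0 < x := by linarith
  have hxη : 1 / x ≤ η := by
    rw [div_le_iff₀ hη0] at b4
    rw [div_le_iff₀ hx0]
    linarith
  have hm1 : 1 ≤ m := by
    rw [hm]
    have : 0 < n ^ 3 := by positivity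
    omega
  have hZ0 : 0 < Z := by rw [hZ]; positivity
  have hxZ : x ≤ Z := by rw [hZ]; exact le_self_pow₀ hx1.le (by omega)
  have hρ0 : 0 < ρ := by rw [hρ]; positivity
  have hLp : 0 < L := Fact.out
  have hLn : 0 < L ^ n := by positivity
  have hxm : x ^ (n ^ 3 + 4 * n ^ 2) = Z := by rw [← hm, hZ]
  have hx2m : x ^ (2 * (n ^ 3 + 4 * n ^ 2)) = Z ^ 2 := by
    rw [← hm, hZ, ← pow_mul]
    congr 1
    ring
  obtain ⟨ν, hν⟩ : ∃ ν : ℝ, ν = N / L ^ n := ⟨_, rfl⟩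
  have hν1 : ρ / 2 ≤ ν := by rw [hν, le_div_iff₀ hLn]; exact hN1
  have hν2 : ν ≤ ρ := by rw [hν, div_le_iff₀ hLn]; exact hN2
  have hν0 : 0 < ν := by linarith
  have hNν : (N : ℝ) = ν * L ^ n := by rw [hν]; field_simp
  have hν1'' : 1 / 2 / Z ^ 2 ≤ ν := by
    refine le_trans (le_of_eq ?_) hν1
    rw [hρ]
    ring
  have hν2'' : ν ≤ 1 / Z ^ 2 := by rw [← hρ]; exact hν2
  have hν1' : 1 / 2 / x ^ (2 * (n ^ 3 + 4 * n ^ 2)) ≤ ν := by rw [hx2m]; exact hν1''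
  have hν2' : ν ≤ 1 / x ^ (2 * (n ^ 3 + 4 * n ^ 2)) := by rw [hx2m]; exact hν2''
  have hL' : x ^ (n ^ 3 + 4 * n ^ 2) ≤ L := by rw [hxm]; exact hL
  have hνZ : ν * Z ^ 2 ≤ 1 := by
    rw [le_div_iff₀ (by positivity)] at hν2''
    exact hν2''
  have hupE := hup Z (b3.trans hxZ) L N ν hL hν hν1'' hν2''
  obtain ⟨q, M, b, b₁, r, r₀, R, hq, hq8, hM, hLb, hbb, hb₁0, hb₀b, hb1, h4r, hrR, hR1, hr₀r, hr₀0,
    hcr, hRν, hpars⟩ := hpar x b1 L ν hL' hν1' hν2'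
  have hcap' : Cap n μ v (S' * (1 - 1 / x)) r₀ := by
    have h1 : rc ≤ r₀ := by
      refine b2.trans (le_trans ?_ hcr)
      rw [one_mul]
      exact le_self_pow₀ hx1.le (by norm_num)
    refine cap_mono (hcap r₀ h1) ?_
    exact mul_le_of_le_one_right hS'0.le (by
      have : 0 < 1 / x := by positivity
      linarith)
  have hPO0 : PO n L 2 CP (ENNReal.ofReal μ) (fun _ => 0) := by
    rw [hCPd]; exact Pool.Agent.W753.CB.main n L μ _ hμ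
  have hLq : L = ((q * M : ℕ) : ℝ) * b₁ := by
    push_cast
    rw [hLb, hbb]
    ring
  obtain ⟨P, hP⟩ : ∃ P, P = ν ^ 2 * L ^ n := ⟨_, rfl⟩
  have hP0 : 0 < P := by rw [hP]; positivity
  have hK : Measurable (fun _ : Fin n → ℝ => (0 : ℝ≥0∞)) := measurable_const
  -- bounded wave functions
  have bdd := fun (Φ : (Fin N → Tor n L) → ℂ) (hΦ : IsWf Φ) (E : ℝ) (hE0 : 0 ≤ E)
      (hEe : enN (ENNReal.ofReal μ) (fun _ => 0) v Φ = ENNReal.ofReal E)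
      (hE : E ≤ (S' + (S' + 5) * η) * (ν ^ 2 * L ^ n)) =>
    bddL hKQ hONE hPO2 hTF hBLK hCRD (D := D) (η := η) hμ hv hS'0 hx1 hcap' hPO0 hCP.le hCA hr₀0
      hr₀r hrR hR1 h4r hb1 hq hM hLb hbb hb₁0 hν0
      (fun F hF => (hla L b₁ (q * M) (ENNReal.ofReal μ) (fun _ => 0) hb₀b hLq hq8 hK hPO0 F hF).1)
      hD hη0 hη1 hxη (fun γ₀ h1 h2 => hpars γ₀ h1 (h2.trans hS'S)) hNν hΦ hE0 hEe hE
  obtain ⟨C₁', hC₁'⟩ : ∃ C₁', C₁' = (S' + 5) + (1 + 2 * D) * (2 * S' + 5) + 2 * D + 2 * S' :=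
    ⟨_, rfl⟩
  rw [← hC₁'] at bdd
  have hC₁'0 : 0 ≤ C₁' := by rw [hC₁']; positivity
  have hC₁'C : C₁' ≤ C₁ := by
    rw [hC₁', hC₁]
    have : (1 + 2 * D) * (2 * S' + 5) ≤ (1 + 2 * D) * (2 * S + 5) :=
      mul_le_mul_of_nonneg_left (by linarith) (by linarith)
    linarith
  -- the energy of the given wave function
  have hΨe : enN (ENNReal.ofReal μ) (fun _ => 0) v Ψ ≤
      ENNReal.ofReal ((S + 2 * η) * P) := by
    have h1 := near_ee hK hv ENNReal.ofReal_ne_top hnear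
    refine h1.trans ((add_le_add hupE le_rfl).trans ?_)
    rw [← ENNReal.ofReal_add (by positivity) (by positivity)]
    apply ENNReal.ofReal_le_ofReal
    have h2' : ρ ^ 2 ≤ (2 * ν) ^ 2 := pow_le_pow_left₀ hρ0.le (by linarith only [hν1]) 2
    have h2 : ρ ^ 2 ≤ 4 * ν ^ 2 := by rw [mul_pow] at h2'; linarith only [h2']
    have h3 : η / 4 * ρ ^ 2 * L ^ n ≤ η / 4 * (4 * ν ^ 2) * L ^ n := by gcongr
    have h4 : S * ν ^ 2 * (1 + e / 4) * L ^ n = S * P + S * e * P / 4 := by rw [hP]; ring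
    have h5 : η / 4 * (4 * ν ^ 2) * L ^ n = η * P := by rw [hP]; ring
    have h6 : 0 ≤ η * P := by positivity
    rw [h4, heS]
    rw [h5] at h3
    have h7 : (S + 2 * η) * P = S * P + 2 * (η * P) := by ring
    rw [h7]
    linarith
  have hfinite : enN (ENNReal.ofReal μ) (fun _ => 0) v Ψ ≠ ⊤ :=
    ne_top_of_le_ne_top ENNReal.ofReal_ne_top hΨe
  have hnear2 : ∀ Φ : (Fin N → Tor n L) → ℂ, ∀ δ : ℝ, 0 < δ → δ ≤ η * P →
      enN (ENNReal.ofReal μ) (fun _ => 0) v Φ ≤ enN (ENNReal.ofReal μ) (fun _ => 0) v Ψ +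
        ENNReal.ofReal δ → ∃ E : ℝ, 0 ≤ E ∧
        enN (ENNReal.ofReal μ) (fun _ => 0) v Φ = ENNReal.ofReal E ∧
        E ≤ (S' + (S' + 5) * η) * (ν ^ 2 * L ^ n) := by
    intro Φ δ hδ hδ2 hΦ
    have h1 : enN (ENNReal.ofReal μ) (fun _ => 0) v Φ ≤
        ENNReal.ofReal ((S' + (S' + 5) * η) * (ν ^ 2 * L ^ n)) := by
      refine hΦ.trans ((add_le_add hΨe le_rfl).trans ?_)
      rw [← ENNReal.ofReal_add (by positivity) hδ.le]
      apply ENNReal.ofReal_le_ofReal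
      rw [← hP]
      have e1 : (S + 2 * η) * P + δ ≤ (S + 3 * η) * P := by
        have : (S + 3 * η) * P = (S + 2 * η) * P + η * P := by ring
        rw [this]
        linarith
      refine e1.trans (mul_le_mul_of_nonneg_right ?_ hP0.le)
      have e2 : 0 ≤ S' * η := by positivity
      have e3 : S' + (S' + 5) * η = S' + S' * η + 5 * η := by ring
      rw [e3]
      linarith
    have h2 : enN (ENNReal.ofReal μ) (fun _ => 0) v Φ ≠ ⊤ :=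
      ne_top_of_le_ne_top ENNReal.ofReal_ne_top h1
    refine ⟨(enN (ENNReal.ofReal μ) (fun _ => 0) v Φ).toReal, ENNReal.toReal_nonneg,
      (ENNReal.ofReal_toReal h2).symm, ?_⟩
    exact ENNReal.toReal_le_of_le_ofReal (by positivity) h1
  have hN2V : (N : ℝ) ^ 2 / L ^ n = P := by
    rw [hNν, hP]
    field_simp
  rw [hN2V]
  refine ⟨?_, ?_, ?_⟩
  · have ar1 : (1 - ε) * (S * P) ≤ (S' - C₁' * η) * P := by
      have h1 : (1 - ε) * (S * P) = (S - ε * S) * P := by ring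
      rw [h1]
      apply mul_le_mul_of_nonneg_right _ hP0.le
      have h2 : C₁' * η ≤ C₁ * η := mul_le_mul_of_nonneg_right hC₁'C hη0.le
      linarith
    refine (ENNReal.ofReal_le_ofReal ar1).trans ?_
    refine ENNReal.le_of_forall_pos_le_add fun ε' hε' _ => ?_
    obtain ⟨δ, hδ⟩ : ∃ δ : ℝ, δ = min (ε' : ℝ) (η * P) := ⟨_, rfl⟩
    have hε'' : (0 : ℝ) < ε' := by exact_mod_cast hε'
    have hδ0 : 0 < δ := by rw [hδ]; exact lt_min hε'' (by positivity)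
    obtain ⟨Ψ', hΨ', hΨe', -⟩ := hTRUNC n L (ENNReal.ofReal μ) (fun _ => 0) v N Ψ δ hK hv hδ0 hΨ
      hfinite
    obtain ⟨E, hE0, hEe, hE⟩ := hnear2 Ψ' δ hδ0 (by rw [hδ]; exact min_le_right _ _) hΨe'
    have h1 := (bdd Ψ' hΨ' E hE0 hEe hE).1
    rw [← hP] at h1
    refine (ENNReal.ofReal_le_ofReal h1).trans ?_
    rw [← hEe]
    refine hΨe'.trans (add_le_add le_rfl ?_)
    rw [← ENNReal.ofReal_coe_nnreal (p := ε')]
    exact ENNReal.ofReal_le_ofReal (by rw [hδ]; exact min_le_left _ _)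
  · refine hΨe.trans (ENNReal.ofReal_le_ofReal ?_)
    have h1 : (1 + ε) * (S * P) = (S + ε * S) * P := by ring
    rw [h1]
    apply mul_le_mul_of_nonneg_right _ hP0.le
    have h2 : 5 * η ≤ C₁ * η := mul_le_mul_of_nonneg_right hC₁1 hη0.le
    linarith
  · intro s hs hs1 w hw
    refine trunc3 (ε := η * P) (by positivity) hΨ hfinite (pr L w) fun Ψ' hΨ' hΨe' => ?_
    obtain ⟨E, hE0, hEe, hE⟩ := hnear2 Ψ' (η * P) (by positivity) le_rfl hΨe'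
    refine ((bdd Ψ' hΨ' E hE0 hEe hE).2 s w hs hw).trans (ENNReal.ofReal_le_ofReal ?_)
    rw [hNν, ← hT]
    exact ft_dn hη0 hμ hLn hν0 hC₁'0 hC₁'C hS'0.le hS'S hνZ hs hs1 hx1.le hxη hRν hT0
      (by rw [← hQ]; exact g3)

end

end Pool.Agent.Y656
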