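import Pool.Agent.W753.CB.Trans
import Pool.Agent.W554.CC.Capt
import Pool.Agent.W74.CC.UPT
import Pool.Agent.W135.CB.Tf

/-!
# Averages over the translates of a function on the torus
-/

set_option autoImplicit false
set_option linter.unusedSectionVars false

open MeasureTheory
open scoped ENNReal

namespace Pool.Agent.Y656

open Pool.Agent.W761.CB Pool.Agent.W761.CC
open Pool.Agent.W554.CC (cube_meas meas_add)

noncomputable section

variable {n : ℕ} {L : ℝ} [hL : Fact (0 < L)]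

/-- bounded measurable functions on the torus -/
structure Bd (f : Tor n L → ℂ) : Prop where
  meas : Measurable f
  bdd : ∃ B : ℝ, ∀ x, ‖f x‖ ≤ B

/-- the average over the translates by the points of the cube -/
def Mo (R : ℝ) (f : Tor n L → ℂ) (x : Tor n L) : ℂ :=
  (((2 * R) ^ n : ℝ) : ℂ)⁻¹ * ∫ z in cube n R, f (x + pr L z)

/-- squared norm -/
def N2 (f : Tor n L → ℂ) : ℝ≥0∞ := ∫⁻ x, ‖f x‖ₑ ^ 2

/-- squared norm of the gradient -/
def K1 (f : Tor n L → ℂ) : ℝ≥0∞ := ∑ c : Fin n, ⨆ k : ℕ, 4 ^ k * d1 f (ec L c ((2 : ℝ)⁻¹ ^ k))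

lemma pr_meas : Measurable (pr (n := n) L) := (Pool.Agent.W135.CB.proof_tf n L).2.1

instance tor_fin : IsFiniteMeasure (volume : Measure (Tor n L)) :=
  ⟨by rw [(Pool.Agent.W135.CB.proof_tf n L).1]; exact ENNReal.ofReal_lt_top⟩

lemma cube_fin (R : ℝ) : IsFiniteMeasure ((volume : Measure (Fin n → ℝ)).restrict (cube n R)) := by
  refine ⟨?_⟩
  rw [Measure.restrict_apply_univ]
  rcases lt_or_ge R 0 with h | h
  · rcases Nat.eq_zero_or_pos n with hn | hn
    · subst hn
      exact (measure_mono (Set.subset_univ _)).trans_lt (by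
        rw [volume_pi, Measure.pi_univ]; simp)
    · have : cube n R = ∅ := by
        ext z
        simp only [cube, Set.mem_ofPred_eq, Set.mem_empty_iff_false, iff_false, not_forall]
        exact ⟨⟨0, hn⟩, by have := abs_nonneg (z ⟨0, hn⟩); linarith⟩
      rw [this]
      simp
  · rw [Pool.Agent.W753.CB.vol_cube n h]
    exact ENNReal.ofReal_lt_top

lemma Bd.shift {f : Tor n L → ℂ} (hf : Bd f) (h : Tor n L) : Bd (fun x => f (x + h)) := by
  obtain ⟨B, hB⟩ := hf.bdd
  exact ⟨hf.meas.comp (meas_add h), B, fun x => hB _⟩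

lemma Bd.sub {f g : Tor n L → ℂ} (hf : Bd f) (hg : Bd g) : Bd (fun x => f x - g x) := by
  obtain ⟨B, hB⟩ := hf.bdd
  obtain ⟨B', hB'⟩ := hg.bdd
  exact ⟨hf.meas.sub hg.meas, B + B', fun x => (norm_sub_le _ _).trans (add_le_add (hB x) (hB' x))⟩

lemma fib_meas {f : Tor n L → ℂ} (hf : Measurable f) :
    Measurable (fun p : Tor n L × (Fin n → ℝ) => f (p.1 + pr L p.2)) := by
  refine hf.comp ?_
  refine measurable_pi_lambda _ fun c => ?_
  have h1 : Measurable fun p : Tor n L × (Fin n → ℝ) => p.1 c :=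
    (measurable_pi_apply c).comp measurable_fst
  have h2 : Measurable fun p : Tor n L × (Fin n → ℝ) => pr L p.2 c :=
    (measurable_pi_apply c).comp (pr_meas.comp measurable_snd)
  exact h1.add h2

lemma fib_int {f : Tor n L → ℂ} (hf : Bd f) (R : ℝ) (x : Tor n L) :
    IntegrableOn (fun z : Fin n → ℝ => f (x + pr L z)) (cube n R) := by
  obtain ⟨B, hB⟩ := hf.bdd
  have := cube_fin (n := n) R
  refine Integrable.of_bound (C := B) ?_ (Filter.Eventually.of_forall fun z => hB _)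
  exact ((fib_meas hf.meas).comp measurable_prodMk_left).aestronglyMeasurable

lemma Bd.Mo {f : Tor n L → ℂ} (hf : Bd f) (R : ℝ) : Bd (Mo R f) := by
  obtain ⟨B, hB⟩ := hf.bdd
  have := cube_fin (n := n) R
  constructor
  · unfold Pool.Agent.Y656.Mo
    refine Measurable.const_mul ?_ _
    exact (fib_meas hf.meas).stronglyMeasurable.integral_prod_right'.measurable
  · refine ⟨‖(((2 * R) ^ n : ℝ) : ℂ)⁻¹‖ * (B * (volume.restrict (cube n R)).real Set.univ),
      fun x => ?_⟩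
    unfold Pool.Agent.Y656.Mo
    rw [norm_mul]
    refine mul_le_mul_of_nonneg_left ?_ (norm_nonneg _)
    exact norm_integral_le_of_norm_le_const (Filter.Eventually.of_forall fun z => hB _)

omit hL in
lemma Mo_shift (R : ℝ) (f : Tor n L → ℂ) (h x : Tor n L) :
    Mo R (fun x => f (x + h)) x = Mo R f (x + h) := by
  unfold Mo
  congr 2
  funext z
  rw [add_right_comm]

lemma Mo_sub {f g : Tor n L → ℂ} (hf : Bd f) (hg : Bd g) (R : ℝ) (x : Tor n L) :
    Mo R (fun x => f x - g x) x = Mo R f x - Mo R g x := by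
  unfold Mo
  rw [integral_sub (fib_int hf R x) (fib_int hg R x), mul_sub]

/-- inner product -/
def ip (f g : Tor n L → ℂ) : ℂ := ∫ x, (starRingEnd ℂ) (f x) * g x

lemma ip_int {f g : Tor n L → ℂ} (hf : Bd f) (hg : Bd g) :
    Integrable (fun x => (starRingEnd ℂ) (f x) * g x) := by
  obtain ⟨B, hB⟩ := hf.bdd
  obtain ⟨B', hB'⟩ := hg.bdd
  refine Integrable.of_bound (C := B * B') ?_ (Filter.Eventually.of_forall fun x => ?_)
  · exact ((Complex.continuous_conj.measurable.comp hf.meas).mul hg.meas).aestronglyMeasurable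
  · rw [norm_mul, RCLike.norm_conj]
    exact mul_le_mul (hB x) (hB' x) (norm_nonneg _) ((norm_nonneg _).trans (hB x))

lemma cube_neg (R : ℝ) (φ : (Fin n → ℝ) → ℂ) :
    ∫ z in cube n R, φ (-z) = ∫ z in cube n R, φ z := by
  rw [← integral_indicator (cube_meas R), ← integral_indicator (cube_meas R),
    ← integral_neg_eq_self (fun z => (cube n R).indicator φ z)]
  refine integral_congr_ae (Filter.Eventually.of_forall fun z => ?_)
  simp only
  have h1 : z ∈ cube n R ↔ -z ∈ cube n R := by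
    simp [cube]
  by_cases h : z ∈ cube n R
  · rw [Set.indicator_of_mem h, Set.indicator_of_mem (h1.1 h)]
  · rw [Set.indicator_of_notMem h, Set.indicator_of_notMem (fun h2 => h (h1.2 h2))]

lemma pr_neg (z : Fin n → ℝ) : pr L (-z) = -pr L z := by
  funext c
  simp [pr]

lemma ip_Mo {f g : Tor n L → ℂ} (hf : Bd f) (hg : Bd g) (R : ℝ) :
    ip (Mo R f) g = ip f (Mo R g) := by
  have := cube_fin (n := n) R
  obtain ⟨B, hB⟩ := hf.bdd
  obtain ⟨B', hB'⟩ := hg.bdd
  have hc : (starRingEnd ℂ) (((2 * R) ^ n : ℝ) : ℂ)⁻¹ = (((2 * R) ^ n : ℝ) : ℂ)⁻¹ := by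
    rw [← Complex.ofReal_inv, Complex.conj_ofReal]
  have hI : ∀ F G : Tor n L → ℂ, Bd F → Bd G → Integrable
      (fun p : Tor n L × (Fin n → ℝ) => (starRingEnd ℂ) (F (p.1 + pr L p.2)) * G p.1)
      ((volume : Measure (Tor n L)).prod (volume.restrict (cube n R))) := by
    intro F G hF hG
    obtain ⟨C, hC⟩ := hF.bdd
    obtain ⟨C', hC'⟩ := hG.bdd
    refine Integrable.of_bound (C := C * C') ?_ (Filter.Eventually.of_forall fun p => ?_)
    · exact ((Complex.continuous_conj.measurable.comp (fib_meas hF.meas)).mul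
        (hG.meas.comp measurable_fst)).aestronglyMeasurable
    · rw [norm_mul, RCLike.norm_conj]
      exact mul_le_mul (hC _) (hC' _) (norm_nonneg _) ((norm_nonneg _).trans (hC p.1))
  have e1 : ip (Mo R f) g = (((2 * R) ^ n : ℝ) : ℂ)⁻¹ *
      ∫ z in cube n R, ∫ x, (starRingEnd ℂ) (f (x + pr L z)) * g x := by
    unfold ip
    rw [← integral_integral_swap (hI f g hf hg), ← integral_const_mul]
    refine integral_congr_ae (Filter.Eventually.of_forall fun x => ?_)
    simp only [Mo]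
    rw [map_mul, hc, ← integral_conj, mul_assoc, ← integral_mul_const]
  have e2 : ip f (Mo R g) = (((2 * R) ^ n : ℝ) : ℂ)⁻¹ *
      ∫ z in cube n R, ∫ x, (starRingEnd ℂ) (f x) * g (x + pr L z) := by
    unfold ip
    have hI2 : Integrable (fun p : Tor n L × (Fin n → ℝ) =>
        (starRingEnd ℂ) (f p.1) * g (p.1 + pr L p.2))
        ((volume : Measure (Tor n L)).prod (volume.restrict (cube n R))) := by
      refine Integrable.of_bound (C := B * B') ?_ (Filter.Eventually.of_forall fun p => ?_)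
      · exact ((Complex.continuous_conj.measurable.comp (hf.meas.comp measurable_fst)).mul
          (fib_meas hg.meas)).aestronglyMeasurable
      · rw [norm_mul, RCLike.norm_conj]
        exact mul_le_mul (hB _) (hB' _) (norm_nonneg _) ((norm_nonneg _).trans (hB p.1))
    rw [← integral_integral_swap hI2, ← integral_const_mul]
    refine integral_congr_ae (Filter.Eventually.of_forall fun x => ?_)
    simp only [Mo]
    rw [integral_const_mul]
    ring
  rw [e1, e2, ← cube_neg R (fun z => ∫ x, (starRingEnd ℂ) (f x) * g (x + pr L z))]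
  congr 1
  refine integral_congr_ae (Filter.Eventually.of_forall fun z => ?_)
  simp only
  rw [← integral_add_right_eq_self (fun x => (starRingEnd ℂ) (f x) * g (x + pr L (-z))) (pr L z)]
  refine integral_congr_ae (Filter.Eventually.of_forall fun x => ?_)
  simp only
  rw [pr_neg, add_neg_cancel_right]

/-- the average of the translates of a nonnegative function -/
lemma avg_shift {g : Tor n L → ℝ≥0∞} (hg : Measurable g) {R : ℝ} (hR : 0 ≤ R) :
    ∫⁻ x, ∫⁻ z in cube n R, g (x + pr L z) = ENNReal.ofReal ((2 * R) ^ n) * ∫⁻ x, g x := by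
  have hTF := Pool.Agent.W135.CB.proof_tf n L
  have hm : Measurable (fun p : Tor n L × (Fin n → ℝ) => g (p.1 + pr L p.2)) := by
    refine hg.comp ?_
    refine measurable_pi_lambda _ fun c => ?_
    have h1 : Measurable fun p : Tor n L × (Fin n → ℝ) => p.1 c :=
      (measurable_pi_apply c).comp measurable_fst
    have h2 : Measurable fun p : Tor n L × (Fin n → ℝ) => pr L p.2 c :=
      (measurable_pi_apply c).comp (pr_meas.comp measurable_snd)
    exact h1.add h2
  have := cube_fin (n := n) R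
  rw [lintegral_lintegral_swap hm.aemeasurable]
  have h1 : ∀ z : Fin n → ℝ, ∫⁻ x : Tor n L, g (x + pr L z) = ∫⁻ x, g x := fun z =>
    hTF.2.2.2.2.1 g hg (pr L z)
  simp only [h1]
  rw [lintegral_const, Measure.restrict_apply_univ, Pool.Agent.W753.CB.vol_cube n hR, mul_comm]

lemma Mo_enorm (R : ℝ) (hR : 0 < R) (f : Tor n L → ℂ) (x : Tor n L) :
    ‖Mo R f x‖ₑ ≤ ENNReal.ofReal ((2 * R) ^ n)⁻¹ * ∫⁻ z in cube n R, ‖f (x + pr L z)‖ₑ := by
  unfold Mo
  rw [enorm_mul]
  refine mul_le_mul' (le_of_eq ?_) (enorm_integral_le_lintegral_enorm _)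
  rw [← Complex.ofReal_inv, ← ofReal_norm, Complex.norm_real, Real.norm_eq_abs,
    abs_of_nonneg (by positivity)]

lemma cs_set {f : (Fin n → ℝ) → ℝ≥0∞} (hf : Measurable f) (D : Set (Fin n → ℝ)) :
    (∫⁻ z in D, f z) ^ 2 ≤ volume D * ∫⁻ z in D, f z ^ 2 := by
  have h := Pool.Agent.W74.CC.cauchy (volume.restrict D) (fun _ => 1) f measurable_const hf
  simpa using h

lemma Mo_sq {f : Tor n L → ℂ} (hf : Measurable f) {R : ℝ} (hR : 0 < R) (x : Tor n L) :
    ‖Mo R f x‖ₑ ^ 2 ≤ ENNReal.ofReal ((2 * R) ^ n)⁻¹ *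
      ∫⁻ z in cube n R, ‖f (x + pr L z)‖ₑ ^ 2 := by
  have hm : Measurable fun z : Fin n → ℝ => ‖f (x + pr L z)‖ₑ :=
    ((fib_meas hf).comp measurable_prodMk_left).enorm
  have hp : (0 : ℝ) < (2 * R) ^ n := by positivity
  calc ‖Mo R f x‖ₑ ^ 2 ≤ (ENNReal.ofReal ((2 * R) ^ n)⁻¹ *
        ∫⁻ z in cube n R, ‖f (x + pr L z)‖ₑ) ^ 2 := by
        gcongr
        exact Mo_enorm R hR f x
    _ = ENNReal.ofReal ((2 * R) ^ n)⁻¹ * (ENNReal.ofReal ((2 * R) ^ n)⁻¹ *
        (∫⁻ z in cube n R, ‖f (x + pr L z)‖ₑ) ^ 2) := by ring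
    _ ≤ ENNReal.ofReal ((2 * R) ^ n)⁻¹ * (ENNReal.ofReal ((2 * R) ^ n)⁻¹ *
        (ENNReal.ofReal ((2 * R) ^ n) * ∫⁻ z in cube n R, ‖f (x + pr L z)‖ₑ ^ 2)) := by
        gcongr
        have := cs_set hm (cube n R)
        rwa [Pool.Agent.W753.CB.vol_cube n hR.le] at this
    _ = _ := by
        rw [← mul_assoc (ENNReal.ofReal ((2 * R) ^ n)⁻¹) (ENNReal.ofReal ((2 * R) ^ n)),
          ← ENNReal.ofReal_mul (by positivity), inv_mul_cancel₀ hp.ne', ENNReal.ofReal_one,
          one_mul]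

lemma N2_Mo {f : Tor n L → ℂ} (hf : Measurable f) {R : ℝ} (hR : 0 < R) : N2 (Mo R f) ≤ N2 f := by
  have hp : (0 : ℝ) < (2 * R) ^ n := by positivity
  unfold N2
  refine (lintegral_mono fun x => Mo_sq hf hR x).trans ?_
  rw [lintegral_const_mul' _ _ ENNReal.ofReal_ne_top, avg_shift (g := fun x => ‖f x‖ₑ ^ 2)
    (hf.enorm.pow_const 2) hR.le, ← mul_assoc, ← ENNReal.ofReal_mul (by positivity),
    inv_mul_cancel₀ hp.ne', ENNReal.ofReal_one, one_mul]

/-- the squared norm as a real number -/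
def I2 (f : Tor n L → ℂ) : ℝ := ∫ x, ‖f x‖ ^ 2

lemma sq_int {f : Tor n L → ℂ} (hf : Bd f) : Integrable fun x => ‖f x‖ ^ 2 := by
  obtain ⟨B, hB⟩ := hf.bdd
  refine Integrable.of_bound (C := B ^ 2) (hf.meas.norm.pow_const 2).aestronglyMeasurable
    (Filter.Eventually.of_forall fun x => ?_)
  rw [Real.norm_eq_abs, abs_of_nonneg (by positivity)]
  exact pow_le_pow_left₀ (norm_nonneg _) (hB x) 2

lemma N2_eq {f : Tor n L → ℂ} (hf : Bd f) : N2 f = ENNReal.ofReal (I2 f) := by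
  unfold N2 I2
  rw [ofReal_integral_eq_lintegral_ofReal (sq_int hf)
    (Filter.Eventually.of_forall fun x => by positivity)]
  refine lintegral_congr fun x => ?_
  rw [ENNReal.ofReal_pow (norm_nonneg _), ofReal_norm]

lemma I2_nonneg (f : Tor n L → ℂ) : 0 ≤ I2 f := integral_nonneg fun x => by positivity

lemma ip_self (f : Tor n L → ℂ) : (ip f f).re = I2 f := by
  unfold ip I2
  have : (fun x => (starRingEnd ℂ) (f x) * f x) = fun x => ((‖f x‖ ^ 2 : ℝ) : ℂ) := by
    funext x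
    rw [← Complex.normSq_eq_conj_mul_self, Complex.normSq_eq_norm_sq]
  rw [this, integral_complex_ofReal, Complex.ofReal_re]

lemma I2_sub {f g : Tor n L → ℂ} (hf : Bd f) (hg : Bd g) :
    I2 (fun x => f x - g x) = I2 f - 2 * (ip f g).re + I2 g := by
  have h1 : (ip f g).re = ∫ x, ((starRingEnd ℂ) (f x) * g x).re := by
    unfold ip
    exact (integral_re (𝕜 := ℂ) (ip_int hf hg)).symm
  rw [h1]
  unfold I2
  have hi := ip_int hf hg
  have hre : Integrable fun x => ((starRingEnd ℂ) (f x) * g x).re := hi.re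
  have hs : Integrable fun x => ‖f x‖ ^ 2 - 2 * ((starRingEnd ℂ) (f x) * g x).re :=
    (sq_int hf).sub (hre.const_mul 2)
  rw [← integral_const_mul, ← integral_sub (sq_int hf) (hre.const_mul 2),
    ← integral_add hs (sq_int hg)]
  refine integral_congr_ae (Filter.Eventually.of_forall fun x => ?_)
  simp only
  rw [← Complex.normSq_eq_norm_sq, ← Complex.normSq_eq_norm_sq, ← Complex.normSq_eq_norm_sq,
    Complex.normSq_sub]
  have : (f x * (starRingEnd ℂ) (g x)).re = ((starRingEnd ℂ) (f x) * g x).re := by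
    simp only [Complex.mul_re, Complex.conj_re, Complex.conj_im]
    ring
  rw [this]
  ring

/-- splitting of the norm -/
theorem N2_split {g : Tor n L → ℂ} (hg : Bd g) {R : ℝ} (hR : 0 < R) :
    N2 (fun x => g x - Mo R (Mo R g) x) + N2 (Mo R g) ≤ N2 g := by
  have h1 := hg.Mo R
  have h2 := h1.Mo R
  rw [N2_eq (hg.sub h2), N2_eq h1, N2_eq hg, ← ENNReal.ofReal_add (I2_nonneg _) (I2_nonneg _)]
  apply ENNReal.ofReal_le_ofReal
  have e1 : ip g (Mo R (Mo R g)) = ip (Mo R g) (Mo R g) := (ip_Mo hg h1 R).symm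
  have e2 := N2_Mo h1.meas hR
  rw [N2_eq h1, N2_eq h2, ENNReal.ofReal_le_ofReal_iff (I2_nonneg _)] at e2
  rw [I2_sub hg h2, e1, ip_self]
  linarith

theorem d1_split {f : Tor n L → ℂ} (hf : Bd f) {R : ℝ} (hR : 0 < R) (h : Tor n L) :
    d1 (fun x => f x - Mo R (Mo R f) x) h + d1 (Mo R f) h ≤ d1 f h := by
  have hg : Bd (fun x => f (x + h) - f x) := (hf.shift h).sub hf
  have e1 : Mo R (fun x => f (x + h) - f x) = fun x => Mo R f (x + h) - Mo R f x := by
    funext x
    rw [Mo_sub (hf.shift h) hf, Mo_shift]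
  have e2 : Mo R (Mo R (fun x => f (x + h) - f x)) =
      fun x => Mo R (Mo R f) (x + h) - Mo R (Mo R f) x := by
    rw [e1]
    funext x
    rw [Mo_sub ((hf.Mo R).shift h) (hf.Mo R), Mo_shift]
  have h1 := N2_split hg hR
  rw [e2, e1] at h1
  refine le_trans (le_of_eq ?_) h1
  unfold d1 N2
  congr 1
  refine lintegral_congr fun x => ?_
  congr 2
  ring

lemma Bd.mem {f : Tor n L → ℂ} (hf : Bd f) : MemLp f 2 (volume : Measure (Tor n L)) := by
  obtain ⟨B, hB⟩ := hf.bdd
  exact MemLp.of_bound hf.meas.aestronglyMeasurable B (Filter.Eventually.of_forall hB)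

lemma d1_mono {f : Tor n L → ℂ} (hf : Bd f) (c : Fin n) :
    Monotone fun k : ℕ => 4 ^ k * d1 f (ec L c ((2 : ℝ)⁻¹ ^ k)) := by
  refine monotone_nat_of_le_succ fun k => ?_
  have h1 := Pool.Agent.W753.CB.ph_nsmul (hf.mem.toLp f) (ec L c ((2 : ℝ)⁻¹ ^ (k + 1))) 2
  rw [Pool.Agent.W753.CB.ec_nsmul] at h1
  have e : ((2 : ℕ) : ℝ) * (2 : ℝ)⁻¹ ^ (k + 1) = (2 : ℝ)⁻¹ ^ k := by
    rw [pow_succ]
    push_cast
    ring
  rw [e] at h1
  have h2 := pow_le_pow_left' h1 2
  rw [mul_pow, Pool.Agent.W753.CB.ph_sq, Pool.Agent.W753.CB.ph_sq] at h2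
  calc 4 ^ k * d1 f (ec L c ((2 : ℝ)⁻¹ ^ k))
      ≤ 4 ^ k * (((2 : ℕ) : ℝ≥0∞) ^ 2 * d1 f (ec L c ((2 : ℝ)⁻¹ ^ (k + 1)))) := by gcongr
    _ = _ := by
        rw [pow_succ (4 : ℝ≥0∞), ← mul_assoc]
        congr 2
        norm_num

/-- splitting of the gradient -/
theorem K1_split {f : Tor n L → ℂ} (hf : Bd f) {R : ℝ} (hR : 0 < R) :
    K1 (fun x => f x - Mo R (Mo R f) x) + K1 (Mo R f) ≤ K1 f := by
  unfold K1
  rw [← Finset.sum_add_distrib]
  refine Finset.sum_le_sum fun c _ => ?_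
  rw [ENNReal.iSup_add_iSup_of_monotone (d1_mono (hf.sub ((hf.Mo R).Mo R)) c)
    (d1_mono (hf.Mo R) c)]
  refine iSup_mono fun k => ?_
  rw [← mul_add]
  exact mul_le_mul_right (d1_split hf hR _) _

/-- the gradient controls the differences -/
lemma d1_K1 {f : Tor n L → ℂ} (hf : Bd f) {r : ℝ} (hr : 0 ≤ r) {w : Fin n → ℝ}
    (hw : w ∈ cube n r) : d1 f (pr L w) ≤ n * ENNReal.ofReal (r ^ 2) * K1 f :=
  Pool.Agent.W753.CB.d1_le f hf.mem hr hw

/-- the averages are close to the function -/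
lemma N2_near {f : Tor n L → ℂ} (hf : Bd f) {R : ℝ} (hR : 0 < R) :
    N2 (fun x => Mo R f x - f x) ≤ n * ENNReal.ofReal (R ^ 2) * K1 f := by
  have hp : (0 : ℝ) < (2 * R) ^ n := by positivity
  have := cube_fin (n := n) R
  have h1 : ∀ x, ‖Mo R f x - f x‖ₑ ^ 2 ≤ ENNReal.ofReal ((2 * R) ^ n)⁻¹ *
      ∫⁻ z in cube n R, ‖f (x + pr L z) - f x‖ₑ ^ 2 := by
    intro x
    have e : Mo R f x - f x = (((2 * R) ^ n : ℝ) : ℂ)⁻¹ *
        ∫ z in cube n R, (f (x + pr L z) - f x) := by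
      unfold Mo
      rw [integral_sub (fib_int hf R x) (integrable_const _), integral_const, mul_sub]
      congr 1
      rw [measureReal_restrict_apply_univ, measureReal_def, Pool.Agent.W753.CB.vol_cube n hR.le,
        ENNReal.toReal_ofReal hp.le, Complex.real_smul, ← mul_assoc, inv_mul_cancel₀, one_mul]
      exact_mod_cast hp.ne'
    have hm : Measurable fun z : Fin n → ℝ => ‖f (x + pr L z) - f x‖ₑ :=
      (((fib_meas hf.meas).comp measurable_prodMk_left).sub_const _).enorm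
    rw [e, enorm_mul, mul_pow]
    have e3 : ‖(((2 * R) ^ n : ℝ) : ℂ)⁻¹‖ₑ = ENNReal.ofReal ((2 * R) ^ n)⁻¹ := by
      rw [← Complex.ofReal_inv, ← ofReal_norm, Complex.norm_real, Real.norm_eq_abs,
        abs_of_nonneg (by positivity)]
    rw [e3]
    calc ENNReal.ofReal ((2 * R) ^ n)⁻¹ ^ 2 * ‖∫ z in cube n R, (f (x + pr L z) - f x)‖ₑ ^ 2
        ≤ ENNReal.ofReal ((2 * R) ^ n)⁻¹ ^ 2 *
          (∫⁻ z in cube n R, ‖f (x + pr L z) - f x‖ₑ) ^ 2 := by
          gcongr
          exact enorm_integral_le_lintegral_enorm _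
      _ ≤ ENNReal.ofReal ((2 * R) ^ n)⁻¹ ^ 2 * (ENNReal.ofReal ((2 * R) ^ n) *
          ∫⁻ z in cube n R, ‖f (x + pr L z) - f x‖ₑ ^ 2) := by
          gcongr
          have := cs_set hm (cube n R)
          rwa [Pool.Agent.W753.CB.vol_cube n hR.le] at this
      _ = _ := by
          rw [sq, ← mul_assoc, mul_assoc (ENNReal.ofReal ((2 * R) ^ n)⁻¹),
            ← ENNReal.ofReal_mul (by positivity), inv_mul_cancel₀ hp.ne', ENNReal.ofReal_one,
            mul_one]
  have hm2 : Measurable (fun p : Tor n L × (Fin n → ℝ) => ‖f (p.1 + pr L p.2) - f p.1‖ₑ ^ 2) :=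
    ((fib_meas hf.meas).sub (hf.meas.comp measurable_fst)).enorm.pow_const 2
  unfold N2
  refine (lintegral_mono h1).trans ?_
  rw [lintegral_const_mul' _ _ ENNReal.ofReal_ne_top, lintegral_lintegral_swap hm2.aemeasurable]
  calc ENNReal.ofReal ((2 * R) ^ n)⁻¹ * ∫⁻ z in cube n R, ∫⁻ x, ‖f (x + pr L z) - f x‖ₑ ^ 2
      ≤ ENNReal.ofReal ((2 * R) ^ n)⁻¹ * ∫⁻ _z in cube n R,
          n * ENNReal.ofReal (R ^ 2) * K1 f := by
        refine mul_le_mul_right ?_ _
        exact setLIntegral_mono' (cube_meas R) fun z hz => d1_K1 hf hR.le hz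
    _ = _ := by
        rw [setLIntegral_const, Pool.Agent.W753.CB.vol_cube n hR.le, mul_comm _ (ENNReal.ofReal _),
          ← mul_assoc, ← ENNReal.ofReal_mul (by positivity), inv_mul_cancel₀ hp.ne',
          ENNReal.ofReal_one, one_mul]

end

end Pool.Agent.Y656
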