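import Pool.Agent.Y656.Mo1

/-!
# The gradient of the averages
-/

set_option autoImplicit false
set_option linter.unusedSectionVars false

open MeasureTheory
open scoped ENNReal

namespace Pool.Agent.Y656

open Pool.Agent.W761.CB Pool.Agent.W761.CC
open Pool.Agent.W554.CC (cube_meas meas_add sum_cube_le)

noncomputable section

variable {n : ℕ} {L : ℝ} [hL : Fact (0 < L)]

lemma shift_cube {φ : (Fin n → ℝ) → ℝ≥0∞} (hφ : Measurable φ) {a b : ℝ} {z : Fin n → ℝ}
    (hz : z ∈ cube n b) : ∫⁻ w in cube n a, φ (w + z) ≤ ∫⁻ u in cube n (a + b), φ u := by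
  rw [← lintegral_indicator (cube_meas a), ← lintegral_indicator (cube_meas (a + b))]
  rw [← lintegral_add_right_eq_self (fun u => (cube n (a + b)).indicator φ u) z]
  refine lintegral_mono fun w => ?_
  by_cases h : w ∈ cube n a
  · rw [Set.indicator_of_mem h, Set.indicator_of_mem]
    intro c
    rw [Pi.add_apply]
    exact (abs_add_le _ _).trans (add_le_add (h c) (hz c))
  · rw [Set.indicator_of_notMem h]
    exact bot_le

/-- the symmetric difference of the cube and its translate -/
def SD (c : Fin n) (R h : ℝ) : Set (Fin n → ℝ) := {z | z ∈ cube n (R + h) ∧ R - h ≤ |z c|}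

lemma SD_meas (c : Fin n) (R h : ℝ) : MeasurableSet (SD c R h) :=
  (cube_meas _).inter (measurableSet_le measurable_const (measurable_pi_apply c).abs)

lemma SD_vol (c : Fin n) {R h : ℝ} (hh : 0 ≤ h) (hR : 0 < R) (hhR : h ≤ R) :
    volume (SD c R h) ≤ ENNReal.ofReal (h / R * (4 * R) ^ n) := by
  obtain ⟨S, hS⟩ : ∃ S : Fin n → Set ℝ, S = fun c' => if c' = c then
    Set.Icc (R - h) (R + h) ∪ Set.Icc (-(R + h)) (-(R - h)) else Set.Icc (-(R + h)) (R + h) :=
    ⟨_, rfl⟩
  have hsub : SD c R h ⊆ Set.univ.pi S := by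
    intro z hz
    rw [Set.mem_univ_pi]
    intro c'
    rw [hS]
    simp only
    have h1 := hz.1 c'
    split_ifs with hc
    · subst hc
      have h2 := hz.2
      rcases le_total 0 (z c') with h0 | h0
      · rw [abs_of_nonneg h0] at h1 h2
        exact Or.inl ⟨h2, h1⟩
      · rw [abs_of_nonpos h0] at h1 h2
        exact Or.inr ⟨by linarith, by linarith⟩
    · exact abs_le.1 h1
  refine (measure_mono hsub).trans ?_
  rw [volume_pi_pi]
  have hv : ∀ c', volume (S c') ≤ (if c' = c then ENNReal.ofReal (h / R) else 1) *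
      ENNReal.ofReal (4 * R) := by
    intro c'
    rw [hS]
    simp only
    split_ifs with hc
    · refine (measure_union_le _ _).trans ?_
      rw [Real.volume_Icc, Real.volume_Icc, ← ENNReal.ofReal_add (by linarith) (by linarith),
        ← ENNReal.ofReal_mul (by positivity)]
      apply ENNReal.ofReal_le_ofReal
      rw [div_mul_eq_mul_div, le_div_iff₀ hR]
      ring_nf
      exact le_rfl
    · rw [Real.volume_Icc, one_mul]
      apply ENNReal.ofReal_le_ofReal
      linarith
  calc ∏ c', volume (S c') ≤ ∏ c', ((if c' = c then ENNReal.ofReal (h / R) else 1) *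
        ENNReal.ofReal (4 * R)) := Finset.prod_le_prod' fun c' _ => hv c'
    _ = _ := by
        rw [Finset.prod_mul_distrib, Finset.prod_ite_eq' Finset.univ c, if_pos (Finset.mem_univ c),
          Finset.prod_const, Finset.card_univ, Fintype.card_fin,
          ENNReal.ofReal_mul (p := h / R) (by positivity), ENNReal.ofReal_pow (by positivity)]

lemma pr_add' (z z' : Fin n → ℝ) : pr L (z + z') = pr L z + pr L z' :=
  (Pool.Agent.W135.CB.proof_tf n L).2.2.1 z z'

lemma fibz {f : Tor n L → ℂ} (hf : Measurable f) (x : Tor n L) :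
    Measurable fun z : Fin n → ℝ => f (x + pr L z) := (fib_meas hf).comp measurable_prodMk_left

/-- the difference of two averages -/
lemma Mo_diff {f : Tor n L → ℂ} (hf : Bd f) {R h : ℝ} (hR : 0 < R) (hh : 0 ≤ h) (c : Fin n)
    (x : Tor n L) : ‖Mo R f (x + ec L c h) - Mo R f x‖ₑ ≤
      ENNReal.ofReal ((2 * R) ^ n)⁻¹ * ∫⁻ z in SD c R h, ‖f (x + pr L z)‖ₑ := by
  have hfin := cube_fin (n := n) R
  obtain ⟨s, hs⟩ : ∃ s : Fin n → ℝ, s = Pi.single c h := ⟨_, rfl⟩
  have hec : ec L c h = pr L s := by rw [hs]; rfl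
  obtain ⟨φ, hφ⟩ : ∃ φ : (Fin n → ℝ) → ℂ, φ = fun z => f (x + pr L z) := ⟨_, rfl⟩
  have hφm : Measurable φ := by rw [hφ]; exact fibz hf.meas x
  have hφi : IntegrableOn φ (cube n R) := by rw [hφ]; exact fib_int hf R x
  have e1 : ∫ z in cube n R, f (x + ec L c h + pr L z) =
      ∫ z, (cube n R).indicator (fun _ => (1 : ℂ)) (z - s) * φ z := by
    rw [← integral_add_right_eq_self
      (fun z => (cube n R).indicator (fun _ => (1 : ℂ)) (z - s) * φ z) s,
      ← integral_indicator (cube_meas R)]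
    refine integral_congr_ae (Filter.Eventually.of_forall fun z => ?_)
    simp only [add_sub_cancel_right]
    by_cases hz : z ∈ cube n R
    · rw [Set.indicator_of_mem hz, Set.indicator_of_mem hz, one_mul, hφ]
      simp only
      rw [hec, pr_add', add_assoc, add_comm (pr L s)]
    · rw [Set.indicator_of_notMem hz, Set.indicator_of_notMem hz, zero_mul]
  have e2 : ∫ z in cube n R, f (x + pr L z) =
      ∫ z, (cube n R).indicator (fun _ => (1 : ℂ)) z * φ z := by
    rw [← integral_indicator (cube_meas R)]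
    refine integral_congr_ae (Filter.Eventually.of_forall fun z => ?_)
    simp only
    by_cases hz : z ∈ cube n R
    · rw [Set.indicator_of_mem hz, Set.indicator_of_mem hz, one_mul, hφ]
    · rw [Set.indicator_of_notMem hz, Set.indicator_of_notMem hz, zero_mul]
  have hi2 : Integrable fun z => (cube n R).indicator (fun _ => (1 : ℂ)) z * φ z := by
    have h1 : (fun z => (cube n R).indicator (fun _ => (1 : ℂ)) z * φ z) =
        (cube n R).indicator φ := by
      funext z
      by_cases hz : z ∈ cube n R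
      · rw [Set.indicator_of_mem hz, Set.indicator_of_mem hz, one_mul]
      · rw [Set.indicator_of_notMem hz, Set.indicator_of_notMem hz, zero_mul]
    rw [h1]
    exact (integrable_indicator_iff (cube_meas R)).2 hφi
  have hi1 : Integrable fun z => (cube n R).indicator (fun _ => (1 : ℂ)) (z - s) * φ z := by
    have h1 : Integrable fun z => (cube n R).indicator (fun _ => (1 : ℂ)) z *
        f (x + ec L c h + pr L z) := by
      have h2 : (fun z => (cube n R).indicator (fun _ => (1 : ℂ)) z *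
          f (x + ec L c h + pr L z)) = (cube n R).indicator (fun z => f (x + ec L c h + pr L z)) := by
        funext z
        by_cases hz : z ∈ cube n R
        · rw [Set.indicator_of_mem hz, Set.indicator_of_mem hz, one_mul]
        · rw [Set.indicator_of_notMem hz, Set.indicator_of_notMem hz, zero_mul]
      rw [h2]
      exact (integrable_indicator_iff (cube_meas R)).2 (fib_int hf R _)
    have h3 := h1.comp_sub_right s
    refine h3.congr (Filter.Eventually.of_forall fun z => ?_)
    simp only [hφ]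
    congr 2
    rw [hec, add_assoc, ← pr_add']
    congr 2
    abel
  have e3 : Mo R f (x + ec L c h) - Mo R f x = (((2 * R) ^ n : ℝ) : ℂ)⁻¹ *
      ∫ z, ((cube n R).indicator (fun _ => (1 : ℂ)) (z - s) -
        (cube n R).indicator (fun _ => (1 : ℂ)) z) * φ z := by
    unfold Mo
    rw [e1, e2, ← mul_sub, ← integral_sub hi1 hi2]
    congr 2
    funext z
    ring
  have e4 : ‖(((2 * R) ^ n : ℝ) : ℂ)⁻¹‖ₑ = ENNReal.ofReal ((2 * R) ^ n)⁻¹ := by
    rw [← Complex.ofReal_inv, ← ofReal_norm, Complex.norm_real, Real.norm_eq_abs,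
      abs_of_nonneg (by positivity)]
  rw [e3, enorm_mul, e4]
  refine mul_le_mul_right ((enorm_integral_le_lintegral_enorm _).trans ?_) _
  rw [← lintegral_indicator (SD_meas c R h)]
  refine lintegral_mono fun z => ?_
  by_cases hz : z ∈ SD c R h
  · rw [Set.indicator_of_mem hz, enorm_mul, hφ]
    have h1 : ‖(cube n R).indicator (fun _ => (1 : ℂ)) (z - s) -
        (cube n R).indicator (fun _ => (1 : ℂ)) z‖ₑ ≤ 1 := by
      by_cases h2 : z - s ∈ cube n R <;> by_cases h3 : z ∈ cube n R
      · rw [Set.indicator_of_mem h2, Set.indicator_of_mem h3]; simp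
      · rw [Set.indicator_of_mem h2, Set.indicator_of_notMem h3]; simp
      · rw [Set.indicator_of_notMem h2, Set.indicator_of_mem h3]; simp
      · rw [Set.indicator_of_notMem h2, Set.indicator_of_notMem h3]; simp
    exact (mul_le_mul_left h1 _).trans (le_of_eq (one_mul _))
  · rw [Set.indicator_of_notMem hz]
    have h4 : (cube n R).indicator (fun _ => (1 : ℂ)) (z - s) -
        (cube n R).indicator (fun _ => (1 : ℂ)) z = 0 := by
      have hsc : ∀ c', (z - s) c' = if c' = c then z c' - h else z c' := by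
        intro c'
        rw [Pi.sub_apply, hs, Pi.single_apply]
        split_ifs with hc
        · rfl
        · ring
      by_cases h2 : z - s ∈ cube n R <;> by_cases h3 : z ∈ cube n R
      · rw [Set.indicator_of_mem h2, Set.indicator_of_mem h3, sub_self]
      · exfalso
        apply h3
        intro c'
        by_cases hc : c' = c
        · by_contra h5
          rw [not_le] at h5
          apply hz
          have h6 := h2 c'
          rw [hsc, if_pos hc, abs_le] at h6
          refine ⟨fun c'' => ?_, ?_⟩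
          · by_cases hc2 : c'' = c
            · rw [hc2, ← hc, abs_le]
              constructor <;> linarith
            · have h7 := h2 c''
              rw [hsc, if_neg hc2] at h7
              linarith
          · rw [← hc]
            linarith
        · have h6 := h2 c'
          rwa [hsc, if_neg hc] at h6
      · exfalso
        apply h2
        intro c'
        rw [hsc]
        split_ifs with hc
        · by_contra h5
          rw [not_le] at h5
          apply hz
          have h6 := h3 c'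
          refine ⟨fun c'' => (h3 c'').trans (by linarith), ?_⟩
          rw [← hc]
          rw [abs_le] at h6
          have h7 : z c' < h - R := by
            by_contra h8
            rw [not_lt] at h8
            have : |z c' - h| ≤ R := by
              rw [abs_le]
              constructor <;> linarith
            linarith
          have h9 := neg_abs_le (z c')
          linarith
        · exact h3 c'
      · rw [Set.indicator_of_notMem h2, Set.indicator_of_notMem h3, sub_self]
    rw [h4, zero_mul]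
    simp

/-- the average of the averages -/
def MM (R : ℝ) (f : Tor n L → ℂ) : Tor n L → ℂ := Mo R (Mo R f)

lemma Bd.MM {f : Tor n L → ℂ} (hf : Bd f) (R : ℝ) : Bd (MM R f) := (hf.Mo R).Mo R

lemma MM_diff {f : Tor n L → ℂ} (hf : Bd f) {R h : ℝ} (hR : 0 < R) (hh : 0 ≤ h) (hhR : h ≤ R)
    (c : Fin n) (x : Tor n L) : ‖MM R f (x + ec L c h) - MM R f x‖ₑ ≤
      ENNReal.ofReal (h / R) * ENNReal.ofReal R⁻¹ ^ n *
        ∫⁻ u in cube n (3 * R), ‖f (x + pr L u)‖ₑ := by
  have hp : (0 : ℝ) < (2 * R) ^ n := by positivity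
  obtain ⟨g, hg⟩ : ∃ g : Tor n L → ℂ, g = fun x => Mo R f (x + ec L c h) - Mo R f x := ⟨_, rfl⟩
  have hgB : Bd g := by rw [hg]; exact ((hf.Mo R).shift _).sub (hf.Mo R)
  have e1 : MM R f (x + ec L c h) - MM R f x = Mo R g x := by
    rw [hg, Mo_sub ((hf.Mo R).shift _) (hf.Mo R), Mo_shift]
    rfl
  have hfm : Measurable (fun p : (Fin n → ℝ) × (Fin n → ℝ) => ‖f (x + pr L p.1 + pr L p.2)‖ₑ) := by
    have h1 := (fib_meas hf.meas).comp (((meas_add x).comp (pr_meas (n := n) (L := L))).prodMap
      (measurable_id (α := Fin n → ℝ)))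
    have h2 : (fun p : (Fin n → ℝ) × (Fin n → ℝ) => ‖f (x + pr L p.1 + pr L p.2)‖ₑ) =
        fun p => ‖((fun p : Tor n L × (Fin n → ℝ) => f (p.1 + pr L p.2)) ∘
          Prod.map ((fun y => y + x) ∘ pr L) id) p‖ₑ := by
      funext p
      simp only [Function.comp, Prod.map, id]
      rw [add_comm x (pr L p.1)]
    rw [h2]
    exact h1.enorm
  rw [e1]
  calc ‖Mo R g x‖ₑ ≤ ENNReal.ofReal ((2 * R) ^ n)⁻¹ * ∫⁻ w in cube n R, ‖g (x + pr L w)‖ₑ :=
        Mo_enorm R hR g x
    _ ≤ ENNReal.ofReal ((2 * R) ^ n)⁻¹ * ∫⁻ w in cube n R, ENNReal.ofReal ((2 * R) ^ n)⁻¹ *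
        ∫⁻ z in SD c R h, ‖f (x + pr L w + pr L z)‖ₑ := by
        refine mul_le_mul_right (lintegral_mono fun w => ?_) _
        rw [hg]
        exact Mo_diff hf hR hh c _
    _ = ENNReal.ofReal ((2 * R) ^ n)⁻¹ * (ENNReal.ofReal ((2 * R) ^ n)⁻¹ *
        ∫⁻ z in SD c R h, ∫⁻ w in cube n R, ‖f (x + pr L w + pr L z)‖ₑ) := by
        rw [lintegral_const_mul' _ _ ENNReal.ofReal_ne_top,
          lintegral_lintegral_swap hfm.aemeasurable]
    _ ≤ ENNReal.ofReal ((2 * R) ^ n)⁻¹ * (ENNReal.ofReal ((2 * R) ^ n)⁻¹ *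
        ∫⁻ _z in SD c R h, ∫⁻ u in cube n (3 * R), ‖f (x + pr L u)‖ₑ) := by
        refine mul_le_mul_right (mul_le_mul_right ?_ _) _
        refine setLIntegral_mono' (SD_meas c R h) fun z hz => ?_
        have h1 : z ∈ cube n (2 * R) := fun c' => (hz.1 c').trans (by linarith)
        have h2 := shift_cube (φ := fun u => ‖f (x + pr L u)‖ₑ) (fibz hf.meas x).enorm
          (a := R) h1
        rw [show R + 2 * R = 3 * R by ring] at h2
        refine le_trans (le_of_eq ?_) h2
        refine lintegral_congr fun w => ?_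
        rw [pr_add', add_assoc]
    _ ≤ ENNReal.ofReal ((2 * R) ^ n)⁻¹ * (ENNReal.ofReal ((2 * R) ^ n)⁻¹ *
        ((∫⁻ u in cube n (3 * R), ‖f (x + pr L u)‖ₑ) * ENNReal.ofReal (h / R * (4 * R) ^ n))) := by
        rw [setLIntegral_const]
        gcongr
        exact SD_vol c hh hR hhR
    _ = (ENNReal.ofReal ((2 * R) ^ n)⁻¹ * ENNReal.ofReal ((2 * R) ^ n)⁻¹ *
        ENNReal.ofReal (h / R * (4 * R) ^ n)) * ∫⁻ u in cube n (3 * R), ‖f (x + pr L u)‖ₑ := by
        ring
    _ = _ := by
        congr 1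
        rw [← ENNReal.ofReal_mul (by positivity), ← ENNReal.ofReal_mul (by positivity),
          ← ENNReal.ofReal_pow (by positivity), ← ENNReal.ofReal_mul (by positivity)]
        congr 1
        rw [mul_pow 2 R, mul_pow 4 R, show (4 : ℝ) = 2 * 2 by norm_num, mul_pow (2 : ℝ) 2, inv_pow]
        have h2n : (0 : ℝ) < 2 ^ n := by positivity
        have hRn : (0 : ℝ) < R ^ n := by positivity
        field_simp

/-- the gradient of the average of the averages -/
theorem MM_grad {f : Tor n L → ℂ} (hf : Bd f) {R : ℝ} (hR : 1 ≤ R) (c : Fin n) (k : ℕ)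
    (x : Tor n L) : 4 ^ k * ‖MM R f (x + ec L c ((2 : ℝ)⁻¹ ^ k)) - MM R f x‖ₑ ^ 2 ≤
      ENNReal.ofReal (6 ^ n / (R ^ 2 * R ^ n)) *
        ∫⁻ u in cube n (3 * R), ‖f (x + pr L u)‖ₑ ^ 2 := by
  have hR0 : 0 < R := by linarith
  obtain ⟨h, hh⟩ : ∃ h : ℝ, h = (2 : ℝ)⁻¹ ^ k := ⟨_, rfl⟩
  have hh0 : 0 ≤ h := by rw [hh]; positivity
  have hh1 : h ≤ R := by
    refine le_trans ?_ hR
    rw [hh]
    exact pow_le_one₀ (by norm_num) (by norm_num)
  have h4 : (4 : ℝ≥0∞) ^ k * ENNReal.ofReal (h / R) ^ 2 = ENNReal.ofReal (1 / R ^ 2) := by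
    have e1 : (4 : ℝ≥0∞) ^ k = ENNReal.ofReal (4 ^ k) := by
      rw [ENNReal.ofReal_pow (by norm_num)]
      norm_num
    rw [e1, ← ENNReal.ofReal_pow (by positivity), ← ENNReal.ofReal_mul (by positivity)]
    congr 1
    rw [hh, div_pow, mul_div_assoc', ← pow_mul, mul_comm k 2, pow_mul, ← mul_pow]
    norm_num
  rw [← hh]
  have hm : Measurable fun u : Fin n → ℝ => ‖f (x + pr L u)‖ₑ := (fibz hf.meas x).enorm
  calc 4 ^ k * ‖MM R f (x + ec L c h) - MM R f x‖ₑ ^ 2
      ≤ 4 ^ k * (ENNReal.ofReal (h / R) * ENNReal.ofReal R⁻¹ ^ n *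
        ∫⁻ u in cube n (3 * R), ‖f (x + pr L u)‖ₑ) ^ 2 := by
        gcongr
        exact MM_diff hf hR0 hh0 hh1 c x
    _ = (4 ^ k * ENNReal.ofReal (h / R) ^ 2) * (ENNReal.ofReal R⁻¹ ^ n) ^ 2 *
        (∫⁻ u in cube n (3 * R), ‖f (x + pr L u)‖ₑ) ^ 2 := by ring
    _ ≤ ENNReal.ofReal (1 / R ^ 2) * (ENNReal.ofReal R⁻¹ ^ n) ^ 2 *
        (ENNReal.ofReal ((2 * (3 * R)) ^ n) *
          ∫⁻ u in cube n (3 * R), ‖f (x + pr L u)‖ₑ ^ 2) := by
        rw [h4]
        gcongr
        have := cs_set hm (cube n (3 * R))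
        rwa [Pool.Agent.W753.CB.vol_cube n (by positivity)] at this
    _ = _ := by
        rw [← mul_assoc, ← ENNReal.ofReal_pow (by positivity), ← ENNReal.ofReal_pow (by positivity),
          ← ENNReal.ofReal_mul (by positivity), ← ENNReal.ofReal_mul (by positivity)]
        congr 2
        rw [show 2 * (3 * R) = 6 * R by ring, mul_pow, inv_pow]
        have hRn : (0 : ℝ) < R ^ n := by positivity
        field_simp

/-- the norm of `f` near several separated points -/
theorem sum_near {f : Tor n L → ℂ} (hf : Bd f) {R r : ℝ} (hr : 0 < r) (hrR : r ≤ R)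
    (hrL : 2 * r < L) (G : Finset (Tor n L))
    (hG : ∀ y ∈ G, ∀ y' ∈ G, y ≠ y' → ∀ z ∈ cube n r, ∀ z' ∈ cube n r,
      y + pr L z ≠ y' + pr L z') :
    ∑ y ∈ G, ∫⁻ u in cube n (4 * R), ‖f (y + pr L u)‖ₑ ^ 2 ≤
      ENNReal.ofReal ((5 * R / r) ^ n) * N2 f := by
  have hp : (0 : ℝ) < (2 * r) ^ n := by positivity
  obtain ⟨g, hg⟩ : ∃ g : Tor n L → ℝ≥0∞, g = fun x =>
    ∫⁻ u in cube n (5 * R), ‖f (x + pr L u)‖ₑ ^ 2 := ⟨_, rfl⟩
  have hfin := cube_fin (n := n) (5 * R)
  have hgm : Measurable g := by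
    rw [hg]
    exact ((fib_meas hf.meas).enorm.pow_const 2).lintegral_prod_right'
  have h1 : ∀ y : Tor n L, ENNReal.ofReal ((2 * r) ^ n) *
      ∫⁻ u in cube n (4 * R), ‖f (y + pr L u)‖ₑ ^ 2 ≤ ∫⁻ z in cube n r, g (y + pr L z) := by
    intro y
    rw [← Pool.Agent.W753.CB.vol_cube n hr.le, mul_comm, ← setLIntegral_const]
    refine setLIntegral_mono' (cube_meas r) fun z hz => ?_
    rw [hg]
    have hz' : -z ∈ cube n r := fun c => by
      rw [Pi.neg_apply, abs_neg]
      exact hz c
    have h2 := shift_cube (φ := fun u => ‖f (y + pr L z + pr L u)‖ₑ ^ 2)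
      ((fibz hf.meas _).enorm.pow_const 2) (a := 4 * R) hz'
    have h3 : ∫⁻ u in cube n (4 * R + r), ‖f (y + pr L z + pr L u)‖ₑ ^ 2 ≤
        ∫⁻ u in cube n (5 * R), ‖f (y + pr L z + pr L u)‖ₑ ^ 2 := by
      refine lintegral_mono_set ?_
      intro u hu c
      exact (hu c).trans (by linarith)
    refine le_trans (le_of_eq ?_) (h2.trans h3)
    refine lintegral_congr fun w => ?_
    congr 3
    rw [add_assoc, ← pr_add']
    congr 2
    abel
  have h2 := (Finset.sum_le_sum fun y (_ : y ∈ G) => h1 y).trans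
    (sum_cube_le Pool.Agent.W135.CB.proof_tf hrL G hG g hgm)
  rw [← Finset.mul_sum, hg, avg_shift (g := fun x => ‖f x‖ₑ ^ 2) (hf.meas.enorm.pow_const 2)
    (by linarith)] at h2
  have h3 := mul_le_mul_right h2 (ENNReal.ofReal ((2 * r) ^ n)⁻¹)
  rw [← mul_assoc, ← ENNReal.ofReal_mul (by positivity), inv_mul_cancel₀ hp.ne',
    ENNReal.ofReal_one, one_mul] at h3
  refine h3.trans (le_of_eq ?_)
  rw [← mul_assoc, ← ENNReal.ofReal_mul (by positivity)]
  unfold N2
  congr 2
  rw [← inv_pow, ← mul_pow]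
  congr 1
  field_simp

end

end Pool.Agent.Y656
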