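import Mathlib

/-!
# Hilbert space preliminaries
-/

set_option autoImplicit false

open MeasureTheory
open scoped ENNReal

namespace Pool.Agent.Y656

/-- bounded functionals are given by vectors -/
theorem riesz_ext {V H : Type*} [AddCommGroup V] [Module ℂ V] [NormedAddCommGroup H]
    [InnerProductSpace ℂ H] [CompleteSpace H] (T : V →ₗ[ℂ] H) (φ : V →ₗ[ℂ] ℂ) (C : ℝ)
    (h : ∀ v, ‖φ v‖ ≤ C * ‖T v‖) : ∃ W : H, ∀ v, φ v = inner ℂ W (T v) := by
  obtain ⟨s, hs⟩ := T.rangeRestrict.exists_rightInverse_of_surjective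
    (LinearMap.range_rangeRestrict T)
  have hs' : ∀ w, T (s w) = w := by
    intro w
    have := congrArg (fun f => ((f w : LinearMap.range T) : H)) hs
    simpa using this
  obtain ⟨g, hg, -⟩ := exists_extension_norm_eq (LinearMap.range T)
    (LinearMap.mkContinuous (φ ∘ₗ s) C (fun w => by
      have h1 := h (s w)
      rw [hs' w] at h1
      simpa using h1))
  refine ⟨(InnerProductSpace.toDual ℂ H).symm g, fun v => ?_⟩
  rw [InnerProductSpace.toDual_symm_apply]
  have h1 := hg ⟨T v, LinearMap.mem_range_self T v⟩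
  rw [h1]
  have h2 : φ (v - s ⟨T v, LinearMap.mem_range_self T v⟩) = 0 := by
    have h3 := h (v - s ⟨T v, LinearMap.mem_range_self T v⟩)
    rw [map_sub T, hs', sub_self, norm_zero, mul_zero] at h3
    exact norm_le_zero_iff.1 h3
  rw [map_sub, sub_eq_zero] at h2
  simpa using h2

/-- a countable orthonormal basis -/
theorem countable_basis (H : Type) [NormedAddCommGroup H] [InnerProductSpace ℂ H]
    [CompleteSpace H] [SecondCountableTopology H] :
    ∃ (ι : Type) (_ : Countable ι) (b : ι → H), ∀ x : H,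
      ∑' i, ‖inner ℂ (b i) x‖ₑ ^ 2 = ‖x‖ₑ ^ 2 := by
  obtain ⟨w, b, hb⟩ := exists_hilbertBasis ℂ H
  have ho := b.orthonormal
  have hd : DiscreteTopology w := by
    refine DiscreteTopology.of_forall_le_dist (r := 1) one_pos fun x y hxy => ?_
    have h1 : ‖b x - b y‖ * ‖b x - b y‖ = 2 := by
      have h2 : inner ℂ (b x) (b y) = (0 : ℂ) := ho.2 hxy
      have h3 := norm_sub_mul_self (𝕜 := ℂ) (b x) (b y)
      rw [h2, ho.1 x, ho.1 y] at h3
      rw [h3]
      simp
      norm_num
    have h4 : 1 ≤ ‖b x - b y‖ := by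
      by_contra hlt
      push Not at hlt
      have : ‖b x - b y‖ * ‖b x - b y‖ ≤ 1 * 1 := by
        gcongr
      linarith
    have h5 : dist x y = ‖b x - b y‖ := by
      rw [Subtype.dist_eq, dist_eq_norm, hb]
    change 1 ≤ dist x y
    rw [h5]
    exact h4
  have hc : Countable w := TopologicalSpace.separableSpace_iff_countable.1 inferInstance
  refine ⟨w, hc, b, fun x => ?_⟩
  have h1 := b.hasSum_inner_mul_inner x x
  have h2 : HasSum (fun i => ‖inner ℂ (b i) x‖ ^ 2) (‖x‖ ^ 2) := by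
    have h3 : HasSum (fun i => (inner ℂ x (b i) * inner ℂ (b i) x : ℂ).re)
        ((inner ℂ x x : ℂ).re) := Complex.reCLM.hasSum h1
    have e1 : ∀ i, (inner ℂ x (b i) * inner ℂ (b i) x : ℂ).re = ‖inner ℂ (b i) x‖ ^ 2 := by
      intro i
      rw [← inner_conj_symm x (b i), Complex.conj_mul']
      norm_cast
    have e2 : (inner ℂ x x : ℂ).re = ‖x‖ ^ 2 := by
      rw [inner_self_eq_norm_sq_to_K]
      norm_cast
    simp only [e1, e2] at h3
    exact h3
  have h3 : ∀ y : ℂ, ‖y‖ₑ ^ 2 = ENNReal.ofReal (‖y‖ ^ 2) := fun y => by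
    rw [← ofReal_norm, ENNReal.ofReal_pow (norm_nonneg _)]
  simp only [h3]
  rw [← ENNReal.ofReal_tsum_of_nonneg (fun i => sq_nonneg _) h2.summable, h2.tsum_eq,
    ENNReal.ofReal_pow (norm_nonneg _), ofReal_norm]

end Pool.Agent.Y656
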