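import Pool.Agent.TH268.CC.Add

/-!
# Sums over the ways to take one particle away, and the symmetrised vector with one more particle
-/

set_option autoImplicit false
set_option linter.unusedSectionVars false

open MeasureTheory
open scoped ENNReal

namespace Pool.Agent.Y656

open Pool.Agent.W761.CB
open Pool.Agent.W338.CB (asum asum_cons ms_cs)
open Pool.Agent.TH268.CC.AddP (asum_add asum_zero zs zs_eq two_lip meas_asum en_real en_sq)

noncomputable section

section alg
variable {X : Type}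

/-- the sum of `g w B` over all ways to take one particle `w` away -/
def os2 {R : Type*} [AddCommMonoid R] (g : X → Multiset X → R) (S : Multiset X) : R :=
  asum (fun A B => if Multiset.card A = 1 then (A.map fun w => g w B).sum else 0) S

theorem os2_zero {R : Type*} [AddCommMonoid R] (g : X → Multiset X → R) : os2 g 0 = 0 := by
  simp [os2, asum]

theorem os2_cons {R : Type*} [AddCommMonoid R] (g : X → Multiset X → R) (a : X)
    (S : Multiset X) : os2 g (a ::ₘ S) = g a S + os2 (fun w B => g w (a ::ₘ B)) S := by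
  have h1 : os2 g (a ::ₘ S) = os2 (fun w B => g w (a ::ₘ B)) S + zs (g a) S := by
    have e : (fun A B => if Multiset.card (a ::ₘ A) = 1 then
          ((a ::ₘ A).map fun w => g w B).sum else 0) =
        (fun (A B : Multiset X) => if Multiset.card A = 0 then g a B else 0) := by
      funext A B
      rw [Multiset.card_cons]
      by_cases h : Multiset.card A = 0
      · rw [if_pos (by omega), if_pos h, Multiset.card_eq_zero.1 h]
        simp
      · rw [if_neg (by omega), if_neg h]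
    unfold os2 zs
    rw [asum_cons, asum_add, e]
  rw [h1, zs_eq, add_comm]

theorem os2_nonneg (S : Multiset X) : ∀ g : X → Multiset X → ℝ, (∀ w B, 0 ≤ g w B) →
    0 ≤ os2 g S := by
  induction S using Multiset.induction with
  | empty => intro g _; rw [os2_zero]
  | cons a S ih =>
    intro g hg
    rw [os2_cons]
    exact add_nonneg (hg _ _) (ih _ fun w B => hg _ _)

theorem os2_mono (S : Multiset X) : ∀ g g' : X → Multiset X → ℝ, (∀ w B, g w B ≤ g' w B) →
    os2 g S ≤ os2 g' S := by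
  induction S using Multiset.induction with
  | empty => intro g g' _; rw [os2_zero, os2_zero]
  | cons a S ih =>
    intro g g' hg
    rw [os2_cons, os2_cons]
    exact add_le_add (hg _ _) (ih _ _ fun w B => hg _ _)

theorem os2_ofReal (S : Multiset X) : ∀ g : X → Multiset X → ℝ, (∀ w B, 0 ≤ g w B) →
    ENNReal.ofReal (os2 g S) = os2 (fun w B => ENNReal.ofReal (g w B)) S := by
  induction S using Multiset.induction with
  | empty => intro g _; rw [os2_zero, os2_zero, ENNReal.ofReal_zero]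
  | cons a S ih =>
    intro g hg
    rw [os2_cons, os2_cons, ENNReal.ofReal_add (hg _ _) (os2_nonneg _ _ fun w B => hg _ _),
      ih _ fun w B => hg _ _]

theorem os2_lip (S : Multiset X) : ∀ (P Q : ℝ) (a b : X → Multiset X → ℝ),
    (√(P ^ 2 + os2 (fun w B => a w B ^ 2) S) - √(Q ^ 2 + os2 (fun w B => b w B ^ 2) S)) ^ 2 ≤
      (P - Q) ^ 2 + os2 (fun w B => (a w B - b w B) ^ 2) S := by
  induction S using Multiset.induction with
  | empty =>
    intro P Q a b
    rw [os2_zero, os2_zero, os2_zero]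
    have := two_lip P Q 0 0
    simpa using this
  | cons x S ih =>
    intro P Q a b
    rw [os2_cons, os2_cons, os2_cons]
    have h1 := ih (√(P ^ 2 + a x S ^ 2)) (√(Q ^ 2 + b x S ^ 2)) (fun w B => a w (x ::ₘ B))
      (fun w B => b w (x ::ₘ B))
    rw [Real.sq_sqrt (by positivity), Real.sq_sqrt (by positivity)] at h1
    have h2 := two_lip P Q (a x S) (b x S)
    have e1 : P ^ 2 + (a x S ^ 2 + os2 (fun w B => a w (x ::ₘ B) ^ 2) S) =
        P ^ 2 + a x S ^ 2 + os2 (fun w B => a w (x ::ₘ B) ^ 2) S := by ring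
    have e2 : Q ^ 2 + (b x S ^ 2 + os2 (fun w B => b w (x ::ₘ B) ^ 2) S) =
        Q ^ 2 + b x S ^ 2 + os2 (fun w B => b w (x ::ₘ B) ^ 2) S := by ring
    rw [e1, e2]
    linarith

theorem os2_le (S : Multiset X) : ∀ (g : X → Multiset X → ℝ) (K c : ℝ), 0 ≤ K → 1 ≤ c →
    (∀ w B, g w B ≤ K * c ^ Multiset.card B) →
    os2 g S ≤ K * (Multiset.card S) * c ^ Multiset.card S := by
  induction S using Multiset.induction with
  | empty => intro g K c _ _ _; rw [os2_zero]; simp
  | cons a S ih =>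
    intro g K c hK hc hg
    rw [os2_cons, Multiset.card_cons]
    have h1 := hg a S
    have h2 := ih (fun w B => g w (a ::ₘ B)) (K * c) c (by positivity) hc (fun w B => by
      have := hg w (a ::ₘ B)
      rw [Multiset.card_cons, pow_succ] at this
      linarith)
    have h3 : c ^ Multiset.card S ≤ c ^ (Multiset.card S + 1) :=
      pow_le_pow_right₀ hc (Nat.le_succ _)
    have h4 : K * c ^ Multiset.card S ≤ K * c ^ (Multiset.card S + 1) :=
      mul_le_mul_of_nonneg_left h3 hK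
    calc g a S + os2 (fun w B => g w (a ::ₘ B)) S ≤
          K * c ^ (Multiset.card S + 1) + K * c * (Multiset.card S) * c ^ Multiset.card S := by
          linarith
      _ = K * ((Multiset.card S + 1 : ℕ) : ℝ) * c ^ (Multiset.card S + 1) := by
          push_cast
          ring

theorem os2_supp {R : Type*} [AddCommMonoid R] (g : X → Multiset X → R) (k : ℕ)
    (hg : ∀ w B, Multiset.card B ≠ k → g w B = 0) (S : Multiset X)
    (hS : Multiset.card S ≠ k + 1) : os2 g S = 0 := by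
  unfold os2 asum
  apply Multiset.sum_eq_zero
  intro r hr
  obtain ⟨⟨A, B⟩, hAB, rfl⟩ := Multiset.mem_map.mp hr
  rw [Multiset.mem_antidiagonal] at hAB
  simp only at hAB ⊢
  split_ifs with h1
  · have h3 : Multiset.card B ≠ k := by
      intro h2
      apply hS
      rw [← hAB, Multiset.card_add, h1, h2, add_comm]
    apply Multiset.sum_eq_zero
    intro r hr
    obtain ⟨w, -, rfl⟩ := Multiset.mem_map.mp hr
    exact hg w B h3
  · rfl

end alg

section int
variable {X : Type} [MeasurableSpace X] (ν : Measure X) [IsFiniteMeasure ν]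

theorem meas_pair2 {g : X → Multiset X → ℝ≥0∞}
    (hg : Measurable fun p : X × Cf X => g p.1 (ms p.2)) :
    Measurable fun p : Cf X × Cf X => (fun A B => if Multiset.card A = 1 then
      (A.map fun w => g w B).sum else 0) (ms p.1) (ms p.2) := by
  obtain ⟨-, -, -, -, h5, -⟩ := Pool.Agent.W975.CB.proof_ms X
  have h1 : Measurable fun q : (Cf X) × X => g q.2 (ms q.1) := hg.comp measurable_swap
  have h2 := h5 (Cf X) (fun γ x => g x (ms γ)) h1
  have h3 : Measurable fun p : Cf X × Cf X => ((ms p.1).map fun w => g w (ms p.2)).sum :=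
    h2.comp measurable_swap
  exact Measurable.ite ((Pool.Agent.TH268.CC.AddP.meas_card.comp measurable_fst)
    (measurableSet_singleton 1)) h3 measurable_const

theorem meas_os2 {g : X → Multiset X → ℝ≥0∞}
    (hg : Measurable fun p : X × Cf X => g p.1 (ms p.2)) :
    Measurable fun γ : Cf X => os2 g (ms γ) :=
  meas_asum _ (meas_pair2 hg)

/-- integral over the configurations of one particle -/
theorem lint_one1 {f : X → ℝ≥0∞} (hf : Measurable f) :
    ∫⁻ γ, (if Multiset.card (ms γ) = 1 then ((ms γ).map f).sum else 0) ∂(lam ν) =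
      ∫⁻ x, f x ∂ν := by
  obtain ⟨h1, -⟩ := Pool.Agent.W366.CB.proof_lam Pool.Agent.W975.CB.proof_ms X ν
  have hm : Measurable fun γ : Cf X => (if Multiset.card (ms γ) = 1 then
      ((ms γ).map f).sum else 0) := by
    obtain ⟨-, -, -, -, h5, -⟩ := Pool.Agent.W975.CB.proof_ms X
    have h2 := (h5 Unit (fun _ => f) (hf.comp measurable_snd)).comp
      (f := fun γ : Cf X => ((), γ)) (measurable_const.prodMk measurable_id)
    exact Measurable.ite (Pool.Agent.TH268.CC.AddP.meas_card (measurableSet_singleton 1))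
      h2 measurable_const
  rw [h1 _ hm]
  rw [tsum_eq_single 1]
  · have e : ∀ x : Fin 1 → X, ms (⟨1, x⟩ : Cf X) = {x 0} := by
      intro x
      simp [ms]
    simp only [e, Multiset.card_singleton, if_true, Multiset.map_singleton,
      Multiset.sum_singleton]
    rw [Nat.factorial_one, Nat.cast_one, inv_one, one_mul]
    have h3 := (measurePreserving_funUnique ν (Fin 1)).lintegral_comp hf
    exact h3
  · intro N hN
    have e : ∀ x : Fin N → X, Multiset.card (ms (⟨N, x⟩ : Cf X)) = N := by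
      intro x
      simp [ms]
    simp only [e, if_neg hN]
    simp

theorem lint_os2 {g : X → Multiset X → ℝ≥0∞}
    (hg : Measurable fun p : X × Cf X => g p.1 (ms p.2)) :
    ∫⁻ γ, os2 g (ms γ) ∂(lam ν) = ∫⁻ w, ∫⁻ γ, g w (ms γ) ∂(lam ν) ∂ν := by
  haveI : IsFiniteMeasure (lam ν) :=
    (Pool.Agent.W366.CB.proof_lam Pool.Agent.W975.CB.proof_ms X ν).2.1
  obtain ⟨h, hh⟩ : ∃ h : Multiset X → Multiset X → ℝ≥0∞, h = fun A B =>
    if Multiset.card A = 1 then (A.map fun w => g w B).sum else 0 := ⟨_, rfl⟩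
  have hm : Measurable fun p : Cf X × Cf X => h (ms p.1) (ms p.2) := by
    rw [hh]
    exact meas_pair2 hg
  have h0 := (Pool.Agent.W338.CB.proof_ad Pool.Agent.W975.CB.proof_ms
    (Pool.Agent.W366.CB.proof_lam Pool.Agent.W975.CB.proof_ms) X ν).1 h hm
  have h1 : ∫⁻ γ, os2 g (ms γ) ∂(lam ν) = ∫⁻ γ, ∫⁻ γ', h (ms γ) (ms γ')
      ∂(lam ν) ∂(lam ν) := by
    rw [← h0, hh]
    rfl
  rw [h1, lintegral_lintegral_swap hm.aemeasurable]
  have h2 : ∀ γ' : Cf X, ∫⁻ γ, h (ms γ) (ms γ') ∂(lam ν) = ∫⁻ w, g w (ms γ') ∂ν := by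
    intro γ'
    rw [hh]
    exact lint_one1 ν (f := fun w => g w (ms γ'))
      (hg.comp (measurable_id.prodMk measurable_const))
  simp only [h2]
  exact lintegral_lintegral_swap (hg.comp measurable_swap).aemeasurable

end int

/-! ### The vector with one more particle -/

section vec
variable {X : Type}

/-- the symmetrised vector -/
def GP (Ψ : X → Multiset X → ℝ) (S : Multiset X) : ℂ :=
  ((√(os2 (fun w B => Ψ w B ^ 2) S) : ℝ) : ℂ)

theorem GP_en (Ψ : X → Multiset X → ℝ) (S : Multiset X) :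
    ‖GP Ψ S‖ₑ ^ 2 = os2 (fun w B => ENNReal.ofReal (Ψ w B ^ 2)) S := by
  have h1 : 0 ≤ os2 (fun w B => Ψ w B ^ 2) S := os2_nonneg S _ fun w B => by positivity
  unfold GP
  rw [en_real h1, os2_ofReal S _ fun w B => by positivity]

theorem GP_lip (Ψ : X → Multiset X → ℝ) (x y : X) (S : Multiset X) :
    ‖GP Ψ (x ::ₘ S) - GP Ψ (y ::ₘ S)‖ₑ ^ 2 ≤ ENNReal.ofReal ((Ψ x S - Ψ y S) ^ 2) +
      os2 (fun w B => ENNReal.ofReal ((Ψ w (x ::ₘ B) - Ψ w (y ::ₘ B)) ^ 2)) S := by
  have h1 := os2_lip S (Ψ x S) (Ψ y S) (fun w B => Ψ w (x ::ₘ B)) (fun w B => Ψ w (y ::ₘ B))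
  rw [← os2_ofReal S _ fun w B => by positivity, ← ENNReal.ofReal_add (by positivity)
    (os2_nonneg S _ fun w B => by positivity), en_sq]
  refine ENNReal.ofReal_le_ofReal ?_
  unfold GP
  rw [← Complex.ofReal_sub, Complex.norm_real, Real.norm_eq_abs, sq_abs, os2_cons, os2_cons]
  exact h1

theorem GP_supp {Ψ : X → Multiset X → ℝ} {k : ℕ}
    (hΨ : ∀ w S, Multiset.card S ≠ k → Ψ w S = 0) (S : Multiset X)
    (hS : Multiset.card S ≠ k + 1) : GP Ψ S = 0 := by
  unfold GP
  rw [os2_supp _ k (fun w B hB => by rw [hΨ w B hB]; simp) S hS]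
  simp

variable [MeasurableSpace X]

/-- families of real vectors -/
structure FR (Ψ : X → Multiset X → ℝ) : Prop where
  meas : Measurable fun p : X × Cf X => Ψ p.1 (ms p.2)
  bdd : ∃ C c : ℝ, 0 ≤ C ∧ 1 ≤ c ∧ ∀ w S, |Ψ w S| ≤ C * c ^ Multiset.card S

theorem FR.sqm {Ψ : X → Multiset X → ℝ} (h : FR Ψ) :
    Measurable fun p : X × Cf X => ENNReal.ofReal (Ψ p.1 (ms p.2) ^ 2) :=
  (h.meas.pow_const 2).ennreal_ofReal

theorem GP_EB {Ψ : X → Multiset X → ℝ} (h : FR Ψ) : EB (GP Ψ) := by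
  constructor
  · have h1 : Measurable fun γ : Cf X => os2 (fun w B => ENNReal.ofReal (Ψ w B ^ 2)) (ms γ) :=
      meas_os2 h.sqm
    have h2 : Measurable fun γ : Cf X => os2 (fun w B => Ψ w B ^ 2) (ms γ) := by
      have h3 := h1.ennreal_toReal
      convert h3 using 2 with γ
      rw [← os2_ofReal _ _ fun w B => by positivity,
        ENNReal.toReal_ofReal (os2_nonneg _ _ fun w B => by positivity)]
    exact (Complex.measurable_ofReal.comp h2.sqrt)
  · obtain ⟨C, c, hC, hc, hb⟩ := h.bdd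
    refine ⟨C, 2 * c, by positivity, by linarith, fun S => ?_⟩
    have h1 : os2 (fun w B => Ψ w B ^ 2) S ≤
        C ^ 2 * (Multiset.card S) * (c ^ 2) ^ Multiset.card S := by
      apply os2_le S _ (C ^ 2) (c ^ 2) (by positivity) (by nlinarith)
      intro w B
      have := hb w B
      calc Ψ w B ^ 2 = |Ψ w B| ^ 2 := (sq_abs _).symm
        _ ≤ (C * c ^ Multiset.card B) ^ 2 := pow_le_pow_left₀ (abs_nonneg _) this 2
        _ = C ^ 2 * (c ^ 2) ^ Multiset.card B := by rw [mul_pow, ← pow_mul, ← pow_mul, mul_comm 2]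
    have h2 : ((Multiset.card S : ℕ) : ℝ) ≤ (2 ^ Multiset.card S) ^ 2 := by
      have h3 : ((Multiset.card S : ℕ) : ℝ) ≤ 2 ^ Multiset.card S := by
        exact_mod_cast Nat.lt_two_pow_self.le
      have h4 : (1 : ℝ) ≤ 2 ^ Multiset.card S := one_le_pow₀ (by norm_num)
      nlinarith
    have h5 : os2 (fun w B => Ψ w B ^ 2) S ≤ (C * (2 * c) ^ Multiset.card S) ^ 2 := by
      refine h1.trans ?_
      have e : (C * (2 * c) ^ Multiset.card S) ^ 2 =
          C ^ 2 * (2 ^ Multiset.card S) ^ 2 * (c ^ 2) ^ Multiset.card S := by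
        rw [mul_pow, mul_pow 2 c, mul_pow, ← pow_mul c, ← pow_mul c, mul_comm 2]
        ring
      rw [e]
      have : (0 : ℝ) ≤ (c ^ 2) ^ Multiset.card S := by positivity
      exact mul_le_mul_of_nonneg_right (mul_le_mul_of_nonneg_left h2 (by positivity)) this
    unfold GP
    rw [Complex.norm_real, Real.norm_eq_abs, abs_of_nonneg (Real.sqrt_nonneg _)]
    exact Real.sqrt_le_iff.mpr ⟨by positivity, h5⟩

variable (ν : Measure X) [IsFiniteMeasure ν]

theorem nE_GP {Ψ : X → Multiset X → ℝ} (h : FR Ψ) :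
    nE ν (GP Ψ) = ∫⁻ w, ∫⁻ γ, ENNReal.ofReal (Ψ w (ms γ) ^ 2) ∂(lam ν) ∂ν := by
  unfold nE
  simp only [GP_en]
  exact lint_os2 ν h.sqm

theorem FR.cons {Ψ : X → Multiset X → ℝ} (h : FR Ψ) (x : X) : FR fun w S => Ψ w (x ::ₘ S) := by
  obtain ⟨C, c, hC, hc, hb⟩ := h.bdd
  refine ⟨?_, C * c, c, by positivity, hc, fun w S => ?_⟩
  · obtain ⟨hcs, -⟩ := Pool.Agent.W975.CB.proof_ms X
    have h2 : Measurable fun q : X × Cf X => (q.1, cs x q.2) :=
      measurable_fst.prodMk (hcs.comp (measurable_const.prodMk measurable_snd))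
    have h3 := h.meas.comp h2
    simpa only [Function.comp_def, ms_cs] using h3
  · have := hb w (x ::ₘ S)
    rw [Multiset.card_cons, pow_succ] at this
    calc _ ≤ _ := this
      _ = _ := by ring

theorem FR.sub {Ψ Ψ' : X → Multiset X → ℝ} (h : FR Ψ) (h' : FR Ψ') :
    FR fun w S => Ψ w S - Ψ' w S := by
  obtain ⟨C, c, hC, hc, hb⟩ := h.bdd
  obtain ⟨C', c', hC', hc', hb'⟩ := h'.bdd
  refine ⟨h.meas.sub h'.meas, C + C', max c c', by positivity, hc.trans (le_max_left _ _),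
    fun w S => ?_⟩
  have h1 : c ^ Multiset.card S ≤ max c c' ^ Multiset.card S :=
    pow_le_pow_left₀ (zero_le_one.trans hc) (le_max_left _ _) _
  have h2 : c' ^ Multiset.card S ≤ max c c' ^ Multiset.card S :=
    pow_le_pow_left₀ (zero_le_one.trans hc') (le_max_right _ _) _
  calc |Ψ w S - Ψ' w S| ≤ |Ψ w S| + |Ψ' w S| := abs_sub _ _
    _ ≤ C * max c c' ^ Multiset.card S + C' * max c c' ^ Multiset.card S :=
        add_le_add ((hb w S).trans (mul_le_mul_of_nonneg_left h1 hC))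
          ((hb' w S).trans (mul_le_mul_of_nonneg_left h2 hC'))
    _ = _ := by ring

theorem FR.fix {Ψ : X → Multiset X → ℝ} (h : FR Ψ) (x : X) :
    Measurable fun γ : Cf X => Ψ x (ms γ) :=
  h.meas.comp (measurable_const.prodMk measurable_id)

theorem dE_GP {Ψ : X → Multiset X → ℝ} (h : FR Ψ) (x y : X) :
    dE ν (GP Ψ) x y ≤ (∫⁻ γ, ENNReal.ofReal ((Ψ x (ms γ) - Ψ y (ms γ)) ^ 2) ∂(lam ν)) +
      ∫⁻ w, ∫⁻ γ, ENNReal.ofReal ((Ψ w (x ::ₘ ms γ) - Ψ w (y ::ₘ ms γ)) ^ 2) ∂(lam ν) ∂ν := by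
  have hd : FR fun w S => Ψ w (x ::ₘ S) - Ψ w (y ::ₘ S) := (h.cons x).sub (h.cons y)
  have m0 : Measurable fun γ : Cf X => ENNReal.ofReal ((Ψ x (ms γ) - Ψ y (ms γ)) ^ 2) :=
    (((h.fix x).sub (h.fix y)).pow_const 2).ennreal_ofReal
  unfold dE nE
  calc _ ≤ ∫⁻ γ, (ENNReal.ofReal ((Ψ x (ms γ) - Ψ y (ms γ)) ^ 2) +
        os2 (fun w B => ENNReal.ofReal ((Ψ w (x ::ₘ B) - Ψ w (y ::ₘ B)) ^ 2)) (ms γ)) ∂(lam ν) :=
        lintegral_mono fun γ => GP_lip Ψ x y (ms γ)
    _ = _ := by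
        rw [lintegral_add_left m0]
        congr 1
        exact lint_os2 ν hd.sqm

theorem pair_GP {Ψ : X → Multiset X → ℝ} (h : FR Ψ) (x y : X) :
    nE ν (an y (an x (GP Ψ))) =
      (∫⁻ γ, ENNReal.ofReal (Ψ x (y ::ₘ ms γ) ^ 2) ∂(lam ν)) +
      ((∫⁻ γ, ENNReal.ofReal (Ψ y (x ::ₘ ms γ) ^ 2) ∂(lam ν)) +
      ∫⁻ w, ∫⁻ γ, ENNReal.ofReal (Ψ w (x ::ₘ y ::ₘ ms γ) ^ 2) ∂(lam ν) ∂ν) := by
  have e1 : ∀ S, os2 (fun w B => ENNReal.ofReal (Ψ w B ^ 2)) (x ::ₘ y ::ₘ S) =
      ENNReal.ofReal (Ψ x (y ::ₘ S) ^ 2) + (ENNReal.ofReal (Ψ y (x ::ₘ S) ^ 2) +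
        os2 (fun w B => ENNReal.ofReal (Ψ w (x ::ₘ y ::ₘ B) ^ 2)) S) := by
    intro S
    rw [os2_cons, os2_cons]
  have h2 := ((h.cons x).cons y)
  have m1 : Measurable fun γ : Cf X => ENNReal.ofReal (Ψ x (y ::ₘ ms γ) ^ 2) :=
    (((h.cons y).fix x).pow_const 2).ennreal_ofReal
  have m2 : Measurable fun γ : Cf X => ENNReal.ofReal (Ψ y (x ::ₘ ms γ) ^ 2) :=
    (((h.cons x).fix y).pow_const 2).ennreal_ofReal
  have e2 : nE ν (an y (an x (GP Ψ))) = ∫⁻ γ, (ENNReal.ofReal (Ψ x (y ::ₘ ms γ) ^ 2) +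
      (ENNReal.ofReal (Ψ y (x ::ₘ ms γ) ^ 2) +
        os2 (fun w B => ENNReal.ofReal (Ψ w (x ::ₘ y ::ₘ B) ^ 2)) (ms γ))) ∂(lam ν) := by
    unfold nE an
    refine lintegral_congr fun γ => ?_
    rw [GP_en, e1]
  rw [e2, lintegral_add_left m1, lintegral_add_left m2]
  congr 2
  exact lint_os2 ν h2.sqm

end vec

end

end Pool.Agent.Y656
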