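import Pool.Agent.Y656.ScatH

/-!
# A superharmonic function
-/

set_option autoImplicit false

open MeasureTheory Set Filter
open scoped ENNReal Topology

namespace Pool.Agent.Y656

open Pool.Agent.W761.CB Pool.Agent.W761.CC

noncomputable section

/-- Taylor's formula for `(1 + t)^(-α)` -/
lemma rp3 {α : ℝ} (hα : 0 < α) : ∃ C t₀ : ℝ, 0 ≤ C ∧ 0 < t₀ ∧ t₀ ≤ 1 / 2 ∧ ∀ t : ℝ, |t| ≤ t₀ →
    (1 + t) ^ (-α) ≤ 1 - α * t + α * (α + 1) / 2 * t ^ 2 + C * |t| ^ 3 := by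
  refine ⟨2 * α + 3 * α ^ 2 + 8 * α ^ 3, min (1 / 2) (1 / (2 * α)), by positivity, by positivity,
    min_le_left _ _, ?_⟩
  intro t ht
  have ht1 : |t| ≤ 1 / 2 := ht.trans (min_le_left _ _)
  have ht2 : |t| ≤ 1 / (2 * α) := ht.trans (min_le_right _ _)
  have ht3 : |t| * (2 * α) ≤ 1 := by
    rwa [le_div_iff₀ (by positivity)] at ht2
  obtain ⟨τ, hτ⟩ : ∃ τ, τ = |t| := ⟨_, rfl⟩
  have hτ0 : 0 ≤ τ := by rw [hτ]; exact abs_nonneg _
  have hlt : |-t| < 1 := by rw [abs_neg]; linarith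
  have h1 := Real.abs_log_sub_add_sum_range_le hlt 2
  rw [sub_neg_eq_add] at h1
  simp only [Finset.sum_range_succ, Finset.sum_range_zero, abs_neg] at h1
  rw [← hτ] at h1 ht1 ht3 ⊢
  have h2 : τ ^ (2 + 1) / (1 - τ) ≤ 2 * τ ^ 3 := by
    rw [div_le_iff₀ (by linarith)]
    have h9 : 0 ≤ τ ^ 3 := by positivity
    have h8 := mul_le_mul_of_nonneg_left (show 1 ≤ 2 * (1 - τ) by linarith) h9
    norm_num
    linarith
  have h3 := h1.trans h2
  obtain ⟨ℓ, hℓ⟩ : ∃ ℓ, ℓ = Real.log (1 + t) := ⟨_, rfl⟩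
  rw [← hℓ] at h3
  have h4 : |ℓ - (t - t ^ 2 / 2)| ≤ 2 * τ ^ 3 := by
    refine le_trans (le_of_eq ?_) h3
    congr 1
    push_cast
    ring
  rw [abs_le] at h4
  have htt : t ^ 2 = τ ^ 2 := by rw [hτ, sq_abs]
  have hτt : -τ ≤ t ∧ t ≤ τ := by
    rw [hτ]
    exact ⟨neg_abs_le t, le_abs_self t⟩
  have hτ3 : τ ^ 3 ≤ τ ^ 2 / 2 := by nlinarith [sq_nonneg τ]
  have hτ2 : τ ^ 2 ≤ τ / 2 := by nlinarith
  have h5 : |ℓ - t| ≤ 3 / 2 * τ ^ 2 := by
    rw [abs_le]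
    constructor <;> nlinarith
  have h6 : |ℓ| ≤ 2 * τ := by
    rw [abs_le] at h5 ⊢
    constructor <;> nlinarith
  have hℓ2 : ℓ ^ 2 ≤ t ^ 2 + 5 * τ ^ 3 := by
    have h7 : ℓ ^ 2 = t ^ 2 + (ℓ - t) * (ℓ + t) := by ring
    have h8 : |(ℓ - t) * (ℓ + t)| ≤ 3 / 2 * τ ^ 2 * (3 * τ) := by
      rw [abs_mul]
      refine mul_le_mul h5 ?_ (abs_nonneg _) (by positivity)
      refine (abs_add_le _ _).trans ?_
      rw [← hτ]
      linarith
    have h9 := le_abs_self ((ℓ - t) * (ℓ + t))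
    have : 0 ≤ τ ^ 3 := by positivity
    rw [h7]
    nlinarith
  have h1t : 0 < 1 + t := by linarith
  rw [Real.rpow_def_of_pos h1t, ← hℓ]
  obtain ⟨y, hy⟩ : ∃ y, y = ℓ * -α := ⟨_, rfl⟩
  rw [← hy]
  have hy1 : |y| ≤ 2 * α * τ := by
    rw [hy, abs_mul, abs_neg, abs_of_pos hα]
    nlinarith
  have hy2 : |y| ≤ 1 := by linarith
  have h10 := Real.exp_bound hy2 (n := 3) (by norm_num)
  simp only [Finset.sum_range_succ, Finset.sum_range_zero] at h10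
  have h11 : Real.exp y ≤ 1 + y + y ^ 2 / 2 + |y| ^ 3 := by
    have h12 := le_abs_self (Real.exp y - (0 + y ^ 0 / ((Nat.factorial 0 : ℕ) : ℝ) +
      y ^ 1 / ((Nat.factorial 1 : ℕ) : ℝ) + y ^ 2 / ((Nat.factorial 2 : ℕ) : ℝ)))
    have h13 := h12.trans h10
    have h14 : 0 ≤ |y| ^ 3 := by positivity
    norm_num [Nat.factorial] at h13
    linarith
  have hy3 : |y| ^ 3 ≤ (2 * α * τ) ^ 3 := pow_le_pow_left₀ (abs_nonneg _) hy1 3
  have hyl : y ≤ -α * t + α * t ^ 2 / 2 + 2 * α * τ ^ 3 := by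
    rw [hy]
    nlinarith
  have hyy : y ^ 2 ≤ α ^ 2 * (t ^ 2 + 5 * τ ^ 3) := by
    rw [hy, show (ℓ * -α) ^ 2 = α ^ 2 * ℓ ^ 2 by ring]
    exact mul_le_mul_of_nonneg_left hℓ2 (sq_nonneg _)
  have h15 : 0 ≤ α ^ 2 * τ ^ 3 := by positivity
  nlinarith

variable {n : ℕ}

/-- the square of the norm -/
def nsq (x : Fin n → ℝ) : ℝ := ∑ c, x c ^ 2

lemma nsq_nonneg (x : Fin n → ℝ) : 0 ≤ nsq x := Finset.sum_nonneg fun _ _ => sq_nonneg _

lemma nsq_shift (x : Fin n → ℝ) (c : Fin n) (h : ℝ) :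
    nsq (x + Pi.single c h) = nsq x + (2 * h * x c + h ^ 2) := by
  unfold nsq
  have h1 : ∀ d, (x + (Pi.single c h : Fin n → ℝ)) d ^ 2 = x d ^ 2 +
      if d = c then 2 * h * x c + h ^ 2 else 0 := by
    intro d
    rw [Pi.add_apply]
    by_cases hd : d = c
    · subst hd
      rw [Pi.single_eq_same, if_pos rfl]
      ring
    · rw [Pi.single_eq_of_ne hd, if_neg hd]
      ring
  rw [Finset.sum_congr rfl fun d _ => h1 d, Finset.sum_add_distrib, Finset.sum_ite_eq']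
  simp

lemma nsq_le (x : Fin n → ℝ) (c : Fin n) : x c ^ 2 ≤ nsq x :=
  Finset.single_le_sum (f := fun i => x i ^ 2) (fun i _ => sq_nonneg _) (Finset.mem_univ c)

lemma nsq_meas : Measurable (nsq (n := n)) :=
  Finset.measurable_fun_sum _ fun c _ => (measurable_pi_apply c).pow_const 2

/-- discrete superharmonicity -/
lemma superh {α : ℝ} (hα : 0 < α) (hαn : 4 * (α + 1) < 2 * n) :
    ∃ h₀ : ℝ, 0 < h₀ ∧ h₀ ≤ 1 ∧ ∀ h : ℝ, 0 < h → h ≤ h₀ → ∀ x : Fin n → ℝ, 1 ≤ nsq x →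
      ∑ c, (nsq (x + Pi.single c h) ^ (-α) + nsq (x + Pi.single c (-h)) ^ (-α)) ≤
        2 * n * nsq x ^ (-α) := by
  obtain ⟨C, t₀, hC, ht₀, ht₀1, hrp⟩ := rp3 hα
  obtain ⟨g, hg⟩ : ∃ g, g = 2 * n - 4 * (α + 1) := ⟨_, rfl⟩
  have hg0 : 0 < g := by rw [hg]; linarith
  obtain ⟨D, hD⟩ : ∃ D, D = α * (α + 1) * n + 24 * C + 6 * C * n + 1 := ⟨_, rfl⟩
  have hD0 : 0 < D := by rw [hD]; positivity
  refine ⟨min (min 1 (t₀ / 3)) (α * g / D), by positivity, (min_le_left _ _).trans (min_le_left _ _),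
    ?_⟩
  intro h hh0 hh x hx
  have hh1 : h ≤ 1 := hh.trans ((min_le_left _ _).trans (min_le_left _ _))
  have hh2 : 3 * h ≤ t₀ := by
    have := hh.trans ((min_le_left _ _).trans (min_le_right _ _))
    linarith
  have hh3 : D * h ≤ α * g := by
    have := hh.trans (min_le_right _ _)
    rw [le_div_iff₀ hD0] at this
    linarith
  obtain ⟨s, hs⟩ : ∃ s, s = nsq x := ⟨_, rfl⟩
  rw [← hs] at hx ⊢
  have hs0 : 0 < s := by linarith
  -- the parameter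
  obtain ⟨T, hT⟩ : ∃ T : Fin n → ℝ → ℝ, T = fun c h => (2 * h * x c + h ^ 2) / s := ⟨_, rfl⟩
  have hns : ∀ c h, nsq (x + Pi.single c h) = s * (1 + T c h) := by
    intro c h
    rw [nsq_shift, hT, ← hs]
    field_simp
  have hxc : ∀ c, |x c| ≤ s := by
    intro c
    have h1 := nsq_le x c
    rw [← hs] at h1
    apply abs_le_of_sq_le_sq _ hs0.le
    nlinarith
  have hTb : ∀ c h', |h'| = h → |T c h'| ≤ 3 * h := by
    intro c h' hh'
    rw [hT]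
    simp only
    rw [abs_div, abs_of_pos hs0, div_le_iff₀ hs0]
    refine (abs_add_le _ _).trans ?_
    rw [abs_mul, abs_mul, abs_pow, hh', abs_of_pos (show (0 : ℝ) < 2 by norm_num)]
    have h1 := hxc c
    have h2 : h * |x c| ≤ h * s := mul_le_mul_of_nonneg_left h1 hh0.le
    have h3 : h ^ 2 ≤ h * s := by nlinarith
    linarith
  have hT2 : ∀ c h', |h'| = h → T c h' ^ 2 = (4 * h ^ 2 * x c ^ 2 + 4 * h' * h ^ 2 * x c + h ^ 4) / s ^ 2 := by
    intro c h' hh'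
    have h1 : h' ^ 2 = h ^ 2 := by rw [← hh', sq_abs]
    rw [hT]
    simp only
    rw [div_pow]
    congr 1
    have : (2 * h' * x c + h' ^ 2) ^ 2 = 4 * h' ^ 2 * x c ^ 2 + 4 * h' * h' ^ 2 * x c + h' ^ 2 * h' ^ 2 := by
      ring
    rw [this, h1]
    ring
  have hone : ∀ c h', |h'| = h → nsq (x + Pi.single c h') ^ (-α) ≤ s ^ (-α) * (1 - α * T c h' +
      (α * (α + 1) / 2 + 3 * C * h) * T c h' ^ 2) := by
    intro c h' hh'
    have h1 := hTb c h' hh'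
    have h2 := hrp (T c h') (h1.trans hh2)
    have h4 : 0 ≤ 1 + T c h' := by
      have := abs_le.1 (h1.trans (hh2.trans ht₀1))
      linarith [this.1]
    rw [hns, Real.mul_rpow hs0.le h4]
    apply mul_le_mul_of_nonneg_left _ (Real.rpow_nonneg hs0.le _)
    refine h2.trans ?_
    have h3 : C * |T c h'| ^ 3 ≤ 3 * C * h * T c h' ^ 2 := by
      rw [show C * |T c h'| ^ 3 = C * |T c h'| * |T c h'| ^ 2 by ring, sq_abs]
      apply mul_le_mul_of_nonneg_right _ (sq_nonneg _)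
      nlinarith
    linarith
  have habs1 : |h| = h := abs_of_pos hh0
  have habs2 : |(-h)| = h := by rw [abs_neg, habs1]
  have htwo : ∀ c, nsq (x + Pi.single c h) ^ (-α) + nsq (x + Pi.single c (-h)) ^ (-α) ≤
      s ^ (-α) * (2 - α * (2 * h ^ 2 / s) +
      (α * (α + 1) / 2 + 3 * C * h) * ((8 * h ^ 2 * x c ^ 2 + 2 * h ^ 4) / s ^ 2)) := by
    intro c
    refine (add_le_add (hone c h habs1) (hone c (-h) habs2)).trans (le_of_eq ?_)
    rw [hT2 c h habs1, hT2 c (-h) habs2, hT]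
    field_simp
    ring
  refine (Finset.sum_le_sum fun c _ => htwo c).trans ?_
  rw [← Finset.mul_sum]
  have hsum : ∑ c : Fin n, (2 - α * (2 * h ^ 2 / s) +
      (α * (α + 1) / 2 + 3 * C * h) * ((8 * h ^ 2 * x c ^ 2 + 2 * h ^ 4) / s ^ 2)) =
      n * (2 - α * (2 * h ^ 2 / s)) + (α * (α + 1) / 2 + 3 * C * h) *
        ((8 * h ^ 2 * s + 2 * n * h ^ 4) / s ^ 2) := by
    rw [Finset.sum_add_distrib, Finset.sum_const, Finset.card_univ, Fintype.card_fin,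
      nsmul_eq_mul, ← Finset.mul_sum, ← Finset.sum_div, Finset.sum_add_distrib, ← Finset.mul_sum,
      Finset.sum_const, Finset.card_univ, Fintype.card_fin, nsmul_eq_mul]
    have : ∑ c : Fin n, x c ^ 2 = s := by rw [hs]; rfl
    rw [this]
    ring
  rw [hsum, mul_comm (2 * (n : ℝ)) (s ^ (-α))]
  apply mul_le_mul_of_nonneg_left _ (Real.rpow_nonneg hs0.le _)
  have hE : 0 ≤ α * (α + 1) / 2 + 3 * C * h := by positivity
  have h1 : (8 * h ^ 2 * s + 2 * n * h ^ 4) / s ^ 2 ≤ (h ^ 2 / s) * (8 + 2 * n * h ^ 2) := by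
    rw [div_mul_eq_mul_div, div_le_div_iff₀ (by positivity) hs0]
    have h2 : (8 * h ^ 2 * s + 2 * n * h ^ 4) * s ≤ (8 * h ^ 2 * s + 2 * n * h ^ 4 * s) * s := by
      apply mul_le_mul_of_nonneg_right _ hs0.le
      have : 2 * (n : ℝ) * h ^ 4 * 1 ≤ 2 * n * h ^ 4 * s :=
        mul_le_mul_of_nonneg_left hx (by positivity)
      linarith
    refine h2.trans (le_of_eq ?_)
    ring
  have h3 := mul_le_mul_of_nonneg_left h1 hE
  have h4 : (α * (α + 1) / 2 + 3 * C * h) * (8 + 2 * n * h ^ 2) ≤ 2 * n * α := by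
    have h5 : (α * (α + 1) / 2 + 3 * C * h) * (8 + 2 * n * h ^ 2) =
        4 * α * (α + 1) + (α * (α + 1) * n * h ^ 2 + 24 * C * h + 6 * C * n * h ^ 3) := by ring
    have h6 : h ^ 2 ≤ h := by nlinarith
    have h7 : h ^ 3 ≤ h := by nlinarith [sq_nonneg h]
    have h8 : α * (α + 1) * n * h ^ 2 ≤ α * (α + 1) * n * h :=
      mul_le_mul_of_nonneg_left h6 (by positivity)
    have h9 : 6 * C * n * h ^ 3 ≤ 6 * C * n * h := mul_le_mul_of_nonneg_left h7 (by positivity)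
    have h10 : α * (α + 1) * n * h + 24 * C * h + 6 * C * n * h ≤ D * h := by
      rw [hD]
      nlinarith
    have h11 : α * g = 2 * n * α - 4 * α * (α + 1) := by rw [hg]; ring
    rw [h5]
    linarith
  have h5 : 0 ≤ h ^ 2 / s := by positivity
  have h6 := mul_le_mul_of_nonneg_left h4 h5
  have h7 : (n : ℝ) * (2 - α * (2 * h ^ 2 / s)) = n * 2 - h ^ 2 / s * (2 * n * α) := by
    field_simp
  rw [h7]
  have h8 : (α * (α + 1) / 2 + 3 * C * h) * (h ^ 2 / s * (8 + 2 * n * h ^ 2)) =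
      h ^ 2 / s * ((α * (α + 1) / 2 + 3 * C * h) * (8 + 2 * n * h ^ 2)) := by ring
  rw [h8] at h3
  linarith

/-- the superharmonic function -/
def Wf (α R₁ : ℝ) (x : Fin n → ℝ) : ℝ := (max 1 (nsq x / R₁ ^ 2)) ^ (-α)

lemma Wf_pos (α R₁ : ℝ) (x : Fin n → ℝ) : 0 < Wf α R₁ x :=
  Real.rpow_pos_of_pos (lt_of_lt_of_le one_pos (le_max_left _ _)) _

lemma Wf_le {α : ℝ} (hα : 0 < α) (R₁ : ℝ) (x : Fin n → ℝ) : Wf α R₁ x ≤ 1 :=
  Real.rpow_le_one_of_one_le_of_nonpos (le_max_left _ _) (by linarith)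

lemma Wf_meas (α R₁ : ℝ) : Measurable (Wf (n := n) α R₁) :=
  (measurable_const.max (nsq_meas.div_const _)).pow_const _

lemma Wf_one {α R₁ : ℝ} (hR : 0 < R₁) {x : Fin n → ℝ} (hx : nsq x ≤ R₁ ^ 2) : Wf α R₁ x = 1 := by
  unfold Wf
  rw [max_eq_left, Real.one_rpow]
  rw [div_le_one (by positivity)]
  exact hx

lemma Wf_lt {α R₁ : ℝ} (hR : 0 < R₁) {x : Fin n → ℝ} (hx : Wf α R₁ x < 1) : R₁ ^ 2 < nsq x := by
  by_contra h
  rw [Wf_one hR (not_lt.1 h)] at hx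
  exact lt_irrefl _ hx

lemma Wf_bd {α R₁ : ℝ} (hα : 0 < α) (hR : 0 < R₁) {x : Fin n → ℝ} {a : ℝ} (ha : 0 < a)
    (hx : a ^ 2 ≤ nsq x) : Wf α R₁ x ≤ (a ^ 2 / R₁ ^ 2) ^ (-α) := by
  unfold Wf
  apply Real.rpow_le_rpow_of_nonpos (by positivity) _ (by linarith)
  refine le_trans ?_ (le_max_right _ _)
  gcongr

/-- discrete superharmonicity of the truncated function -/
lemma Wf_super {α R₁ : ℝ} (hα : 0 < α) (hαn : 4 * (α + 1) < 2 * n) (hR : 1 ≤ R₁) :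
    ∃ h₀ : ℝ, 0 < h₀ ∧ h₀ ≤ 1 ∧ ∀ h : ℝ, 0 < h → h ≤ h₀ → ∀ x : Fin n → ℝ, Wf α R₁ x < 1 →
      ∑ c, (Wf α R₁ (x + Pi.single c h) + Wf α R₁ (x + Pi.single c (-h))) ≤
        2 * n * Wf α R₁ x := by
  obtain ⟨h₀, hh₀, hh₁, hs⟩ := superh (n := n) hα hαn
  have hR0 : 0 < R₁ := by linarith
  refine ⟨min h₀ (1 / 4), by positivity, (min_le_left _ _).trans hh₁, ?_⟩
  intro h hh0 hh x hx
  have hlt := Wf_lt hR0 hx
  have hR2 : 1 ≤ R₁ ^ 2 := one_le_pow₀ hR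
  have hx1 : 1 ≤ nsq x := by linarith
  have hh4 : h ≤ 1 / 4 := hh.trans (min_le_right _ _)
  have h1 := hs h hh0 (hh.trans (min_le_left _ _)) x hx1
  have hpos : ∀ (c : Fin n) (h' : ℝ), |h'| = h → 0 < nsq (x + Pi.single c h') := by
    intro c h' hh'
    rw [nsq_shift]
    have h2 := nsq_le x c
    have h3 : |x c| ≤ nsq x := by
      apply abs_le_of_sq_le_sq _ (by linarith)
      nlinarith
    have h4 : |2 * h' * x c| ≤ nsq x / 2 := by
      rw [abs_mul, abs_mul, hh', abs_of_pos (show (0 : ℝ) < 2 by norm_num)]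
      nlinarith [abs_nonneg (x c)]
    have h5 := neg_abs_le (2 * h' * x c)
    nlinarith [sq_nonneg h']
  have hW : ∀ y : Fin n → ℝ, 0 < nsq y → Wf α R₁ y ≤ nsq y ^ (-α) * (R₁ ^ 2) ^ α := by
    intro y hy
    unfold Wf
    have h2 : (max 1 (nsq y / R₁ ^ 2)) ^ (-α) ≤ (nsq y / R₁ ^ 2) ^ (-α) :=
      Real.rpow_le_rpow_of_nonpos (by positivity) (le_max_right _ _) (by linarith)
    refine h2.trans (le_of_eq ?_)
    rw [Real.div_rpow hy.le (by positivity), Real.rpow_neg (by positivity : (0 : ℝ) ≤ R₁ ^ 2),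
      div_inv_eq_mul]
  have hWx : Wf α R₁ x = nsq x ^ (-α) * (R₁ ^ 2) ^ α := by
    unfold Wf
    rw [max_eq_right (by rw [le_div_iff₀ (by positivity)]; linarith),
      Real.div_rpow (by linarith) (by positivity), Real.rpow_neg (by positivity : (0 : ℝ) ≤ R₁ ^ 2),
      div_inv_eq_mul]
  have habs1 : |h| = h := abs_of_pos hh0
  have habs2 : |(-h)| = h := by rw [abs_neg, habs1]
  calc ∑ c, (Wf α R₁ (x + Pi.single c h) + Wf α R₁ (x + Pi.single c (-h)))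
      ≤ ∑ c, (nsq (x + Pi.single c h) ^ (-α) + nsq (x + Pi.single c (-h)) ^ (-α)) *
          (R₁ ^ 2) ^ α := by
        refine Finset.sum_le_sum fun c _ => ?_
        rw [add_mul]
        exact add_le_add (hW _ (hpos c h habs1)) (hW _ (hpos c (-h) habs2))
    _ = (∑ c, (nsq (x + Pi.single c h) ^ (-α) + nsq (x + Pi.single c (-h)) ^ (-α))) *
          (R₁ ^ 2) ^ α := by rw [Finset.sum_mul]
    _ ≤ 2 * n * nsq x ^ (-α) * (R₁ ^ 2) ^ α :=
        mul_le_mul_of_nonneg_right h1 (Real.rpow_nonneg (by positivity) _)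
    _ = _ := by rw [hWx]; ring

end

end Pool.Agent.Y656
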