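import Pool.Agent.Y656.Rate1

/-!
# Truncation of the trial functions
-/

set_option autoImplicit false

open MeasureTheory Set Filter
open scoped ENNReal Topology

namespace Pool.Agent.Y656

open Pool.Agent.W761.CB Pool.Agent.W761.CC
open Pool.Agent.W327.CC (chi chi_nonneg chi_le_one chi_zero measurableSet_cube vol_cube
  mem_cube_iff chi_lip norm_single)

noncomputable section

variable {n : ℕ}

lemma int_cs {f : (Fin n → ℝ) → ℝ} (hm : Measurable f) {B A : ℝ} (hA : 0 ≤ A)
    (hB : ∀ x, |f x| ≤ B) (h0 : ∀ x, x ∉ cube n A → f x = 0) : Integrable f := by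
  have h1 : Integrable ((cube n A).indicator fun _ : Fin n → ℝ => B) := by
    rw [integrable_indicator_iff (measurableSet_cube n A)]
    refine integrableOn_const ?_
    rw [vol_cube hA]
    exact ENNReal.ofReal_ne_top
  refine h1.mono' hm.aestronglyMeasurable (Filter.Eventually.of_forall fun x => ?_)
  by_cases hx : x ∈ cube n A
  · rw [Set.indicator_of_mem hx]
    exact hB x
  · rw [Set.indicator_of_notMem hx, h0 x hx, norm_zero]

lemma gk_univ (c : Fin n) (k : ℕ) (f : (Fin n → ℝ) → ℝ) : gk Set.univ c k f =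
    4 ^ k * ∫⁻ z, ENNReal.ofReal ((f (z + Pi.single c ((2 : ℝ)⁻¹ ^ k)) - f z) ^ 2) := by
  unfold gk
  have hset : {z : Fin n → ℝ | z ∈ (Set.univ : Set (Fin n → ℝ)) ∧
      z + Pi.single c ((2 : ℝ)⁻¹ ^ k) ∈ (Set.univ : Set (Fin n → ℝ))} = Set.univ := by
    ext z; simp
  rw [hset, Measure.restrict_univ]

lemma cube_shift {A h : ℝ} (hh : |h| ≤ 1) (c : Fin n) {x : Fin n → ℝ} (hx : x ∉ cube n (A + 1)) :
    x + Pi.single c h ∉ cube n A := by
  intro h1
  apply hx
  intro d
  have h2 := h1 d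
  rw [Pi.add_apply] at h2
  have h3 : |(Pi.single c h : Fin n → ℝ) d| ≤ 1 := by
    by_cases hd : d = c
    · subst hd
      rwa [Pi.single_eq_same]
    · rw [Pi.single_eq_of_ne hd, abs_zero]
      exact zero_le_one
  have h4 := abs_add_le (x d + (Pi.single c h : Fin n → ℝ) d) (-(Pi.single c h : Fin n → ℝ) d)
  rw [add_neg_cancel_right, abs_neg] at h4
  linarith

/-- the pointwise inequality -/
lemma trunc_pt {u₁ u₂ W₁ W₂ : ℝ} :
    (min u₂ W₂ - min u₁ W₁) ^ 2 + 2 * ((W₂ - W₁) * ((u₂ - min u₂ W₂) - (u₁ - min u₁ W₁))) ≤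
      (u₂ - u₁) ^ 2 := by
  rcases le_total u₁ W₁ with h1 | h1 <;> rcases le_total u₂ W₂ with h2 | h2
  · rw [min_eq_left h1, min_eq_left h2]
    simp
  · rw [min_eq_left h1, min_eq_right h2]
    nlinarith [mul_nonneg (sub_nonneg.2 h1) (sub_nonneg.2 h2), sq_nonneg (u₂ - W₂)]
  · rw [min_eq_right h1, min_eq_left h2]
    nlinarith [mul_nonneg (sub_nonneg.2 h1) (sub_nonneg.2 h2), sq_nonneg (u₁ - W₁)]
  · rw [min_eq_right h1, min_eq_right h2]
    nlinarith [sq_nonneg ((u₂ - W₂) - (u₁ - W₁))]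

/-- the truncation does not increase the energy -/
lemma gk_trunc {u W : (Fin n → ℝ) → ℝ} (hum : Measurable u) (hWm : Measurable W)
    (hu0 : ∀ x, 0 ≤ u x) (hu1 : ∀ x, u x ≤ 1) (hW0 : ∀ x, 0 ≤ W x) (hW1 : ∀ x, W x ≤ 1)
    {A : ℝ} (hA : 0 ≤ A) (huA : ∀ x, x ∉ cube n A → u x = 0) (k : ℕ)
    (hS : ∀ x, W x < 1 → ∑ c, (W (x + Pi.single c ((2 : ℝ)⁻¹ ^ k)) +
      W (x + Pi.single c (-(2 : ℝ)⁻¹ ^ k))) ≤ 2 * n * W x) :
    ∑ c, gk Set.univ c k (fun x => 1 - min (u x) (W x)) ≤
      ∑ c, gk Set.univ c k (fun x => 1 - u x) := by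
  obtain ⟨h, hh⟩ : ∃ h : ℝ, h = (2 : ℝ)⁻¹ ^ k := ⟨_, rfl⟩
  have hh0 : 0 < h := by rw [hh]; positivity
  have hh1 : h ≤ 1 := by rw [hh]; exact pow_le_one₀ (by norm_num) (by norm_num)
  have habs : |h| ≤ 1 := by rwa [abs_of_pos hh0]
  have habs2 : |(-h)| ≤ 1 := by rwa [abs_neg, abs_of_pos hh0]
  rw [← hh] at hS
  obtain ⟨u', hu'⟩ : ∃ u' : (Fin n → ℝ) → ℝ, u' = fun x => min (u x) (W x) := ⟨_, rfl⟩
  obtain ⟨p, hp⟩ : ∃ p : (Fin n → ℝ) → ℝ, p = fun x => u x - u' x := ⟨_, rfl⟩
  have hu'm : Measurable u' := by rw [hu']; exact hum.min hWm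
  have hpm : Measurable p := by rw [hp]; exact hum.sub hu'm
  have hu'0 : ∀ x, 0 ≤ u' x := fun x => by rw [hu']; exact le_min (hu0 x) (hW0 x)
  have hu'u : ∀ x, u' x ≤ u x := fun x => by rw [hu']; exact min_le_left _ _
  have hp0 : ∀ x, 0 ≤ p x := fun x => by rw [hp]; exact sub_nonneg.2 (hu'u x)
  have hp1 : ∀ x, p x ≤ 1 := fun x => by
    rw [hp]
    have h1 := hu'0 x
    have h2 := hu1 x
    simp only
    linarith
  have hu'A : ∀ x, x ∉ cube n A → u' x = 0 := fun x hx =>
    le_antisymm ((hu'u x).trans (huA x hx).le) (hu'0 x)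
  have hpA : ∀ x, x ∉ cube n A → p x = 0 := fun x hx => by
    rw [hp]
    simp only
    rw [huA x hx, hu'A x hx, sub_zero]
  have hcA : ∀ x, x ∉ cube n (A + 1) → x ∉ cube n A := fun x hx h1 =>
    hx fun c => (h1 c).trans (by linarith)
  have hA1 : 0 ≤ A + 1 := by linarith
  -- integrability
  have hsh : ∀ (c : Fin n) (h' : ℝ), Measurable fun x : Fin n → ℝ => x + Pi.single c h' :=
    fun c h' => measurable_id.add_const _
  have iu : ∀ c : Fin n, Integrable fun x => (u (x + Pi.single c h) - u x) ^ 2 := by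
    intro c
    refine int_cs (((hum.comp (hsh c h)).sub hum).pow_const 2) (B := 1) hA1 (fun x => ?_)
      (fun x hx => ?_)
    · rw [abs_of_nonneg (sq_nonneg _)]
      have h1 := hu0 x; have h2 := hu1 x
      have h3 := hu0 (x + Pi.single c h); have h4 := hu1 (x + Pi.single c h)
      nlinarith
    · rw [huA _ (cube_shift habs c hx), huA _ (hcA x hx)]
      simp
  have iu' : ∀ c : Fin n, Integrable fun x => (u' (x + Pi.single c h) - u' x) ^ 2 := by
    intro c
    refine int_cs (((hu'm.comp (hsh c h)).sub hu'm).pow_const 2) (B := 1) hA1 (fun x => ?_)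
      (fun x hx => ?_)
    · rw [abs_of_nonneg (sq_nonneg _)]
      have h1 := hu'0 x; have h2 := (hu'u x).trans (hu1 x)
      have h3 := hu'0 (x + Pi.single c h)
      have h4 := (hu'u (x + Pi.single c h)).trans (hu1 (x + Pi.single c h))
      nlinarith
    · rw [hu'A _ (cube_shift habs c hx), hu'A _ (hcA x hx)]
      simp
  have ip : ∀ g : (Fin n → ℝ) → ℝ, Measurable g → (∀ x, 0 ≤ g x) → (∀ x, g x ≤ 1) →
      Integrable fun x => g x * p x := by
    intro g hg hg0 hg1
    refine int_cs (hg.mul hpm) (B := 1) hA (fun x => ?_) (fun x hx => ?_)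
    · rw [abs_of_nonneg (mul_nonneg (hg0 x) (hp0 x))]
      have h1 := hg0 x; have h2 := hg1 x; have h3 := hp0 x; have h4 := hp1 x
      nlinarith
    · rw [hpA x hx, mul_zero]
  have ips : ∀ (c : Fin n) (g : (Fin n → ℝ) → ℝ), Measurable g → (∀ x, 0 ≤ g x) →
      (∀ x, g x ≤ 1) → Integrable fun x => g x * p (x + Pi.single c h) := by
    intro c g hg hg0 hg1
    refine int_cs (hg.mul (hpm.comp (hsh c h))) (B := 1) hA1 (fun x => ?_) (fun x hx => ?_)
    · rw [abs_of_nonneg (mul_nonneg (hg0 x) (hp0 _))]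
      have h1 := hg0 x; have h2 := hg1 x
      have h3 := hp0 (x + Pi.single c h); have h4 := hp1 (x + Pi.single c h)
      nlinarith
    · rw [hpA _ (cube_shift habs c hx), mul_zero]
  have iW : ∀ c : Fin n, Integrable fun x =>
      (W (x + Pi.single c h) - W x) * (p (x + Pi.single c h) - p x) := by
    intro c
    have i1 := ips c (fun x => W (x + Pi.single c h)) (hWm.comp (hsh c h)) (fun x => hW0 _)
      (fun x => hW1 _)
    have i2 := ips c W hWm hW0 hW1
    have i3 := ip (fun x => W (x + Pi.single c h)) (hWm.comp (hsh c h)) (fun x => hW0 _)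
      (fun x => hW1 _)
    have i4 := ip W hWm hW0 hW1
    have i5 := ((i1.sub i2).sub (i3.sub i4))
    refine i5.congr (Filter.Eventually.of_forall fun x => ?_)
    simp only [Pi.sub_apply]
    ring
  have eW : ∀ c : Fin n, ∫ x : Fin n → ℝ, (W (x + Pi.single c h) - W x) * (p (x + Pi.single c h) - p x) =
      ∫ x : Fin n → ℝ, (2 * W x - (W (x + Pi.single c h) + W (x + Pi.single c (-h)))) * p x := by
    intro c
    have i1 := ips c (fun x => W (x + Pi.single c h)) (hWm.comp (hsh c h)) (fun x => hW0 _)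
      (fun x => hW1 _)
    have i2 := ips c W hWm hW0 hW1
    have i3 := ip (fun x => W (x + Pi.single c h)) (hWm.comp (hsh c h)) (fun x => hW0 _)
      (fun x => hW1 _)
    have i4 := ip W hWm hW0 hW1
    have i6 := ip (fun x => W (x + Pi.single c (-h))) (hWm.comp (hsh c (-h))) (fun x => hW0 _)
      (fun x => hW1 _)
    have e1 : ∫ x : Fin n → ℝ, (W (x + Pi.single c h) - W x) * (p (x + Pi.single c h) - p x) =
        (∫ x : Fin n → ℝ, W (x + Pi.single c h) * p (x + Pi.single c h)) -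
        (∫ x : Fin n → ℝ, W x * p (x + Pi.single c h)) - ((∫ x : Fin n → ℝ, W (x + Pi.single c h) * p x) -
        ∫ x : Fin n → ℝ, W x * p x) := by
      have h1 := integral_sub i3 i4
      have h2 := integral_sub i1 i2
      have h3 := integral_sub (i1.sub i2) (i3.sub i4)
      simp only [Pi.sub_apply] at h3
      rw [h1, h2] at h3
      rw [← h3]
      refine integral_congr_ae (Filter.Eventually.of_forall fun x => ?_)
      simp only
      ring
    have e2 : ∫ x : Fin n → ℝ, W (x + Pi.single c h) * p (x + Pi.single c h) =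
        ∫ x : Fin n → ℝ, W x * p x :=
      integral_add_right_eq_self (fun x : Fin n → ℝ => W x * p x) (Pi.single c h : Fin n → ℝ)
    have e3 : ∫ x : Fin n → ℝ, W x * p (x + Pi.single c h) =
        ∫ x : Fin n → ℝ, W (x + Pi.single c (-h)) * p x := by
      have e4 := integral_add_right_eq_self (μ := (volume : Measure (Fin n → ℝ)))
        (fun x : Fin n → ℝ => W (x + Pi.single c (-h)) * p x) (Pi.single c h : Fin n → ℝ)
      rw [← e4]
      refine integral_congr_ae (Filter.Eventually.of_forall fun x => ?_)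
      simp only
      congr 2
      rw [add_assoc, ← Pi.single_add, add_neg_cancel, Pi.single_zero, add_zero]
    rw [e1, e2, e3]
    have h1 := integral_add i3 i6
    have h2 := integral_sub (i4.const_mul 2) (i3.add i6)
    simp only [Pi.add_apply] at h2
    rw [h1, integral_const_mul] at h2
    have h4 : ∫ x : Fin n → ℝ, (2 * W x - (W (x + Pi.single c h) + W (x + Pi.single c (-h)))) * p x =
        ∫ x : Fin n → ℝ, 2 * (W x * p x) - (W (x + Pi.single c h) * p x + W (x + Pi.single c (-h)) * p x) := by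
      refine integral_congr_ae (Filter.Eventually.of_forall fun x => ?_)
      simp only
      ring
    rw [h4, h2]
    ring
  -- the real inequality
  have hsum : 0 ≤ ∑ c : Fin n, ∫ x : Fin n → ℝ, (W (x + Pi.single c h) - W x) *
      (p (x + Pi.single c h) - p x) := by
    rw [Finset.sum_congr rfl fun c _ => eW c, ← integral_finsetSum]
    · refine integral_nonneg fun x => ?_
      simp only [Pi.zero_apply]
      rw [← Finset.sum_mul, Finset.sum_sub_distrib, Finset.sum_const, Finset.card_univ,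
        Fintype.card_fin, nsmul_eq_mul]
      by_cases hx : W x < 1
      · have h1 := hS x hx
        exact mul_nonneg (by linarith) (hp0 x)
      · have h2 : W x = 1 := le_antisymm (hW1 x) (not_lt.1 hx)
        have h3 : p x = 0 := by
          rw [hp, hu']
          simp only
          rw [h2, min_eq_left (hu1 x), sub_self]
        rw [h3, mul_zero]
    · intro c _
      have i3 := ip (fun x => W (x + Pi.single c h)) (hWm.comp (hsh c h)) (fun x => hW0 _)
        (fun x => hW1 _)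
      have i4 := ip W hWm hW0 hW1
      have i6 := ip (fun x => W (x + Pi.single c (-h))) (hWm.comp (hsh c (-h))) (fun x => hW0 _)
        (fun x => hW1 _)
      refine ((i4.const_mul 2).sub (i3.add i6)).congr (Filter.Eventually.of_forall fun x => ?_)
      simp only [Pi.sub_apply, Pi.add_apply]
      ring
  have hreal : ∑ c : Fin n, ∫ x : Fin n → ℝ, (u' (x + Pi.single c h) - u' x) ^ 2 ≤
      ∑ c : Fin n, ∫ x : Fin n → ℝ, (u (x + Pi.single c h) - u x) ^ 2 := by
    have h1 : ∀ c : Fin n, (∫ x : Fin n → ℝ, (u' (x + Pi.single c h) - u' x) ^ 2) +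
        2 * (∫ x : Fin n → ℝ, (W (x + Pi.single c h) - W x) * (p (x + Pi.single c h) - p x)) ≤
        ∫ x : Fin n → ℝ, (u (x + Pi.single c h) - u x) ^ 2 := by
      intro c
      rw [← integral_const_mul, ← integral_add (iu' c) ((iW c).const_mul 2)]
      refine integral_mono ((iu' c).add ((iW c).const_mul 2)) (iu c) fun x => ?_
      simp only
      rw [hp, hu']
      exact trunc_pt
    have h2 := Finset.sum_le_sum fun c (_ : c ∈ Finset.univ) => h1 c
    rw [Finset.sum_add_distrib, ← Finset.mul_sum] at h2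
    linarith
  -- conversion
  have conv : ∀ (g : (Fin n → ℝ) → ℝ) (c : Fin n),
      Integrable (fun x => (g (x + Pi.single c h) - g x) ^ 2) →
      gk Set.univ c k (fun x => 1 - g x) =
        4 ^ k * ENNReal.ofReal (∫ x : Fin n → ℝ, (g (x + Pi.single c h) - g x) ^ 2) := by
    intro g c hg
    rw [gk_univ, ← hh, ofReal_integral_eq_lintegral_ofReal hg
      (Filter.Eventually.of_forall fun x => sq_nonneg _)]
    congr 1
    refine lintegral_congr fun x => ?_
    congr 1
    ring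
  have e1 : ∑ c, gk Set.univ c k (fun x => 1 - min (u x) (W x)) = 4 ^ k * ENNReal.ofReal
      (∑ c : Fin n, ∫ x : Fin n → ℝ, (u' (x + Pi.single c h) - u' x) ^ 2) := by
    rw [ENNReal.ofReal_sum_of_nonneg fun c _ => integral_nonneg fun x => sq_nonneg _,
      Finset.mul_sum]
    refine Finset.sum_congr rfl fun c _ => ?_
    rw [← conv u' c (iu' c), hu']
  have e2 : ∑ c, gk Set.univ c k (fun x => 1 - u x) = 4 ^ k * ENNReal.ofReal
      (∑ c : Fin n, ∫ x : Fin n → ℝ, (u (x + Pi.single c h) - u x) ^ 2) := by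
    rw [ENNReal.ofReal_sum_of_nonneg fun c _ => integral_nonneg fun x => sq_nonneg _,
      Finset.mul_sum]
    exact Finset.sum_congr rfl fun c _ => conv u c (iu c)
  rw [e1, e2]
  gcongr

/-- the energy of `f` as a supremum -/
lemma gr_sup (hKQ : S_KQ) {f : (Fin n → ℝ) → ℝ} (hf : BM f) :
    gr Set.univ f = ⨆ k, ∑ c, gk Set.univ c k f := by
  unfold gr
  refine ENNReal.finsetSum_iSup_of_monotone fun c => ?_
  exact monotone_nat_of_le_succ fun k => (hKQ n Set.univ (Or.inl rfl)).1 f c k hf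

lemma gk_mono (hKQ : S_KQ) {f : (Fin n → ℝ) → ℝ} (hf : BM f) (c : Fin n) :
    Monotone fun k => gk Set.univ c k f :=
  monotone_nat_of_le_succ fun k => (hKQ n Set.univ (Or.inl rfl)).1 f c k hf

lemma gr_le_of (hKQ : S_KQ) {f : (Fin n → ℝ) → ℝ} (hf : BM f) {X : ℝ≥0∞} (k₀ : ℕ)
    (h : ∀ k, k₀ ≤ k → ∑ c, gk Set.univ c k f ≤ X) : gr Set.univ f ≤ X := by
  rw [gr_sup hKQ hf]
  refine iSup_le fun k => ?_
  refine le_trans ?_ (h (max k k₀) (le_max_right _ _))
  exact Finset.sum_le_sum fun c _ => gk_mono hKQ hf c (le_max_left _ _)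

/-- the truncation does not increase the energy -/
lemma gr_trunc (hKQ : S_KQ) {α R₁ : ℝ} (hα : 0 < α) (hαn : 4 * (α + 1) < 2 * n) (hR : 1 ≤ R₁)
    {u : (Fin n → ℝ) → ℝ} (hum : Measurable u)
    (hu0 : ∀ x, 0 ≤ u x) (hu1 : ∀ x, u x ≤ 1)
    {A : ℝ} (hA : 0 ≤ A) (huA : ∀ x, x ∉ cube n A → u x = 0) :
    gr Set.univ (fun x => 1 - min (u x) (Wf α R₁ x)) ≤ gr Set.univ (fun x => 1 - u x) := by
  obtain ⟨h₀, hh₀, hh₁, hs⟩ := Wf_super (n := n) hα hαn hR
  obtain ⟨k₀, hk₀⟩ := exists_pow_lt_of_lt_one hh₀ (show (2 : ℝ)⁻¹ < 1 by norm_num)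
  have hW0 : ∀ x : Fin n → ℝ, 0 ≤ Wf α R₁ x := fun x => (Wf_pos α R₁ x).le
  have hW1 : ∀ x : Fin n → ℝ, Wf α R₁ x ≤ 1 := Wf_le hα R₁
  have hm : Measurable fun x : Fin n → ℝ => min (u x) (Wf α R₁ x) := hum.min (Wf_meas α R₁)
  refine gr_le_of hKQ ⟨hm.const_sub 1, 1, fun x => ?_⟩ k₀ fun k hk => ?_
  · have h1 := le_min (hu0 x) (hW0 x)
    have h2 := (min_le_left (u x) (Wf α R₁ x)).trans (hu1 x)
    rw [abs_le]
    constructor <;> linarith
  · refine (gk_trunc hum (Wf_meas α R₁) hu0 hu1 hW0 hW1 hA huA k fun x hx => ?_).trans ?_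
    · refine hs _ (by positivity) (le_trans ?_ hk₀.le) x hx
      exact pow_le_pow_of_le_one (by norm_num) (by norm_num) hk
    · unfold gr
      exact Finset.sum_le_sum fun c _ => le_iSup (fun k => gk Set.univ c k fun x => 1 - u x) k

end

end Pool.Agent.Y656
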