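import Pool.Agent.Y656.Rate2

/-!
# Trial functions with a rate
-/

set_option autoImplicit false

open MeasureTheory Set Filter
open scoped ENNReal Topology

namespace Pool.Agent.Y656

open Pool.Agent.W761.CB Pool.Agent.W761.CC
open Pool.Agent.W327.CC (chi chi_nonneg chi_le_one chi_zero measurableSet_cube vol_cube
  mem_cube_iff chi_lip norm_single cutf_meas)
open Pool.Agent.W612.CC (QD_mono el_meas cube_mono)

noncomputable section

variable {n : ℕ}

lemma chi_one {r : ℝ} (hr : 0 < r) {x : Fin n → ℝ} (hx : ‖x‖ ≤ r / 2) : chi r x = 1 := by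
  unfold chi
  have h1 : 1 ≤ 2 - 2 * ‖x‖ / r := by
    have : 2 * ‖x‖ / r ≤ 1 := by
      rw [div_le_one hr]
      linarith
    linarith
  rw [min_eq_left h1, max_eq_right zero_le_one]

lemma norm_nsq (x : Fin n → ℝ) : ‖x‖ ^ 2 ≤ nsq x := by
  have h1 : ‖x‖ ≤ √(nsq x) := by
    rw [pi_norm_le_iff_of_nonneg (Real.sqrt_nonneg _)]
    intro c
    rw [Real.norm_eq_abs]
    exact Real.abs_le_sqrt (nsq_le x c)
  calc ‖x‖ ^ 2 ≤ √(nsq x) ^ 2 := pow_le_pow_left₀ (norm_nonneg _) h1 2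
    _ = nsq x := Real.sq_sqrt (nsq_nonneg x)

/-- the energy of the cut off of a function near `1` -/
lemma gr_cutw (hKQ : S_KQ) {α R₁ a η : ℝ} (hα : 0 < α) (hR : 1 ≤ R₁) (ha : 4 ≤ a) (hη : 0 < η)
    {u : (Fin n → ℝ) → ℝ} (hum : Measurable u) (hu0 : ∀ x, 0 ≤ u x) (hu1 : ∀ x, u x ≤ 1)
    (huW : ∀ x, u x ≤ Wf α R₁ x) :
    gr Set.univ (cutf a fun x => 1 - u x) ≤ ENNReal.ofReal (1 + η) * gr Set.univ (fun x => 1 - u x) +
      n * ENNReal.ofReal ((1 + 1 / η) * (4 * (((a / 4) ^ 2 / R₁ ^ 2) ^ (-α)) ^ 2 *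
        ((4 * a) ^ n / a ^ 2))) := by
  obtain ⟨w, hw⟩ : ∃ w : ℝ, w = ((a / 4) ^ 2 / R₁ ^ 2) ^ (-α) := ⟨_, rfl⟩
  have hw0 : 0 ≤ w := by rw [hw]; exact Real.rpow_nonneg (by positivity) _
  have ha0 : 0 < a := by linarith
  rw [← hw]
  have hB : BM (fun x => 1 - u x) := ⟨hum.const_sub 1, 1, fun x => by
    have h1 := hu0 x; have h2 := hu1 x
    rw [abs_le]; constructor <;> linarith⟩
  have key : ∀ (c : Fin n) (k : ℕ), gk Set.univ c k (cutf a fun x => 1 - u x) ≤
      ENNReal.ofReal (1 + η) * gk Set.univ c k (fun x => 1 - u x) +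
      ENNReal.ofReal ((1 + 1 / η) * (4 * w ^ 2 * ((4 * a) ^ n / a ^ 2))) := by
    intro c k
    obtain ⟨h, hh⟩ : ∃ h : ℝ, h = (2 : ℝ)⁻¹ ^ k := ⟨_, rfl⟩
    have hh0 : 0 < h := by rw [hh]; positivity
    have hh1 : h ≤ 1 := by rw [hh]; exact pow_le_one₀ (by norm_num) (by norm_num)
    obtain ⟨s, hs⟩ : ∃ s : Fin n → ℝ, s = Pi.single c h := ⟨_, rfl⟩
    have hns : ‖s‖ = h := by rw [hs]; exact norm_single c h hh0.le
    have hpt : ∀ z : Fin n → ℝ, ENNReal.ofReal ((cutf a (fun x => 1 - u x) (z + s) -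
        cutf a (fun x => 1 - u x) z) ^ 2) ≤
        ENNReal.ofReal (1 + η) * ENNReal.ofReal (((1 - u (z + s)) - (1 - u z)) ^ 2) +
        (cube n (2 * a)).indicator
          (fun _ => ENNReal.ofReal ((1 + 1 / η) * (w * (2 * h / a)) ^ 2)) z := by
      intro z
      have hc0 := chi_nonneg (r := a) (z + s)
      have hc1 := chi_le_one (r := a) (z + s)
      have e : cutf a (fun x => 1 - u x) (z + s) - cutf a (fun x => 1 - u x) z =
          -(chi a (z + s) * (u (z + s) - u z) + (chi a (z + s) - chi a z) * u z) := by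
        rw [Pool.Agent.W327.CC.cutf_eq, Pool.Agent.W327.CC.cutf_eq]
        ring
      have h1 : ∀ x y : ℝ, (x + y) ^ 2 ≤ (1 + η) * x ^ 2 + (1 + 1 / η) * y ^ 2 := by
        intro x y
        have h2 : 0 ≤ (η * x - y) ^ 2 / η := by positivity
        have h3 : (η * x - y) ^ 2 / η = η * x ^ 2 - 2 * x * y + 1 / η * y ^ 2 := by
          field_simp
          ring
        rw [h3] at h2
        linarith
      have h4 : (chi a (z + s) * (u (z + s) - u z)) ^ 2 ≤ (u (z + s) - u z) ^ 2 := by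
        rw [mul_pow]
        calc chi a (z + s) ^ 2 * (u (z + s) - u z) ^ 2 ≤ 1 * (u (z + s) - u z) ^ 2 := by
              apply mul_le_mul_of_nonneg_right _ (sq_nonneg _)
              nlinarith
          _ = _ := one_mul _
      have h5 : (((1 - u (z + s)) - (1 - u z)) ^ 2) = (u (z + s) - u z) ^ 2 := by ring
      rw [e, neg_sq, h5, ← ENNReal.ofReal_mul (by positivity)]
      by_cases hz : z ∈ cube n (2 * a)
      · rw [Set.indicator_of_mem hz, ← ENNReal.ofReal_add (by positivity) (by positivity)]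
        apply ENNReal.ofReal_le_ofReal
        refine (h1 _ _).trans (add_le_add (mul_le_mul_of_nonneg_left h4 (by positivity))
          (mul_le_mul_of_nonneg_left ?_ (by positivity)))
        by_cases hz2 : ‖z‖ ≤ a / 4
        · have h6 : ‖z + s‖ ≤ a / 2 := by
            refine (norm_add_le _ _).trans ?_
            rw [hns]
            linarith
          rw [chi_one ha0 h6, chi_one ha0 (by linarith), sub_self, zero_mul, zero_pow two_ne_zero]
          positivity
        · have h6 := chi_lip ha0 z s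
          rw [hns] at h6
          have h7 : u z ≤ w := by
            refine (huW z).trans ?_
            rw [hw]
            refine Wf_bd hα (by linarith) (by positivity) ?_
            refine le_trans ?_ (norm_nsq z)
            exact pow_le_pow_left₀ (by positivity) (not_le.1 hz2).le 2
          rw [← sq_abs, abs_mul, abs_of_nonneg (hu0 z)]
          apply pow_le_pow_left₀ (mul_nonneg (abs_nonneg _) (hu0 z))
          rw [mul_comm]
          exact mul_le_mul h7 h6 (abs_nonneg _) hw0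
      · rw [Set.indicator_of_notMem hz, add_zero]
        apply ENNReal.ofReal_le_ofReal
        have h8 : z ∉ cube n a := fun h9 => hz (cube_mono (by linarith) h9)
        have h9 : z + s ∉ cube n a := by
          rw [mem_cube_iff (by positivity)] at hz ⊢
          intro h10
          have h11 : ‖z‖ ≤ ‖z + s‖ + ‖s‖ := by
            have := norm_sub_le (z + s) s
            rwa [add_sub_cancel_right] at this
          rw [hns] at h11
          linarith
        rw [chi_zero ha0 h8, chi_zero ha0 h9]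
        have h10 : 0 ≤ (1 + η) * (u (z + s) - u z) ^ 2 := by positivity
        simpa using h10
    rw [gk_univ, gk_univ, ← hh, ← hs]
    have h20 : (∫⁻ z, ENNReal.ofReal ((cutf a (fun x => 1 - u x) (z + s) -
        cutf a (fun x => 1 - u x) z) ^ 2)) ≤ ENNReal.ofReal (1 + η) *
        (∫⁻ z, ENNReal.ofReal (((1 - u (z + s)) - (1 - u z)) ^ 2)) +
        ENNReal.ofReal ((1 + 1 / η) * (w * (2 * h / a)) ^ 2) * ENNReal.ofReal ((2 * (2 * a)) ^ n) := by
      refine (lintegral_mono hpt).trans ?_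
      rw [lintegral_add_right _ (measurable_const.indicator (measurableSet_cube n (2 * a))),
        lintegral_const_mul' _ _ ENNReal.ofReal_ne_top,
        lintegral_indicator (measurableSet_cube n (2 * a)), setLIntegral_const,
        vol_cube (by positivity)]
    calc 4 ^ k * ∫⁻ z, ENNReal.ofReal ((cutf a (fun x => 1 - u x) (z + s) -
          cutf a (fun x => 1 - u x) z) ^ 2)
        ≤ 4 ^ k * (ENNReal.ofReal (1 + η) *
          (∫⁻ z, ENNReal.ofReal (((1 - u (z + s)) - (1 - u z)) ^ 2)) +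
          ENNReal.ofReal ((1 + 1 / η) * (w * (2 * h / a)) ^ 2) *
            ENNReal.ofReal ((2 * (2 * a)) ^ n)) := mul_le_mul_right h20 _
      _ = ENNReal.ofReal (1 + η) *
          (4 ^ k * ∫⁻ z, ENNReal.ofReal (((1 - u (z + s)) - (1 - u z)) ^ 2)) +
          4 ^ k * (ENNReal.ofReal ((1 + 1 / η) * (w * (2 * h / a)) ^ 2) *
            ENNReal.ofReal ((2 * (2 * a)) ^ n)) := by ring
      _ = _ := by
        congr 1
        have h21 : (4 : ℝ≥0∞) ^ k = ENNReal.ofReal (4 ^ k) := by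
          rw [ENNReal.ofReal_pow (by norm_num)]
          simp
        rw [h21, ← ENNReal.ofReal_mul (by positivity), ← ENNReal.ofReal_mul (by positivity)]
        congr 1
        have h5 : (4 : ℝ) ^ k * h ^ 2 = 1 := by
          rw [hh, ← pow_mul, mul_comm k 2, pow_mul, ← mul_pow]
          norm_num
        calc (4 : ℝ) ^ k * ((1 + 1 / η) * (w * (2 * h / a)) ^ 2 * (2 * (2 * a)) ^ n)
            = (4 ^ k * h ^ 2) * ((1 + 1 / η) * (4 * w ^ 2 * ((2 * (2 * a)) ^ n / a ^ 2))) := by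
              field_simp
              ring
          _ = _ := by
              rw [h5, one_mul, show 2 * (2 * a) = 4 * a by ring]
  unfold gr
  calc ∑ c, ⨆ k, gk Set.univ c k (cutf a fun x => 1 - u x)
      ≤ ∑ c : Fin n, (ENNReal.ofReal (1 + η) * (⨆ k, gk Set.univ c k (fun x => 1 - u x)) +
        ENNReal.ofReal ((1 + 1 / η) * (4 * w ^ 2 * ((4 * a) ^ n / a ^ 2)))) := by
        refine Finset.sum_le_sum fun c _ => iSup_le fun k => (key c k).trans ?_
        gcongr
        exact le_iSup (fun k => gk Set.univ c k fun x => 1 - u x) k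
    _ = _ := by
        rw [Finset.sum_add_distrib, ← Finset.mul_sum, Finset.sum_const, Finset.card_univ,
          Fintype.card_fin, nsmul_eq_mul]

/-- the exponents -/
lemma rate_exp {R₁ : ℝ} (hR : 1 ≤ R₁) (hn : 3 ≤ n) {α : ℝ} (hα : α = 3 * (n - 2) / 8) {a : ℝ}
    (ha : 1 ≤ a) : 4 * (((a / 4) ^ 2 / R₁ ^ 2) ^ (-α)) ^ 2 * ((4 * a) ^ n / a ^ 2) ≤
      4 * 4 ^ n * (16 * R₁ ^ 2) ^ (2 * α) / √a := by
  have ha0 : 0 < a := by linarith
  have hR0 : 0 < R₁ := by linarith
  have hn' : (3 : ℝ) ≤ n := by exact_mod_cast hn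
  have e1 : (((a / 4) ^ 2 / R₁ ^ 2) ^ (-α)) ^ 2 = a ^ (-(4 * α)) * (16 * R₁ ^ 2) ^ (2 * α) := by
    have h1 : (a / 4) ^ 2 / R₁ ^ 2 = a ^ (2 : ℝ) / (16 * R₁ ^ 2) := by
      rw [Real.rpow_two]
      field_simp
      ring
    rw [h1, ← Real.rpow_natCast, ← Real.rpow_mul (by positivity), Real.div_rpow (by positivity)
      (by positivity), ← Real.rpow_mul ha0.le]
    push_cast
    rw [show (2 : ℝ) * (-α * 2) = -(4 * α) by ring, show -α * 2 = -(2 * α) by ring,
      Real.rpow_neg (by positivity : (0 : ℝ) ≤ 16 * R₁ ^ 2), div_inv_eq_mul]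
  have e2 : (4 * a) ^ n / a ^ 2 = 4 ^ n * a ^ ((n : ℝ) - 2) := by
    rw [mul_pow, Real.rpow_sub ha0, Real.rpow_natCast, Real.rpow_two]
    ring
  rw [e1, e2]
  have e3 : 4 * (a ^ (-(4 * α)) * (16 * R₁ ^ 2) ^ (2 * α)) * (4 ^ n * a ^ ((n : ℝ) - 2)) =
      4 * 4 ^ n * (16 * R₁ ^ 2) ^ (2 * α) * a ^ (-((n : ℝ) - 2) / 2) := by
    have : a ^ (-(4 * α)) * a ^ ((n : ℝ) - 2) = a ^ (-((n : ℝ) - 2) / 2) := by
      rw [← Real.rpow_add ha0]
      congr 1
      rw [hα]
      ring
    rw [← this]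
    ring
  rw [e3, div_eq_mul_inv]
  apply mul_le_mul_of_nonneg_left _ (by positivity)
  rw [Real.sqrt_eq_rpow, ← Real.rpow_neg ha0.le]
  apply Real.rpow_le_rpow_of_exponent_le ha
  linarith

lemma nsq_neg (x : Fin n → ℝ) : nsq (-x) = nsq x := by
  unfold nsq
  refine Finset.sum_congr rfl fun c _ => ?_
  rw [Pi.neg_apply, neg_sq]

/-- trial functions with a rate -/
theorem rate (hKQ : S_KQ) (μ R₀ : ℝ) (v : ℝ → ℝ≥0∞) (hn : 3 ≤ n) (hμ : 0 < μ) (hv : Measurable v)
    (hvR : ∀ r, R₀ < r → v r = 0) (hsc : 0 < scat n μ v) :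
    ∃ C : ℝ, 1 ≤ C ∧ ∀ ε : ℝ, 0 < ε → ε ≤ 1 → ∀ a : ℝ, C / ε ^ 4 ≤ a →
      ∃ f : (Fin n → ℝ) → ℝ, Measurable f ∧ (∀ z, f (-z) = f z) ∧ (∀ z, 0 ≤ f z ∧ f z ≤ 1) ∧
        (∀ z, z ∉ cube n a → f z = 1) ∧
        QD μ v Set.univ f ≤ ENNReal.ofReal (scat n μ v / 2 * (1 + ε)) := by
  obtain ⟨G, hG⟩ : ∃ G, G = scat n μ v / 2 := ⟨_, rfl⟩
  have hG0 : 0 < G := by rw [hG]; linarith
  obtain ⟨α, hα⟩ : ∃ α : ℝ, α = 3 * (n - 2) / 8 := ⟨_, rfl⟩
  have hn' : (3 : ℝ) ≤ n := by exact_mod_cast hn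
  have hα0 : 0 < α := by rw [hα]; linarith
  have hαn : 4 * (α + 1) < 2 * n := by rw [hα]; linarith
  obtain ⟨R₁, hR₁⟩ : ∃ R₁, R₁ = max 1 R₀ := ⟨_, rfl⟩
  have hR1 : 1 ≤ R₁ := by rw [hR₁]; exact le_max_left _ _
  have hR0 : R₀ ≤ R₁ := by rw [hR₁]; exact le_max_right _ _
  obtain ⟨C₂, hC₂⟩ : ∃ C₂ : ℝ, C₂ = 4 * 4 ^ n * (16 * R₁ ^ 2) ^ (2 * α) := ⟨_, rfl⟩
  have hC₂0 : 0 ≤ C₂ := by rw [hC₂]; positivity
  obtain ⟨D, hD⟩ : ∃ D : ℝ, D = 20 * μ * n * C₂ / G + 1 := ⟨_, rfl⟩
  have hD0 : 0 ≤ 20 * μ * n * C₂ / G := by positivity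
  have hD1 : 1 ≤ D := by rw [hD]; linarith
  have hvt : ∫⁻ z in {z : Fin n → ℝ | R₀ < el z}, v (el z) ≠ ⊤ := by
    have h1 : ∫⁻ z in {z : Fin n → ℝ | R₀ < el z}, v (el z) = 0 := by
      rw [setLIntegral_congr_fun (g := fun _ => 0) (measurableSet_lt measurable_const el_meas)
        fun z hz => hvR _ hz]
      simp
    rw [h1]
    exact ENNReal.zero_ne_top
  refine ⟨D ^ 2 + 4 * R₁, by nlinarith, ?_⟩
  intro ε hε hε1 a ha
  have hε4 : 0 < ε ^ 4 := by positivity
  have hε41 : ε ^ 4 ≤ 1 := pow_le_one₀ hε.le hε1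
  rw [div_le_iff₀ hε4] at ha
  have haR : 4 * R₁ ≤ a := by nlinarith [sq_nonneg D]
  have ha4 : 4 ≤ a := by linarith
  have ha0 : 0 < a := by linarith
  have hsa : D / ε ^ 2 ≤ √a := by
    apply Real.le_sqrt_of_sq_le
    rw [div_pow, div_le_iff₀ (by positivity)]
    have : (ε ^ 2) ^ 2 = ε ^ 4 := by ring
    rw [this]
    linarith
  obtain ⟨f₀, A, hfm, hfe, hf01, hA1, hfA, hfQ⟩ := symH (n := n) hKQ μ R₀ v hv hvt (G * ε / 8)
    (by positivity)
  rw [← hG] at hfQ
  obtain ⟨u, hu⟩ : ∃ u : (Fin n → ℝ) → ℝ, u = fun x => 1 - f₀ x := ⟨_, rfl⟩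
  have hum : Measurable u := by rw [hu]; exact hfm.const_sub 1
  have hu0 : ∀ x, 0 ≤ u x := fun x => by rw [hu]; simp only; linarith [(hf01 x).2]
  have hu1 : ∀ x, u x ≤ 1 := fun x => by rw [hu]; simp only; linarith [(hf01 x).1]
  have huA : ∀ x, x ∉ cube n A → u x = 0 := fun x hx => by rw [hu]; simp only; rw [hfA x hx, sub_self]
  have huf : ∀ x, 1 - u x = f₀ x := fun x => by rw [hu]; ring
  obtain ⟨u', hu'⟩ : ∃ u' : (Fin n → ℝ) → ℝ, u' = fun x => min (u x) (Wf α R₁ x) := ⟨_, rfl⟩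
  have hu'm : Measurable u' := by rw [hu']; exact hum.min (Wf_meas α R₁)
  have hu'0 : ∀ x, 0 ≤ u' x := fun x => by rw [hu']; exact le_min (hu0 x) (Wf_pos α R₁ x).le
  have hu'u : ∀ x, u' x ≤ u x := fun x => by rw [hu']; exact min_le_left _ _
  have hu'1 : ∀ x, u' x ≤ 1 := fun x => (hu'u x).trans (hu1 x)
  have hgr := gr_trunc (n := n) hKQ hα0 hαn hR1 hum hu0 hu1 (by linarith) huA
  have hgr' : gr Set.univ (fun x => 1 - u' x) ≤ gr Set.univ f₀ := by
    rw [hu']
    refine hgr.trans (le_of_eq ?_)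
    congr 1
    funext x
    exact huf x
  have hcw := gr_cutw (n := n) hKQ (α := α) (R₁ := R₁) (a := a) (η := ε / 4) hα0 hR1 ha4
    (by positivity) hu'm hu'0 hu'1 (fun x => by rw [hu']; exact min_le_right _ _)
  have hexp := rate_exp hR1 hn hα (a := a) (by linarith)
  rw [← hC₂] at hexp
  refine ⟨cutf a fun x => 1 - u' x, ?_, ?_, ?_, ?_, ?_⟩
  · exact cutf_meas ⟨hu'm.const_sub 1, 1, fun x => by
      have h1 := hu'0 x; have h2 := hu'1 x
      rw [abs_le]; constructor <;> linarith⟩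
  · intro z
    rw [Pool.Agent.W327.CC.cutf_eq, Pool.Agent.W327.CC.cutf_eq]
    have h1 : chi a (-z) = chi a z := by unfold chi; rw [norm_neg]
    have h2 : u' (-z) = u' z := by
      rw [hu', hu]
      simp only
      rw [hfe]
      unfold Wf
      rw [nsq_neg]
    rw [h1, h2]
  · intro z
    rw [Pool.Agent.W327.CC.cutf_eq]
    have h1 := chi_nonneg (r := a) z
    have h2 := chi_le_one (r := a) z
    have h3 := hu'0 z
    have h4 := hu'1 z
    constructor <;> nlinarith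
  · intro z hz
    rw [Pool.Agent.W327.CC.cutf_eq, chi_zero ha0 hz]
    ring
  · have hpot : ∫⁻ z, v (el z) * ENNReal.ofReal (cutf a (fun x => 1 - u' x) z ^ 2) =
        ∫⁻ z, v (el z) * ENNReal.ofReal (f₀ z ^ 2) := by
      refine lintegral_congr fun z => ?_
      by_cases hz : R₀ < el z
      · rw [hvR _ hz, zero_mul, zero_mul]
      · have hz' : el z ≤ R₁ := (not_lt.1 hz).trans hR0
        have hel0 : 0 ≤ el z := Real.sqrt_nonneg _
        have hns : nsq z ≤ R₁ ^ 2 := by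
          have h1 : el z ^ 2 = nsq z := Real.sq_sqrt (nsq_nonneg z)
          rw [← h1]
          exact pow_le_pow_left₀ hel0 hz' 2
        have hnz : ‖z‖ ≤ a / 2 := by
          have h1 : ‖z‖ ≤ R₁ := by
            have h2 := norm_nsq z
            exact le_of_sq_le_sq (h2.trans hns) (by linarith)
          linarith
        rw [Pool.Agent.W327.CC.cutf_eq, chi_one ha0 hnz]
        have h3 : u' z = u z := by
          rw [hu']
          simp only
          rw [Wf_one (by linarith) hns, min_eq_left (hu1 z)]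
        rw [h3, huf]
        congr 3
        ring
    have h1η : 0 ≤ 1 + ε / 4 := by positivity
    have hone : (1 : ℝ≥0∞) ≤ ENNReal.ofReal (1 + ε / 4) := by
      rw [← ENNReal.ofReal_one]
      exact ENNReal.ofReal_le_ofReal (by linarith)
    unfold QD at hfQ ⊢
    rw [Measure.restrict_univ] at hfQ ⊢
    rw [hpot, ← hG]
    have hbd : (n : ℝ≥0∞) * ENNReal.ofReal ((1 + 1 / (ε / 4)) *
        (4 * (((a / 4) ^ 2 / R₁ ^ 2) ^ (-α)) ^ 2 * ((4 * a) ^ n / a ^ 2))) ≤
        ENNReal.ofReal (G * ε / (4 * μ)) := by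
      rw [← ENNReal.ofReal_natCast n, ← ENNReal.ofReal_mul (Nat.cast_nonneg n)]
      apply ENNReal.ofReal_le_ofReal
      have h1 : 1 + 1 / (ε / 4) ≤ 5 / ε := by
        rw [le_div_iff₀ hε, add_mul]
        field_simp
        linarith
      have h0 : 0 ≤ 4 * (((a / 4) ^ 2 / R₁ ^ 2) ^ (-α)) ^ 2 * ((4 * a) ^ n / a ^ 2) := by
        positivity
      have h2 : C₂ / √a ≤ C₂ * ε ^ 2 / D := by
        have h3 : 0 < √a := Real.sqrt_pos.2 ha0
        have hD' : 0 < D := by linarith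
        rw [div_le_div_iff₀ h3 hD']
        rw [div_le_iff₀ (by positivity)] at hsa
        nlinarith
      calc (n : ℝ) * ((1 + 1 / (ε / 4)) *
            (4 * (((a / 4) ^ 2 / R₁ ^ 2) ^ (-α)) ^ 2 * ((4 * a) ^ n / a ^ 2)))
          ≤ n * (5 / ε * (C₂ * ε ^ 2 / D)) := by
            apply mul_le_mul_of_nonneg_left _ (Nat.cast_nonneg n)
            exact mul_le_mul h1 (hexp.trans h2) h0 (by positivity)
        _ = 5 * n * C₂ * ε / D := by
            field_simp
        _ ≤ G * ε / (4 * μ) := by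
            have hD' : 0 < D := by linarith
            rw [div_le_div_iff₀ hD' (by positivity)]
            have h4 : G * D = 20 * μ * n * C₂ + G := by
              rw [hD]
              field_simp
            calc 5 * n * C₂ * ε * (4 * μ) = (20 * μ * n * C₂) * ε := by ring
              _ ≤ (G * D) * ε := by
                  apply mul_le_mul_of_nonneg_right _ hε.le
                  linarith
              _ = _ := by ring
    calc ENNReal.ofReal μ * gr Set.univ (cutf a fun x => 1 - u' x) +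
          2⁻¹ * ∫⁻ z, v (el z) * ENNReal.ofReal (f₀ z ^ 2)
        ≤ ENNReal.ofReal μ * (ENNReal.ofReal (1 + ε / 4) * gr Set.univ f₀ +
            ENNReal.ofReal (G * ε / (4 * μ))) +
          ENNReal.ofReal (1 + ε / 4) * (2⁻¹ * ∫⁻ z, v (el z) * ENNReal.ofReal (f₀ z ^ 2)) := by
          refine add_le_add (mul_le_mul_right (hcw.trans (add_le_add
            (mul_le_mul_right hgr' _) hbd)) _) ?_
          exact le_mul_of_one_le_left (by simp) hone
      _ = ENNReal.ofReal (1 + ε / 4) * (ENNReal.ofReal μ * gr Set.univ f₀ +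
          2⁻¹ * ∫⁻ z, v (el z) * ENNReal.ofReal (f₀ z ^ 2)) +
          ENNReal.ofReal μ * ENNReal.ofReal (G * ε / (4 * μ)) := by ring
      _ ≤ ENNReal.ofReal (1 + ε / 4) * ENNReal.ofReal (G + G * ε / 8) +
          ENNReal.ofReal μ * ENNReal.ofReal (G * ε / (4 * μ)) := by gcongr
      _ = ENNReal.ofReal ((1 + ε / 4) * (G + G * ε / 8) + μ * (G * ε / (4 * μ))) := by
          rw [← ENNReal.ofReal_mul h1η, ← ENNReal.ofReal_mul hμ.le,
            ← ENNReal.ofReal_add (by positivity) (by positivity)]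
      _ ≤ ENNReal.ofReal (G * (1 + ε)) := by
          apply ENNReal.ofReal_le_ofReal
          have h5 : μ * (G * ε / (4 * μ)) = G * ε / 4 := by field_simp
          rw [h5]
          nlinarith [mul_nonneg hG0.le hε.le, mul_nonneg (mul_nonneg hG0.le hε.le)
            (sub_nonneg.2 hε1)]

end

end Pool.Agent.Y656
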