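import Pool.Agent.Y656.Main4
import Pool.Agent.Y656.Rate3
import Pool.Agent.Y656.Upt3

/-!
# The upper bound of the energy, with a rate
-/

set_option autoImplicit false

open MeasureTheory
open scoped ENNReal

namespace Pool.Agent.Y656

open Pool.Agent.W761.CB Pool.Agent.W761.CC Pool.Agent.TH268.CC

noncomputable section

/-- bound of the constant -/
lemma Cup_le {n : ℕ} {μ c₁ x a Gr g : ℝ} (hμ : 0 < μ) (hc₁ : 1 ≤ c₁) (hx : 1 ≤ x)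
    (ha : a = c₁ * x ^ 4) (hGr : 0 ≤ Gr) (hGg : Gr ≤ g) :
    Cup n μ a Gr ≤ (2 * c₁) ^ (2 * n) * (8 + 2 * μ * g + 3 * n * g) * x ^ (8 * n) := by
  obtain ⟨A, hA⟩ : ∃ A, A = (2 * a) ^ n := ⟨_, rfl⟩
  have hx0 : 0 < x := by linarith
  have hg0 : 0 ≤ g := hGr.trans hGg
  have ha1 : 1 ≤ 2 * a := by
    rw [ha]
    have : 1 ≤ x ^ 4 := one_le_pow₀ hx
    nlinarith
  have hA1 : 1 ≤ A := by rw [hA]; exact one_le_pow₀ ha1
  have hA2 : A ^ 2 = (2 * c₁) ^ (2 * n) * x ^ (8 * n) := by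
    rw [hA, ha, ← pow_mul, ← mul_assoc, mul_pow, ← pow_mul]
    congr 1
    · rw [mul_comm n 2]
    · congr 1
      ring
  have hAA : A ≤ A ^ 2 := by nlinarith
  unfold Cup
  rw [← hA]
  calc 2 * A + 2 * A * μ * Gr + (1 + 2 * A) * (2 * A + n * Gr)
      ≤ 2 * A ^ 2 + 2 * A ^ 2 * μ * g + (A ^ 2 + 2 * A ^ 2) * (2 + n * g) := by
        have h1 : (1 + 2 * A) * (2 * A + n * Gr) ≤ (3 * A) * ((2 + n * g) * A) := by
          apply mul_le_mul (by linarith) _ (by positivity) (by positivity)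
          have : n * Gr ≤ n * g * A := by
            calc n * Gr ≤ n * g := mul_le_mul_of_nonneg_left hGg (Nat.cast_nonneg n)
              _ ≤ n * g * A := le_mul_of_one_le_right (by positivity) hA1
          linarith
        have h2 : (3 * A) * ((2 + n * g) * A) = (A ^ 2 + 2 * A ^ 2) * (2 + n * g) := by ring
        have h3 : 2 * A * μ * Gr ≤ 2 * A ^ 2 * μ * g := by gcongr
        linarith
    _ = A ^ 2 * (8 + 2 * μ * g + 3 * n * g) := by ring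
    _ = _ := by rw [hA2]; ring

lemma upl_nat {n m : ℕ} (hn : 3 ≤ n) (hm : m = n ^ 3 + 4 * n ^ 2) :
    8 * n + 3 ≤ 2 * m ∧ 5 ≤ m ∧ 2 * m + 3 ≤ m * n := by
  have hn3 : 27 ≤ n ^ 3 := by
    calc 27 = 3 ^ 3 := by norm_num
      _ ≤ n ^ 3 := Nat.pow_le_pow_left hn 3
  have hnn : 3 * n ≤ n ^ 2 := by
    rw [pow_two]
    exact Nat.mul_le_mul_right _ hn
  have hm5 : 5 ≤ m := by rw [hm]; omega
  refine ⟨by rw [hm]; omega, hm5, ?_⟩
  calc 2 * m + 3 ≤ m * 3 := by omega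
    _ ≤ m * n := Nat.mul_le_mul_left _ hn

lemma upl_c2 {D₀ C C₃ ν t G x : ℝ} (hD : 0 < D₀) (hG : 0 < G) (hx : 0 < x)
    (ht : t = G * (1 / x) / (64 * D₀)) (hCν : C * ν ≤ C₃ / x ^ 3)
    (y2 : 8192 * D₀ ^ 2 * C₃ ≤ x * G ^ 2) : 2 * D₀ * C * ν / t ≤ G * (1 / x) / 64 := by
  have ht0 : 0 < t := by rw [ht]; positivity
  rw [div_le_iff₀ ht0]
  have h1 : 2 * D₀ * C * ν ≤ 2 * D₀ * (C₃ / x ^ 3) := by
    calc 2 * D₀ * C * ν = 2 * D₀ * (C * ν) := by ring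
      _ ≤ _ := mul_le_mul_of_nonneg_left hCν (by positivity)
  refine h1.trans ?_
  rw [ht]
  have h2 : G * (1 / x) / 64 * (G * (1 / x) / (64 * D₀)) = G ^ 2 * x / (4096 * D₀ * x ^ 3) := by
    field_simp
    ring
  rw [h2, ← mul_div_assoc, div_le_div_iff₀ (by positivity) (by positivity)]
  have h3 : 8192 * D₀ ^ 2 * C₃ * x ^ 3 ≤ x * G ^ 2 * x ^ 3 :=
    mul_le_mul_of_nonneg_right y2 (by positivity)
  calc 2 * D₀ * C₃ * (4096 * D₀ * x ^ 3) = 8192 * D₀ ^ 2 * C₃ * x ^ 3 := by ring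
    _ ≤ x * G ^ 2 * x ^ 3 := h3
    _ = _ := by ring

lemma upl_c3 {D₀ ν t G x L : ℝ} {n m : ℕ} (hD : 0 < D₀) (hG : 0 < G) (hx : 1 ≤ x) (hν : 0 < ν)
    (ht : t = G * (1 / x) / (64 * D₀)) (hL : x ^ m ≤ L) (hν1 : 1 / 2 / x ^ (2 * m) ≤ ν)
    (hmn : 2 * m + 3 ≤ m * n)
    (y3 : 8192 * D₀ ^ 2 ≤ x * G ^ 2) : D₀ / t ≤ G * (1 / x) / 64 * (ν * L ^ n) := by
  have hx0 : 0 < x := by linarith
  have h1 : x ^ 3 / 2 ≤ ν * L ^ n := by
    have h2 : x ^ (m * n) ≤ L ^ n := by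
      rw [pow_mul]
      exact pow_le_pow_left₀ (by positivity) hL n
    calc x ^ 3 / 2 = 1 / 2 / x ^ (2 * m) * (x ^ (2 * m) * x ^ 3) := by field_simp
      _ ≤ 1 / 2 / x ^ (2 * m) * x ^ (m * n) := by
          apply mul_le_mul_of_nonneg_left _ (by positivity)
          rw [← pow_add]
          exact pow_le_pow_right₀ hx hmn
      _ ≤ ν * L ^ n := mul_le_mul hν1 h2 (by positivity) hν.le
  have h4 : D₀ / t = 64 * D₀ ^ 2 * x / G := by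
    rw [ht]
    field_simp
  rw [h4]
  calc 64 * D₀ ^ 2 * x / G ≤ G * (1 / x) / 64 * (x ^ 3 / 2) := by
        rw [div_le_iff₀ hG]
        have h5 : G * (1 / x) / 64 * (x ^ 3 / 2) * G = x * G ^ 2 * x / 128 := by
          field_simp
          ring
        rw [h5]
        have h6 : 8192 * D₀ ^ 2 * x ≤ x * G ^ 2 * x := mul_le_mul_of_nonneg_right y3 hx0.le
        linarith only [h6]
    _ ≤ _ := mul_le_mul_of_nonneg_left h1 (by positivity)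

lemma upl_c4 {C C₃ ν G x : ℝ} (hG : 0 < G) (hx : 1 ≤ x) (hCν : C * ν ≤ C₃ / x ^ 3)
    (y4 : 32 * C₃ ≤ x * G) : C * (ν + 0) ≤ G * (1 / x) / 32 := by
  have hx0 : 0 < x := by linarith
  rw [add_zero]
  refine hCν.trans ?_
  rw [div_le_div_iff₀ (by positivity) (by norm_num)]
  have h5 : G * (1 / x) * x ^ 3 = x * G * x := by field_simp
  rw [h5]
  have h6 : x * G * 1 ≤ x * G * x := mul_le_mul_of_nonneg_left hx (by positivity)
  linarith only [h6, y4]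

lemma upl_cν {C C₃ ν x : ℝ} {n m : ℕ} (hx : 1 ≤ x) (hν : 0 < ν) (hC₃ : 0 < C₃)
    (hC : C ≤ C₃ * x ^ (8 * n)) (hν2 : ν ≤ 1 / x ^ (2 * m)) (hm : 8 * n + 3 ≤ 2 * m) :
    C * ν ≤ C₃ / x ^ 3 := by
  have hx0 : 0 < x := by linarith
  calc C * ν ≤ C₃ * x ^ (8 * n) * (1 / x ^ (2 * m)) := mul_le_mul hC hν2 hν.le (by positivity)
    _ = C₃ * (x ^ (8 * n) / x ^ (2 * m)) := by ring
    _ ≤ C₃ * (1 / x ^ 3) := by
        apply mul_le_mul_of_nonneg_left _ hC₃.le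
        rw [div_le_div_iff₀ (by positivity) (by positivity), one_mul, ← pow_add]
        exact pow_le_pow_right₀ hx hm
    _ = _ := by ring

/-- the upper bound of the energy, with a rate -/
theorem upL (n : ℕ) (μ R₀ : ℝ) (v : ℝ → ℝ≥0∞) (hn : 3 ≤ n) (hμ : 0 < μ) (hv : Measurable v)
    (hvR : ∀ r, R₀ < r → v r = 0) (hG0 : 0 < scat n μ v) :
    ∃ x₁ : ℝ, 1 ≤ x₁ ∧ ∀ x : ℝ, x₁ ≤ x → ∀ (L : ℝ) [Fact (0 < L)] (N : ℕ) (ν : ℝ),
      x ^ (n ^ 3 + 4 * n ^ 2) ≤ L → ν = N / L ^ n →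
      1 / 2 / x ^ (2 * (n ^ 3 + 4 * n ^ 2)) ≤ ν → ν ≤ 1 / x ^ (2 * (n ^ 3 + 4 * n ^ 2)) →
      ee n L (ENNReal.ofReal μ) (fun _ => 0) v N ≤
        ENNReal.ofReal (scat n μ v / 2 * ν ^ 2 * (1 + 1 / x) * L ^ n) := by
  have hTF := Pool.Agent.W135.CB.proof_tf
  have hCONV := conv2 hTF
  have hKQ := Pool.Agent.W214.CC.main
  have hUPT := upt3 Pool.Agent.W216.CC.jas hTF
  have hn1 : 1 ≤ n := by omega
  obtain ⟨Cr, hCr, hrate⟩ := rate hKQ μ R₀ v hn hμ hv hvR hG0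
  obtain ⟨G, hGdef⟩ : ∃ G : ℝ, G = scat n μ v := ⟨_, rfl⟩
  rw [← hGdef] at hG0 hrate ⊢
  have hvt : ∫⁻ z in {z : Fin n → ℝ | R₀ < el z}, v (el z) ≠ ⊤ := by
    have h1 : ∫⁻ z in {z : Fin n → ℝ | R₀ < el z}, v (el z) = 0 := by
      rw [setLIntegral_congr_fun (g := fun _ => 0)
        (measurableSet_lt measurable_const Pool.Agent.W612.CC.el_meas) fun z hz => hvR _ hz]
      simp
    rw [h1]
    exact ENNReal.zero_ne_top
  -- the energy of one more particle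
  obtain ⟨R, hRdef⟩ : ∃ R : ℝ, R = max 1 R₀ := ⟨_, rfl⟩
  have hR1 : 1 ≤ R := by rw [hRdef]; exact le_max_left _ _
  have hRR : R₀ ≤ R := by rw [hRdef]; exact le_max_right _ _
  have hR0 : 0 < R := by linarith
  obtain ⟨Tv, hTvd⟩ : ∃ Tv : ℝ, Tv = (∫⁻ z : Fin n → ℝ, vo R₀ v (el z)).toReal := ⟨_, rfl⟩
  have hTv0 : 0 ≤ Tv := by rw [hTvd]; exact ENNReal.toReal_nonneg
  have hTv : ∫⁻ z : Fin n → ℝ, vo R₀ v (el z) ≤ ENNReal.ofReal Tv := by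
    rw [hTvd, ENNReal.ofReal_toReal]
    rw [vo_int]
    exact hvt
  obtain ⟨D₀, hD₀⟩ : ∃ D₀ : ℝ, D₀ = 16 * (4 * R) ^ n * (n * μ + 1) + Tv := ⟨_, rfl⟩
  have hD₀0 : 0 < D₀ := by rw [hD₀]; positivity
  -- the constants
  obtain ⟨c₁, hc₁⟩ : ∃ c₁ : ℝ, c₁ = Cr * 16 ^ 4 := ⟨_, rfl⟩
  have hc₁1 : 1 ≤ c₁ := by rw [hc₁]; linarith
  obtain ⟨C₃, hC₃⟩ : ∃ C₃ : ℝ, C₃ = (2 * c₁) ^ (2 * n) * (8 + 2 * μ * (G / μ) +
    3 * n * (G / μ)) := ⟨_, rfl⟩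
  have hC₃0 : 0 < C₃ := by rw [hC₃]; positivity
  obtain ⟨x₁, hx₁⟩ : ∃ x₁ : ℝ, x₁ = 1 + 8 * c₁ + 8192 * D₀ ^ 2 * C₃ / G ^ 2 +
    8192 * D₀ ^ 2 / G ^ 2 + 32 * C₃ / G + C₃ + 2 * (4 * R) ^ n := ⟨_, rfl⟩
  have p1 : 0 ≤ 8192 * D₀ ^ 2 * C₃ / G ^ 2 := by positivity
  have p2 : 0 ≤ 8192 * D₀ ^ 2 / G ^ 2 := by positivity
  have p3 : 0 ≤ 32 * C₃ / G := by positivity
  have p4 : 0 ≤ 2 * (4 * R) ^ n := by positivity
  refine ⟨x₁, by rw [hx₁]; linarith, ?_⟩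
  intro x hx L _ N ν hL hν hν1 hν2
  rw [hx₁] at hx
  have hx1 : 1 ≤ x := by linarith
  have hx0 : 0 < x := by linarith
  have y1 : 8 * c₁ ≤ x := by linarith
  have y2 : 8192 * D₀ ^ 2 * C₃ / G ^ 2 ≤ x := by linarith
  have y3 : 8192 * D₀ ^ 2 / G ^ 2 ≤ x := by linarith
  have y4 : 32 * C₃ / G ≤ x := by linarith
  have y5 : C₃ ≤ x := by linarith
  have y6 : 2 * (4 * R) ^ n ≤ x := by linarith
  rw [div_le_iff₀ (by positivity)] at y2 y3 y4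
  have hLpos : 0 < L := Fact.out
  have hV : (0 : ℝ) < L ^ n := by positivity
  obtain ⟨m, hm⟩ : ∃ m : ℕ, m = n ^ 3 + 4 * n ^ 2 := ⟨_, rfl⟩
  rw [← hm] at hL hν1 hν2
  obtain ⟨hm9, hm5, hmn⟩ := upl_nat hn hm
  have hν0 : 0 < ν := lt_of_lt_of_le (by positivity) hν1
  have hNν : (N : ℝ) = ν * L ^ n := by rw [hν]; field_simp
  have hN0 : (0 : ℝ) < N := by rw [hNν]; positivity
  have hN1 : 0 < N := by exact_mod_cast hN0
  obtain ⟨e, he⟩ : ∃ e : ℝ, e = 1 / x := ⟨_, rfl⟩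
  have he0 : 0 < e := by rw [he]; positivity
  have he1 : e ≤ 1 := by rw [he, div_le_one hx0]; exact hx1
  have hex : e * x = 1 := by rw [he]; field_simp
  obtain ⟨af, haf⟩ : ∃ af : ℝ, af = c₁ * x ^ 4 := ⟨_, rfl⟩
  have haf1 : 1 ≤ af := by
    rw [haf]
    have : 1 ≤ x ^ 4 := one_le_pow₀ hx1
    nlinarith
  obtain ⟨f, hfm, hfe, hf01, hfa, hfQ⟩ := hrate (e / 16) (by positivity) (by linarith) af (by
    rw [haf, hc₁, he]
    apply le_of_eq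
    field_simp)
  have hfQ' : QD μ v Set.univ f ≤ ENNReal.ofReal (G / 2 + G * e / 32) := by
    refine hfQ.trans (le_of_eq ?_)
    congr 1
    ring
  have hQt : QD μ v Set.univ f ≠ ⊤ := ne_top_of_le_ne_top ENNReal.ofReal_ne_top hfQ
  obtain ⟨C, hC0, hCe, hupt⟩ := hUPT n μ af v f hn1 hμ hv hfm hfe hf01 haf1 hfa hQt
  have hGr : (gr Set.univ f).toReal ≤ G / μ := by
    have h1 : ENNReal.ofReal μ * gr Set.univ f ≤ ENNReal.ofReal G := by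
      calc ENNReal.ofReal μ * gr Set.univ f ≤ QD μ v Set.univ f := le_self_add
        _ ≤ _ := hfQ'.trans (ENNReal.ofReal_le_ofReal (by nlinarith))
    have h2 : gr Set.univ f ≤ ENNReal.ofReal (G / μ) := by
      rw [ENNReal.ofReal_div_of_pos hμ, ENNReal.le_div_iff_mul_le
        (Or.inl (by rw [ne_eq, ENNReal.ofReal_eq_zero]; linarith)) (Or.inl ENNReal.ofReal_ne_top),
        mul_comm]
      exact h1
    exact ENNReal.toReal_le_of_le_ofReal (by positivity) h2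
  have hCle : C ≤ C₃ * x ^ (8 * n) := by
    rw [hCe, hC₃]
    exact Cup_le hμ hc₁1 hx1 haf ENNReal.toReal_nonneg hGr
  have hCν : C * ν ≤ C₃ / x ^ 3 := upl_cν hx1 hν0 hC₃0 hCle hν2 hm9
  have hC1 : C * ν ≤ 1 := by
    refine hCν.trans ?_
    rw [div_le_one (by positivity)]
    exact y5.trans (le_self_pow₀ hx1 (by norm_num))
  obtain ⟨t, ht⟩ : ∃ t : ℝ, t = G * e / (64 * D₀) := ⟨_, rfl⟩
  have ht0 : 0 < t := by rw [ht]; positivity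
  have hD₀t : D₀ * t ≤ G * e / 64 := by
    rw [ht]
    refine le_of_eq ?_
    field_simp
  have ht' : t = G * (1 / x) / (64 * D₀) := by rw [ht, he]
  have hc2 : 2 * D₀ * C * ν / t ≤ G * e / 64 := by
    rw [he]
    exact upl_c2 hD₀0 hG0 hx0 ht' hCν y2
  have hc3 : D₀ / t ≤ G * e / 64 * (ν * L ^ n) := by
    rw [he]
    exact upl_c3 hD₀0 hG0 hx1 hν0 ht' hL hν1 hmn y3
  have hc4 : C * (ν + 0) ≤ G * e / 32 := by
    rw [he]
    exact upl_c4 hG0 hx1 hCν y4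
  have hLa : 8 * af ≤ L := by
    refine le_trans ?_ hL
    rw [haf]
    calc 8 * (c₁ * x ^ 4) = 8 * c₁ * x ^ 4 := by ring
      _ ≤ x * x ^ 4 := mul_le_mul_of_nonneg_right y1 (by positivity)
      _ = x ^ 5 := by ring
      _ ≤ x ^ m := pow_le_pow_right₀ hx1 hm5
  have hν01 : ν ≤ 1 := by
    refine hν2.trans ?_
    rw [div_le_one (by positivity)]
    exact one_le_pow₀ hx1
  have hK : Measurable (fun _ : Fin n → ℝ => (0 : ℝ≥0∞)) := measurable_const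
  have hgE : gEv (ENNReal.ofReal μ) (fun _ => 0) v (s1 n L R) ≤ ENNReal.ofReal D₀ := by
    rw [hD₀]
    exact gE_D0 hTF hR1 hRR hμ hTv0 hv hTv (by simp)
  have hgv : gv (s1 n L R) ≤ ENNReal.ofReal ((4 * R) ^ n) := gv_s1 hR0
  have hN2 : 2 * (ENNReal.ofReal ((4 * R) ^ n) * N) ≤ ENNReal.ofReal (L ^ n) := by
    refine add_num (δ := ν) hR0 hLpos hNν.le ?_
    have h1 : ν ≤ 1 / x := by
      refine hν2.trans ?_
      apply one_div_le_one_div_of_le hx0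
      exact le_self_pow₀ hx1 (by omega)
    calc ν * (2 * (4 * R) ^ n) ≤ 1 / x * x := mul_le_mul h1 y6 p4 (by positivity)
      _ = 1 := by field_simp
  obtain ⟨Ca, hCa⟩ : ∃ Ca : ℝ, Ca = 2 * (D₀ * N) / L ^ n := ⟨_, rfl⟩
  have hCaE : 2 * (ENNReal.ofReal D₀ * N) / ENNReal.ofReal (L ^ n) = ENNReal.ofReal Ca := by
    rw [hCa]
    exact Ca_eq hLpos hD₀0
  obtain ⟨φ, hφ, hφ1, hφN, hφN2, hφE, hφ2⟩ := hupt L (fun _ => 0) 0 ν hLa hK le_rfl hν0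
    hν01 (by simp)
  have hlowA : ee n L (ENNReal.ofReal μ) (fun _ => 0) v N * nE volume φ ≤
        en (ENNReal.ofReal μ) (fun _ => 0) v φ + ENNReal.ofReal Ca * dm volume N φ := by
    rw [← hCaE]
    exact low3v hTF hCONV (s1_Pf (n := n) (L := L) R) hK hv hgE hgv ENNReal.ofReal_ne_top hN2 φ hφ
  have hup0 := ee_upper hN1 hν hCa hD₀0.le hlowA hφ hφ1 hφN hφN2 hφE hφ2 hfQ' ht0 hG0 he0 hC0
      le_rfl hC1 hD₀t hc2 hc3 hc4
  refine hup0.trans (ENNReal.ofReal_le_ofReal ?_)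
  rw [← he]
  have : G / 2 * ν ^ 2 * (1 + e / 4) ≤ G / 2 * ν ^ 2 * (1 + e) := by
    apply mul_le_mul_of_nonneg_left _ (by positivity)
    linarith
  exact mul_le_mul_of_nonneg_right this hV.le

end

end Pool.Agent.Y656
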