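import Pool.Agent.Y656.Main4

/-!
# The upper bound of the energy without a hopping, for potentials with a tail
-/

set_option autoImplicit false

open MeasureTheory
open scoped ENNReal

namespace Pool.Agent.Y656

open Pool.Agent.W761.CB Pool.Agent.W761.CC Pool.Agent.TH268.CC

noncomputable section

/-- the upper bound of the energy -/
theorem upT (n : ℕ) (μ R₀ : ℝ) (v : ℝ → ℝ≥0∞) (hn : 3 ≤ n) (hμ : 0 < μ) (hv : Measurable v)
    (hvt : ∫⁻ z in {z : Fin n → ℝ | R₀ < el z}, v (el z) ≠ ⊤) (hG0 : 0 < scat n μ v)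
    (e : ℝ) (he0 : 0 < e) :
    ∃ Z₁ : ℝ, 1 ≤ Z₁ ∧ ∀ Z : ℝ, Z₁ ≤ Z → ∀ (L : ℝ) [Fact (0 < L)] (N : ℕ) (ν : ℝ),
      Z ≤ L → ν = N / L ^ n → 1 / 2 / Z ^ 2 ≤ ν → ν ≤ 1 / Z ^ 2 →
      ee n L (ENNReal.ofReal μ) (fun _ => 0) v N ≤
        ENNReal.ofReal (scat n μ v / 2 * ν ^ 2 * (1 + e / 4) * L ^ n) := by
  have hTF := Pool.Agent.W135.CB.proof_tf
  have hCONV := conv2 hTF
  have hKQ := Pool.Agent.W214.CC.main
  have hUPT := upt2 Pool.Agent.W216.CC.jas hTF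
  have hn1 : 1 ≤ n := by omega
  have hsym0 := symH hKQ μ R₀ v hv hvt
  obtain ⟨G, hGdef⟩ : ∃ G : ℝ, G = scat n μ v := ⟨_, rfl⟩
  rw [← hGdef] at hG0 hsym0 ⊢
  -- the energy of one more particle
  obtain ⟨R, hRdef⟩ : ∃ R : ℝ, R = max 1 R₀ := ⟨_, rfl⟩
  have hR1 : 1 ≤ R := by rw [hRdef]; exact le_max_left _ _
  have hRR : R₀ ≤ R := by rw [hRdef]; exact le_max_right _ _
  have hR0 : 0 < R := by linarith
  obtain ⟨Tv, hTvd⟩ : ∃ Tv : ℝ, Tv = (∫⁻ z : Fin n → ℝ, vo R₀ v (el z)).toReal := ⟨_, rfl⟩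
  have hTv0 : 0 ≤ Tv := by rw [hTvd]; exact ENNReal.toReal_nonneg
  have hTv : ∫⁻ z : Fin n → ℝ, vo R₀ v (el z) ≤ ENNReal.ofReal Tv := by
    rw [hTvd, ENNReal.ofReal_toReal]
    rw [vo_int]
    exact hvt
  obtain ⟨D₀, hD₀⟩ : ∃ D₀ : ℝ, D₀ = 16 * (4 * R) ^ n * (n * μ + 1) + Tv := ⟨_, rfl⟩
  have hD₀0 : 0 < D₀ := by rw [hD₀]; positivity
  obtain ⟨f, af, hfm, hfe, hf01, haf, hfa, hfQ⟩ := hsym0 (G * e / 32) (by positivity)
  obtain ⟨C, hC0, hupt⟩ := hUPT n μ af v f hn1 hμ hv hfm hfe hf01 haf hfa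
    (ne_top_of_le_ne_top ENNReal.ofReal_ne_top hfQ)
  obtain ⟨t, ht⟩ : ∃ t : ℝ, t = G * e / (64 * D₀) := ⟨_, rfl⟩
  have ht0 : 0 < t := by rw [ht]; positivity
  have hD₀t : D₀ * t ≤ G * e / 64 := by
    rw [ht]
    refine le_of_eq ?_
    field_simp
  obtain ⟨p2, hp2⟩ : ∃ p : ℝ, p = 2 * D₀ * C / t / (G * e / 64) := ⟨_, rfl⟩
  obtain ⟨p3, hp3⟩ : ∃ p : ℝ, p = 2 * (D₀ / t / (G * e / 64)) := ⟨_, rfl⟩
  obtain ⟨p4, hp4⟩ : ∃ p : ℝ, p = C / (G * e / 32) := ⟨_, rfl⟩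
  obtain ⟨p6, hp6⟩ : ∃ p : ℝ, p = 2 * (4 * R) ^ n := ⟨_, rfl⟩
  have q2 : 0 ≤ p2 := by rw [hp2]; positivity
  have q3 : 0 ≤ p3 := by rw [hp3]; positivity
  have q4 : 0 ≤ p4 := by rw [hp4]; positivity
  have q6 : 0 ≤ p6 := by rw [hp6]; positivity
  refine ⟨1 + 8 * af + C + p2 + p3 + p4 + p6, by linarith, ?_⟩
  intro Z hZ L _ N ν hL hν hν1 hν2
  have hZ1 : 1 ≤ Z := by linarith
  have hZ0 : 0 < Z := by linarith
  have y1 : 8 * af ≤ Z := by linarith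
  have y2 : p2 ≤ Z := by linarith
  have y3 : p3 ≤ Z := by linarith
  have y4 : p4 ≤ Z := by linarith
  have y5 : C ≤ Z := by linarith
  have y6 : p6 ≤ Z := by linarith
  have hLpos : 0 < L := Fact.out
  have hV : (0 : ℝ) < L ^ n := by positivity
  have hν0 : 0 < ν := lt_of_lt_of_le (by positivity) hν1
  have hNν : (N : ℝ) = ν * L ^ n := by rw [hν]; field_simp
  have hN0 : (0 : ℝ) < N := by rw [hNν]; positivity
  have hN1 : 0 < N := by exact_mod_cast hN0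
  have hνZ : ν * Z ≤ 1 := by
    have h1 : ν * Z ^ 2 ≤ 1 := by
      rw [le_div_iff₀ (by positivity)] at hν2
      exact hν2
    have h2 : ν * Z * 1 ≤ ν * Z * Z := mul_le_mul_of_nonneg_left hZ1 (by positivity)
    have h3 : ν * Z * Z = ν * Z ^ 2 := by ring
    linarith
  have hCν : C * ν ≤ 1 := by
    calc C * ν ≤ Z * ν := mul_le_mul_of_nonneg_right y5 hν0.le
      _ = ν * Z := by ring
      _ ≤ 1 := hνZ
  have hg : 0 < G * e / 64 := by positivity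
  have hc2 : 2 * D₀ * C * ν / t ≤ G * e / 64 := by
    have e1 : 2 * D₀ * C * ν / t = p2 * ν * (G * e / 64) := by
      rw [hp2]
      field_simp
    have h1 : p2 * ν ≤ 1 := by
      calc p2 * ν ≤ Z * ν := mul_le_mul_of_nonneg_right y2 hν0.le
        _ = ν * Z := by ring
        _ ≤ 1 := hνZ
    rw [e1]
    calc p2 * ν * (G * e / 64) ≤ 1 * (G * e / 64) := mul_le_mul_of_nonneg_right h1 hg.le
      _ = _ := one_mul _
  have hLn : Z ^ 3 ≤ L ^ n := by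
    calc Z ^ 3 ≤ L ^ 3 := pow_le_pow_left₀ hZ0.le hL 3
      _ ≤ L ^ n := pow_le_pow_right₀ (hZ1.trans hL) hn
  have hNZ : Z / 2 ≤ ν * L ^ n := by
    calc Z / 2 = 1 / 2 / Z ^ 2 * Z ^ 3 := by field_simp
      _ ≤ ν * L ^ n := mul_le_mul hν1 hLn (by positivity) hν0.le
  have hc3 : D₀ / t ≤ G * e / 64 * (ν * L ^ n) := by
    have e1 : D₀ / t = G * e / 64 * (p3 / 2) := by
      rw [hp3]
      field_simp
    rw [e1]
    exact mul_le_mul_of_nonneg_left (by linarith) hg.le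
  have hc4 : C * (ν + 0) ≤ G * e / 32 := by
    have e1 : C * (ν + 0) = p4 * ν * (G * e / 32) := by
      rw [hp4]
      field_simp
      ring
    have h1 : p4 * ν ≤ 1 := by
      calc p4 * ν ≤ Z * ν := mul_le_mul_of_nonneg_right y4 hν0.le
        _ = ν * Z := by ring
        _ ≤ 1 := hνZ
    rw [e1]
    calc p4 * ν * (G * e / 32) ≤ 1 * (G * e / 32) :=
          mul_le_mul_of_nonneg_right h1 (by positivity)
      _ = _ := one_mul _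
  have hν01 : ν ≤ 1 := by
    refine hν2.trans ?_
    rw [div_le_one (by positivity)]
    exact one_le_pow₀ hZ1
  have hK : Measurable (fun _ : Fin n → ℝ => (0 : ℝ≥0∞)) := measurable_const
  have hgE : gEv (ENNReal.ofReal μ) (fun _ => 0) v (s1 n L R) ≤ ENNReal.ofReal D₀ := by
    rw [hD₀]
    exact gE_D0 hTF hR1 hRR hμ hTv0 hv hTv (by simp)
  have hgv : gv (s1 n L R) ≤ ENNReal.ofReal ((4 * R) ^ n) := gv_s1 hR0
  have hN2 : 2 * (ENNReal.ofReal ((4 * R) ^ n) * N) ≤ ENNReal.ofReal (L ^ n) := by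
    refine add_num (δ := ν) hR0 hLpos hNν.le ?_
    calc ν * (2 * (4 * R) ^ n) = p6 * ν := by rw [hp6]; ring
      _ ≤ Z * ν := mul_le_mul_of_nonneg_right y6 hν0.le
      _ = ν * Z := by ring
      _ ≤ 1 := hνZ
  obtain ⟨Ca, hCa⟩ : ∃ Ca : ℝ, Ca = 2 * (D₀ * N) / L ^ n := ⟨_, rfl⟩
  have hCaE : 2 * (ENNReal.ofReal D₀ * N) / ENNReal.ofReal (L ^ n) = ENNReal.ofReal Ca := by
    rw [hCa]
    exact Ca_eq hLpos hD₀0
  obtain ⟨φ, hφ, hφ1, hφN, hφN2, hφE, hφ2⟩ := hupt L (fun _ => 0) 0 ν (y1.trans hL) hK le_rfl hν0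
    hν01 (by simp)
  have hlowA : ee n L (ENNReal.ofReal μ) (fun _ => 0) v N * nE volume φ ≤
        en (ENNReal.ofReal μ) (fun _ => 0) v φ + ENNReal.ofReal Ca * dm volume N φ := by
    rw [← hCaE]
    exact low3v hTF hCONV (s1_Pf (n := n) (L := L) R) hK hv hgE hgv ENNReal.ofReal_ne_top hN2 φ hφ
  exact ee_upper hN1 hν hCa hD₀0.le hlowA hφ hφ1 hφN hφN2 hφE hφ2 hfQ ht0 hG0 he0 hC0
      le_rfl hCν hD₀t hc2 hc3 hc4

end

end Pool.Agent.Y656
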